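import Mathlib

/-!
# Bridge, module BrMat: semicontinuity of the rank of a matrix of polynomials

PAPER PROOF.  `exists_minor`: choose `rank A` linearly independent columns, then `rank A` linearly independent rows of the resulting
matrix (row rank = column rank).  `le_rank_of_minor`: the rank of a submatrix is at most the rank; an invertible matrix of size `n` has
rank `n`.  `rank_semi`: take for `Q` the minor of `exists_minor` for the specialised matrix over `K`.
-/

set_option autoImplicit false

namespace Pool.Agent.Spl2

open MvPolynomial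

variable {ι κ σ : Type*} [Fintype ι] [Fintype κ] [DecidableEq ι] [DecidableEq κ]

omit [DecidableEq ι] in
theorem exists_rows_of_col_li {K : Type*} [Field K] {μ : Type*} [Fintype μ] [DecidableEq μ]
    (B : Matrix ι μ K) (hB : LinearIndependent K B.col) :
    ∃ f : μ → ι, (B.submatrix f id).det ≠ 0 := by
  obtain ⟨κ', a, _, hspan, hli⟩ := exists_linearIndependent' K B.row
  have hfin : Finite κ' := hli.finite
  have : Fintype κ' := Fintype.ofFinite κ'
  have h1 : Module.finrank K (Submodule.span K (Set.range (B.row ∘ a))) = Fintype.card κ' :=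
    finrank_span_eq_card hli
  have h2 : B.rank = Fintype.card κ' := by
    rw [Matrix.rank_eq_finrank_span_row, ← hspan, h1]
  have h3 : B.rank = Fintype.card μ := by
    rw [Matrix.rank_eq_finrank_span_cols, finrank_span_eq_card hB]
  let e : μ ≃ κ' := Fintype.equivOfCardEq (h3.symm.trans h2)
  refine ⟨fun j => a (e j), ?_⟩
  have h4 : LinearIndependent K (B.submatrix (fun j => a (e j)) id).row := by
    have := hli.comp e e.injective
    exact this
  have h5 := Matrix.linearIndependent_rows_iff_isUnit.1 h4
  rw [Matrix.isUnit_iff_isUnit_det] at h5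
  exact h5.ne_zero

theorem exists_minor {K : Type*} [Field K] (A : Matrix ι κ K) :
    ∃ (f : Fin A.rank → ι) (g : Fin A.rank → κ), (A.submatrix f g).det ≠ 0 := by
  obtain ⟨κ', a, _, hspan, hli⟩ := exists_linearIndependent' K A.col
  have hfin : Finite κ' := hli.finite
  have : Fintype κ' := Fintype.ofFinite κ'
  have h1 : Module.finrank K (Submodule.span K (Set.range (A.col ∘ a))) = Fintype.card κ' :=
    finrank_span_eq_card hli
  have h2 : A.rank = Fintype.card κ' := by
    rw [Matrix.rank_eq_finrank_span_cols, ← hspan, h1]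
  let e : Fin A.rank ≃ κ' := Fintype.equivOfCardEq (by rw [Fintype.card_fin, h2])
  have h4 : LinearIndependent K (A.submatrix id (fun j => a (e j))).col := by
    have := hli.comp e e.injective
    exact this
  obtain ⟨f, hf⟩ := exists_rows_of_col_li _ h4
  exact ⟨f, fun j => a (e j), hf⟩

theorem le_rank_of_minor {K : Type*} [Field K] (A : Matrix ι κ K) (n : ℕ) (f : Fin n → ι)
    (g : Fin n → κ) (h : (A.submatrix f g).det ≠ 0) : n ≤ A.rank := by
  have h1 := Matrix.rank_submatrix_le A f g
  rw [Matrix.rank_of_det_ne_zero h, Fintype.card_fin] at h1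
  exact h1

/-- specialisation of a matrix of integral polynomials -/
noncomputable def spec {K : Type*} [Field K] (A : Matrix ι κ (MvPolynomial σ ℤ)) (p : σ → K) :
    Matrix ι κ K :=
  A.map fun P => eval₂ (Int.castRingHom K) p P

omit [Fintype ι] [Fintype κ] [DecidableEq ι] [DecidableEq κ] in
theorem det_submatrix_spec {μ : Type*} [Fintype μ] [DecidableEq μ] {R : Type*} [CommRing R]
    (A : Matrix ι κ (MvPolynomial σ ℤ)) (p : σ → R) (f : μ → ι) (g : μ → κ) :
    ((A.map fun P => eval₂ (Int.castRingHom R) p P).submatrix f g).det =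
      eval₂ (Int.castRingHom R) p (A.submatrix f g).det := by
  have h := RingHom.map_det (eval₂Hom (Int.castRingHom R) p) (A.submatrix f g)
  rw [coe_eval₂Hom] at h
  rw [h]
  rfl

theorem rank_semi {K : Type*} [Field K] (A : Matrix ι κ (MvPolynomial σ ℤ)) (p₀ : σ → K) :
    ∃ Q : MvPolynomial σ ℤ, eval₂ (Int.castRingHom K) p₀ Q ≠ 0 ∧
      ∀ (F : Type) [Field F] (p : σ → F), eval₂ (Int.castRingHom F) p Q ≠ 0 →
        (spec A p₀).rank ≤ (spec A p).rank := by
  obtain ⟨f, g, hfg⟩ := exists_minor (spec A p₀)
  refine ⟨(A.submatrix f g).det, ?_, ?_⟩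
  · rw [← det_submatrix_spec]
    exact hfg
  · intro F _ p hp
    rw [← det_submatrix_spec] at hp
    exact le_rank_of_minor _ _ f g hp

/-- version with a polynomial over a field `F` of characteristic `0` -/
theorem rank_semi_char0 {K : Type*} [Field K] (A : Matrix ι κ (MvPolynomial σ ℤ)) (p₀ : σ → K) :
    ∃ Q : MvPolynomial σ ℝ, Q ≠ 0 ∧
      ∀ p : σ → ℝ, eval p Q ≠ 0 → (spec A p₀).rank ≤ (spec A p).rank := by
  obtain ⟨Q, hQ, hQ2⟩ := rank_semi A p₀
  refine ⟨map (Int.castRingHom ℝ) Q, ?_, ?_⟩
  · intro h0
    have hinj := map_injective (σ := σ) (Int.castRingHom ℝ) (RingHom.injective_int _)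
    have : Q = 0 := hinj (by rw [h0, map_zero])
    apply hQ
    rw [this, eval₂_zero]
  · intro p hp
    rw [eval_map] at hp
    exact hQ2 ℝ p hp

/-- version for an extension: nonsingular somewhere over a domain containing the field `K` implies generically nonsingular -/
theorem inj_generic {K : Type*} [Field K] {D : Type*} [CommRing D] [IsDomain D] [Algebra K D]
    (A : Matrix ι κ (MvPolynomial σ ℤ)) (p₀ : σ → D)
    (h : ∀ x : κ → D, (A.map fun P => eval₂ (Int.castRingHom D) p₀ P).mulVec x = 0 → x = 0) :
    ∃ Q : MvPolynomial σ K, Q ≠ 0 ∧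
      ∀ p : σ → K, eval p Q ≠ 0 → ∀ x : κ → K, (spec A p).mulVec x = 0 → x = 0 := by
  classical
  let L := FractionRing D
  let B : Matrix ι κ D := A.map fun P => eval₂ (Int.castRingHom D) p₀ P
  let BL : Matrix ι κ L := B.map (algebraMap D L)
  have hinj : ∀ y : κ → L, BL.mulVec y = 0 → y = 0 := by
    intro y hy
    obtain ⟨b, hb⟩ := IsLocalization.exist_integer_multiples_of_finite (nonZeroDivisors D) y
    choose x hx using hb
    have hx0 : B.mulVec x = 0 := by
      funext i
      have h1 : algebraMap D L (B.mulVec x i) = 0 := by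
        have h2 : algebraMap D L (B.mulVec x i) = (b : D) • (BL.mulVec y i) := by
          simp only [Matrix.mulVec, dotProduct, map_sum, map_mul, Finset.smul_sum]
          refine Finset.sum_congr rfl fun j _ => ?_
          rw [hx j]
          change _ = (b : D) • (algebraMap D L (B i j) * y j)
          rw [mul_smul_comm]
        rw [h2, hy]
        simp
      have h3 : Function.Injective (algebraMap D L) := IsFractionRing.injective D L
      exact h3 (by rw [h1, Pi.zero_apply, map_zero])
    have hxz := h x hx0
    funext j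
    have h4 : (b : D) • y j = 0 := by
      rw [← hx j, hxz, Pi.zero_apply, map_zero]
    have hb0 : (b : D) ≠ 0 := nonZeroDivisors.coe_ne_zero b
    rcases smul_eq_zero.1 h4 with h5 | h5
    · exact absurd h5 hb0
    · simpa using h5
  have hli : LinearIndependent L BL.col := by
    rw [← Matrix.mulVec_injective_iff]
    intro y z hyz
    have : BL.mulVec (y - z) = 0 := by
      rw [Matrix.mulVec_sub, sub_eq_zero]
      exact hyz
    exact sub_eq_zero.1 (hinj _ this)
  obtain ⟨f, hf⟩ := exists_rows_of_col_li BL hli
  have hf2 : (B.submatrix f id).det ≠ 0 := by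
    intro h0
    apply hf
    have h1 := RingHom.map_det (algebraMap D L) (B.submatrix f id)
    rw [h0, map_zero] at h1
    exact h1.symm
  have hf3 : eval₂ (Int.castRingHom D) p₀ (A.submatrix f id).det ≠ 0 := by
    rw [← det_submatrix_spec]
    exact hf2
  refine ⟨map (Int.castRingHom K) (A.submatrix f id).det, ?_, ?_⟩
  · intro h0
    apply hf3
    have h1 : eval₂ (algebraMap K D) p₀ (map (Int.castRingHom K) (A.submatrix f id).det) = 0 := by
      rw [h0, eval₂_zero]
    rw [eval₂_map] at h1
    have h2 : (algebraMap K D).comp (Int.castRingHom K) = Int.castRingHom D := RingHom.ext_int _ _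
    rwa [h2] at h1
  · intro p hp x hx
    rw [eval_map, ← det_submatrix_spec] at hp
    apply Matrix.eq_zero_of_mulVec_eq_zero hp
    funext i
    have := congrFun hx (f i)
    exact this

end Pool.Agent.Spl2
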