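import Pool.Agent.Spl2.BrDefs

/-!
# Bridge, module BrApol: the apolar pairing

`apo F G = ∑_m m! (coeff m F) (coeff m G)`, `m! = ∏_s (m s)!`, the apolar pairing of polynomials in three variables.

PAPER PROOF.  `apo` is bilinear (finite sum over the support of `F`; enlarge the support when adding).
(1) `apo (X s * F) G = apo F (pderiv s G)`: for a monomial `F = X^m` both sides are `(m + e_s)! coeff (m + e_s) G`
(`coeff m (pderiv s G) = (m s + 1) coeff (m + e_s) G`).
(2) Let `bet p u v` be the substitution `X 0 ↦ e₀ = X 1 - y_v X 2`, `X 1 ↦ e₁ = - X 1 + y_u X 2`,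
`X 2 ↦ e₂ = Δ X 0 - (x_u - x_v) X 1 + (x_u y_v - x_v y_u) X 2`, `Δ = y_u - y_v` (the transpose of `adp p u v`).  Chain rule:
`pderiv t (adp p u v G) = adp p u v (∑_s B t s • pderiv s G)` where `e_t = ∑_s B t s X s` (induction on `G`: both sides
are derivations along `adp p u v`, check `G = X s`).
(3) `apo (bet p u v F) G = apo F (adp p u v G)`: induction on `F` (`MvPolynomial.induction_on`): `F = C a` because the
constant coefficient of `adp p u v G` is that of `G`; sums; `F = F' * X t`: by (1) and (2)
`apo (e_t * bet F') G = apo (bet F') (∑_s B t s • pderiv s G) = apo F' (adp (∑_s B t s • pderiv s G)) = apo F' (pderiv t (adp G))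
= apo (X t * F') (adp G)`.
(4) `F = X 0 ^ i * X 1 ^ j * X 2 ^ l` in (3).
-/

set_option autoImplicit false

namespace Pool.Agent.Spl2

open MvPolynomial

variable {V : Type*} {R : Type*} [CommRing R]

/-- the apolar pairing -/
noncomputable def apo (F G : MvPolynomial (Fin 3) R) : R :=
  ∑ m ∈ F.support, coeff m F * ((∏ s, ((m s).factorial : R)) * coeff m G)

private theorem apo_eq (F G : MvPolynomial (Fin 3) R) (S : Finset (Fin 3 →₀ ℕ))
    (hS : F.support ⊆ S) :
    apo F G = ∑ m ∈ S, coeff m F * ((∏ s, ((m s).factorial : R)) * coeff m G) := by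
  unfold apo
  refine Finset.sum_subset hS fun m _ hm => ?_
  rw [notMem_support_iff.1 hm, zero_mul]

theorem apo_add_left (F F' G : MvPolynomial (Fin 3) R) : apo (F + F') G = apo F G + apo F' G := by
  classical
  rw [apo_eq (F + F') G (F.support ∪ F'.support) support_add,
    apo_eq F G (F.support ∪ F'.support) Finset.subset_union_left,
    apo_eq F' G (F.support ∪ F'.support) Finset.subset_union_right, ← Finset.sum_add_distrib]
  refine Finset.sum_congr rfl fun m _ => ?_
  rw [coeff_add, add_mul]

theorem apo_smul_left (a : R) (F G : MvPolynomial (Fin 3) R) : apo (a • F) G = a * apo F G := by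
  rw [apo_eq (a • F) G F.support support_smul, apo_eq F G F.support subset_rfl, Finset.mul_sum]
  refine Finset.sum_congr rfl fun m _ => ?_
  rw [coeff_smul, smul_eq_mul, mul_assoc]

theorem apo_add_right (F G G' : MvPolynomial (Fin 3) R) : apo F (G + G') = apo F G + apo F G' := by
  unfold apo
  rw [← Finset.sum_add_distrib]
  refine Finset.sum_congr rfl fun m _ => ?_
  rw [coeff_add]
  ring

theorem apo_smul_right (a : R) (F G : MvPolynomial (Fin 3) R) : apo F (a • G) = a * apo F G := by
  unfold apo
  rw [Finset.mul_sum]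
  refine Finset.sum_congr rfl fun m _ => ?_
  rw [coeff_smul, smul_eq_mul]
  ring

theorem apo_monomial (m : Fin 3 →₀ ℕ) (a : R) (G : MvPolynomial (Fin 3) R) :
    apo (monomial m a) G = a * ((∏ s, ((m s).factorial : R)) * coeff m G) := by
  rw [apo_eq (monomial m a) G {m} support_monomial_subset, Finset.sum_singleton, coeff_monomial,
    if_pos rfl]

/-- `apo` as a linear map in the first variable -/
private noncomputable def apoL (G : MvPolynomial (Fin 3) R) : MvPolynomial (Fin 3) R →ₗ[R] R where
  toFun F := apo F G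
  map_add' F F' := apo_add_left F F' G
  map_smul' a F := apo_smul_left a F G

/-- `apo` as a linear map in the second variable -/
private noncomputable def apoR (F : MvPolynomial (Fin 3) R) : MvPolynomial (Fin 3) R →ₗ[R] R where
  toFun G := apo F G
  map_add' G G' := apo_add_right F G G'
  map_smul' a G := apo_smul_right a F G

private theorem apo_X_mul (s : Fin 3) (F G : MvPolynomial (Fin 3) R) :
    apo (X s * F) G = apo F (pderiv s G) := by
  induction F using MvPolynomial.induction_on' with
  | monomial m a =>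
    have h1 : (X s * monomial m a : MvPolynomial (Fin 3) R) =
        monomial (m + Finsupp.single s 1) a := by
      rw [monomial_add_single, pow_one, mul_comm]
    rw [h1, apo_monomial, apo_monomial, coeff_pderiv]
    have h2 : (∏ t, (((m + Finsupp.single s 1 : Fin 3 →₀ ℕ) t).factorial : R)) =
        (m s + 1) * ∏ t, ((m t).factorial : R) := by
      rw [← Finset.mul_prod_erase Finset.univ _ (Finset.mem_univ s),
        ← Finset.mul_prod_erase Finset.univ (fun t => ((m t).factorial : R)) (Finset.mem_univ s)]
      have h3 : ∏ t ∈ Finset.univ.erase s, (((m + Finsupp.single s 1 : Fin 3 →₀ ℕ) t).factorial : R) =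
          ∏ t ∈ Finset.univ.erase s, ((m t).factorial : R) := by
        refine Finset.prod_congr rfl fun t ht => ?_
        have hts : s ≠ t := (Finset.ne_of_mem_erase ht).symm
        rw [Finsupp.add_apply, Finsupp.single_eq_of_ne (Ne.symm hts), add_zero]
      rw [h3, Finsupp.add_apply, Finsupp.single_eq_same, Nat.factorial_succ]
      push_cast
      ring
    rw [h2]
    ring
  | add p q hp hq =>
    rw [mul_add, apo_add_left, apo_add_left, hp, hq]

/-- the substitution with matrix `B` -/
private noncomputable def alB (B : Fin 3 → Fin 3 → R) :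
    MvPolynomial (Fin 3) R →ₐ[R] MvPolynomial (Fin 3) R :=
  aeval fun s => ∑ t, C (B t s) * X t

/-- the substitution with the transposed matrix -/
private noncomputable def beB (B : Fin 3 → Fin 3 → R) :
    MvPolynomial (Fin 3) R →ₐ[R] MvPolynomial (Fin 3) R :=
  aeval fun t => ∑ s, C (B t s) * X s

private theorem alB_X (B : Fin 3 → Fin 3 → R) (s : Fin 3) :
    alB B (X s) = ∑ t, C (B t s) * X t := aeval_X _ _

private theorem beB_X (B : Fin 3 → Fin 3 → R) (t : Fin 3) :
    beB B (X t) = ∑ s, C (B t s) * X s := aeval_X _ _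

private theorem pderiv_alB_X (B : Fin 3 → Fin 3 → R) (t s : Fin 3) :
    pderiv t (alB B (X s)) = C (B t s) := by
  rw [alB_X, map_sum, Finset.sum_eq_single t]
  · rw [pderiv_C_mul, pderiv_X_self, mul_one]
  · intro t' _ ht
    rw [pderiv_C_mul, pderiv_X_of_ne ht, mul_zero]
  · intro h
    exact absurd (Finset.mem_univ t) h

private theorem pderiv_alB (B : Fin 3 → Fin 3 → R) (t : Fin 3) (G : MvPolynomial (Fin 3) R) :
    pderiv t (alB B G) = ∑ s, C (B t s) * alB B (pderiv s G) := by
  induction G using MvPolynomial.induction_on with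
  | C a =>
    simp [algHom_C, algebraMap_eq]
  | add p q hp hq =>
    simp only [map_add, hp, hq, mul_add, Finset.sum_add_distrib]
  | mul_X p s' hp =>
    rw [map_mul, pderiv_mul, hp, pderiv_alB_X]
    have h1 : ∀ s, C (B t s) * alB B (pderiv s (p * X s')) =
        (C (B t s) * alB B (pderiv s p)) * alB B (X s') +
          (if s = s' then alB B p * C (B t s) else 0) := by
      intro s
      rw [pderiv_mul, map_add, map_mul, map_mul]
      by_cases h : s = s'
      · subst h
        rw [pderiv_X_self, map_one, if_pos rfl]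
        ring
      · rw [pderiv_X_of_ne (Ne.symm h), map_zero, if_neg h]
        ring
    rw [Finset.sum_congr rfl fun s _ => h1 s, Finset.sum_add_distrib, ← Finset.sum_mul,
      Finset.sum_ite_eq' Finset.univ s', if_pos (Finset.mem_univ s')]

private theorem coeff_zero_alB (B : Fin 3 → Fin 3 → R) (G : MvPolynomial (Fin 3) R) :
    coeff 0 (alB B G) = coeff 0 G := by
  have h : (constantCoeff : MvPolynomial (Fin 3) R →+* R).comp
      (alB B : MvPolynomial (Fin 3) R →+* MvPolynomial (Fin 3) R) = constantCoeff := by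
    refine MvPolynomial.ringHom_ext (fun a => ?_) (fun s => ?_)
    · simp [algHom_C, algebraMap_eq]
    · simp [alB_X]
  have h2 := congrArg (fun f : MvPolynomial (Fin 3) R →+* R => f G) h
  simpa [constantCoeff_eq] using h2

private theorem apo_beB (B : Fin 3 → Fin 3 → R) (F : MvPolynomial (Fin 3) R) :
    ∀ G : MvPolynomial (Fin 3) R, apo (beB B F) G = apo F (alB B G) := by
  induction F using MvPolynomial.induction_on with
  | C a =>
    intro G
    rw [algHom_C, algebraMap_eq, C_apply, apo_monomial, apo_monomial, coeff_zero_alB]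
  | add p q hp hq =>
    intro G
    rw [map_add, apo_add_left, apo_add_left, hp, hq]
  | mul_X p t hp =>
    intro G
    rw [map_mul, beB_X, mul_comm p (X t), apo_X_mul, pderiv_alB]
    have h1 : beB B p * ∑ s, C (B t s) * X s = ∑ s, B t s • (X s * beB B p) := by
      rw [Finset.mul_sum]
      refine Finset.sum_congr rfl fun s _ => ?_
      rw [smul_eq_C_mul]
      ring
    have h2 : (∑ s, C (B t s) * alB B (pderiv s G)) = ∑ s, B t s • alB B (pderiv s G) := by
      refine Finset.sum_congr rfl fun s _ => ?_
      rw [smul_eq_C_mul]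
    rw [h1, h2]
    show apoL G (∑ s, B t s • (X s * beB B p)) = apoR p (∑ s, B t s • alB B (pderiv s G))
    rw [map_sum, map_sum]
    refine Finset.sum_congr rfl fun s _ => ?_
    rw [map_smul, map_smul]
    congr 1
    show apo (X s * beB B p) G = apo p (alB B (pderiv s G))
    rw [apo_X_mul, hp]

theorem apo_factor (p : V × Fin 2 → R) (u v : V) (i j l : ℕ) (G : MvPolynomial (Fin 3) R) :
    apo ((X 1 - C (p (v, 1)) * X 2) ^ i * (-X 1 + C (p (u, 1)) * X 2) ^ j *
      (C (p (u, 1) - p (v, 1)) * X 0 - C (p (u, 0) - p (v, 0)) * X 1 +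
        C (p (u, 0) * p (v, 1) - p (v, 0) * p (u, 1)) * X 2) ^ l) G =
    ((i.factorial : R) * (j.factorial : R) * (l.factorial : R)) *
      coeff (ex3 i j l) (adp p u v G) := by
  obtain ⟨B, hB⟩ : ∃ B : Fin 3 → Fin 3 → R, B = ![![0, 1, -p (v, 1)], ![0, -1, p (u, 1)],
      ![p (u, 1) - p (v, 1), -(p (u, 0) - p (v, 0)), p (u, 0) * p (v, 1) - p (v, 0) * p (u, 1)]] :=
    ⟨_, rfl⟩
  have ha : adp p u v = alB B := by
    refine MvPolynomial.algHom_ext fun s => ?_
    rw [alB_X, hB]
    unfold adp
    rw [aeval_X]
    fin_cases s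
    · simp [Fin.sum_univ_three]
    · simp [Fin.sum_univ_three]
      ring
    · simp [Fin.sum_univ_three]
  have hb : beB B (X 0 ^ i * X 1 ^ j * X 2 ^ l) =
      (X 1 - C (p (v, 1)) * X 2) ^ i * (-X 1 + C (p (u, 1)) * X 2) ^ j *
      (C (p (u, 1) - p (v, 1)) * X 0 - C (p (u, 0) - p (v, 0)) * X 1 +
        C (p (u, 0) * p (v, 1) - p (v, 0) * p (u, 1)) * X 2) ^ l := by
    rw [map_mul, map_mul, map_pow, map_pow, map_pow, beB_X, beB_X, beB_X, hB]
    congr 1
    · congr 1
      · simp [Fin.sum_univ_three, sub_eq_add_neg]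
      · simp [Fin.sum_univ_three]
    · simp [Fin.sum_univ_three]
      ring
  have he : Finsupp.single 0 i + Finsupp.single 1 j + Finsupp.single 2 l = ex3 i j l := by
    ext s
    fin_cases s <;> simp [ex3]
  have hm : (X 0 ^ i * X 1 ^ j * X 2 ^ l : MvPolynomial (Fin 3) R) = monomial (ex3 i j l) 1 := by
    rw [X_pow_eq_monomial, X_pow_eq_monomial, X_pow_eq_monomial, monomial_mul, monomial_mul,
      mul_one, mul_one, he]
  rw [← hb, apo_beB, ha, hm, apo_monomial, one_mul]
  congr 1
  simp [Fin.prod_univ_three, ex3]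

end Pool.Agent.Spl2
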