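import Pool.Agent.Spl2.BrDefs

/-!
# Bridge, module BrC2: the motions for `r = 2`, `k = 4` in characteristic 2

PAPER PROOF.  Let `μ ∈ Sol 4 2 (fun _ => 2) p E I`.  Write (`ζ = dl p v - x_v ξ - y_v η`)
`μ v = b v (ξ, η) + dl p v * c v (ξ, η) + dl p v ^ 2 * (...)`, `b v` a binary form of degree 4, `c v` of degree 3
(coefficients of `G v = μ v (ξ, η, ζ - x_v ξ - y_v η)` at the exponents `(j, 4 - j, 0)` and `(j, 3 - j, 1)`; `G v` is the image of `μ v` under the substitution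
`X 2 ↦ X 2 - x_v X 0 - y_v X 1`, and `μ v` is the image of `G v` under `X 2 ↦ dl p v`; the binary forms are `0` for `v ∉ I`).
For an edge `u v`: `adp` maps `ξ ↦ Δ N`, `η ↦ (a - b) - δ N`, `dl p u ↦ Δ a`, `dl p v ↦ Δ b` (`a, b, N = X 0, X 1, X 2`, `Δ = y_u - y_v`, `δ = x_u - x_v`).
Put `n = (Δ, -δ)`; in characteristic 2 `n = (d_y, d_x)` with `d = p_v - p_u`.  Coefficients of `N^4`, `a N^3`, `b N^3`:
`(b u - b v)(n) = 0`, `∂_η (b u - b v)(n) + Δ (c u)(n) = 0`, `- ∂_η (b u - b v)(n) - Δ (c v)(n) = 0`.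
In characteristic 2, for `b = b4 ξ^4 + b3 ξ^3 η + b2 ξ^2 η^2 + b1 ξ η^3 + b0 η^4` one has `∂_η b = ξ (b3 ξ^2 + b1 η^2)`, at `n`: `Δ (b3 d_y^2 + b1 d_x^2)`.
`Δ ≠ 0`: with `h v = ![b1, b3]` and the reversed coefficients of `c v` this is the system of `NZ p E I`, so `c v = 0`, `b3 = b1 = 0`.  Then
`b v (n) = b4 d_y^4 + b2 d_x^2 d_y^2 + b0 d_x^4`: the family `![b4, b2, b0]` satisfies the system of `BZ 2` at the squared
positions (`d_x^2 = p (v, 0) ^ 2 - p (u, 0) ^ 2` in characteristic 2), so `b v = 0` and `dl p v ^ 2 ∣ μ v`.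
(`bev 2 q a b = q 0 * b^2 + q 1 * a * b + q 2 * a^2`.)
-/

set_option autoImplicit false

namespace Pool.Agent.Spl2

open MvPolynomial DualNumber

variable {V : Type*} [Fintype V] [DecidableEq V] {K : Type*} [Field K]

theorem aeval_eps (i : Fin 2) (k : ℕ) (F : MvPolynomial (Fin 3) K) (hF : F.IsHomogeneous (k + 1))
    (h0 : coeff (ex3 0 0 (k + 1)) F = 0)
    (h1 : coeff (ex3 (if i = 0 then 1 else 0) (if i = 0 then 0 else 1) k) F = 0) :
    aeval (R := K) (![if i = 0 then (ε : DualNumber K) else 0, if i = 0 then 0 else ε, 1] : Fin 3 → DualNumber K) F = 0 := by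
  rw [aeval_def, eval₂_eq']
  refine Finset.sum_eq_zero fun m hm => ?_
  have hdeg : m 0 + m 1 + m 2 = k + 1 := by
    have := hF (mem_support_iff.1 hm)
    rw [Finsupp.weight_apply, Finsupp.sum_fintype _ _ (by simp), Fin.sum_univ_three] at this
    simpa using this
  rw [Fin.prod_univ_three]
  simp only [Matrix.cons_val_zero, Matrix.cons_val_one, Matrix.cons_val, one_pow, mul_one]
  have heps : ∀ n, 2 ≤ n → (ε : DualNumber K) ^ n = 0 := by
    intro n hn
    obtain ⟨l, rfl⟩ := Nat.exists_eq_add_of_le hn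
    rw [pow_add, pow_two, DualNumber.eps_mul_eps, zero_mul]
  by_cases hi : i = 0
  · simp only [hi, if_true] at h1 ⊢
    by_cases h2 : m 1 = 0
    · by_cases h3 : 2 ≤ m 0
      · rw [heps _ h3]; simp
      · have h4 : m 0 = 0 ∨ m 0 = 1 := by omega
        rcases h4 with h4 | h4
        · have : m = ex3 0 0 (k + 1) := by
            ext s
            fin_cases s
            · simpa [ex3] using h4
            · simpa [ex3] using h2
            · simp [ex3]; omega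
          rw [this, h0]; simp
        · have : m = ex3 1 0 k := by
            ext s
            fin_cases s
            · simpa [ex3] using h4
            · simpa [ex3] using h2
            · simp [ex3]; omega
          rw [this, h1]; simp
    · rw [zero_pow h2]; simp
  · simp only [hi, if_false] at h1 ⊢
    by_cases h2 : m 0 = 0
    · by_cases h3 : 2 ≤ m 1
      · rw [heps _ h3]; simp
      · have h4 : m 1 = 0 ∨ m 1 = 1 := by omega
        rcases h4 with h4 | h4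
        · have : m = ex3 0 0 (k + 1) := by
            ext s
            fin_cases s
            · simpa [ex3] using h2
            · simpa [ex3] using h4
            · simp [ex3]; omega
          rw [this, h0]; simp
        · have : m = ex3 0 1 k := by
            ext s
            fin_cases s
            · simpa [ex3] using h2
            · simpa [ex3] using h4
            · simp [ex3]; omega
          rw [this, h1]; simp
    · rw [zero_pow h2]; simp

/-- binary forms of degree `m` -/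
noncomputable def bin (m : ℕ) (q : Fin (m + 1) → K) : MvPolynomial (Fin 3) K :=
  ∑ j : Fin (m + 1), C (q j) * (X 0 ^ (j : ℕ) * X 1 ^ (m - (j : ℕ)))

theorem bin_add (m : ℕ) (q q' : Fin (m + 1) → K) : bin m (q + q') = bin m q + bin m q' := by
  unfold bin
  rw [← Finset.sum_add_distrib]
  refine Finset.sum_congr rfl fun j _ => ?_
  rw [Pi.add_apply, map_add]; ring

theorem bin_smul (m : ℕ) (a : K) (q : Fin (m + 1) → K) : bin m (a • q) = C a * bin m q := by
  unfold bin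
  rw [Finset.mul_sum]
  refine Finset.sum_congr rfl fun j _ => ?_
  rw [Pi.smul_apply, smul_eq_mul, map_mul]; ring

theorem bin_X0 (m : ℕ) (q : Fin (m + 1) → K) : ∃ q', X 0 * bin m q = bin (m + 1) q' := by
  refine ⟨Fin.cons 0 q, ?_⟩
  unfold bin
  rw [Finset.mul_sum, Fin.sum_univ_succ (n := m + 1)]
  simp only [Fin.cons_zero, map_zero, zero_mul, zero_add, Fin.cons_succ, Fin.val_succ]
  refine Finset.sum_congr rfl fun j _ => ?_
  have : m + 1 - ((j : ℕ) + 1) = m - (j : ℕ) := by omega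
  rw [this, pow_succ]; ring

theorem bin_X1 (m : ℕ) (q : Fin (m + 1) → K) : ∃ q', X 1 * bin m q = bin (m + 1) q' := by
  refine ⟨Fin.snoc q 0, ?_⟩
  unfold bin
  rw [Finset.mul_sum, Fin.sum_univ_castSucc (n := m + 1)]
  simp only [Fin.snoc_castSucc, Fin.snoc_last, map_zero, zero_mul, add_zero, Fin.val_castSucc]
  refine Finset.sum_congr rfl fun j _ => ?_
  have : m + 1 - (j : ℕ) = (m - (j : ℕ)) + 1 := by have := j.2; omega
  rw [this, pow_succ]; ring

/-- normal form modulo the square of a line -/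
def NF (x y : K) (m : ℕ) (f : MvPolynomial (Fin 3) K) : Prop :=
  ∃ (b : Fin (m + 2) → K) (c : Fin (m + 1) → K) (e : MvPolynomial (Fin 3) K),
    f = bin (m + 1) b + (C x * X 0 + C y * X 1 + X 2) * bin m c +
      (C x * X 0 + C y * X 1 + X 2) ^ 2 * e

theorem NF.add {x y : K} {m : ℕ} {f g : MvPolynomial (Fin 3) K} (hf : NF x y m f)
    (hg : NF x y m g) : NF x y m (f + g) := by
  obtain ⟨b, c, e, rfl⟩ := hf
  obtain ⟨b', c', e', rfl⟩ := hg
  refine ⟨b + b', c + c', e + e', ?_⟩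
  rw [bin_add, bin_add]; ring

theorem NF.smul {x y : K} {m : ℕ} {f : MvPolynomial (Fin 3) K} (hf : NF x y m f) (a : K) :
    NF x y m (C a * f) := by
  obtain ⟨b, c, e, rfl⟩ := hf
  refine ⟨a • b, a • c, C a * e, ?_⟩
  rw [bin_smul, bin_smul]; ring

theorem NF.zero (x y : K) (m : ℕ) : NF x y m 0 := by
  refine ⟨0, 0, 0, ?_⟩
  unfold bin
  simp

theorem NF.X0 {x y : K} {m : ℕ} {f : MvPolynomial (Fin 3) K} (hf : NF x y m f) :
    NF x y (m + 1) (X 0 * f) := by
  obtain ⟨b, c, e, rfl⟩ := hf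
  obtain ⟨b', hb⟩ := bin_X0 _ b
  obtain ⟨c', hc⟩ := bin_X0 _ c
  refine ⟨b', c', X 0 * e, ?_⟩
  rw [← hb, ← hc]; ring

theorem NF.X1 {x y : K} {m : ℕ} {f : MvPolynomial (Fin 3) K} (hf : NF x y m f) :
    NF x y (m + 1) (X 1 * f) := by
  obtain ⟨b, c, e, rfl⟩ := hf
  obtain ⟨b', hb⟩ := bin_X1 _ b
  obtain ⟨c', hc⟩ := bin_X1 _ c
  refine ⟨b', c', X 1 * e, ?_⟩
  rw [← hb, ← hc]; ring

theorem NF.X2 {x y : K} {m : ℕ} {f : MvPolynomial (Fin 3) K} (hf : NF x y m f) :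
    NF x y (m + 1) (X 2 * f) := by
  obtain ⟨b, c, e, rfl⟩ := hf
  obtain ⟨b0, hb0⟩ := bin_X0 _ b
  obtain ⟨b1, hb1⟩ := bin_X1 _ b
  obtain ⟨c0, hc0⟩ := bin_X0 _ c
  obtain ⟨c1, hc1⟩ := bin_X1 _ c
  refine ⟨(-x) • b0 + (-y) • b1, b + ((-x) • c0 + (-y) • c1),
    bin m c + X 2 * e, ?_⟩
  rw [bin_add, bin_add, bin_add, bin_smul, bin_smul, bin_smul, bin_smul, ← hb0, ← hb1, ← hc0,
    ← hc1, map_neg, map_neg]
  ring

theorem nf_mon (x y : K) (m : ℕ) : ∀ i j l : ℕ, i + j + l = m + 1 →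
    NF x y m (X 0 ^ i * X 1 ^ j * X 2 ^ l) := by
  induction m with
  | zero =>
    intro i j l h
    have : (i = 1 ∧ j = 0 ∧ l = 0) ∨ (i = 0 ∧ j = 1 ∧ l = 0) ∨ (i = 0 ∧ j = 0 ∧ l = 1) := by omega
    rcases this with ⟨rfl, rfl, rfl⟩ | ⟨rfl, rfl, rfl⟩ | ⟨rfl, rfl, rfl⟩
    · refine ⟨![0, 1], ![0], 0, ?_⟩
      simp [bin, Fin.sum_univ_succ]
    · refine ⟨![1, 0], ![0], 0, ?_⟩
      simp [bin, Fin.sum_univ_succ]
    · refine ⟨![-y, -x], ![1], 0, ?_⟩
      simp [bin, Fin.sum_univ_succ]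
      ring
  | succ m ih =>
    intro i j l h
    by_cases hi : 0 < i
    · obtain ⟨i, rfl⟩ := Nat.exists_eq_succ_of_ne_zero hi.ne'
      have := (ih i j l (by omega)).X0
      have e : X 0 ^ (i + 1) * X 1 ^ j * X 2 ^ l =
        (X 0 * (X 0 ^ i * X 1 ^ j * X 2 ^ l) : MvPolynomial (Fin 3) K) := by ring
      rw [Nat.succ_eq_add_one, e]; exact this
    · by_cases hj : 0 < j
      · obtain ⟨j, rfl⟩ := Nat.exists_eq_succ_of_ne_zero hj.ne'
        have := (ih i j l (by omega)).X1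
        have e : X 0 ^ i * X 1 ^ (j + 1) * X 2 ^ l =
          (X 1 * (X 0 ^ i * X 1 ^ j * X 2 ^ l) : MvPolynomial (Fin 3) K) := by ring
        rw [Nat.succ_eq_add_one, e]; exact this
      · obtain ⟨l, rfl⟩ := Nat.exists_eq_succ_of_ne_zero (show l ≠ 0 by omega)
        have := (ih i j l (by omega)).X2
        have e : X 0 ^ i * X 1 ^ j * X 2 ^ (l + 1) =
          (X 2 * (X 0 ^ i * X 1 ^ j * X 2 ^ l) : MvPolynomial (Fin 3) K) := by ring
        rw [Nat.succ_eq_add_one, e]; exact this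

theorem nf_homog (x y : K) (m : ℕ) (f : MvPolynomial (Fin 3) K) (hf : f.IsHomogeneous (m + 1)) :
    NF x y m f := by
  rw [f.as_sum]
  refine Finset.sum_induction _ (NF x y m) (fun _ _ => NF.add) (NF.zero x y m) fun s hs => ?_
  have hdeg : s 0 + s 1 + s 2 = m + 1 := by
    have := hf (mem_support_iff.1 hs)
    rw [Finsupp.weight_apply, Finsupp.sum_fintype _ _ (by simp), Fin.sum_univ_three] at this
    simpa using this
  have e : monomial s (coeff s f) = C (coeff s f) * (X 0 ^ s 0 * X 1 ^ s 1 * X 2 ^ s 2) := by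
    rw [monomial_eq, Finsupp.prod_fintype _ _ (by simp), Fin.prod_univ_three]
  rw [e]
  exact (nf_mon x y m _ _ _ hdeg).smul _


omit [Fintype V] [DecidableEq V] in
theorem adp_homog (p : V × Fin 2 → K) (u v : V) (k : ℕ) (f : MvPolynomial (Fin 3) K)
    (hf : f.IsHomogeneous k) : (adp p u v f).IsHomogeneous k := by
  have hg : ∀ i, ((![C (p (u, 1) - p (v, 1)) * X 2,
    X 0 - X 1 - C (p (u, 0) - p (v, 0)) * X 2,
    -C (p (v, 1)) * X 0 + C (p (u, 1)) * X 1 +
      C (p (u, 0) * p (v, 1) - p (v, 0) * p (u, 1)) * X 2] : Fin 3 → MvPolynomial (Fin 3) K)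
        i).IsHomogeneous 1 := by
    intro i
    fin_cases i
    · exact isHomogeneous_C_mul_X _ _
    · exact ((isHomogeneous_X _ _).sub (isHomogeneous_X _ _)).sub (isHomogeneous_C_mul_X _ _)
    · refine (IsHomogeneous.add ?_ (isHomogeneous_C_mul_X _ _)).add (isHomogeneous_C_mul_X _ _)
      rw [← map_neg]
      exact isHomogeneous_C_mul_X _ _
  have := hf.aeval _ hg
  rw [one_mul] at this
  exact this

theorem char2_edge [CharP K 2] (Δ s : K) (b b' : Fin 5 → K) (c : Fin 4 → K)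
    (h : (∑ j : Fin 5, (TrivSqZeroExt.inl (b j) : DualNumber K) *
        (TrivSqZeroExt.inl Δ ^ (j : ℕ) * (TrivSqZeroExt.inl s + ε) ^ (4 - (j : ℕ)))) +
      TrivSqZeroExt.inl Δ * ε * (∑ j : Fin 4, (TrivSqZeroExt.inl (c j) : DualNumber K) *
        (TrivSqZeroExt.inl Δ ^ (j : ℕ) * (TrivSqZeroExt.inl s + ε) ^ (3 - (j : ℕ)))) =
      (∑ j : Fin 5, (TrivSqZeroExt.inl (b' j) : DualNumber K) *
        (TrivSqZeroExt.inl Δ ^ (j : ℕ) * (TrivSqZeroExt.inl s + ε) ^ (4 - (j : ℕ))))) :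
    (b 0 * s ^ 4 + b 1 * Δ * s ^ 3 + b 2 * Δ ^ 2 * s ^ 2 + b 3 * Δ ^ 3 * s + b 4 * Δ ^ 4 =
      b' 0 * s ^ 4 + b' 1 * Δ * s ^ 3 + b' 2 * Δ ^ 2 * s ^ 2 + b' 3 * Δ ^ 3 * s + b' 4 * Δ ^ 4) ∧
    Δ * (c 0 * s ^ 3 + c 1 * Δ * s ^ 2 + c 2 * Δ ^ 2 * s + c 3 * Δ ^ 3) =
      Δ * ((b 1 + b' 1) * s ^ 2 + (b 3 + b' 3) * Δ ^ 2) := by
  have h2 : (2 : K) = 0 := CharTwo.two_eq_zero
  constructor
  · have := congrArg TrivSqZeroExt.fst h
    simp only [Fin.sum_univ_succ, Fin.sum_univ_zero, TrivSqZeroExt.fst_add,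
      TrivSqZeroExt.fst_mul, TrivSqZeroExt.fst_inl, TrivSqZeroExt.fst_pow, DualNumber.fst_eps] at this
    simp at this
    linear_combination this
  · have := congrArg TrivSqZeroExt.snd h
    simp only [Fin.sum_univ_succ, Fin.sum_univ_zero] at this
    simp [pow_succ] at this
    linear_combination this + (Δ * s ^ 2 * b' 1 - 2 * (Δ * s ^ 2 * b 1) + Δ ^ 2 * s * b' 2 -
      Δ ^ 2 * s * b 2 - Δ ^ 3 * b 3 + 2 * (s ^ 3 * b' 0) - 2 * (s ^ 3 * b 0)) * h2

/-- the normal forms of a motion and the equations for the edges -/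
theorem char2_key [CharP K 2] (p : V × Fin 2 → K) (E : Finset (Finset V)) (I : Finset V)
    (hp : ∀ u v, u ≠ v → ({u, v} : Finset V) ∈ E → p (u, 1) ≠ p (v, 1))
    (μ : V → MvPolynomial (Fin 3) K) (hμ : μ ∈ Sol 4 2 (fun _ => 2) p E I) :
    ∃ (b : V → Fin 5 → K) (c : V → Fin 4 → K) (e : V → MvPolynomial (Fin 3) K),
      (∀ v, μ v = bin 4 (b v) + dl p v * bin 3 (c v) + dl p v ^ 2 * e v) ∧
      (∀ v, v ∉ I → b v = 0 ∧ c v = 0 ∧ e v = 0) ∧
      (∀ u v, u ≠ v → ({u, v} : Finset V) ∈ E →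
        (b u 0 * (p (v, 0) - p (u, 0)) ^ 4 +
          b u 1 * (p (u, 1) - p (v, 1)) * (p (v, 0) - p (u, 0)) ^ 3 +
          b u 2 * (p (u, 1) - p (v, 1)) ^ 2 * (p (v, 0) - p (u, 0)) ^ 2 +
          b u 3 * (p (u, 1) - p (v, 1)) ^ 3 * (p (v, 0) - p (u, 0)) +
          b u 4 * (p (u, 1) - p (v, 1)) ^ 4) =
         b v 0 * (p (v, 0) - p (u, 0)) ^ 4 +
          b v 1 * (p (u, 1) - p (v, 1)) * (p (v, 0) - p (u, 0)) ^ 3 +
          b v 2 * (p (u, 1) - p (v, 1)) ^ 2 * (p (v, 0) - p (u, 0)) ^ 2 +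
          b v 3 * (p (u, 1) - p (v, 1)) ^ 3 * (p (v, 0) - p (u, 0)) +
          b v 4 * (p (u, 1) - p (v, 1)) ^ 4) ∧
      (∀ u v, u ≠ v → ({u, v} : Finset V) ∈ E →
        bev 3 (fun j => c u (Fin.rev j)) (p (v, 0) - p (u, 0)) (p (v, 1) - p (u, 1)) =
          (b u 1 + b v 1) * (p (v, 0) - p (u, 0)) ^ 2 +
            (b u 3 + b v 3) * (p (v, 1) - p (u, 1)) ^ 2) := by
  obtain ⟨hμ1, hμ2, hμ3⟩ := hμ
  have hnf : ∀ v, ∃ (b : Fin 5 → K) (c : Fin 4 → K) (e : MvPolynomial (Fin 3) K),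
      μ v = bin 4 b + dl p v * bin 3 c + dl p v ^ 2 * e ∧ (v ∉ I → b = 0 ∧ c = 0 ∧ e = 0) := by
    intro v
    by_cases hv : v ∈ I
    · obtain ⟨b, c, e, h⟩ := nf_homog (p (v, 0)) (p (v, 1)) 3 (μ v) (hμ1 v)
      exact ⟨b, c, e, h, fun h => absurd hv h⟩
    · refine ⟨0, 0, 0, ?_, fun _ => ⟨rfl, rfl, rfl⟩⟩
      rw [hμ2 v hv]
      simp [bin]
  choose b c e hbce hzero using hnf
  have key : ∀ u v, u ≠ v → ({u, v} : Finset V) ∈ E →
      (b u 0 * (p (v, 0) - p (u, 0)) ^ 4 +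
        b u 1 * (p (u, 1) - p (v, 1)) * (p (v, 0) - p (u, 0)) ^ 3 +
        b u 2 * (p (u, 1) - p (v, 1)) ^ 2 * (p (v, 0) - p (u, 0)) ^ 2 +
        b u 3 * (p (u, 1) - p (v, 1)) ^ 3 * (p (v, 0) - p (u, 0)) +
        b u 4 * (p (u, 1) - p (v, 1)) ^ 4 =
       b v 0 * (p (v, 0) - p (u, 0)) ^ 4 +
        b v 1 * (p (u, 1) - p (v, 1)) * (p (v, 0) - p (u, 0)) ^ 3 +
        b v 2 * (p (u, 1) - p (v, 1)) ^ 2 * (p (v, 0) - p (u, 0)) ^ 2 +
        b v 3 * (p (u, 1) - p (v, 1)) ^ 3 * (p (v, 0) - p (u, 0)) +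
        b v 4 * (p (u, 1) - p (v, 1)) ^ 4) ∧
      (p (u, 1) - p (v, 1)) * (c u 0 * (p (v, 0) - p (u, 0)) ^ 3 +
        c u 1 * (p (u, 1) - p (v, 1)) * (p (v, 0) - p (u, 0)) ^ 2 +
        c u 2 * (p (u, 1) - p (v, 1)) ^ 2 * (p (v, 0) - p (u, 0)) +
        c u 3 * (p (u, 1) - p (v, 1)) ^ 3) =
      (p (u, 1) - p (v, 1)) * ((b u 1 + b v 1) * (p (v, 0) - p (u, 0)) ^ 2 +
        (b u 3 + b v 3) * (p (u, 1) - p (v, 1)) ^ 2) := by
    intro u v huv he
    apply char2_edge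
    have hF := adp_homog p u v 4 (μ u - μ v) ((hμ1 u).sub (hμ1 v))
    have h0 := hμ3 u v huv he 0 0 (by norm_num) (by norm_num) (by norm_num)
    have h1 := hμ3 u v huv he 1 0 (by norm_num) (by norm_num) (by norm_num)
    have h2 := aeval_eps 0 3 _ hF (by simpa using h0) (by simpa using h1)
    rw [hbce u, hbce v] at h2
    set φ := (aeval (R := K) (![if (0 : Fin 2) = 0 then (ε : DualNumber K) else 0,
      if (0 : Fin 2) = 0 then 0 else ε, 1] : Fin 3 → DualNumber K)) with hφ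
    have f0 : φ (adp p u v (X 0)) = TrivSqZeroExt.inl (p (u, 1) - p (v, 1)) := by
      simp [hφ, adp, TrivSqZeroExt.algebraMap_eq_inl]
    have f1 : φ (adp p u v (X 1)) = TrivSqZeroExt.inl (p (v, 0) - p (u, 0)) + ε := by
      simp [hφ, adp, TrivSqZeroExt.algebraMap_eq_inl]
      ring
    have fu : φ (adp p u v (dl p u)) = TrivSqZeroExt.inl (p (u, 1) - p (v, 1)) * ε := by
      rw [adp_dl_left]
      simp [hφ, TrivSqZeroExt.algebraMap_eq_inl]
    have fv : φ (adp p u v (dl p v)) = 0 := by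
      rw [adp_dl_right]
      simp [hφ, TrivSqZeroExt.algebraMap_eq_inl]
    have fC : ∀ a : K, φ (adp p u v (C a)) = TrivSqZeroExt.inl a := by
      intro a
      rw [algHom_C, AlgHom.commutes]
      rfl
    have fb : ∀ (m : ℕ) (q : Fin (m + 1) → K), φ (adp p u v (bin m q)) =
        ∑ j : Fin (m + 1), (TrivSqZeroExt.inl (q j) : DualNumber K) *
          (TrivSqZeroExt.inl (p (u, 1) - p (v, 1)) ^ (j : ℕ) *
            (TrivSqZeroExt.inl (p (v, 0) - p (u, 0)) + ε) ^ (m - (j : ℕ))) := by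
      intro m q
      unfold bin
      rw [map_sum, map_sum]
      refine Finset.sum_congr rfl fun j _ => ?_
      rw [map_mul, map_mul, map_mul, map_mul, map_pow, map_pow, map_pow, map_pow, f0, f1, fC]
    rw [map_sub, map_add, map_add, map_mul, map_mul, map_pow, map_add, map_add, map_mul, map_mul,
      map_pow, map_sub, map_add, map_add, map_mul, map_mul, map_pow, map_add, map_add, map_mul,
      map_mul, map_pow, fu, fv, fb, fb, fb, fb] at h2
    have h3 : (TrivSqZeroExt.inl (p (u, 1) - p (v, 1)) * (ε : DualNumber K)) ^ 2 = 0 := by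
      rw [mul_pow, pow_two (ε : DualNumber K), DualNumber.eps_mul_eps, mul_zero]
    rw [h3, zero_mul, add_zero, zero_mul, zero_pow two_ne_zero, zero_mul, add_zero, add_zero,
      sub_eq_zero] at h2
    exact h2
  refine ⟨b, c, e, hbce, hzero, fun u v huv he => (key u v huv he).1, fun u v huv he => ?_⟩
  have h1 := (key u v huv he).2
  have h2 := mul_left_cancel₀ (sub_ne_zero.2 (hp u v huv he)) h1
  have h3 : p (v, 1) - p (u, 1) = p (u, 1) - p (v, 1) := by
    rw [← neg_sub, CharTwo.neg_eq]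
  rw [h3]
  simp only [bev, Fin.sum_univ_succ, Fin.sum_univ_zero]
  simp [Fin.rev]
  linear_combination h2

omit [Fintype V] in
/-- if the characteristic 2 data of a motion vanish, the motion is trivial -/
theorem char2_triv [CharP K 2] (p : V × Fin 2 → K) (E : Finset (Finset V)) (I : Finset V)
    (hG : BZ 2 (fun x => p x ^ 2) E I)
    (μ : V → MvPolynomial (Fin 3) K)
    (b : V → Fin 5 → K) (c : V → Fin 4 → K) (e : V → MvPolynomial (Fin 3) K)
    (hbce : ∀ v, μ v = bin 4 (b v) + dl p v * bin 3 (c v) + dl p v ^ 2 * e v)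
    (hzero : ∀ v, v ∉ I → b v = 0 ∧ c v = 0 ∧ e v = 0)
    (key : ∀ u v, u ≠ v → ({u, v} : Finset V) ∈ E →
        (b u 0 * (p (v, 0) - p (u, 0)) ^ 4 +
          b u 1 * (p (u, 1) - p (v, 1)) * (p (v, 0) - p (u, 0)) ^ 3 +
          b u 2 * (p (u, 1) - p (v, 1)) ^ 2 * (p (v, 0) - p (u, 0)) ^ 2 +
          b u 3 * (p (u, 1) - p (v, 1)) ^ 3 * (p (v, 0) - p (u, 0)) +
          b u 4 * (p (u, 1) - p (v, 1)) ^ 4) =
         b v 0 * (p (v, 0) - p (u, 0)) ^ 4 +
          b v 1 * (p (u, 1) - p (v, 1)) * (p (v, 0) - p (u, 0)) ^ 3 +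
          b v 2 * (p (u, 1) - p (v, 1)) ^ 2 * (p (v, 0) - p (u, 0)) ^ 2 +
          b v 3 * (p (u, 1) - p (v, 1)) ^ 3 * (p (v, 0) - p (u, 0)) +
          b v 4 * (p (u, 1) - p (v, 1)) ^ 4)
    (hc : ∀ v, c v = 0) (hb1 : ∀ v, b v 1 = 0 ∧ b v 3 = 0) : ∀ v, dl p v ^ 2 ∣ μ v := by
  have hbb := hG (fun v => ![b v 4, b v 2, b v 0])
    (fun v hv => by
      obtain ⟨h1, -, -⟩ := hzero v hv
      funext j
      fin_cases j <;> simp [h1])
    (fun u v huv he => by
      have h1 := key u v huv he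
      rw [(hb1 u).1, (hb1 v).1, (hb1 u).2, (hb1 v).2] at h1
      have h2 : (2 : K) = 0 := CharTwo.two_eq_zero
      have h3 : p (v, 0) ^ 2 - p (u, 0) ^ 2 = (p (v, 0) - p (u, 0)) ^ 2 := by
        linear_combination (p (u, 0) * p (v, 0) - p (u, 0) ^ 2) * h2
      have h4 : p (v, 1) ^ 2 - p (u, 1) ^ 2 = (p (u, 1) - p (v, 1)) ^ 2 := by
        linear_combination (p (u, 1) * p (v, 1) - p (u, 1) ^ 2) * h2
      beta_reduce
      rw [h3, h4]
      simp only [bev, Fin.sum_univ_succ, Fin.sum_univ_zero]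
      simp
      linear_combination h1)
  intro v
  have h1 := hbb v
  have hb0 : b v = 0 := by
    funext j
    fin_cases j
    · simpa using congrFun h1 2
    · simpa using (hb1 v).1
    · simpa using congrFun h1 1
    · simpa using (hb1 v).2
    · simpa using congrFun h1 0
  rw [hbce v, hb0, hc v]
  refine ⟨e v, ?_⟩
  simp [bin]

theorem char2_dvd [CharP K 2] (p : V × Fin 2 → K) (E : Finset (Finset V)) (I : Finset V)
    (hp : ∀ u v, u ≠ v → ({u, v} : Finset V) ∈ E → p (u, 1) ≠ p (v, 1))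
    (hN : NZ p E I) (hG : BZ 2 (fun x => p x ^ 2) E I) :
    ∀ μ ∈ Sol 4 2 (fun _ => 2) p E I, ∀ v, dl p v ^ 2 ∣ μ v := by
  intro μ hμ
  obtain ⟨b, c, e, hbce, hzero, key1, key2⟩ := char2_key p E I hp μ hμ
  have hcb := hN (fun v => fun j => c v (Fin.rev j)) (fun v => ![b v 1, b v 3])
    (fun v hv => by
      obtain ⟨h1, h2, -⟩ := hzero v hv
      constructor
      · funext j
        simp [h2]
      · funext j
        fin_cases j <;> simp [h1])
    (fun u v huv he => by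
      have := key2 u v huv he
      simpa using this)
  refine char2_triv p E I hG μ b c e hbce hzero key1 (fun v => ?_) (fun v => ?_)
  · have := (hcb v).1
    funext j
    have h1 := congrFun this (Fin.rev j)
    simpa using h1
  · have := (hcb v).2
    exact ⟨by simpa using congrFun this 0, by simpa using congrFun this 1⟩

end Pool.Agent.Spl2
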