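import Mathlib

/-!
# Bridge from characteristic p to characteristic 0: the dual model (definitions)

`p : V × Fin 2 → R` are positions over a commutative ring `R`.  The dual line of the vertex `v` is the linear form
`dl p v = x_v ξ + y_v η + ζ` in the three variables `ξ = X 0`, `η = X 1`, `ζ = X 2`.

`adp p u v` is the substitution by coordinates adapted to the edge `u v`: it maps `dl p u` to `Δ X 0`, `dl p v` to `Δ X 1`
and `ξ` to `Δ X 2`, where `Δ = y_u - y_v`.  If `Δ` is invertible, a form `f` of degree `k` lies in the ideal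
`(dl p u, dl p v)^δ + (dl p u ^ τ u) + (dl p v ^ τ v)` iff the coefficients of `X 0 ^ i * X 1 ^ j * X 2 ^ (k - i - j)`,
`i + j < δ`, `i < τ u`, `j < τ v`, in `adp p u v f` vanish.

`Sol k δ τ p E I`: the motions, i.e. families `μ v` of forms of degree `k` (in three variables), zero for the pinned
vertices `v ∉ I`, such that `μ u - μ v` lies in this ideal for every edge `{u, v}` in `E`.

`bev m q a b` is the value at `(a, b)` of the binary form of degree `m` with coefficients `q`.
`BZ m p E I`: binary forms `q v` of degree `m` with `q u = q v` at `p_v - p_u` for every edge and `q v = 0` for `v ∉ I` are all `0`.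
`NZ p E I`: the characteristic 2 system: binary cubic forms `c v` and forms `h v = h₀ X² + h₁ Y²` with
`c u (d) = h u (d) + h v (d)` for every oriented edge, `d = p_v - p_u`, zero for `v ∉ I`, are all `0`.
-/

set_option autoImplicit false

namespace Pool.Agent.Spl2

open MvPolynomial

variable {V : Type*} [Fintype V] [DecidableEq V] {R : Type*} [CommRing R]

/-- the exponent `(i, j, l)` -/
noncomputable def ex3 (i j l : ℕ) : Fin 3 →₀ ℕ := Finsupp.equivFunOnFinite.symm ![i, j, l]

/-- the dual line of the vertex `v` -/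
noncomputable def dl (p : V × Fin 2 → R) (v : V) : MvPolynomial (Fin 3) R :=
  C (p (v, 0)) * X 0 + C (p (v, 1)) * X 1 + X 2

/-- the substitution adapted to the edge `u v` -/
noncomputable def adp (p : V × Fin 2 → R) (u v : V) :
    MvPolynomial (Fin 3) R →ₐ[R] MvPolynomial (Fin 3) R :=
  aeval ![C (p (u, 1) - p (v, 1)) * X 2,
    X 0 - X 1 - C (p (u, 0) - p (v, 0)) * X 2,
    -C (p (v, 1)) * X 0 + C (p (u, 1)) * X 1 + C (p (u, 0) * p (v, 1) - p (v, 0) * p (u, 1)) * X 2]

/-- the motions of the dual model -/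
noncomputable def Sol (k δ : ℕ) (τ : V → ℕ) (p : V × Fin 2 → R) (E : Finset (Finset V))
    (I : Finset V) : Submodule R (V → MvPolynomial (Fin 3) R) where
  carrier := {μ | (∀ v, (μ v).IsHomogeneous k) ∧ (∀ v, v ∉ I → μ v = 0) ∧
    ∀ u v, u ≠ v → ({u, v} : Finset V) ∈ E → ∀ i j, i + j < δ → i < τ u → j < τ v →
      coeff (ex3 i j (k - i - j)) (adp p u v (μ u - μ v)) = 0}
  add_mem' := by
    rintro a b ⟨ha1, ha2, ha3⟩ ⟨hb1, hb2, hb3⟩
    refine ⟨fun v => (ha1 v).add (hb1 v), fun v hv => ?_, fun u v huv he i j h1 h2 h3 => ?_⟩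
    · rw [Pi.add_apply, ha2 v hv, hb2 v hv, add_zero]
    · have h4 : (a + b) u - (a + b) v = (a u - a v) + (b u - b v) := by
        simp only [Pi.add_apply]; ring
      rw [h4, map_add, coeff_add, ha3 u v huv he i j h1 h2 h3, hb3 u v huv he i j h1 h2 h3,
        add_zero]
  zero_mem' := by
    refine ⟨fun v => isHomogeneous_zero _ _ _, fun v _ => rfl, fun u v _ _ i j _ _ _ => ?_⟩
    simp
  smul_mem' := by
    rintro c a ⟨ha1, ha2, ha3⟩
    refine ⟨fun v => ?_, fun v hv => ?_, fun u v huv he i j h1 h2 h3 => ?_⟩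
    · exact (homogeneousSubmodule (Fin 3) R k).smul_mem c (ha1 v)
    · rw [Pi.smul_apply, ha2 v hv, smul_zero]
    · rw [Pi.smul_apply, Pi.smul_apply, ← smul_sub, map_smul, coeff_smul,
        ha3 u v huv he i j h1 h2 h3, smul_zero]

/-- the value of the binary form `∑ j, q j X ^ j Y ^ (m - j)` at `(a, b)` -/
def bev (m : ℕ) (q : Fin (m + 1) → R) (a b : R) : R :=
  ∑ j : Fin (m + 1), q j * (a ^ (j : ℕ) * b ^ (m - (j : ℕ)))

/-- the only pinned motion by binary forms of degree `m` is `0` -/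
def BZ (m : ℕ) (p : V × Fin 2 → R) (E : Finset (Finset V)) (I : Finset V) : Prop :=
  ∀ q : V → Fin (m + 1) → R, (∀ v, v ∉ I → q v = 0) →
    (∀ u v, u ≠ v → ({u, v} : Finset V) ∈ E →
      bev m (q u) (p (v, 0) - p (u, 0)) (p (v, 1) - p (u, 1)) =
        bev m (q v) (p (v, 0) - p (u, 0)) (p (v, 1) - p (u, 1))) → ∀ v, q v = 0

/-- the characteristic 2 system `N(G)` has only the solution `0` -/
def NZ (p : V × Fin 2 → R) (E : Finset (Finset V)) (I : Finset V) : Prop :=
  ∀ (c : V → Fin 4 → R) (h : V → Fin 2 → R), (∀ v, v ∉ I → c v = 0 ∧ h v = 0) →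
    (∀ u v, u ≠ v → ({u, v} : Finset V) ∈ E →
      bev 3 (c u) (p (v, 0) - p (u, 0)) (p (v, 1) - p (u, 1)) =
        (h u 0 + h v 0) * (p (v, 0) - p (u, 0)) ^ 2 + (h u 1 + h v 1) * (p (v, 1) - p (u, 1)) ^ 2) →
    ∀ v, c v = 0 ∧ h v = 0

theorem adp_dl_left (p : V × Fin 2 → R) (u v : V) :
    adp p u v (dl p u) = C (p (u, 1) - p (v, 1)) * X 0 := by
  unfold adp dl
  simp only [map_add, map_mul, aeval_X, algHom_C, algebraMap_eq, Matrix.cons_val_zero,
    Matrix.cons_val_one, Matrix.cons_val, map_sub]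
  ring

theorem adp_dl_right (p : V × Fin 2 → R) (u v : V) :
    adp p u v (dl p v) = C (p (u, 1) - p (v, 1)) * X 1 := by
  unfold adp dl
  simp only [map_add, map_mul, aeval_X, algHom_C, algebraMap_eq, Matrix.cons_val_zero,
    Matrix.cons_val_one, Matrix.cons_val, map_sub]
  ring

end Pool.Agent.Spl2
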