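import Pool.Agent.Spl2.BrDefs
import Pool.Agent.Spl2.BrMat

/-!
# Bridge, module BrGen: generic positions for `BZ` and `NZ`

`GB m K E I`, `GN K E I`: the systems `BZ m`, `NZ` have only the solution `0` for generic positions over `K`.

PAPER PROOF.  `gb_of_one`, `gn_of_one`: the equations are linear in the unknown coefficients `q v j`, `v ∈ I` (resp. `c v j`, `h v j`), with
coefficients that are integral polynomials in the positions; apply `inj_generic` (rows: ordered pairs `(u, v)`, the row is `0`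
unless `u ≠ v` and `{u, v} ∈ E`).  `exists_good`: the product of the two polynomials (the second one composed with
`X ↦ X ^ 2`, `MvPolynomial.expand 2`, which is injective) and of `X (u, 1) - X (v, 1)`, `u ≠ v`, is not zero, and `K` is infinite
(`MvPolynomial.funext`).
-/

set_option autoImplicit false

namespace Pool.Agent.Spl2

open MvPolynomial

variable {V : Type*} [Fintype V] [DecidableEq V]

/-- `BZ m` holds for generic positions -/
def GB (m : ℕ) (K : Type*) [Field K] (E : Finset (Finset V)) (I : Finset V) : Prop :=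
  ∃ Q : MvPolynomial (V × Fin 2) K, Q ≠ 0 ∧ ∀ p : V × Fin 2 → K, eval p Q ≠ 0 → BZ m p E I

/-- `NZ` holds for generic positions -/
def GN (K : Type*) [Field K] (E : Finset (Finset V)) (I : Finset V) : Prop :=
  ∃ Q : MvPolynomial (V × Fin 2) K, Q ≠ 0 ∧ ∀ p : V × Fin 2 → K, eval p Q ≠ 0 → NZ p E I

/-- the matrix of a system: rows for the ordered pairs and for the pinned unknowns -/
noncomputable def gmat {κ : Type*} [DecidableEq κ] (E : Finset (Finset V)) (I : Finset V)
    (B : V → V → V × κ → MvPolynomial (V × Fin 2) ℤ) :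
    Matrix ((V × V) ⊕ (V × κ)) (V × κ) (MvPolynomial (V × Fin 2) ℤ) :=
  fun r c => Sum.elim
    (fun r : V × V => if r.1 ≠ r.2 ∧ ({r.1, r.2} : Finset V) ∈ E then B r.1 r.2 c else 0)
    (fun d : V × κ => if d.1 ∉ I ∧ d = c then 1 else 0) r

theorem gmat_mulVec {κ : Type*} [DecidableEq κ] [Fintype κ] (E : Finset (Finset V))
    (I : Finset V) (B : V → V → V × κ → MvPolynomial (V × Fin 2) ℤ) {S : Type*} [CommRing S]
    (p : V × Fin 2 → S) (x : V × κ → S) :
    ((gmat E I B).map fun P => eval₂ (Int.castRingHom S) p P).mulVec x = 0 ↔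
      (∀ d : V × κ, d.1 ∉ I → x d = 0) ∧
        ∀ u v, u ≠ v → ({u, v} : Finset V) ∈ E →
          ∑ c, eval₂ (Int.castRingHom S) p (B u v c) * x c = 0 := by
  constructor
  · intro h
    refine ⟨fun d hd => ?_, fun u v huv he => ?_⟩
    · have h1 := congrFun h (Sum.inr d)
      simp only [Matrix.mulVec, dotProduct, Matrix.map_apply, gmat, Sum.elim_inr, hd,
        not_false_eq_true, true_and, Pi.zero_apply] at h1
      rw [← h1, Finset.sum_eq_single d]
      · simp
      · intro c _ hc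
        simp [Ne.symm hc]
      · intro hc
        exact absurd (Finset.mem_univ _) hc
    · have h1 := congrFun h (Sum.inl (u, v))
      simp only [Matrix.mulVec, dotProduct, Matrix.map_apply, gmat, Sum.elim_inl,
        Pi.zero_apply] at h1
      rw [← h1]
      refine Finset.sum_congr rfl fun c _ => ?_
      rw [if_pos ⟨huv, he⟩]
  · rintro ⟨h1, h2⟩
    funext r
    rcases r with ⟨u, v⟩ | d
    · simp only [Matrix.mulVec, dotProduct, Matrix.map_apply, gmat, Sum.elim_inl,
        Pi.zero_apply]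
      by_cases h : u ≠ v ∧ ({u, v} : Finset V) ∈ E
      · rw [← h2 u v h.1 h.2]
        refine Finset.sum_congr rfl fun c _ => ?_
        rw [if_pos h]
      · refine Finset.sum_eq_zero fun c _ => ?_
        rw [if_neg h, eval₂_zero, zero_mul]
    · simp only [Matrix.mulVec, dotProduct, Matrix.map_apply, gmat, Sum.elim_inr,
        Pi.zero_apply]
      refine Finset.sum_eq_zero fun c _ => ?_
      by_cases h : d.1 ∉ I ∧ d = c
      · rw [← h.2, h1 d h.1, mul_zero]
      · rw [if_neg h, eval₂_zero, zero_mul]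

/-- row of `BZ` -/
noncomputable def bzB (m : ℕ) (u v : V) (c : V × Fin (m + 1)) : MvPolynomial (V × Fin 2) ℤ :=
  ((if c.1 = u then 1 else 0) - (if c.1 = v then 1 else 0)) *
    ((X (v, 0) - X (u, 0)) ^ (c.2 : ℕ) * (X (v, 1) - X (u, 1)) ^ (m - (c.2 : ℕ)))

theorem bzB_sum (m : ℕ) {S : Type*} [CommRing S] (p : V × Fin 2 → S) (u v : V)
    (x : V × Fin (m + 1) → S) :
    ∑ c, eval₂ (Int.castRingHom S) p (bzB m u v c) * x c =
      bev m (fun j => x (u, j)) (p (v, 0) - p (u, 0)) (p (v, 1) - p (u, 1)) -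
        bev m (fun j => x (v, j)) (p (v, 0) - p (u, 0)) (p (v, 1) - p (u, 1)) := by
  have e : ∀ c : V × Fin (m + 1), eval₂ (Int.castRingHom S) p (bzB m u v c) * x c =
      (if c.1 = u then x c * ((p (v, 0) - p (u, 0)) ^ (c.2 : ℕ) *
        (p (v, 1) - p (u, 1)) ^ (m - (c.2 : ℕ))) else 0) -
      (if c.1 = v then x c * ((p (v, 0) - p (u, 0)) ^ (c.2 : ℕ) *
        (p (v, 1) - p (u, 1)) ^ (m - (c.2 : ℕ))) else 0) := by
    intro c
    unfold bzB
    simp only [eval₂_mul, eval₂_sub, eval₂_pow, eval₂_X]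
    split_ifs <;> simp <;> ring
  simp only [e, Finset.sum_sub_distrib, Fintype.sum_prod_type]
  unfold bev
  congr 1
  · rw [Finset.sum_eq_single u]
    · simp
    · intro w _ hw
      simp [hw]
    · intro h
      exact absurd (Finset.mem_univ _) h
  · rw [Finset.sum_eq_single v]
    · simp
    · intro w _ hw
      simp [hw]
    · intro h
      exact absurd (Finset.mem_univ _) h

theorem bz_iff (m : ℕ) {S : Type*} [CommRing S] (p : V × Fin 2 → S) (E : Finset (Finset V))
    (I : Finset V) : BZ m p E I ↔ ∀ x : V × Fin (m + 1) → S,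
      ((gmat E I (bzB m)).map fun P => eval₂ (Int.castRingHom S) p P).mulVec x = 0 → x = 0 := by
  simp only [gmat_mulVec, bzB_sum, sub_eq_zero]
  constructor
  · intro h x hx
    funext c
    have h1 := h (fun v j => x (v, j)) (fun v hv => funext fun j => hx.1 (v, j) hv) hx.2 c.1
    exact congrFun h1 c.2
  · intro h q hq1 hq2 v
    have h1 := h (fun c => q c.1 c.2) ⟨fun d hd => by rw [hq1 d.1 hd]; rfl, hq2⟩
    funext j
    exact congrFun h1 (v, j)

/-- row of `NZ` -/
noncomputable def nzB (u v : V) (c : V × (Fin 4 ⊕ Fin 2)) : MvPolynomial (V × Fin 2) ℤ :=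
  Sum.elim
    (fun j : Fin 4 => (if c.1 = u then 1 else 0) *
      ((X (v, 0) - X (u, 0)) ^ (j : ℕ) * (X (v, 1) - X (u, 1)) ^ (3 - (j : ℕ))))
    (fun i : Fin 2 => -((if c.1 = u then 1 else 0) + (if c.1 = v then 1 else 0)) *
      (X (v, i) - X (u, i)) ^ 2) c.2

theorem nzB_sum {S : Type*} [CommRing S] (p : V × Fin 2 → S) (u v : V)
    (x : V × (Fin 4 ⊕ Fin 2) → S) :
    ∑ c, eval₂ (Int.castRingHom S) p (nzB u v c) * x c =
      bev 3 (fun j => x (u, Sum.inl j)) (p (v, 0) - p (u, 0)) (p (v, 1) - p (u, 1)) -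
        ((x (u, Sum.inr 0) + x (v, Sum.inr 0)) * (p (v, 0) - p (u, 0)) ^ 2 +
          (x (u, Sum.inr 1) + x (v, Sum.inr 1)) * (p (v, 1) - p (u, 1)) ^ 2) := by
  have e1 : ∀ (w : V) (j : Fin 4), eval₂ (Int.castRingHom S) p (nzB u v (w, Sum.inl j)) *
      x (w, Sum.inl j) = if w = u then x (w, Sum.inl j) * ((p (v, 0) - p (u, 0)) ^ (j : ℕ) *
        (p (v, 1) - p (u, 1)) ^ (3 - (j : ℕ))) else 0 := by
    intro w j
    unfold nzB
    simp only [Sum.elim_inl, eval₂_mul, eval₂_sub, eval₂_pow, eval₂_X]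
    split_ifs <;> simp <;> ring
  have e2 : ∀ (w : V) (i : Fin 2), eval₂ (Int.castRingHom S) p (nzB u v (w, Sum.inr i)) *
      x (w, Sum.inr i) = -((if w = u then x (w, Sum.inr i) * (p (v, i) - p (u, i)) ^ 2 else 0) +
        (if w = v then x (w, Sum.inr i) * (p (v, i) - p (u, i)) ^ 2 else 0)) := by
    intro w i
    unfold nzB
    simp only [Sum.elim_inr, eval₂_mul, eval₂_add, eval₂_neg, eval₂_sub, eval₂_pow, eval₂_X]
    split_ifs <;> simp <;> ring
  rw [Fintype.sum_prod_type]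
  simp only [Fintype.sum_sum_type, e1, e2, Finset.sum_add_distrib, Finset.sum_neg_distrib]
  have s1 : ∑ w : V, ∑ j : Fin 4, (if w = u then x (w, Sum.inl j) *
      ((p (v, 0) - p (u, 0)) ^ (j : ℕ) * (p (v, 1) - p (u, 1)) ^ (3 - (j : ℕ))) else 0) =
      bev 3 (fun j => x (u, Sum.inl j)) (p (v, 0) - p (u, 0)) (p (v, 1) - p (u, 1)) := by
    rw [Finset.sum_eq_single u]
    · simp [bev]
    · intro w _ hw
      simp [hw]
    · intro h
      exact absurd (Finset.mem_univ _) h
  have s2 : ∀ y : V, ∑ w : V, ∑ i : Fin 2, (if w = y then x (w, Sum.inr i) *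
      (p (v, i) - p (u, i)) ^ 2 else 0) =
      x (y, Sum.inr 0) * (p (v, 0) - p (u, 0)) ^ 2 +
        x (y, Sum.inr 1) * (p (v, 1) - p (u, 1)) ^ 2 := by
    intro y
    rw [Finset.sum_eq_single y]
    · simp [Fin.sum_univ_two]
    · intro w _ hw
      simp [hw]
    · intro h
      exact absurd (Finset.mem_univ _) h
  rw [s1, s2 u, s2 v]
  ring

theorem nz_iff {S : Type*} [CommRing S] (p : V × Fin 2 → S) (E : Finset (Finset V))
    (I : Finset V) : NZ p E I ↔ ∀ x : V × (Fin 4 ⊕ Fin 2) → S,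
      ((gmat E I nzB).map fun P => eval₂ (Int.castRingHom S) p P).mulVec x = 0 → x = 0 := by
  simp only [gmat_mulVec, nzB_sum, sub_eq_zero]
  constructor
  · intro h x hx
    have h1 := h (fun v j => x (v, Sum.inl j)) (fun v i => x (v, Sum.inr i))
      (fun v hv => ⟨funext fun j => hx.1 (v, Sum.inl j) hv,
        funext fun i => hx.1 (v, Sum.inr i) hv⟩) hx.2
    funext c
    rcases c with ⟨v, j | i⟩
    · exact congrFun (h1 v).1 j
    · exact congrFun (h1 v).2 i
  · intro h c k hq1 hq2 v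
    have h1 := h (fun d => Sum.elim (c d.1) (k d.1) d.2) ⟨?_, ?_⟩
    · exact ⟨funext fun j => congrFun h1 (v, Sum.inl j),
        funext fun i => congrFun h1 (v, Sum.inr i)⟩
    · rintro ⟨w, j | i⟩ hd
      · simp only [Sum.elim_inl, (hq1 w hd).1, Pi.zero_apply]
      · simp only [Sum.elim_inr, (hq1 w hd).2, Pi.zero_apply]
    · intro a b hab he
      exact hq2 a b hab he

theorem gb_of_one {K : Type*} [Field K] {D : Type*} [CommRing D] [IsDomain D] [Algebra K D]
    (m : ℕ) (E : Finset (Finset V)) (I : Finset V) (p : V × Fin 2 → D) (h : BZ m p E I) :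
    GB m K E I := by
  obtain ⟨Q, hQ, hQ'⟩ := inj_generic (K := K) (gmat E I (bzB m)) p ((bz_iff m p E I).1 h)
  exact ⟨Q, hQ, fun p hp => (bz_iff m p E I).2 (hQ' p hp)⟩

theorem gn_of_one {K : Type*} [Field K] {D : Type*} [CommRing D] [IsDomain D] [Algebra K D]
    (E : Finset (Finset V)) (I : Finset V) (p : V × Fin 2 → D) (h : NZ p E I) :
    GN K E I := by
  obtain ⟨Q, hQ, hQ'⟩ := inj_generic (K := K) (gmat E I nzB) p ((nz_iff p E I).1 h)
  exact ⟨Q, hQ, fun p hp => (nz_iff p E I).2 (hQ' p hp)⟩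

theorem exists_good {K : Type*} [Field K] [Infinite K] (E : Finset (Finset V)) (I : Finset V)
    (hN : GN K E I) (hG : GB 2 K E I) :
    ∃ p : V × Fin 2 → K, NZ p E I ∧ BZ 2 (fun x => p x ^ 2) E I ∧
      ∀ u v, u ≠ v → p (u, 1) ≠ p (v, 1) := by
  obtain ⟨Q₁, hQ₁, h₁⟩ := hN
  obtain ⟨Q₂, hQ₂, h₂⟩ := hG
  obtain ⟨P, hP⟩ : ∃ P : MvPolynomial (V × Fin 2) K, P = ∏ e : V × V,
      if e.1 ≠ e.2 then X (e.1, 1) - X (e.2, 1) else 1 := ⟨_, rfl⟩
  have hP0 : P ≠ 0 := by
    rw [hP, Finset.prod_ne_zero_iff]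
    rintro ⟨u, v⟩ _
    by_cases h : u ≠ v
    · rw [if_pos h, sub_ne_zero]
      intro he
      have := X_injective (R := K) he
      simp only [Prod.mk.injEq, and_true] at this
      exact h this
    · rw [if_neg h]
      exact one_ne_zero
  have hne : Q₁ * expand 2 Q₂ * P ≠ 0 :=
    mul_ne_zero (mul_ne_zero hQ₁ ((expand_ne_zero (by norm_num)).2 hQ₂)) hP0
  obtain ⟨p, hp⟩ : ∃ p : V × Fin 2 → K, eval p (Q₁ * expand 2 Q₂ * P) ≠ 0 := by
    by_contra hcon
    push Not at hcon
    exact hne (MvPolynomial.funext fun x => by rw [hcon x, map_zero])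
  rw [map_mul, map_mul, mul_ne_zero_iff, mul_ne_zero_iff, eval_expand] at hp
  refine ⟨p, h₁ p hp.1.1, h₂ _ hp.1.2, fun u v huv he => hp.2 ?_⟩
  rw [hP, map_prod]
  refine Finset.prod_eq_zero (Finset.mem_univ (u, v)) ?_
  rw [if_pos huv, map_sub, eval_X, eval_X, he, sub_self]

end Pool.Agent.Spl2
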