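import Pool.Agent.Spl2.BrGen

/-!
# Bridge, module BrGlu: the theorem of Gluck by contraction, every characteristic

PAPER PROOF of `gb_ctr` (contraction of `v` into `o`, at least two common neighbours `a`, `b`).  `K` is infinite: choose `p'` with `BZ 2 p' E' (I.erase v)`,
and such that `p' a - p' o`, `p' b - p' o` are linearly independent (product of two nonzero polynomials), and then a vector `η ∈ K²` which is not
proportional to either of them.  Over `D = K[X]` let `p` be `p'` (constants) except `p v = p' o + X η`.  Claim: `BZ 2 p E I` (over `D`); then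
`gb_of_one` finishes.  Let `q` be a nonzero solution over `D`; dividing by a power of `X` we may assume that not all coefficients are divisible by
`X` (all the equations are homogeneous linear).  The equation of the edge `{v, o}` is `X² (q v - q o)(η) = 0` (up to sign of `η`), so `(q v - q o)(η) = 0`.
Put `X = 0` in all equations: we get a nonzero solution `q̄` over `K` of: `q̄ x = q̄ y` at `p' y - p' x` for the edges without `v`, `q̄ v = q̄ x` at
`p' x - p' o` for the edges `{v, x}`, `x ≠ o`, `q̄ v = q̄ o` at `η`.  At `p' a - p' o`: `q̄ v = q̄ a = q̄ o`, the same for `b`.  So the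
binary quadratic form `q̄ v - q̄ o` vanishes at three pairwise independent vectors and `q̄ v = q̄ o`.  Hence (with `hE'`) `q̄` restricted to `V - v`
(put `q̄ v := 0`) is a solution for `E'`, so it is `0`, and `q̄ v = q̄ o = 0` (`q̄ o = 0` also if `o ∉ I`): contradiction.
`gb_del`: generic `p` with `p x - p v`, `p y - p v`, `p z - p v` pairwise independent; a solution for `E` restricted to `V - v` is a solution for `E'`, so
`q w = 0` for `w ≠ v`, and `q v` vanishes at three pairwise independent vectors.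
-/

set_option autoImplicit false

namespace Pool.Agent.Spl2

open MvPolynomial

variable {V : Type*} [Fintype V] [DecidableEq V] {K : Type*} [Field K] [Infinite K]

private theorem bev2_eq {R : Type*} [CommRing R] (q : Fin 3 → R) (a b : R) :
    bev 2 q a b = q 0 * b ^ 2 + q 1 * (a * b) + q 2 * a ^ 2 := by
  have h : bev 2 q a b = ∑ j : Fin 3, q j * (a ^ (j : ℕ) * b ^ (2 - (j : ℕ))) := rfl
  rw [h, Fin.sum_univ_three]
  simp

omit [Infinite K] in
private theorem gq_zero (d : Fin 3 → K) {a0 a1 b0 b1 c0 c1 : K} (ha : bev 2 d a0 a1 = 0)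
    (hb : bev 2 d b0 b1 = 0) (hc : bev 2 d c0 c1 = 0) (hab : a0 * b1 - a1 * b0 ≠ 0)
    (hac : a0 * c1 - a1 * c0 ≠ 0) (hbc : b0 * c1 - b1 * c0 ≠ 0) : d = 0 := by
  rw [bev2_eq] at ha hb hc
  have hne : (a0 * b1 - a1 * b0) * (a0 * c1 - a1 * c0) * (b0 * c1 - b1 * c0) ≠ 0 :=
    mul_ne_zero (mul_ne_zero hab hac) hbc
  have e0 : d 0 * ((a0 * b1 - a1 * b0) * (a0 * c1 - a1 * c0) * (b0 * c1 - b1 * c0)) = 0 := by
    linear_combination (b0 * c0 * (b0 * c1 - b1 * c0)) * ha - (a0 * c0 * (a0 * c1 - a1 * c0)) * hb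
      + (a0 * b0 * (a0 * b1 - a1 * b0)) * hc
  have e1 : d 1 * ((a0 * b1 - a1 * b0) * (a0 * c1 - a1 * c0) * (b0 * c1 - b1 * c0)) = 0 := by
    linear_combination -(b0 ^ 2 * c1 ^ 2 - b1 ^ 2 * c0 ^ 2) * ha
      + (a0 ^ 2 * c1 ^ 2 - a1 ^ 2 * c0 ^ 2) * hb - (a0 ^ 2 * b1 ^ 2 - a1 ^ 2 * b0 ^ 2) * hc
  have e2 : d 2 * ((a0 * b1 - a1 * b0) * (a0 * c1 - a1 * c0) * (b0 * c1 - b1 * c0)) = 0 := by
    linear_combination (b1 * c1 * (b0 * c1 - b1 * c0)) * ha - (a1 * c1 * (a0 * c1 - a1 * c0)) * hb
      + (a1 * b1 * (a0 * b1 - a1 * b0)) * hc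
  funext j
  fin_cases j
  · exact (mul_eq_zero.1 e0).resolve_right hne
  · exact (mul_eq_zero.1 e1).resolve_right hne
  · exact (mul_eq_zero.1 e2).resolve_right hne

private theorem bev_map' {R S : Type*} [CommRing R] [CommRing S] (f : R →+* S) (m : ℕ)
    (q : Fin (m + 1) → R) (a b : R) :
    f (bev m q a b) = bev m (fun j => f (q j)) (f a) (f b) := by
  unfold bev
  simp only [map_sum, map_mul, map_pow]

private theorem bev2_smul {R : Type*} [CommRing R] (t : R) (q : Fin 3 → R) (a b : R) :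
    bev 2 q (t * a) (t * b) = t ^ 2 * bev 2 q a b := by
  rw [bev2_eq, bev2_eq]
  ring

private theorem bev2_neg {R : Type*} [CommRing R] (q : Fin 3 → R) (a b : R) :
    bev 2 q (-a) (-b) = bev 2 q a b := by
  have h := bev2_smul (-1) q a b
  simpa using h

private theorem bev2_zero {R : Type*} [CommRing R] (a b : R) : bev 2 (0 : Fin 3 → R) a b = 0 := by
  simp [bev]

private theorem bev2_sub {R : Type*} [CommRing R] (q q' : Fin 3 → R) (a b : R) :
    bev 2 (fun j => q j - q' j) a b = bev 2 q a b - bev 2 q' a b := by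
  unfold bev
  rw [← Finset.sum_sub_distrib]
  exact Finset.sum_congr rfl fun j _ => by ring

private theorem bev2_cmul {R : Type*} [CommRing R] (t : R) (q : Fin 3 → R) (a b : R) :
    bev 2 (fun j => t * q j) a b = t * bev 2 q a b := by
  unfold bev
  rw [Finset.mul_sum]
  exact Finset.sum_congr rfl fun j _ => by ring

/-- the determinant of two edge vectors -/
private noncomputable def dpol (K : Type*) [Field K] (o a b : V) : MvPolynomial (V × Fin 2) K :=
  (X (a, 0) - X (o, 0)) * (X (b, 1) - X (o, 1)) - (X (a, 1) - X (o, 1)) * (X (b, 0) - X (o, 0))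

omit [Fintype V] [DecidableEq V] [Infinite K] in
private theorem dpol_eval (o a b : V) (p : V × Fin 2 → K) : eval p (dpol K o a b) =
    (p (a, 0) - p (o, 0)) * (p (b, 1) - p (o, 1)) -
      (p (a, 1) - p (o, 1)) * (p (b, 0) - p (o, 0)) := by
  unfold dpol
  simp

omit [Fintype V] [Infinite K] in
private theorem dpol_ne {o a b : V} (hoa : o ≠ a) (hob : o ≠ b) (hab : a ≠ b) :
    dpol K o a b ≠ 0 := by
  intro h
  have h1 := dpol_eval (K := K) o a b
    (fun d => if d = (a, 0) then 1 else if d = (b, 1) then 1 else 0)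
  rw [h, map_zero] at h1
  simp [hoa, hob, hab, Ne.symm hab] at h1

omit [Fintype V] [DecidableEq V] in
private theorem ex_eval {P : MvPolynomial (V × Fin 2) K} (h : P ≠ 0) :
    ∃ p : V × Fin 2 → K, eval p P ≠ 0 := by
  by_contra hcon
  push Not at hcon
  exact h (MvPolynomial.funext fun x => by rw [hcon x, map_zero])

theorem gb_ctr (E E' : Finset (Finset V)) (I : Finset V) (v o a b : V) (hv : v ∈ I)
    (hvo : v ≠ o) (hva : v ≠ a) (hvb : v ≠ b) (hoa : o ≠ a) (hob : o ≠ b) (hab : a ≠ b)
    (h1 : ({v, o} : Finset V) ∈ E) (h2 : ({v, a} : Finset V) ∈ E) (h3 : ({v, b} : Finset V) ∈ E)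
    (h4 : ({o, a} : Finset V) ∈ E ∨ (o ∉ I ∧ a ∉ I))
    (h5 : ({o, b} : Finset V) ∈ E ∨ (o ∉ I ∧ b ∉ I))
    (hE' : ∀ x y, x ≠ y → ({x, y} : Finset V) ∈ E' →
      (x ≠ v ∧ y ≠ v ∧ ({x, y} : Finset V) ∈ E) ∨ (x = o ∧ y ≠ v ∧ ({v, y} : Finset V) ∈ E) ∨
        (y = o ∧ x ≠ v ∧ ({v, x} : Finset V) ∈ E) ∨ (x ∉ I.erase v ∧ y ∉ I.erase v))
    (h : GB 2 K E' (I.erase v)) : GB 2 K E I := by
  obtain ⟨Q, hQ, hQ'⟩ := h
  obtain ⟨p', hp'⟩ := ex_eval (mul_ne_zero hQ (dpol_ne (K := K) hoa hob hab))
  rw [map_mul, mul_ne_zero_iff, dpol_eval] at hp'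
  obtain ⟨hpQ, hdet⟩ := hp'
  have hbz := hQ' p' hpQ
  obtain ⟨η, hη⟩ : ∃ η : Fin 2 → K, η = fun i => (p' (a, i) - p' (o, i)) + (p' (b, i) - p' (o, i)) :=
    ⟨_, rfl⟩
  obtain ⟨p, hp⟩ : ∃ p : V × Fin 2 → Polynomial K, p = fun d =>
      if d.1 = v then Polynomial.C (p' (o, d.2)) + Polynomial.X * Polynomial.C (η d.2)
      else Polynomial.C (p' d) := ⟨_, rfl⟩
  have pv : ∀ i, p (v, i) = Polynomial.C (p' (o, i)) + Polynomial.X * Polynomial.C (η i) := by
    intro i
    rw [hp]
    exact if_pos rfl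
  have pw : ∀ w i, w ≠ v → p (w, i) = Polynomial.C (p' (w, i)) := by
    intro w i hw
    rw [hp]
    exact if_neg hw
  refine gb_of_one (D := Polynomial K) 2 E I p ?_
  -- solutions are divisible by X
  have core : ∀ q : V → Fin 3 → Polynomial K, (∀ w, w ∉ I → q w = 0) →
      (∀ x y, x ≠ y → ({x, y} : Finset V) ∈ E →
        bev 2 (q x) (p (y, 0) - p (x, 0)) (p (y, 1) - p (x, 1)) =
          bev 2 (q y) (p (y, 0) - p (x, 0)) (p (y, 1) - p (x, 1))) →
      ∀ w j, (q w j).eval 0 = 0 := by
    intro q hq0 hq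
    obtain ⟨r, hr⟩ : ∃ r : V → Fin 3 → K, r = fun w j => (q w j).eval 0 := ⟨_, rfl⟩
    have hr' : ∀ w j, (q w j).eval 0 = r w j := fun w j => by rw [hr]
    have hr0 : ∀ w, w ∉ I → r w = 0 := by
      intro w hw
      funext j
      rw [← hr' w j, hq0 w hw]
      simp
    have hmap : ∀ (w : V) (A B : Polynomial K),
        (bev 2 (q w) A B).eval 0 = bev 2 (r w) (A.eval 0) (B.eval 0) := by
      intro w A B
      have := bev_map' (Polynomial.evalRingHom (0 : K)) 2 (q w) A B
      simp only [Polynomial.coe_evalRingHom] at this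
      rw [this, hr]
    have eq1 : ∀ x y, x ≠ v → y ≠ v → x ≠ y → ({x, y} : Finset V) ∈ E →
        bev 2 (r x) (p' (y, 0) - p' (x, 0)) (p' (y, 1) - p' (x, 1)) =
          bev 2 (r y) (p' (y, 0) - p' (x, 0)) (p' (y, 1) - p' (x, 1)) := by
      intro x y hx hy hxy he
      have h := congrArg (Polynomial.eval 0) (hq x y hxy he)
      rw [hmap, hmap, pw x _ hx, pw x _ hx, pw y _ hy, pw y _ hy] at h
      simpa using h
    have eq2 : ∀ x, x ≠ v → ({v, x} : Finset V) ∈ E →
        bev 2 (r v) (p' (x, 0) - p' (o, 0)) (p' (x, 1) - p' (o, 1)) =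
          bev 2 (r x) (p' (x, 0) - p' (o, 0)) (p' (x, 1) - p' (o, 1)) := by
      intro x hx he
      have h := congrArg (Polynomial.eval 0) (hq v x (Ne.symm hx) he)
      rw [hmap, hmap, pv, pv, pw x _ hx, pw x _ hx] at h
      simpa using h
    have eq3 : bev 2 (r v) (η 0) (η 1) = bev 2 (r o) (η 0) (η 1) := by
      have h := hq v o hvo h1
      have e : ∀ i, p (o, i) - p (v, i) = -Polynomial.X * Polynomial.C (η i) := by
        intro i
        rw [pv, pw o i (Ne.symm hvo)]
        ring
      rw [e, e, bev2_smul, bev2_smul] at h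
      have h' := mul_left_cancel₀ (pow_ne_zero 2 (neg_ne_zero.2 Polynomial.X_ne_zero)) h
      have h'' := congrArg (Polynomial.eval 0) h'
      rw [hmap, hmap] at h''
      simpa using h''
    have eqa : bev 2 (r v) (p' (a, 0) - p' (o, 0)) (p' (a, 1) - p' (o, 1)) =
        bev 2 (r o) (p' (a, 0) - p' (o, 0)) (p' (a, 1) - p' (o, 1)) := by
      rw [eq2 a (Ne.symm hva) h2]
      rcases h4 with h4 | h4
      · exact (eq1 o a (Ne.symm hvo) (Ne.symm hva) hoa h4).symm
      · rw [hr0 o h4.1, hr0 a h4.2]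
    have eqb : bev 2 (r v) (p' (b, 0) - p' (o, 0)) (p' (b, 1) - p' (o, 1)) =
        bev 2 (r o) (p' (b, 0) - p' (o, 0)) (p' (b, 1) - p' (o, 1)) := by
      rw [eq2 b (Ne.symm hvb) h3]
      rcases h5 with h5 | h5
      · exact (eq1 o b (Ne.symm hvo) (Ne.symm hvb) hob h5).symm
      · rw [hr0 o h5.1, hr0 b h5.2]
    have hvo' : r v = r o := by
      have hz : (fun j => r v j - r o j) = 0 := by
        refine gq_zero (fun j => r v j - r o j) (a0 := p' (a, 0) - p' (o, 0))
          (a1 := p' (a, 1) - p' (o, 1)) (b0 := p' (b, 0) - p' (o, 0))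
          (b1 := p' (b, 1) - p' (o, 1)) (c0 := η 0) (c1 := η 1) ?_ ?_ ?_ hdet ?_ ?_
        · rw [bev2_sub, eqa, sub_self]
        · rw [bev2_sub, eqb, sub_self]
        · rw [bev2_sub, eq3, sub_self]
        · rw [hη]
          intro hc
          apply hdet
          linear_combination hc
        · rw [hη]
          intro hc
          apply hdet
          linear_combination -hc
      funext j
      have := congrFun hz j
      exact sub_eq_zero.1 this
    have hfin := hbz (fun w => if w = v then 0 else r w) ?_ ?_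
    · have hw : ∀ w, w ≠ v → r w = 0 := by
        intro w hw
        have := hfin w
        simp only [if_neg hw] at this
        exact this
      intro w j
      rw [hr']
      by_cases hwv : w = v
      · rw [hwv, hvo', hw o (Ne.symm hvo)]
        rfl
      · rw [hw w hwv]
        rfl
    · intro w hw
      by_cases hwv : w = v
      · simp only [if_pos hwv]
      · simp only [if_neg hwv]
        apply hr0
        intro hwI
        exact hw (Finset.mem_erase.2 ⟨hwv, hwI⟩)
    · intro x y hxy he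
      rcases hE' x y hxy he with ⟨hx, hy, hh⟩ | ⟨hx, hy, hh⟩ | ⟨hy, hx, hh⟩ | ⟨hx, hy⟩
      · simp only [if_neg hx, if_neg hy]
        exact eq1 x y hx hy hxy hh
      · subst hx
        simp only [if_neg (Ne.symm hvo), if_neg hy]
        rw [← hvo']
        exact eq2 y hy hh
      · subst hy
        simp only [if_neg (Ne.symm hvo), if_neg hx]
        have h := eq2 x hx hh
        rw [← bev2_neg (r v), ← bev2_neg (r x)] at h
        simp only [neg_sub] at h
        rw [← hvo', h]
      · have h0 : ∀ z, z ∉ I.erase v → (if z = v then (0 : Fin 3 → K) else r z) = 0 := by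
          intro z hz
          by_cases hzv : z = v
          · rw [if_pos hzv]
          · rw [if_neg hzv]
            apply hr0
            intro hzI
            exact hz (Finset.mem_erase.2 ⟨hzv, hzI⟩)
        simp only [h0 x hx, h0 y hy]
  -- divisibility by all powers of X
  have all : ∀ n : ℕ, ∀ q : V → Fin 3 → Polynomial K, (∀ w, w ∉ I → q w = 0) →
      (∀ x y, x ≠ y → ({x, y} : Finset V) ∈ E →
        bev 2 (q x) (p (y, 0) - p (x, 0)) (p (y, 1) - p (x, 1)) =
          bev 2 (q y) (p (y, 0) - p (x, 0)) (p (y, 1) - p (x, 1))) →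
      ∀ w j, (Polynomial.X : Polynomial K) ^ n ∣ q w j := by
    intro n
    induction n with
    | zero => intro q _ _ w j; simp
    | succ n ih =>
      intro q hq0 hq
      have hd : ∀ w j, ∃ c : Polynomial K, q w j = Polynomial.X * c := by
        intro w j
        have := core q hq0 hq w j
        rw [← Polynomial.coeff_zero_eq_eval_zero] at this
        exact Polynomial.X_dvd_iff.2 this
      choose q' hq' using hd
      have hqq : ∀ w, q w = fun j => Polynomial.X * q' w j := fun w => funext fun j => hq' w j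
      have i1 : ∀ w, w ∉ I → q' w = 0 := by
        intro w hw
        funext j
        have h := hq' w j
        rw [hq0 w hw, Pi.zero_apply, zero_eq_mul] at h
        exact h.resolve_left Polynomial.X_ne_zero
      have i2 : ∀ x y, x ≠ y → ({x, y} : Finset V) ∈ E →
          bev 2 (q' x) (p (y, 0) - p (x, 0)) (p (y, 1) - p (x, 1)) =
            bev 2 (q' y) (p (y, 0) - p (x, 0)) (p (y, 1) - p (x, 1)) := by
        intro x y hxy he
        have h := hq x y hxy he
        rw [hqq x, hqq y, bev2_cmul, bev2_cmul] at h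
        exact mul_left_cancel₀ Polynomial.X_ne_zero h
      intro w j
      rw [hq' w j, pow_succ']
      exact mul_dvd_mul_left _ (ih q' i1 i2 w j)
  intro q hq0 hq w
  funext j
  rw [Pi.zero_apply]
  by_contra hne
  have h := all ((q w j).natDegree + 1) q hq0 hq w j
  have h' := Polynomial.natDegree_le_of_dvd h hne
  rw [Polynomial.natDegree_X_pow] at h'
  omega

theorem gb_del (E E' : Finset (Finset V)) (I : Finset V) (v x y z : V) (hv : v ∈ I)
    (hvx : v ≠ x) (hvy : v ≠ y) (hvz : v ≠ z) (hxy : x ≠ y) (hxz : x ≠ z) (hyz : y ≠ z)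
    (h1 : ({v, x} : Finset V) ∈ E) (h2 : ({v, y} : Finset V) ∈ E) (h3 : ({v, z} : Finset V) ∈ E)
    (hE' : ∀ x y, x ≠ y → ({x, y} : Finset V) ∈ E' →
      (x ≠ v ∧ y ≠ v ∧ ({x, y} : Finset V) ∈ E) ∨ (x ∉ I.erase v ∧ y ∉ I.erase v))
    (h : GB 2 K E' (I.erase v)) : GB 2 K E I := by
  obtain ⟨Q, hQ, hQ'⟩ := h
  refine ⟨Q * (dpol K v x y * dpol K v x z * dpol K v y z), mul_ne_zero hQ
    (mul_ne_zero (mul_ne_zero (dpol_ne hvx hvy hxy) (dpol_ne hvx hvz hxz))
      (dpol_ne hvy hvz hyz)), fun p hp => ?_⟩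
  rw [map_mul, map_mul, map_mul, mul_ne_zero_iff, mul_ne_zero_iff, mul_ne_zero_iff, dpol_eval,
    dpol_eval, dpol_eval] at hp
  obtain ⟨hpQ, ⟨d1, d2⟩, d3⟩ := hp
  intro q hq0 hq
  have hfin := hQ' p hpQ (fun w => if w = v then 0 else q w) ?_ ?_
  · have hw : ∀ w, w ≠ v → q w = 0 := by
      intro w hw
      have := hfin w
      simp only [if_neg hw] at this
      exact this
    have hv0 : q v = 0 := by
      have e : ∀ w, w ≠ v → ({v, w} : Finset V) ∈ E →
          bev 2 (q v) (p (w, 0) - p (v, 0)) (p (w, 1) - p (v, 1)) = 0 := by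
        intro w hwv he
        rw [hq v w (Ne.symm hwv) he, hw w hwv]
        exact bev2_zero _ _
      exact gq_zero (q v) (e x (Ne.symm hvx) h1) (e y (Ne.symm hvy) h2) (e z (Ne.symm hvz) h3)
        d1 d2 d3
    intro w
    by_cases hwv : w = v
    · rw [hwv, hv0]
    · exact hw w hwv
  · intro w hw
    by_cases hwv : w = v
    · simp only [if_pos hwv]
    · simp only [if_neg hwv]
      apply hq0
      intro hwI
      exact hw (Finset.mem_erase.2 ⟨hwv, hwI⟩)
  · intro s t hst he
    rcases hE' s t hst he with ⟨hs, ht, hh⟩ | ⟨hs, ht⟩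
    · simp only [if_neg hs, if_neg ht]
      exact hq s t hst hh
    · have h0 : ∀ z, z ∉ I.erase v → (if z = v then (0 : Fin 3 → K) else q z) = 0 := by
        intro z hz
        by_cases hzv : z = v
        · rw [if_pos hzv]
        · rw [if_neg hzv]
          apply hq0
          intro hzI
          exact hz (Finset.mem_erase.2 ⟨hzv, hzI⟩)
      simp only [h0 s hs, h0 t ht]

end Pool.Agent.Spl2
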