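import Pool.Agent.Spl2.BrApol
import Pool.Agent.Spl1.Tri

/-!
# Bridge, module BrHom: functionals on polynomials in two variables

`deh` puts the third variable equal to `1`; `hom k` homogenises polynomials of degree at most `k` (monomials of larger degree
are mapped to the exponent with third entry `0`, this never matters); `fn k μ F = apo (hom k F) μ`.

PAPER PROOF.
(1) `hom k (deh H) = H` for `H` homogeneous of degree `k` (check monomials `m` with `m 0 + m 1 + m 2 = k`).
(2) `fn_rep`: a linear functional `φ` on the polynomials of degree `≤ k` is `fn k μ` for exactly one form `μ` of degree `k`: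
`μ = ∑_{m0 + m1 ≤ k} (φ (X 0 ^ m0 * X 1 ^ m1) / (m0! m1! (k - m0 - m1)!)) X 0 ^ m0 * X 1 ^ m1 * X 2 ^ (k - m0 - m1)` (characteristic 0).
(3) `edge_iff`: `k = r + 1 + d`.  Let `Δ = y_u - y_v ≠ 0`, `a = X 1 - y_v`, `b = y_u - X 1`, `ℓ = lin p u v`, all of degree 1
(two variables).  `deh` maps the three forms `e₀, e₁, e₂` of `BrApol` to `a`, `b`, `ℓ`.  By (1) and `apo_factor`
`fn k μ (a ^ i * b ^ j * ℓ ^ l) = i! j! l! coeff (ex3 i j l) (adp p u v μ)` for `i + j + l = k`.
`→`: take `g = a ^ i * b ^ j * ℓ ^ (d - i - j)`.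
`←`: `1, X 0, X 1` are combinations of `a, b, ℓ` (`a + b = Δ`, `X 1 = a + y_v`, `Δ X 0 = ℓ + (x_u - x_v) X 1 - const`), so by
induction every polynomial of degree `≤ d` is in the span of the products `a ^ i * b ^ j * ℓ ^ l`, `i + j + l = d`
(multiply a monomial of degree `e ≤ d` by `((a + b) / Δ) ^ (d - e) = 1`).
-/

set_option autoImplicit false

namespace Pool.Agent.Spl2

open MvPolynomial

variable {V : Type*} {R : Type*} [CommRing R]

/-- third variable equal to one -/
noncomputable def deh : MvPolynomial (Fin 3) R →ₐ[R] MvPolynomial (Fin 2) R :=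
  aeval ![X 0, X 1, 1]

/-- homogenisation to the degree `k` -/
noncomputable def hom (k : ℕ) (F : MvPolynomial (Fin 2) R) : MvPolynomial (Fin 3) R :=
  ∑ m ∈ F.support, monomial (ex3 (m 0) (m 1) (k - m 0 - m 1)) (coeff m F)

/-- the functional of a form of degree `k` -/
noncomputable def fn (k : ℕ) (μ : MvPolynomial (Fin 3) R) (F : MvPolynomial (Fin 2) R) : R :=
  apo (hom k F) μ

/-! ## `hom` is linear -/

private theorem hom_eq (k : ℕ) (F : MvPolynomial (Fin 2) R) (S : Finset (Fin 2 →₀ ℕ))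
    (hS : F.support ⊆ S) :
    hom k F = ∑ m ∈ S, monomial (ex3 (m 0) (m 1) (k - m 0 - m 1)) (coeff m F) := by
  unfold hom
  refine Finset.sum_subset hS fun m _ hm => ?_
  rw [notMem_support_iff.1 hm, monomial_zero]

private theorem hom_add (k : ℕ) (F F' : MvPolynomial (Fin 2) R) :
    hom k (F + F') = hom k F + hom k F' := by
  classical
  rw [hom_eq k (F + F') (F.support ∪ F'.support) support_add,
    hom_eq k F (F.support ∪ F'.support) Finset.subset_union_left,
    hom_eq k F' (F.support ∪ F'.support) Finset.subset_union_right, ← Finset.sum_add_distrib]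
  refine Finset.sum_congr rfl fun m _ => ?_
  rw [coeff_add, map_add]

private theorem hom_smul (k : ℕ) (a : R) (F : MvPolynomial (Fin 2) R) :
    hom k (a • F) = a • hom k F := by
  rw [hom_eq k (a • F) F.support support_smul, hom_eq k F F.support subset_rfl, Finset.smul_sum]
  refine Finset.sum_congr rfl fun m _ => ?_
  rw [coeff_smul, smul_monomial]

private theorem hom_monomial (k : ℕ) (m : Fin 2 →₀ ℕ) (a : R) :
    hom k (monomial m a) = monomial (ex3 (m 0) (m 1) (k - m 0 - m 1)) a := by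
  rw [hom_eq k (monomial m a) {m} support_monomial_subset, Finset.sum_singleton, coeff_monomial,
    if_pos rfl]

private noncomputable def homL (k : ℕ) : MvPolynomial (Fin 2) R →ₗ[R] MvPolynomial (Fin 3) R where
  toFun F := hom k F
  map_add' F F' := hom_add k F F'
  map_smul' a F := hom_smul k a F

/-- the exponent `(i, j)` -/
private noncomputable def ex2 (i j : ℕ) : Fin 2 →₀ ℕ := Finsupp.single 0 i + Finsupp.single 1 j

private theorem ex2_zero (i j : ℕ) : ex2 i j 0 = i := by simp [ex2]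
private theorem ex2_one (i j : ℕ) : ex2 i j 1 = j := by simp [ex2]

private theorem ex2_eq (m : Fin 2 →₀ ℕ) : ex2 (m 0) (m 1) = m := by
  ext s
  fin_cases s
  · exact ex2_zero _ _
  · exact ex2_one _ _

private theorem ex3_eq (m : Fin 3 →₀ ℕ) : ex3 (m 0) (m 1) (m 2) = m := by
  ext s
  fin_cases s <;> simp [ex3]

private theorem deh_monomial (m : Fin 3 →₀ ℕ) (a : R) :
    deh (monomial m a) = monomial (ex2 (m 0) (m 1)) a := by
  unfold deh
  rw [aeval_monomial, Finsupp.prod_fintype _ _ (fun i => pow_zero _), Fin.prod_univ_three]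
  simp only [Matrix.cons_val_zero, Matrix.cons_val_one, Matrix.cons_val, one_pow, mul_one,
    algebraMap_eq]
  rw [X_pow_eq_monomial, X_pow_eq_monomial, monomial_mul, C_mul_monomial, one_mul, mul_one]
  rfl

private theorem sum_of_homog {k : ℕ} {H : MvPolynomial (Fin 3) R} (hH : H.IsHomogeneous k)
    {m : Fin 3 →₀ ℕ} (hm : coeff m H ≠ 0) : m 0 + m 1 + m 2 = k := by
  have h := hH hm
  rw [Finsupp.weight_apply, Finsupp.sum_fintype _ _ (fun i => by simp), Fin.sum_univ_three] at h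
  simpa using h

theorem hom_deh (k : ℕ) (H : MvPolynomial (Fin 3) R) (hH : H.IsHomogeneous k) :
    hom k (deh H) = H := by
  have h1 : homL k (deh (∑ m ∈ H.support, monomial m (coeff m H))) =
      ∑ m ∈ H.support, monomial m (coeff m H) := by
    rw [map_sum, map_sum]
    refine Finset.sum_congr rfl fun m hm => ?_
    rw [deh_monomial]
    show hom k (monomial (ex2 (m 0) (m 1)) (coeff m H)) = _
    rw [hom_monomial, ex2_zero, ex2_one]
    have h2 := sum_of_homog hH (mem_support_iff.mp hm)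
    have h3 : k - m 0 - m 1 = m 2 := by omega
    rw [h3, ex3_eq]
  rw [support_sum_monomial_coeff] at h1
  exact h1

theorem fn_add_left (k : ℕ) (μ μ' : MvPolynomial (Fin 3) R) (F : MvPolynomial (Fin 2) R) :
    fn k (μ + μ') F = fn k μ F + fn k μ' F :=
  apo_add_right _ _ _

theorem fn_smul_left (k : ℕ) (a : R) (μ : MvPolynomial (Fin 3) R) (F : MvPolynomial (Fin 2) R) :
    fn k (a • μ) F = a * fn k μ F :=
  apo_smul_right _ _ _

theorem fn_add_right (k : ℕ) (μ : MvPolynomial (Fin 3) R) (F F' : MvPolynomial (Fin 2) R) :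
    fn k μ (F + F') = fn k μ F + fn k μ F' := by
  unfold fn
  rw [hom_add, apo_add_left]

theorem fn_smul_right (k : ℕ) (a : R) (μ : MvPolynomial (Fin 3) R) (F : MvPolynomial (Fin 2) R) :
    fn k μ (a • F) = a * fn k μ F := by
  unfold fn
  rw [hom_smul, apo_smul_left]

private noncomputable def fnL (k : ℕ) (μ : MvPolynomial (Fin 3) R) :
    MvPolynomial (Fin 2) R →ₗ[R] R where
  toFun F := fn k μ F
  map_add' F F' := fn_add_right k μ F F'
  map_smul' a F := fn_smul_right k a μ F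

private theorem fn_monomial (k : ℕ) (μ : MvPolynomial (Fin 3) R) (m : Fin 2 →₀ ℕ) (a : R) :
    fn k μ (monomial m a) = a * (((m 0).factorial : R) * ((m 1).factorial : R) *
      ((k - m 0 - m 1).factorial : R) * coeff (ex3 (m 0) (m 1) (k - m 0 - m 1)) μ) := by
  unfold fn
  rw [hom_monomial, apo_monomial]
  congr 2
  simp [Fin.prod_univ_three, ex3]

/-- `ex3` is injective -/
private theorem ex3_inj {i j l i' j' l' : ℕ} (h : ex3 i j l = ex3 i' j' l') :
    i = i' ∧ j = j' ∧ l = l' := by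
  have h0 := DFunLike.congr_fun h 0
  have h1 := DFunLike.congr_fun h 1
  have h2 := DFunLike.congr_fun h 2
  simp [ex3] at h0 h1 h2
  exact ⟨h0, h1, h2⟩

private theorem le_of_totalDegree {k : ℕ} {F : MvPolynomial (Fin 2) R} (hF : F.totalDegree ≤ k)
    {m : Fin 2 →₀ ℕ} (hm : m ∈ F.support) : m 0 + m 1 ≤ k := by
  have h := le_totalDegree hm
  rw [Finsupp.sum_fintype _ _ (fun i => rfl), Fin.sum_univ_two] at h
  omega

theorem fn_rep (k : ℕ) (φ : restrictTotalDegree (Fin 2) ℝ k →ₗ[ℝ] ℝ) :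
    ∃ μ : MvPolynomial (Fin 3) ℝ, μ.IsHomogeneous k ∧
      ∀ F : restrictTotalDegree (Fin 2) ℝ k, φ F = fn k μ F.1 := by
  classical
  obtain ⟨g, hg⟩ := LinearMap.exists_extend φ
  obtain ⟨S, hS⟩ : ∃ S : Finset (ℕ × ℕ), S =
    ((Finset.range (k + 1)) ×ˢ (Finset.range (k + 1))).filter (fun q => q.1 + q.2 ≤ k) := ⟨_, rfl⟩
  obtain ⟨μ, hμ⟩ : ∃ μ : MvPolynomial (Fin 3) ℝ, μ = ∑ q ∈ S,
    monomial (ex3 q.1 q.2 (k - q.1 - q.2)) (g (monomial (ex2 q.1 q.2) 1) /
      ((q.1.factorial : ℝ) * (q.2.factorial : ℝ) * ((k - q.1 - q.2).factorial : ℝ))) := ⟨_, rfl⟩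
  have hSle : ∀ q ∈ S, q.1 + q.2 ≤ k := by
    intro q hq
    rw [hS, Finset.mem_filter] at hq
    exact hq.2
  have hcoeff : ∀ i j, i + j ≤ k → coeff (ex3 i j (k - i - j)) μ =
      g (monomial (ex2 i j) 1) /
        ((i.factorial : ℝ) * (j.factorial : ℝ) * ((k - i - j).factorial : ℝ)) := by
    intro i j hij
    rw [hμ, coeff_sum, Finset.sum_eq_single (i, j)]
    · rw [coeff_monomial, if_pos rfl]
    · rintro ⟨i', j'⟩ _ hne
      rw [coeff_monomial, if_neg]
      intro h
      obtain ⟨h1, h2, -⟩ := ex3_inj h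
      exact hne (Prod.ext h1 h2)
    · intro h
      refine absurd ?_ h
      rw [hS, Finset.mem_filter, Finset.mem_product, Finset.mem_range, Finset.mem_range]
      exact ⟨⟨by simp only; omega, by simp only; omega⟩, hij⟩
  refine ⟨μ, ?_, fun F => ?_⟩
  · rw [hμ]
    refine IsHomogeneous.sum _ _ _ fun q hq => ?_
    refine isHomogeneous_monomial _ ?_
    rw [Finsupp.degree_eq_sum, Fin.sum_univ_three]
    have := hSle q hq
    simp [ex3]
    omega
  · have hF := (mem_restrictTotalDegree (Fin 2) k F.1).mp F.2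
    have h1 : φ F = g F.1 := by
      rw [← hg]
      rfl
    have h2 : ∀ G : MvPolynomial (Fin 2) ℝ, G.totalDegree ≤ k → g G = fnL k μ G := by
      intro G hG
      conv_lhs => rw [← support_sum_monomial_coeff G]
      conv_rhs => rw [← support_sum_monomial_coeff G]
      rw [map_sum, map_sum]
      refine Finset.sum_congr rfl fun m hm => ?_
      have hle := le_of_totalDegree hG hm
      show _ = fn k μ (monomial m (coeff m G))
      rw [fn_monomial, hcoeff _ _ hle, ex2_eq]
      have h3 : (monomial m (coeff m G) : MvPolynomial (Fin 2) ℝ) =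
          coeff m G • monomial m 1 := by
        rw [smul_monomial, smul_eq_mul, mul_one]
      rw [h3, map_smul, smul_eq_mul]
      have f1 : ((m 0).factorial : ℝ) ≠ 0 := by positivity
      have f2 : ((m 1).factorial : ℝ) ≠ 0 := by positivity
      have f3 : ((k - m 0 - m 1).factorial : ℝ) ≠ 0 := by positivity
      congr 1
      field_simp
    rw [h1, h2 _ hF]
    rfl

theorem fn_inj (k : ℕ) (μ : MvPolynomial (Fin 3) ℝ) (hμ : μ.IsHomogeneous k)
    (h : ∀ F : MvPolynomial (Fin 2) ℝ, F.totalDegree ≤ k → fn k μ F = 0) : μ = 0 := by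
  ext m
  rw [coeff_zero]
  by_contra hne
  have h1 := sum_of_homog hμ hne
  have h2 := h (monomial (ex2 (m 0) (m 1)) 1) (by
    refine (totalDegree_monomial_le _ _).trans ?_
    rw [Finsupp.sum_fintype _ _ (fun i => rfl), Fin.sum_univ_two, ex2_zero, ex2_one]
    show m 0 + m 1 ≤ k
    omega)
  rw [fn_monomial, ex2_zero, ex2_one, one_mul] at h2
  have h3 : k - m 0 - m 1 = m 2 := by omega
  rw [h3, ex3_eq] at h2
  have f1 : ((m 0).factorial : ℝ) ≠ 0 := by positivity
  have f2 : ((m 1).factorial : ℝ) ≠ 0 := by positivity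
  have f3 : ((m 2).factorial : ℝ) ≠ 0 := by positivity
  exact mul_ne_zero (mul_ne_zero (mul_ne_zero f1 f2) f3) hne h2

/-! ## The adapted forms -/

private noncomputable def fa (p : V × Fin 2 → ℝ) (v : V) : MvPolynomial (Fin 2) ℝ :=
  X 1 - C (p (v, 1))
private noncomputable def fb (p : V × Fin 2 → ℝ) (u : V) : MvPolynomial (Fin 2) ℝ :=
  -X 1 + C (p (u, 1))

private theorem fn_prod (p : V × Fin 2 → ℝ) (u v : V) (k i j l : ℕ) (hk : i + j + l = k)
    (μ : MvPolynomial (Fin 3) ℝ) :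
    fn k μ (fa p v ^ i * fb p u ^ j * Spl1.lin p u v ^ l) =
      ((i.factorial : ℝ) * (j.factorial : ℝ) * (l.factorial : ℝ)) *
      coeff (ex3 i j l) (adp p u v μ) := by
  rw [← apo_factor]
  unfold fn
  congr 1
  have hX : ∀ s : Fin 3, (X s : MvPolynomial (Fin 3) ℝ).IsHomogeneous 1 := fun s =>
    isHomogeneous_X ℝ s
  have hCX : ∀ (c : ℝ) (s : Fin 3), (C c * X s : MvPolynomial (Fin 3) ℝ).IsHomogeneous 1 := by
    intro c s
    have := (isHomogeneous_C (Fin 3) c).mul (hX s)
    rwa [zero_add] at this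
  have hh : ((X 1 - C (p (v, 1)) * X 2) ^ i * (-X 1 + C (p (u, 1)) * X 2) ^ j *
      (C (p (u, 1) - p (v, 1)) * X 0 - C (p (u, 0) - p (v, 0)) * X 1 +
        C (p (u, 0) * p (v, 1) - p (v, 0) * p (u, 1)) * X 2) ^ l :
      MvPolynomial (Fin 3) ℝ).IsHomogeneous k := by
    have h1 := ((hX 1).sub (hCX (p (v, 1)) 2)).pow i
    have h2 := ((hX 1).neg.add (hCX (p (u, 1)) 2)).pow j
    have h3 := (((hCX (p (u, 1) - p (v, 1)) 0).sub (hCX (p (u, 0) - p (v, 0)) 1)).add
      (hCX (p (u, 0) * p (v, 1) - p (v, 0) * p (u, 1)) 2)).pow l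
    have h4 := (h1.mul h2).mul h3
    have h5 : 1 * i + 1 * j + 1 * l = k := by omega
    rw [h5] at h4
    exact h4
  rw [← hom_deh k _ hh]
  congr 1
  rw [map_mul, map_mul, map_pow, map_pow, map_pow]
  unfold deh
  simp only [map_add, map_sub, map_neg, map_mul, aeval_X, algHom_C, algebraMap_eq,
    Matrix.cons_val_zero, Matrix.cons_val_one, Matrix.cons_val, mul_one]
  unfold fa fb Spl1.lin
  congr 2
  simp only [map_sub, map_mul]
  ring

private noncomputable def NN (p : V × Fin 2 → ℝ) (u v : V) (e : ℕ) :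
    Submodule ℝ (MvPolynomial (Fin 2) ℝ) :=
  Submodule.span ℝ {P | ∃ i j l, i + j + l = e ∧ P = fa p v ^ i * fb p u ^ j * Spl1.lin p u v ^ l}

private theorem NN_mul {p : V × Fin 2 → ℝ} {u v : V} {e : ℕ} {c : MvPolynomial (Fin 2) ℝ}
    (hc : c = fa p v ∨ c = fb p u ∨ c = Spl1.lin p u v) {F : MvPolynomial (Fin 2) ℝ}
    (hF : F ∈ NN p u v e) : c * F ∈ NN p u v (e + 1) := by
  have h : NN p u v e ≤ (NN p u v (e + 1)).comap (LinearMap.mulLeft ℝ c) := by
    refine Submodule.span_le.mpr ?_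
    rintro P ⟨i, j, l, hij, rfl⟩
    rw [SetLike.mem_coe, Submodule.mem_comap, LinearMap.mulLeft_apply]
    refine Submodule.subset_span ?_
    rcases hc with rfl | rfl | rfl
    · exact ⟨i + 1, j, l, by omega, by ring⟩
    · exact ⟨i, j + 1, l, by omega, by ring⟩
    · exact ⟨i, j, l + 1, by omega, by ring⟩
  exact h hF

private theorem NN_one {p : V × Fin 2 → ℝ} {u v : V} (hΔ : p (u, 1) ≠ p (v, 1)) {e : ℕ}
    {F : MvPolynomial (Fin 2) ℝ} (hF : F ∈ NN p u v e) : F ∈ NN p u v (e + 1) := by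
  have hne : p (u, 1) - p (v, 1) ≠ 0 := sub_ne_zero.mpr hΔ
  have h1 := (NN p u v (e + 1)).smul_mem (p (u, 1) - p (v, 1))⁻¹
    ((NN p u v (e + 1)).add_mem (NN_mul (Or.inl rfl) hF) (NN_mul (Or.inr (Or.inl rfl)) hF))
  have h2 : (p (u, 1) - p (v, 1))⁻¹ • (fa p v * F + fb p u * F) = F := by
    have h3 : fa p v * F + fb p u * F = (p (u, 1) - p (v, 1)) • F := by
      rw [smul_eq_C_mul]
      unfold fa fb
      rw [map_sub]
      ring
    rw [h3, smul_smul, inv_mul_cancel₀ hne, one_smul]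
  rw [h2] at h1
  exact h1

private theorem NN_C {p : V × Fin 2 → ℝ} {u v : V} {e : ℕ} (c : ℝ)
    {F : MvPolynomial (Fin 2) ℝ} (hF : F ∈ NN p u v e) : C c * F ∈ NN p u v e := by
  rw [← smul_eq_C_mul]
  exact (NN p u v e).smul_mem c hF

private theorem NN_X1 {p : V × Fin 2 → ℝ} {u v : V} (hΔ : p (u, 1) ≠ p (v, 1)) {e : ℕ}
    {F : MvPolynomial (Fin 2) ℝ} (hF : F ∈ NN p u v e) : X 1 * F ∈ NN p u v (e + 1) := by
  have h1 := (NN p u v (e + 1)).add_mem (NN_mul (Or.inl rfl) hF) (NN_C (p (v, 1)) (NN_one hΔ hF))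
  have h2 : fa p v * F + C (p (v, 1)) * F = X 1 * F := by
    unfold fa
    ring
  rw [h2] at h1
  exact h1

private theorem NN_X0 {p : V × Fin 2 → ℝ} {u v : V} (hΔ : p (u, 1) ≠ p (v, 1)) {e : ℕ}
    {F : MvPolynomial (Fin 2) ℝ} (hF : F ∈ NN p u v e) : X 0 * F ∈ NN p u v (e + 1) := by
  have hne : p (u, 1) - p (v, 1) ≠ 0 := sub_ne_zero.mpr hΔ
  have h1 := (NN p u v (e + 1)).smul_mem (p (u, 1) - p (v, 1))⁻¹
    ((NN p u v (e + 1)).add_mem ((NN p u v (e + 1)).add_mem (NN_mul (Or.inr (Or.inr rfl)) hF)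
      (NN_C (p (u, 0) - p (v, 0)) (NN_X1 hΔ hF)))
      (NN_C (-(p (u, 0) * p (v, 1) - p (v, 0) * p (u, 1))) (NN_one hΔ hF)))
  have h2 : (p (u, 1) - p (v, 1))⁻¹ • (Spl1.lin p u v * F + C (p (u, 0) - p (v, 0)) * (X 1 * F) +
      C (-(p (u, 0) * p (v, 1) - p (v, 0) * p (u, 1))) * F) = X 0 * F := by
    have h3 : Spl1.lin p u v * F + C (p (u, 0) - p (v, 0)) * (X 1 * F) +
      C (-(p (u, 0) * p (v, 1) - p (v, 0) * p (u, 1))) * F =
        (p (u, 1) - p (v, 1)) • (X 0 * F) := by
      rw [smul_eq_C_mul]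
      unfold Spl1.lin
      simp only [map_sub, map_mul, map_neg]
      ring
    rw [h3, smul_smul, inv_mul_cancel₀ hne, one_smul]
  rw [h2] at h1
  exact h1

private theorem NN_pow {p : V × Fin 2 → ℝ} {u v : V} (hΔ : p (u, 1) ≠ p (v, 1)) (i j e : ℕ) :
    X 0 ^ i * X 1 ^ j * 1 ∈ NN p u v (i + j + e) := by
  have h0 : ∀ e, (1 : MvPolynomial (Fin 2) ℝ) ∈ NN p u v e := by
    intro e
    induction e with
    | zero => exact Submodule.subset_span ⟨0, 0, 0, rfl, by simp⟩
    | succ e ih => exact NN_one hΔ ih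
  have h1 : ∀ j, X 1 ^ j * 1 ∈ NN p u v (j + e) := by
    intro j
    induction j with
    | zero =>
      rw [pow_zero, one_mul, zero_add]
      exact h0 e
    | succ j ih =>
      have h2 := NN_X1 hΔ ih
      have h3 : X 1 * (X 1 ^ j * 1) = (X 1 ^ (j + 1) * 1 : MvPolynomial (Fin 2) ℝ) := by ring
      rw [h3] at h2
      have h4 : j + e + 1 = j + 1 + e := by omega
      rw [h4] at h2
      exact h2
  induction i with
  | zero =>
    rw [pow_zero, one_mul, zero_add]
    exact h1 j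
  | succ i ih =>
    have h2 := NN_X0 hΔ ih
    have h3 : X 0 * (X 0 ^ i * X 1 ^ j * 1) =
      (X 0 ^ (i + 1) * X 1 ^ j * 1 : MvPolynomial (Fin 2) ℝ) := by ring
    rw [h3] at h2
    have h4 : i + j + e + 1 = i + 1 + j + e := by omega
    rw [h4] at h2
    exact h2

private theorem NN_of_degree {p : V × Fin 2 → ℝ} {u v : V} (hΔ : p (u, 1) ≠ p (v, 1)) {d : ℕ}
    {g : MvPolynomial (Fin 2) ℝ} (hg : g.totalDegree ≤ d) : g ∈ NN p u v d := by
  rw [← support_sum_monomial_coeff g]
  refine Submodule.sum_mem _ fun m hm => ?_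
  have hle := le_of_totalDegree hg hm
  have h1 := NN_C (coeff m g) (NN_pow hΔ (m 0) (m 1) (d - (m 0 + m 1)) (p := p) (u := u) (v := v))
  have h2 : m 0 + m 1 + (d - (m 0 + m 1)) = d := by omega
  rw [h2] at h1
  have h3 : C (coeff m g) * (X 0 ^ m 0 * X 1 ^ m 1 * 1) = monomial m (coeff m g) := by
    have h4 : (Finsupp.single 0 (m 0) + Finsupp.single 1 (m 1) : Fin 2 →₀ ℕ) = m := ex2_eq m
    rw [X_pow_eq_monomial, X_pow_eq_monomial, monomial_mul, mul_one, C_mul_monomial, one_mul,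
      mul_one, h4]
  rw [h3] at h1
  exact h1

private theorem td_fa (p : V × Fin 2 → ℝ) (v : V) : (fa p v).totalDegree ≤ 1 := by
  unfold fa
  refine (totalDegree_sub _ _).trans ?_
  rw [totalDegree_C, totalDegree_X]
  exact le_refl _

private theorem td_fb (p : V × Fin 2 → ℝ) (u : V) : (fb p u).totalDegree ≤ 1 := by
  unfold fb
  refine (totalDegree_add _ _).trans ?_
  rw [totalDegree_neg, totalDegree_C, totalDegree_X]
  exact le_refl _

private theorem td_lin (p : V × Fin 2 → ℝ) (u v : V) : (Spl1.lin p u v).totalDegree ≤ 1 := by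
  unfold Spl1.lin
  have h : ∀ (s : Fin 2) (c c' : ℝ), (C c * (X s - C c') :
      MvPolynomial (Fin 2) ℝ).totalDegree ≤ 1 := by
    intro s c c'
    refine (totalDegree_mul _ _).trans ?_
    have := totalDegree_sub (X s : MvPolynomial (Fin 2) ℝ) (C c')
    rw [totalDegree_C, totalDegree_X] at this
    rw [totalDegree_C]
    simpa using this
  refine (totalDegree_sub _ _).trans ?_
  exact max_le (h _ _ _) (h _ _ _)

private theorem td_pow {F : MvPolynomial (Fin 2) ℝ} (h : F.totalDegree ≤ 1) (i : ℕ) :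
    (F ^ i).totalDegree ≤ i := by
  refine (totalDegree_pow _ _).trans ?_
  calc i * F.totalDegree ≤ i * 1 := Nat.mul_le_mul_left _ h
    _ = i := mul_one i

theorem edge_iff (r d : ℕ) (p : V × Fin 2 → ℝ) (u v : V) (hΔ : p (u, 1) ≠ p (v, 1))
    (μ : MvPolynomial (Fin 3) ℝ) :
    (∀ g : MvPolynomial (Fin 2) ℝ, g.totalDegree ≤ d →
      fn (r + 1 + d) μ (g * Spl1.lin p u v ^ (r + 1)) = 0) ↔
    ∀ i j, i + j < d + 1 → coeff (ex3 i j (r + 1 + d - i - j)) (adp p u v μ) = 0 := by
  have key : ∀ i j l : ℕ, i + j + l = d →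
      fn (r + 1 + d) μ ((fa p v ^ i * fb p u ^ j * Spl1.lin p u v ^ l) *
        Spl1.lin p u v ^ (r + 1)) = ((i.factorial : ℝ) * (j.factorial : ℝ) *
          ((r + 1 + d - i - j).factorial : ℝ)) *
          coeff (ex3 i j (r + 1 + d - i - j)) (adp p u v μ) := by
    intro i j l hl
    rw [← fn_prod p u v (r + 1 + d) i j (r + 1 + d - i - j) (by omega)]
    congr 1
    have h1 : r + 1 + d - i - j = l + (r + 1) := by omega
    rw [h1, pow_add]
    ring
  constructor
  · intro h i j hij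
    have h1 := h (fa p v ^ i * fb p u ^ j * Spl1.lin p u v ^ (d - i - j)) (by
      refine (totalDegree_mul _ _).trans ?_
      have h2 := totalDegree_mul (fa p v ^ i) (fb p u ^ j)
      have h3 := td_pow (td_fa p v) i
      have h4 := td_pow (td_fb p u) j
      have h5 := td_pow (td_lin p u v) (d - i - j)
      omega)
    rw [key i j (d - i - j) (by omega)] at h1
    have f1 : (i.factorial : ℝ) ≠ 0 := by positivity
    have f2 : (j.factorial : ℝ) ≠ 0 := by positivity
    have f3 : ((r + 1 + d - i - j).factorial : ℝ) ≠ 0 := by positivity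
    rcases mul_eq_zero.mp h1 with h2 | h2
    · exact absurd h2 (mul_ne_zero (mul_ne_zero f1 f2) f3)
    · exact h2
  · intro h g hg
    have h1 : NN p u v d ≤ LinearMap.ker ((fnL (r + 1 + d) μ).comp
        (LinearMap.mulRight ℝ (Spl1.lin p u v ^ (r + 1)))) := by
      refine Submodule.span_le.mpr ?_
      rintro P ⟨i, j, l, hij, rfl⟩
      rw [SetLike.mem_coe, LinearMap.mem_ker]
      show fn (r + 1 + d) μ ((fa p v ^ i * fb p u ^ j * Spl1.lin p u v ^ l) *
        Spl1.lin p u v ^ (r + 1)) = 0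
      rw [key i j l hij, h i j (by omega), mul_zero]
    have h2 := h1 (NN_of_degree hΔ hg)
    rw [LinearMap.mem_ker] at h2
    exact h2

end Pool.Agent.Spl2
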