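import Pool.Agent.Spl2.BrMain

/-!
# Bridge, module BrLe: the quantitative version (discs with separating triangles)

`NSol p E I`: the space of solutions of the characteristic 2 system.
`char2_le`: `dim Sol 4 2 2 ≤ 6 |I| + dim NSol`.
`bridge_le`: for a position `p₀` over a field of characteristic 2 with different second coordinates on the edges and
Gluck's theorem at the squares: for generic real `p`, `dim CofSys 2 1 p T + 9 |I| ≤ 3 |E| + dim NSol p₀`.
-/

set_option autoImplicit false

namespace Pool.Agent.Spl2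

open MvPolynomial

variable {V : Type*} [Fintype V] [DecidableEq V]

section
variable {K : Type*} [Field K]

/-- the solutions of the characteristic 2 system -/
def NSol (p : V × Fin 2 → K) (E : Finset (Finset V)) (I : Finset V) :
    Submodule K ((V → Fin 4 → K) × (V → Fin 2 → K)) where
  carrier := {x | (∀ v, v ∉ I → x.1 v = 0 ∧ x.2 v = 0) ∧
    ∀ u v, u ≠ v → ({u, v} : Finset V) ∈ E →
      bev 3 (x.1 u) (p (v, 0) - p (u, 0)) (p (v, 1) - p (u, 1)) =
        (x.2 u 0 + x.2 v 0) * (p (v, 0) - p (u, 0)) ^ 2 +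
          (x.2 u 1 + x.2 v 1) * (p (v, 1) - p (u, 1)) ^ 2}
  add_mem' := by
    rintro a b ⟨ha1, ha2⟩ ⟨hb1, hb2⟩
    refine ⟨fun v hv => ?_, fun u v huv he => ?_⟩
    · simp [ha1 v hv, hb1 v hv]
    · have h1 := ha2 u v huv he
      have h2 := hb2 u v huv he
      simp only [bev, Fin.sum_univ_succ, Fin.sum_univ_zero] at h1 h2 ⊢
      simp only [Prod.fst_add, Prod.snd_add, Pi.add_apply]
      linear_combination h1 + h2
  zero_mem' := by
    refine ⟨fun v _ => ⟨rfl, rfl⟩, fun u v _ _ => ?_⟩
    simp [bev]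
  smul_mem' := by
    rintro c a ⟨ha1, ha2⟩
    refine ⟨fun v hv => ?_, fun u v huv he => ?_⟩
    · simp [ha1 v hv]
    · have h1 := ha2 u v huv he
      simp only [bev, Fin.sum_univ_succ, Fin.sum_univ_zero] at h1 ⊢
      simp only [Prod.smul_fst, Prod.smul_snd, Pi.smul_apply, smul_eq_mul]
      linear_combination c * h1

omit [Fintype V] in
theorem nz_iff_nsol (p : V × Fin 2 → K) (E : Finset (Finset V)) (I : Finset V) :
    NZ p E I ↔ NSol p E I = ⊥ := by
  constructor
  · intro h
    rw [Submodule.eq_bot_iff]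
    rintro ⟨c, x⟩ ⟨h1, h2⟩
    have := h c x h1 h2
    exact Prod.ext (funext fun v => (this v).1) (funext fun v => (this v).2)
  · intro h c x h1 h2
    have : (c, x) ∈ NSol p E I := ⟨h1, h2⟩
    rw [h, Submodule.mem_bot] at this
    intro v
    exact ⟨congrFun (congrArg Prod.fst this) v, congrFun (congrArg Prod.snd this) v⟩

/-- the coordinates adapted to the dual line of `v` -/
noncomputable def sh (p : V × Fin 2 → K) (v : V) :
    MvPolynomial (Fin 3) K →ₐ[K] MvPolynomial (Fin 3) K :=
  aeval ![X 0, X 1, X 2 - C (p (v, 0)) * X 0 - C (p (v, 1)) * X 1]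

omit [Fintype V] [DecidableEq V] in
theorem sh_dl (p : V × Fin 2 → K) (v : V) : sh p v (dl p v) = X 2 := by
  unfold sh dl
  simp only [map_add, map_mul, aeval_X, algHom_C, algebraMap_eq, Matrix.cons_val_zero,
    Matrix.cons_val_one, Matrix.cons_val]
  ring

omit [Fintype V] [DecidableEq V] in
theorem sh_bin (p : V × Fin 2 → K) (v : V) (m : ℕ) (q : Fin (m + 1) → K) :
    sh p v (bin m q) = bin m q := by
  unfold bin
  rw [map_sum]
  refine Finset.sum_congr rfl fun j _ => ?_
  rw [map_mul, map_mul, map_pow, map_pow, algHom_C, algebraMap_eq]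
  have h0 : sh p v (X 0) = X 0 := by unfold sh; simp
  have h1 : sh p v (X 1) = X 1 := by unfold sh; simp
  rw [h0, h1]

theorem coeff_bin (m : ℕ) (q : Fin (m + 1) → K) (j : Fin (m + 1)) :
    coeff (ex3 j (m - j) 0) (bin m q) = q j := by
  unfold bin
  rw [coeff_sum]
  have h1 : ∀ i : Fin (m + 1), C (q i) * ((X 0 : MvPolynomial (Fin 3) K) ^ (i : ℕ) *
      X 1 ^ (m - (i : ℕ))) = monomial (ex3 i (m - i) 0) (q i) := by
    intro i
    rw [monomial_eq, Finsupp.prod_fintype _ _ (by simp), Fin.prod_univ_three]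
    simp [ex3]
  simp only [h1, coeff_monomial]
  rw [Finset.sum_eq_single j]
  · simp
  · intro i _ hij
    rw [if_neg]
    intro h
    apply hij
    have := DFunLike.congr_fun h 0
    exact Fin.ext (by simpa [ex3] using this)
  · intro h
    exact absurd (Finset.mem_univ _) h

theorem coeff_X2_mul (i j l : ℕ) (f : MvPolynomial (Fin 3) K) :
    coeff (ex3 i j l) (X 2 * f) = if l = 0 then 0 else coeff (ex3 i j (l - 1)) f := by
  rw [coeff_X_mul']
  have h1 : ((2 : Fin 3) ∈ (ex3 i j l).support) ↔ l ≠ 0 := by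
    rw [Finsupp.mem_support_iff]
    simp [ex3]
  by_cases hl : l = 0
  · rw [if_neg (by rw [h1]; simp [hl]), if_pos hl]
  · rw [if_pos (h1.2 hl), if_neg hl]
    congr 1
    ext s
    fin_cases s
    · simp [ex3]
    · simp [ex3]
    · simp [ex3]

/-- the characteristic 2 data of a family of forms -/
noncomputable def Psi (p : V × Fin 2 → K) :
    (V → MvPolynomial (Fin 3) K) →ₗ[K] ((V → Fin 4 → K) × (V → Fin 2 → K)) where
  toFun μ := (fun v j => coeff (ex3 (Fin.rev j : Fin 4) (3 - (Fin.rev j : Fin 4)) 1) (sh p v (μ v)),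
    fun v => ![coeff (ex3 1 3 0) (sh p v (μ v)), coeff (ex3 3 1 0) (sh p v (μ v))])
  map_add' μ ν := by
    refine Prod.ext ?_ ?_
    · funext v j
      simp
    · funext v j
      fin_cases j <;> simp
  map_smul' a μ := by
    refine Prod.ext ?_ ?_
    · funext v j
      simp
    · funext v j
      fin_cases j <;> simp

theorem Psi_nf (p : V × Fin 2 → K) (μ : V → MvPolynomial (Fin 3) K)
    (b : V → Fin 5 → K) (c : V → Fin 4 → K) (e : V → MvPolynomial (Fin 3) K)
    (h : ∀ v, μ v = bin 4 (b v) + dl p v * bin 3 (c v) + dl p v ^ 2 * e v) :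
    Psi p μ = (fun v j => c v (Fin.rev j), fun v => ![b v 1, b v 3]) := by
  have h1 : ∀ v, sh p v (μ v) = bin 4 (b v) + X 2 * (bin 3 (c v) + X 2 * sh p v (e v)) := by
    intro v
    rw [h v, map_add, map_add, map_mul, map_mul, map_pow, sh_dl, sh_bin, sh_bin]
    ring
  have h2 : ∀ v (j : Fin 5), coeff (ex3 j (4 - j) 0) (sh p v (μ v)) = b v j := by
    intro v j
    rw [h1, coeff_add, coeff_bin, coeff_X2_mul, if_pos rfl, add_zero]
  have h3 : ∀ v (j : Fin 4), coeff (ex3 j (3 - j) 1) (sh p v (μ v)) = c v j := by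
    intro v j
    rw [h1, coeff_add, coeff_X2_mul, if_neg one_ne_zero, coeff_add, coeff_X2_mul]
    have h4 : coeff (ex3 j (3 - j) 1) (bin 4 (b v)) = 0 := by
      unfold bin
      rw [coeff_sum]
      refine Finset.sum_eq_zero fun i _ => ?_
      have h5 : C (b v i) * ((X 0 : MvPolynomial (Fin 3) K) ^ (i : ℕ) *
          X 1 ^ (4 - (i : ℕ))) = monomial (ex3 i (4 - i) 0) (b v i) := by
        rw [monomial_eq, Finsupp.prod_fintype _ _ (by simp), Fin.prod_univ_three]
        simp [ex3]
      rw [h5, coeff_monomial, if_neg]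
      intro h6
      have := DFunLike.congr_fun h6 2
      simp [ex3] at this
    rw [h4, zero_add, if_pos (by rfl), add_zero]
    exact coeff_bin 3 (c v) j
  refine Prod.ext ?_ ?_
  · funext v j
    exact h3 v (Fin.rev j)
  · funext v j
    fin_cases j
    · exact h2 v 1
    · exact h2 v 3

theorem char2_le [CharP K 2] (p : V × Fin 2 → K) (E : Finset (Finset V)) (I : Finset V)
    (hp : ∀ u v, u ≠ v → ({u, v} : Finset V) ∈ E → p (u, 1) ≠ p (v, 1))
    (hG : BZ 2 (fun x => p x ^ 2) E I) :
    Module.finrank K (Sol 4 2 (fun _ => 2) p E I) ≤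
      6 * I.card + Module.finrank K (NSol p E I) := by
  have hfd := brt_fd 4 2 (fun _ => 2) p E I
  have hmem : ∀ μ : Sol 4 2 (fun _ => 2) p E I, Psi p μ.1 ∈ NSol p E I := by
    rintro ⟨μ, hμ⟩
    obtain ⟨b, c, e, hbce, hzero, key1, key2⟩ := char2_key p E I hp μ hμ
    rw [Psi_nf p μ b c e hbce]
    refine ⟨fun v hv => ?_, fun u v huv he => ?_⟩
    · obtain ⟨h1, h2, -⟩ := hzero v hv
      constructor
      · funext j
        simp [h2]
      · funext j
        fin_cases j <;> simp [h1]
    · have := key2 u v huv he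
      simpa using this
  let Φ : Sol 4 2 (fun _ => 2) p E I →ₗ[K] NSol p E I :=
    LinearMap.codRestrict _ ((Psi p).comp (Submodule.subtype _)) hmem
  have h1 := LinearMap.finrank_range_add_finrank_ker Φ
  have h2 : Module.finrank K (LinearMap.range Φ) ≤ Module.finrank K (NSol p E I) :=
    Submodule.finrank_le _
  have h3 : Module.finrank K (LinearMap.ker Φ) ≤ 6 * I.card := by
    have hfin : ∀ m : ℕ, Module.Finite K (homogeneousSubmodule (Fin 3) K m) := fun m => brt_fin m
    have h4 : (LinearMap.ker Φ).map (Submodule.subtype _) ≤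
        LinearMap.range (brT 4 (fun _ => 2) p I) := by
      rintro _ ⟨⟨μ, hμ⟩, hk, rfl⟩
      obtain ⟨b, c, e, hbce, hzero, key1, key2⟩ := char2_key p E I hp μ hμ
      have h5 : Psi p μ = 0 := by
        have := congrArg Subtype.val (LinearMap.mem_ker.1 hk)
        exact this
      rw [Psi_nf p μ b c e hbce] at h5
      have h6 := char2_triv p E I hG μ b c e hbce hzero key1
        (fun v => by
          funext j
          have := congrFun (congrFun (congrArg Prod.fst h5) v) (Fin.rev j)
          simpa using this)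
        (fun v => by
          have := congrFun (congrArg Prod.snd h5) v
          exact ⟨by simpa using congrFun this 0, by simpa using congrFun this 1⟩)
      have h1 : ∀ v : I, ∃ q : MvPolynomial (Fin 3) K, q.IsHomogeneous (4 - 2) ∧
          μ v = dl p v ^ 2 * q := by
        intro v
        have h2 : (dl p v.1 ^ 2).IsHomogeneous 2 := by
          have h3 := (brt_dl_hom p v.1).pow 2
          rwa [one_mul] at h3
        exact brt_dvd h2 (hμ.1 v.1) (by norm_num) (h6 v)
      choose q hq1 hq2 using h1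
      refine ⟨fun v => ⟨q v, (mem_homogeneousSubmodule _ _).2 (hq1 v)⟩, ?_⟩
      funext v
      by_cases hv : v ∈ I
      · have h4 : brT 4 (fun _ => 2) p I (fun v => ⟨q v, (mem_homogeneousSubmodule _ _).2 (hq1 v)⟩) v =
            dl p v ^ 2 * q ⟨v, hv⟩ := dif_pos hv
        exact h4.trans (hq2 ⟨v, hv⟩).symm
      · have h4 : brT 4 (fun _ => 2) p I (fun v => ⟨q v, (mem_homogeneousSubmodule _ _).2 (hq1 v)⟩) v = 0 :=
          dif_neg hv
        exact h4.trans (hμ.2.1 v hv).symm
    have h7 : Module.finrank K (LinearMap.ker Φ) =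
        Module.finrank K ((LinearMap.ker Φ).map (Submodule.subtype _)) :=
      (LinearEquiv.finrank_eq (Submodule.equivMapOfInjective _
        (Submodule.subtype_injective _) _))
    have h8 := Submodule.finrank_mono h4
    have h9 := LinearMap.finrank_range_le (brT (K := K) 4 (fun _ => 2) p I)
    have h10 := brt_rank (K := K) 4 (fun _ => 2) I
    have e1 : (4 - 2 + 2).choose 2 = 6 := by decide
    rw [Finset.sum_const, e1, smul_eq_mul] at h10
    omega
  omega

end

theorem bridge_le (K : Type*) [Field K] [CharP K 2] (T : Finset (Finset V)) (p₀ : V × Fin 2 → K)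
    (hp : ∀ u v, u ≠ v → ({u, v} : Finset V) ∈ Spl1.intE T → p₀ (u, 1) ≠ p₀ (v, 1))
    (hG : BZ 2 (fun x => p₀ x ^ 2) (Spl1.intE T) (Spl1.intV T)) :
    ∃ Q : MvPolynomial (V × Fin 2) ℝ, Q ≠ 0 ∧ ∀ p : V × Fin 2 → ℝ, eval p Q ≠ 0 →
      Module.finrank ℝ (Spl1.CofSys 2 1 p T) + 9 * (Spl1.intV T).card ≤
        3 * (Spl1.intE T).card +
          Module.finrank K (NSol p₀ (Spl1.intE T) (Spl1.intV T)) := by
  classical
  have h5 := char2_le p₀ (Spl1.intE T) (Spl1.intV T) hp hG
  obtain ⟨Q, hQ, hQ'⟩ := sol_semicont 4 2 (fun _ => 2) p₀ (Spl1.intE T) (Spl1.intV T)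
  let D : MvPolynomial (V × Fin 2) ℝ :=
    ∏ e ∈ (Finset.univ : Finset (V × V)).filter (fun e => e.1 ≠ e.2), (X (e.1, 1) - X (e.2, 1))
  have hD : D ≠ 0 := by
    refine Finset.prod_ne_zero_iff.2 fun e he => ?_
    rw [Finset.mem_filter] at he
    rw [sub_ne_zero]
    intro h
    have := X_injective (R := ℝ) h
    exact he.2 (congrArg Prod.fst this)
  refine ⟨Q * D, mul_ne_zero hQ hD, fun p hp => ?_⟩
  rw [map_mul] at hp
  have hp1 := left_ne_zero_of_mul hp
  have hp2 := right_ne_zero_of_mul hp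
  have hp3 : ∀ u v, u ≠ v → p (u, 1) ≠ p (v, 1) := by
    intro u v huv he
    apply hp2
    rw [map_prod]
    refine Finset.prod_eq_zero (i := (u, v)) (by simp [huv]) ?_
    simp [he]
  have h6 := hQ' p hp1
  have h8 : Module.finrank ℝ (Spl1.CofSys 2 1 p T) + (Spl1.intV T).card * 15 =
      3 * (Spl1.intE T).card +
        Module.finrank ℝ (Sol 4 2 (fun _ => 2) p (Spl1.intE T) (Spl1.intV T)) :=
    finrank_cofSys 2 1 p T (fun u v huv _ => hp3 u v huv)
  omega

end Pool.Agent.Spl2
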