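import Pool.Agent.Spl2.BrDefs
import Pool.Agent.Spl2.BrMat

/-!
# Bridge, module BrSemi: semicontinuity of the dimension of the motion spaces

PAPER PROOF.  `S = MvPolynomial (V × Fin 2) ℤ`, generic position `X : V × Fin 2 → S`.  Rows: quadruples `(u, v, i, j)`, `i, j < δ`;
columns: `(w, m)`, `w ∈ I`, `m` an exponent of degree `k` (`Finset.finsuppAntidiag univ k`, or triples).  Entry: `0` unless
`u ≠ v`, `{u, v} ∈ E`, `i + j < δ`, `i < τ u`, `j < τ v`, and then
`(if w = u then 1 else 0) - (if w = v then 1 else 0)` times `coeff (ex3 i j (k - i - j)) (adp X u v (monomial m 1))`.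
A ring homomorphism `φ : S → K` with `φ ∘ X = p` maps this entry to the same expression with `adp p u v`
(`MvPolynomial.map φ (adp X u v f) = adp p u v (map φ f)`, both sides are ring homomorphisms, check `C`, `X i`).  A family of forms
`μ w` of degree `k`, zero outside `I`, is the same as a vector of coefficients `x (w, m)`; `μ ∈ Sol k δ τ p E I` iff the matrix
kills the vector.  So `dim Sol = (number of columns) - rank`, and `rank_semi_char0` gives the result.
-/

set_option autoImplicit false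

namespace Pool.Agent.Spl2

open MvPolynomial

variable {V : Type*} [Fintype V] [DecidableEq V]

omit [Fintype V] [DecidableEq V] in
private theorem map_adp {R S : Type*} [CommRing R] [CommRing S] (φ : R →+* S)
    (p : V × Fin 2 → R) (u v : V) (f : MvPolynomial (Fin 3) R) :
    map φ (adp p u v f) = adp (fun s => φ (p s)) u v (map φ f) := by
  have h : (map φ).comp (adp p u v).toRingHom =
      ((adp (fun s => φ (p s)) u v).toRingHom).comp (map φ) := by
    apply MvPolynomial.ringHom_ext
    · intro a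
      simp [adp]
    · intro i
      fin_cases i <;> simp [adp]
  exact RingHom.congr_fun h f

private abbrev Mon (k : ℕ) : Type :=
  ↥(Finset.finsuppAntidiag (Finset.univ : Finset (Fin 3)) k)

private theorem mon_degree {k : ℕ} (m : Mon k) : (m : Fin 3 →₀ ℕ).degree = k := by
  have h := (Finset.mem_finsuppAntidiag.1 m.2).1
  rw [Finsupp.degree_eq_sum]
  exact h

private theorem mem_mon {k : ℕ} {n : Fin 3 →₀ ℕ} (h : n.degree = k) :
    n ∈ Finset.finsuppAntidiag (Finset.univ : Finset (Fin 3)) k := by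
  rw [Finset.mem_finsuppAntidiag]
  rw [Finsupp.degree_eq_sum] at h
  exact ⟨h, Finset.subset_univ _⟩

/-- The condition for a row to be active. -/
private def Act (δ : ℕ) (τ : V → ℕ) (E : Finset (Finset V)) (u v : V) (i j : ℕ) : Prop :=
  u ≠ v ∧ ({u, v} : Finset V) ∈ E ∧ i + j < δ ∧ i < τ u ∧ j < τ v

open Classical in
private noncomputable def mat (k δ : ℕ) (τ : V → ℕ) (E : Finset (Finset V)) (I : Finset V) :
    Matrix (V × V × Fin δ × Fin δ) (↥I × Mon k) (MvPolynomial (V × Fin 2) ℤ) :=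
  fun r c => if Act δ τ E r.1 r.2.1 r.2.2.1 r.2.2.2 then
    ((if (c.1 : V) = r.1 then 1 else 0) - (if (c.1 : V) = r.2.1 then 1 else 0)) *
      coeff (ex3 r.2.2.1 r.2.2.2 (k - r.2.2.1 - r.2.2.2))
        (adp (fun s => (X s : MvPolynomial (V × Fin 2) ℤ)) r.1 r.2.1
          (monomial (c.2 : Fin 3 →₀ ℕ) 1)) else 0

omit [Fintype V] in
open Classical in
private theorem spec_mat {K : Type*} [Field K] (k δ : ℕ) (τ : V → ℕ) (E : Finset (Finset V))
    (I : Finset V) (p : V × Fin 2 → K) (r : V × V × Fin δ × Fin δ) (c : ↥I × Mon k) :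
    spec (mat k δ τ E I) p r c = if Act δ τ E r.1 r.2.1 r.2.2.1 r.2.2.2 then
      ((if (c.1 : V) = r.1 then 1 else 0) - (if (c.1 : V) = r.2.1 then 1 else 0)) *
      coeff (ex3 r.2.2.1 r.2.2.2 (k - r.2.2.1 - r.2.2.2))
        (adp p r.1 r.2.1 (monomial (c.2 : Fin 3 →₀ ℕ) 1)) else 0 := by
  show eval₂Hom (Int.castRingHom K) p (mat k δ τ E I r c) = _
  unfold mat
  by_cases hA : Act δ τ E r.1 r.2.1 r.2.2.1 r.2.2.2
  · rw [if_pos hA, if_pos hA, map_mul, map_sub]
    have h4 : ∀ (e : Fin 3 →₀ ℕ) (f : MvPolynomial (Fin 3) (MvPolynomial (V × Fin 2) ℤ)),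
        eval₂Hom (Int.castRingHom K) p (coeff e f) =
          coeff e (map (eval₂Hom (Int.castRingHom K) p) f) := fun e f => by rw [coeff_map]
    have h5 : (fun s => (eval₂Hom (Int.castRingHom K) p) (X s : MvPolynomial (V × Fin 2) ℤ)) =
        p := funext fun s => by simp
    rw [h4, map_adp, h5, map_monomial, map_one]
    congr 2
    · split_ifs <;> simp
    · split_ifs <;> simp
  · rw [if_neg hA, if_neg hA, map_zero]

/-- The family of forms with given coefficients. -/
private noncomputable def Phi (K : Type*) [Field K] (k : ℕ) (I : Finset V) :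
    (↥I × Mon k → K) →ₗ[K] (V → MvPolynomial (Fin 3) K) where
  toFun x v := ∑ c : ↥I × Mon k, if (c.1 : V) = v then monomial (c.2 : Fin 3 →₀ ℕ) (x c) else 0
  map_add' x y := by
    funext v
    rw [Pi.add_apply, ← Finset.sum_add_distrib]
    refine Finset.sum_congr rfl fun c _ => ?_
    split_ifs
    · rw [Pi.add_apply, map_add]
    · rw [add_zero]
  map_smul' a x := by
    funext v
    rw [RingHom.id_apply, Pi.smul_apply, Finset.smul_sum]
    refine Finset.sum_congr rfl fun c _ => ?_
    split_ifs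
    · rw [Pi.smul_apply, map_smul]
    · rw [smul_zero]

omit [Fintype V] in
private theorem Phi_apply {K : Type*} [Field K] {k : ℕ} {I : Finset V} (x : ↥I × Mon k → K)
    (v : V) : Phi K k I x v =
      ∑ c : ↥I × Mon k, if (c.1 : V) = v then monomial (c.2 : Fin 3 →₀ ℕ) (x c) else 0 := rfl

omit [Fintype V] in
private theorem coeff_Phi {K : Type*} [Field K] {k : ℕ} {I : Finset V} (x : ↥I × Mon k → K)
    (w : ↥I) (m : Mon k) : coeff (m : Fin 3 →₀ ℕ) (Phi K k I x w) = x (w, m) := by
  rw [Phi_apply, coeff_sum, Finset.sum_eq_single (w, m)]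
  · rw [if_pos rfl, coeff_monomial, if_pos rfl]
  · intro c _ hc
    split_ifs with h
    · rw [coeff_monomial, if_neg]
      intro h2
      exact hc (Prod.ext (Subtype.ext h) (Subtype.ext h2))
    · rw [coeff_zero]
  · intro h
    exact absurd (Finset.mem_univ _) h

omit [Fintype V] in
private theorem Phi_inj {K : Type*} [Field K] {k : ℕ} {I : Finset V} :
    Function.Injective (Phi K k I) := by
  intro x y h
  funext c
  obtain ⟨w, m⟩ := c
  rw [← coeff_Phi x w m, ← coeff_Phi y w m, h]

omit [Fintype V] in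
private theorem Phi_hom {K : Type*} [Field K] {k : ℕ} {I : Finset V} (x : ↥I × Mon k → K)
    (v : V) : (Phi K k I x v).IsHomogeneous k := by
  rw [Phi_apply]
  refine IsHomogeneous.sum _ _ _ fun c _ => ?_
  split_ifs
  · exact isHomogeneous_monomial _ (mon_degree c.2)
  · exact isHomogeneous_zero _ _ _

omit [Fintype V] in
private theorem Phi_off {K : Type*} [Field K] {k : ℕ} {I : Finset V} (x : ↥I × Mon k → K)
    {v : V} (hv : v ∉ I) : Phi K k I x v = 0 := by
  rw [Phi_apply]
  refine Finset.sum_eq_zero fun c _ => ?_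
  rw [if_neg]
  rintro rfl
  exact hv c.1.2

omit [Fintype V] in
private theorem Phi_surj {K : Type*} [Field K] {k : ℕ} {I : Finset V}
    (μ : V → MvPolynomial (Fin 3) K) (h1 : ∀ v, (μ v).IsHomogeneous k)
    (h2 : ∀ v, v ∉ I → μ v = 0) :
    Phi K k I (fun c => coeff (c.2 : Fin 3 →₀ ℕ) (μ c.1)) = μ := by
  funext v
  by_cases hv : v ∈ I
  · ext n
    by_cases hn : n.degree = k
    · exact coeff_Phi (fun c : ↥I × Mon k => coeff (c.2 : Fin 3 →₀ ℕ) (μ c.1)) ⟨v, hv⟩
        ⟨n, mem_mon hn⟩
    · rw [(h1 v).coeff_eq_zero hn, (Phi_hom _ v).coeff_eq_zero hn]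
  · rw [h2 v hv, Phi_off _ hv]

omit [Fintype V] in
private theorem coeff_row {K : Type*} [Field K] {k : ℕ} {I : Finset V} (p : V × Fin 2 → K)
    (x : ↥I × Mon k → K) (u v : V) (e : Fin 3 →₀ ℕ) :
    coeff e (adp p u v (Phi K k I x u - Phi K k I x v)) =
      ∑ c : ↥I × Mon k, (((if (c.1 : V) = u then 1 else 0) - (if (c.1 : V) = v then 1 else 0)) *
        coeff e (adp p u v (monomial (c.2 : Fin 3 →₀ ℕ) 1))) * x c := by
  rw [Phi_apply, Phi_apply, ← Finset.sum_sub_distrib, map_sum, coeff_sum]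
  refine Finset.sum_congr rfl fun c _ => ?_
  have h : monomial (c.2 : Fin 3 →₀ ℕ) (x c) = x c • monomial (c.2 : Fin 3 →₀ ℕ) (1 : K) := by
    rw [smul_monomial, smul_eq_mul, mul_one]
  split_ifs
  all_goals simp only [h, sub_self, sub_zero, zero_sub, map_zero, coeff_zero, map_neg, coeff_neg,
    map_smul, coeff_smul, smul_eq_mul]
  all_goals ring

private theorem sol_eq {K : Type*} [Field K] (k δ : ℕ) (τ : V → ℕ) (p : V × Fin 2 → K)
    (E : Finset (Finset V)) (I : Finset V) :
    Sol k δ τ p E I =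
      Submodule.map (Phi K k I) (LinearMap.ker (spec (mat k δ τ E I) p).mulVecLin) := by
  classical
  have key : ∀ x : ↥I × Mon k → K, Phi K k I x ∈ Sol k δ τ p E I ↔
      (spec (mat k δ τ E I) p).mulVec x = 0 := by
    intro x
    constructor
    · rintro ⟨-, -, h3⟩
      funext r
      obtain ⟨u, v, i, j⟩ := r
      rw [Pi.zero_apply, Matrix.mulVec_eq_sum]
      rw [Finset.sum_apply]
      by_cases ha : Act δ τ E u v i j
      · obtain ⟨a1, a2, a3, a4, a5⟩ := ha
        have h4 := h3 u v a1 a2 i j a3 a4 a5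
        rw [coeff_row] at h4
        refine Eq.trans ?_ h4
        refine Finset.sum_congr rfl fun c _ => ?_
        rw [Pi.smul_apply, Matrix.transpose_apply, spec_mat, if_pos ⟨a1, a2, a3, a4, a5⟩,
          MulOpposite.smul_eq_mul_unop, MulOpposite.unop_op]
      · refine Finset.sum_eq_zero fun c _ => ?_
        rw [Pi.smul_apply, Matrix.transpose_apply, spec_mat, if_neg ha, smul_zero]
    · intro h
      refine ⟨Phi_hom x, fun v hv => Phi_off x hv, ?_⟩
      intro u v huv he i j h1 h2 h3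
      rw [coeff_row]
      have h4 := congrFun h (u, v, (⟨i, by omega⟩ : Fin δ), (⟨j, by omega⟩ : Fin δ))
      rw [Pi.zero_apply, Matrix.mulVec_eq_sum, Finset.sum_apply] at h4
      refine Eq.trans ?_ h4
      refine Finset.sum_congr rfl fun c _ => ?_
      have hA : Act δ τ E u v i j := ⟨huv, he, h1, h2, h3⟩
      have hs := (spec_mat k δ τ E I p (u, v, (⟨i, by omega⟩ : Fin δ), (⟨j, by omega⟩ : Fin δ))
        c).trans (if_pos hA)
      rw [Pi.smul_apply, Matrix.transpose_apply, hs,
        MulOpposite.smul_eq_mul_unop, MulOpposite.unop_op]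
  ext μ
  rw [Submodule.mem_map]
  constructor
  · intro hμ
    have h5 := Phi_surj μ hμ.1 hμ.2.1
    refine ⟨_, ?_, h5⟩
    rw [LinearMap.mem_ker, Matrix.mulVecLin_apply, ← key, h5]
    exact hμ
  · rintro ⟨x, hx, rfl⟩
    rw [LinearMap.mem_ker, Matrix.mulVecLin_apply, ← key] at hx
    exact hx

private theorem sol_finrank {K : Type*} [Field K] (k δ : ℕ) (τ : V → ℕ) (p : V × Fin 2 → K)
    (E : Finset (Finset V)) (I : Finset V) :
    (spec (mat k δ τ E I) p).rank + Module.finrank K (Sol k δ τ p E I) =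
      Fintype.card (↥I × Mon k) := by
  rw [sol_eq, ← (Submodule.equivMapOfInjective (Phi K k I) Phi_inj
    (LinearMap.ker (spec (mat k δ τ E I) p).mulVecLin)).finrank_eq]
  have h := LinearMap.finrank_range_add_finrank_ker (spec (mat k δ τ E I) p).mulVecLin
  rw [Module.finrank_fintype_fun_eq_card] at h
  exact h

theorem sol_semicont {K : Type*} [Field K] (k δ : ℕ) (τ : V → ℕ) (p₀ : V × Fin 2 → K)
    (E : Finset (Finset V)) (I : Finset V) :
    ∃ Q : MvPolynomial (V × Fin 2) ℝ, Q ≠ 0 ∧ ∀ p : V × Fin 2 → ℝ, eval p Q ≠ 0 →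
      Module.finrank ℝ (Sol k δ τ p E I) ≤ Module.finrank K (Sol k δ τ p₀ E I) := by
  obtain ⟨Q, hQ, h⟩ := rank_semi_char0 (mat k δ τ E I) p₀
  refine ⟨Q, hQ, fun p hp => ?_⟩
  have h1 := sol_finrank k δ τ p E I
  have h2 := sol_finrank k δ τ p₀ E I
  have h3 := h p hp
  omega

end Pool.Agent.Spl2
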