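import Pool.Agent.Spl2.BrDefs

/-!
# Bridge, module BrTriv: the trivial motions

PAPER PROOF.  For families `g v` of forms of degree `k - τ v`, `v ∈ I`, the family `μ v = dl p v ^ τ v * g v` (`0` for `v ∉ I`) is in
`Sol k δ τ p E I`: `adp p u v (μ u) = Δ^(τ u) X 0 ^ τ u * adp p u v (g u)` (`adp_dl_left`), whose coefficient at an exponent `m` with
`m 0 = i < τ u` is `0` (`coeff_mul_X_pow'`-type lemmas / `X_pow_dvd`), and the same for `μ v`, `X 1` and `j < τ v` (`adp_dl_right`).
`dl p v ≠ 0` (the coefficient of `X 2` is `1`) and `MvPolynomial` is a domain, so this map is injective; the space of forms of degree `m` in three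
variables has dimension `binom (m + 2) 2`.  `Sol` is finite dimensional (a subspace of the finite product of the spaces of forms of degree `k`).
This gives `triv_le`.  If `dl p v ^ τ v` divides `μ v` for all `μ ∈ Sol`, `v ∈ I`, the map is onto (the quotient of a form by a
power of `dl` is a form: `IsHomogeneous` of a factor, or take the homogeneous component of the quotient).
-/

set_option autoImplicit false

namespace Pool.Agent.Spl2

open MvPolynomial

variable {V : Type*} [Fintype V] [DecidableEq V] {K : Type*} [Field K]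

theorem brt_mem (n i : ℕ) (α : Fin n →₀ ℕ) :
    α ∈ (Finset.univ : Finset (Fin n)).finsuppAntidiag i ↔ α.degree = i := by
  rw [Finset.mem_finsuppAntidiag, Finsupp.degree_eq_sum]
  simp

@[instance_reducible] noncomputable def brt_fintype (n i : ℕ) : Fintype {α : Fin n →₀ ℕ // α.degree = i} :=
  Fintype.ofEquiv ((Finset.univ : Finset (Fin n)).finsuppAntidiag i)
    (Equiv.subtypeEquivRight fun α => brt_mem n i α)

theorem finrank_forms (m : ℕ) :
    Module.finrank K (homogeneousSubmodule (Fin 3) K m) = (m + 2).choose 2 := by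
  let _ := brt_fintype 3 m
  have h1 : homogeneousSubmodule (Fin 3) K m = restrictSupport K {α | α.degree = m} := by
    rw [homogeneousSubmodule_eq_finsupp_supported]
    rfl
  let b : Module.Basis {α : Fin 3 →₀ ℕ // α.degree = m} K
      (restrictSupport K {α : Fin 3 →₀ ℕ | α.degree = m}) :=
    basisRestrictSupport K {α : Fin 3 →₀ ℕ | α.degree = m}
  rw [h1, Module.finrank_eq_card_basis b]
  have h2 : Fintype.card {α : Fin 3 →₀ ℕ // α.degree = m} = Nat.multichoose 3 m := by
    have e1 := Fintype.card_congr (Equiv.subtypeEquivRight fun α => brt_mem 3 m α)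
    rw [Fintype.card_coe, Finset.card_finsuppAntidiag_nat_eq_multichoose] at e1
    rw [← e1]
    simp
  rw [h2, Nat.multichoose_eq, show 3 + m - 1 = m + 2 by omega]
  exact (Nat.choose_symm_add (a := m) (b := 2)).symm ▸ rfl

theorem brt_fin (m : ℕ) : Module.Finite K (homogeneousSubmodule (Fin 3) K m) :=
  Module.Finite.iff_fg.2 (homogeneousSubmodule_fg (Fin 3) K m)

theorem brt_dl_hom (p : V × Fin 2 → K) (v : V) : (dl p v).IsHomogeneous 1 :=
  ((isHomogeneous_C_mul_X _ _).add (isHomogeneous_C_mul_X _ _)).add (isHomogeneous_X _ _)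

theorem brt_dl_ne (p : V × Fin 2 → K) (v : V) : dl p v ≠ 0 := by
  intro h
  have h1 := congrArg (coeff (Finsupp.single (2 : Fin 3) 1)) h
  have h2 : ¬ (Finsupp.single (0 : Fin 3) 1 = Finsupp.single (2 : Fin 3) (1 : ℕ)) := by
    intro h3
    have h4 := DFunLike.congr_fun h3 (0 : Fin 3)
    simp at h4
  have h3 : ¬ (Finsupp.single (1 : Fin 3) 1 = Finsupp.single (2 : Fin 3) (1 : ℕ)) := by
    intro h3
    have h4 := DFunLike.congr_fun h3 (1 : Fin 3)
    simp at h4
  unfold dl at h1
  rw [coeff_add, coeff_add, coeff_C_mul, coeff_C_mul, coeff_X, coeff_X, coeff_X, if_neg h2,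
    if_neg h3, if_pos rfl] at h1
  simp at h1

theorem brt_coeff (c : Fin 3) (t : ℕ) (a : K) (g : MvPolynomial (Fin 3) K)
    (m : Fin 3 →₀ ℕ) (h : m c < t) : coeff m ((C a * X c) ^ t * g) = 0 := by
  have h1 : (C a * X c) ^ t * g = C (a ^ t) * (X c ^ t * g) := by
    rw [mul_pow, C_pow]
    ring
  rw [h1, coeff_C_mul, X_pow_eq_monomial, coeff_monomial_mul', if_neg, mul_zero]
  intro h2
  have h3 := h2 c
  rw [Finsupp.single_eq_same] at h3
  omega

/-- the trivial motions -/
noncomputable def brT (k : ℕ) (τ : V → ℕ) (p : V × Fin 2 → K) (I : Finset V) :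
    ((v : I) → homogeneousSubmodule (Fin 3) K (k - τ v)) →ₗ[K] (V → MvPolynomial (Fin 3) K) where
  toFun g := fun v => if h : v ∈ I then dl p v ^ τ v * (g ⟨v, h⟩ : MvPolynomial (Fin 3) K) else 0
  map_add' g g' := by
    funext v
    by_cases h : v ∈ I
    · simp [h, mul_add]
    · simp [h]
  map_smul' c g := by
    funext v
    by_cases h : v ∈ I
    · simp [h]
    · simp [h]

theorem brT_mem (k δ : ℕ) (τ : V → ℕ) (p : V × Fin 2 → K) (E : Finset (Finset V))
    (I : Finset V) (hτ : ∀ v ∈ I, τ v ≤ k)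
    (g : (v : I) → homogeneousSubmodule (Fin 3) K (k - τ v)) : brT k τ p I g ∈ Sol k δ τ p E I := by
  have hin : ∀ v, ∀ h : v ∈ I, brT k τ p I g v = dl p v ^ τ v * (g ⟨v, h⟩ : MvPolynomial (Fin 3) K) :=
    fun v h => dif_pos h
  have hout : ∀ v, v ∉ I → brT k τ p I g v = 0 := fun v h => dif_neg h
  refine ⟨fun v => ?_, hout, fun u v _ _ i j _ hi hj => ?_⟩
  · by_cases h : v ∈ I
    · rw [hin v h]
      have h1 : (dl p v ^ τ v).IsHomogeneous (1 * τ v) := (brt_dl_hom p v).pow _
      have h2 : (g ⟨v, h⟩ : MvPolynomial (Fin 3) K).IsHomogeneous (k - τ v) :=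
        (mem_homogeneousSubmodule _ _).1 (g ⟨v, h⟩).2
      have h3 := h1.mul h2
      have h4 : 1 * τ v + (k - τ v) = k := by
        have := hτ v h
        omega
      rwa [h4] at h3
    · rw [hout v h]
      exact isHomogeneous_zero _ _ _
  · rw [map_sub, coeff_sub]
    have h1 : coeff (ex3 i j (k - i - j)) (adp p u v (brT k τ p I g u)) = 0 := by
      by_cases h : u ∈ I
      · rw [hin u h, map_mul, map_pow, adp_dl_left]
        exact brt_coeff 0 _ _ _ _ hi
      · rw [hout u h, map_zero, coeff_zero]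
    have h2 : coeff (ex3 i j (k - i - j)) (adp p u v (brT k τ p I g v)) = 0 := by
      by_cases h : v ∈ I
      · rw [hin v h, map_mul, map_pow, adp_dl_right]
        exact brt_coeff 1 _ _ _ _ hj
      · rw [hout v h, map_zero, coeff_zero]
    rw [h1, h2, sub_zero]

theorem brT_inj (k : ℕ) (τ : V → ℕ) (p : V × Fin 2 → K) (I : Finset V) :
    Function.Injective (brT k τ p I) := by
  rw [injective_iff_map_eq_zero]
  intro g hg
  funext v
  have h1 := congrFun hg v.1
  have h2 : brT k τ p I g v.1 = dl p v.1 ^ τ v.1 * (g v : MvPolynomial (Fin 3) K) := dif_pos v.2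
  rw [h2, Pi.zero_apply] at h1
  exact Subtype.ext ((mul_eq_zero.1 h1).resolve_left (pow_ne_zero _ (brt_dl_ne p v.1)))

theorem brt_fd (k δ : ℕ) (τ : V → ℕ) (p : V × Fin 2 → K) (E : Finset (Finset V))
    (I : Finset V) : Module.Finite K (Sol k δ τ p E I) := by
  have : Module.Finite K (homogeneousSubmodule (Fin 3) K k) := brt_fin k
  let φ : Sol k δ τ p E I →ₗ[K] (V → homogeneousSubmodule (Fin 3) K k) :=
    LinearMap.pi fun v => LinearMap.codRestrict _
      ((LinearMap.proj v).comp (Submodule.subtype (Sol k δ τ p E I))) (fun μ => μ.2.1 v)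
  refine Module.Finite.of_injective φ ?_
  intro μ ν h
  apply Subtype.ext
  funext v
  have h1 := congrFun h v
  exact congrArg Subtype.val h1

noncomputable def brS (k δ : ℕ) (τ : V → ℕ) (p : V × Fin 2 → K) (E : Finset (Finset V))
    (I : Finset V) (hτ : ∀ v ∈ I, τ v ≤ k) :
    ((v : I) → homogeneousSubmodule (Fin 3) K (k - τ v)) →ₗ[K] Sol k δ τ p E I :=
  LinearMap.codRestrict _ (brT k τ p I) (brT_mem k δ τ p E I hτ)

theorem brS_inj (k δ : ℕ) (τ : V → ℕ) (p : V × Fin 2 → K) (E : Finset (Finset V))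
    (I : Finset V) (hτ : ∀ v ∈ I, τ v ≤ k) : Function.Injective (brS k δ τ p E I hτ) := by
  intro g g' h
  exact brT_inj k τ p I (congrArg Subtype.val h)

theorem brt_rank (k : ℕ) (τ : V → ℕ) (I : Finset V) :
    Module.finrank K ((v : I) → homogeneousSubmodule (Fin 3) K (k - τ v)) =
      ∑ v ∈ I, (k - τ v + 2).choose 2 := by
  have : ∀ m : ℕ, Module.Finite K (homogeneousSubmodule (Fin 3) K m) := fun m => brt_fin m
  rw [Module.finrank_pi_fintype]
  rw [← Finset.sum_coe_sort I (fun v => (k - τ v + 2).choose 2)]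
  exact Finset.sum_congr rfl fun v _ => finrank_forms _

/-- a form divisible by a form -/
theorem brt_dvd {a f : MvPolynomial (Fin 3) K} {s k : ℕ} (ha : a.IsHomogeneous s)
    (hf : f.IsHomogeneous k) (hs : s ≤ k) (h : a ∣ f) :
    ∃ q : MvPolynomial (Fin 3) K, q.IsHomogeneous (k - s) ∧ f = a * q := by
  obtain ⟨q, hq⟩ := h
  refine ⟨homogeneousComponent (k - s) q, homogeneousComponent_isHomogeneous _ _, ?_⟩
  have h1 : f = homogeneousComponent k f :=
    (homogeneousComponent_eq_self ((mem_homogeneousSubmodule _ _).2 hf)).symm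
  have h2 : homogeneousComponent k f = homogeneousComponent k
      (∑ n ∈ Finset.range (q.totalDegree + 1), a * homogeneousComponent n q) := by
    rw [← Finset.mul_sum, sum_homogeneousComponent, ← hq]
  have h3 : ∀ n, homogeneousComponent k (a * homogeneousComponent n q) =
      if k = s + n then a * homogeneousComponent n q else 0 := fun n =>
    homogeneousComponent_of_mem ((mem_homogeneousSubmodule _ _).2
      (ha.mul (homogeneousComponent_isHomogeneous _ _)))
  rw [h1, h2, map_sum]
  simp only [h3]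
  have h4 : ∀ n, (if k = s + n then a * homogeneousComponent n q else 0) =
      if n = k - s then a * homogeneousComponent (k - s) q else 0 := by
    intro n
    by_cases h5 : k = s + n
    · rw [if_pos h5, if_pos (by omega), show n = k - s by omega]
    · rw [if_neg h5, if_neg (by omega)]
  simp only [h4]
  rw [Finset.sum_ite_eq' (Finset.range (q.totalDegree + 1)) (k - s)
    (fun _ => a * homogeneousComponent (k - s) q)]
  split_ifs with h6
  · rfl
  · rw [Finset.mem_range] at h6
    rw [homogeneousComponent_eq_zero (k - s) q (by omega), mul_zero]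

theorem triv_le (k δ : ℕ) (τ : V → ℕ) (p : V × Fin 2 → K) (E : Finset (Finset V)) (I : Finset V)
    (hτ : ∀ v ∈ I, τ v ≤ k) :
    ∑ v ∈ I, (k - τ v + 2).choose 2 ≤ Module.finrank K (Sol k δ τ p E I) := by
  have := brt_fd k δ τ p E I
  rw [← brt_rank (K := K) k τ I]
  exact LinearMap.finrank_le_finrank_of_injective (brS_inj k δ τ p E I hτ)

theorem finrank_sol_of_dvd (k δ : ℕ) (τ : V → ℕ) (p : V × Fin 2 → K) (E : Finset (Finset V))
    (I : Finset V) (hτ : ∀ v ∈ I, τ v ≤ k)
    (h : ∀ μ ∈ Sol k δ τ p E I, ∀ v ∈ I, dl p v ^ τ v ∣ μ v) :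
    Module.finrank K (Sol k δ τ p E I) = ∑ v ∈ I, (k - τ v + 2).choose 2 := by
  rw [← brt_rank (K := K) k τ I]
  refine (LinearEquiv.finrank_eq (LinearEquiv.ofBijective (brS k δ τ p E I hτ)
    ⟨brS_inj k δ τ p E I hτ, ?_⟩)).symm
  rintro ⟨μ, hμ⟩
  have h1 : ∀ v : I, ∃ q : MvPolynomial (Fin 3) K, q.IsHomogeneous (k - τ v) ∧
      μ v = dl p v ^ τ v * q := by
    intro v
    have h2 : (dl p v.1 ^ τ v.1).IsHomogeneous (τ v.1) := by
      have h3 := (brt_dl_hom p v.1).pow (τ v.1)
      rwa [one_mul] at h3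
    exact brt_dvd h2 (hμ.1 v.1) (hτ v.1 v.2) (h μ hμ v.1 v.2)
  choose q hq1 hq2 using h1
  refine ⟨fun v => ⟨q v, (mem_homogeneousSubmodule _ _).2 (hq1 v)⟩, Subtype.ext ?_⟩
  funext v
  by_cases hv : v ∈ I
  · have h4 : brT k τ p I (fun v => ⟨q v, (mem_homogeneousSubmodule _ _).2 (hq1 v)⟩) v =
        dl p v ^ τ v * q ⟨v, hv⟩ := dif_pos hv
    exact h4.trans (hq2 ⟨v, hv⟩).symm
  · have h4 : brT k τ p I (fun v => ⟨q v, (mem_homogeneousSubmodule _ _).2 (hq1 v)⟩) v = 0 :=
      dif_neg hv
    exact h4.trans (hμ.2.1 v hv).symm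

end Pool.Agent.Spl2
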