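import Pool.Agent.Spl2.BrDual
import Pool.Agent.Spl2.BrTriv
import Pool.Agent.Spl2.BrSemi
import Pool.Agent.Spl2.BrC2
import Pool.Agent.Spl2.BrGen

/-!
# Bridge, module BrMain: from characteristic 2 to the real cofactor system for `r = 2`, `k = 4`

PAPER PROOF.  `exists_good` gives a position `p₀` over `K`; `char2_dvd` and `finrank_sol_of_dvd`: `dim Sol 4 2 2 p₀ = 6 |I|`;
`sol_semicont`: `dim Sol 4 2 2 p ≤ 6 |I|` for generic real `p`, and `≥` by `triv_le`; `finrank_cofSys` with `r = 2`, `d = 1`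
(multiply the polynomial by the product of `X (u, 1) - X (v, 1)`): `dim CofSys + 15 |I| = 3 |E| + 6 |I|`.
-/

set_option autoImplicit false

namespace Pool.Agent.Spl2

open MvPolynomial

variable {V : Type*} [Fintype V] [DecidableEq V]

theorem bridge (K : Type*) [Field K] [CharP K 2] [Infinite K] (T : Finset (Finset V))
    (hN : GN K (Spl1.intE T) (Spl1.intV T)) (hG : GB 2 K (Spl1.intE T) (Spl1.intV T)) :
    ∃ Q : MvPolynomial (V × Fin 2) ℝ, Q ≠ 0 ∧ ∀ p : V × Fin 2 → ℝ, eval p Q ≠ 0 →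
      Module.finrank ℝ (Spl1.CofSys 2 1 p T) + 9 * (Spl1.intV T).card =
        3 * (Spl1.intE T).card := by
  classical
  obtain ⟨p₀, h1, h2, h3⟩ := exists_good (K := K) (Spl1.intE T) (Spl1.intV T) hN hG
  have h4 := char2_dvd p₀ (Spl1.intE T) (Spl1.intV T) (fun u v huv _ => h3 u v huv) h1 h2
  have h5 := finrank_sol_of_dvd 4 2 (fun _ => 2) p₀ (Spl1.intE T) (Spl1.intV T)
    (fun _ _ => by norm_num) (fun μ hμ v _ => h4 μ hμ v)
  obtain ⟨Q, hQ, hQ'⟩ := sol_semicont 4 2 (fun _ => 2) p₀ (Spl1.intE T) (Spl1.intV T)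
  let D : MvPolynomial (V × Fin 2) ℝ :=
    ∏ e ∈ (Finset.univ : Finset (V × V)).filter (fun e => e.1 ≠ e.2), (X (e.1, 1) - X (e.2, 1))
  have hD : D ≠ 0 := by
    refine Finset.prod_ne_zero_iff.2 fun e he => ?_
    rw [Finset.mem_filter] at he
    rw [sub_ne_zero]
    intro h
    have := X_injective (R := ℝ) h
    exact he.2 (congrArg Prod.fst this)
  refine ⟨Q * D, mul_ne_zero hQ hD, fun p hp => ?_⟩
  rw [map_mul] at hp
  have hp1 := left_ne_zero_of_mul hp
  have hp2 := right_ne_zero_of_mul hp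
  have hp3 : ∀ u v, u ≠ v → p (u, 1) ≠ p (v, 1) := by
    intro u v huv he
    apply hp2
    rw [map_prod]
    refine Finset.prod_eq_zero (i := (u, v)) (by simp [huv]) ?_
    simp [he]
  have h6 := hQ' p hp1
  have h7 := triv_le 4 2 (fun _ => 2) p (Spl1.intE T) (Spl1.intV T) (fun _ _ => by norm_num)
  have h8 : Module.finrank ℝ (Spl1.CofSys 2 1 p T) + (Spl1.intV T).card * 15 =
      3 * (Spl1.intE T).card +
        Module.finrank ℝ (Sol 4 2 (fun _ => 2) p (Spl1.intE T) (Spl1.intV T)) :=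
    finrank_cofSys 2 1 p T (fun u v huv _ => hp3 u v huv)
  have e1 : (4 - 2 + 2).choose 2 = 6 := by decide
  rw [Finset.sum_const, e1, smul_eq_mul] at h5 h7
  omega

end Pool.Agent.Spl2
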