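import Pool.Agent.Spl2.Defs
import Pool.Agent.Spl2.BrLe

/-!
# Bridge, module BrNG: every field of characteristic 2

A system which is nonsingular at one position over one field of characteristic 2 is nonsingular at generic positions
over every field of characteristic 2 (a minor is an integral polynomial; it is not zero modulo 2).  The same for the
dimension of the space of solutions.
-/

set_option autoImplicit false

namespace Pool.Agent.Spl2

open MvPolynomial

section
variable {ι κ σ : Type*} [Fintype ι] [Fintype κ] [DecidableEq ι] [DecidableEq κ]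

theorem rank_semi2 {L : Type*} [Field L] [CharP L 2] (A : Matrix ι κ (MvPolynomial σ ℤ))
    (p₀ : σ → L) (K : Type) [Field K] [CharP K 2] :
    ∃ Q : MvPolynomial σ K, Q ≠ 0 ∧
      ∀ p : σ → K, eval p Q ≠ 0 → (spec A p₀).rank ≤ (spec A p).rank := by
  obtain ⟨Q, hQ, hQ2⟩ := rank_semi A p₀
  have h2 : map (Int.castRingHom (ZMod 2)) Q ≠ 0 := by
    intro h0
    apply hQ
    have e : (ZMod.castHom (dvd_refl 2) L).comp (Int.castRingHom (ZMod 2)) = Int.castRingHom L :=
      RingHom.ext_int _ _
    rw [← e, ← eval₂_map, h0, eval₂_zero]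
  refine ⟨map (Int.castRingHom K) Q, ?_, ?_⟩
  · have e : (ZMod.castHom (dvd_refl 2) K).comp (Int.castRingHom (ZMod 2)) = Int.castRingHom K :=
      RingHom.ext_int _ _
    rw [← e, ← MvPolynomial.map_map]
    intro h0
    apply h2
    have hinj := map_injective (σ := σ) (ZMod.castHom (dvd_refl 2) K) (RingHom.injective _)
    exact hinj (by rw [h0, map_zero])
  · intro p hp
    rw [eval_map] at hp
    exact hQ2 K p hp

end

variable {V : Type*} [Fintype V] [DecidableEq V]

theorem inj_iff_rank {ι κ : Type*} [Fintype ι] [Fintype κ] [DecidableEq κ] {K : Type*} [Field K]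
    (A : Matrix ι κ K) : (∀ x : κ → K, A.mulVec x = 0 → x = 0) ↔ Fintype.card κ ≤ A.rank := by
  have h1 := LinearMap.finrank_range_add_finrank_ker A.mulVecLin
  rw [Module.finrank_fintype_fun_eq_card] at h1
  have h2 : A.rank = Module.finrank K (LinearMap.range A.mulVecLin) := rfl
  constructor
  · intro h
    have h3 : LinearMap.ker A.mulVecLin = ⊥ := by
      rw [LinearMap.ker_eq_bot']
      intro x hx
      exact h x hx
    rw [h3, finrank_bot] at h1
    omega
  · intro h x hx
    have h3 : Module.finrank K (LinearMap.ker A.mulVecLin) = 0 := by omega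
    rw [Submodule.finrank_eq_zero] at h3
    have h4 : x ∈ LinearMap.ker A.mulVecLin := hx
    rw [h3] at h4
    exact h4

theorem gn_of_char2 {L : Type*} [Field L] [CharP L 2] (p₀ : V × Fin 2 → L)
    (E : Finset (Finset V)) (I : Finset V) (h : NZ p₀ E I) (K : Type) [Field K] [CharP K 2] :
    GN K E I := by
  obtain ⟨Q, hQ, hQ2⟩ := rank_semi2 (gmat E I nzB) p₀ K
  refine ⟨Q, hQ, fun p hp => ?_⟩
  have h1 := (inj_iff_rank _).1 ((nz_iff p₀ E I).1 h)
  exact (nz_iff p E I).2 ((inj_iff_rank _).2 (h1.trans (hQ2 p hp)))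

theorem gb_of_char2 {L : Type*} [Field L] [CharP L 2] (m : ℕ) (p₀ : V × Fin 2 → L)
    (E : Finset (Finset V)) (I : Finset V) (h : BZ m p₀ E I) (K : Type) [Field K] [CharP K 2] :
    GB m K E I := by
  obtain ⟨Q, hQ, hQ2⟩ := rank_semi2 (gmat E I (bzB m)) p₀ K
  refine ⟨Q, hQ, fun p hp => ?_⟩
  have h1 := (inj_iff_rank _).1 ((bz_iff m p₀ E I).1 h)
  exact (bz_iff m p E I).2 ((inj_iff_rank _).2 (h1.trans (hQ2 p hp)))

theorem finrank_nsol {K : Type*} [Field K] (p : V × Fin 2 → K) (E : Finset (Finset V))
    (I : Finset V) :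
    (spec (gmat E I nzB) p).rank + Module.finrank K (NSol p E I) =
      Fintype.card (V × (Fin 4 ⊕ Fin 2)) := by
  have h1 := LinearMap.finrank_range_add_finrank_ker (spec (gmat E I nzB) p).mulVecLin
  rw [Module.finrank_fintype_fun_eq_card] at h1
  have hmem : ∀ x : V × (Fin 4 ⊕ Fin 2) → K, (spec (gmat E I nzB) p).mulVecLin x = 0 ↔
      ((fun v j => x (v, Sum.inl j), fun v i => x (v, Sum.inr i)) :
        (V → Fin 4 → K) × (V → Fin 2 → K)) ∈ NSol p E I := by
    intro x
    have h2 := gmat_mulVec E I nzB p x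
    have h3 : (spec (gmat E I nzB) p).mulVecLin x =
      ((gmat E I nzB).map fun P => eval₂ (Int.castRingHom K) p P).mulVec x := rfl
    rw [h3, h2]
    simp only [nzB_sum, sub_eq_zero]
    constructor
    · rintro ⟨h4, h5⟩
      exact ⟨fun v hv => ⟨funext fun j => h4 (v, Sum.inl j) hv,
        funext fun i => h4 (v, Sum.inr i) hv⟩, h5⟩
    · rintro ⟨h4, h5⟩
      refine ⟨?_, h5⟩
      rintro ⟨w, j | i⟩ hd
      · exact congrFun (h4 w hd).1 j
      · exact congrFun (h4 w hd).2 i
  let e : LinearMap.ker (spec (gmat E I nzB) p).mulVecLin ≃ₗ[K] NSol p E I :=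
    { toFun := fun x => ⟨(fun v j => x.1 (v, Sum.inl j), fun v i => x.1 (v, Sum.inr i)),
        (hmem x.1).1 x.2⟩
      map_add' := fun x y => rfl
      map_smul' := fun a x => rfl
      invFun := fun y => ⟨fun d => Sum.elim (y.1.1 d.1) (y.1.2 d.1) d.2, by
        rw [LinearMap.mem_ker, hmem]
        exact y.2⟩
      left_inv := by
        intro x
        apply Subtype.ext
        funext d
        rcases d with ⟨v, j | i⟩ <;> rfl
      right_inv := fun y => rfl }
  rw [← LinearEquiv.finrank_eq e]
  exact h1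

/-- the dimension of the space of solutions at generic positions over any field of characteristic 2 -/
theorem nsol_generic {L : Type*} [Field L] [CharP L 2] (p₀ : V × Fin 2 → L)
    (E : Finset (Finset V)) (I : Finset V) (K : Type) [Field K] [CharP K 2] :
    ∃ Q : MvPolynomial (V × Fin 2) K, Q ≠ 0 ∧ ∀ p : V × Fin 2 → K, eval p Q ≠ 0 →
      Module.finrank K (NSol p E I) ≤ Module.finrank L (NSol p₀ E I) := by
  obtain ⟨Q, hQ, hQ2⟩ := rank_semi2 (gmat E I nzB) p₀ K
  refine ⟨Q, hQ, fun p hp => ?_⟩
  have h1 := hQ2 p hp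
  have h2 := finrank_nsol p₀ E I
  have h3 := finrank_nsol p E I
  omega

/-- positions `V → R × R` as functions on `V × Fin 2` -/
def pos2 {R : Type*} (p : V → R × R) : V × Fin 2 → R := fun x => ![(p x.1).1, (p x.1).2] x.2

omit [Fintype V] in
theorem nz_of_nns {R : Type*} [CommRing R] (p : V → R × R) (E : Finset (Finset V))
    (I : Finset V) (h : NNS p E I) : NZ (pos2 p) E I := by
  intro c k h1 h2 v
  have h3 := h (fun v => ![c v 3, c v 2, c v 1, c v 0, k v 0, k v 1])
    ⟨fun v hv => by
      obtain ⟨h4, h5⟩ := h1 v hv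
      funext j
      fin_cases j <;> simp [h4, h5], fun u v huv he => by
      have h4 := h2 u v huv he
      simp only [bev, pos2, Fin.sum_univ_succ, Fin.sum_univ_zero] at h4
      simp at h4
      simp only [cu, ad, Prod.fst_sub, Prod.snd_sub]
      simp
      linear_combination h4⟩
  have h4 := congrFun h3 v
  constructor
  · funext j
    fin_cases j
    · exact congrFun h4 3
    · exact congrFun h4 2
    · exact congrFun h4 1
    · exact congrFun h4 0
  · funext j
    fin_cases j
    · exact congrFun h4 4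
    · exact congrFun h4 5

theorem gn_of_ng {E : Finset (Finset V)} {I : Finset V} (h : NG E I) (K : Type) [Field K]
    [CharP K 2] : GN K E I := by
  obtain ⟨L, i1, i2, p, hp⟩ := h
  exact gn_of_char2 (pos2 p) E I (nz_of_nns p E I hp) K

end Pool.Agent.Spl2
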