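import Pool.Agent.Spl2.Defs

/-!
# Algebra in characteristic 2

Equalities which hold modulo 2 are proved by `ring_nf` and `reduce_mod_char!`.
-/

set_option autoImplicit false

namespace Pool.Agent.Spl2

variable {R : Type*} [CommRing R]

theorem c2_sub [CharP R 2] (a b : R) : a - b = a + b := by (rw [← sub_eq_zero]; ring_nf; try reduce_mod_char!)

theorem c2_neg [CharP R 2] (a : R) : -a = a := by (rw [← sub_eq_zero]; ring_nf; try reduce_mod_char!)

theorem c2_sub_pair [CharP R 2] (a b : R × R) : a - b = b - a := by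
  ext
  · simp only [Prod.fst_sub]; (rw [← sub_eq_zero]; ring_nf; try reduce_mod_char!)
  · simp only [Prod.snd_sub]; (rw [← sub_eq_zero]; ring_nf; try reduce_mod_char!)

theorem br_self (a : R × R) : br a a = 0 := by simp only [br]; ring

theorem br_comm [CharP R 2] (a b : R × R) : br a b = br b a := by simp only [br]; (rw [← sub_eq_zero]; ring_nf; try reduce_mod_char!)

theorem br_add_left (a b c : R × R) : br (a + b) c = br a c + br b c := by
  simp only [br, Prod.fst_add, Prod.snd_add]; ring

theorem br_add_right (a b c : R × R) : br a (b + c) = br a b + br a c := by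
  simp only [br, Prod.fst_add, Prod.snd_add]; ring

theorem br_smul_left (s : R) (a b : R × R) : br (s • a) b = s * br a b := by
  simp only [br, Prod.smul_fst, Prod.smul_snd, smul_eq_mul]; ring

theorem br_smul_right (s : R) (a b : R × R) : br a (s • b) = s * br a b := by
  simp only [br, Prod.smul_fst, Prod.smul_snd, smul_eq_mul]; ring

/-- the Pluecker relation -/
theorem br_pl (a b c d : R × R) : br a b * br c d - br a c * br b d + br a d * br b c = 0 := by
  simp only [br]; ring

theorem cu_add_left [CharP R 2] (w : Fin 6 → R) (x x' y : R × R) :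
    cu w (x + x') y = cu w x y + cu w x' y := by
  simp only [cu, Prod.fst_add, Prod.snd_add]; (rw [← sub_eq_zero]; ring_nf; try reduce_mod_char!)

theorem cu_add_right (w : Fin 6 → R) (x y y' : R × R) :
    cu w x (y + y') = cu w x y + cu w x y' := by
  simp only [cu, Prod.fst_add, Prod.snd_add]; ring

theorem cu_smul_left (w : Fin 6 → R) (s : R) (x y : R × R) :
    cu w (s • x) y = s ^ 2 * cu w x y := by
  simp only [cu, Prod.smul_fst, Prod.smul_snd, smul_eq_mul]; ring

theorem cu_smul_right (w : Fin 6 → R) (s : R) (x y : R × R) :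
    cu w x (s • y) = s * cu w x y := by
  simp only [cu, Prod.smul_fst, Prod.smul_snd, smul_eq_mul]; ring

theorem ad_add [CharP R 2] (w : Fin 6 → R) (x x' : R × R) :
    ad w (x + x') = ad w x + ad w x' := by
  simp only [ad, Prod.fst_add, Prod.snd_add]; (rw [← sub_eq_zero]; ring_nf; try reduce_mod_char!)

theorem ad_smul (w : Fin 6 → R) (s : R) (x : R × R) : ad w (s • x) = s ^ 2 * ad w x := by
  simp only [ad, Prod.smul_fst, Prod.smul_snd, smul_eq_mul]; ring

theorem cu_addw (w w' : Fin 6 → R) (x y : R × R) : cu (w + w') x y = cu w x y + cu w' x y := by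
  simp only [cu, Pi.add_apply]; ring

theorem ad_addw (w w' : Fin 6 → R) (x : R × R) : ad (w + w') x = ad w x + ad w' x := by
  simp only [ad, Pi.add_apply]; ring

theorem cu_smulw (s : R) (w : Fin 6 → R) (x y : R × R) : cu (s • w) x y = s * cu w x y := by
  simp only [cu, Pi.smul_apply, smul_eq_mul]; ring

theorem ad_smulw (s : R) (w : Fin 6 → R) (x : R × R) : ad (s • w) x = s * ad w x := by
  simp only [ad, Pi.smul_apply, smul_eq_mul]; ring

theorem cu_zero (x y : R × R) : cu (0 : Fin 6 → R) x y = 0 := by simp [cu]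

theorem ad_zero (x : R × R) : ad (0 : Fin 6 → R) x = 0 := by simp [ad]

/-- the values of an additive function at two directions determine it -/
theorem cu_pl [CharP R 2] (w : Fin 6 → R) (a b x y : R × R) :
    br a b ^ 2 * cu w x y = br x b ^ 2 * cu w a y + br x a ^ 2 * cu w b y := by
  simp only [cu, br]; (rw [← sub_eq_zero]; ring_nf; try reduce_mod_char!)

theorem ad_pl [CharP R 2] (w : Fin 6 → R) (a b x : R × R) :
    br a b ^ 2 * ad w x = br x b ^ 2 * ad w a + br x a ^ 2 * ad w b := by
  simp only [ad, br]; (rw [← sub_eq_zero]; ring_nf; try reduce_mod_char!)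

/-- linearity in the second variable -/
theorem cu_pr (w : Fin 6 → R) (a b x y : R × R) :
    br a b * cu w x y = br y b * cu w x a - br y a * cu w x b := by
  simp only [cu, br]; ring

/-- the value at a sum -/
theorem cu_sum [CharP R 2] (w : Fin 6 → R) (x y : R × R) :
    cu w (x + y) (x + y) = cu w x x + cu w x y + cu w y x + cu w y y := by
  simp only [cu, Prod.fst_add, Prod.snd_add]; (rw [← sub_eq_zero]; ring_nf; try reduce_mod_char!)

/-- an additive form with two zeros vanishes -/
theorem ad_eq_zero {K : Type*} [Field K] [CharP K 2] {w : Fin 6 → K} {a b : K × K}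
    (hab : br a b ≠ 0) (ha : ad w a = 0) (hb : ad w b = 0) : w 4 = 0 ∧ w 5 = 0 := by
  have h1 := ad_pl w a b (1, 0)
  have h2 := ad_pl w a b (0, 1)
  rw [ha, hb, mul_zero, mul_zero, add_zero] at h1 h2
  have h3 : br a b ^ 2 ≠ 0 := pow_ne_zero 2 hab
  have h4 := (mul_eq_zero.1 h1).resolve_left h3
  have h5 := (mul_eq_zero.1 h2).resolve_left h3
  simp only [ad] at h4 h5
  constructor
  · simpa using h4
  · simpa using h5

/-- a cubic form with `cu w a · = 0` and `cu w b · = 0` for two directions vanishes -/
theorem cu_eq_zero {K : Type*} [Field K] [CharP K 2] {w : Fin 6 → K} {a b : K × K}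
    (hab : br a b ≠ 0) (ha : ∀ y, cu w a y = 0) (hb : ∀ y, cu w b y = 0) :
    w 0 = 0 ∧ w 1 = 0 ∧ w 2 = 0 ∧ w 3 = 0 := by
  have h3 : br a b ^ 2 ≠ 0 := pow_ne_zero 2 hab
  have h : ∀ x y, cu w x y = 0 := by
    intro x y
    have h1 := cu_pl w a b x y
    rw [ha, hb, mul_zero, mul_zero, add_zero] at h1
    exact (mul_eq_zero.1 h1).resolve_left h3
  have e0 := h (1, 0) (1, 0)
  have e1 := h (1, 0) (0, 1)
  have e2 := h (0, 1) (1, 0)
  have e3 := h (0, 1) (0, 1)
  simp only [cu] at e0 e1 e2 e3
  refine ⟨?_, ?_, ?_, ?_⟩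
  · simpa using e0
  · simpa using e1
  · simpa using e2
  · simpa using e3

end Pool.Agent.Spl2
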