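import Pool.Agent.Spl2.Steps

/-!
# Cubic forms with a double zero; loaded motions; polynomial identities
-/

set_option autoImplicit false

namespace Pool.Agent.Spl2

open Finset Pool.Agent.Spl1 Polynomial

/-- a cubic form with a double zero at `u` and a zero at `a` is a multiple of `[x,u]² [x,a]` -/
theorem cu_dbl {K : Type*} [Field K] [CharP K 2] {k : Fin 6 → K} {u f a : K × K}
    (huf : br u f ≠ 0) (hua : br u a ≠ 0) (h1 : cu k u u = 0) (h2 : cu k u f = 0)
    (h3 : cu k a a = 0) : ∃ c : K, (∀ x, cu k x x = c * (br x u ^ 2 * br x a)) ∧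
      (c = 0 → k 0 = 0 ∧ k 1 = 0 ∧ k 2 = 0 ∧ k 3 = 0) := by
  have hu : ∀ y, cu k u y = 0 := by
    intro y
    have h4 := cu_pr k u f u y
    rw [h1, h2, mul_zero, mul_zero, sub_zero] at h4
    exact (mul_eq_zero.1 h4).resolve_left huf
  have hne : br u a ^ 3 ≠ 0 := pow_ne_zero 3 hua
  refine ⟨cu k a u / br u a ^ 3, ?_, ?_⟩
  · intro x
    rw [div_mul_eq_mul_div, eq_div_iff hne]
    have h5 := cu_pl k u a x x
    rw [hu, mul_zero, zero_add] at h5
    have h6 := cu_pr k a u a x
    rw [h3, mul_zero] at h6
    have h7 := br_comm a u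
    rw [h7] at h6
    linear_combination (norm := (ring_nf; try reduce_mod_char!)) (br u a) * h5 + (br x u ^ 2) * h6
  · intro hc
    have hau : cu k a u = 0 := by
      rw [div_eq_zero_iff] at hc
      exact hc.resolve_right hne
    refine cu_eq_zero hua hu ?_
    intro y
    have h6 := cu_pr k a u a y
    rw [h3, hau, mul_zero, mul_zero, sub_zero] at h6
    rw [br_comm] at h6
    exact (mul_eq_zero.1 h6).resolve_left hua

variable {V : Type*} [Fintype V] [DecidableEq V]

/-- motions with a load at the edges of `o` -/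
structure LMot {R : Type*} [CommRing R] (p : V → R × R) (E : Finset (Finset V)) (I : Finset V)
    (o : V) (ld : V → R) (w : V → Fin 6 → R) : Prop where
  pin : ∀ v, v ∉ I → w v = 0
  eq : ∀ u v, u ≠ v → ({u, v} : Finset V) ∈ E →
    cu (w u) (p v - p u) (p v - p u) + (if u = o then ld v else 0) =
      ad (w u) (p v - p u) + ad (w v) (p v - p u)

theorem lmot_add {R : Type*} [CommRing R] {p : V → R × R} {E : Finset (Finset V)} {I : Finset V}
    {o : V} {ld ld' : V → R} {w w' : V → Fin 6 → R} (h : LMot p E I o ld w)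
    (h' : LMot p E I o ld' w') : LMot p E I o (ld + ld') (w + w') where
  pin := by
    intro v hv
    rw [Pi.add_apply, h.pin v hv, h'.pin v hv, add_zero]
  eq := by
    intro u v huv he
    have e1 := h.eq u v huv he
    have e2 := h'.eq u v huv he
    simp only [Pi.add_apply, cu_addw, ad_addw]
    by_cases hu : u = o
    · rw [if_pos hu] at e1 e2 ⊢
      linear_combination e1 + e2
    · rw [if_neg hu] at e1 e2 ⊢
      linear_combination e1 + e2

theorem lmot_smul {R : Type*} [CommRing R] {p : V → R × R} {E : Finset (Finset V)}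
    {I : Finset V} {o : V} {ld : V → R} {w : V → Fin 6 → R} (h : LMot p E I o ld w) (s : R) :
    LMot p E I o (s • ld) (s • w) where
  pin := by
    intro v hv
    rw [Pi.smul_apply, h.pin v hv, smul_zero]
  eq := by
    intro u v huv he
    have e1 := h.eq u v huv he
    simp only [Pi.smul_apply, cu_smulw, ad_smulw, smul_eq_mul]
    by_cases hu : u = o
    · rw [if_pos hu] at e1 ⊢
      linear_combination s * e1
    · rw [if_neg hu] at e1 ⊢
      linear_combination s * e1

theorem lmot_zero {R : Type*} [CommRing R] {p : V → R × R} {E : Finset (Finset V)} {I : Finset V}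
    {o : V} {w : V → Fin 6 → R} (h : LMot p E I o 0 w) : NMot p E I w where
  pin := h.pin
  eq := by
    intro u v huv he
    have e1 := h.eq u v huv he
    simpa using e1

/-- loaded motions are unique -/
theorem lmot_unique {R : Type*} [CommRing R] [CharP R 2] {p : V → R × R}
    {E : Finset (Finset V)} {I : Finset V} (hp : NNS p E I) {o : V} {ld : V → R}
    {w w' : V → Fin 6 → R} (h : LMot p E I o ld w) (h' : LMot p E I o ld w') : w = w' := by
  have h1 := lmot_add h h'
  have h2 : ld + ld = 0 := by
    funext v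
    rw [Pi.add_apply, Pi.zero_apply]
    (rw [← sub_eq_zero]; ring_nf; try reduce_mod_char!)
  rw [h2] at h1
  have h3 := hp _ (lmot_zero h1)
  funext v i
  have h4 := congrFun (congrFun h3 v) i
  simp only [Pi.add_apply, Pi.zero_apply] at h4
  linear_combination (norm := (ring_nf; try reduce_mod_char!)) h4

/-- a polynomial identity -/
theorem poly_id {K : Type*} [Field K] [Infinite K] {a0 a1 a2 a3 a4 : K} (S : Finset K)
    (h : ∀ t : K, t ∉ S → a0 + a1 * t + a2 * t ^ 2 + a3 * t ^ 3 + a4 * t ^ 4 = 0) :
    a0 = 0 ∧ a1 = 0 ∧ a2 = 0 ∧ a3 = 0 ∧ a4 = 0 := by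
  have h1 : C a0 + C a1 * X + C a2 * X ^ 2 + C a3 * X ^ 3 + C a4 * X ^ 4 = (0 : K[X]) := by
    apply Polynomial.eq_zero_of_infinite_isRoot
    apply Set.Infinite.mono (s := {t : K | t ∉ S})
    · intro t ht
      simp only [Set.mem_setOf_eq, IsRoot.def, eval_add, eval_mul, eval_C, eval_X, eval_pow]
      exact h t ht
    · exact Set.Finite.infinite_compl S.finite_toSet
  refine ⟨?_, ?_, ?_, ?_, ?_⟩
  · simpa [coeff_X, coeff_C] using congrArg (fun q => q.coeff 0) h1
  · simpa [coeff_X, coeff_C, coeff_X_pow] using congrArg (fun q => q.coeff 1) h1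
  · simpa [coeff_X, coeff_C, coeff_X_pow] using congrArg (fun q => q.coeff 2) h1
  · simpa [coeff_X, coeff_C, coeff_X_pow] using congrArg (fun q => q.coeff 3) h1
  · simpa [coeff_X, coeff_C, coeff_X_pow] using congrArg (fun q => q.coeff 4) h1

end Pool.Agent.Spl2
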