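import Pool.Agent.Spl2.D3A

/-!
# Rule D3, the algebra of the final contradiction: part (C) of `D3.lean`
-/

set_option autoImplicit false

namespace Pool.Agent.Spl2

open Finset Pool.Agent.Spl1 Polynomial

/-- generic points of a line of directions -/
theorem line_dir {K : Type*} [Field K] [CharP K 2] (Y1 Y2 : K × K) (h12 : br Y1 Y2 ≠ 0)
    (S : Finset (K × K)) (hS : ∀ l ∈ S, l ≠ 0) :
    ∃ T : Finset K, ∀ t, t ∉ T → ∀ l ∈ S, br (Y1 + t • Y2) l ≠ 0 := by
  classical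
  refine ⟨S.image (fun l => br Y1 l / br Y2 l), ?_⟩
  intro t ht l hl h0
  rw [br_add_left, br_smul_left] at h0
  by_cases h1 : br Y2 l = 0
  · rw [h1, mul_zero, add_zero] at h0
    apply hS l hl
    have e1 : br Y1 Y2 * l.1 = 0 := by
      simp only [br] at h0 h1 ⊢
      linear_combination (norm := (ring_nf; try reduce_mod_char!)) Y1.1 * h1 + Y2.1 * h0
    have e2 : br Y1 Y2 * l.2 = 0 := by
      simp only [br] at h0 h1 ⊢
      linear_combination (norm := (ring_nf; try reduce_mod_char!)) Y1.2 * h1 + Y2.2 * h0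
    exact Prod.ext ((mul_eq_zero.1 e1).resolve_left h12) ((mul_eq_zero.1 e2).resolve_left h12)
  · apply ht
    rw [mem_image]
    refine ⟨l, hl, ?_⟩
    rw [div_eq_iff h1]
    linear_combination (norm := (ring_nf; try reduce_mod_char!)) h0

theorem D3alg {K : Type*} [Field K] [CharP K 2] [Infinite K]
    (F1 F2 Ps : (Fin 6 → K) →ₗ[K] K) (Y1 Y2 X2 : K × K) (h12 : br Y1 Y2 ≠ 0)
    (S : Finset (K × K)) (hS : ∀ l ∈ S, l ≠ 0) (hY1 : Y1 ∈ S) (hX2 : X2 ∈ S)
    (H : ∀ P W U, (∀ l ∈ S, br P l ≠ 0) → (∀ l ∈ S, br W l ≠ 0) → (∀ l ∈ S, br U l ≠ 0) →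
      br P W ≠ 0 → br P U ≠ 0 → ∃ k : Fin 6 → K, k 4 = 0 ∧ k 5 = 0 ∧ k ≠ 0 ∧ cu k P P = 0 ∧
        cu k W W = 0 ∧ sgm F1 F2 Y1 Y2 W k = 0 ∧
        br P U ^ 2 * br X2 U * Ps k = br X2 U ^ 2 * cu k P U) :
    ∀ k : Fin 6 → K, k 4 = 0 → k 5 = 0 → Ps k = 0 := by
  classical
  have hB := D3B F1 F2 Ps Y1 Y2 X2 S hS hX2 H
  -- two generic `P` for a given `W`
  have twoP : ∀ W : K × K, (∀ l ∈ S, br W l ≠ 0) → ∃ P Q : K × K, (∀ l ∈ S, br P l ≠ 0) ∧
      (∀ l ∈ S, br Q l ≠ 0) ∧ br P W ≠ 0 ∧ br Q W ≠ 0 ∧ br P Q ≠ 0 := by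
    intro W hW
    have hW0 : W ≠ 0 := br_ne_left (hW Y1 hY1)
    obtain ⟨P, hP⟩ := exists_dir (insert W S) (by
      intro l hl
      rw [mem_insert] at hl
      rcases hl with rfl | hl
      · exact hW0
      · exact hS l hl)
    have hP0 : P ≠ 0 := br_ne_left (hP W (mem_insert_self _ _))
    obtain ⟨Q, hQ⟩ := exists_dir (insert P (insert W S)) (by
      intro l hl
      rw [mem_insert, mem_insert] at hl
      rcases hl with rfl | rfl | hl
      · exact hP0
      · exact hW0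
      · exact hS l hl)
    refine ⟨P, Q, fun l hl => hP l (mem_insert_of_mem hl),
      fun l hl => hQ l (mem_insert_of_mem (mem_insert_of_mem hl)), hP W (mem_insert_self _ _),
      hQ W (mem_insert_of_mem (mem_insert_self _ _)), ?_⟩
    rw [br_comm]
    exact hQ P (mem_insert_self _ _)
  -- (C1)
  have C1 : ∀ W : K × K, (∀ l ∈ S, br W l ≠ 0) → ∀ L, sgm F1 F2 Y1 Y2 W (cw L L W) = 0 := by
    intro W hW L
    obtain ⟨P, Q, hP, hQ, hPW, hQW, hPQ⟩ := twoP W hW
    have e := congrArg (sgm F1 F2 Y1 Y2 W) (cw_sq P Q L W)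
    rw [sgm_smul, sgm_add, sgm_smul, sgm_smul, (hB P W hP hW hPW).1, (hB Q W hQ hW hQW).1,
      mul_zero, mul_zero, add_zero] at e
    exact (mul_eq_zero.1 e).resolve_left (pow_ne_zero 2 hPQ)
  obtain ⟨T, hT⟩ := line_dir Y1 Y2 h12 S hS
  -- (C2)
  have C2 : ∀ L, F1 (cw L L Y1) = 0 ∧ F2 (cw L L Y2) = 0 := by
    intro L
    have h := poly_id (a0 := F1 (cw L L Y1)) (a1 := F1 (cw L L Y2) + F2 (cw L L Y1))
      (a2 := F2 (cw L L Y2)) (a3 := 0) (a4 := 0) (insert 0 T) (by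
      intro t ht
      rw [mem_insert, not_or] at ht
      have e1 := C1 (Y1 + t • Y2) (hT t ht.2) L
      have e2 : cw L L (Y1 + t • Y2) = cw L L Y1 + t • cw L L Y2 := by
        funext i
        fin_cases i <;>
        · simp only [cw, Pi.add_apply, Pi.smul_apply, smul_eq_mul, Matrix.cons_val_zero,
            Matrix.cons_val_one, Matrix.cons_val, Fin.zero_eta, Fin.mk_one, Fin.reduceFinMk,
            Prod.fst_add, Prod.snd_add, Prod.smul_fst, Prod.smul_snd]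
          ring
      rw [e2] at e1
      simp only [sgm, map_add, map_smul, smul_eq_mul, cu_addw, cu_smulw, cu_cw, br_add_left,
        br_smul_left, br_self, br_comm Y2 Y1] at e1
      have e3 : br Y1 Y2 ^ 3 * t * (F1 (cw L L Y1) + (F1 (cw L L Y2) + F2 (cw L L Y1)) * t +
          F2 (cw L L Y2) * t ^ 2 + 0 * t ^ 3 + 0 * t ^ 4) = 0 := by
        linear_combination (norm := (ring_nf; try reduce_mod_char!)) e1
      exact (mul_eq_zero.1 e3).resolve_left (mul_ne_zero (pow_ne_zero 3 h12) ht.1))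
    exact ⟨h.1, h.2.2.1⟩
  have hA := (C2 Y1).2
  have hB2 := (C2 Y2).1
  -- (C3)
  have C3 : ∃ T' : Finset K, ∀ t, t ∉ T' → (∀ l ∈ S, br (Y1 + t • Y2) l ≠ 0) ∧
      sgm F1 F2 Y1 Y2 (Y1 + t • Y2) (cw Y1 Y2 (Y1 + t • Y2)) ≠ 0 := by
    have hq0 : C (F1 (cw Y1 Y1 Y2)) + C (br Y1 Y2 ^ 2) * X + C (F2 (cw Y2 Y2 Y1)) * X ^ 2 ≠
        (0 : K[X]) := by
      intro h
      have h1 := congrArg (fun q => q.coeff 1) h
      simp only [coeff_add, coeff_C, coeff_C_mul, coeff_X, coeff_X_pow, coeff_zero] at h1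
      norm_num at h1
      exact h12 h1
    refine ⟨insert 0 (T ∪ (C (F1 (cw Y1 Y1 Y2)) + C (br Y1 Y2 ^ 2) * X +
      C (F2 (cw Y2 Y2 Y1)) * X ^ 2 : K[X]).roots.toFinset), ?_⟩
    intro t ht
    rw [mem_insert, mem_union, not_or, not_or, Multiset.mem_toFinset, mem_roots hq0, IsRoot.def]
      at ht
    simp only [eval_add, eval_mul, eval_C, eval_X, eval_pow] at ht
    obtain ⟨t0, t1, t2⟩ := ht
    refine ⟨hT t t1, ?_⟩
    intro e1
    have e2 : cw Y1 Y2 (Y1 + t • Y2) = cw Y1 Y1 Y2 + t • cw Y2 Y2 Y1 := by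
      funext i
      fin_cases i <;>
      · simp only [cw, Pi.add_apply, Pi.smul_apply, smul_eq_mul, Matrix.cons_val_zero,
          Matrix.cons_val_one, Matrix.cons_val, Fin.zero_eta, Fin.mk_one, Fin.reduceFinMk,
          Prod.fst_add, Prod.snd_add, Prod.smul_fst, Prod.smul_snd]
        ring
    rw [e2] at e1
    simp only [sgm, map_add, map_smul, smul_eq_mul, cu_addw, cu_smulw, cu_cw, br_add_left,
      br_add_right, br_smul_left, br_smul_right, br_self, br_comm Y2 Y1, hA, hB2] at e1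
    apply t2
    have e3 : br Y1 Y2 ^ 3 * t * (F1 (cw Y1 Y1 Y2) + br Y1 Y2 ^ 2 * t +
        F2 (cw Y2 Y2 Y1) * t ^ 2) = 0 := by
      linear_combination (norm := (ring_nf; try reduce_mod_char!)) e1
    exact (mul_eq_zero.1 e3).resolve_left (mul_ne_zero (pow_ne_zero 3 h12) t0)
  obtain ⟨T', hT'⟩ := C3
  -- (C4), (C5)
  have C5 : ∀ t, t ∉ T' → ∀ L, Ps (cw L L (Y1 + t • Y2)) = 0 := by
    intro t ht L
    obtain ⟨hW, hne⟩ := hT' t ht
    obtain ⟨W, hWe⟩ : ∃ W, W = Y1 + t • Y2 := ⟨_, rfl⟩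
    rw [← hWe] at hW hne ⊢
    have C4 : ∀ P, (∀ l ∈ S, br P l ≠ 0) → br P W ≠ 0 → Ps (cw P P W) = 0 := by
      intro P hP hPW
      apply (hB P W hP hW hPW).2
      intro h0
      have e := congrArg (sgm F1 F2 Y1 Y2 W) (cw_pw P W Y1 Y2 W)
      rw [sgm_smul, sgm_add, sgm_add, sgm_smul, sgm_smul, sgm_smul, C1 W hW Y1, C1 W hW Y2, h0,
        mul_zero, mul_zero, mul_zero, add_zero, zero_add] at e
      rcases mul_eq_zero.1 e.symm with e1 | e1
      · exact mul_ne_zero h12 hPW e1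
      · exact hne e1
    obtain ⟨P, Q, hP, hQ, hPW, hQW, hPQ⟩ := twoP W hW
    have e := congrArg Ps (cw_sq P Q L W)
    rw [map_smul, map_add, map_smul, map_smul, C4 P hP hPW, C4 Q hQ hQW, smul_zero, smul_zero,
      add_zero] at e
    exact (smul_eq_zero.1 e).resolve_left (pow_ne_zero 2 hPQ)
  obtain ⟨t1, ht1⟩ := Infinite.exists_notMem_finset T'
  obtain ⟨t2, ht2⟩ := Infinite.exists_notMem_finset (insert t1 T')
  rw [mem_insert, not_or] at ht2
  have C6 : ∀ L M, Ps (cw L L M) = 0 := by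
    intro L M
    have e := congrArg Ps (cw_lin (Y1 + t1 • Y2) (Y1 + t2 • Y2) L M)
    rw [map_smul, map_add, map_smul, map_smul, C5 t1 ht1, C5 t2 ht2.2, smul_zero, smul_zero,
      add_zero] at e
    refine (smul_eq_zero.1 e).resolve_left ?_
    simp only [br_add_left, br_add_right, br_smul_left, br_smul_right, br_self, br_comm Y2 Y1]
    intro h0
    have h1 : (t2 + t1) * br Y1 Y2 = 0 := by linear_combination (norm := (ring_nf; try reduce_mod_char!)) h0
    rcases mul_eq_zero.1 h1 with h2 | h2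
    · apply ht2.1
      linear_combination (norm := (ring_nf; try reduce_mod_char!)) h2
    · exact h12 h2
  intro k h4 h5
  have e : k = k 0 • cw ((0, 1) : K × K) (0, 1) (0, 1) + k 1 • cw ((0, 1) : K × K) (0, 1) (1, 0) +
      k 2 • cw ((1, 0) : K × K) (1, 0) (0, 1) + k 3 • cw ((1, 0) : K × K) (1, 0) (1, 0) := by
    funext i
    fin_cases i
    · simp [cw]
    · simp [cw]
    · simp [cw]
    · simp [cw]
    · simp [cw, h4]
    · simp [cw, h5]
  rw [e]
  simp only [map_add, map_smul, C6, smul_zero, add_zero]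

end Pool.Agent.Spl2
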