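import Pool.Agent.Spl2.Cub

/-!
# Loaded motions exist if the system is square and nonsingular

PAPER PROOF.  `S = {(a, b) : a ≠ b, {a, b} ∈ E, a ∈ I ∨ b ∈ I}`, `|S| = 2 · (number of edges which meet I) = 6 |I|`.
The linear map `(I → Fin 6 → K) → (S → K)`, `w ↦ ((a, b) ↦ cu (w a) d d + ad (w a) d + ad (w b) d)`, `d = q b - q a` (`w` extended
by `0`), is injective (`hq`: the equations of the pairs outside `I` hold anyway), so it is surjective
(`LinearMap.injective_iff_surjective_of_finrank_eq_finrank`).
-/

set_option autoImplicit false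

namespace Pool.Agent.Spl2

open Finset Pool.Agent.Spl1

variable {V : Type*} [Fintype V] [DecidableEq V]

/-- the ordered edges which meet `I` -/
private def su_S (E : Finset (Finset V)) (I : Finset V) : Finset (V × V) :=
  univ.filter (fun p => p.1 ≠ p.2 ∧ ({p.1, p.2} : Finset V) ∈ E ∧ (p.1 ∈ I ∨ p.2 ∈ I))

private theorem su_mem {E : Finset (Finset V)} {I : Finset V} {p : V × V} :
    p ∈ su_S E I ↔ p.1 ≠ p.2 ∧ ({p.1, p.2} : Finset V) ∈ E ∧ (p.1 ∈ I ∨ p.2 ∈ I) := by
  simp [su_S]

private theorem su_card {E : Finset (Finset V)} {I : Finset V} (two : ∀ e ∈ E, e.card = 2) :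
    (su_S E I).card = 2 * (E.filter (fun e => ∃ b ∈ e, b ∈ I)).card := by
  rw [card_eq_sum_card_fiberwise (f := fun p : V × V => ({p.1, p.2} : Finset V))
    (t := E.filter (fun e => ∃ b ∈ e, b ∈ I)), mul_comm]
  · rw [← smul_eq_mul, ← sum_const]
    refine sum_congr rfl fun e he => ?_
    rw [mem_filter] at he
    obtain ⟨heE, b, hbe, hbI⟩ := he
    obtain ⟨x, y, hxy, rfl⟩ := card_eq_two.1 (two e heE)
    have hxyI : x ∈ I ∨ y ∈ I := by
      simp only [mem_insert, mem_singleton] at hbe
      rcases hbe with rfl | rfl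
      · exact Or.inl hbI
      · exact Or.inr hbI
    have h1 : (su_S E I).filter (fun p => ({p.1, p.2} : Finset V) = {x, y}) =
        {(x, y), (y, x)} := by
      ext ⟨a, b⟩
      rw [mem_filter, su_mem]
      simp only [mem_insert, mem_singleton, Prod.mk.injEq]
      constructor
      · rintro ⟨⟨hab, -, -⟩, h2⟩
        have ha : a ∈ ({x, y} : Finset V) := by
          rw [← h2]
          simp
        have hb : b ∈ ({x, y} : Finset V) := by
          rw [← h2]
          simp
        simp only [mem_insert, mem_singleton] at ha hb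
        rcases ha with rfl | rfl
        · rcases hb with rfl | rfl
          · exact absurd rfl hab
          · exact Or.inl ⟨rfl, rfl⟩
        · rcases hb with rfl | rfl
          · exact Or.inr ⟨rfl, rfl⟩
          · exact absurd rfl hab
      · rintro (⟨rfl, rfl⟩ | ⟨rfl, rfl⟩)
        · exact ⟨⟨hxy, heE, hxyI⟩, rfl⟩
        · exact ⟨⟨hxy.symm, by rwa [pair_comm], hxyI.symm⟩, pair_comm _ _⟩
    rw [h1, card_pair]
    intro h2
    exact hxy (congrArg Prod.fst h2)
  · intro p hp
    rw [mem_coe, su_mem] at hp
    rw [mem_coe, mem_filter]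
    refine ⟨hp.2.1, ?_⟩
    rcases hp.2.2 with h | h
    · exact ⟨p.1, by simp, h⟩
    · exact ⟨p.2, by simp, h⟩

/-- extension by `0` -/
private def su_ext {K : Type*} [Field K] (I : Finset V) (w : I → Fin 6 → K) (v : V) : Fin 6 → K :=
  if h : v ∈ I then w ⟨v, h⟩ else 0

private theorem su_ext_add {K : Type*} [Field K] (I : Finset V) (w w' : I → Fin 6 → K) (v : V) :
    su_ext I (w + w') v = su_ext I w v + su_ext I w' v := by
  unfold su_ext
  by_cases h : v ∈ I
  · simp [h]
  · simp [h]

private theorem su_ext_smul {K : Type*} [Field K] (I : Finset V) (s : K) (w : I → Fin 6 → K)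
    (v : V) : su_ext I (s • w) v = s • su_ext I w v := by
  unfold su_ext
  by_cases h : v ∈ I
  · simp [h]
  · simp [h]

/-- the system -/
private def su_map {K : Type*} [Field K] (q : V → K × K) (E : Finset (Finset V))
    (I : Finset V) : (I → Fin 6 → K) →ₗ[K] (su_S E I → K) where
  toFun w := fun s => cu (su_ext I w s.1.1) (q s.1.2 - q s.1.1) (q s.1.2 - q s.1.1) +
    ad (su_ext I w s.1.1) (q s.1.2 - q s.1.1) + ad (su_ext I w s.1.2) (q s.1.2 - q s.1.1)
  map_add' w w' := by
    funext s
    simp only [su_ext_add, cu_addw, ad_addw, Pi.add_apply]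
    ring
  map_smul' c w := by
    funext s
    simp only [su_ext_smul, cu_smulw, ad_smulw, Pi.smul_apply, smul_eq_mul, RingHom.id_apply]
    ring

theorem lmot_exists {K : Type*} [Field K] [CharP K 2] {q : V → K × K} {E : Finset (Finset V)}
    {I : Finset V} (hq : NNS q E I) (two : ∀ e ∈ E, e.card = 2)
    (sq : (E.filter (fun e => ∃ b ∈ e, b ∈ I)).card = 3 * I.card) (o : V) (ld : V → K)
    (hld : o ∉ I → ∀ b, b ∉ I → ld b = 0) : ∃ w : V → Fin 6 → K, LMot q E I o ld w := by
  have hinj : Function.Injective (su_map q E I) := by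
    rw [← LinearMap.ker_eq_bot, LinearMap.ker_eq_bot']
    intro w hw
    have hmot : NMot q E I (su_ext I w) := by
      refine ⟨fun v hv => ?_, fun u v huv he => ?_⟩
      · unfold su_ext
        rw [dif_neg hv]
      · by_cases hm : u ∈ I ∨ v ∈ I
        · have h1 := congrFun hw ⟨(u, v), su_mem.2 ⟨huv, he, hm⟩⟩
          have h2 : cu (su_ext I w u) (q v - q u) (q v - q u) +
            ad (su_ext I w u) (q v - q u) + ad (su_ext I w v) (q v - q u) = 0 := h1
          have h3 := c2_neg (ad (su_ext I w u) (q v - q u) + ad (su_ext I w v) (q v - q u))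
          linear_combination h2 + h3
        · push Not at hm
          have h1 : su_ext I w u = 0 := by
            unfold su_ext
            rw [dif_neg hm.1]
          have h2 : su_ext I w v = 0 := by
            unfold su_ext
            rw [dif_neg hm.2]
          rw [h1, h2, cu_zero, ad_zero, add_zero]
    have h0 := hq _ hmot
    funext v
    have h1 := congrFun h0 v.1
    unfold su_ext at h1
    rw [dif_pos v.2] at h1
    exact h1
  have hrank : Module.finrank K (I → Fin 6 → K) = Module.finrank K (su_S E I → K) := by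
    rw [Module.finrank_pi, Module.finrank_pi_fintype]
    simp only [Module.finrank_fin_fun, sum_const, card_univ, Fintype.card_coe, smul_eq_mul]
    rw [su_card two, sq]
    ring
  have hsurj := (LinearMap.injective_iff_surjective_of_finrank_eq_finrank hrank).1 hinj
  obtain ⟨w, hw⟩ := hsurj (fun s => if s.1.1 = o then ld s.1.2 else 0)
  refine ⟨su_ext I w, fun v hv => ?_, fun u v huv he => ?_⟩
  · unfold su_ext
    rw [dif_neg hv]
  · by_cases hm : u ∈ I ∨ v ∈ I
    · have h1 := congrFun hw ⟨(u, v), su_mem.2 ⟨huv, he, hm⟩⟩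
      have h2 : cu (su_ext I w u) (q v - q u) (q v - q u) +
        ad (su_ext I w u) (q v - q u) + ad (su_ext I w v) (q v - q u) =
          if u = o then ld v else 0 := h1
      have h3 := c2_neg (ad (su_ext I w u) (q v - q u) + ad (su_ext I w v) (q v - q u))
      have h4 := c2_neg (if u = o then ld v else 0)
      linear_combination h2 + h3 - h4
    · push Not at hm
      have h1 : su_ext I w u = 0 := by
        unfold su_ext
        rw [dif_neg hm.1]
      have h2 : su_ext I w v = 0 := by
        unfold su_ext
        rw [dif_neg hm.2]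
      rw [h1, h2, cu_zero, ad_zero, add_zero, zero_add]
      by_cases huo : u = o
      · rw [if_pos huo]
        subst huo
        exact hld hm.1 v hm.2
      · rw [if_neg huo]

end Pool.Agent.Spl2
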