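import Pool.Agent.Spl2.D3L
import Pool.Agent.Spl2.D3C
import Pool.Agent.Spl2.Surj

/-!
# Rule D3

PAPER PROOF.  Suppose `¬ NG E I`.  Fix generic positions `q` for `E'` (`ng_generic`).  By `lmot_exists` (with `D.sq`) and
`lmot_unique` every cubic form `κ` has exactly one loaded motion `R κ`, `LMot q E' I' o (ldD q o x2 y2 n κ) (R κ)`, and `R` is
linear in `κ` (`lmot_add`, `lmot_smul`).  Write `ya = q a - q o` for the direction of the vertex `a` and (all `κ`)
* `Co, Cy1, …` for the cubic forms of `R κ`;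
* `φ1 κ`: `∂_e (Co + Cy1)(y1) = [e,y1] φ1 κ` (all `e`), since `Co(y1) = Cy1(y1)` (edge `o y1`, no load);
* `φ2 κ`: `∂_e (Co + κ + Cy2)(y2) = [e,y2] φ2 κ`, since `(Co + κ)(y2) = Cy2(y2)`;
* `ψ κ`: `∂_e (Co + κ + Cx2)(x2) = [e,x2] ψ κ`, since `(Co + κ)(x2) = Cx2(x2)`.
These are linear in `κ`.

(A) `D3lim` in terms of these: for `κ = [·,P][·,W] λ` (a cubic form with the zeros `P`, `W`)
(Σ) with `cu_pl` for `Co`: `[W,y2]² ∂_W(Co + Cy1)(y1) + [W,y1]² ∂_W(Co + Cy2)(y2) = 0`, and for `κ = [·,W] Q`,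
`∂_W κ(y2) = [y2,W] B_Q(y2,W)`: (after division by `[W,y1][W,y2]`)
`S_W(κ) := [W,y2] φ1(κ) + [W,y1] φ2(κ) + [W,y1] B_Q(W,y2) = 0`;
(f) with `cu_pl` for `Co` and `κ`: `[P,U]² ∂_U(Co + κ + Cx2)(x2) = [x2,U]² ∂_U κ(P)`, i.e. (division by `[x2,U][P,U]`)
`[P,U] ψ(κ) + [x2,U] [P,W] λ(P) = 0`.
(B) Fix `P, W`.  If `S_W` does not vanish on the plane of the cubic forms with zeros `P, W`, its kernel is a line, and for two different
`U` we get the same `κ = [·,P][·,W] λ` (up to a factor), so `P ψ(κ) + x2 [P,W] λ(P) = 0`: `ψ(κ) = 0`, `λ(P) = 0`, `κ ~ [·,P]² [·,W]`.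
So in all cases `S_W([·,P]² [·,W]) = 0`, and `ψ([·,P]² [·,W]) = 0` if `S_W` does not vanish on this plane.
(C) So `S_W(Q [·,W]) = 0` for all additive `Q = a X² + b Y²` and all `W` (finitely many directions excluded).  With `x = [·,y2]`,
`y = [·,y1]`, `W = α y1 + β y2`, `[·,W] = α y + β x`: the coefficient of `α²` of `S_W(x² [·,W])` gives `φ1(x² y) = 0`, the coefficient
of `β²` of `S_W(y² [·,W])` gives `φ2(x y²) = 0`; and the coefficient of `α β` of `S_W(x y [·,W])` is (up to a factor `[y1,y2]`)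
`φ1(x² y) + φ2(x y²) + [y1,y2]² = [y1,y2]² ≠ 0`: so `S_W(x y [·,W]) ≠ 0` for almost all `W`, so for almost all `W` the functional `S_W` does
not vanish on any plane of (B): `ψ([·,P]² [·,W]) = 0` for almost all `P`, `W`, so `ψ = 0`.
(D) But `κ = [·,x2][·,y2][·,n]` has load `0`, `R κ = 0`, and `ψ(κ) = [x2,y2][x2,n] ≠ 0` (up to sign): contradiction.
-/

set_option autoImplicit false

namespace Pool.Agent.Spl2

open Finset Pool.Agent.Spl1 Polynomial

variable {V : Type*} [Fintype V] [DecidableEq V]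

theorem ldD_add {K : Type*} [Field K] (q : V → K × K) (o x2 y2 n : V) (k k' : Fin 6 → K) :
    ldD q o x2 y2 n (k + k') = ldD q o x2 y2 n k + ldD q o x2 y2 n k' := by
  funext b
  simp only [ldD, Pi.add_apply]
  split_ifs
  · rw [cu_addw]
  · rw [add_zero]

theorem ldD_smul {K : Type*} [Field K] (q : V → K × K) (o x2 y2 n : V) (s : K) (k : Fin 6 → K) :
    ldD q o x2 y2 n (s • k) = s • ldD q o x2 y2 n k := by
  funext b
  simp only [ldD, Pi.smul_apply, smul_eq_mul]
  split_ifs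
  · rw [cu_smulw]
  · rw [mul_zero]

/-- the response to a load is linear -/
theorem resp {K : Type*} [Field K] [CharP K 2] {q : V → K × K} {E : Finset (Finset V)}
    {I : Finset V} (hq : NNS q E I) {o x2 y2 n : V}
    (hex : ∀ k : Fin 6 → K, ∃ ω, LMot q E I o (ldD q o x2 y2 n k) ω) :
    ∃ R : (Fin 6 → K) →ₗ[K] (V → Fin 6 → K), ∀ k, LMot q E I o (ldD q o x2 y2 n k) (R k) := by
  choose R hR using hex
  refine ⟨{ toFun := R, map_add' := ?_, map_smul' := ?_ }, hR⟩
  · intro k k'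
    have h1 := lmot_add (hR k) (hR k')
    rw [← ldD_add] at h1
    exact lmot_unique hq (hR (k + k')) h1
  · intro s k
    have h1 := lmot_smul (hR k) s
    rw [← ldD_smul] at h1
    exact lmot_unique hq (hR (s • k)) h1

/-- `cu` of a linear image, as a linear map -/
theorem cu_lin {K : Type*} [Field K] (L : (Fin 6 → K) →ₗ[K] (Fin 6 → K)) (x y : K × K) (c : K) :
    ∃ F : (Fin 6 → K) →ₗ[K] K, ∀ k, F k = cu (L k) x y / c := by
  refine ⟨{ toFun := fun k => cu (L k) x y / c, map_add' := ?_, map_smul' := ?_ }, fun k => rfl⟩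
  · intro k k'
    rw [map_add, cu_addw, add_div]
  · intro s k
    rw [map_smul, cu_smulw, mul_div_assoc]
    rfl

theorem cu_lin0 {K : Type*} [Field K] [CharP K 2] {w : Fin 6 → K} {A B : K × K}
    (hAB : br A B ≠ 0) (hA : cu w A A = 0) (e : K × K) :
    cu w A e = br A e * (cu w A B / br A B) := by
  have h1 := cu_pr w A B A e
  rw [hA, mul_zero, zero_sub, c2_neg, br_comm e A] at h1
  rw [mul_div_assoc', eq_div_iff hAB]
  linear_combination h1

theorem D3 {E E' : Finset (Finset V)} {I : Finset V} {o p v w x1 x2 y1 y2 n : V}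
    (D : D3Data E E' I o p v w x1 x2 y1 y2 n)
    (h : NG E' (((I.erase p).erase v).erase w)) : NG E I := by
  classical
  by_contra hn
  obtain ⟨K, i1, i2, i3, q, hq, hgp⟩ := ng_generic h
  -- the response
  have hld : ∀ k : Fin 6 → K, o ∉ ((I.erase p).erase v).erase w →
      ∀ b, b ∉ ((I.erase p).erase v).erase w → ldD q o x2 y2 n k b = 0 := by
    intro k ho b hb
    have ho2 : o ∉ I := by
      intro hoI
      apply ho
      rw [mem_erase, mem_erase, mem_erase]
      exact ⟨D.ow, D.ov, D.op, hoI⟩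
    rcases D.meet with h1 | ⟨h1, h2, h3⟩
    · exact absurd h1 ho2
    · rw [ldD, if_neg]
      rintro (rfl | rfl | rfl)
      · exact hb (by rw [mem_erase, mem_erase, mem_erase]; exact ⟨D.wx2.symm, D.vx2.symm, D.px2.symm, h1⟩)
      · exact hb (by rw [mem_erase, mem_erase, mem_erase]; exact ⟨D.wy2.symm, D.vy2.symm, D.py2.symm, h2⟩)
      · exact hb (by rw [mem_erase, mem_erase, mem_erase]; exact ⟨D.wn.symm, D.vn.symm, D.pn.symm, h3⟩)
  obtain ⟨R, hR⟩ := resp hq (o := o) (x2 := x2) (y2 := y2) (n := n)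
    (fun k => lmot_exists hq D.two D.sq o _ (hld k))
  obtain ⟨Y1, hY1⟩ : ∃ Y1, Y1 = q y1 - q o := ⟨_, rfl⟩
  obtain ⟨Y2, hY2⟩ : ∃ Y2, Y2 = q y2 - q o := ⟨_, rfl⟩
  obtain ⟨X2, hX2⟩ : ∃ X2, X2 = q x2 - q o := ⟨_, rfl⟩
  obtain ⟨N, hN⟩ : ∃ N, N = q n - q o := ⟨_, rfl⟩
  have b12 : br Y1 Y2 ≠ 0 := by rw [hY1, hY2]; exact hgp o y1 y2 D.oy1 D.y12 D.oy2
  have bxy : br X2 Y2 ≠ 0 := by rw [hX2, hY2]; exact hgp o x2 y2 D.ox2 D.x2y2 D.oy2
  have bxn : br X2 N ≠ 0 := by rw [hX2, hN]; exact hgp o x2 n D.ox2 D.x2n D.on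
  -- the functionals
  obtain ⟨F1, hF1⟩ := cu_lin ((LinearMap.proj o ∘ₗ R) + (LinearMap.proj y1 ∘ₗ R)) Y1 Y2 (br Y1 Y2)
  obtain ⟨F2, hF2⟩ := cu_lin ((LinearMap.proj o ∘ₗ R) + LinearMap.id + (LinearMap.proj y2 ∘ₗ R))
    Y2 Y1 (br Y2 Y1)
  obtain ⟨Ps, hPs⟩ := cu_lin ((LinearMap.proj o ∘ₗ R) + LinearMap.id + (LinearMap.proj x2 ∘ₗ R))
    X2 Y2 (br X2 Y2)
  simp only [LinearMap.add_apply, LinearMap.comp_apply, LinearMap.proj_apply,
    LinearMap.id_apply] at hF1 hF2 hPs
  -- the edges of `E'` at `o`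
  have heo : ∀ b, b ≠ o → ({o, b} : Finset V) ∈ E' → ∀ k,
      cu (R k o) (q b - q o) (q b - q o) + ldD q o x2 y2 n k b =
        ad (R k o) (q b - q o) + ad (R k b) (q b - q o) ∧
      cu (R k b) (q b - q o) (q b - q o) =
        ad (R k b) (q b - q o) + ad (R k o) (q b - q o) := by
    intro b hb he k
    have e1 := (hR k).eq o b hb.symm he
    have e2 := (hR k).eq b o hb (by rw [Finset.pair_comm]; exact he)
    rw [if_pos rfl] at e1
    rw [if_neg hb, add_zero, c2_sub_pair] at e2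
    exact ⟨e1, e2⟩
  have e1 : ({o, y1} : Finset V) ∈ E' := (D.hE' o y1 D.oy1).2
    (Or.inl ⟨D.eoy1, D.op, D.ov, D.ow, D.py1.symm, D.vy1.symm, D.wy1.symm⟩)
  have e2 : ({o, y2} : Finset V) ∈ E' := (D.hE' o y2 D.oy2).2
    (Or.inr (Or.inl ⟨rfl, Or.inr (Or.inl rfl)⟩))
  have e3 : ({o, x2} : Finset V) ∈ E' := (D.hE' o x2 D.ox2).2
    (Or.inr (Or.inl ⟨rfl, Or.inl rfl⟩))
  -- `y1` carries no load
  have ny : ¬ (y1 = x2 ∨ y1 = y2 ∨ y1 = n) := by
    rintro (h1 | h1 | h1)
    · exact D.nox2 (h1 ▸ D.eoy1)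
    · exact D.y12 h1
    · exact D.non (h1 ▸ D.eoy1)
  have z1 : ∀ k, cu (R k o + R k y1) Y1 Y1 = 0 := by
    intro k
    obtain ⟨h1, h2⟩ := heo y1 D.oy1.symm e1 k
    rw [ldD, if_neg ny, ← hY1] at h1
    rw [← hY1] at h2
    rw [cu_addw]
    linear_combination (norm := (ring_nf; try reduce_mod_char!)) h1 + h2
  have z2 : ∀ k, cu (R k o + k + R k y2) Y2 Y2 = 0 := by
    intro k
    obtain ⟨h1, h2⟩ := heo y2 D.oy2.symm e2 k
    rw [ldD, if_pos (Or.inr (Or.inl rfl)), ← hY2] at h1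
    rw [← hY2] at h2
    rw [cu_addw, cu_addw]
    linear_combination (norm := (ring_nf; try reduce_mod_char!)) h1 + h2
  have z3 : ∀ k, cu (R k o + k + R k x2) X2 X2 = 0 := by
    intro k
    obtain ⟨h1, h2⟩ := heo x2 D.ox2.symm e3 k
    rw [ldD, if_pos (Or.inl rfl), ← hX2] at h1
    rw [← hX2] at h2
    rw [cu_addw, cu_addw]
    linear_combination (norm := (ring_nf; try reduce_mod_char!)) h1 + h2
  have g1 : ∀ k e, cu (R k o + R k y1) Y1 e = br Y1 e * F1 k := by
    intro k e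
    rw [hF1]
    exact cu_lin0 b12 (z1 k) e
  have g2 : ∀ k e, cu (R k o + k + R k y2) Y2 e = br Y2 e * F2 k := by
    intro k e
    rw [hF2]
    exact cu_lin0 (by rw [br_comm]; exact b12) (z2 k) e
  have g3 : ∀ k e, cu (R k o + k + R k x2) X2 e = br X2 e * Ps k := by
    intro k e
    rw [hPs]
    exact cu_lin0 bxy (z3 k) e
  -- the contradiction
  have hS : ∀ l ∈ ({x1, x2, y1, y2, n} : Finset V).image (fun b => q b - q o), l ≠ 0 := by
    intro l hl
    simp only [mem_image, mem_insert, mem_singleton] at hl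
    obtain ⟨b, hb, rfl⟩ := hl
    have hob : o ≠ b := by
      rcases hb with rfl | rfl | rfl | rfl | rfl
      · exact D.ox1
      · exact D.ox2
      · exact D.oy1
      · exact D.oy2
      · exact D.on
    exact br_ne_left (hgp o b p hob (by
      rcases hb with rfl | rfl | rfl | rfl | rfl
      · exact D.px1.symm
      · exact D.px2.symm
      · exact D.py1.symm
      · exact D.py2.symm
      · exact D.pn.symm) D.op)
  have key := D3alg F1 F2 Ps Y1 Y2 X2 b12
    (({x1, x2, y1, y2, n} : Finset V).image (fun b => q b - q o)) hS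
    (by rw [hY1]; exact mem_image_of_mem _ (by simp)) (by rw [hX2]; exact mem_image_of_mem _ (by simp))
    (by
      intro P W U hP hW hU hPW hPU
      obtain ⟨k, ω, k0, k1, k2, k3, k4, k5⟩ := D3lim D hn q hq hgp P W U hPU
        (fun b hb => hP _ (mem_image_of_mem _ hb)) (fun b hb => hW _ (mem_image_of_mem _ hb))
        (fun b hb => hU _ (mem_image_of_mem _ hb)) hPW
      obtain ⟨k', hk'⟩ : ∃ k' : Fin 6 → K, k' = ![k 0, k 1, k 2, k 3, 0, 0] := ⟨_, rfl⟩
      have hcu : ∀ x y, cu k' x y = cu k x y := by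
        intro x y
        rw [hk']
        simp [cu]
      have hω : ω = R k' := by
        apply lmot_unique hq k3
        have h1 := hR k'
        have h2 : ldD q o x2 y2 n k' = ldD q o x2 y2 n k := by
          funext b
          simp only [ldD, hcu]
        rwa [h2] at h1
      rw [hω, ← hY1, ← hY2] at k4
      rw [hω, ← hX2] at k5
      simp only [← hcu] at k1 k2 k5
      refine ⟨k', by rw [hk']; rfl, by rw [hk']; rfl, ?_, k1, k2, ?_, ?_⟩
      · intro h0
        apply k0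
        rw [hk'] at h0
        exact ⟨congrFun h0 0, congrFun h0 1, congrFun h0 2, congrFun h0 3⟩
      · have a1 := g1 k' W
        have a2 := g2 k' W
        have a3 := cu_pl (R k' o) Y1 Y2 W W
        rw [cu_addw] at a1
        rw [cu_addw, cu_addw] at a2
        rw [br_comm Y1 W] at a1
        rw [br_comm Y2 W] at a2 k4
        simp only [sgm]
        linear_combination (norm := (ring_nf; try reduce_mod_char!)) k4 + a3 + br W Y2 ^ 2 * a1 + br W Y1 ^ 2 * a2
      · have a1 := g3 k' U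
        have a3 := cu_pl (R k' o) P U X2 U
        have a4 := cu_pl k' P U X2 U
        rw [cu_addw, cu_addw] at a1
        linear_combination (norm := (ring_nf; try reduce_mod_char!)) k5 + a3 + a4 + br P U ^ 2 * a1)
  have hk := key (cw X2 Y2 N) (cw_four _ _ _).1 (cw_four _ _ _).2
  have hld0 : ldD q o x2 y2 n (cw X2 Y2 N) = 0 := by
    funext b
    rw [ldD, Pi.zero_apply]
    split_ifs with hb
    · rw [cu_cw_self]
      rcases hb with rfl | rfl | rfl
      · rw [← hX2, br_self, zero_mul, zero_mul]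
      · rw [← hY2, br_self, mul_zero, zero_mul]
      · rw [← hN, br_self, mul_zero]
    · rfl
  have hR0 : R (cw X2 Y2 N) = 0 := by
    apply hq
    have h1 := hR (cw X2 Y2 N)
    rw [hld0] at h1
    exact lmot_zero h1
  have h1 := g3 (cw X2 Y2 N) Y2
  rw [hR0, hk, mul_zero, Pi.zero_apply, Pi.zero_apply, zero_add, add_zero, cu_cw, br_self, br_self]
    at h1
  simp only [zero_mul, mul_zero, add_zero] at h1
  rcases mul_eq_zero.1 h1 with h2 | h2
  · rcases mul_eq_zero.1 h2 with h3 | h3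
    · exact bxy (by rw [br_comm]; exact h3)
    · exact bxy h3
  · exact bxn h2

end Pool.Agent.Spl2
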