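import Pool.Agent.Spl2.Cub

/-!
# Rule D3, the algebra of the final contradiction (parts (B) and (C) of `D3.lean`)
-/

set_option autoImplicit false

namespace Pool.Agent.Spl2

open Finset Pool.Agent.Spl1 Polynomial

theorem cw_four {R : Type*} [CommRing R] (a b c : R × R) : cw a b c 4 = 0 ∧ cw a b c 5 = 0 := by
  simp [cw]

/-- a cubic form with the zeros `P`, `W` -/
theorem cub_two {K : Type*} [Field K] [CharP K 2] {k : Fin 6 → K} {P W : K × K}
    (hPW : br P W ≠ 0) (h4 : k 4 = 0) (h5 : k 5 = 0) (hP : cu k P P = 0) (hW : cu k W W = 0) :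
    br P W ^ 3 • k = cu k W P • cw P P W + cu k P W • cw P W W := by
  obtain ⟨j, hj⟩ : ∃ j, j = br P W ^ 3 • k + (cu k W P • cw P P W + cu k P W • cw P W W) :=
    ⟨_, rfl⟩
  have hj0 : j 0 = 0 ∧ j 1 = 0 ∧ j 2 = 0 ∧ j 3 = 0 := by
    refine cu_eq_zero hPW ?_ ?_
    · intro y
      rw [hj]
      simp only [cu_addw, cu_smulw, cu_cw]
      have h1 := cu_pr k P W P y
      rw [hP, mul_zero] at h1
      rw [br_self]
      linear_combination (norm := (ring_nf; try reduce_mod_char!)) (br P W ^ 2) * h1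
    · intro y
      rw [hj]
      simp only [cu_addw, cu_smulw, cu_cw]
      have h1 := cu_pr k P W W y
      rw [hW, mul_zero] at h1
      rw [br_self, br_comm W P]
      linear_combination (norm := (ring_nf; try reduce_mod_char!)) (br P W ^ 2) * h1
  have h6 : j 4 = 0 := by
    rw [hj]
    simp [h4, (cw_four P P W).1, (cw_four P W W).1]
  have h7 : j 5 = 0 := by
    rw [hj]
    simp [h5, (cw_four P P W).2, (cw_four P W W).2]
  have h8 : j = 0 := by
    funext i
    fin_cases i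
    · exact hj0.1
    · exact hj0.2.1
    · exact hj0.2.2.1
    · exact hj0.2.2.2
    · exact h6
    · exact h7
  rw [h8] at hj
  funext i
  have h9 := congrFun hj i
  simp only [Pi.add_apply, Pi.smul_apply, Pi.zero_apply, smul_eq_mul] at h9 ⊢
  linear_combination (norm := (ring_nf; try reduce_mod_char!)) h9

/-- `[·,L]²` in terms of `[·,P]²` and `[·,Q]²` -/
theorem cw_sq {K : Type*} [Field K] [CharP K 2] (P Q L M : K × K) :
    br P Q ^ 2 • cw L L M = br L Q ^ 2 • cw P P M + br L P ^ 2 • cw Q Q M := by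
  funext i
  fin_cases i <;>
  · simp only [cw, br, Pi.add_apply, Pi.smul_apply, smul_eq_mul, Matrix.cons_val_zero,
      Matrix.cons_val_one, Matrix.cons_val, Fin.zero_eta, Fin.mk_one, Fin.reduceFinMk]
    (rw [← sub_eq_zero]; ring_nf; try reduce_mod_char!)

theorem cw_lin {K : Type*} [Field K] [CharP K 2] (P Q L M : K × K) :
    br P Q • cw L L M = br M Q • cw L L P + br M P • cw L L Q := by
  funext i
  fin_cases i <;>
  · simp only [cw, br, Pi.add_apply, Pi.smul_apply, smul_eq_mul, Matrix.cons_val_zero,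
      Matrix.cons_val_one, Matrix.cons_val, Fin.zero_eta, Fin.mk_one, Fin.reduceFinMk]
    (rw [← sub_eq_zero]; ring_nf; try reduce_mod_char!)

/-- `[·,P][·,W]` in terms of `[·,Y1]²`, `[·,Y2]²` and `[·,Y1][·,Y2]` -/
theorem cw_pw {K : Type*} [Field K] [CharP K 2] (P W Y1 Y2 M : K × K) :
    br Y1 Y2 ^ 2 • cw P W M = (br P Y2 * br W Y2) • cw Y1 Y1 M + (br P Y1 * br W Y1) • cw Y2 Y2 M +
      (br Y1 Y2 * br P W) • cw Y1 Y2 M := by
  funext i
  fin_cases i <;>
  · simp only [cw, br, Pi.add_apply, Pi.smul_apply, smul_eq_mul, Matrix.cons_val_zero,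
      Matrix.cons_val_one, Matrix.cons_val, Fin.zero_eta, Fin.mk_one, Fin.reduceFinMk]
    (rw [← sub_eq_zero]; ring_nf; try reduce_mod_char!)

/-- the functional of (Σ) -/
def sgm {K : Type*} [Field K] (F1 F2 : (Fin 6 → K) →ₗ[K] K) (Y1 Y2 W : K × K) (k : Fin 6 → K) : K :=
  br W Y2 ^ 2 * br W Y1 * F1 k + br W Y1 ^ 2 * (br W Y2 * F2 k + cu k Y2 W)

theorem sgm_add {K : Type*} [Field K] (F1 F2 : (Fin 6 → K) →ₗ[K] K) (Y1 Y2 W : K × K)
    (k k' : Fin 6 → K) : sgm F1 F2 Y1 Y2 W (k + k') = sgm F1 F2 Y1 Y2 W k + sgm F1 F2 Y1 Y2 W k' := by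
  simp only [sgm, map_add, cu_addw]
  ring

theorem sgm_smul {K : Type*} [Field K] (F1 F2 : (Fin 6 → K) →ₗ[K] K) (Y1 Y2 W : K × K)
    (s : K) (k : Fin 6 → K) : sgm F1 F2 Y1 Y2 W (s • k) = s * sgm F1 F2 Y1 Y2 W k := by
  simp only [sgm, map_smul, cu_smulw, smul_eq_mul]
  ring

/-- part (B) -/
theorem D3B {K : Type*} [Field K] [CharP K 2] [Infinite K]
    (F1 F2 Ps : (Fin 6 → K) →ₗ[K] K) (Y1 Y2 X2 : K × K) (S : Finset (K × K))
    (hS : ∀ l ∈ S, l ≠ 0) (hX2 : X2 ∈ S)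
    (H : ∀ P W U, (∀ l ∈ S, br P l ≠ 0) → (∀ l ∈ S, br W l ≠ 0) → (∀ l ∈ S, br U l ≠ 0) →
      br P W ≠ 0 → br P U ≠ 0 → ∃ k : Fin 6 → K, k 4 = 0 ∧ k 5 = 0 ∧ k ≠ 0 ∧ cu k P P = 0 ∧
        cu k W W = 0 ∧ sgm F1 F2 Y1 Y2 W k = 0 ∧
        br P U ^ 2 * br X2 U * Ps k = br X2 U ^ 2 * cu k P U) (P W : K × K)
    (hP : ∀ l ∈ S, br P l ≠ 0) (hW : ∀ l ∈ S, br W l ≠ 0) (hPW : br P W ≠ 0) :
    sgm F1 F2 Y1 Y2 W (cw P P W) = 0 ∧
      (sgm F1 F2 Y1 Y2 W (cw P W W) ≠ 0 → Ps (cw P P W) = 0) := by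
  classical
  have hP0 : P ≠ 0 := br_ne_left hPW
  -- what we get for one `U`
  have one : ∀ U, (∀ l ∈ S, br U l ≠ 0) → br P U ≠ 0 → ∃ a b : K, ¬ (a = 0 ∧ b = 0) ∧
      a * sgm F1 F2 Y1 Y2 W (cw P P W) + b * sgm F1 F2 Y1 Y2 W (cw P W W) = 0 ∧
      br P U * (a * Ps (cw P P W) + b * Ps (cw P W W)) = br X2 U * b * br P W ^ 2 := by
    intro U hU hPU
    obtain ⟨k, h4, h5, h0, k1, k2, k3, k5⟩ := H P W U hP hW hU hPW hPU
    have e := cub_two hPW h4 h5 k1 k2
    refine ⟨cu k W P, cu k P W, ?_, ?_, ?_⟩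
    · rintro ⟨e1, e2⟩
      rw [e1, e2, zero_smul, zero_smul, add_zero] at e
      exact h0 ((smul_eq_zero.1 e).resolve_left (pow_ne_zero 3 hPW))
    · have e3 := congrArg (sgm F1 F2 Y1 Y2 W) e
      rw [sgm_smul, sgm_add, sgm_smul, sgm_smul, k3, mul_zero] at e3
      exact e3.symm
    · have e3 := congrArg Ps e
      rw [map_smul, map_add, map_smul, map_smul, smul_eq_mul, smul_eq_mul, smul_eq_mul] at e3
      have e4 := congrArg (fun j => cu j P U) e
      simp only [cu_addw, cu_smulw, cu_cw, br_self] at e4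
      have hXU : br X2 U ≠ 0 := by rw [br_comm]; exact hU X2 hX2
      apply mul_left_cancel₀ (mul_ne_zero hPU hXU)
      rw [br_comm U P] at e4
      linear_combination (norm := (ring_nf; try reduce_mod_char!)) (br P W ^ 3) * k5 + (br P U ^ 2 * br X2 U) * e3 + (br X2 U ^ 2) * e4
  obtain ⟨U, hU⟩ := exists_dir (insert P S) (by
    intro l hl
    rw [mem_insert] at hl
    rcases hl with rfl | hl
    · exact hP0
    · exact hS l hl)
  have hUP := hU P (mem_insert_self _ _)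
  have hU0 : U ≠ 0 := br_ne_left hUP
  obtain ⟨U', hU'⟩ := exists_dir (insert U (insert P S)) (by
    intro l hl
    rw [mem_insert, mem_insert] at hl
    rcases hl with rfl | rfl | hl
    · exact hU0
    · exact hP0
    · exact hS l hl)
  have hUU := hU' U (mem_insert_self _ _)
  have hUP' := hU' P (mem_insert_of_mem (mem_insert_self _ _))
  obtain ⟨a, b, n1, n2, n3⟩ := one U (fun l hl => hU l (mem_insert_of_mem hl))
    (by rw [br_comm]; exact hUP)
  obtain ⟨a', b', m1, m2, m3⟩ := one U' (fun l hl => hU' l (mem_insert_of_mem (mem_insert_of_mem hl)))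
    (by rw [br_comm]; exact hUP')
  obtain ⟨s1, hs1⟩ : ∃ s1, s1 = sgm F1 F2 Y1 Y2 W (cw P P W) := ⟨_, rfl⟩
  obtain ⟨s2, hs2⟩ : ∃ s2, s2 = sgm F1 F2 Y1 Y2 W (cw P W W) := ⟨_, rfl⟩
  obtain ⟨f1, hf1⟩ : ∃ f1, f1 = Ps (cw P P W) := ⟨_, rfl⟩
  obtain ⟨f2, hf2⟩ : ∃ f2, f2 = Ps (cw P W W) := ⟨_, rfl⟩
  rw [← hs1, ← hs2] at n2 m2
  rw [← hf1, ← hf2] at n3 m3
  rw [← hs1, ← hs2, ← hf1]
  by_cases hs : s1 = 0 ∧ s2 = 0
  · exact ⟨hs.1, fun h => absurd hs.2 h⟩
  · -- the two solutions are proportional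
    have hab : a * b' = a' * b := by
      have e1 : s1 * (a * b' + a' * b) = 0 := by linear_combination (norm := (ring_nf; try reduce_mod_char!)) b' * n2 + b * m2
      have e2 : s2 * (a * b' + a' * b) = 0 := by linear_combination (norm := (ring_nf; try reduce_mod_char!)) a * m2 + a' * n2
      have e3 : a * b' + a' * b = 0 := by
        by_contra hne
        exact hs ⟨(mul_eq_zero.1 e1).resolve_right hne, (mul_eq_zero.1 e2).resolve_right hne⟩
      linear_combination (norm := (ring_nf; try reduce_mod_char!)) e3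
    have hbb : b * b' = 0 := by
      have hpl := br_pl X2 P U U'
      have hX2P : br X2 P ≠ 0 := by rw [br_comm]; exact hP X2 hX2
      have hUU2 : br U U' ≠ 0 := by rw [br_comm]; exact hUU
      have e1 : (br P W ^ 2 * (br X2 P * br U U')) * (b * b') = 0 := by
        linear_combination (norm := (ring_nf; try reduce_mod_char!)) (b * b' * br P W ^ 2) * hpl + (b' * br P U') * n3 + (b * br P U) * m3 +
          (br P U * br P U' * f1) * hab
      exact (mul_eq_zero.1 e1).resolve_left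
        (mul_ne_zero (pow_ne_zero 2 hPW) (mul_ne_zero hX2P hUU2))
    have hb0 : b = 0 := by
      rcases mul_eq_zero.1 hbb with h | h
      · exact h
      · rw [h, mul_zero] at hab
        rcases mul_eq_zero.1 hab.symm with h1 | h1
        · exact absurd ⟨h1, h⟩ m1
        · exact h1
    rw [hb0, zero_mul, add_zero] at n2
    rw [hb0, zero_mul, add_zero, mul_zero, zero_mul] at n3
    have ha : a ≠ 0 := fun h => n1 ⟨h, hb0⟩
    refine ⟨(mul_eq_zero.1 n2).resolve_left ha, fun _ => ?_⟩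
    have hPU2 : br P U ≠ 0 := by rw [br_comm]; exact hUP
    exact (mul_eq_zero.1 ((mul_eq_zero.1 n3).resolve_left hPU2)).resolve_left ha

end Pool.Agent.Spl2
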