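import Pool.Agent.Spl2.F3M

/-!
# Rule D3: contraction of an edge `o p` together with its two apexes of degree 4; the data and the limit

`v` (degree 4): neighbours `o, p, x1, x2`; `w` (degree 4): neighbours `o, p, y1, y2`; `p` (degree 6):
neighbours `o, v, w, x2, y2, n`.  `E'`: without `p, v, w`, and with the new edges `o x2, o y2, o n`.
Positions: `w = o + X W`, `p = o + X² P`, `v = o + X² P + X³ U`.

Let `ω` be a motion over `K[X]` which does not vanish at `X = 0` (`lim`).  In the following `Ca, ha` are the cubic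
and the additive form of the vertex `a`, `La = p a - p o`.

(1) `short`: `(hp + ho)(P) = X² Co(P)`, `Cp(P) = Co(P)`; `(hw + ho)(W) = X Co(W)`, `Cw(W) = Co(W)`;
`(hv + ho)(P + X U) = X² Co(P + X U)`, `Cv(P + X U) = Co(P + X U)`; `(hv + hp)(U) = X³ Cp(U)`, `Cv(U) = Cp(U)`;
`(hw + hp)(W + X P) = X Cp(W + X P)`, `Cw(W + X P) = Cp(W + X P)`.
(2) `twin`: `(hv + ho)(Lx1) = X² (∂_P Cx1)(Lx1) + X³ (...)`;
`(hv + hp)(Lx2 + X² P) = X³ (∂_U Cx2)(Lx2 + X² P) + X⁶ (...)`; `(hw + ho)(Ly1) = X (∂_W Cy1)(Ly1) + X² (...)`;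
`(hw + hp)(Ly2 + X² P) = X (∂_(W + X P) Cy2)(Ly2 + X² P) + X² (...)`.
(3) With `ad_pl` in the directions `Lx1`, `P + X U`: `X² ∣ hv + ho` (all values).  So
`(hv + hp)(P) = X³ (∂_U Co)(P) + X⁴ (...)`, and with (1) (directions `U`, `P`): `X³ ∣ hv + hp`; so `X² ∣ hp + ho`.
`(hw + ho)` at `W` and `Ly1`: `X ∣ hw + ho`, then `X ∣ hw + hp`.
(4) At `X = 0`, `κ = Cp + Co`: all the additive forms of `o, p, v, w` agree; `κ(P) = 0`;
`X Co(W) + X² (hw + ho)(P) + (hp + ho)(W + X P) = X Cp(W + X P)` gives `κ(W) = 0`; the equations of the edges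
`p x2, p y2, p n` say that `ω` is a loaded motion of `E'` with the load `κ`.
(Σ) `[y1,y2]² Co(W) + [y2,W]² ∂_W Cy1(y1) + [W,y1]² ∂_W Cy2(y2) = 0` (the additive form `(hw + ho) / X` at `W, y1, y2`);
(f) `[P,U]² ∂_U Cx2(x2) = [x2,U]² ∂_U Co(P) + [x2,P]² Cp(U)` (the additive form `(hv + hp) / X³` at `P, U, x2`).
(5) If `κ = 0` then `ω` vanishes (at `X = 0`) outside `p, v, w` (`NNS p E' I'`), so `Cp = 0`, all additive forms are `0`,
`Cv` vanishes at `P, U, x1, x2`, `Cw` at `W, y1, y2`, and (comparison of the coefficients of `X` in the last two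
equations of (1) and (4)) `∂_P Cw(W) = ((hp + ho) / X²)(W) = 0` since `(hp + ho) / X²` vanishes at `P` and at `x1`:
so `Cw` has a double zero at `W` and `Cw = 0` (`cu_dbl`): contradiction.
-/

set_option autoImplicit false

namespace Pool.Agent.Spl2

open Finset Pool.Agent.Spl1 Polynomial

variable {V : Type*} [Fintype V] [DecidableEq V]

/-- the data of rule D3 -/
structure D3Data (E E' : Finset (Finset V)) (I : Finset V) (o p v w x1 x2 y1 y2 n : V) : Prop where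
  op : o ≠ p
  ov : o ≠ v
  ow : o ≠ w
  ox1 : o ≠ x1
  ox2 : o ≠ x2
  oy1 : o ≠ y1
  oy2 : o ≠ y2
  on : o ≠ n
  pv : p ≠ v
  pw : p ≠ w
  px1 : p ≠ x1
  px2 : p ≠ x2
  py1 : p ≠ y1
  py2 : p ≠ y2
  pn : p ≠ n
  vw : v ≠ w
  vx1 : v ≠ x1
  vx2 : v ≠ x2
  vy1 : v ≠ y1
  vy2 : v ≠ y2
  vn : v ≠ n
  wx1 : w ≠ x1
  wx2 : w ≠ x2
  wy1 : w ≠ y1
  wy2 : w ≠ y2
  wn : w ≠ n
  x12 : x1 ≠ x2
  x2y2 : x2 ≠ y2
  x2n : x2 ≠ n
  y12 : y1 ≠ y2
  y2n : y2 ≠ n
  Ip : p ∈ I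
  Iv : v ∈ I
  Iw : w ∈ I
  np : ∀ b, b ≠ p → (({p, b} : Finset V) ∈ E ↔ b = o ∨ b = v ∨ b = w ∨ b = x2 ∨ b = y2 ∨ b = n)
  nv : ∀ b, b ≠ v → (({v, b} : Finset V) ∈ E ↔ b = o ∨ b = p ∨ b = x1 ∨ b = x2)
  nw : ∀ b, b ≠ w → (({w, b} : Finset V) ∈ E ↔ b = o ∨ b = p ∨ b = y1 ∨ b = y2)
  eox1 : ({o, x1} : Finset V) ∈ E
  eoy1 : ({o, y1} : Finset V) ∈ E
  nox2 : ({o, x2} : Finset V) ∉ E
  noy2 : ({o, y2} : Finset V) ∉ E
  non : ({o, n} : Finset V) ∉ E
  hE' : ∀ b c, b ≠ c → (({b, c} : Finset V) ∈ E' ↔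
      (({b, c} : Finset V) ∈ E ∧ b ≠ p ∧ b ≠ v ∧ b ≠ w ∧ c ≠ p ∧ c ≠ v ∧ c ≠ w) ∨
      (b = o ∧ (c = x2 ∨ c = y2 ∨ c = n)) ∨ (c = o ∧ (b = x2 ∨ b = y2 ∨ b = n)))
  -- the new edges are not between pinned vertices
  meet : o ∈ I ∨ (x2 ∈ I ∧ y2 ∈ I ∧ n ∈ I)
  -- `E'` consists of pairs
  two : ∀ e ∈ E', e.card = 2
  -- the contracted system is square
  sq : (E'.filter (fun e => ∃ b ∈ e, b ∈ ((I.erase p).erase v).erase w)).card =
    3 * (((I.erase p).erase v).erase w).card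

/-- the load of rule D3 -/
def ldD {K : Type*} [Field K] (q : V → K × K) (o x2 y2 n : V) (k : Fin 6 → K) : V → K := fun b =>
  if b = x2 ∨ b = y2 ∨ b = n then cu k (q b - q o) (q b - q o) else 0

/-- an additive form which is divisible at two directions -/
theorem d3_adiv {K : Type*} [Field K] [CharP K 2] (w : Fin 6 → K[X]) (a b : K[X] × K[X]) (k : ℕ)
    (hab : ¬ (X : K[X]) ∣ br a b) (ha : (X : K[X]) ^ k ∣ ad w a) (hb : (X : K[X]) ^ k ∣ ad w b) :
    ∃ w' : Fin 6 → K[X], ∀ q, ad w q = X ^ k * ad w' q := by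
  have hp : Prime (X : K[X]) := prime_X
  have hnd : ¬ (X : K[X]) ∣ br a b ^ 2 := fun h => hab (hp.dvd_of_dvd_pow h)
  have h4 : (X : K[X]) ^ k ∣ w 4 := by
    apply hp.pow_dvd_of_dvd_mul_left k hnd
    have e := ad_pl w a b (1, 0)
    have e1 : ad w (1, 0) = w 4 := by simp [ad]
    rw [e1] at e
    rw [e]
    exact dvd_add (Dvd.dvd.mul_left ha _) (Dvd.dvd.mul_left hb _)
  have h5 : (X : K[X]) ^ k ∣ w 5 := by
    apply hp.pow_dvd_of_dvd_mul_left k hnd
    have e := ad_pl w a b (0, 1)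
    have e1 : ad w (0, 1) = w 5 := by simp [ad]
    rw [e1] at e
    rw [e]
    exact dvd_add (Dvd.dvd.mul_left ha _) (Dvd.dvd.mul_left hb _)
  obtain ⟨c4, hc4⟩ := h4
  obtain ⟨c5, hc5⟩ := h5
  refine ⟨![0, 0, 0, 0, c4, c5], fun q => ?_⟩
  have e4 : (![0, 0, 0, 0, c4, c5] : Fin 6 → K[X]) 4 = c4 := rfl
  have e5 : (![0, 0, 0, 0, c4, c5] : Fin 6 → K[X]) 5 = c5 := rfl
  simp only [ad]
  rw [e4, e5, hc4, hc5]
  ring

/-- the polynomial part of the limit argument of rule D3 -/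
theorem D3core {K : Type*} [Field K] [CharP K 2]
    (wo wp wv ww wx1 wx2 wy1 wy2 : Fin 6 → K[X]) (P W U lx1 lx2 ly1 ly2 : K × K)
    (hPU : br P U ≠ 0) (hPx : br P lx1 ≠ 0) (hWy : br W ly1 ≠ 0) (r1 r2 r3 r4 : K[X])
    (sop : ad (wp + wo) (cK P) = X ^ 2 * cu wo (cK P) (cK P))
    (sop' : cu wp (cK P) (cK P) = cu wo (cK P) (cK P))
    (sow : ad (ww + wo) (cK W) = X * cu wo (cK W) (cK W))
    (sow' : cu ww (cK W) (cK W) = cu wo (cK W) (cK W))
    (sov : ad (wv + wo) (cK P + (X : K[X]) • cK U) =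
      X ^ 2 * cu wo (cK P + (X : K[X]) • cK U) (cK P + (X : K[X]) • cK U))
    (sov' : cu wv (cK P + (X : K[X]) • cK U) (cK P + (X : K[X]) • cK U) =
      cu wo (cK P + (X : K[X]) • cK U) (cK P + (X : K[X]) • cK U))
    (spv : ad (wv + wp) (cK U) = X ^ 3 * cu wp (cK U) (cK U))
    (spv' : cu wv (cK U) (cK U) = cu wp (cK U) (cK U))
    (spw : ad (ww + wp) (cK W + (X : K[X]) • cK P) =
      X * cu wp (cK W + (X : K[X]) • cK P) (cK W + (X : K[X]) • cK P))
    (spw' : cu ww (cK W + (X : K[X]) • cK P) (cK W + (X : K[X]) • cK P) =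
      cu wp (cK W + (X : K[X]) • cK P) (cK W + (X : K[X]) • cK P))
    (t1 : ad (wv + wo) (cK lx1) =
      X ^ 2 * (cu wx1 (cK lx1) (cK P + (X : K[X]) • cK U) + X ^ 2 * r1))
    (t2 : ad (wv + wp) (cK lx2 + (X ^ 2 : K[X]) • cK P) =
      X ^ 3 * (cu wx2 (cK lx2 + (X ^ 2 : K[X]) • cK P) (cK U) + X ^ 3 * r2))
    (t3 : ad (ww + wo) (cK ly1) = X * (cu wy1 (cK ly1) (cK W) + X * r3))
    (t4 : ad (ww + wp) (cK ly2 + (X ^ 2 : K[X]) • cK P) =
      X * (cu wy2 (cK ly2 + (X ^ 2 : K[X]) • cK P) (cK W + (X : K[X]) • cK P) + X * r4)) :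
    ∃ σ τ ρ : Fin 6 → K,
      (cu (c0 wp) P P = cu (c0 wo) P P ∧ cu (c0 wp) W W = cu (c0 wo) W W) ∧
      ((∀ q, ad (c0 wp) q = ad (c0 wo) q) ∧ (∀ q, ad (c0 wv) q = ad (c0 wo) q) ∧
        (∀ q, ad (c0 ww) q = ad (c0 wo) q)) ∧
      (ad σ W = cu (c0 wo) W W ∧ ad σ ly1 = cu (c0 wy1) ly1 W ∧ ad σ ly2 = cu (c0 wy2) ly2 W) ∧
      (ad τ P = cu (c0 wo) P U ∧ ad τ U = cu (c0 wp) U U ∧ ad τ lx2 = cu (c0 wx2) lx2 U) ∧
      (ad ρ P = cu (c0 wo) P P ∧ ad ρ lx1 = cu (c0 wx1) lx1 P ∧ ad ρ W = cu (c0 ww) W P) ∧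
      (cu (c0 wv) P P = cu (c0 wo) P P ∧ cu (c0 wv) U U = cu (c0 wp) U U ∧
        cu (c0 ww) W W = cu (c0 wo) W W) := by
  have hX : (X : K[X]) ≠ 0 := X_ne_zero
  have hX2 : (X : K[X]) ^ 2 ≠ 0 := pow_ne_zero 2 hX
  have hX3 : (X : K[X]) ^ 3 ≠ 0 := pow_ne_zero 3 hX
  have cc1 : ∀ a b : K × K, ((constantCoeff : K[X] →+* K) (cK a + (X : K[X]) • cK b).1,
      (constantCoeff : K[X] →+* K) (cK a + (X : K[X]) • cK b).2) = a := by
    intro a b
    ext1 <;> simp [cK]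
  have cc2 : ∀ a b : K × K, ((constantCoeff : K[X] →+* K) (cK a + (X ^ 2 : K[X]) • cK b).1,
      (constantCoeff : K[X] →+* K) (cK a + (X ^ 2 : K[X]) • cK b).2) = a := by
    intro a b
    ext1 <;> simp [cK]
  have ccK : ∀ a : K × K, ((constantCoeff : K[X] →+* K) (cK a).1,
      (constantCoeff : K[X] →+* K) (cK a).2) = a := by
    intro a
    ext1 <;> simp [cK]
  -- `X² ∣ hv + ho`
  obtain ⟨α, hα⟩ : ∃ α : Fin 6 → K[X], ∀ q, ad (wv + wo) q = X ^ 2 * ad α q := by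
    apply d3_adiv (wv + wo) (cK P + (X : K[X]) • cK U) (cK lx1) 2
    · rw [X_dvd_iff, ← constantCoeff_apply, f3_br _ _ _ _ (cc1 P U) (ccK lx1)]
      exact hPx
    · rw [sov]; exact dvd_mul_right _ _
    · rw [t1]; exact dvd_mul_right _ _
  have E2 : ad α (cK P + (X : K[X]) • cK U) =
      cu wo (cK P + (X : K[X]) • cK U) (cK P + (X : K[X]) • cK U) := by
    apply mul_left_cancel₀ hX2
    rw [← hα, sov]
  have T1 : ad α (cK lx1) = cu wx1 (cK lx1) (cK P + (X : K[X]) • cK U) + X ^ 2 * r1 := by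
    apply mul_left_cancel₀ hX2
    rw [← hα, t1]
  have E2' : ad α (cK P) + cu wo (cK P) (cK P) = X * (cu wo (cK P) (cK U) +
      X * (cu wo (cK U) (cK P) + ad α (cK U) + X * cu wo (cK U) (cK U))) := by
    rw [ad_add, ad_smul, cu_sum, cu_smul_right, cu_smul_left, cu_smul_left, cu_smul_right] at E2
    linear_combination (norm := (ring_nf; try reduce_mod_char!)) E2
  -- `X³ ∣ hv + hp`
  have vp : ∀ q, ad (wv + wp) q = ad (wv + wo) q + ad (wp + wo) q := by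
    intro q
    rw [ad_addw, ad_addw, ad_addw]
    (rw [← sub_eq_zero]; ring_nf; try reduce_mod_char!)
  have wpo : ∀ q, ad (ww + wp) q = ad (ww + wo) q + ad (wp + wo) q := by
    intro q
    rw [ad_addw, ad_addw, ad_addw]
    (rw [← sub_eq_zero]; ring_nf; try reduce_mod_char!)
  have vpP : ad (wv + wp) (cK P) = X ^ 3 * (cu wo (cK P) (cK U) +
      X * (cu wo (cK U) (cK P) + ad α (cK U) + X * cu wo (cK U) (cK U))) := by
    rw [vp, hα, sop]
    linear_combination X ^ 2 * E2'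
  obtain ⟨β, hβ⟩ : ∃ β : Fin 6 → K[X], ∀ q, ad (wv + wp) q = X ^ 3 * ad β q := by
    apply d3_adiv (wv + wp) (cK P) (cK U) 3
    · rw [X_dvd_iff, ← constantCoeff_apply, cc_br]
      exact hPU
    · rw [vpP]; exact dvd_mul_right _ _
    · rw [spv]; exact dvd_mul_right _ _
  have B1 : ad β (cK P) = cu wo (cK P) (cK U) +
      X * (cu wo (cK U) (cK P) + ad α (cK U) + X * cu wo (cK U) (cK U)) := by
    apply mul_left_cancel₀ hX3
    rw [← hβ, vpP]
  have B2 : ad β (cK U) = cu wp (cK U) (cK U) := by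
    apply mul_left_cancel₀ hX3
    rw [← hβ, spv]
  have B3 : ad β (cK lx2 + (X ^ 2 : K[X]) • cK P) =
      cu wx2 (cK lx2 + (X ^ 2 : K[X]) • cK P) (cK U) + X ^ 3 * r2 := by
    apply mul_left_cancel₀ hX3
    rw [← hβ, t2]
  have hpo : ∀ q, ad (wp + wo) q = X ^ 2 * (ad α q + X * ad β q) := by
    intro q
    have e := vp q
    rw [hα, hβ] at e
    linear_combination (norm := (ring_nf; try reduce_mod_char!)) e
  -- `X ∣ hw + ho`
  obtain ⟨γ, hγ⟩ : ∃ γ : Fin 6 → K[X], ∀ q, ad (ww + wo) q = X ^ 1 * ad γ q := by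
    apply d3_adiv (ww + wo) (cK W) (cK ly1) 1
    · rw [X_dvd_iff, ← constantCoeff_apply, cc_br]
      exact hWy
    · rw [sow, pow_one]; exact dvd_mul_right _ _
    · rw [t3, pow_one]; exact dvd_mul_right _ _
  simp only [pow_one] at hγ
  have G1 : ad γ (cK W) = cu wo (cK W) (cK W) := by
    apply mul_left_cancel₀ hX
    rw [← hγ, sow]
  have G2 : ad γ (cK ly1) = cu wy1 (cK ly1) (cK W) + X * r3 := by
    apply mul_left_cancel₀ hX
    rw [← hγ, t3]
  have hwp : ∀ q, ad (ww + wp) q = X * (ad γ q + X * (ad α q + X * ad β q)) := by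
    intro q
    rw [wpo, hγ, hpo]
    ring
  have G3 : ad γ (cK ly2 + (X ^ 2 : K[X]) • cK P) + X * (ad α (cK ly2 + (X ^ 2 : K[X]) • cK P)
      + X * ad β (cK ly2 + (X ^ 2 : K[X]) • cK P)) =
      cu wy2 (cK ly2 + (X ^ 2 : K[X]) • cK P) (cK W + (X : K[X]) • cK P) + X * r4 := by
    apply mul_left_cancel₀ hX
    rw [← hwp, t4]
  have G4 : ad γ (cK W + (X : K[X]) • cK P) + X * (ad α (cK W + (X : K[X]) • cK P)
      + X * ad β (cK W + (X : K[X]) • cK P)) =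
      cu wp (cK W + (X : K[X]) • cK P) (cK W + (X : K[X]) • cK P) := by
    apply mul_left_cancel₀ hX
    rw [← hwp, spw]
  have G5 : ad α (cK W) + X * (ad γ (cK P) + X * ad α (cK P) + ad β (cK W) +
      X ^ 2 * ad β (cK P)) = cu ww (cK W) (cK P) + X * (cu ww (cK P) (cK W) +
      X * cu ww (cK P) (cK P)) := by
    apply mul_left_cancel₀ hX
    rw [← spw', ad_add, ad_add, ad_add, ad_smul, ad_smul, ad_smul, cu_sum, cu_smul_right,
      cu_smul_left, cu_smul_left, cu_smul_right] at G4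
    linear_combination (norm := (ring_nf; try reduce_mod_char!)) G4 + G1 + sow'
  have ev : ∀ {a b : K[X]}, a = b → (constantCoeff : K[X] →+* K) a =
    (constantCoeff : K[X] →+* K) b := fun h => by rw [h]
  refine ⟨c0 γ, c0 β, c0 α, ⟨?_, ?_⟩, ⟨?_, ?_, ?_⟩, ⟨?_, ?_, ?_⟩, ⟨?_, ?_, ?_⟩, ⟨?_, ?_, ?_⟩,
    ⟨?_, ?_, ?_⟩⟩
  · have := ev sop'
    rwa [cc_cu, cc_cu] at this
  · have h1 := ev G1
    have h2 := ev G4
    rw [cc_cu, cc_ad] at h1
    simp only [map_add, map_mul, cc_X, zero_mul, add_zero, f3_ad _ _ _ (cc1 W P),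
      f3_cc _ _ _ _ _ (cc1 W P) (cc1 W P)] at h2
    rw [← h1, ← h2]
  · intro q
    have h1 := ev (hpo (cK q))
    rw [cc_ad, c0_add, ad_addw] at h1
    simp only [map_mul, map_pow, cc_X, ne_eq, OfNat.ofNat_ne_zero, not_false_eq_true, zero_pow,
      zero_mul] at h1
    linear_combination (norm := (ring_nf; try reduce_mod_char!)) h1
  · intro q
    have h1 := ev (hα (cK q))
    rw [cc_ad, c0_add, ad_addw] at h1
    simp only [map_mul, map_pow, cc_X, ne_eq, OfNat.ofNat_ne_zero, not_false_eq_true, zero_pow,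
      zero_mul] at h1
    linear_combination (norm := (ring_nf; try reduce_mod_char!)) h1
  · intro q
    have h1 := ev (hγ (cK q))
    rw [cc_ad, c0_add, ad_addw] at h1
    simp only [map_mul, cc_X, zero_mul] at h1
    linear_combination (norm := (ring_nf; try reduce_mod_char!)) h1
  · have h1 := ev G1
    rwa [cc_cu, cc_ad] at h1
  · have h1 := ev G2
    simpa only [map_add, map_mul, cc_X, zero_mul, add_zero, cc_cu, cc_ad] using h1
  · have h1 := ev G3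
    simpa only [map_add, map_mul, cc_X, zero_mul, add_zero, f3_ad _ _ _ (cc2 ly2 P),
      f3_cc _ _ _ _ _ (cc2 ly2 P) (cc1 W P)] using h1
  · have h1 := ev B1
    simpa only [map_add, map_mul, cc_X, zero_mul, add_zero, cc_cu, cc_ad] using h1
  · have h1 := ev B2
    rwa [cc_cu, cc_ad] at h1
  · have h1 := ev B3
    simpa only [map_add, map_mul, map_pow, cc_X, ne_eq, OfNat.ofNat_ne_zero, not_false_eq_true,
      zero_pow, zero_mul, add_zero, f3_ad _ _ _ (cc2 lx2 P),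
      f3_cc _ _ _ _ _ (cc2 lx2 P) (ccK U)] using h1
  · have h1 := ev E2
    rwa [f3_ad _ _ _ (cc1 P U), f3_cc _ _ _ _ _ (cc1 P U) (cc1 P U)] at h1
  · have h1 := ev T1
    simpa only [map_add, map_mul, map_pow, cc_X, ne_eq, OfNat.ofNat_ne_zero, not_false_eq_true,
      zero_pow, zero_mul, add_zero, cc_ad,
      f3_cc _ _ _ _ _ (ccK lx1) (cc1 P U)] using h1
  · have h1 := ev G5
    simpa only [map_add, map_mul, cc_X, zero_mul, add_zero, cc_cu, cc_ad] using h1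
  · have h1 := ev sov'
    rwa [f3_cc _ _ _ _ _ (cc1 P U) (cc1 P U), f3_cc _ _ _ _ _ (cc1 P U) (cc1 P U)] at h1
  · have h1 := ev spv'
    rwa [cc_cu, cc_cu] at h1
  · have h1 := ev sow'
    rwa [cc_cu, cc_cu] at h1

/-- the limit of the motions for rule D3 -/
theorem D3lim {E E' : Finset (Finset V)} {I : Finset V} {o p v w x1 x2 y1 y2 n : V}
    (D : D3Data E E' I o p v w x1 x2 y1 y2 n) (hn : ¬ NG E I)
    {K : Type} [Field K] [CharP K 2] [Infinite K] (q : V → K × K)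
    (hq : NNS q E' (((I.erase p).erase v).erase w)) (hgp : GP q) (P W U : K × K)
    (hPU : br P U ≠ 0)
    (hP : ∀ b ∈ ({x1, x2, y1, y2, n} : Finset V), br P (q b - q o) ≠ 0)
    (hW : ∀ b ∈ ({x1, x2, y1, y2, n} : Finset V), br W (q b - q o) ≠ 0)
    (hU : ∀ b ∈ ({x1, x2, y1, y2, n} : Finset V), br U (q b - q o) ≠ 0) (hPW : br P W ≠ 0) :
    ∃ (k : Fin 6 → K) (ω : V → Fin 6 → K), ¬ (k 0 = 0 ∧ k 1 = 0 ∧ k 2 = 0 ∧ k 3 = 0) ∧
      cu k P P = 0 ∧ cu k W W = 0 ∧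
      LMot q E' (((I.erase p).erase v).erase w) o (ldD q o x2 y2 n k) ω ∧
      br (q y1 - q o) (q y2 - q o) ^ 2 * cu (ω o) W W +
        br (q y2 - q o) W ^ 2 * cu (ω y1) (q y1 - q o) W +
        br W (q y1 - q o) ^ 2 * cu (ω y2) (q y2 - q o) W = 0 ∧
      br P U ^ 2 * cu (ω x2) (q x2 - q o) U = br (q x2 - q o) U ^ 2 * cu (ω o) P U +
        br (q x2 - q o) P ^ 2 * (cu (ω o) U U + cu k U U) := by
  classical
  have hX : (X : K[X]) ≠ 0 := X_ne_zero
  have hX2 : (X ^ 2 : K[X]) ≠ 0 := pow_ne_zero 2 hX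
  have hX3 : (X ^ 3 : K[X]) ≠ 0 := pow_ne_zero 3 hX
  obtain ⟨Q, hQ⟩ : ∃ Q : V → K[X] × K[X], Q = fun b => if b = p then
      cK (q o) + (X ^ 2 : K[X]) • cK P else if b = v then
      cK (q o) + (X ^ 2 : K[X]) • (cK P + (X : K[X]) • cK U) else if b = w then
      cK (q o) + (X : K[X]) • cK W else cK (q b) := ⟨_, rfl⟩
  obtain ⟨z, hz, b0, i0, hb0⟩ := lim Q hn
  have Qp : Q p = cK (q o) + (X ^ 2 : K[X]) • cK P := by rw [hQ]; simp
  have Qv : Q v = cK (q o) + (X ^ 2 : K[X]) • (cK P + (X : K[X]) • cK U) := by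
    rw [hQ]; simp [D.pv.symm]
  have Qw : Q w = cK (q o) + (X : K[X]) • cK W := by
    rw [hQ]; simp [D.pw.symm, D.vw.symm]
  have Q0 : ∀ b, b ≠ p → b ≠ v → b ≠ w → Q b = cK (q b) := by
    intro b h1 h2 h3
    rw [hQ]; simp [h1, h2, h3]
  have Qo : Q o = cK (q o) := Q0 o D.op D.ov D.ow
  have cc1 : ∀ a b : K × K, ((constantCoeff : K[X] →+* K) (cK a + (X : K[X]) • cK b).1,
      (constantCoeff : K[X] →+* K) (cK a + (X : K[X]) • cK b).2) = a := by
    intro a b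
    ext1 <;> simp [cK]
  have cc2 : ∀ a b : K × K, ((constantCoeff : K[X] →+* K) (cK a + (X ^ 2 : K[X]) • cK b).1,
      (constantCoeff : K[X] →+* K) (cK a + (X ^ 2 : K[X]) • cK b).2) = a := by
    intro a b
    ext1 <;> simp [cK]
  have cc3 : ∀ a : K × K, ((constantCoeff : K[X] →+* K)
      (cK a + (X ^ 2 : K[X]) • (cK P + (X : K[X]) • cK U)).1,
      (constantCoeff : K[X] →+* K)
      (cK a + (X ^ 2 : K[X]) • (cK P + (X : K[X]) • cK U)).2) = a := by
    intro a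
    ext1 <;> simp [cK]
  have both : ∀ b c, b ≠ c → ({b, c} : Finset V) ∈ E →
      cu (z b) (Q c - Q b) (Q c - Q b) = ad (z b) (Q c - Q b) + ad (z c) (Q c - Q b) ∧
      cu (z c) (Q b - Q c) (Q b - Q c) = ad (z c) (Q b - Q c) + ad (z b) (Q b - Q c) :=
    fun b c hbc he => ⟨hz.eq b c hbc he, hz.eq c b hbc.symm (by rw [Finset.pair_comm]; exact he)⟩
  -- the neighbours of the moving vertices
  have nearp : ∀ b, b ≠ p → b ≠ v → b ≠ w → ({p, b} : Finset V) ∈ E →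
      cu (z b) (cK (q b - q o) + (X ^ 2 : K[X]) • cK P)
        (cK (q b - q o) + (X ^ 2 : K[X]) • cK P) =
        ad (z b) (cK (q b - q o) + (X ^ 2 : K[X]) • cK P) +
        ad (z p) (cK (q b - q o) + (X ^ 2 : K[X]) • cK P) ∧
      cu (z p) (cK (q b - q o) + (X ^ 2 : K[X]) • cK P)
        (cK (q b - q o) + (X ^ 2 : K[X]) • cK P) =
        ad (z p) (cK (q b - q o) + (X ^ 2 : K[X]) • cK P) +
        ad (z b) (cK (q b - q o) + (X ^ 2 : K[X]) • cK P) := by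
    intro b h1 h2 h3 he
    obtain ⟨e1, e2⟩ := both p b h1.symm he
    apply f3_near (P := Q p) (Q := Q b) _ e1 e2
    rw [Qp, Q0 b h1 h2 h3, ← cK_sub]
    ext1
    · simp only [Prod.fst_sub, Prod.fst_add]; (rw [← sub_eq_zero]; ring_nf; try reduce_mod_char!)
    · simp only [Prod.snd_sub, Prod.snd_add]; (rw [← sub_eq_zero]; ring_nf; try reduce_mod_char!)
  have nearv : ∀ b, b ≠ p → b ≠ v → b ≠ w → ({v, b} : Finset V) ∈ E →
      cu (z b) (cK (q b - q o) + (X ^ 2 : K[X]) • (cK P + (X : K[X]) • cK U))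
        (cK (q b - q o) + (X ^ 2 : K[X]) • (cK P + (X : K[X]) • cK U)) =
        ad (z b) (cK (q b - q o) + (X ^ 2 : K[X]) • (cK P + (X : K[X]) • cK U)) +
        ad (z v) (cK (q b - q o) + (X ^ 2 : K[X]) • (cK P + (X : K[X]) • cK U)) ∧
      cu (z v) (cK (q b - q o) + (X ^ 2 : K[X]) • (cK P + (X : K[X]) • cK U))
        (cK (q b - q o) + (X ^ 2 : K[X]) • (cK P + (X : K[X]) • cK U)) =
        ad (z v) (cK (q b - q o) + (X ^ 2 : K[X]) • (cK P + (X : K[X]) • cK U)) +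
        ad (z b) (cK (q b - q o) + (X ^ 2 : K[X]) • (cK P + (X : K[X]) • cK U)) := by
    intro b h1 h2 h3 he
    obtain ⟨e1, e2⟩ := both v b h2.symm he
    apply f3_near (P := Q v) (Q := Q b) _ e1 e2
    rw [Qv, Q0 b h1 h2 h3, ← cK_sub]
    ext1
    · simp only [Prod.fst_sub, Prod.fst_add]; (rw [← sub_eq_zero]; ring_nf; try reduce_mod_char!)
    · simp only [Prod.snd_sub, Prod.snd_add]; (rw [← sub_eq_zero]; ring_nf; try reduce_mod_char!)
  have nearw : ∀ b, b ≠ p → b ≠ v → b ≠ w → ({w, b} : Finset V) ∈ E →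
      cu (z b) (cK (q b - q o) + (X : K[X]) • cK W)
        (cK (q b - q o) + (X : K[X]) • cK W) =
        ad (z b) (cK (q b - q o) + (X : K[X]) • cK W) +
        ad (z w) (cK (q b - q o) + (X : K[X]) • cK W) ∧
      cu (z w) (cK (q b - q o) + (X : K[X]) • cK W)
        (cK (q b - q o) + (X : K[X]) • cK W) =
        ad (z w) (cK (q b - q o) + (X : K[X]) • cK W) +
        ad (z b) (cK (q b - q o) + (X : K[X]) • cK W) := by
    intro b h1 h2 h3 he
    obtain ⟨e1, e2⟩ := both w b h3.symm he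
    apply f3_near (P := Q w) (Q := Q b) _ e1 e2
    rw [Qw, Q0 b h1 h2 h3, ← cK_sub]
    ext1
    · simp only [Prod.fst_sub, Prod.fst_add]; (rw [← sub_eq_zero]; ring_nf; try reduce_mod_char!)
    · simp only [Prod.snd_sub, Prod.snd_add]; (rw [← sub_eq_zero]; ring_nf; try reduce_mod_char!)
  have old : ∀ b c, b ≠ c → b ≠ p → b ≠ v → b ≠ w → c ≠ p → c ≠ v → c ≠ w →
      ({b, c} : Finset V) ∈ E →
      cu (z b) (cK (q c - q b)) (cK (q c - q b)) =
        ad (z b) (cK (q c - q b)) + ad (z c) (cK (q c - q b)) := by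
    intro b c hbc h1 h2 h3 h4 h5 h6 he
    have := hz.eq b c hbc he
    rwa [Q0 b h1 h2 h3, Q0 c h4 h5 h6, cK_sub] at this
  -- the edges
  have epo : ({o, p} : Finset V) ∈ E := by
    rw [Finset.pair_comm]; exact (D.np o D.op).2 (Or.inl rfl)
  have evo : ({o, v} : Finset V) ∈ E := by
    rw [Finset.pair_comm]; exact (D.nv o D.ov).2 (Or.inl rfl)
  have ewo : ({o, w} : Finset V) ∈ E := by
    rw [Finset.pair_comm]; exact (D.nw o D.ow).2 (Or.inl rfl)
  have epv : ({p, v} : Finset V) ∈ E := (D.np v D.pv.symm).2 (Or.inr (Or.inl rfl))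
  have epw : ({p, w} : Finset V) ∈ E := (D.np w D.pw.symm).2 (Or.inr (Or.inr (Or.inl rfl)))
  have epx2 : ({p, x2} : Finset V) ∈ E :=
    (D.np x2 D.px2.symm).2 (Or.inr (Or.inr (Or.inr (Or.inl rfl))))
  have epy2 : ({p, y2} : Finset V) ∈ E :=
    (D.np y2 D.py2.symm).2 (Or.inr (Or.inr (Or.inr (Or.inr (Or.inl rfl)))))
  have epn : ({p, n} : Finset V) ∈ E :=
    (D.np n D.pn.symm).2 (Or.inr (Or.inr (Or.inr (Or.inr (Or.inr rfl)))))
  have evx1 : ({v, x1} : Finset V) ∈ E := (D.nv x1 D.vx1.symm).2 (Or.inr (Or.inr (Or.inl rfl)))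
  have evx2 : ({v, x2} : Finset V) ∈ E := (D.nv x2 D.vx2.symm).2 (Or.inr (Or.inr (Or.inr rfl)))
  have ewy1 : ({w, y1} : Finset V) ∈ E := (D.nw y1 D.wy1.symm).2 (Or.inr (Or.inr (Or.inl rfl)))
  have ewy2 : ({w, y2} : Finset V) ∈ E := (D.nw y2 D.wy2.symm).2 (Or.inr (Or.inr (Or.inr rfl)))
  -- the short edges
  have dop : Q p - Q o = (X ^ 2 : K[X]) • cK P := by rw [Qp, Qo, add_sub_cancel_left]
  have dov : Q v - Q o = (X ^ 2 : K[X]) • (cK P + (X : K[X]) • cK U) := by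
    rw [Qv, Qo, add_sub_cancel_left]
  have dow : Q w - Q o = (X : K[X]) • cK W := by rw [Qw, Qo, add_sub_cancel_left]
  have dpv : Q v - Q p = (X ^ 3 : K[X]) • cK U := by
    rw [Qp, Qv]
    ext1
    · simp only [Prod.fst_sub, Prod.fst_add, Prod.smul_fst, smul_eq_mul]; ring
    · simp only [Prod.snd_sub, Prod.snd_add, Prod.smul_snd, smul_eq_mul]; ring
  have dpw : Q w - Q p = (X : K[X]) • (cK W + (X : K[X]) • cK P) := by
    rw [Qp, Qw]
    ext1
    · simp only [Prod.fst_sub, Prod.fst_add, Prod.smul_fst, smul_eq_mul]; (rw [← sub_eq_zero]; ring_nf; try reduce_mod_char!)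
    · simp only [Prod.snd_sub, Prod.snd_add, Prod.smul_snd, smul_eq_mul]; (rw [← sub_eq_zero]; ring_nf; try reduce_mod_char!)
  obtain ⟨b1, b1'⟩ := both o p D.op epo
  obtain ⟨b2, b2'⟩ := both o v D.ov evo
  obtain ⟨b3, b3'⟩ := both o w D.ow ewo
  obtain ⟨b4, b4'⟩ := both p v D.pv epv
  obtain ⟨b5, b5'⟩ := both p w D.pw epw
  rw [c2_sub_pair (Q o) (Q p)] at b1'
  rw [c2_sub_pair (Q o) (Q v)] at b2'
  rw [c2_sub_pair (Q o) (Q w)] at b3'
  rw [c2_sub_pair (Q p) (Q v)] at b4'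
  rw [c2_sub_pair (Q p) (Q w)] at b5'
  rw [dop] at b1 b1'
  rw [dov] at b2 b2'
  rw [dow] at b3 b3'
  rw [dpv] at b4 b4'
  rw [dpw] at b5 b5'
  have sw : ∀ b c : K × K, cK (b - c) = cK (c - b) := by
    intro b c
    rw [← cK_sub, ← cK_sub]
    exact c2_sub_pair _ _
  have ox1 := old x1 o D.ox1.symm D.px1.symm D.vx1.symm D.wx1.symm D.op D.ov D.ow
    (by rw [Finset.pair_comm]; exact D.eox1)
  have oy1 := old y1 o D.oy1.symm D.py1.symm D.vy1.symm D.wy1.symm D.op D.ov D.ow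
    (by rw [Finset.pair_comm]; exact D.eoy1)
  rw [sw (q o) (q x1)] at ox1
  rw [sw (q o) (q y1)] at oy1
  have pt2 : ∀ l : K × K, cK l + (X ^ 2 : K[X]) • (cK P + (X : K[X]) • cK U) =
      (cK l + (X ^ 2 : K[X]) • cK P) + (X ^ 3 : K[X]) • cK U := by
    intro l
    ext1
    · simp only [Prod.fst_add, Prod.smul_fst, smul_eq_mul]; ring
    · simp only [Prod.snd_add, Prod.smul_snd, smul_eq_mul]; ring
  have pt4 : ∀ l : K × K, cK l + (X : K[X]) • cK W =
      (cK l + (X ^ 2 : K[X]) • cK P) + (X : K[X]) • (cK W + (X : K[X]) • cK P) := by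
    intro l
    ext1
    · simp only [Prod.fst_add, Prod.smul_fst, smul_eq_mul]; (rw [← sub_eq_zero]; ring_nf; try reduce_mod_char!)
    · simp only [Prod.snd_add, Prod.smul_snd, smul_eq_mul]; (rw [← sub_eq_zero]; ring_nf; try reduce_mod_char!)
  have nv1 := (nearv x1 D.px1.symm D.vx1.symm D.wx1.symm evx1).1
  have nv2 := (nearv x2 D.px2.symm D.vx2.symm D.wx2.symm evx2).1
  have nw1 := (nearw y1 D.py1.symm D.vy1.symm D.wy1.symm ewy1).1
  have nw2 := (nearw y2 D.py2.symm D.vy2.symm D.wy2.symm ewy2).1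
  have np2 := (nearp x2 D.px2.symm D.vx2.symm D.wx2.symm epx2).1
  have npy := (nearp y2 D.py2.symm D.vy2.symm D.wy2.symm epy2).1
  rw [pt2] at nv2
  rw [pt4] at nw2
  have t1 := twin ox1 nv1
  have t2 := twin np2 nv2
  have t3 := twin oy1 nw1
  have t4 := twin npy nw2
  have t1' : ad (z v + z o) (cK (q x1 - q o)) =
      X ^ 2 * (cu (z x1) (cK (q x1 - q o)) (cK P + (X : K[X]) • cK U) +
        X ^ 2 * (cu (z x1) (cK P + (X : K[X]) • cK U) (cK (q x1 - q o)) +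
          ad (z x1) (cK P + (X : K[X]) • cK U) + ad (z v) (cK P + (X : K[X]) • cK U) +
          X ^ 2 * cu (z x1) (cK P + (X : K[X]) • cK U) (cK P + (X : K[X]) • cK U))) := by
    rw [t1]; ring
  have t2' : ad (z v + z p) (cK (q x2 - q o) + (X ^ 2 : K[X]) • cK P) =
      X ^ 3 * (cu (z x2) (cK (q x2 - q o) + (X ^ 2 : K[X]) • cK P) (cK U) +
        X ^ 3 * (cu (z x2) (cK U) (cK (q x2 - q o) + (X ^ 2 : K[X]) • cK P) +
          ad (z x2) (cK U) + ad (z v) (cK U) + X ^ 3 * cu (z x2) (cK U) (cK U))) := by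
    rw [t2]; ring
  have t3' : ad (z w + z o) (cK (q y1 - q o)) =
      X * (cu (z y1) (cK (q y1 - q o)) (cK W) +
        X * (cu (z y1) (cK W) (cK (q y1 - q o)) +
          ad (z y1) (cK W) + ad (z w) (cK W) + X * cu (z y1) (cK W) (cK W))) := by
    rw [t3]; ring
  have t4' : ad (z w + z p) (cK (q y2 - q o) + (X ^ 2 : K[X]) • cK P) =
      X * (cu (z y2) (cK (q y2 - q o) + (X ^ 2 : K[X]) • cK P) (cK W + (X : K[X]) • cK P) +
        X * (cu (z y2) (cK W + (X : K[X]) • cK P) (cK (q y2 - q o) + (X ^ 2 : K[X]) • cK P) +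
          ad (z y2) (cK W + (X : K[X]) • cK P) + ad (z w) (cK W + (X : K[X]) • cK P) +
          X * cu (z y2) (cK W + (X : K[X]) • cK P) (cK W + (X : K[X]) • cK P))) := by
    rw [t4]; ring
  have memS : ∀ {b : V}, b = x1 ∨ b = x2 ∨ b = y1 ∨ b = y2 ∨ b = n →
      b ∈ ({x1, x2, y1, y2, n} : Finset V) := by
    intro b hb
    simpa using hb
  have hPx1 := hP x1 (memS (by simp))
  have hPx2 := hP x2 (memS (by simp))
  have hWy1 := hW y1 (memS (by simp))
  have hWy2 := hW y2 (memS (by simp))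
  have hUx1 := hU x1 (memS (by simp))
  have hUx2 := hU x2 (memS (by simp))
  obtain ⟨σ, τ, ρ, ⟨kP, kW⟩, ⟨adp, adv, adw⟩, ⟨σW, σ1, σ2⟩, ⟨τP, τU, τx⟩, ⟨ρP, ρx, ρW⟩,
    ⟨vP, vU, wW⟩⟩ := D3core (z o) (z p) (z v) (z w) (z x1) (z x2) (z y1) (z y2) P W U
    (q x1 - q o) (q x2 - q o) (q y1 - q o) (q y2 - q o) hPU hPx1 hWy1 _ _ _ _
    (short hX2 b1) (short_cu hX2 b1 b1') (short hX b3) (short_cu hX b3 b3')
    (short hX2 b2) (short_cu hX2 b2 b2') (short hX3 b4) (short_cu hX3 b4 b4')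
    (short hX b5) (short_cu hX b5 b5') t1' t2' t3' t4'
  -- the values at `X = 0`
  have ev : ∀ {a b : K[X]}, a = b → (constantCoeff : K[X] →+* K) a =
    (constantCoeff : K[X] →+* K) b := fun h => by rw [h]
  have valp : ∀ b, b ≠ p → b ≠ v → b ≠ w → ({p, b} : Finset V) ∈ E →
      cu (c0 (z b)) (q b - q o) (q b - q o) =
        ad (c0 (z b)) (q b - q o) + ad (c0 (z o)) (q b - q o) ∧
      cu (c0 (z p)) (q b - q o) (q b - q o) =
        ad (c0 (z o)) (q b - q o) + ad (c0 (z b)) (q b - q o) := by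
    intro b h1 h2 h3 he
    obtain ⟨e1, e2⟩ := nearp b h1 h2 h3 he
    have e3 := ev e1
    have e4 := ev e2
    rw [map_add, f3_cc _ _ _ _ _ (cc2 _ P) (cc2 _ P), f3_ad _ _ _ (cc2 _ P),
      f3_ad _ _ _ (cc2 _ P), adp] at e3 e4
    exact ⟨e3, e4⟩
  have valv : ∀ b, b ≠ p → b ≠ v → b ≠ w → ({v, b} : Finset V) ∈ E →
      cu (c0 (z v)) (q b - q o) (q b - q o) =
        ad (c0 (z o)) (q b - q o) + ad (c0 (z b)) (q b - q o) := by
    intro b h1 h2 h3 he
    obtain ⟨e1, e2⟩ := nearv b h1 h2 h3 he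
    have e4 := ev e2
    rw [map_add, f3_cc _ _ _ _ _ (cc3 _) (cc3 _), f3_ad _ _ _ (cc3 _),
      f3_ad _ _ _ (cc3 _), adv] at e4
    exact e4
  have valw : ∀ b, b ≠ p → b ≠ v → b ≠ w → ({w, b} : Finset V) ∈ E →
      cu (c0 (z w)) (q b - q o) (q b - q o) =
        ad (c0 (z o)) (q b - q o) + ad (c0 (z b)) (q b - q o) := by
    intro b h1 h2 h3 he
    obtain ⟨e1, e2⟩ := nearw b h1 h2 h3 he
    have e4 := ev e2
    rw [map_add, f3_cc _ _ _ _ _ (cc1 _ W) (cc1 _ W), f3_ad _ _ _ (cc1 _ W),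
      f3_ad _ _ _ (cc1 _ W), adw] at e4
    exact e4
  have val0 : ∀ b c, b ≠ c → b ≠ p → b ≠ v → b ≠ w → c ≠ p → c ≠ v → c ≠ w →
      ({b, c} : Finset V) ∈ E →
      cu (c0 (z b)) (q c - q b) (q c - q b) =
        ad (c0 (z b)) (q c - q b) + ad (c0 (z c)) (q c - q b) := by
    intro b c hbc h1 h2 h3 h4 h5 h6 he
    have := ev (old b c hbc h1 h2 h3 h4 h5 h6 he)
    rwa [map_add, cc_cu, cc_ad, cc_ad] at this
  obtain ⟨k, hk⟩ : ∃ k : Fin 6 → K, k = c0 (z p) + c0 (z o) := ⟨_, rfl⟩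
  -- the loaded motion
  obtain ⟨ω, hω⟩ : ∃ ω : V → Fin 6 → K, ω = fun b => if b = p ∨ b = v ∨ b = w then 0 else
    c0 (z b) := ⟨_, rfl⟩
  have ωo : ∀ b, b ≠ p → b ≠ v → b ≠ w → ω b = c0 (z b) := by
    intro b h1 h2 h3
    rw [hω]; simp [h1, h2, h3]
  have hNot : ∀ d, d = x2 ∨ d = y2 ∨ d = n → d ≠ p ∧ d ≠ v ∧ d ≠ w ∧ ({p, d} : Finset V) ∈ E ∧
      ({o, d} : Finset V) ∉ E := by
    rintro d (rfl | rfl | rfl)
    · exact ⟨D.px2.symm, D.vx2.symm, D.wx2.symm, epx2, D.nox2⟩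
    · exact ⟨D.py2.symm, D.vy2.symm, D.wy2.symm, epy2, D.noy2⟩
    · exact ⟨D.pn.symm, D.vn.symm, D.wn.symm, epn, D.non⟩
  have hmot : LMot q E' (((I.erase p).erase v).erase w) o (ldD q o x2 y2 n k) ω := by
    constructor
    · intro b hb
      by_cases h1 : b = p ∨ b = v ∨ b = w
      · rw [hω]; simp [h1]
      · push Not at h1
        have hbI : b ∉ I := fun h' => hb (mem_erase.2 ⟨h1.2.2, mem_erase.2 ⟨h1.2.1,
          mem_erase.2 ⟨h1.1, h'⟩⟩⟩)
        rw [ωo b h1.1 h1.2.1 h1.2.2]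
        funext i
        simp [c0, hz.pin b hbI]
    · intro b c hbc he
      have hE := (D.hE' b c hbc).1 he
      have hb : b ≠ p ∧ b ≠ v ∧ b ≠ w := by
        rcases hE with h3 | h3 | h3
        · exact ⟨h3.2.1, h3.2.2.1, h3.2.2.2.1⟩
        · rw [h3.1]; exact ⟨D.op, D.ov, D.ow⟩
        · have := hNot b h3.2
          exact ⟨this.1, this.2.1, this.2.2.1⟩
      have hc : c ≠ p ∧ c ≠ v ∧ c ≠ w := by
        rcases hE with h3 | h3 | h3
        · exact h3.2.2.2.2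
        · have := hNot c h3.2
          exact ⟨this.1, this.2.1, this.2.2.1⟩
        · rw [h3.1]; exact ⟨D.op, D.ov, D.ow⟩
      rw [ωo b hb.1 hb.2.1 hb.2.2, ωo c hc.1 hc.2.1 hc.2.2]
      rcases hE with h3 | h3 | h3
      · have hv := val0 b c hbc hb.1 hb.2.1 hb.2.2 hc.1 hc.2.1 hc.2.2 h3.1
        rw [hv]
        by_cases hbo : b = o
        · rw [if_pos hbo]
          have hcN : ¬ (c = x2 ∨ c = y2 ∨ c = n) := by
            intro h
            exact (hNot c h).2.2.2.2 (by rw [← hbo]; exact h3.1)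
          simp only [ldD, if_neg hcN, add_zero]
        · rw [if_neg hbo, add_zero]
      · have hv := (valp c hc.1 hc.2.1 hc.2.2 (hNot c h3.2).2.2.2.1).2
        rw [h3.1, if_pos rfl]
        simp only [ldD, if_pos h3.2]
        rw [hk, cu_addw]
        linear_combination (norm := (ring_nf; try reduce_mod_char!)) hv
      · have hbo : b ≠ o := by
          rintro rfl
          exact hbc h3.1.symm
        rw [if_neg hbo, add_zero, h3.1, c2_sub_pair (q o) (q b)]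
        exact (valp b hb.1 hb.2.1 hb.2.2 (hNot b h3.2).2.2.2.1).1
  refine ⟨k, ω, ?_, ?_, ?_, hmot, ?_, ?_⟩
  · rintro ⟨k0, k1, k2, k3⟩
    have hcuk : ∀ x y, cu k x y = 0 := by
      intro x y
      simp only [cu]
      rw [k0, k1, k2, k3]
      ring
    have hld : ldD q o x2 y2 n k = 0 := by
      funext b
      simp only [ldD, hcuk, ite_self, Pi.zero_apply]
    rw [hld] at hmot
    have hω0 := hq ω (lmot_zero hmot)
    have hzb : ∀ b, b ≠ p → b ≠ v → b ≠ w → c0 (z b) = 0 := by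
      intro b h1 h2 h3
      rw [← ωo b h1 h2 h3, hω0]; rfl
    have hzo := hzb o D.op D.ov D.ow
    have had : ∀ a : Fin 6 → K, (∀ l, ad a l = 0) → a 4 = 0 ∧ a 5 = 0 := by
      intro a ha
      have h1 := ha (1, 0)
      have h2 := ha (0, 1)
      simp only [ad] at h1 h2
      exact ⟨by simpa using h1, by simpa using h2⟩
    have ap := had (c0 (z p)) (fun l => by rw [adp, hzo, ad_zero])
    have av := had (c0 (z v)) (fun l => by rw [adv, hzo, ad_zero])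
    have aw := had (c0 (z w)) (fun l => by rw [adw, hzo, ad_zero])
    rw [hk, hzo, add_zero] at k0 k1 k2 k3
    have hzp : c0 (z p) = 0 := by
      funext i
      fin_cases i
      · exact k0
      · exact k1
      · exact k2
      · exact k3
      · exact ap.1
      · exact ap.2
    have zx1 := hzb x1 D.px1.symm D.vx1.symm D.wx1.symm
    have zx2 := hzb x2 D.px2.symm D.vx2.symm D.wx2.symm
    have zy1 := hzb y1 D.py1.symm D.vy1.symm D.wy1.symm
    have zy2 := hzb y2 D.py2.symm D.vy2.symm D.wy2.symm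
    -- `v`
    have fv : c0 (z v) 0 = 0 ∧ c0 (z v) 1 = 0 ∧ c0 (z v) 2 = 0 ∧ c0 (z v) 3 = 0 := by
      have g1 : cu (c0 (z v)) P P = 0 := by rw [vP, hzo, cu_zero]
      have g2 : cu (c0 (z v)) U U = 0 := by rw [vU, hzp, cu_zero]
      have g3 : cu (c0 (z v)) (q x1 - q o) (q x1 - q o) = 0 := by
        rw [valv x1 D.px1.symm D.vx1.symm D.wx1.symm evx1, hzo, zx1, ad_zero, add_zero]
      have g4 : cu (c0 (z v)) (q x2 - q o) (q x2 - q o) = 0 := by
        rw [valv x2 D.px2.symm D.vx2.symm D.wx2.symm evx2, hzo, zx2, ad_zero, add_zero]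
      exact cu_four hPU (by rw [br_comm]; exact hPx1) (by rw [br_comm]; exact hUx1)
        (by rw [br_comm]; exact hPx2) (by rw [br_comm]; exact hUx2)
        (hgp o x1 x2 D.ox1 D.x12 D.ox2) g1 g2 g3 g4
    -- `w`
    have fw : c0 (z w) 0 = 0 ∧ c0 (z w) 1 = 0 ∧ c0 (z w) 2 = 0 ∧ c0 (z w) 3 = 0 := by
      have g1 : cu (c0 (z w)) W W = 0 := by rw [wW, hzo, cu_zero]
      have g2 : cu (c0 (z w)) W P = 0 := by
        rw [← ρW]
        have e1 : ad ρ P = 0 := by rw [ρP, hzo, cu_zero]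
        have e2 : ad ρ (q x1 - q o) = 0 := by rw [ρx, zx1, cu_zero]
        obtain ⟨e3, e4⟩ := ad_eq_zero hPx1 e1 e2
        simp only [ad]
        rw [e3, e4]
        ring
      have g3 : cu (c0 (z w)) (q y1 - q o) (q y1 - q o) = 0 := by
        rw [valw y1 D.py1.symm D.vy1.symm D.wy1.symm ewy1, hzo, zy1, ad_zero, add_zero]
      have g4 : cu (c0 (z w)) (q y2 - q o) (q y2 - q o) = 0 := by
        rw [valw y2 D.py2.symm D.vy2.symm D.wy2.symm ewy2, hzo, zy2, ad_zero, add_zero]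
      obtain ⟨c, hc, hc'⟩ := cu_dbl (by rw [br_comm]; exact hPW) hWy1 g1 g2 g3
      apply hc'
      have e1 := hc (q y2 - q o)
      rw [g4] at e1
      have n1 : br (q y2 - q o) W ≠ 0 := by rw [br_comm]; exact hWy2
      have n2 : br (q y2 - q o) (q y1 - q o) ≠ 0 := hgp o y2 y1 D.oy2 D.y12.symm D.oy1
      exact (mul_eq_zero.1 e1.symm).resolve_right (mul_ne_zero (pow_ne_zero 2 n1) n2)
    have hall : c0 (z b0) = 0 := by
      by_cases h1 : b0 = p
      · rw [h1]; exact hzp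
      by_cases h2 : b0 = v
      · rw [h2]
        funext i
        obtain ⟨g0, g1, g2, g3⟩ := fv
        fin_cases i
        · exact g0
        · exact g1
        · exact g2
        · exact g3
        · exact av.1
        · exact av.2
      by_cases h3 : b0 = w
      · rw [h3]
        funext i
        obtain ⟨g0, g1, g2, g3⟩ := fw
        fin_cases i
        · exact g0
        · exact g1
        · exact g2
        · exact g3
        · exact aw.1
        · exact aw.2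
      exact hzb b0 h1 h2 h3
    exact hb0 (congrFun hall i0)
  · rw [hk, cu_addw, kP]; (rw [← sub_eq_zero]; ring_nf; try reduce_mod_char!)
  · rw [hk, cu_addw, kW]; (rw [← sub_eq_zero]; ring_nf; try reduce_mod_char!)
  · rw [ωo o D.op D.ov D.ow, ωo y1 D.py1.symm D.vy1.symm D.wy1.symm,
      ωo y2 D.py2.symm D.vy2.symm D.wy2.symm, ← σW, ← σ1, ← σ2]
    have e := ad_pl σ (q y1 - q o) (q y2 - q o) W
    rw [br_comm (q y2 - q o) W]
    linear_combination (norm := (ring_nf; try reduce_mod_char!)) e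
  · rw [ωo o D.op D.ov D.ow, ωo x2 D.px2.symm D.vx2.symm D.wx2.symm, ← τx, ← τP]
    have e := ad_pl τ P U (q x2 - q o)
    rw [τU] at e
    rw [hk, cu_addw]
    linear_combination (norm := (ring_nf; try reduce_mod_char!)) e

end Pool.Agent.Spl2
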