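import Pool.Agent.Spl1.Defs

/-!
# Bivariate quartic `C²` splines: the characteristic 2 system, definitions

`V` is a finite set of vertices, `E` a set of edges (pairs), `I` the set of interior vertices; all other
vertices are pinned.  Everything is over a commutative ring `R` of characteristic 2, positions are
`p : V → R × R`.

`br a b = a₁ b₂ - a₂ b₁`.  A vertex carries `w v : Fin 6 → R`: the coefficients `w 0, …, w 3` of a binary
cubic form `C(x) = w0 x₁³ + w1 x₁² x₂ + w2 x₁ x₂² + w3 x₂³` and the coefficients `w 4, w 5` of an additive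
form `h(x) = w4 x₁² + w5 x₂²`.  `cu w x y` is the derivative of `C` at `x` in the direction `y`: in
characteristic 2 it is additive in `x` (degree 2) and linear in `y`, and `cu w x x = C(x)`.

`NMot p E I w` (motions): `w = 0` at the pinned vertices and for every edge `{u,v}`, `d = p v - p u`:
`C_u(d) = h_u(d) + h_v(d)` (for both orders of `u, v`, so also `C_v(d)` has this value).

`NNS p E I`: the only motion is `0`.  `NG E I`: this holds for some positions over some field of
characteristic 2 (so for generic positions, `Open.lean`).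

`Sph T` (triangulated spheres) and `Fac3 T` (every 3-cycle is a triangle) are defined in `SphDefs.lean`.

MAIN GOAL (`Main.lean`): `Sph T → Fac3 T → F₀ ∈ T → 8 ≤ T.card → NG (edges T) (vs T \ F₀)`.
-/

set_option autoImplicit false

namespace Pool.Agent.Spl2

open Finset Pool.Agent.Spl1

/-- the bracket of two plane vectors -/
def br {R : Type*} [CommRing R] (a b : R × R) : R := a.1 * b.2 - a.2 * b.1

/-- the polarised cubic form of `w` (characteristic 2) -/
def cu {R : Type*} [CommRing R] (w : Fin 6 → R) (x y : R × R) : R :=
  y.1 * (w 0 * x.1 ^ 2 + w 2 * x.2 ^ 2) + y.2 * (w 1 * x.1 ^ 2 + w 3 * x.2 ^ 2)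

/-- the additive form of `w` (characteristic 2) -/
def ad {R : Type*} [CommRing R] (w : Fin 6 → R) (x : R × R) : R :=
  w 4 * x.1 ^ 2 + w 5 * x.2 ^ 2

variable {V : Type*} [Fintype V] [DecidableEq V]

/-- motions of the characteristic 2 system -/
structure NMot {R : Type*} [CommRing R] (p : V → R × R) (E : Finset (Finset V)) (I : Finset V)
    (w : V → Fin 6 → R) : Prop where
  pin : ∀ v, v ∉ I → w v = 0
  eq : ∀ u v, u ≠ v → ({u, v} : Finset V) ∈ E →
    cu (w u) (p v - p u) (p v - p u) = ad (w u) (p v - p u) + ad (w v) (p v - p u)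

/-- the only motion is `0` -/
def NNS {R : Type*} [CommRing R] (p : V → R × R) (E : Finset (Finset V)) (I : Finset V) : Prop :=
  ∀ w : V → Fin 6 → R, NMot p E I w → w = 0

/-- nonsingular for some positions over some field of characteristic 2 -/
def NG (E : Finset (Finset V)) (I : Finset V) : Prop :=
  ∃ (K : Type) (_ : Field K) (_ : CharP K 2) (p : V → K × K), NNS p E I

/-- no three vertices are collinear -/
def GP {R : Type*} [CommRing R] (p : V → R × R) : Prop :=
  ∀ a b c : V, a ≠ b → b ≠ c → a ≠ c → br (p b - p a) (p c - p a) ≠ 0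

/-- the used vertices -/
def vs (T : Finset (Finset V)) : Finset V := univ.filter (fun v => ∃ t ∈ T, v ∈ t)

theorem mem_vs {T : Finset (Finset V)} {v : V} : v ∈ vs T ↔ ∃ t ∈ T, v ∈ t := by simp [vs]

end Pool.Agent.Spl2
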