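import Pool.Agent.Spl2.F3M

/-!
# Rule F3: contraction of a face

If the contracted graph is nonsingular then so is the graph (characteristic 2, all degrees).

Proof.  Otherwise `F3lim` gives for all admissible `u`, `λ` a loaded motion `ω_u` of the contracted graph with
(P).  Loaded motions are unique and the load is additive in `u`, so for `u_t = a + t x` (`a, x` the
directions of the neighbours `a, x`) `ω_t = ω_A + t² ω_X`.  Two values of `λ` give
`[u,x]² F_a(a,u) = [a,u]² F_x(x,u)` and `[u,y]² F_a(a,u) = [a,u]² F_y(y,u)`, `F_z = C_o + C_z`.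
With `D = [a,x]`: the first is `t² D³ [a,y] + t (α + t² β) = t² (γ + t² δ)`, so `α = β = 0`; then the second is
`([a,y] + t [x,y]) D [a,y]² = ε₁ + t² ε₂`, which is impossible.
-/

set_option autoImplicit false

namespace Pool.Agent.Spl2

open Finset Pool.Agent.Spl1 Polynomial

variable {V : Type*} [Fintype V] [DecidableEq V]

theorem F3 {E E' : Finset (Finset V)} {I : Finset V} {o v1 v2 x y a : V} {N1 N2 : Finset V}
    (D : F3Data E E' I o v1 v2 x y a N1 N2) (h : NG E' ((I.erase v1).erase v2)) : NG E I := by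
  classical
  by_contra hn
  obtain ⟨K, i1, i2, i3, p, hp, hgp⟩ := ng_generic h
  have gpo : ∀ b c, b ≠ c → o ≠ b → o ≠ c → br (p b - p o) (p c - p o) ≠ 0 :=
    fun b c hbc hb hc => hgp o b c hb hbc hc
  have gax := gpo a x D.xa.symm D.ao.symm D.xo.symm
  have gay := gpo a y D.ya.symm D.ao.symm D.yo.symm
  have gxy := gpo x y D.xy D.xo.symm D.yo.symm
  obtain ⟨la, hla⟩ : ∃ la, la = p a - p o := ⟨_, rfl⟩
  obtain ⟨lx, hlx⟩ : ∃ lx, lx = p x - p o := ⟨_, rfl⟩
  obtain ⟨ly, hly⟩ : ∃ ly, ly = p y - p o := ⟨_, rfl⟩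
  rw [← hla, ← hlx] at gax
  rw [← hla, ← hly] at gay
  rw [← hlx, ← hly] at gxy
  -- two values of `λ`
  obtain ⟨l1, hl1⟩ := Infinite.exists_notMem_finset ({0, 1} : Finset K)
  obtain ⟨l2, hl2⟩ := Infinite.exists_notMem_finset ({0, 1, l1} : Finset K)
  simp only [mem_insert, mem_singleton, not_or] at hl1 hl2
  have one_add : ∀ l : K, l ≠ 1 → 1 + l ≠ 0 := by
    intro l hl h0
    apply hl
    linear_combination (norm := (ring_nf; try reduce_mod_char!)) h0
  -- admissible directions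
  have adm : ∀ u : K × K, br u lx ≠ 0 → br u ly ≠ 0 → br u la ≠ 0 →
      ∃ ω : V → Fin 6 → K, LMot p E' ((I.erase v1).erase v2) o (ldF p o x y a N1 N2 u) ω ∧
        br u lx ^ 2 * (cu (ω o) la u + cu (ω a) la u) =
          br la u ^ 2 * (cu (ω o) lx u + cu (ω x) lx u) ∧
        br u ly ^ 2 * (cu (ω o) la u + cu (ω a) la u) =
          br la u ^ 2 * (cu (ω o) ly u + cu (ω y) ly u) := by
    intro u hux huy hua
    have hu0 : u ≠ 0 := br_ne_left hux
    obtain ⟨f, hf⟩ := exists_dir ({u} : Finset (K × K)) (by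
      intro l hl
      rw [mem_singleton] at hl
      rw [hl]; exact hu0)
    have huf : br u f ≠ 0 := by
      rw [br_comm]; exact hf u (mem_singleton_self _)
    obtain ⟨ω1, hω1, P1⟩ := F3lim D hp hgp u f l1 hl1.1 (one_add l1 hl1.2) huf
      (hlx ▸ hux) (hly ▸ huy) (hla ▸ hua) hn
    obtain ⟨ω2, hω2, P2⟩ := F3lim D hp hgp u f l2 hl2.1 (one_add l2 hl2.2.1) huf
      (hlx ▸ hux) (hly ▸ huy) (hla ▸ hua) hn
    have h12 := lmot_unique hp hω2 hω1
    rw [h12] at P2
    rw [← hla, ← hlx, ← hly] at P1 P2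
    have hd : l1 + l2 ≠ 0 := by
      intro h0
      apply hl2.2.2
      linear_combination (norm := (ring_nf; try reduce_mod_char!)) h0
    -- `S (1 + λ) = A + λ B`
    have e1 : (l1 + l2) * (br u lx ^ 2 * br u ly ^ 2 * (cu (ω1 o) la u + cu (ω1 a) la u)) =
        (l1 + l2) * (br u lx ^ 2 * br la u ^ 2 * (cu (ω1 o) ly u + cu (ω1 y) ly u)) := by
      linear_combination (norm := (ring_nf; try reduce_mod_char!)) P1 + P2
    have e2 := mul_left_cancel₀ hd e1
    have e3 : br u lx ^ 2 * br u ly ^ 2 * (cu (ω1 o) la u + cu (ω1 a) la u) =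
        br u ly ^ 2 * br la u ^ 2 * (cu (ω1 o) lx u + cu (ω1 x) lx u) := by
      linear_combination P1 - l1 * e2
    refine ⟨ω1, hω1, ?_, ?_⟩
    · apply mul_left_cancel₀ (pow_ne_zero 2 huy)
      linear_combination e3
    · apply mul_left_cancel₀ (pow_ne_zero 2 hux)
      linear_combination e2
  -- the parameter `t`
  have brux : ∀ t : K, br (la + t • lx) lx = br la lx := by
    intro t
    rw [br_add_left, br_smul_left, br_self, mul_zero, add_zero]
  have brua : ∀ t : K, br (la + t • lx) la = t * br la lx := by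
    intro t
    rw [br_add_left, br_smul_left, br_self, zero_add, br_comm lx la]
  have bruy : ∀ t : K, br (la + t • lx) ly = br la ly + t * br lx ly := by
    intro t
    rw [br_add_left, br_smul_left]
  obtain ⟨S, hS⟩ : ∃ S : Finset K, S = {0, br la ly / br lx ly} := ⟨_, rfl⟩
  have good : ∀ t, t ∉ S → t ≠ 0 ∧ br la ly + t * br lx ly ≠ 0 := by
    intro t ht
    rw [hS] at ht
    simp only [mem_insert, mem_singleton, not_or] at ht
    refine ⟨ht.1, ?_⟩
    intro h0
    apply ht.2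
    rw [eq_div_iff gxy]
    linear_combination (norm := (ring_nf; try reduce_mod_char!)) h0
  have adm' : ∀ t : K, t ∉ S → ∃ ω : V → Fin 6 → K,
      LMot p E' ((I.erase v1).erase v2) o (ldF p o x y a N1 N2 (la + t • lx)) ω ∧
        br (la + t • lx) lx ^ 2 * (cu (ω o) la (la + t • lx) + cu (ω a) la (la + t • lx)) =
          br la (la + t • lx) ^ 2 * (cu (ω o) lx (la + t • lx) + cu (ω x) lx (la + t • lx)) ∧
        br (la + t • lx) ly ^ 2 * (cu (ω o) la (la + t • lx) + cu (ω a) la (la + t • lx)) =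
          br la (la + t • lx) ^ 2 * (cu (ω o) ly (la + t • lx) + cu (ω y) ly (la + t • lx)) := by
    intro t ht
    obtain ⟨h0, h1⟩ := good t ht
    apply adm
    · rw [brux]; exact gax
    · rw [bruy]; exact h1
    · rw [brua]; exact mul_ne_zero h0 gax
  -- additivity of the load
  have ldadd : ∀ t : K, ldF p o x y a N1 N2 (la + t • lx) =
      ldF p o x y a N1 N2 la + t ^ 2 • ldF p o x y a N1 N2 lx := by
    intro t
    funext b
    have e : br (p b - p o) (la + t • lx) ^ 2 = br (p b - p o) la ^ 2 +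
        t ^ 2 * br (p b - p o) lx ^ 2 := by
      rw [br_add_right, br_smul_right]; (rw [← sub_eq_zero]; ring_nf; try reduce_mod_char!)
    simp only [ldF, Pi.add_apply, Pi.smul_apply, smul_eq_mul, e]
    split_ifs
    · ring
    · ring
    · ring
  -- two values of `t`
  obtain ⟨t0, ht0⟩ := Infinite.exists_notMem_finset S
  obtain ⟨t1, ht1⟩ := Infinite.exists_notMem_finset (S ∪ {t0})
  rw [mem_union, mem_singleton, not_or] at ht1
  obtain ⟨ω0, hω0, -, -⟩ := adm' t0 ht0
  obtain ⟨ω1, hω1, -, -⟩ := adm' t1 ht1.1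
  have hdt : t0 ^ 2 + t1 ^ 2 ≠ 0 := by
    intro h0
    apply ht1.2
    have h1 : (t0 + t1) ^ 2 = 0 := by linear_combination (norm := (ring_nf; try reduce_mod_char!)) h0
    have h2 := pow_eq_zero_iff (two_ne_zero) |>.1 h1
    linear_combination (norm := (ring_nf; try reduce_mod_char!)) h2
  rw [ldadd] at hω0 hω1
  obtain ⟨ωX, hωX⟩ : ∃ ωX : V → Fin 6 → K, LMot p E' ((I.erase v1).erase v2) o
      (ldF p o x y a N1 N2 lx) ωX := by
    refine ⟨(t0 ^ 2 + t1 ^ 2)⁻¹ • (ω0 + ω1), ?_⟩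
    have h1 := lmot_smul (lmot_add hω0 hω1) (t0 ^ 2 + t1 ^ 2)⁻¹
    have h2 : (t0 ^ 2 + t1 ^ 2)⁻¹ • (ldF p o x y a N1 N2 la + t0 ^ 2 • ldF p o x y a N1 N2 lx +
        (ldF p o x y a N1 N2 la + t1 ^ 2 • ldF p o x y a N1 N2 lx)) =
        ldF p o x y a N1 N2 lx := by
      funext b
      simp only [Pi.smul_apply, Pi.add_apply, smul_eq_mul]
      rw [inv_mul_eq_iff_eq_mul₀ hdt]
      (rw [← sub_eq_zero]; ring_nf; try reduce_mod_char!)
    rwa [h2] at h1
  obtain ⟨ωA, hωA⟩ : ∃ ωA : V → Fin 6 → K, LMot p E' ((I.erase v1).erase v2) o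
      (ldF p o x y a N1 N2 la) ωA := by
    refine ⟨ω0 + t0 ^ 2 • ωX, ?_⟩
    have h1 := lmot_add hω0 (lmot_smul hωX (t0 ^ 2))
    have h2 : ldF p o x y a N1 N2 la + t0 ^ 2 • ldF p o x y a N1 N2 lx +
        t0 ^ 2 • ldF p o x y a N1 N2 lx = ldF p o x y a N1 N2 la := by
      funext b
      simp only [Pi.smul_apply, Pi.add_apply, smul_eq_mul]
      (rw [← sub_eq_zero]; ring_nf; try reduce_mod_char!)
    rwa [h2] at h1
  -- values
  obtain ⟨α, hα⟩ : ∃ α, α = cu (ωA o) la lx + cu (ωA a) la lx := ⟨_, rfl⟩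
  obtain ⟨β, hβ⟩ : ∃ β, β = cu (ωX o) la lx + cu (ωX a) la lx := ⟨_, rfl⟩
  obtain ⟨γ, hγ⟩ : ∃ γ, γ = cu (ωA o) lx la + cu (ωA x) lx la := ⟨_, rfl⟩
  obtain ⟨δ, hδ⟩ : ∃ δ, δ = cu (ωX o) lx la + cu (ωX x) lx la := ⟨_, rfl⟩
  obtain ⟨ε1, hε1⟩ : ∃ ε1, ε1 = cu (ωA o) ly la + cu (ωA y) ly la := ⟨_, rfl⟩
  obtain ⟨ε2, hε2⟩ : ∃ ε2, ε2 = cu (ωX o) ly la + cu (ωX y) ly la := ⟨_, rfl⟩
  -- edges of `E'`
  have E'ox : ({o, x} : Finset V) ∈ E' := (D.hE' o x D.xo.symm).2
    (Or.inl ⟨D.ox, D.h1o.symm, D.h2o.symm, D.x1, D.x2⟩)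
  have E'oy : ({o, y} : Finset V) ∈ E' := (D.hE' o y D.yo.symm).2
    (Or.inl ⟨D.oy, D.h1o.symm, D.h2o.symm, D.y1, D.y2⟩)
  have E'oa : ({o, a} : Finset V) ∈ E' := (D.hE' o a D.ao.symm).2
    (Or.inr (Or.inl ⟨rfl, Or.inl rfl⟩))
  have ldx : ∀ u, ldF p o x y a N1 N2 u x = 0 := by
    intro u
    simp only [ldF, if_neg D.N1x, if_neg (not_or.2 ⟨D.xa, D.N2x⟩)]
  have ldy : ∀ u, ldF p o x y a N1 N2 u y = 0 := by
    intro u
    simp only [ldF, if_neg D.N1y, if_neg (not_or.2 ⟨D.ya, D.N2y⟩)]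
  have lda : ∀ u, ldF p o x y a N1 N2 u a = br la u ^ 2 * br la ly * br la lx := by
    intro u
    simp only [ldF, if_neg D.N1a, true_or, if_true, ← hla, ← hlx, ← hly]
  have atz : ∀ (z : V) (hz : z ≠ o) (he : ({o, z} : Finset V) ∈ E') (u : K × K)
      (ω : V → Fin 6 → K),
      LMot p E' ((I.erase v1).erase v2) o (ldF p o x y a N1 N2 u) ω →
      cu (ω o) (p z - p o) (p z - p o) + cu (ω z) (p z - p o) (p z - p o) =
        ldF p o x y a N1 N2 u z := by
    intro z hz he u ω hω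
    have e1 := hω.eq o z hz.symm he
    have e2 := hω.eq z o hz (by rw [Finset.pair_comm]; exact he)
    rw [if_pos rfl] at e1
    rw [if_neg hz, add_zero, c2_sub_pair (p o) (p z)] at e2
    linear_combination (norm := (ring_nf; try reduce_mod_char!)) e1 + e2
  -- the identities for all admissible `t`
  have main : ∀ t : K, t ∉ S →
      (α + (br la lx ^ 3 * br la ly + γ) * t + β * t ^ 2 + δ * t ^ 3 = 0) ∧
      (br la ly + t * br lx ly) * (t * br la lx ^ 3 * br la ly + (α + t ^ 2 * β)) *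
        br la ly = t * br la lx ^ 2 * (ε1 + t ^ 2 * ε2) := by
    intro t ht
    obtain ⟨h0, h1⟩ := good t ht
    obtain ⟨ω, hω, P0, P1⟩ := adm' t ht
    have hω' : ω = ωA + t ^ 2 • ωX := by
      apply lmot_unique hp hω
      rw [ldadd]
      exact lmot_add hωA (lmot_smul hωX _)
    have ea := atz a D.ao E'oa (la + t • lx) ω hω
    have ex := atz x D.xo E'ox (la + t • lx) ω hω
    have ey := atz y D.yo E'oy (la + t • lx) ω hω
    rw [lda, ← hla] at ea
    rw [ldx, ← hlx] at ex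
    rw [ldy, ← hly] at ey
    have hbr : br la (la + t • lx) = t * br la lx := by
      rw [br_comm, brua]
    have v1' : cu (ω o) la lx + cu (ω a) la lx = α + t ^ 2 * β := by
      rw [hα, hβ, hω']
      simp only [Pi.add_apply, Pi.smul_apply, cu_addw, cu_smulw]
      ring
    have v2' : cu (ω o) lx la + cu (ω x) lx la = γ + t ^ 2 * δ := by
      rw [hγ, hδ, hω']
      simp only [Pi.add_apply, Pi.smul_apply, cu_addw, cu_smulw]
      ring
    have v3' : cu (ω o) ly la + cu (ω y) ly la = ε1 + t ^ 2 * ε2 := by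
      rw [hε1, hε2, hω']
      simp only [Pi.add_apply, Pi.smul_apply, cu_addw, cu_smulw]
      ring
    -- `F_a(a,u)`
    have Fa : cu (ω o) la (la + t • lx) + cu (ω a) la (la + t • lx) =
        (t * br la lx) ^ 2 * br la ly * br la lx + t * (α + t ^ 2 * β) := by
      rw [cu_add_right, cu_add_right, cu_smul_right, cu_smul_right, ← v1', ← hbr]
      linear_combination ea
    have Fx : cu (ω o) lx (la + t • lx) + cu (ω x) lx (la + t • lx) = γ + t ^ 2 * δ := by
      rw [cu_add_right, cu_add_right, cu_smul_right, cu_smul_right, ← v2']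
      linear_combination t * ex
    have Fy : br la ly * (cu (ω o) ly (la + t • lx) + cu (ω y) ly (la + t • lx)) =
        (br la ly + t * br lx ly) * (ε1 + t ^ 2 * ε2) := by
      have q1 := cu_pr (ω o) ly la ly (la + t • lx)
      have q2 := cu_pr (ω y) ly la ly (la + t • lx)
      rw [brua, bruy, br_comm ly la] at q1 q2
      rw [← v3']
      linear_combination (norm := (ring_nf; try reduce_mod_char!)) q1 + q2 + (t * br la lx) * ey
    constructor
    · rw [brux, Fa, Fx, hbr] at P0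
      have q : (t * br la lx ^ 2) * (α + (br la lx ^ 3 * br la ly + γ) * t + β * t ^ 2 +
          δ * t ^ 3) = 0 := by
        linear_combination (norm := (ring_nf; try reduce_mod_char!)) P0
      exact (mul_eq_zero.1 q).resolve_left (mul_ne_zero h0 (pow_ne_zero 2 gax))
    · rw [bruy, Fa, hbr] at P1
      have q : (t * (br la ly + t * br lx ly)) *
          ((br la ly + t * br lx ly) * (t * br la lx ^ 3 * br la ly + (α + t ^ 2 * β)) *
        br la ly) = (t * (br la ly + t * br lx ly)) * (t * br la lx ^ 2 * (ε1 + t ^ 2 * ε2)) := by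
        linear_combination (br la ly) * P1 + (t * br la lx) ^ 2 * Fy
      exact mul_left_cancel₀ (mul_ne_zero h0 h1) q
  -- coefficients
  obtain ⟨hα0, hγ0, hβ0, hδ0, -⟩ := poly_id (a0 := α) (a1 := br la lx ^ 3 * br la ly + γ)
    (a2 := β) (a3 := δ) (a4 := 0) S (by
      intro t ht
      have := (main t ht).1
      linear_combination this)
  obtain ⟨-, h2, -, -, -⟩ := poly_id (a0 := br la ly ^ 3 * br la lx + ε1)
    (a1 := br la ly ^ 2 * br lx ly * br la lx) (a2 := ε2) (a3 := 0) (a4 := 0) S (by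
      intro t ht
      obtain ⟨h0, h1⟩ := good t ht
      have := (main t ht).2
      rw [hα0, hβ0] at this
      have q : (t * br la lx ^ 2) * (br la ly ^ 3 * br la lx + ε1 +
          br la ly ^ 2 * br lx ly * br la lx * t + ε2 * t ^ 2 + 0 * t ^ 3 + 0 * t ^ 4) = 0 := by
        linear_combination (norm := (ring_nf; try reduce_mod_char!)) this
      exact (mul_eq_zero.1 q).resolve_left (mul_ne_zero h0 (pow_ne_zero 2 gax)))
  exact mul_ne_zero (mul_ne_zero (pow_ne_zero 2 gay) gxy) gax h2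

end Pool.Agent.Spl2
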