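import Pool.Agent.Spl2.Cub

/-!
# Rule F3 (contraction of a face), the limit

`o, v1, v2` is a face; `x` common neighbour of `o, v1`; `y` of `o, v2`; `a` of `v1, v2`; `N1`, `N2` the other
neighbours of `v1`, `v2`.  Positions `v1 = o + X² u`, `v2 = o + X² (λ u + X f)`.

From a motion over `K[X]` which does not vanish at `X = 0` one gets (at `X = 0`) a loaded motion `ω` of the
contracted graph with the load `ldF u` at `o` and the condition (P).

Proof.  `H1 = u`, `H2 = λ u + X f`, `H12 = H1 + H2`, `κi = w vi + w o`, `F_Z = cu (w o) + cu (w Z)`.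
`short`: `ad κi Hi = X² cu (w o) Hi Hi`, `cu κi Hi Hi = 0`, `ad (κ1 + κ2) H12 = X² cu (w v1) H12 H12`,
`cu κ1 H12 H12 = cu κ2 H12 H12`.  `twin`: `ad κ1 Lx = X² cu (w x) Lx H1 + X⁴ r1`,
`ad κ2 Ly = X² cu (w y) Ly H2 + X⁴ r2`, `ad (κ1 + κ2) La = X² cu (w a) La H12 + X⁴ r3`.
With `ad_pl`, `cu_pl` (`B1 = [H1,Lx]`, `B2 = [H2,Ly]`):
`B1² B2² cu κ1 H12 H12 = [H1,H2]² (B2² F_x(Lx,H1) + B1² F_y(Ly,H2) + X² ...)`, `[H1,H2] = X [u,f]`, so
`X² ∣ cu κ1 H12 H12`; with `cu κi Hi Hi = 0` it follows that at `X = 0` both `κi` have a double zero at `u`.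
`B1² B2² F_a(La,H12) = B2² [La,H1]² F_x(Lx,H1) + B1² [La,H2]² F_y(Ly,H2) + X² ...`: (P) at `X = 0`.
-/

set_option autoImplicit false

namespace Pool.Agent.Spl2

open Finset Pool.Agent.Spl1 Polynomial

variable {V : Type*} [Fintype V] [DecidableEq V]

/-- the data of rule F3 -/
structure F3Data (E E' : Finset (Finset V)) (I : Finset V) (o v1 v2 x y a : V)
    (N1 N2 : Finset V) : Prop where
  h1o : v1 ≠ o
  h2o : v2 ≠ o
  h12 : v1 ≠ v2
  xo : x ≠ o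
  x1 : x ≠ v1
  x2 : x ≠ v2
  yo : y ≠ o
  y1 : y ≠ v1
  y2 : y ≠ v2
  ao : a ≠ o
  a1 : a ≠ v1
  a2 : a ≠ v2
  xy : x ≠ y
  xa : x ≠ a
  ya : y ≠ a
  I1 : v1 ∈ I
  I2 : v2 ∈ I
  N1o : o ∉ N1
  N11 : v1 ∉ N1
  N12 : v2 ∉ N1
  N1x : x ∉ N1
  N1y : y ∉ N1
  N1a : a ∉ N1
  N2o : o ∉ N2
  N21 : v1 ∉ N2
  N22 : v2 ∉ N2
  N2x : x ∉ N2
  N2y : y ∉ N2
  N2a : a ∉ N2
  N12d : Disjoint N1 N2
  n1 : ∀ b, b ≠ v1 → (({v1, b} : Finset V) ∈ E ↔ b = o ∨ b = v2 ∨ b = x ∨ b = a ∨ b ∈ N1)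
  n2 : ∀ b, b ≠ v2 → (({v2, b} : Finset V) ∈ E ↔ b = o ∨ b = v1 ∨ b = y ∨ b = a ∨ b ∈ N2)
  ox : ({o, x} : Finset V) ∈ E
  oy : ({o, y} : Finset V) ∈ E
  oa : ({o, a} : Finset V) ∉ E
  oN1 : ∀ b ∈ N1, ({o, b} : Finset V) ∉ E
  oN2 : ∀ b ∈ N2, ({o, b} : Finset V) ∉ E
  hE' : ∀ b c, b ≠ c → (({b, c} : Finset V) ∈ E' ↔
      (({b, c} : Finset V) ∈ E ∧ b ≠ v1 ∧ b ≠ v2 ∧ c ≠ v1 ∧ c ≠ v2) ∨
      (b = o ∧ (c = a ∨ c ∈ N1 ∨ c ∈ N2)) ∨ (c = o ∧ (b = a ∨ b ∈ N1 ∨ b ∈ N2)))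

/-- the load of rule F3 -/
def ldF {K : Type*} [Field K] (p : V → K × K) (o x y a : V) (N1 N2 : Finset V) (u : K × K) :
    V → K := fun b =>
  if b ∈ N1 then br (p b - p o) u ^ 2 * br (p b - p o) (p x - p o) * br (p a - p o) (p y - p o)
  else if b = a ∨ b ∈ N2 then
    br (p b - p o) u ^ 2 * br (p b - p o) (p y - p o) * br (p a - p o) (p x - p o)
  else 0

theorem f3_cc {K : Type*} [Field K] (w : Fin 6 → K[X]) (x y : K[X] × K[X]) (x0 y0 : K × K)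
    (hx : ((constantCoeff : K[X] →+* K) x.1, (constantCoeff : K[X] →+* K) x.2) = x0)
    (hy : ((constantCoeff : K[X] →+* K) y.1, (constantCoeff : K[X] →+* K) y.2) = y0) :
    (constantCoeff : K[X] →+* K) (cu w x y) = cu (c0 w) x0 y0 := by
  subst hx hy
  exact (cu_map (constantCoeff : K[X] →+* K) w x y).symm

theorem f3_ad {K : Type*} [Field K] (w : Fin 6 → K[X]) (x : K[X] × K[X]) (x0 : K × K)
    (hx : ((constantCoeff : K[X] →+* K) x.1, (constantCoeff : K[X] →+* K) x.2) = x0) :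
    (constantCoeff : K[X] →+* K) (ad w x) = ad (c0 w) x0 := by
  subst hx
  exact (ad_map (constantCoeff : K[X] →+* K) w x).symm

theorem f3_br {K : Type*} [Field K] (x y : K[X] × K[X]) (x0 y0 : K × K)
    (hx : ((constantCoeff : K[X] →+* K) x.1, (constantCoeff : K[X] →+* K) x.2) = x0)
    (hy : ((constantCoeff : K[X] →+* K) y.1, (constantCoeff : K[X] →+* K) y.2) = y0) :
    (constantCoeff : K[X] →+* K) (br x y) = br x0 y0 := by
  subst hx hy
  simp [br]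

/-- the polynomial part of the limit argument -/
theorem F3core {K : Type*} [Field K] [CharP K 2] (wo w1 w2 wx wy wa : Fin 6 → K[X])
    (u f lx ly la : K × K) (lam : K) (hl0 : lam ≠ 0) (hl1 : 1 + lam ≠ 0) (huf : br u f ≠ 0)
    (hux : br u lx ≠ 0) (huy : br u ly ≠ 0)
    (H2 : K[X] × K[X]) (hH2 : H2 = (C lam : K[X]) • cK u + (X : K[X]) • cK f)
    (s1 : ad (w1 + wo) (cK u) = X ^ 2 * cu wo (cK u) (cK u))
    (s1' : cu w1 (cK u) (cK u) = cu wo (cK u) (cK u))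
    (s2 : ad (w2 + wo) H2 = X ^ 2 * cu wo H2 H2)
    (s2' : cu w2 H2 H2 = cu wo H2 H2)
    (s3 : ad (w2 + w1) (cK u + H2) = X ^ 2 * cu w1 (cK u + H2) (cK u + H2))
    (s3' : cu w2 (cK u + H2) (cK u + H2) = cu w1 (cK u + H2) (cK u + H2))
    (r1 r2 r3 : K[X])
    (t1 : ad (w1 + wo) (cK lx) = X ^ 2 * cu wx (cK lx) (cK u) + X ^ 4 * r1)
    (t2 : ad (w2 + wo) (cK ly) = X ^ 2 * cu wy (cK ly) H2 + X ^ 4 * r2)
    (t3 : ad (w2 + w1) (cK la) = X ^ 2 * cu wa (cK la) (cK u + H2) + X ^ 4 * r3) :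
    (cu (c0 (w1 + wo)) u u = 0 ∧ cu (c0 (w1 + wo)) u f = 0) ∧
    (cu (c0 (w2 + wo)) u u = 0 ∧ cu (c0 (w2 + wo)) u f = 0) ∧
    br u lx ^ 2 * br u ly ^ 2 * ((1 + lam) * (cu (c0 wo) la u + cu (c0 wa) la u)) =
      br u ly ^ 2 * br la u ^ 2 * (cu (c0 wo) lx u + cu (c0 wx) lx u) +
      lam * (br u lx ^ 2 * br la u ^ 2 * (cu (c0 wo) ly u + cu (c0 wy) ly u)) := by
  have hXX : (X : K[X]) ^ 2 ≠ 0 := pow_ne_zero 2 X_ne_zero
  obtain ⟨H1, hH1⟩ : ∃ H1 : K[X] × K[X], H1 = cK u := ⟨_, rfl⟩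
  obtain ⟨L, hL⟩ : ∃ L : K[X] × K[X], L = cK lx := ⟨_, rfl⟩
  obtain ⟨M, hM⟩ : ∃ M : K[X] × K[X], M = cK ly := ⟨_, rfl⟩
  obtain ⟨A, hA⟩ : ∃ A : K[X] × K[X], A = cK la := ⟨_, rfl⟩
  rw [← hH1, ← hL] at t1
  rw [← hH1] at s1 s1' s3 s3'
  rw [← hM] at t2
  rw [← hA, ← hH1] at t3
  -- the bracket of the two directions
  have hτ : br H1 H2 = X * C (br u f) := by
    rw [hH2, hH1, br_add_right, br_smul_right, br_smul_right, br_self, br_cK]
    ring
  -- values of the additive forms at `H12` and at `A`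
  have key : ∀ q : K[X] × K[X], br H1 L ^ 2 * br H2 M ^ 2 * ad (w2 + w1) q =
      X ^ 2 * (br H2 M ^ 2 * (br q L ^ 2 * cu wo H1 H1 + br q H1 ^ 2 * (cu wx L H1 + X ^ 2 * r1)) +
        br H1 L ^ 2 * (br q M ^ 2 * cu wo H2 H2 + br q H2 ^ 2 * (cu wy M H2 + X ^ 2 * r2))) := by
    intro q
    have e1 := ad_pl (w1 + wo) H1 L q
    have e2 := ad_pl (w2 + wo) H2 M q
    rw [s1, t1] at e1
    rw [s2, t2] at e2
    rw [ad_addw] at e1 e2 ⊢
    linear_combination (norm := (ring_nf; try reduce_mod_char!)) (br H2 M ^ 2) * e1 + (br H1 L ^ 2) * e2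
  have key2 : ∀ q : K[X] × K[X], br H1 L ^ 2 * br H2 M ^ 2 * ad (w2 + w1) q =
      X ^ 2 * (br H1 L ^ 2 * br H2 M ^ 2 * cu wo q (H1 + H2) +
        br H2 M ^ 2 * (br q H1 ^ 2 * (cu wo L H1 + cu wx L H1 + X ^ 2 * r1)) +
        br H1 L ^ 2 * (br q H2 ^ 2 * (cu wo M H2 + cu wy M H2 + X ^ 2 * r2))) := by
    intro q
    have e1 := cu_pl wo H1 L q H1
    have e2 := cu_pl wo H2 M q H2
    have e3 := key q
    rw [cu_add_right]
    linear_combination (norm := (ring_nf; try reduce_mod_char!)) e3 + (X ^ 2 * br H2 M ^ 2) * e1 + (X ^ 2 * br H1 L ^ 2) * e2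
  -- divisibility of `κ1` at `H12`
  have hd1 : br H1 L ^ 2 * br H2 M ^ 2 * cu (w1 + wo) (H1 + H2) (H1 + H2) =
      X ^ 2 * (C (br u f) ^ 2 * (br H2 M ^ 2 * (cu wo L H1 + cu wx L H1 + X ^ 2 * r1) +
        br H1 L ^ 2 * (cu wo M H2 + cu wy M H2 + X ^ 2 * r2))) := by
    have e := key2 (H1 + H2)
    rw [s3] at e
    have e1 : br (H1 + H2) H1 = X * C (br u f) := by
      rw [br_add_left, br_self, zero_add, br_comm, hτ]
    have e2 : br (H1 + H2) H2 = X * C (br u f) := by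
      rw [br_add_left, br_self, add_zero, hτ]
    rw [e1, e2] at e
    apply mul_left_cancel₀ hXX
    rw [cu_addw]
    linear_combination (norm := (ring_nf; try reduce_mod_char!)) e
  have hB1 : ¬ (X : K[X]) ∣ br H1 L := by
    rw [X_dvd_iff, ← constantCoeff_apply, hH1, hL, cc_br]
    exact hux
  have hc2 : ((constantCoeff : K[X] →+* K) H2.1, (constantCoeff : K[X] →+* K) H2.2) =
      lam • u := by
    rw [hH2]
    ext1 <;> simp [cK]
  have hc1 : ((constantCoeff : K[X] →+* K) H1.1, (constantCoeff : K[X] →+* K) H1.2) = u := by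
    rw [hH1]
    ext1 <;> simp [cK]
  have hcL : ((constantCoeff : K[X] →+* K) L.1, (constantCoeff : K[X] →+* K) L.2) = lx := by
    rw [hL]
    ext1 <;> simp [cK]
  have hcM : ((constantCoeff : K[X] →+* K) M.1, (constantCoeff : K[X] →+* K) M.2) = ly := by
    rw [hM]
    ext1 <;> simp [cK]
  have hcA : ((constantCoeff : K[X] →+* K) A.1, (constantCoeff : K[X] →+* K) A.2) = la := by
    rw [hA]
    ext1 <;> simp [cK]
  have hB2 : ¬ (X : K[X]) ∣ br H2 M := by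
    rw [X_dvd_iff, ← constantCoeff_apply, f3_br H2 M (lam • u) ly hc2 hcM, br_smul_left]
    exact mul_ne_zero hl0 huy
  have hdvd : (X : K[X]) ^ 2 ∣ cu (w1 + wo) (H1 + H2) (H1 + H2) := by
    have hp : Prime (X : K[X]) := prime_X
    apply hp.pow_dvd_of_dvd_mul_left 2 (a := br H1 L ^ 2 * br H2 M ^ 2)
    · intro h
      rcases hp.dvd_or_dvd h with h | h
      · exact hB1 (hp.dvd_of_dvd_pow h)
      · exact hB2 (hp.dvd_of_dvd_pow h)
    · rw [hd1]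
      exact Dvd.intro _ rfl
  obtain ⟨q1, hq1⟩ := hdvd
  have hsum : H1 + H2 = (C (1 + lam) : K[X]) • H1 + (X : K[X]) • cK f := by
    rw [hH2, hH1, map_add, map_one, add_smul, one_smul, add_assoc]
  have hk1 : cu (w1 + wo) H1 H1 = 0 := by
    rw [cu_addw, s1']
    (rw [← sub_eq_zero]; ring_nf; try reduce_mod_char!)
  have hCl : (C (1 + lam) : K[X]) ≠ 0 := by
    rw [Ne, C_eq_zero]; exact hl1
  have hC0 : (C lam : K[X]) ≠ 0 := by
    rw [Ne, C_eq_zero]; exact hl0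
  -- `κ1` has a double zero
  have hk1' : cu (w1 + wo) H1 (cK f) * (C (1 + lam)) ^ 2 =
      X * (q1 + C (1 + lam) * cu (w1 + wo) (cK f) H1 + X * cu (w1 + wo) (cK f) (cK f)) := by
    rw [hsum, cu_sum, cu_smul_left, cu_smul_right, cu_smul_left, cu_smul_right, cu_smul_left,
      cu_smul_right, cu_smul_left, cu_smul_right, hk1] at hq1
    apply mul_left_cancel₀ (X_ne_zero : (X : K[X]) ≠ 0)
    linear_combination (norm := (ring_nf; try reduce_mod_char!)) hq1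
  have hq2 : cu (w2 + wo) (H1 + H2) (H1 + H2) = X ^ 2 * q1 := by
    rw [← hq1, cu_addw, cu_addw, s3']
  have hk2 : cu (w2 + wo) H2 H2 = 0 := by
    rw [cu_addw, s2']
    (rw [← sub_eq_zero]; ring_nf; try reduce_mod_char!)
  have hk2a : (C lam) ^ 3 * cu (w2 + wo) H1 H1 + (C lam) ^ 2 * X * cu (w2 + wo) H1 (cK f) =
      X ^ 2 * (C lam * cu (w2 + wo) (cK f) H1 + X * cu (w2 + wo) (cK f) (cK f)) := by
    rw [hH2, ← hH1, cu_sum, cu_smul_left, cu_smul_right, cu_smul_left, cu_smul_right,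
      cu_smul_left, cu_smul_right, cu_smul_left, cu_smul_right] at hk2
    linear_combination (norm := (ring_nf; try reduce_mod_char!)) hk2
  have hk2b : (C (1 + lam)) ^ 3 * cu (w2 + wo) H1 H1 +
      (C (1 + lam)) ^ 2 * X * cu (w2 + wo) H1 (cK f) =
      X ^ 2 * (q1 + C (1 + lam) * cu (w2 + wo) (cK f) H1 + X * cu (w2 + wo) (cK f) (cK f)) := by
    rw [hsum, cu_sum, cu_smul_left, cu_smul_right, cu_smul_left, cu_smul_right, cu_smul_left,
      cu_smul_right, cu_smul_left, cu_smul_right] at hq2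
    linear_combination (norm := (ring_nf; try reduce_mod_char!)) hq2
  have hk2c : (C lam) ^ 2 * (C (1 + lam)) ^ 2 * cu (w2 + wo) H1 H1 =
      X ^ 2 * ((C lam) ^ 2 * (q1 + C (1 + lam) * cu (w2 + wo) (cK f) H1 +
        X * cu (w2 + wo) (cK f) (cK f)) + (C (1 + lam)) ^ 2 *
        (C lam * cu (w2 + wo) (cK f) H1 + X * cu (w2 + wo) (cK f) (cK f))) := by
    have e : (C (1 + lam) : K[X]) = 1 + C lam := by rw [map_add, map_one]
    rw [e] at hk2b ⊢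
    linear_combination (norm := (ring_nf; try reduce_mod_char!)) ((C lam) ^ 2) * hk2b + ((1 + C lam) ^ 2) * hk2a
  refine ⟨⟨?_, ?_⟩, ⟨?_, ?_⟩, ?_⟩
  · have := congrArg (constantCoeff : K[X] →+* K) hk1
    rwa [f3_cc _ _ _ u u hc1 hc1, map_zero] at this
  · have := congrArg (constantCoeff : K[X] →+* K) hk1'
    rw [map_mul, map_mul, cc_X, zero_mul, hH1, cc_cu, map_pow, cc_C] at this
    exact (mul_eq_zero.1 this).resolve_right (pow_ne_zero 2 hl1)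
  · have := congrArg (constantCoeff : K[X] →+* K) hk2c
    rw [map_mul, map_mul, map_mul, map_pow, map_pow, map_pow, cc_X, cc_C, cc_C,
      f3_cc _ _ _ u u hc1 hc1] at this
    have h2 : lam ^ 2 * (1 + lam) ^ 2 * cu (c0 (w2 + wo)) u u = 0 := by
      rw [this]; ring
    exact (mul_eq_zero.1 h2).resolve_left (mul_ne_zero (pow_ne_zero 2 hl0) (pow_ne_zero 2 hl1))
  · -- eliminate the first term from `hk2a`
    have e1 : X * ((C lam) ^ 2 * (C (1 + lam)) ^ 2 * cu (w2 + wo) H1 (cK f)) =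
        X * (X * ((C (1 + lam)) ^ 2 *
          (C lam * cu (w2 + wo) (cK f) H1 + X * cu (w2 + wo) (cK f) (cK f)) +
          C lam * ((C lam) ^ 2 * (q1 + C (1 + lam) * cu (w2 + wo) (cK f) H1 +
        X * cu (w2 + wo) (cK f) (cK f)) + (C (1 + lam)) ^ 2 *
        (C lam * cu (w2 + wo) (cK f) H1 + X * cu (w2 + wo) (cK f) (cK f))))) := by
      linear_combination (norm := (ring_nf; try reduce_mod_char!)) ((C (1 + lam)) ^ 2) * hk2a + (C lam) * hk2c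
    have e2 := congrArg (constantCoeff : K[X] →+* K) (mul_left_cancel₀ X_ne_zero e1)
    rw [map_mul, map_mul, map_pow, map_pow, cc_C, cc_C, map_mul, cc_X, zero_mul, hH1,
      cc_cu] at e2
    exact (mul_eq_zero.1 e2).resolve_left (mul_ne_zero (pow_ne_zero 2 hl0) (pow_ne_zero 2 hl1))
  · -- (P)
    have e := key2 A
    rw [t3] at e
    have e' : X ^ 2 * (br H1 L ^ 2 * br H2 M ^ 2 *
        (cu wo A (H1 + H2) + cu wa A (H1 + H2) + X ^ 2 * r3)) =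
        X ^ 2 * (br H2 M ^ 2 * (br A H1 ^ 2 * (cu wo L H1 + cu wx L H1 + X ^ 2 * r1)) +
        br H1 L ^ 2 * (br A H2 ^ 2 * (cu wo M H2 + cu wy M H2 + X ^ 2 * r2))) := by
      linear_combination (norm := (ring_nf; try reduce_mod_char!)) e
    have e2 := congrArg (constantCoeff : K[X] →+* K) (mul_left_cancel₀ hXX e')
    have hcs : ((constantCoeff : K[X] →+* K) (H1 + H2).1,
        (constantCoeff : K[X] →+* K) (H1 + H2).2) = (1 + lam) • u := by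
      rw [hH2, hH1]
      ext1 <;> simp [cK, add_mul]
    simp only [map_mul, map_add, map_pow, cc_X, f3_br _ _ _ _ hc1 hcL, f3_br _ _ _ _ hc2 hcM,
      f3_br _ _ _ _ hcA hc1, f3_br _ _ _ _ hcA hc2, f3_cc _ _ _ _ _ hcA hcs,
      f3_cc _ _ _ _ _ hcL hc1, f3_cc _ _ _ _ _ hcM hc2, br_smul_left, br_smul_right,
      cu_smul_right] at e2
    have e3 : lam ^ 2 * (br u lx ^ 2 * br u ly ^ 2 *
        ((1 + lam) * (cu (c0 wo) la u + cu (c0 wa) la u))) =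
        lam ^ 2 * (br u ly ^ 2 * br la u ^ 2 * (cu (c0 wo) lx u + cu (c0 wx) lx u) +
      lam * (br u lx ^ 2 * br la u ^ 2 * (cu (c0 wo) ly u + cu (c0 wy) ly u))) := by
      linear_combination e2
    exact mul_left_cancel₀ (pow_ne_zero 2 hl0) e3

end Pool.Agent.Spl2
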