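import Pool.Agent.Spl2.F3L

/-!
# Rule F3, the limit motion

Applies `F3core` to a motion over `K[X]` of the graph at the positions `v1 = o + X² u`,
`v2 = o + X² (λ u + X f)`.
-/

set_option autoImplicit false

namespace Pool.Agent.Spl2

open Finset Pool.Agent.Spl1 Polynomial

variable {V : Type*} [Fintype V] [DecidableEq V]

/-- the equations of a neighbour `b` of the moving vertex `v` at `o + ε H` -/
theorem f3_near {K : Type*} [Field K] [CharP K 2] {wv wb : Fin 6 → K[X]} {P Q : K[X] × K[X]}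
    {L H : K[X] × K[X]} {ε : K[X]} (hPQ : Q - P = L + ε • H)
    (h1 : cu wv (Q - P) (Q - P) = ad wv (Q - P) + ad wb (Q - P))
    (h2 : cu wb (P - Q) (P - Q) = ad wb (P - Q) + ad wv (P - Q)) :
    cu wb (L + ε • H) (L + ε • H) = ad wb (L + ε • H) + ad wv (L + ε • H) ∧
    cu wv (L + ε • H) (L + ε • H) = ad wv (L + ε • H) + ad wb (L + ε • H) := by
  rw [c2_sub_pair P Q, hPQ] at h2
  rw [hPQ] at h1
  exact ⟨h2, h1⟩

/-- two moving vertices with a common neighbour -/
theorem twin2 {R : Type*} [CommRing R] [CharP R 2] {wa w1 w2 : Fin 6 → R} {L H1 H2 : R × R} {ε : R}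
    (h1 : cu wa (L + ε • H1) (L + ε • H1) = ad wa (L + ε • H1) + ad w1 (L + ε • H1))
    (h2 : cu wa (L + ε • H2) (L + ε • H2) = ad wa (L + ε • H2) + ad w2 (L + ε • H2)) :
    ad (w2 + w1) L = ε * cu wa L (H1 + H2) + ε ^ 2 * (cu wa H1 L + cu wa H2 L + ad wa H1 +
      ad wa H2 + ad w1 H1 + ad w2 H2 + ε * cu wa H1 H1 + ε * cu wa H2 H2) := by
  rw [cu_sum, ad_add, ad_add, cu_smul_right, cu_smul_left, cu_smul_left, cu_smul_right,
    ad_smul, ad_smul] at h1 h2
  rw [ad_addw, cu_add_right]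
  linear_combination (norm := (ring_nf; try reduce_mod_char!)) h1 + h2

theorem F3lim {E E' : Finset (Finset V)} {I : Finset V} {o v1 v2 x y a : V} {N1 N2 : Finset V}
    (D : F3Data E E' I o v1 v2 x y a N1 N2) {K : Type} [Field K] [CharP K 2] {p : V → K × K}
    (hp : NNS p E' ((I.erase v1).erase v2)) (hgp : GP p) (u f : K × K) (lam : K)
    (hl0 : lam ≠ 0) (hl1 : 1 + lam ≠ 0) (huf : br u f ≠ 0)
    (hux : br u (p x - p o) ≠ 0) (huy : br u (p y - p o) ≠ 0) (hua : br u (p a - p o) ≠ 0)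
    (hn : ¬ NG E I) :
    ∃ ω : V → Fin 6 → K, LMot p E' ((I.erase v1).erase v2) o (ldF p o x y a N1 N2 u) ω ∧
      br u (p x - p o) ^ 2 * br u (p y - p o) ^ 2 *
        ((1 + lam) * (cu (ω o) (p a - p o) u + cu (ω a) (p a - p o) u)) =
      br u (p y - p o) ^ 2 * br (p a - p o) u ^ 2 *
        (cu (ω o) (p x - p o) u + cu (ω x) (p x - p o) u) +
      lam * (br u (p x - p o) ^ 2 * br (p a - p o) u ^ 2 *
        (cu (ω o) (p y - p o) u + cu (ω y) (p y - p o) u)) := by
  classical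
  obtain ⟨H2, hH2⟩ : ∃ H2 : K[X] × K[X], H2 = (C lam : K[X]) • cK u + (X : K[X]) • cK f := ⟨_, rfl⟩
  obtain ⟨P, hP⟩ : ∃ P : V → K[X] × K[X], P = fun v => if v = v1 then
    cK (p o) + (X ^ 2 : K[X]) • cK u else if v = v2 then cK (p o) + (X ^ 2 : K[X]) • H2
    else cK (p v) := ⟨_, rfl⟩
  have hX2 : (X ^ 2 : K[X]) ≠ 0 := pow_ne_zero 2 X_ne_zero
  obtain ⟨w, hw, v0, i0, hv0⟩ := lim P hn
  have P1 : P v1 = cK (p o) + (X ^ 2 : K[X]) • cK u := by rw [hP]; simp
  have P2 : P v2 = cK (p o) + (X ^ 2 : K[X]) • H2 := by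
    rw [hP]; simp [D.h12.symm]
  have P0 : ∀ v, v ≠ v1 → v ≠ v2 → P v = cK (p v) := by
    intro v h1 h2
    rw [hP]; simp [h1, h2]
  have Po : P o = cK (p o) := P0 o D.h1o.symm D.h2o.symm
  have hcH2 : ((constantCoeff : K[X] →+* K) H2.1, (constantCoeff : K[X] →+* K) H2.2) =
      lam • u := by
    rw [hH2]
    ext1 <;> simp [cK]
  have hcu : ((constantCoeff : K[X] →+* K) (cK u).1, (constantCoeff : K[X] →+* K) (cK u).2) =
      u := by
    ext1 <;> simp [cK]
  -- both equations of an edge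
  have both : ∀ b c, b ≠ c → ({b, c} : Finset V) ∈ E →
      cu (w b) (P c - P b) (P c - P b) = ad (w b) (P c - P b) + ad (w c) (P c - P b) ∧
      cu (w c) (P b - P c) (P b - P c) = ad (w c) (P b - P c) + ad (w b) (P b - P c) :=
    fun b c hbc he => ⟨hw.eq b c hbc he, hw.eq c b hbc.symm (by rw [Finset.pair_comm]; exact he)⟩
  have near1 : ∀ b, b ≠ v1 → b ≠ v2 → ({v1, b} : Finset V) ∈ E →
      cu (w b) (cK (p b - p o) + (X ^ 2 : K[X]) • cK u)
        (cK (p b - p o) + (X ^ 2 : K[X]) • cK u) =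
        ad (w b) (cK (p b - p o) + (X ^ 2 : K[X]) • cK u) +
        ad (w v1) (cK (p b - p o) + (X ^ 2 : K[X]) • cK u) ∧
      cu (w v1) (cK (p b - p o) + (X ^ 2 : K[X]) • cK u)
        (cK (p b - p o) + (X ^ 2 : K[X]) • cK u) =
        ad (w v1) (cK (p b - p o) + (X ^ 2 : K[X]) • cK u) +
        ad (w b) (cK (p b - p o) + (X ^ 2 : K[X]) • cK u) := by
    intro b hb1 hb2 he
    obtain ⟨e1, e2⟩ := both v1 b hb1.symm he
    apply f3_near (P := P v1) (Q := P b) _ e1 e2
    rw [P1, P0 b hb1 hb2, ← cK_sub]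
    ext1
    · simp only [Prod.fst_sub, Prod.fst_add]; (rw [← sub_eq_zero]; ring_nf; try reduce_mod_char!)
    · simp only [Prod.snd_sub, Prod.snd_add]; (rw [← sub_eq_zero]; ring_nf; try reduce_mod_char!)
  have near2 : ∀ b, b ≠ v1 → b ≠ v2 → ({v2, b} : Finset V) ∈ E →
      cu (w b) (cK (p b - p o) + (X ^ 2 : K[X]) • H2)
        (cK (p b - p o) + (X ^ 2 : K[X]) • H2) =
        ad (w b) (cK (p b - p o) + (X ^ 2 : K[X]) • H2) +
        ad (w v2) (cK (p b - p o) + (X ^ 2 : K[X]) • H2) ∧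
      cu (w v2) (cK (p b - p o) + (X ^ 2 : K[X]) • H2)
        (cK (p b - p o) + (X ^ 2 : K[X]) • H2) =
        ad (w v2) (cK (p b - p o) + (X ^ 2 : K[X]) • H2) +
        ad (w b) (cK (p b - p o) + (X ^ 2 : K[X]) • H2) := by
    intro b hb1 hb2 he
    obtain ⟨e1, e2⟩ := both v2 b hb2.symm he
    apply f3_near (P := P v2) (Q := P b) _ e1 e2
    rw [P2, P0 b hb1 hb2, ← cK_sub]
    ext1
    · simp only [Prod.fst_sub, Prod.fst_add]; (rw [← sub_eq_zero]; ring_nf; try reduce_mod_char!)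
    · simp only [Prod.snd_sub, Prod.snd_add]; (rw [← sub_eq_zero]; ring_nf; try reduce_mod_char!)
  have old : ∀ b c, b ≠ c → b ≠ v1 → b ≠ v2 → c ≠ v1 → c ≠ v2 → ({b, c} : Finset V) ∈ E →
      cu (w b) (cK (p c - p b)) (cK (p c - p b)) =
        ad (w b) (cK (p c - p b)) + ad (w c) (cK (p c - p b)) := by
    intro b c hbc hb1 hb2 hc1 hc2 he
    have := hw.eq b c hbc he
    rwa [P0 b hb1 hb2, P0 c hc1 hc2, cK_sub] at this
  -- the edges
  have eo1 : ({o, v1} : Finset V) ∈ E := by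
    rw [Finset.pair_comm]; exact (D.n1 o D.h1o.symm).2 (Or.inl rfl)
  have eo2 : ({o, v2} : Finset V) ∈ E := by
    rw [Finset.pair_comm]; exact (D.n2 o D.h2o.symm).2 (Or.inl rfl)
  have e12 : ({v1, v2} : Finset V) ∈ E := (D.n1 v2 D.h12.symm).2 (Or.inr (Or.inl rfl))
  have e1x : ({v1, x} : Finset V) ∈ E := (D.n1 x D.x1).2 (Or.inr (Or.inr (Or.inl rfl)))
  have e1a : ({v1, a} : Finset V) ∈ E :=
    (D.n1 a D.a1).2 (Or.inr (Or.inr (Or.inr (Or.inl rfl))))
  have e2y : ({v2, y} : Finset V) ∈ E := (D.n2 y D.y2).2 (Or.inr (Or.inr (Or.inl rfl)))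
  have e2a : ({v2, a} : Finset V) ∈ E :=
    (D.n2 a D.a2).2 (Or.inr (Or.inr (Or.inr (Or.inl rfl))))
  have d1 : P v1 - P o = (X ^ 2 : K[X]) • cK u := by rw [P1, Po, add_sub_cancel_left]
  have d2 : P v2 - P o = (X ^ 2 : K[X]) • H2 := by rw [P2, Po, add_sub_cancel_left]
  have d12 : P v2 - P v1 = (X ^ 2 : K[X]) • (cK u + H2) := by
    rw [P1, P2, smul_add]
    ext1
    · simp only [Prod.fst_sub, Prod.fst_add]; (rw [← sub_eq_zero]; ring_nf; try reduce_mod_char!)
    · simp only [Prod.snd_sub, Prod.snd_add]; (rw [← sub_eq_zero]; ring_nf; try reduce_mod_char!)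
  obtain ⟨b1, b1'⟩ := both o v1 D.h1o.symm eo1
  obtain ⟨b2, b2'⟩ := both o v2 D.h2o.symm eo2
  obtain ⟨b3, b3'⟩ := both v1 v2 D.h12 e12
  rw [c2_sub_pair (P o) (P v1)] at b1'
  rw [c2_sub_pair (P o) (P v2)] at b2'
  rw [c2_sub_pair (P v1) (P v2)] at b3'
  rw [d1] at b1 b1'
  rw [d2] at b2 b2'
  rw [d12] at b3 b3'
  have s1 := short hX2 b1
  have s1' := short_cu hX2 b1 b1'
  have s2 := short hX2 b2
  have s2' := short_cu hX2 b2 b2'
  have s3 := short hX2 b3
  have s3' := short_cu hX2 b3 b3'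
  have ox := old x o D.xo D.x1 D.x2 D.h1o.symm D.h2o.symm (by rw [Finset.pair_comm]; exact D.ox)
  have oy := old y o D.yo D.y1 D.y2 D.h1o.symm D.h2o.symm (by rw [Finset.pair_comm]; exact D.oy)
  have sw : ∀ b c : K × K, cK (b - c) = cK (c - b) := by
    intro b c
    rw [← cK_sub, ← cK_sub]
    exact c2_sub_pair _ _
  rw [sw (p o) (p x)] at ox
  rw [sw (p o) (p y)] at oy
  have t1 := twin ox (near1 x D.x1 D.x2 e1x).1
  have t2 := twin oy (near2 y D.y1 D.y2 e2y).1
  have t3 := twin2 (near1 a D.a1 D.a2 e1a).1 (near2 a D.a1 D.a2 e2a).1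
  have hX4 : (X ^ 2 : K[X]) ^ 2 = X ^ 4 := by ring
  rw [hX4] at t1 t2 t3
  have t1' : ad (w v1 + w o) (cK (p x - p o)) = X ^ 2 * cu (w x) (cK (p x - p o)) (cK u) +
      X ^ 4 * (cu (w x) (cK u) (cK (p x - p o)) + ad (w x) (cK u) + ad (w v1) (cK u) +
        X ^ 2 * cu (w x) (cK u) (cK u)) := by
    rw [t1]; ring
  have t2' : ad (w v2 + w o) (cK (p y - p o)) = X ^ 2 * cu (w y) (cK (p y - p o)) H2 +
      X ^ 4 * (cu (w y) H2 (cK (p y - p o)) + ad (w y) H2 + ad (w v2) H2 +
        X ^ 2 * cu (w y) H2 H2) := by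
    rw [t2]; ring
  obtain ⟨⟨k1u, k1f⟩, ⟨k2u, k2f⟩, hPP⟩ := F3core (w o) (w v1) (w v2) (w x) (w y) (w a) u f
    (p x - p o) (p y - p o) (p a - p o) lam hl0 hl1 huf hux huy H2 hH2 s1 s1' s2 s2' s3 s3'
    _ _ _ t1' t2' t3
  rw [c0_add] at k1u k1f k2u k2f
  -- the additive forms agree at `X = 0`
  have a1 : c0 (w v1) 4 = c0 (w o) 4 ∧ c0 (w v1) 5 = c0 (w o) 5 := by
    have q1 : ad (c0 (w v1) + c0 (w o)) u = 0 := by
      have := congrArg (constantCoeff : K[X] →+* K) s1
      rwa [cc_ad, map_mul, map_pow, cc_X, zero_pow two_ne_zero, zero_mul, c0_add] at this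
    have q2 : ad (c0 (w v1) + c0 (w o)) (p x - p o) = 0 := by
      have := congrArg (constantCoeff : K[X] →+* K) t1'
      rw [cc_ad, c0_add] at this
      simpa [map_add, map_mul, map_pow] using this
    obtain ⟨q3, q4⟩ := ad_eq_zero hux q1 q2
    rw [Pi.add_apply] at q3 q4
    constructor
    · linear_combination (norm := (ring_nf; try reduce_mod_char!)) q3
    · linear_combination (norm := (ring_nf; try reduce_mod_char!)) q4
  have a2 : c0 (w v2) 4 = c0 (w o) 4 ∧ c0 (w v2) 5 = c0 (w o) 5 := by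
    have q1 : ad (c0 (w v2) + c0 (w o)) (lam • u) = 0 := by
      have := congrArg (constantCoeff : K[X] →+* K) s2
      rwa [f3_ad _ _ _ hcH2, map_mul, map_pow, cc_X, zero_pow two_ne_zero, zero_mul,
        c0_add] at this
    have q2 : ad (c0 (w v2) + c0 (w o)) (p y - p o) = 0 := by
      have := congrArg (constantCoeff : K[X] →+* K) t2'
      rw [cc_ad, c0_add] at this
      simpa [map_add, map_mul, map_pow] using this
    have hne : br (lam • u) (p y - p o) ≠ 0 := by
      rw [br_smul_left]; exact mul_ne_zero hl0 huy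
    obtain ⟨q3, q4⟩ := ad_eq_zero hne q1 q2
    rw [Pi.add_apply] at q3 q4
    constructor
    · linear_combination (norm := (ring_nf; try reduce_mod_char!)) q3
    · linear_combination (norm := (ring_nf; try reduce_mod_char!)) q4
  have adeq1 : ∀ q, ad (c0 (w v1)) q = ad (c0 (w o)) q := by
    intro q
    simp only [ad]
    rw [a1.1, a1.2]
  have adeq2 : ∀ q, ad (c0 (w v2)) q = ad (c0 (w o)) q := by
    intro q
    simp only [ad]
    rw [a2.1, a2.2]
  -- the values at `X = 0`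
  have val1 : ∀ b, b ≠ v1 → b ≠ v2 → ({v1, b} : Finset V) ∈ E →
      cu (c0 (w b)) (p b - p o) (p b - p o) =
        ad (c0 (w b)) (p b - p o) + ad (c0 (w o)) (p b - p o) ∧
      cu (c0 (w v1)) (p b - p o) (p b - p o) =
        ad (c0 (w o)) (p b - p o) + ad (c0 (w b)) (p b - p o) := by
    intro b hb1 hb2 he
    obtain ⟨q1, q2⟩ := near1 b hb1 hb2 he
    rw [cu_sum, ad_add, ad_add, cu_smul_right, cu_smul_left, cu_smul_left, cu_smul_right,
      ad_smul, ad_smul] at q1 q2
    have r1 := congrArg (constantCoeff : K[X] →+* K) q1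
    have r2 := congrArg (constantCoeff : K[X] →+* K) q2
    simp only [map_add, map_mul, map_pow, cc_X, cc_cu, cc_ad] at r1 r2
    constructor
    · rw [← adeq1]; simpa using r1
    · rw [← adeq1]; simpa using r2
  have val2 : ∀ b, b ≠ v1 → b ≠ v2 → ({v2, b} : Finset V) ∈ E →
      cu (c0 (w b)) (p b - p o) (p b - p o) =
        ad (c0 (w b)) (p b - p o) + ad (c0 (w o)) (p b - p o) ∧
      cu (c0 (w v2)) (p b - p o) (p b - p o) =
        ad (c0 (w o)) (p b - p o) + ad (c0 (w b)) (p b - p o) := by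
    intro b hb1 hb2 he
    obtain ⟨q1, q2⟩ := near2 b hb1 hb2 he
    rw [cu_sum, ad_add, ad_add, cu_smul_right, cu_smul_left, cu_smul_left, cu_smul_right,
      ad_smul, ad_smul] at q1 q2
    have r1 := congrArg (constantCoeff : K[X] →+* K) q1
    have r2 := congrArg (constantCoeff : K[X] →+* K) q2
    simp only [map_add, map_mul, map_pow, cc_X, cc_cu, cc_ad, zero_mul, ne_eq,
      OfNat.ofNat_ne_zero, not_false_eq_true, zero_pow, add_zero] at r1 r2
    constructor
    · rw [← adeq2]; exact r1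
    · rw [← adeq2]; exact r2
  have val0 : ∀ b c, b ≠ c → b ≠ v1 → b ≠ v2 → c ≠ v1 → c ≠ v2 → ({b, c} : Finset V) ∈ E →
      cu (c0 (w b)) (p c - p b) (p c - p b) =
        ad (c0 (w b)) (p c - p b) + ad (c0 (w c)) (p c - p b) := by
    intro b c hbc hb1 hb2 hc1 hc2 he
    have := congrArg (constantCoeff : K[X] →+* K) (old b c hbc hb1 hb2 hc1 hc2 he)
    rwa [map_add, cc_cu, cc_ad, cc_ad] at this
  -- the differences
  have k1x : cu (c0 (w v1) + c0 (w o)) (p x - p o) (p x - p o) = 0 := by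
    rw [cu_addw, (val1 x D.x1 D.x2 e1x).2,
      val0 o x D.xo.symm D.h1o.symm D.h2o.symm D.x1 D.x2 D.ox]
    (rw [← sub_eq_zero]; ring_nf; try reduce_mod_char!)
  have k2y : cu (c0 (w v2) + c0 (w o)) (p y - p o) (p y - p o) = 0 := by
    rw [cu_addw, (val2 y D.y1 D.y2 e2y).2,
      val0 o y D.yo.symm D.h1o.symm D.h2o.symm D.y1 D.y2 D.oy]
    (rw [← sub_eq_zero]; ring_nf; try reduce_mod_char!)
  obtain ⟨c1, hc1, hc1'⟩ := cu_dbl huf hux k1u k1f k1x
  obtain ⟨c2, hc2, hc2'⟩ := cu_dbl huf huy k2u k2f k2y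
  have gpo : ∀ b c, b ≠ c → o ≠ b → o ≠ c → br (p b - p o) (p c - p o) ≠ 0 :=
    fun b c hbc hb hc => hgp o b c hb hbc hc
  have gax := gpo a x D.xa.symm D.ao.symm D.xo.symm
  have gay := gpo a y D.ya.symm D.ao.symm D.yo.symm
  have hau : br (p a - p o) u ≠ 0 := by rw [br_comm]; exact hua
  have hcc : c1 * br (p a - p o) (p x - p o) = c2 * br (p a - p o) (p y - p o) := by
    have e1 := hc1 (p a - p o)
    have e2 := hc2 (p a - p o)
    rw [cu_addw, (val1 a D.a1 D.a2 e1a).2] at e1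
    rw [cu_addw, (val2 a D.a1 D.a2 e2a).2] at e2
    apply mul_left_cancel₀ (pow_ne_zero 2 hau)
    linear_combination e2 - e1
  obtain ⟨s, hs⟩ : ∃ s : K, s * br (p a - p o) (p y - p o) = c1 :=
    ⟨_, div_mul_cancel₀ _ gay⟩
  have hs2 : s * br (p a - p o) (p x - p o) = c2 := by
    apply mul_right_cancel₀ gay
    rw [← hcc, ← hs]; ring
  -- the loaded motion
  obtain ⟨ω, hω⟩ : ∃ ω : V → Fin 6 → K, ω = fun v => if v = v1 ∨ v = v2 then 0 else
    c0 (w v) := ⟨_, rfl⟩
  have ωo : ∀ b, b ≠ v1 → b ≠ v2 → ω b = c0 (w b) := by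
    intro b hb1 hb2
    rw [hω]; simp [hb1, hb2]
  have hmot : LMot p E' ((I.erase v1).erase v2) o (s • ldF p o x y a N1 N2 u) ω := by
    constructor
    · intro v hv
      by_cases h1 : v = v1 ∨ v = v2
      · rw [hω]; simp [h1]
      · push Not at h1
        have hvI : v ∉ I := fun h' => hv (mem_erase.2 ⟨h1.2, mem_erase.2 ⟨h1.1, h'⟩⟩)
        rw [ωo v h1.1 h1.2]
        funext i
        simp [c0, hw.pin v hvI]
    · intro b c hbc he
      have hE := (D.hE' b c hbc).1 he
      have hNot : ∀ d, d = a ∨ d ∈ N1 ∨ d ∈ N2 → d ≠ v1 ∧ d ≠ v2 := by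
        rintro d (rfl | hd | hd)
        · exact ⟨D.a1, D.a2⟩
        · exact ⟨fun h => D.N11 (h ▸ hd), fun h => D.N12 (h ▸ hd)⟩
        · exact ⟨fun h => D.N21 (h ▸ hd), fun h => D.N22 (h ▸ hd)⟩
      have hb : b ≠ v1 ∧ b ≠ v2 := by
        rcases hE with h3 | h3 | h3
        · exact ⟨h3.2.1, h3.2.2.1⟩
        · rw [h3.1]; exact ⟨D.h1o.symm, D.h2o.symm⟩
        · exact hNot b h3.2
      have hc : c ≠ v1 ∧ c ≠ v2 := by
        rcases hE with h3 | h3 | h3
        · exact ⟨h3.2.2.2.1, h3.2.2.2.2⟩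
        · exact hNot c h3.2
        · rw [h3.1]; exact ⟨D.h1o.symm, D.h2o.symm⟩
      rw [ωo b hb.1 hb.2, ωo c hc.1 hc.2, Pi.smul_apply, smul_eq_mul]
      -- the load at a new neighbour
      have hload : ∀ d, d = a ∨ d ∈ N1 ∨ d ∈ N2 →
          cu (c0 (w o)) (p d - p o) (p d - p o) + s * ldF p o x y a N1 N2 u d =
            ad (c0 (w o)) (p d - p o) + ad (c0 (w d)) (p d - p o) ∧
          cu (c0 (w d)) (p d - p o) (p d - p o) =
            ad (c0 (w d)) (p d - p o) + ad (c0 (w o)) (p d - p o) := by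
        intro d hd
        obtain ⟨hd1, hd2⟩ := hNot d hd
        have case1 : d ∈ N1 → _ := fun h => val1 d hd1 hd2 ((D.n1 d hd1).2
          (Or.inr (Or.inr (Or.inr (Or.inr h)))))
        by_cases hdN : d ∈ N1
        · have hv := case1 hdN
          refine ⟨?_, hv.1⟩
          have e1 := hc1 (p d - p o)
          rw [cu_addw, hv.2, ← hs] at e1
          simp only [ldF, if_pos hdN]
          linear_combination (norm := (ring_nf; try reduce_mod_char!)) e1
        · have hd' : d = a ∨ d ∈ N2 := by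
            rcases hd with h | h | h
            · exact Or.inl h
            · exact absurd h hdN
            · exact Or.inr h
          have hE2 : ({v2, d} : Finset V) ∈ E := by
            rcases hd' with h | h
            · rw [h]; exact e2a
            · exact (D.n2 d hd2).2 (Or.inr (Or.inr (Or.inr (Or.inr h))))
          have hv := val2 d hd1 hd2 hE2
          refine ⟨?_, hv.1⟩
          have e1 := hc2 (p d - p o)
          rw [cu_addw, hv.2, ← hs2] at e1
          simp only [ldF, if_neg hdN, if_pos hd']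
          linear_combination (norm := (ring_nf; try reduce_mod_char!)) e1
      rcases hE with h3 | h3 | h3
      · have hv := val0 b c hbc hb.1 hb.2 hc.1 hc.2 h3.1
        rw [hv]
        by_cases hbo : b = o
        · rw [if_pos hbo]
          have hcN : c ∉ N1 := by
            intro h
            exact D.oN1 c h (by rw [← hbo]; exact h3.1)
          have hcN2 : ¬ (c = a ∨ c ∈ N2) := by
            rintro (h | h)
            · exact D.oa (by rw [← hbo, ← h]; exact h3.1)
            · exact D.oN2 c h (by rw [← hbo]; exact h3.1)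
          simp only [ldF, if_neg hcN, if_neg hcN2, mul_zero, add_zero]
        · rw [if_neg hbo, add_zero]
      · rw [h3.1, if_pos rfl]
        exact (hload c h3.2).1
      · have hbo : b ≠ o := by
          rintro rfl
          exact hbc h3.1.symm
        rw [if_neg hbo, add_zero, h3.1, c2_sub_pair (p o) (p b)]
        exact (hload b h3.2).2
  by_cases hs0 : s = 0
  · -- everything vanishes
    exfalso
    rw [hs0, zero_smul] at hmot
    have hz := hp ω (lmot_zero hmot)
    have hzb : ∀ b, b ≠ v1 → b ≠ v2 → c0 (w b) = 0 := by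
      intro b hb1 hb2
      rw [← ωo b hb1 hb2, hz]; rfl
    have hzo := hzb o D.h1o.symm D.h2o.symm
    rw [hs0, zero_mul] at hs hs2
    have f1 := hc1' hs.symm
    have f2 := hc2' hs2.symm
    rw [hzo, add_zero] at f1 f2
    rw [hzo] at a1 a2
    have hall : c0 (w v0) = 0 := by
      by_cases h1 : v0 = v1
      · rw [h1]
        funext i
        obtain ⟨g0, g1, g2, g3⟩ := f1
        fin_cases i
        · exact g0
        · exact g1
        · exact g2
        · exact g3
        · exact a1.1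
        · exact a1.2
      · by_cases h2 : v0 = v2
        · rw [h2]
          funext i
          obtain ⟨g0, g1, g2, g3⟩ := f2
          fin_cases i
          · exact g0
          · exact g1
          · exact g2
          · exact g3
          · exact a2.1
          · exact a2.2
        · exact hzb v0 h1 h2
    exact hv0 (congrFun hall i0)
  · refine ⟨s⁻¹ • ω, ?_, ?_⟩
    · have h1 := lmot_smul hmot s⁻¹
      rwa [smul_smul, inv_mul_cancel₀ hs0, one_smul] at h1
    · simp only [Pi.smul_apply, cu_smulw]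
      rw [ωo o D.h1o.symm D.h2o.symm, ωo a D.a1 D.a2, ωo x D.x1 D.x2, ωo y D.y1 D.y2]
      linear_combination s⁻¹ * hPP

end Pool.Agent.Spl2
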