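import Pool.Agent.Spl2.SphFour

/-!
# Degrees

Paper proof.  `k4`: the set `{vab, vbc, vac, abc}` has empty boundary and is not empty, so it is `T` (`H2`).
`four_le`: `3 ≤ |star T v|`; if it is `3`, then `link_enum` gives triangles `vab, vbc, vca`, and `abc` is a
3-cycle, so a triangle (`Fac3`), and `|T| = 4` by `k4`, contradiction.
Let `W` be the set of `v` with `star T v ≠ ∅` and `N = |W|`.  Every degree is `≤ N - 1`
(`star_card`: the neighbours are in `W \ {v}`), `∑_{v ∈ W} deg v = 3 |T|` and every degree is `≥ 4`.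
`eight_le`: `N ≥ 5`; `|T|` is even (`even_card`), and `|T| ≤ 6` would give `4 N ≤ 18`, `N ≤ 4`.
`oct`: `|T| = 8` gives `4 N ≤ 24`, so `N ≤ 6`; `N = 5` would give `24 ≤ 5 * 4`; so `N = 6` and all degrees
are `4`.  `oct_nb`: `v` is adjacent to `4` of the `5` other vertices of `W`, so to at least two of the three
vertices of `F` (`F ⊆ W \ {v}`).
-/

set_option autoImplicit false

namespace Pool.Agent.Spl2

open Finset Pool.Agent.Spl1

variable {V : Type*} [Fintype V] [DecidableEq V]

omit [Fintype V] in
private theorem tdeg_psc {S e : Finset V} (hS : S.card = 4) (he : e.card = 2) :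
    Even (tdeg (S.powersetCard 3) e) := by
  by_cases heS : e ⊆ S
  · have h1 : (S.powersetCard 3).filter (fun t => e ⊆ t) = (S \ e).image (fun z => insert z e) := by
      ext t
      rw [Finset.mem_filter, Finset.mem_powersetCard, Finset.mem_image]
      constructor
      · rintro ⟨⟨htS, ht3⟩, het⟩
        have h2 : (t \ e).card = 1 := by
          rw [Finset.card_sdiff_of_subset het, ht3, he]
        obtain ⟨z, hz⟩ := Finset.card_eq_one.1 h2
        have hz' : z ∈ t \ e := by rw [hz]; exact Finset.mem_singleton_self z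
        rw [Finset.mem_sdiff] at hz'
        refine ⟨z, Finset.mem_sdiff.2 ⟨htS hz'.1, hz'.2⟩, ?_⟩
        ext x
        rw [Finset.mem_insert]
        constructor
        · rintro (rfl | hx)
          · exact hz'.1
          · exact het hx
        · intro hx
          by_cases hxe : x ∈ e
          · exact Or.inr hxe
          · left
            have : x ∈ t \ e := Finset.mem_sdiff.2 ⟨hx, hxe⟩
            rw [hz] at this
            exact Finset.mem_singleton.1 this
      · rintro ⟨z, hz, rfl⟩
        rw [Finset.mem_sdiff] at hz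
        refine ⟨⟨Finset.insert_subset hz.1 heS, ?_⟩, Finset.subset_insert z e⟩
        rw [Finset.card_insert_of_notMem hz.2, he]
    unfold tdeg
    rw [h1, Finset.card_image_of_injOn, Finset.card_sdiff_of_subset heS, hS, he]
    · exact even_two
    · intro x hx y hy hxy
      have hx' := Finset.mem_sdiff.1 (Finset.mem_coe.1 hx)
      have h2 : x ∈ insert y e := by
        have : x ∈ insert x e := Finset.mem_insert_self x e
        have hxy' : insert x e = insert y e := hxy
        rwa [hxy'] at this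
      rcases Finset.mem_insert.1 h2 with h3 | h3
      · exact h3
      · exact absurd h3 hx'.2
  · have h1 : (S.powersetCard 3).filter (fun t => e ⊆ t) = ∅ := by
      rw [Finset.filter_eq_empty_iff]
      intro t ht het
      exact heS (het.trans (Finset.mem_powersetCard.1 ht).1)
    unfold tdeg
    rw [h1, Finset.card_empty]
    exact Even.zero

theorem Sph.k4 {T : Finset (Finset V)} (h : Sph T) {v a b c : V} (va : v ≠ a) (vb : v ≠ b)
    (vc : v ≠ c) (ab : a ≠ b) (bc : b ≠ c) (ac : a ≠ c) (h1 : ({v, a, b} : Finset V) ∈ T)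
    (h2 : ({v, b, c} : Finset V) ∈ T) (h3 : ({v, a, c} : Finset V) ∈ T)
    (h4 : ({a, b, c} : Finset V) ∈ T) : T.card = 4 := by
  have hS : ({v, a, b, c} : Finset V).card = 4 := by
    rw [Finset.card_insert_of_notMem, Finset.card_insert_of_notMem, Finset.card_pair bc]
    · simp [ab, ac]
    · simp [va, vb, vc]
  have hsub : ({v, a, b, c} : Finset V).powersetCard 3 ⊆ T := by
    intro t ht
    obtain ⟨htS, ht3⟩ := Finset.mem_powersetCard.1 ht
    have h5 : (({v, a, b, c} : Finset V) \ t).card = 1 := by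
      rw [Finset.card_sdiff_of_subset htS, hS, ht3]
    obtain ⟨z, hz⟩ := Finset.card_eq_one.1 h5
    have ht' : t = ({v, a, b, c} : Finset V) \ {z} := by
      rw [← hz, Finset.sdiff_sdiff_eq_self htS]
    have hzS : z ∈ ({v, a, b, c} : Finset V) := by
      have : z ∈ ({v, a, b, c} : Finset V) \ t := by rw [hz]; exact Finset.mem_singleton_self z
      exact (Finset.mem_sdiff.1 this).1
    have key : ∀ s : Finset V, s ∈ T → (∀ x, x ∈ s ↔ x ∈ ({v, a, b, c} : Finset V) \ {z}) →
        t ∈ T := by
      intro s hs hx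
      have : s = t := by
        rw [ht']
        ext x
        exact hx x
      rwa [← this]
    simp only [Finset.mem_insert, Finset.mem_singleton] at hzS
    rcases hzS with rfl | rfl | rfl | rfl
    · refine key _ h4 fun x => ?_
      simp only [Finset.mem_insert, Finset.mem_singleton, Finset.mem_sdiff]
      constructor
      · rintro (rfl | rfl | rfl)
        · exact ⟨Or.inr (Or.inl rfl), va.symm⟩
        · exact ⟨Or.inr (Or.inr (Or.inl rfl)), vb.symm⟩
        · exact ⟨Or.inr (Or.inr (Or.inr rfl)), vc.symm⟩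
      · rintro ⟨h6 | h6, h7⟩
        · exact absurd h6 h7
        · exact h6
    · refine key _ h2 fun x => ?_
      simp only [Finset.mem_insert, Finset.mem_singleton, Finset.mem_sdiff]
      constructor
      · rintro (rfl | rfl | rfl)
        · exact ⟨Or.inl rfl, va⟩
        · exact ⟨Or.inr (Or.inr (Or.inl rfl)), ab.symm⟩
        · exact ⟨Or.inr (Or.inr (Or.inr rfl)), ac.symm⟩
      · rintro ⟨h6 | h6 | h6, h7⟩
        · exact Or.inl h6
        · exact absurd h6 h7
        · exact Or.inr h6
    · refine key _ h3 fun x => ?_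
      simp only [Finset.mem_insert, Finset.mem_singleton, Finset.mem_sdiff]
      constructor
      · rintro (rfl | rfl | rfl)
        · exact ⟨Or.inl rfl, vb⟩
        · exact ⟨Or.inr (Or.inl rfl), ab⟩
        · exact ⟨Or.inr (Or.inr (Or.inr rfl)), bc.symm⟩
      · rintro ⟨h6 | h6 | h6 | h6, h7⟩
        · exact Or.inl h6
        · exact Or.inr (Or.inl h6)
        · exact absurd h6 h7
        · exact Or.inr (Or.inr h6)
    · refine key _ h1 fun x => ?_
      simp only [Finset.mem_insert, Finset.mem_singleton, Finset.mem_sdiff]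
      constructor
      · rintro (rfl | rfl | rfl)
        · exact ⟨Or.inl rfl, vc⟩
        · exact ⟨Or.inr (Or.inl rfl), ac⟩
        · exact ⟨Or.inr (Or.inr (Or.inl rfl)), bc⟩
      · rintro ⟨h6 | h6 | h6 | h6, h7⟩
        · exact Or.inl h6
        · exact Or.inr (Or.inl h6)
        · exact Or.inr (Or.inr h6)
        · exact absurd h6 h7
  have hb : bdry (({v, a, b, c} : Finset V).powersetCard 3) = ∅ := by
    rw [Finset.eq_empty_iff_forall_notMem]
    intro e he
    rw [mem_bdry] at he
    exact (Nat.not_even_iff_odd.2 he.2) (tdeg_psc hS he.1)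
  have hc : (({v, a, b, c} : Finset V).powersetCard 3).card = 4 := by
    rw [Finset.card_powersetCard, hS]
    rfl
  rcases h.H2 _ hsub hb with h5 | h5
  · rw [h5, Finset.card_empty] at hc
    omega
  · rw [← h5, hc]

theorem Sph.four_le {T : Finset (Finset V)} (h : Sph T) (hF : Fac3 T) (h4 : 4 < T.card) {v : V}
    (hv : (star T v).Nonempty) : 4 ≤ (star T v).card := by
  have h3 := h.three_le hv
  by_contra hcon
  have h5 : (star T v).card = 3 := by omega
  obtain ⟨w, hw⟩ := h.link_enum hv
  rw [h5] at hw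
  have hne : ∀ i < 3, v ≠ w i := by
    intro i hi
    have := (hw.cov (w i)).2 ⟨i, hi, rfl⟩
    exact (mem_nb.1 this).1.symm
  have n01 : w 0 ≠ w 1 := fun h6 => absurd (hw.inj 0 1 (by norm_num) (by norm_num) h6) (by norm_num)
  have n12 : w 1 ≠ w 2 := fun h6 => absurd (hw.inj 1 2 (by norm_num) (by norm_num) h6) (by norm_num)
  have n02 : w 0 ≠ w 2 := fun h6 => absurd (hw.inj 0 2 (by norm_num) (by norm_num) h6) (by norm_num)
  have t0 : ({v, w 0, w 1} : Finset V) ∈ T := hw.tri 0
  have t1 : ({v, w 1, w 2} : Finset V) ∈ T := hw.tri 1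
  have t2 : ({v, w 0, w 2} : Finset V) ∈ T := by
    have h6 := hw.tri 2
    have h7 : w (2 + 1) = w 0 := hw.per 0
    rw [h7] at h6
    have h8 : ({v, w 0, w 2} : Finset V) = {v, w 2, w 0} := by
      rw [Finset.pair_comm (w 0) (w 2)]
    rw [h8]
    exact h6
  have e01 : ({w 0, w 1} : Finset V) ∈ edges T := edge_of_tri t0 n01 (by simp) (by simp)
  have e12 : ({w 1, w 2} : Finset V) ∈ edges T := edge_of_tri t1 n12 (by simp) (by simp)
  have e02 : ({w 0, w 2} : Finset V) ∈ edges T := edge_of_tri t2 n02 (by simp) (by simp)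
  have t3 := hF _ _ _ n01 n12 n02 e01 e12 e02
  have := h.k4 (hne 0 (by norm_num)) (hne 1 (by norm_num)) (hne 2 (by norm_num)) n01 n12 n02
    t0 t1 t2 t3
  omega

/-- the set of vertices of the complex -/
private def WW (T : Finset (Finset V)) : Finset V := univ.filter (fun v => (star T v).Nonempty)

private theorem mem_WW {T : Finset (Finset V)} {v : V} : v ∈ WW T ↔ (star T v).Nonempty := by
  simp [WW]

private theorem nb_sub {T : Finset (Finset V)} (v : V) : nb (edges T) v ⊆ (WW T).erase v := by
  intro u hu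
  obtain ⟨h1, h2⟩ := mem_nb.1 hu
  exact Finset.mem_erase.2 ⟨h1, mem_WW.2 (star_ne_of_edge (edge_swap h2))⟩

private theorem deg_lt {T : Finset (Finset V)} (h : Sph T) {v : V} (hv : v ∈ WW T) :
    (star T v).card + 1 ≤ (WW T).card := by
  have h1 := Finset.card_le_card (nb_sub (T := T) v)
  rw [h.star_card, Finset.card_erase_of_mem hv] at h1
  have h2 : 0 < (WW T).card := Finset.card_pos.2 ⟨v, hv⟩
  omega

private theorem sum_WW {T : Finset (Finset V)} (h : Sph T) :
    ∑ v ∈ WW T, (star T v).card = 3 * T.card := by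
  rw [← sum_star h.card3]
  refine Finset.sum_subset (Finset.subset_univ _) fun v _ hv => ?_
  rw [mem_WW, Finset.not_nonempty_iff_eq_empty] at hv
  rw [hv, Finset.card_empty]

private theorem four_mul_le {T : Finset (Finset V)} (h : Sph T) (hF : Fac3 T) (h4 : 4 < T.card) :
    4 * (WW T).card ≤ 3 * T.card := by
  rw [← sum_WW h, mul_comm, ← smul_eq_mul]
  exact Finset.card_nsmul_le_sum _ _ _ fun v hv => h.four_le hF h4 (mem_WW.1 hv)

private theorem exists_WW {T : Finset (Finset V)} (h : Sph T) (h4 : 4 < T.card) :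
    ∃ v, v ∈ WW T := by
  obtain ⟨t, ht⟩ : T.Nonempty := Finset.card_pos.1 (by omega)
  obtain ⟨x, hx⟩ : t.Nonempty := Finset.card_pos.1 (by rw [h.card3 t ht]; norm_num)
  exact ⟨x, mem_WW.2 (star_ne_of_mem ht hx)⟩

theorem Sph.eight_le {T : Finset (Finset V)} (h : Sph T) (hF : Fac3 T) (h4 : 4 < T.card) :
    8 ≤ T.card := by
  obtain ⟨v, hv⟩ := exists_WW h h4
  have h1 := h.four_le hF h4 (mem_WW.1 hv)
  have h2 := deg_lt h hv
  have h3 := four_mul_le h hF h4
  obtain ⟨k, hk⟩ := h.even_card
  omega

private theorem card_WW {T : Finset (Finset V)} (h : Sph T) (hF : Fac3 T) (h8 : T.card = 8) :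
    (WW T).card = 6 := by
  have h4 : 4 < T.card := by omega
  obtain ⟨v, hv⟩ := exists_WW h h4
  have h1 := h.four_le hF h4 (mem_WW.1 hv)
  have h2 := deg_lt h hv
  have h3 := four_mul_le h hF h4
  have h5 : ∑ v ∈ WW T, (star T v).card ≤ (WW T).card * ((WW T).card - 1) := by
    rw [← smul_eq_mul]
    refine Finset.sum_le_card_nsmul _ _ _ fun v hv => ?_
    have := deg_lt h hv
    omega
  rw [sum_WW h, h8] at h5
  have h6 : (WW T).card ≤ 6 := by omega
  by_contra hcon
  have h7 : (WW T).card = 5 := by omega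
  rw [h7] at h5
  omega

theorem Sph.oct {T : Finset (Finset V)} (h : Sph T) (hF : Fac3 T) (h8 : T.card = 8) {v : V}
    (hv : (star T v).Nonempty) : (star T v).card = 4 := by
  have h4 : 4 < T.card := by omega
  have h1 := sum_WW h
  have h2 := card_WW h hF h8
  have h3 := h.four_le hF h4 hv
  have hv' := mem_WW.2 hv
  have h5 : ((WW T).erase v).card • 4 ≤ ∑ u ∈ (WW T).erase v, (star T u).card :=
    Finset.card_nsmul_le_sum _ _ _ fun u hu =>
      h.four_le hF h4 (mem_WW.1 (Finset.mem_of_mem_erase hu))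
  rw [Finset.card_erase_of_mem hv', h2, smul_eq_mul] at h5
  rw [← Finset.add_sum_erase _ _ hv', h8] at h1
  omega

theorem Sph.oct_nb {T : Finset (Finset V)} (h : Sph T) (hF : Fac3 T) (h8 : T.card = 8)
    {F : Finset V} (hFT : F ∈ T) {v : V} (hv : (star T v).Nonempty) (hvF : v ∉ F) :
    ∃ x ∈ F, ∃ y ∈ F, x ≠ y ∧ ({v, x} : Finset V) ∈ edges T ∧ ({v, y} : Finset V) ∈ edges T := by
  have h1 := h.oct hF h8 hv
  rw [← h.star_card] at h1
  have h2 := card_WW h hF h8
  have hv' := mem_WW.2 hv
  have hFW : F ⊆ (WW T).erase v := by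
    intro x hx
    refine Finset.mem_erase.2 ⟨?_, mem_WW.2 (star_ne_of_mem hFT hx)⟩
    rintro rfl
    exact hvF hx
  have h3 : (nb (edges T) v ∪ F).card ≤ 5 := by
    have := Finset.card_le_card (Finset.union_subset (nb_sub (T := T) v) hFW)
    rw [Finset.card_erase_of_mem hv', h2] at this
    exact this
  have h5 := Finset.card_union_add_card_inter (nb (edges T) v) F
  rw [h1, h.card3 F hFT] at h5
  have h6 : 1 < (nb (edges T) v ∩ F).card := by omega
  obtain ⟨x, hx, y, hy, hxy⟩ := Finset.one_lt_card.1 h6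
  rw [Finset.mem_inter] at hx hy
  exact ⟨x, hx.2, y, hy.2, hxy, (mem_nb.1 hx.1).2, (mem_nb.1 hy.1).2⟩

end Pool.Agent.Spl2
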