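import Pool.Agent.Spl2.SphReg0

/-!
# Euler's formula for triangulated spheres

`N` is the number of used vertices.  Paper proof.  `2 |E| = 3 |T|` (`sum_tdeg`).  Let `F ∈ T`.  The map
`D ↦ bdry D` is a bijection from the subsets of `T.erase F` to the mod 2 cycles in `edges T`
(`H1`, `bdry_compl`, `uniq`), so there are `2 ^ (|T| - 1)` cycles.  The graph is connected: a set `Z` of used
vertices which is closed under the edges gives the set `{t ∈ T | t ⊆ Z}` with empty boundary (`H2`).
So `cyc_count` and `cyc_count_le` give `2 ^ (|E| + 1) = 2 ^ N * 2 ^ (|T| - 1)`, i.e.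
`|E| + 2 = N + |T|`.
-/

set_option autoImplicit false

namespace Pool.Agent.Spl2

open Finset Pool.Agent.Spl1

variable {V : Type*} [Fintype V] [DecidableEq V]

/-- the used vertices -/
def uv (T : Finset (Finset V)) : Finset V := univ.filter (fun v => (star T v).Nonempty)

theorem mem_uv {T : Finset (Finset V)} {v : V} : v ∈ uv T ↔ (star T v).Nonempty := by simp [uv]

theorem mem_uv_of_mem {T : Finset (Finset V)} {t : Finset V} (ht : t ∈ T) {x : V} (hx : x ∈ t) :
    x ∈ uv T := mem_uv.2 ⟨t, mem_star.2 ⟨ht, hx⟩⟩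

theorem Sph.two_edges {T : Finset (Finset V)} (h : Sph T) : 2 * (edges T).card = 3 * T.card := by
  rw [← sum_tdeg h.card3, Finset.sum_congr rfl (fun e he => h.two e he), Finset.sum_const,
    smul_eq_mul, mul_comm]

theorem Sph.conn_graph {T : Finset (Finset V)} (h : Sph T) {Z : Finset V} (hZ : Z ⊆ uv T)
    (hne : Z.Nonempty) (hcl : ∀ e ∈ edges T, (e ∩ Z).Nonempty → e ⊆ Z) : Z = uv T := by
  have hall : ∀ t ∈ T, (t ∩ Z).Nonempty → t ⊆ Z := by
    intro t ht ⟨x, hx⟩ y hy
    rw [Finset.mem_inter] at hx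
    by_cases hxy : x = y
    · rw [← hxy]
      exact hx.2
    · have he := edge_of_tri ht hxy hx.1 hy
      have := hcl _ he ⟨x, Finset.mem_inter.2 ⟨by simp, hx.2⟩⟩
      exact this (by simp)
  set D := T.filter (fun t => t ⊆ Z) with hD
  have hDT : D ⊆ T := Finset.filter_subset _ _
  have hb : bdry D = ∅ := by
    rw [Finset.eq_empty_iff_forall_notMem]
    intro e he
    rw [mem_bdry] at he
    have heE : e ∈ edges T := by
      rw [mem_edges]
      refine ⟨he.1, ?_⟩
      have h1 := he.2.pos
      unfold tdeg at h1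
      obtain ⟨t, ht⟩ := Finset.card_pos.1 h1
      rw [Finset.mem_filter] at ht
      exact ⟨t, hDT ht.1, ht.2⟩
    have h1 : tdeg D e = tdeg T e := by
      have h2 := he.2.pos
      unfold tdeg at h2
      obtain ⟨t, ht⟩ := Finset.card_pos.1 h2
      rw [Finset.mem_filter, hD, Finset.mem_filter] at ht
      unfold tdeg
      congr 1
      ext s
      constructor
      · intro hs
        have hs' := Finset.mem_filter.1 hs
        exact Finset.mem_filter.2 ⟨hDT hs'.1, hs'.2⟩
      · intro hs
        obtain ⟨a1, a2⟩ := Finset.mem_filter.1 hs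
        refine Finset.mem_filter.2 ⟨?_, a2⟩
        rw [hD, Finset.mem_filter]
        refine ⟨a1, hall s a1 ?_⟩
        obtain ⟨x, hx⟩ : e.Nonempty := by
          rw [← Finset.card_pos, he.1]
          norm_num
        exact ⟨x, Finset.mem_inter.2 ⟨a2 hx, ht.1.2 (ht.2 hx)⟩⟩
    rw [h1, h.two e heE] at he
    exact absurd he.2 (by decide)
  obtain ⟨x, hx⟩ := hne
  obtain ⟨t, ht⟩ := mem_uv.1 (hZ hx)
  rw [mem_star] at ht
  have htD : t ∈ D := by
    rw [hD, Finset.mem_filter]
    exact ⟨ht.1, hall t ht.1 ⟨x, Finset.mem_inter.2 ⟨ht.2, hx⟩⟩⟩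
  rcases h.H2 D hDT hb with h1 | h1
  · rw [h1] at htD
    exact absurd htD (Finset.notMem_empty _)
  · apply Finset.Subset.antisymm hZ
    intro y hy
    obtain ⟨s, hs⟩ := mem_uv.1 hy
    rw [mem_star] at hs
    have hsD : s ∈ D := by
      rw [h1]
      exact hs.1
    rw [hD, Finset.mem_filter] at hsD
    exact hsD.2 hs.2

open Classical in
/-- the number of cycles -/
theorem Sph.card_cycles {T : Finset (Finset V)} (h : Sph T) (hne : T.Nonempty) :
    ((edges T).powerset.filter (fun C => IsCyc C)).card = 2 ^ (T.card - 1) := by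
  obtain ⟨F, hF⟩ := hne
  have h1 : (T.erase F).powerset.card = 2 ^ (T.card - 1) := by
    rw [Finset.card_powerset, Finset.card_erase_of_mem hF]
  rw [← h1]
  symm
  apply Finset.card_bij (fun D _ => bdry D)
  · intro D hD
    rw [Finset.mem_powerset] at hD
    rw [Finset.mem_filter, Finset.mem_powerset]
    have hDT : D ⊆ T := hD.trans (Finset.erase_subset _ _)
    exact ⟨bdry_subset_edges hDT, isCyc_bdry (fun t ht => h.card3 t (hDT ht))⟩
  · intro D hD D' hD' heq
    rw [Finset.mem_powerset] at hD hD'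
    have hDT : D ⊆ T := hD.trans (Finset.erase_subset _ _)
    have hDT' : D' ⊆ T := hD'.trans (Finset.erase_subset _ _)
    rcases h.uniq hDT hDT' heq with h2 | h2
    · exact h2
    · have h3 : F ∈ D := by
        rw [h2, Finset.mem_sdiff]
        exact ⟨hF, fun h4 => Finset.notMem_erase F T (hD' h4)⟩
      exact absurd (hD h3) (Finset.notMem_erase F T)
  · intro C hC
    rw [Finset.mem_filter, Finset.mem_powerset] at hC
    obtain ⟨D, hD, hb⟩ := h.H1 C hC.1 hC.2
    by_cases hFD : F ∈ D
    · refine ⟨T \ D, ?_, ?_⟩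
      · rw [Finset.mem_powerset]
        intro t ht
        rw [Finset.mem_sdiff] at ht
        rw [Finset.mem_erase]
        refine ⟨?_, ht.1⟩
        rintro rfl
        exact ht.2 hFD
      · rw [h.bdry_compl hD, hb]
    · refine ⟨D, ?_, hb⟩
      rw [Finset.mem_powerset]
      intro t ht
      rw [Finset.mem_erase]
      refine ⟨?_, hD ht⟩
      rintro rfl
      exact hFD ht

/-- Euler's formula -/
theorem Sph.euler_eq {T : Finset (Finset V)} (h : Sph T) (hne : T.Nonempty) :
    (edges T).card + 2 = (uv T).card + T.card := by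
  classical
  have h2 : ∀ e ∈ edges T, e.card = 2 := fun e he => (mem_edges.1 he).1
  have hW : ∀ e ∈ edges T, e ⊆ uv T := by
    intro e he x hx
    obtain ⟨-, t, ht, h3⟩ := mem_edges.1 he
    exact mem_uv_of_mem ht (h3 hx)
  have hWne : (uv T).Nonempty := by
    obtain ⟨F, hF⟩ := hne
    obtain ⟨x, hx⟩ : F.Nonempty := by
      rw [← Finset.card_pos, h.card3 F hF]
      norm_num
    exact ⟨x, mem_uv_of_mem hF hx⟩
  have h3 := cyc_count h2 hW hWne
  have h4 := cyc_count_le h2 hW hWne (fun Z hZ hZn hcl => h.conn_graph hZ hZn hcl)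
  rw [h.card_cycles hne, ← pow_add] at h3 h4
  have h5 := (Nat.pow_le_pow_iff_right (by norm_num : 1 < 2)).1 h3
  have h6 := (Nat.pow_le_pow_iff_right (by norm_num : 1 < 2)).1 h4
  have h7 : 0 < T.card := Finset.card_pos.2 hne
  omega

theorem Sph.card_T {T : Finset (Finset V)} (h : Sph T) (hne : T.Nonempty) :
    T.card + 4 = 2 * (uv T).card := by
  have h1 := h.euler_eq hne
  have h2 := h.two_edges
  omega

/-- the edges which are not contained in the triangle `F` -/
theorem Sph.card_inner {T : Finset (Finset V)} (h : Sph T) {F : Finset V} (hF : F ∈ T) :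
    ((edges T).filter (fun e => ¬ e ⊆ F)).card = 3 * (uv T \ F).card := by
  have h1 := h.euler_eq ⟨F, hF⟩
  have h2 := h.two_edges
  have h3 : (uv T \ F).card + F.card = (uv T).card :=
    Finset.card_sdiff_add_card_eq_card (fun x hx => mem_uv_of_mem hF hx)
  have h4 : ((edges T).filter (fun e => e ⊆ F)).card +
      ((edges T).filter (fun e => ¬ e ⊆ F)).card = (edges T).card :=
    Finset.card_filter_add_card_filter_not _
  have h5 : ((edges T).filter (fun e => e ⊆ F)).card = 3 := by
    have h6 : (edges T).filter (fun e => e ⊆ F) = F.powersetCard 2 := by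
      ext e
      rw [Finset.mem_filter, Finset.mem_powersetCard, mem_edges]
      constructor
      · rintro ⟨⟨a1, -⟩, a2⟩
        exact ⟨a2, a1⟩
      · rintro ⟨a1, a2⟩
        exact ⟨⟨a2, F, hF, a1⟩, a1⟩
    rw [h6, Finset.card_powersetCard, h.card3 F hF]
    rfl
  have h6 := h.card3 F hF
  omega

end Pool.Agent.Spl2
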