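import Pool.Agent.Spl2.GluR
import Pool.Agent.Spl2.SphEul
import Pool.Agent.Spl2.SphDeg

/-!
# The theorem of Gluck for the octahedron
-/

set_option autoImplicit false

namespace Pool.Agent.Spl2

open Finset Pool.Agent.Spl1

variable {V : Type*} [Fintype V] [DecidableEq V] {K : Type*} [Field K]

theorem vs_eq_uv (T : Finset (Finset V)) : vs T = uv T := by
  ext v
  rw [mem_vs, mem_uv]
  constructor
  · rintro ⟨t, ht, hv⟩
    exact ⟨t, mem_star.2 ⟨ht, hv⟩⟩
  · rintro ⟨t, ht⟩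
    exact ⟨t, (mem_star.1 ht).1, (mem_star.1 ht).2⟩

theorem nb_sub {T : Finset (Finset V)} {x : V} : nb (edges T) x ⊆ (uv T).erase x := by
  intro y hy
  rw [mem_nb] at hy
  rw [mem_erase]
  refine ⟨hy.1, ?_⟩
  have h1 := edge_swap hy.2
  exact mem_uv.2 (star_ne_of_edge h1)

/-- the opposite vertex in the octahedron -/
theorem oct_opp {T : Finset (Finset V)} (h : Sph T) (hF : Fac3 T) (h8 : T.card = 8) {x : V}
    (hx : x ∈ uv T) : ∃ y ∈ uv T, y ≠ x ∧ ({x, y} : Finset V) ∉ edges T ∧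
      ∀ z ∈ uv T, z ≠ x → z ≠ y → ({x, z} : Finset V) ∈ edges T := by
  have hne : T.Nonempty := Finset.card_pos.1 (by omega)
  have h1 := h.card_T hne
  have h2 := h.oct hF h8 (mem_uv.1 hx)
  rw [← h.star_card] at h2
  have h3 : ((uv T).erase x \ nb (edges T) x).card = 1 := by
    rw [Finset.card_sdiff_of_subset nb_sub, Finset.card_erase_of_mem hx, h2]
    omega
  rw [Finset.card_eq_one] at h3
  obtain ⟨y, hy⟩ := h3
  have h4 : y ∈ (uv T).erase x \ nb (edges T) x := by rw [hy]; simp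
  rw [mem_sdiff, mem_erase, mem_nb] at h4
  refine ⟨y, h4.1.2, h4.1.1, fun he => h4.2 ⟨h4.1.1, he⟩, fun z hz hzx hzy => ?_⟩
  by_contra hcon
  have h5 : z ∈ (uv T).erase x \ nb (edges T) x := by
    rw [mem_sdiff, mem_erase, mem_nb]
    exact ⟨⟨hzx, hz⟩, fun h6 => hcon h6.2⟩
  rw [hy, Finset.mem_singleton] at h5
  exact hzy h5

theorem gl_base [Infinite K] {T : Finset (Finset V)} (h : Sph T) (hF : Fac3 T)
    (h8 : T.card = 8) {F₀ : Finset V} (hF₀ : F₀ ∈ T) : GB 2 K (edges T) (vs T \ F₀) := by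
  rw [vs_eq_uv]
  have hne : T.Nonempty := ⟨F₀, hF₀⟩
  have hc := h.card_T hne
  have h3 := h.card3 F₀ hF₀
  have hsub : F₀ ⊆ uv T := fun x hx => mem_uv_of_mem hF₀ hx
  have hcI : (uv T \ F₀).card = 3 := by
    rw [Finset.card_sdiff_of_subset hsub]
    omega
  obtain ⟨a, b, c, ab, ac, bc, rfl⟩ := Finset.card_eq_three.1 h3
  have ua : a ∈ uv T := hsub (by simp)
  have ub : b ∈ uv T := hsub (by simp)
  have uc : c ∈ uv T := hsub (by simp)
  have eab : ({a, b} : Finset V) ∈ edges T := edge_of_tri hF₀ ab (by simp) (by simp)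
  have eac : ({a, c} : Finset V) ∈ edges T := edge_of_tri hF₀ ac (by simp) (by simp)
  have ebc : ({b, c} : Finset V) ∈ edges T := edge_of_tri hF₀ bc (by simp) (by simp)
  obtain ⟨a', ua', na', ma', ka'⟩ := oct_opp h hF h8 ua
  obtain ⟨b', ub', nb', mb', kb'⟩ := oct_opp h hF h8 ub
  obtain ⟨c', uc', nc', mc', kc'⟩ := oct_opp h hF h8 uc
  -- symmetric
  have sym : ∀ x x', x ∈ uv T → x' ∈ uv T → x' ≠ x → ({x, x'} : Finset V) ∉ edges T →
      ∀ z ∈ uv T, z ≠ x' → z ≠ x → ({x', z} : Finset V) ∈ edges T := by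
    intro x x' hx hx' hne he z hz h1 h2
    obtain ⟨y, uy, ny, my, ky⟩ := oct_opp h hF h8 hx'
    by_cases hy : z = y
    · exfalso
      apply he
      rw [Finset.pair_comm]
      apply ky x hx hne.symm
      rw [← hy]
      exact h2.symm
    · exact ky z hz h1 hy
  have aF : a' ∉ ({a, b, c} : Finset V) := by
    simp only [Finset.mem_insert, Finset.mem_singleton, not_or]
    exact ⟨na', fun h => ma' (h ▸ eab), fun h => ma' (h ▸ eac)⟩
  have bF : b' ∉ ({a, b, c} : Finset V) := by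
    simp only [Finset.mem_insert, Finset.mem_singleton, not_or]
    exact ⟨fun h => mb' (h ▸ edge_swap eab), nb', fun h => mb' (h ▸ ebc)⟩
  have cF : c' ∉ ({a, b, c} : Finset V) := by
    simp only [Finset.mem_insert, Finset.mem_singleton, not_or]
    exact ⟨fun h => mc' (h ▸ edge_swap eac), fun h => mc' (h ▸ edge_swap ebc), nc'⟩
  have aF2 := aF
  have bF2 := bF
  have cF2 := cF
  simp only [Finset.mem_insert, Finset.mem_singleton, not_or] at aF2 bF2 cF2
  have ab' : a' ≠ b' := by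
    rintro rfl
    exact ma' (edge_swap (sym b a' ub ua' nb' mb' a ua (Ne.symm aF2.1) ab))
  have ac' : a' ≠ c' := by
    rintro rfl
    exact ma' (edge_swap (sym c a' uc ua' nc' mc' a ua (Ne.symm aF2.1) ac))
  have bc' : b' ≠ c' := by
    rintro rfl
    exact mb' (edge_swap (sym c b' uc ub' nc' mc' b ub (Ne.symm bF2.2.1) bc))
  have hIeq : ({a', b', c'} : Finset V) = uv T \ {a, b, c} := by
    apply Finset.eq_of_subset_of_card_le
    · intro z hz
      simp only [Finset.mem_insert, Finset.mem_singleton] at hz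
      rw [mem_sdiff]
      rcases hz with rfl | rfl | rfl
      · exact ⟨ua', aF⟩
      · exact ⟨ub', bF⟩
      · exact ⟨uc', cF⟩
    · rw [hcI, Finset.card_eq_three.2 ⟨a', b', c', ab', ac', bc', rfl⟩]
  refine glOct (a := a) (b := b) (c := c) (a' := a') (b' := b') (c' := c') ?_ ?_ ?_ ?_ ?_ ?_ ?_
    ab bc ac ab' bc' ac' ?_ ?_ ?_ ?_ ?_ ?_ ?_ ?_ ?_
  · intro v hv
    rw [← hIeq] at hv
    simpa using hv
  · rw [← hIeq]; simp
  · rw [← hIeq]; simp
  · rw [← hIeq]; simp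
  · simp
  · simp
  · simp
  · exact sym a a' ua ua' na' ma' b' ub' ab'.symm bF2.1
  · exact sym b b' ub ub' nb' mb' c' uc' bc'.symm cF2.2.1
  · exact sym a a' ua ua' na' ma' c' uc' ac'.symm cF2.1
  · exact sym a a' ua ua' na' ma' b ub (Ne.symm aF2.2.1) ab.symm
  · exact sym a a' ua ua' na' ma' c uc (Ne.symm aF2.2.2) ac.symm
  · exact sym b b' ub ub' nb' mb' a ua (Ne.symm bF2.1) ab
  · exact sym b b' ub ub' nb' mb' c uc (Ne.symm bF2.2.2) bc.symm
  · exact sym c c' uc uc' nc' mc' a ua (Ne.symm cF2.1) ac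
  · exact sym c c' uc uc' nc' mc' b ub (Ne.symm cF2.2.1) bc

end Pool.Agent.Spl2
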