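import Pool.Agent.Spl2.BrGlu
import Pool.Agent.Spl2.F3L
import Pool.Agent.Spl2.D3L

/-!
# The theorem of Gluck: the reductions T4, F3, D3 and the octahedron

The same reductions as for the characteristic 2 system, for `GB 2 K` (every infinite field `K`), by contraction of single
edges with two common neighbours (`gb_ctr`).
-/

set_option autoImplicit false

namespace Pool.Agent.Spl2

open Finset Pool.Agent.Spl1

variable {V : Type*} [Fintype V] [DecidableEq V] {K : Type*} [Field K]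

omit [Fintype V] in
/-- fewer equations -/
theorem gb_mono {m : ℕ} {E E' : Finset (Finset V)} {I : Finset V}
    (hE : ∀ x y, x ≠ y → ({x, y} : Finset V) ∈ E' → ({x, y} : Finset V) ∈ E)
    (h : GB m K E' I) : GB m K E I := by
  obtain ⟨Q, hQ, hQ'⟩ := h
  exact ⟨Q, hQ, fun p hp q h1 h2 => hQ' p hp q h1 (fun u v huv he => h2 u v huv (hE u v huv he))⟩

/-- the edges after the contraction of `v` to `o` -/
def ce (E : Finset (Finset V)) (v o : V) : Finset (Finset V) :=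
  univ.filter (fun e => ∃ x y, x ≠ y ∧ e = {x, y} ∧ x ≠ v ∧ y ≠ v ∧
    (({x, y} : Finset V) ∈ E ∨ (x = o ∧ ({v, y} : Finset V) ∈ E)))

omit [Fintype V] in
theorem pair_eq {x y a b : V} (h : ({x, y} : Finset V) = {a, b}) :
    (x = a ∧ y = b) ∨ (x = b ∧ y = a) := by
  have hx : x ∈ ({a, b} : Finset V) := by rw [← h]; simp
  have hy : y ∈ ({a, b} : Finset V) := by rw [← h]; simp
  have ha : a ∈ ({x, y} : Finset V) := by rw [h]; simp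
  have hb : b ∈ ({x, y} : Finset V) := by rw [h]; simp
  simp only [Finset.mem_insert, Finset.mem_singleton] at hx hy ha hb
  rcases hx with rfl | rfl
  · rcases hy with rfl | rfl
    · rcases hb with rfl | rfl <;> exact Or.inl ⟨rfl, rfl⟩
    · exact Or.inl ⟨rfl, rfl⟩
  · rcases hy with rfl | rfl
    · exact Or.inr ⟨rfl, rfl⟩
    · rcases ha with rfl | rfl <;> exact Or.inl ⟨rfl, rfl⟩

theorem mem_ce {E : Finset (Finset V)} {v o x y : V} (hxy : x ≠ y) :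
    ({x, y} : Finset V) ∈ ce E v o ↔ x ≠ v ∧ y ≠ v ∧
      (({x, y} : Finset V) ∈ E ∨ (x = o ∧ ({v, y} : Finset V) ∈ E) ∨
        (y = o ∧ ({v, x} : Finset V) ∈ E)) := by
  unfold ce
  rw [mem_filter]
  constructor
  · rintro ⟨-, a, b, hab, he, ha, hb, h⟩
    rcases pair_eq he with ⟨rfl, rfl⟩ | ⟨rfl, rfl⟩
    · refine ⟨ha, hb, ?_⟩
      rcases h with h | h
      · exact Or.inl h
      · exact Or.inr (Or.inl h)
    · refine ⟨hb, ha, ?_⟩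
      rcases h with h | h
      · exact Or.inl (by rwa [Finset.pair_comm])
      · exact Or.inr (Or.inr h)
  · rintro ⟨h1, h2, h⟩
    refine ⟨mem_univ _, ?_⟩
    rcases h with h | h | h
    · exact ⟨x, y, hxy, rfl, h1, h2, Or.inl h⟩
    · exact ⟨x, y, hxy, rfl, h1, h2, Or.inr h⟩
    · exact ⟨y, x, hxy.symm, Finset.pair_comm _ _, h2, h1, Or.inr h⟩

variable [Infinite K]

theorem gb_ce (E : Finset (Finset V)) (I : Finset V) (v o a b : V) (hv : v ∈ I)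
    (hvo : v ≠ o) (hva : v ≠ a) (hvb : v ≠ b) (hoa : o ≠ a) (hob : o ≠ b) (hab : a ≠ b)
    (h1 : ({v, o} : Finset V) ∈ E) (h2 : ({v, a} : Finset V) ∈ E) (h3 : ({v, b} : Finset V) ∈ E)
    (h4 : ({o, a} : Finset V) ∈ E ∨ (o ∉ I ∧ a ∉ I))
    (h5 : ({o, b} : Finset V) ∈ E ∨ (o ∉ I ∧ b ∉ I))
    (h : GB 2 K (ce E v o) (I.erase v)) : GB 2 K E I := by
  refine gb_ctr E (ce E v o) I v o a b hv hvo hva hvb hoa hob hab h1 h2 h3 h4 h5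
    (fun x y hxy he => ?_) h
  obtain ⟨hx, hy, h⟩ := (mem_ce hxy).1 he
  rcases h with h | h | h
  · exact Or.inl ⟨hx, hy, h⟩
  · exact Or.inr (Or.inl ⟨h.1, hy, h.2⟩)
  · exact Or.inr (Or.inr (Or.inl ⟨h.1, hx, h.2⟩))

theorem glT4 {E E' : Finset (Finset V)} {I : Finset V} {v1 v2 x y z u : V}
    (h12 : v1 ≠ v2) (h1x : v1 ≠ x) (h1y : v1 ≠ y) (h1z : v1 ≠ z) (_h1u : v1 ≠ u)
    (h2x : v2 ≠ x) (h2y : v2 ≠ y) (_h2z : v2 ≠ z) (_h2u : v2 ≠ u)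
    (hxy : x ≠ y) (_hxz : x ≠ z) (_hxu : x ≠ u) (_hyz : y ≠ z) (_hyu : y ≠ u) (_hzu : z ≠ u)
    (hv1 : v1 ∈ I) (_hv2 : v2 ∈ I)
    (n1 : ∀ a, a ≠ v1 → (({v1, a} : Finset V) ∈ E ↔ a = v2 ∨ a = x ∨ a = y ∨ a = z))
    (n2 : ∀ a, a ≠ v2 → (({v2, a} : Finset V) ∈ E ↔ a = v1 ∨ a = x ∨ a = y ∨ a = u))
    (hE' : ∀ a b, a ≠ b → (({a, b} : Finset V) ∈ E' ↔
      (({a, b} : Finset V) ∈ E ∧ a ≠ v1 ∧ b ≠ v1) ∨ (a = v2 ∧ b = z) ∨ (a = z ∧ b = v2)))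
    (h : GB 2 K E' (I.erase v1)) : GB 2 K E I := by
  refine gb_ctr E E' I v1 v2 x y hv1 h12 h1x h1y h2x h2y hxy
    ((n1 v2 h12.symm).2 (Or.inl rfl)) ((n1 x h1x.symm).2 (Or.inr (Or.inl rfl)))
    ((n1 y h1y.symm).2 (Or.inr (Or.inr (Or.inl rfl))))
    (Or.inl ((n2 x h2x.symm).2 (Or.inr (Or.inl rfl))))
    (Or.inl ((n2 y h2y.symm).2 (Or.inr (Or.inr (Or.inl rfl))))) (fun a b hab he => ?_) h
  rcases (hE' a b hab).1 he with h | ⟨rfl, rfl⟩ | ⟨rfl, rfl⟩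
  · exact Or.inl ⟨h.2.1, h.2.2, h.1⟩
  · exact Or.inr (Or.inl ⟨rfl, h1z.symm, (n1 _ h1z.symm).2 (Or.inr (Or.inr (Or.inr rfl)))⟩)
  · exact Or.inr (Or.inr (Or.inl ⟨rfl, h1z.symm, (n1 _ h1z.symm).2 (Or.inr (Or.inr (Or.inr rfl)))⟩))

theorem glF3 {E E' : Finset (Finset V)} {I : Finset V} {o v1 v2 x y a : V} {N1 N2 : Finset V}
    (D : F3Data E E' I o v1 v2 x y a N1 N2) (h : GB 2 K E' ((I.erase v1).erase v2)) :
    GB 2 K E I := by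
  have e1 : ∀ b, b ≠ v1 → b = o ∨ b = v2 ∨ b = x ∨ b = a ∨ b ∈ N1 → ({v1, b} : Finset V) ∈ E :=
    fun b hb h => (D.n1 b hb).2 h
  have e2 : ∀ b, b ≠ v2 → b = o ∨ b = v1 ∨ b = y ∨ b = a ∨ b ∈ N2 → ({v2, b} : Finset V) ∈ E :=
    fun b hb h => (D.n2 b hb).2 h
  have eo2 : ({o, v2} : Finset V) ∈ E := by
    rw [Finset.pair_comm]
    exact e2 o D.h2o.symm (Or.inl rfl)
  refine gb_ce E I v1 o v2 x D.I1 D.h1o D.h12 D.x1.symm D.h2o.symm D.xo.symm D.x2.symm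
    (e1 o D.h1o.symm (Or.inl rfl)) (e1 v2 D.h12.symm (Or.inr (Or.inl rfl)))
    (e1 x D.x1 (Or.inr (Or.inr (Or.inl rfl)))) (Or.inl eo2) (Or.inl D.ox) ?_
  refine gb_ce (ce E v1 o) (I.erase v1) v2 o y a (mem_erase.2 ⟨D.h12.symm, D.I2⟩) D.h2o
    D.y2.symm D.a2.symm D.yo.symm D.ao.symm D.ya
    ((mem_ce D.h2o).2 ⟨D.h12.symm, D.h1o.symm, Or.inl (e2 o D.h2o.symm (Or.inl rfl))⟩)
    ((mem_ce D.y2.symm).2 ⟨D.h12.symm, D.y1, Or.inl (e2 y D.y2 (Or.inr (Or.inr (Or.inl rfl))))⟩)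
    ((mem_ce D.a2.symm).2 ⟨D.h12.symm, D.a1,
      Or.inl (e2 a D.a2 (Or.inr (Or.inr (Or.inr (Or.inl rfl)))))⟩)
    (Or.inl ((mem_ce D.yo.symm).2 ⟨D.h1o.symm, D.y1, Or.inl D.oy⟩))
    (Or.inl ((mem_ce D.ao.symm).2 ⟨D.h1o.symm, D.a1,
      Or.inr (Or.inl ⟨rfl, e1 a D.a1 (Or.inr (Or.inr (Or.inr (Or.inl rfl))))⟩)⟩)) ?_
  refine gb_mono (fun b c hbc he => ?_) h
  have key : ∀ d, d ≠ o → d = a ∨ d ∈ N1 ∨ d ∈ N2 → ({o, d} : Finset V) ∈ ce (ce E v1 o) v2 o := by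
    intro d hdo hd
    have hd1 : d ≠ v1 := by
      rintro rfl
      rcases hd with h | h | h
      · exact D.a1 h.symm
      · exact D.N11 h
      · exact D.N21 h
    have hd2 : d ≠ v2 := by
      rintro rfl
      rcases hd with h | h | h
      · exact D.a2 h.symm
      · exact D.N12 h
      · exact D.N22 h
    rw [mem_ce hdo.symm]
    refine ⟨D.h2o.symm, hd2, ?_⟩
    rcases hd with h | h | h
    · exact Or.inl ((mem_ce hdo.symm).2 ⟨D.h1o.symm, hd1,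
        Or.inr (Or.inl ⟨rfl, e1 d hd1 (Or.inr (Or.inr (Or.inr (Or.inl h))))⟩)⟩)
    · exact Or.inl ((mem_ce hdo.symm).2 ⟨D.h1o.symm, hd1,
        Or.inr (Or.inl ⟨rfl, e1 d hd1 (Or.inr (Or.inr (Or.inr (Or.inr h))))⟩)⟩)
    · exact Or.inr (Or.inl ⟨rfl, (mem_ce hd2.symm).2 ⟨D.h12.symm, hd1,
        Or.inl (e2 d hd2 (Or.inr (Or.inr (Or.inr (Or.inr h)))))⟩⟩)
  rcases (D.hE' b c hbc).1 he with h | ⟨rfl, h⟩ | ⟨rfl, h⟩
  · exact (mem_ce hbc).2 ⟨h.2.2.1, h.2.2.2.2, Or.inl ((mem_ce hbc).2 ⟨h.2.1, h.2.2.2.1,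
      Or.inl h.1⟩)⟩
  · exact key c hbc.symm h
  · rw [Finset.pair_comm]
    exact key b hbc h

theorem glD3 {E E' : Finset (Finset V)} {I : Finset V} {o p v w x1 x2 y1 y2 n : V}
    (D : D3Data E E' I o p v w x1 x2 y1 y2 n)
    (h : GB 2 K E' (((I.erase p).erase v).erase w)) : GB 2 K E I := by
  have ep : ∀ b, b ≠ p → b = o ∨ b = v ∨ b = w ∨ b = x2 ∨ b = y2 ∨ b = n →
      ({p, b} : Finset V) ∈ E := fun b hb h => (D.np b hb).2 h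
  have ev : ∀ b, b ≠ v → b = o ∨ b = p ∨ b = x1 ∨ b = x2 → ({v, b} : Finset V) ∈ E :=
    fun b hb h => (D.nv b hb).2 h
  have ew : ∀ b, b ≠ w → b = o ∨ b = p ∨ b = y1 ∨ b = y2 → ({w, b} : Finset V) ∈ E :=
    fun b hb h => (D.nw b hb).2 h
  have eop : ({o, p} : Finset V) ∈ E := by
    rw [Finset.pair_comm]
    exact ep o D.op (Or.inl rfl)
  -- `v → o`
  refine gb_ce E I v o x1 p D.Iv D.ov.symm D.vx1 D.pv.symm D.ox1 D.op D.px1.symm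
    (ev o D.ov (Or.inl rfl)) (ev x1 D.vx1.symm (Or.inr (Or.inr (Or.inl rfl))))
    (ev p D.pv (Or.inr (Or.inl rfl))) (Or.inl D.eox1) (Or.inl eop) ?_
  -- `w → o`
  have hwI : w ∈ I.erase v := mem_erase.2 ⟨D.vw.symm, D.Iw⟩
  refine gb_ce (ce E v o) (I.erase v) w o y1 p hwI D.ow.symm D.wy1 D.pw.symm D.oy1 D.op
    D.py1.symm
    ((mem_ce D.ow.symm).2 ⟨D.vw.symm, D.ov, Or.inl (ew o D.ow (Or.inl rfl))⟩)
    ((mem_ce D.wy1).2 ⟨D.vw.symm, D.vy1.symm, Or.inl (ew y1 D.wy1.symm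
      (Or.inr (Or.inr (Or.inl rfl))))⟩)
    ((mem_ce D.pw.symm).2 ⟨D.vw.symm, D.pv, Or.inl (ew p D.pw (Or.inr (Or.inl rfl)))⟩)
    (Or.inl ((mem_ce D.oy1).2 ⟨D.ov, D.vy1.symm, Or.inl D.eoy1⟩))
    (Or.inl ((mem_ce D.op).2 ⟨D.ov, D.pv, Or.inl eop⟩)) ?_
  -- `p → o`
  have hpI : p ∈ (I.erase v).erase w := mem_erase.2 ⟨D.pw, mem_erase.2 ⟨D.pv, D.Ip⟩⟩
  have hpE : ∀ b, b ≠ v → b ≠ w → b ≠ p → ({p, b} : Finset V) ∈ E →
      ({p, b} : Finset V) ∈ ce (ce E v o) w o := by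
    intro b h1 h2 h3 h4
    exact (mem_ce h3.symm).2 ⟨D.pw, h2, Or.inl ((mem_ce h3.symm).2 ⟨D.pv, h1, Or.inl h4⟩)⟩
  have hox2 : ({o, x2} : Finset V) ∈ ce (ce E v o) w o :=
    (mem_ce D.ox2).2 ⟨D.ow, D.wx2.symm, Or.inl ((mem_ce D.ox2).2 ⟨D.ov, D.vx2.symm,
      Or.inr (Or.inl ⟨rfl, ev x2 D.vx2.symm (Or.inr (Or.inr (Or.inr rfl)))⟩)⟩)⟩
  have hoy2 : ({o, y2} : Finset V) ∈ ce (ce E v o) w o :=
    (mem_ce D.oy2).2 ⟨D.ow, D.wy2.symm, Or.inr (Or.inl ⟨rfl, (mem_ce D.wy2).2 ⟨D.vw.symm,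
      D.vy2.symm, Or.inl (ew y2 D.wy2.symm (Or.inr (Or.inr (Or.inr rfl))))⟩⟩)⟩
  refine gb_ce (ce (ce E v o) w o) ((I.erase v).erase w) p o x2 y2 hpI D.op.symm D.px2 D.py2
    D.ox2 D.oy2 D.x2y2 (hpE o D.ov D.ow D.op (ep o D.op (Or.inl rfl)))
    (hpE x2 D.vx2.symm D.wx2.symm D.px2.symm (ep x2 D.px2.symm (Or.inr (Or.inr (Or.inr
      (Or.inl rfl))))))
    (hpE y2 D.vy2.symm D.wy2.symm D.py2.symm (ep y2 D.py2.symm (Or.inr (Or.inr (Or.inr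
      (Or.inr (Or.inl rfl)))))))
    (Or.inl hox2) (Or.inl hoy2) ?_
  have hI : ((I.erase v).erase w).erase p = ((I.erase p).erase v).erase w := by
    ext z
    simp only [mem_erase]
    tauto
  rw [hI]
  refine gb_mono (fun b c hbc he => ?_) h
  have key : ∀ d, d ≠ o → d = x2 ∨ d = y2 ∨ d = n →
      ({o, d} : Finset V) ∈ ce (ce (ce E v o) w o) p o := by
    intro d hdo hd
    rw [mem_ce hdo.symm]
    rcases hd with rfl | rfl | rfl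
    · exact ⟨D.op, D.px2.symm, Or.inl hox2⟩
    · exact ⟨D.op, D.py2.symm, Or.inl hoy2⟩
    · exact ⟨D.op, D.pn.symm, Or.inr (Or.inl ⟨rfl, hpE _ D.vn.symm D.wn.symm D.pn.symm
        (ep _ D.pn.symm (Or.inr (Or.inr (Or.inr (Or.inr (Or.inr rfl))))))⟩)⟩
  rcases (D.hE' b c hbc).1 he with ⟨h0, h1, h2, h3, h4, h5, h6⟩ | ⟨rfl, h⟩ | ⟨rfl, h⟩
  · exact (mem_ce hbc).2 ⟨h1, h4, Or.inl ((mem_ce hbc).2 ⟨h3, h6, Or.inl ((mem_ce hbc).2
      ⟨h2, h5, Or.inl h0⟩)⟩)⟩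
  · exact key c hbc.symm h
  · rw [Finset.pair_comm]
    exact key b hbc h

/-- the octahedron `a b c a' b' c'` with the pinned triangle `a b c` -/
theorem glOct {E : Finset (Finset V)} {I : Finset V} {a b c a' b' c' : V}
    (hI : ∀ v, v ∈ I → v = a' ∨ v = b' ∨ v = c') (ha' : a' ∈ I) (hb' : b' ∈ I) (hc' : c' ∈ I)
    (ha : a ∉ I) (hb : b ∉ I) (hc : c ∉ I) (ab : a ≠ b) (bc : b ≠ c) (ac : a ≠ c)
    (ab' : a' ≠ b') (bc' : b' ≠ c') (ac' : a' ≠ c')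
    (e1 : ({a', b'} : Finset V) ∈ E) (e2 : ({b', c'} : Finset V) ∈ E)
    (e3 : ({a', c'} : Finset V) ∈ E) (e4 : ({a', b} : Finset V) ∈ E)
    (e5 : ({a', c} : Finset V) ∈ E) (e6 : ({b', a} : Finset V) ∈ E)
    (e7 : ({b', c} : Finset V) ∈ E) (e8 : ({c', a} : Finset V) ∈ E)
    (e9 : ({c', b} : Finset V) ∈ E) : GB 2 K E I := by
  have na : ∀ v ∈ I, v ≠ a := fun v hv h => ha (h ▸ hv)
  have nb : ∀ v ∈ I, v ≠ b := fun v hv h => hb (h ▸ hv)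
  have nc : ∀ v ∈ I, v ≠ c := fun v hv h => hc (h ▸ hv)
  refine gb_ce E I a' b' c c' ha' ab' (nc _ ha') ac' (nc _ hb') bc' (nc _ hc').symm e1 e5 e3
    (Or.inl e7) (Or.inl e2) ?_
  -- delete `c'`
  refine gb_del (ce E a' b') (ce E a' b' |>.filter (fun e => c' ∉ e)) (I.erase a') c' a b b'
    (mem_erase.2 ⟨ac'.symm, hc'⟩) (na _ hc') (nb _ hc') bc'.symm ab (na _ hb').symm
    (nb _ hb').symm ((mem_ce (na _ hc')).2 ⟨ac'.symm, (na _ ha').symm, Or.inl e8⟩)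
    ((mem_ce (nb _ hc')).2 ⟨ac'.symm, (nb _ ha').symm, Or.inl e9⟩)
    ((mem_ce bc'.symm).2 ⟨ac'.symm, ab'.symm, Or.inl (by rwa [Finset.pair_comm])⟩)
    (fun x y hxy he => ?_) ?_
  · rw [mem_filter] at he
    have h1 := he.2
    simp only [Finset.mem_insert, Finset.mem_singleton, not_or] at h1
    exact Or.inl ⟨Ne.symm h1.1, Ne.symm h1.2, he.1⟩
  -- delete `b'`
  have hf : ∀ x, x ≠ a' → x ≠ b' → x ≠ c' → (({b', x} : Finset V) ∈ E ∨ ({a', x} : Finset V) ∈ E) →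
      ({b', x} : Finset V) ∈ (ce E a' b').filter (fun e => c' ∉ e) := by
    intro x h1 h2 h3 h4
    rw [mem_filter, mem_ce h2.symm]
    refine ⟨⟨ab'.symm, h1, ?_⟩, ?_⟩
    · rcases h4 with h4 | h4
      · exact Or.inl h4
      · exact Or.inr (Or.inl ⟨rfl, h4⟩)
    · simp only [Finset.mem_insert, Finset.mem_singleton, not_or]
      exact ⟨bc'.symm, Ne.symm h3⟩
  refine gb_del _ ∅ ((I.erase a').erase c') b' a b c
    (mem_erase.2 ⟨bc', mem_erase.2 ⟨ab'.symm, hb'⟩⟩) (na _ hb') (nb _ hb') (nc _ hb') ab ac bc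
    (hf a (na _ ha').symm (na _ hb').symm (na _ hc').symm (Or.inl e6))
    (hf b (nb _ ha').symm (nb _ hb').symm (nb _ hc').symm (Or.inr e4))
    (hf c (nc _ ha').symm (nc _ hb').symm (nc _ hc').symm (Or.inl e7))
    (fun x y hxy he => by simp at he) ?_
  have hI0 : ((I.erase a').erase c').erase b' = ∅ := by
    ext z
    simp only [mem_erase, notMem_empty, iff_false, not_and]
    intro h1 h2 h3 h4
    rcases hI z h4 with h | h | h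
    · exact h3 h
    · exact h1 h
    · exact h2 h
  rw [hI0]
  refine ⟨1, one_ne_zero, fun p _ q h1 _ v => h1 v (notMem_empty v)⟩

end Pool.Agent.Spl2
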