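import Pool.Agent.Spl2.C2

/-!
# The limit argument

If `NG E I` fails then for all positions `p : V → K[X] × K[X]` (`K` a field of characteristic 2) there is a
motion `w` over `K[X]` which does not vanish at `X = 0`.

Proof: `NNS` fails over `RatFunc K`; clear denominators (`IsLocalization`), then divide by `X` as long as all
the constant coefficients vanish.
-/

set_option autoImplicit false

namespace Pool.Agent.Spl2

open Finset Pool.Agent.Spl1 Polynomial

variable {V : Type*} [Fintype V] [DecidableEq V]

/-- motions under a map of rings -/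
theorem cu_map {R S : Type*} [CommRing R] [CommRing S] (f : R →+* S) (w : Fin 6 → R)
    (x y : R × R) :
    cu (fun i => f (w i)) (f x.1, f x.2) (f y.1, f y.2) = f (cu w x y) := by
  simp only [cu, map_add, map_mul, map_pow]

theorem ad_map {R S : Type*} [CommRing R] [CommRing S] (f : R →+* S) (w : Fin 6 → R)
    (x : R × R) : ad (fun i => f (w i)) (f x.1, f x.2) = f (ad w x) := by
  simp only [ad, map_add, map_mul, map_pow]

theorem nmot_map {R S : Type*} [CommRing R] [CommRing S] (f : R →+* S) {p : V → R × R}
    {E : Finset (Finset V)} {I : Finset V} {w : V → Fin 6 → R} (h : NMot p E I w) :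
    NMot (fun v => (f (p v).1, f (p v).2)) E I (fun v i => f (w v i)) where
  pin := by
    intro v hv
    funext i
    rw [h.pin v hv]
    simp
  eq := by
    intro u v huv he
    have h1 := congrArg f (h.eq u v huv he)
    rw [map_add, ← cu_map, ← ad_map, ← ad_map] at h1
    simpa using h1

theorem nmot_of_map {R S : Type*} [CommRing R] [CommRing S] (f : R →+* S)
    (hf : Function.Injective f) {p : V → R × R}
    {E : Finset (Finset V)} {I : Finset V} {w : V → Fin 6 → R}
    (h : NMot (fun v => (f (p v).1, f (p v).2)) E I (fun v i => f (w v i))) : NMot p E I w where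
  pin := by
    intro v hv
    funext i
    have := congrFun (h.pin v hv) i
    simp only [Pi.zero_apply] at this
    rw [Pi.zero_apply]
    exact hf (by rw [this, map_zero])
  eq := by
    intro u v huv he
    apply hf
    rw [map_add, ← cu_map, ← ad_map, ← ad_map]
    have h1 := h.eq u v huv he
    simpa using h1

theorem nmot_smul {R : Type*} [CommRing R] {p : V → R × R} {E : Finset (Finset V)}
    {I : Finset V} {w : V → Fin 6 → R} (h : NMot p E I w) (s : R) : NMot p E I (s • w) where
  pin := by
    intro v hv
    rw [Pi.smul_apply, h.pin v hv, smul_zero]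
  eq := by
    intro u v huv he
    rw [Pi.smul_apply, Pi.smul_apply, cu_smulw, ad_smulw, ad_smulw, h.eq u v huv he, mul_add]

theorem nmot_of_smul {R : Type*} [CommRing R] [IsDomain R] {p : V → R × R}
    {E : Finset (Finset V)} {I : Finset V} {w : V → Fin 6 → R} {s : R} (hs : s ≠ 0)
    (h : NMot p E I (s • w)) : NMot p E I w where
  pin := by
    intro v hv
    have := h.pin v hv
    rw [Pi.smul_apply] at this
    exact (smul_eq_zero.1 this).resolve_left hs
  eq := by
    intro u v huv he
    have := h.eq u v huv he
    rw [Pi.smul_apply, Pi.smul_apply, cu_smulw, ad_smulw, ad_smulw, ← mul_add] at this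
    exact mul_left_cancel₀ hs this

theorem lim_div {K : Type} [Field K] {p : V → K[X] × K[X]} {E : Finset (Finset V)}
    {I : Finset V} : ∀ n : ℕ, ∀ y : V → Fin 6 → K[X], NMot p E I y →
      (∃ v i, y v i ≠ 0 ∧ (y v i).natDegree ≤ n) →
      ∃ w : V → Fin 6 → K[X], NMot p E I w ∧ ∃ v i, (w v i).coeff 0 ≠ 0 := by
  intro n
  induction n with
  | zero =>
    rintro y hy ⟨v, i, h0, hd⟩
    refine ⟨y, hy, v, i, ?_⟩
    intro h
    apply h0
    rw [Polynomial.eq_C_of_natDegree_le_zero hd, h, map_zero]
  | succ n ih =>
    rintro y hy ⟨v, i, h0, hd⟩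
    by_cases hc : ∃ v i, (y v i).coeff 0 ≠ 0
    · exact ⟨y, hy, hc⟩
    · push Not at hc
      have hdiv : ∀ v i, y v i = X * (y v i).divX := by
        intro v i
        have h1 := Polynomial.divX_mul_X_add (y v i)
        rw [hc v i, map_zero, add_zero] at h1
        rw [mul_comm, h1]
      have hy' : y = (X : K[X]) • fun v i => (y v i).divX := by
        funext v i
        rw [Pi.smul_apply, Pi.smul_apply, smul_eq_mul]
        exact hdiv v i
      have h2 : NMot p E I (fun v i => (y v i).divX) := by
        apply nmot_of_smul (Polynomial.X_ne_zero)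
        rw [← hy']
        exact hy
      apply ih _ h2
      refine ⟨v, i, ?_, ?_⟩
      · intro h3
        apply h0
        rw [hdiv v i, h3, mul_zero]
      · show (y v i).divX.natDegree ≤ n
        rw [Polynomial.natDegree_divX_eq_natDegree_tsub_one]
        omega

theorem ratFunc_charP (K : Type) [Field K] [CharP K 2] : CharP (RatFunc K) 2 :=
  charP_of_injective_algebraMap (RatFunc.algebraMap_injective K) 2

/-- positions over `RatFunc K` -/
noncomputable def posR {K : Type} [Field K] (p : V → K[X] × K[X]) : V → RatFunc K × RatFunc K :=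
  fun v => (algebraMap K[X] (RatFunc K) (p v).1, algebraMap K[X] (RatFunc K) (p v).2)

theorem lim' {K : Type} [Field K] (p : V → K[X] × K[X]) {E : Finset (Finset V)}
    {I : Finset V} (h1 : ¬ NNS (posR p) E I) :
    ∃ w : V → Fin 6 → K[X], NMot p E I w ∧ ∃ v i, (w v i).coeff 0 ≠ 0 := by
  classical
  have hinj : Function.Injective (algebraMap K[X] (RatFunc K)) := RatFunc.algebraMap_injective K
  unfold NNS at h1
  push Not at h1
  obtain ⟨x, hx, hx0⟩ := h1
  obtain ⟨b, hb⟩ := IsLocalization.exist_integer_multiples_of_finset (nonZeroDivisors K[X])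
    (Finset.univ.image (fun q : V × Fin 6 => x q.1 q.2))
  have hb' : ∀ v i, ∃ y : K[X], algebraMap K[X] (RatFunc K) y = (b : K[X]) • x v i := by
    intro v i
    have := hb (x v i) (Finset.mem_image.2 ⟨(v, i), Finset.mem_univ _, rfl⟩)
    exact this
  choose y hy using hb'
  have hbne : (b : K[X]) ≠ 0 := nonZeroDivisors.ne_zero b.2
  have h2 : NMot p E I y := by
    apply nmot_of_map _ hinj
    have h3 := nmot_smul hx (algebraMap K[X] (RatFunc K) b)
    have h4 : (fun v i => algebraMap K[X] (RatFunc K) (y v i)) =
        (algebraMap K[X] (RatFunc K) b) • x := by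
      funext v i
      rw [hy v i, Pi.smul_apply, Pi.smul_apply, smul_eq_mul, Algebra.smul_def]
    rw [h4]
    exact h3
  have h5 : ∃ v i, x v i ≠ 0 := by
    by_contra hcon
    push Not at hcon
    apply hx0
    funext v i
    exact hcon v i
  obtain ⟨v, i, hvi⟩ := h5
  apply lim_div (y v i).natDegree y h2
  refine ⟨v, i, ?_, le_rfl⟩
  intro h6
  have h7 := hy v i
  rw [h6, map_zero, Algebra.smul_def] at h7
  have h8 : algebraMap K[X] (RatFunc K) b ≠ 0 := by
    intro h9
    exact hbne (hinj (by rw [h9, map_zero]))
  exact hvi ((mul_eq_zero.1 h7.symm).resolve_left h8)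

theorem lim {K : Type} [Field K] [CharP K 2] (p : V → K[X] × K[X]) {E : Finset (Finset V)}
    {I : Finset V} (hn : ¬ NG E I) :
    ∃ w : V → Fin 6 → K[X], NMot p E I w ∧ ∃ v i, (w v i).coeff 0 ≠ 0 := by
  apply lim'
  intro h
  exact hn ⟨RatFunc K, inferInstance, ratFunc_charP K, _, h⟩

/-- the value at `X = 0` of a motion over `K[X]` -/
theorem nmot_coeff {K : Type} [Field K] {p : V → K[X] × K[X]} {E : Finset (Finset V)}
    {I : Finset V} {w : V → Fin 6 → K[X]} (h : NMot p E I w) :
    NMot (fun v => ((p v).1.coeff 0, (p v).2.coeff 0)) E I (fun v i => (w v i).coeff 0) :=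
  nmot_map (Polynomial.constantCoeff : K[X] →+* K) h

/-- nonsingular at a special point, so nonsingular at the generic point -/
theorem nspec {K : Type} [Field K] (p : V → K[X] × K[X]) {E : Finset (Finset V)}
    {I : Finset V} (h : NNS (fun v => ((p v).1.coeff 0, (p v).2.coeff 0)) E I) :
    NNS (posR p) E I := by
  by_contra hcon
  obtain ⟨w, hw, v, i, hvi⟩ := lim' p hcon
  have h1 := h _ (nmot_coeff hw)
  exact hvi (congrFun (congrFun h1 v) i)

end Pool.Agent.Spl2
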