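import Pool.Agent.Spl2.Util

/-!
# The base case: all interior vertices have two pinned neighbours and at least four neighbours

The additive forms vanish (two zeros), so the cubic forms have four zeros.
-/

set_option autoImplicit false

namespace Pool.Agent.Spl2

open Finset Pool.Agent.Spl1 Polynomial

variable {V : Type*} [Fintype V] [DecidableEq V]

/-- positions without collinear triples over an infinite field of characteristic 2 -/
theorem exists_gp (V : Type*) [Fintype V] [DecidableEq V] :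
    ∃ (K : Type) (_ : Field K) (_ : CharP K 2) (p : V → K × K), GP p := by
  have := ratFunc_infinite (ZMod 2)
  obtain ⟨t, ht⟩ := exists_inj V (RatFunc (ZMod 2))
  refine ⟨RatFunc (ZMod 2), inferInstance, ratFunc_charP _, fun v => (t v, t v ^ 2), ?_⟩
  intro a b c hab hbc hac h
  have e1 : br ((t b, t b ^ 2) - (t a, t a ^ 2)) ((t c, t c ^ 2) - (t a, t a ^ 2)) =
      (t b - t a) * (t c - t a) * (t c - t b) := by
    simp only [br, Prod.mk_sub_mk]
    ring
  simp only at h
  rw [e1] at h
  rcases mul_eq_zero.1 h with h1 | h1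
  · rcases mul_eq_zero.1 h1 with h2 | h2
    · exact hab (ht (sub_eq_zero.1 h2)).symm
    · exact hac (ht (sub_eq_zero.1 h2)).symm
  · exact hbc (ht (sub_eq_zero.1 h1)).symm

theorem octa {E : Finset (Finset V)} {I : Finset V}
    (h : ∀ v ∈ I, ∃ a b c d : V, a ≠ v ∧ b ≠ v ∧ c ≠ v ∧ d ≠ v ∧ a ≠ b ∧ a ≠ c ∧ a ≠ d ∧
      b ≠ c ∧ b ≠ d ∧ c ≠ d ∧ ({v, a} : Finset V) ∈ E ∧ ({v, b} : Finset V) ∈ E ∧
      ({v, c} : Finset V) ∈ E ∧ ({v, d} : Finset V) ∈ E ∧ a ∉ I ∧ b ∉ I) : NG E I := by
  obtain ⟨K, i1, i2, p, hgp⟩ := exists_gp V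
  refine ⟨K, i1, i2, p, ?_⟩
  intro w hw
  -- the additive forms vanish
  have had : ∀ v, w v 4 = 0 ∧ w v 5 = 0 := by
    intro v
    by_cases hv : v ∈ I
    · obtain ⟨a, b, c, d, ha, hb, hc, hd, hab, hac, had, hbc, hbd, hcd, ea, eb, ec, ed, na, nb⟩ :=
        h v hv
      have key : ∀ x, x ≠ v → ({v, x} : Finset V) ∈ E → x ∉ I → ad (w v) (p x - p v) = 0 := by
        intro x hx ex nx
        have h1 := hw.eq x v hx (by rw [Finset.pair_comm]; exact ex)
        rw [hw.pin x nx, cu_zero, ad_zero, zero_add] at h1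
        rw [c2_sub_pair]
        exact h1.symm
      exact ad_eq_zero (hgp v a b ha.symm hab hb.symm) (key a ha ea na) (key b hb eb nb)
    · rw [hw.pin v hv]
      exact ⟨rfl, rfl⟩
  have had0 : ∀ v x, ad (w v) x = 0 := by
    intro v x
    simp [ad, had v]
  funext v
  by_cases hv : v ∈ I
  · obtain ⟨a, b, c, d, ha, hb, hc, hd, hab, hac, had', hbc, hbd, hcd, ea, eb, ec, ed, na, nb⟩ :=
      h v hv
    have key : ∀ x, x ≠ v → ({v, x} : Finset V) ∈ E →
        cu (w v) (p x - p v) (p x - p v) = 0 := by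
      intro x hx ex
      rw [hw.eq v x hx.symm ex, had0, had0, add_zero]
    have h4 := cu_four (hgp v a b ha.symm hab hb.symm) (hgp v c a hc.symm hac.symm ha.symm)
      (hgp v c b hc.symm hbc.symm hb.symm) (hgp v d a hd.symm had'.symm ha.symm)
      (hgp v d b hd.symm hbd.symm hb.symm) (hgp v c d hc.symm hcd hd.symm)
      (key a ha ea) (key b hb eb) (key c hc ec) (key d hd ed)
    funext i
    fin_cases i
    · exact h4.1
    · exact h4.2.1
    · exact h4.2.2.1
    · exact h4.2.2.2
    · exact (had v).1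
    · exact (had v).2
  · exact hw.pin v hv

end Pool.Agent.Spl2
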