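import Pool.Agent.Spl2.Lim

/-!
# Generic positions

`NG E I` gives an infinite field of characteristic 2 and positions without collinear triples at which the
system is nonsingular.

Proof: pass to `K₁ = RatFunc K₀` (constant positions, `nspec`), choose different `t v ∈ K₁` and move the
positions by `X (t v, (t v)²)`: nonsingular over `RatFunc K₁` by `nspec`, and the coefficient of `X²` of the
bracket of three points is `(t b - t a)(t c - t a)(t c - t b) ≠ 0`.
-/

set_option autoImplicit false

namespace Pool.Agent.Spl2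

open Finset Pool.Agent.Spl1 Polynomial

variable {V : Type*} [Fintype V] [DecidableEq V]

theorem ratFunc_infinite (K : Type) [Field K] : Infinite (RatFunc K) :=
  Infinite.of_injective _ (RatFunc.algebraMap_injective K)

theorem exists_inj (V : Type*) [Fintype V] (K : Type) [Infinite K] :
    ∃ t : V → K, Function.Injective t := by
  refine ⟨fun v => Infinite.natEmbedding K (Fintype.equivFin V v), ?_⟩
  intro a b h
  have h1 := (Infinite.natEmbedding K).injective h
  exact (Fintype.equivFin V).injective (Fin.ext h1)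

theorem ng_generic {E : Finset (Finset V)} {I : Finset V} (h : NG E I) :
    ∃ (K : Type) (_ : Field K) (_ : CharP K 2) (_ : Infinite K) (p : V → K × K),
      NNS p E I ∧ GP p := by
  obtain ⟨K₀, i1, i2, p₀, h0⟩ := h
  -- constant positions over `RatFunc K₀`
  have h1 : NNS (posR (fun v => (C (p₀ v).1, C (p₀ v).2) : V → K₀[X] × K₀[X])) E I := by
    apply nspec
    simpa using h0
  haveI := ratFunc_charP K₀
  haveI := ratFunc_infinite K₀
  obtain ⟨t, ht⟩ := exists_inj V (RatFunc K₀)
  obtain ⟨p₁, hp₁⟩ : ∃ p₁ : V → RatFunc K₀ × RatFunc K₀,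
    p₁ = posR (fun v => (C (p₀ v).1, C (p₀ v).2) : V → K₀[X] × K₀[X]) := ⟨_, rfl⟩
  rw [← hp₁] at h1
  refine ⟨RatFunc (RatFunc K₀), inferInstance, ratFunc_charP _, ratFunc_infinite _,
    posR (fun v => (C (p₁ v).1 + X * C (t v), C (p₁ v).2 + X * C (t v ^ 2))), ?_, ?_⟩
  · apply nspec
    simpa using h1
  · intro a b c hab hbc hac
    have e1 : br (posR (fun v => (C (p₁ v).1 + X * C (t v), C (p₁ v).2 + X * C (t v ^ 2))) b -
        posR (fun v => (C (p₁ v).1 + X * C (t v), C (p₁ v).2 + X * C (t v ^ 2))) a)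
        (posR (fun v => (C (p₁ v).1 + X * C (t v), C (p₁ v).2 + X * C (t v ^ 2))) c -
        posR (fun v => (C (p₁ v).1 + X * C (t v), C (p₁ v).2 + X * C (t v ^ 2))) a) =
        algebraMap (RatFunc K₀)[X] (RatFunc (RatFunc K₀))
        (C (br (p₁ b - p₁ a) (p₁ c - p₁ a)) +
          X * C (((p₁ b).1 - (p₁ a).1) * (t c ^ 2 - t a ^ 2) + (t b - t a) * ((p₁ c).2 - (p₁ a).2)
            - ((p₁ b).2 - (p₁ a).2) * (t c - t a) - (t b ^ 2 - t a ^ 2) * ((p₁ c).1 - (p₁ a).1)) +
          X ^ 2 * C ((t b - t a) * (t c - t a) * (t c - t b))) := by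
      simp only [br, posR, Prod.fst_sub, Prod.snd_sub, map_add, map_mul, map_sub, map_pow]
      ring
    rw [e1]
    intro h2
    have h3 := RatFunc.algebraMap_injective (RatFunc K₀) (h2.trans (map_zero _).symm)
    have h4 := congrArg (fun q => q.coeff 2) h3
    simp only [coeff_add, coeff_zero, coeff_C, mul_comm X, coeff_mul_X,
      mul_comm (X ^ 2)] at h4
    simp [coeff_C, coeff_mul_X_pow'] at h4
    rcases h4 with (h5 | h5) | h5
    · exact hab (ht (sub_eq_zero.1 h5).symm)
    · exact hac (ht (sub_eq_zero.1 h5).symm)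
    · exact hbc (ht (sub_eq_zero.1 h5).symm)

end Pool.Agent.Spl2
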