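import Pool.Agent.Spl2.SphDefs

/-!
# Triangulated spheres: basic facts

Paper proof.  `le2`: a pair `e` with `tdeg T e ≠ 0` is an edge (`two`).  `bdry_self`: all `tdeg T e` are
`0` or `2`.  `bdry_compl`: `tdeg T e = tdeg D e + tdeg (T \ D) e` is even.  `uniq`:
`bdry (D₁ ∆ D₂) = ∅` (`bdry_symm`), so by `H2` `D₁ ∆ D₂` is `∅` or `T`.
`inside`: as `Spl1.inside`: `star D w ⊆ star T w` is `LinkEven` at `w`.
`edges_erase`: an edge is in two triangles, so it is still in one after the removal of `F`.
`good`: (`Spl1.Good`, a disc) `int2`, `conn`: nothing changes at `v ∉ F`; `acyc`: for `v ∈ F`,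
`S ⊆ star (T.erase F) v` is not `star T v`; if `star T v = ∅` it is trivial; `H1`: if `F ∈ D` replace `D`
by `T \ D` (`bdry_compl`); `H2`: `D ≠ T` since `F ∉ D`.
`exists_avoid`: otherwise all triangles contain `v`; take `t = {v,a,b} ∈ T`; the edge `{a,b}` is in two
triangles, both contain `v`, so they are equal.
`link_two`, `star_card`, `link_enum`, `three_le`: choose `F ∈ T` with `v ∉ F` and use the results of
`Spl1` (`Spl1.link_two`, `Spl1.star_card`, `Spl1.link_enum`, `Spl1.nb_card_ge`) for the disc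
`T.erase F` (`star (T.erase F) v = star T v`, `edges_erase`); for `star_card` if `star T v = ∅` both sides
are `0`.  `sum_star`, `sum_tdeg`: double counting.  `even_card`: `3 |T| = 2 |edges T|`.
-/

set_option linter.all false
set_option autoImplicit false

namespace Pool.Agent.Spl2

open Finset Pool.Agent.Spl1

variable {V : Type*} [Fintype V] [DecidableEq V]

theorem star_mono {D T : Finset (Finset V)} (h : D ⊆ T) (v : V) : star D v ⊆ star T v := by
  intro t ht
  rw [mem_star] at ht ⊢
  exact ⟨h ht.1, ht.2⟩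

theorem edges_mono {D T : Finset (Finset V)} (h : D ⊆ T) : edges D ⊆ edges T := by
  intro e he
  rw [mem_edges] at he ⊢
  obtain ⟨h1, t, ht, h2⟩ := he
  exact ⟨h1, t, h ht, h2⟩

theorem star_ne_of_edge {T : Finset (Finset V)} {x y : V} (h : ({x, y} : Finset V) ∈ edges T) :
    (star T x).Nonempty := by
  rw [mem_edges] at h
  obtain ⟨-, t, ht, h2⟩ := h
  exact ⟨t, mem_star.2 ⟨ht, h2 (by simp)⟩⟩

theorem star_ne_of_mem {T : Finset (Finset V)} {t : Finset V} (ht : t ∈ T) {x : V} (hx : x ∈ t) :
    (star T x).Nonempty :=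
  ⟨t, mem_star.2 ⟨ht, hx⟩⟩

theorem Sph.le2 {T : Finset (Finset V)} (h : Sph T) {e : Finset V} (he : e.card = 2) :
    tdeg T e ≤ 2 := by
  rcases Nat.eq_zero_or_pos (tdeg T e) with h0 | h0
  · omega
  · have h1 : e ∈ edges T := by
      unfold edges
      simp only [mem_filter, mem_univ, true_and]
      exact ⟨he, h0⟩
    exact (h.two e h1).le

theorem Sph.bdry_self {T : Finset (Finset V)} (h : Sph T) : bdry T = ∅ := by
  rw [Finset.eq_empty_iff_forall_notMem]
  intro e he
  rw [mem_bdry] at he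
  have h1 : e ∈ edges T := by
    unfold edges
    simp only [mem_filter, mem_univ, true_and]
    exact ⟨he.1, he.2.pos⟩
  have h2 := h.two e h1
  rw [h2] at he
  exact absurd he.2 (by decide)

theorem Sph.bdry_compl {T : Finset (Finset V)} (h : Sph T) {D : Finset (Finset V)} (hD : D ⊆ T) :
    bdry (T \ D) = bdry D := by
  have h1 : symmDiff T D = T \ D := by
    ext t
    rw [Finset.mem_symmDiff, Finset.mem_sdiff]
    constructor
    · rintro (h2 | h2)
      · exact h2
      · exact absurd (hD h2.1) h2.2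
    · intro h2
      exact Or.inl h2
  rw [← h1, bdry_symm, h.bdry_self]
  exact bot_symmDiff _

theorem Sph.uniq {T : Finset (Finset V)} (h : Sph T) {D₁ D₂ : Finset (Finset V)} (h₁ : D₁ ⊆ T)
    (h₂ : D₂ ⊆ T) (hb : bdry D₁ = bdry D₂) : D₁ = D₂ ∨ D₁ = T \ D₂ := by
  have h3 : symmDiff D₁ D₂ ⊆ T := by
    intro t ht
    rw [Finset.mem_symmDiff] at ht
    rcases ht with ht | ht
    · exact h₁ ht.1
    · exact h₂ ht.1
  have h4 : bdry (symmDiff D₁ D₂) = ∅ := by
    rw [bdry_symm, hb]
    exact symmDiff_self _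
  rcases h.H2 _ h3 h4 with h5 | h5
  · left
    exact symmDiff_eq_bot.1 h5
  · right
    ext t
    rw [Finset.mem_sdiff]
    have h6 : t ∈ symmDiff D₁ D₂ ↔ t ∈ T := by rw [h5]
    rw [Finset.mem_symmDiff] at h6
    have h7 := @h₁ t
    have h8 := @h₂ t
    tauto

theorem Sph.inside {T : Finset (Finset V)} (h : Sph T) {D : Finset (Finset V)} (hD : D ⊆ T) {w : V}
    (hw : ∀ e ∈ bdry D, w ∉ e) (hne : (star D w).Nonempty) : star T w ⊆ D := by
  have hS : star D w ⊆ star T w := star_mono hD w
  have hL : LinkEven (star D w) w := by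
    intro u hu
    have h1 : tdeg (star D w) {w, u} = tdeg D {w, u} := by
      unfold tdeg
      congr 1
      ext t
      simp only [Finset.mem_filter, mem_star]
      constructor
      · rintro ⟨⟨a1, -⟩, a2⟩
        exact ⟨a1, a2⟩
      · rintro ⟨a1, a2⟩
        exact ⟨⟨a1, a2 (by simp)⟩, a2⟩
    rw [h1, ← Nat.not_odd_iff_even]
    intro h2
    exact hw {w, u} (mem_bdry.2 ⟨Finset.card_pair hu.symm, h2⟩) (by simp)
  have hne' : star D w ≠ ∅ := Finset.nonempty_iff_ne_empty.1 hne
  rcases h.conn w _ hS hL with h1 | h1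
  · exact absurd h1 hne'
  · rw [← h1]
    intro t ht
    rw [mem_star] at ht
    exact ht.1

theorem Sph.edges_erase {T : Finset (Finset V)} (h : Sph T) {F : Finset V} (hF : F ∈ T) :
    edges (T.erase F) = edges T := by
  apply Finset.Subset.antisymm (edges_mono (Finset.erase_subset _ _))
  intro e he
  have h1 := h.two e he
  unfold tdeg at h1
  obtain ⟨t, t', htt, hT⟩ := Finset.card_eq_two.1 h1
  have ht : t ∈ T.filter (fun t => e ⊆ t) := by rw [hT]; simp
  have ht' : t' ∈ T.filter (fun t => e ⊆ t) := by rw [hT]; simp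
  rw [Finset.mem_filter] at ht ht'
  rw [mem_edges] at he ⊢
  refine ⟨he.1, ?_⟩
  by_cases h2 : t = F
  · refine ⟨t', Finset.mem_erase.2 ⟨?_, ht'.1⟩, ht'.2⟩
    rintro rfl
    exact htt h2
  · exact ⟨t, Finset.mem_erase.2 ⟨h2, ht.1⟩, ht.2⟩

private theorem sph_star_erase {T : Finset (Finset V)} {F : Finset V} {v : V} (hv : v ∉ F) :
    star (T.erase F) v = star T v := by
  ext t
  rw [mem_star, mem_star, Finset.mem_erase]
  constructor
  · rintro ⟨⟨-, h1⟩, h2⟩
    exact ⟨h1, h2⟩
  · rintro ⟨h1, h2⟩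
    refine ⟨⟨?_, h1⟩, h2⟩
    rintro rfl
    exact hv h2

theorem Sph.good {T : Finset (Finset V)} (h : Sph T) {F : Finset V} (hF : F ∈ T) :
    Good (T.erase F) (univ.filter (fun v => (star T v).Nonempty ∧ v ∉ F)) := by
  have hsub : T.erase F ⊆ T := Finset.erase_subset _ _
  constructor
  · intro t ht
    exact h.card3 t (hsub ht)
  · intro e he
    refine le_trans ?_ (h.le2 he)
    exact Finset.card_le_card (Finset.filter_subset_filter _ hsub)
  · intro v hv e he hve
    simp only [mem_filter, mem_univ, true_and] at hv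
    have h1 : tdeg (T.erase F) e = tdeg T e := by
      unfold tdeg
      congr 1
      ext t
      rw [Finset.mem_filter, Finset.mem_filter, Finset.mem_erase]
      constructor
      · rintro ⟨⟨-, h1⟩, h2⟩
        exact ⟨h1, h2⟩
      · rintro ⟨h1, h2⟩
        refine ⟨⟨?_, h1⟩, h2⟩
        rintro rfl
        exact hv.2 (h2 hve)
    rw [h1]
    exact h.two e (edges_mono hsub he)
  · intro v hv
    simp only [mem_filter, mem_univ, true_and] at hv
    rw [sph_star_erase hv.2]
    exact hv.1
  · intro v hv S hS hL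
    simp only [mem_filter, mem_univ, true_and] at hv
    rw [sph_star_erase hv.2] at hS ⊢
    exact h.conn v S hS hL
  · intro v hv S hS hL
    simp only [mem_filter, mem_univ, true_and, not_and, not_not] at hv
    have hS' : S ⊆ star T v := hS.trans (star_mono hsub v)
    by_cases h1 : (star T v).Nonempty
    · have h2 := hv h1
      rcases h.conn v S hS' hL with h3 | h3
      · exact h3
      · exfalso
        have h4 : F ∈ S := by
          rw [h3, mem_star]
          exact ⟨hF, h2⟩
        have h5 := hS h4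
        rw [mem_star] at h5
        exact absurd h5.1 (Finset.notMem_erase _ _)
    · rw [Finset.not_nonempty_iff_eq_empty] at h1
      rw [h1] at hS'
      exact Finset.subset_empty.1 hS'
  · intro C hC hcyc
    rw [h.edges_erase hF] at hC
    obtain ⟨D, hD, hb⟩ := h.H1 C hC hcyc
    by_cases h1 : F ∈ D
    · refine ⟨T \ D, ?_, ?_⟩
      · intro t ht
        rw [Finset.mem_sdiff] at ht
        refine Finset.mem_erase.2 ⟨?_, ht.1⟩
        rintro rfl
        exact ht.2 h1
      · rw [h.bdry_compl hD, hb]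
    · refine ⟨D, ?_, hb⟩
      intro t ht
      refine Finset.mem_erase.2 ⟨?_, hD ht⟩
      rintro rfl
      exact h1 ht
  · intro D hD hb
    rcases h.H2 D (hD.trans hsub) hb with h1 | h1
    · exact h1
    · exfalso
      rw [h1] at hD
      exact absurd (hD hF) (Finset.notMem_erase _ _)

theorem Sph.exists_avoid {T : Finset (Finset V)} (h : Sph T) (hne : T.Nonempty) (v : V) :
    ∃ F ∈ T, v ∉ F := by
  by_contra hcon
  push Not at hcon
  obtain ⟨t, ht⟩ := hne
  have h3 := h.card3 t ht
  obtain ⟨a, hat, hav⟩ : ∃ a ∈ t, a ≠ v := by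
    by_contra hc
    push Not at hc
    have : t ⊆ {v} := by
      intro x hx
      rw [mem_singleton]
      exact hc x hx
    have := Finset.card_le_card this
    rw [card_singleton] at this
    omega
  obtain ⟨b, hbv, hba, hteq⟩ := exists_third h3 hav.symm (hcon t ht) hat
  have hbt : b ∈ t := by rw [hteq]; simp
  have he : ({a, b} : Finset V) ∈ edges T := edge_of_tri ht hba.symm hat hbt
  have h1 := h.two _ he
  unfold tdeg at h1
  have key : ∀ s ∈ T.filter (fun t => ({a, b} : Finset V) ⊆ t), s = {v, a, b} := by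
    intro s hs
    rw [Finset.mem_filter] at hs
    symm
    apply Finset.eq_of_subset_of_card_le
    · intro x hx
      simp only [mem_insert, mem_singleton] at hx
      rcases hx with rfl | rfl | rfl
      · exact hcon s hs.1
      · exact hs.2 (by simp)
      · exact hs.2 (by simp)
    · rw [h.card3 s hs.1, ← hteq, h3]
  have h4 : (T.filter (fun t => ({a, b} : Finset V) ⊆ t)).card ≤ 1 := by
    rw [Finset.card_le_one]
    intro s hs s' hs'
    rw [key s hs, key s' hs']
  omega

private theorem sph_memI {T : Finset (Finset V)} {F : Finset V} {v : V} (hv : v ∉ F)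
    (hs : (star T v).Nonempty) :
    v ∈ univ.filter (fun v => (star T v).Nonempty ∧ v ∉ F) := by
  simp only [mem_filter, mem_univ, true_and]
  exact ⟨hs, hv⟩

private theorem sph_ne {T : Finset (Finset V)} {v : V} (hs : (star T v).Nonempty) :
    T.Nonempty := by
  obtain ⟨t, ht⟩ := hs
  exact ⟨t, (mem_star.1 ht).1⟩

theorem Sph.link_two {T : Finset (Finset V)} (h : Sph T) {v u : V}
    (he : ({v, u} : Finset V) ∈ edges T) :
    ∃ w w' : V, w ≠ w' ∧ w ≠ v ∧ w ≠ u ∧ w' ≠ v ∧ w' ≠ u ∧ v ≠ u ∧
      ({v, u, w} : Finset V) ∈ T ∧ ({v, u, w'} : Finset V) ∈ T ∧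
      ∀ t ∈ T, v ∈ t → u ∈ t → t = {v, u, w} ∨ t = {v, u, w'} := by
  have hs := star_ne_of_edge he
  obtain ⟨F, hF, hvF⟩ := h.exists_avoid (sph_ne hs) v
  have hu : u ∈ nb (edges (T.erase F)) v := by
    rw [mem_nb, h.edges_erase hF]
    exact ⟨(edge_ne he).symm, he⟩
  obtain ⟨w, w', h1, h2, h3, h4, h5, h6, h7, h8, h9⟩ :=
    Spl1.link_two (h.good hF) (sph_memI hvF hs) hu
  refine ⟨w, w', h1, h2, h3, h4, h5, h6, Finset.mem_of_mem_erase h7,
    Finset.mem_of_mem_erase h8, ?_⟩
  intro t ht hvt hut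
  refine h9 t (Finset.mem_erase.2 ⟨?_, ht⟩) hvt hut
  rintro rfl
  exact hvF hvt

theorem Sph.star_card {T : Finset (Finset V)} (h : Sph T) (v : V) :
    (nb (edges T) v).card = (star T v).card := by
  by_cases hs : (star T v).Nonempty
  · obtain ⟨F, hF, hvF⟩ := h.exists_avoid (sph_ne hs) v
    have h1 := Spl1.star_card (h.good hF) (sph_memI hvF hs)
    rwa [h.edges_erase hF, sph_star_erase hvF] at h1
  · have h1 : nb (edges T) v = ∅ := by
      rw [Finset.eq_empty_iff_forall_notMem]
      intro u hu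
      rw [mem_nb] at hu
      exact hs (star_ne_of_edge hu.2)
    rw [Finset.not_nonempty_iff_eq_empty] at hs
    rw [h1, hs]
    rfl

theorem Sph.link_enum {T : Finset (Finset V)} (h : Sph T) {v : V} (hv : (star T v).Nonempty) :
    ∃ w : ℕ → V, Enum T v (star T v).card w := by
  obtain ⟨F, hF, hvF⟩ := h.exists_avoid (sph_ne hv) v
  have hn : (nb (edges (T.erase F)) v).card = (star T v).card := by
    rw [h.edges_erase hF, h.star_card]
  obtain ⟨w, hw⟩ := Spl1.link_enum (h.good hF) (sph_memI hvF hv) hn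
  refine ⟨w, ⟨hw.per, hw.inj, fun i => Finset.mem_of_mem_erase (hw.tri i), ?_⟩⟩
  have := hw.cov
  rwa [h.edges_erase hF] at this

theorem Sph.three_le {T : Finset (Finset V)} (h : Sph T) {v : V} (hv : (star T v).Nonempty) :
    3 ≤ (star T v).card := by
  obtain ⟨F, hF, hvF⟩ := h.exists_avoid (sph_ne hv) v
  have h1 := Spl1.nb_card_ge (h.good hF) (sph_memI hvF hv)
  rwa [h.edges_erase hF, h.star_card] at h1

theorem sum_star {D : Finset (Finset V)} (h3 : ∀ t ∈ D, t.card = 3) :
    ∑ v, (star D v).card = 3 * D.card := by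
  have h1 : ∀ v, (star D v).card = ∑ t ∈ D, if v ∈ t then 1 else 0 := by
    intro v
    unfold Spl1.star
    rw [Finset.card_filter]
  simp only [h1]
  rw [Finset.sum_comm]
  have h2 : ∀ t ∈ D, ∑ v, (if v ∈ t then 1 else 0) = 3 := by
    intro t ht
    rw [← h3 t ht]
    simp
  rw [Finset.sum_congr rfl h2, Finset.sum_const, smul_eq_mul, mul_comm]

theorem sum_tdeg {D : Finset (Finset V)} (h3 : ∀ t ∈ D, t.card = 3) :
    ∑ e ∈ edges D, tdeg D e = 3 * D.card := by
  have h1 : ∀ e ∈ edges D, tdeg D e = ∑ t ∈ D, if e ⊆ t then 1 else 0 := by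
    intro e _
    unfold tdeg
    rw [Finset.card_filter]
  rw [Finset.sum_congr rfl h1, Finset.sum_comm]
  have h2 : ∀ t ∈ D, ∑ e ∈ edges D, (if e ⊆ t then 1 else 0) = 3 := by
    intro t ht
    rw [← Finset.card_filter]
    have h4 : (edges D).filter (fun e => e ⊆ t) = t.powersetCard 2 := by
      ext e
      rw [Finset.mem_filter, mem_edges, Finset.mem_powersetCard]
      constructor
      · rintro ⟨⟨h5, -⟩, h6⟩
        exact ⟨h6, h5⟩
      · rintro ⟨h5, h6⟩
        exact ⟨⟨h6, t, ht, h5⟩, h5⟩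
    rw [h4, Finset.card_powersetCard, h3 t ht]
    rfl
  rw [Finset.sum_congr rfl h2, Finset.sum_const, smul_eq_mul, mul_comm]

theorem Sph.even_card {T : Finset (Finset V)} (h : Sph T) : Even T.card := by
  have h1 := sum_tdeg h.card3
  rw [Finset.sum_congr rfl (fun e he => h.two e he), Finset.sum_const, smul_eq_mul] at h1
  rw [Nat.even_iff]
  omega

end Pool.Agent.Spl2
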