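import Pool.Agent.Spl2.SphCtrH

/-!
# Contraction of an edge together with its two apexes of degree 4

The edge `o p` has the apexes `v, w`, both of degree `4`, not adjacent;
`T' = ctr (ctr (ctr T p o) v o) w o`.

Paper proof.  By `deg4` (and `{o,p,v} ∈ T`) the star of `v` is
`{v,o,p}, {v,p,c}, {v,c,d}, {v,d,o}`, that of `w` is `{w,o,p}, {w,p,e}, {w,e,f}, {w,f,o}`; the
neighbours of `v` are `o, p, c, d`, those of `w` are `o, p, e, f`; `w ≠ c, d` and `v ≠ e, f`.
`T₁ = ctr T p o` is a sphere (`Fac3.lc`), `|T₁| = |T| - 2`.  The neighbours of `v` in `T₁` are `o, c, d`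
(`edges_ctr`), and `{v,o,c}` (image of `{v,p,c}`), `{v,d,o}` are in `T₁`; so `LC T₁ v o`, and
`T₂ = ctr T₁ v o` is a sphere.  The neighbours of `w` in `T₂` are `o, e, f`, and
`{w,o,e}`, `{w,f,o}` are in `T₂`; so `LC T₂ w o` and `T' = ctr T₂ w o` is a sphere, `|T'| + 6 = |T|`.
`EdgeRel`: compose three times.
`Fac3 T'`: a 3-cycle of `T'` without `o` is a triangle of `T` without `p, v, w` and stays.  Let
`{o,y,z}` be a 3-cycle of `T'`: `y, z ∉ {o,p,v,w}`, `{y,z} ∈ edges T`, `y` is adjacent in `T` to one of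
`o, p, v, w`, hence to `o` or `p` (`c` is adjacent to `p`, `d` to `o`, `e` to `p`, `f` to `o`); the same for
`z`.  If both are adjacent to `o`: `{o,y,z} ∈ T` stays.  Both to `p`: `{p,y,z} ∈ T`, its image is
`{o,y,z}`.  Otherwise (up to exchange) `y` is adjacent to `o` and not to `p`, `z` to `p` and not to `o`:
`IsQ T o p z y`, and by hypothesis `{v,y,z} ∈ T` or `{w,y,z} ∈ T`; the image is `{o,y,z}`.
-/

set_option autoImplicit false

namespace Pool.Agent.Spl2

open Finset Pool.Agent.Spl1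

variable {V : Type*} [Fintype V] [DecidableEq V]


/-- three different vertices -/
private theorem d3_card_three {V : Type*} [DecidableEq V] {a b c : V}
    (h : ({a, b, c} : Finset V).card = 3) : a ≠ b ∧ b ≠ c ∧ a ≠ c := by
  refine ⟨?_, ?_, ?_⟩
  · rintro rfl
    have h1 : ({a, a, c} : Finset V) = {a, c} := by simp
    rw [h1] at h
    have := card_le_two (a := a) (b := c)
    omega
  · rintro rfl
    have h1 : ({a, b, b} : Finset V) = {a, b} := by simp
    rw [h1] at h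
    have := card_le_two (a := a) (b := b)
    omega
  · rintro rfl
    have h1 : ({a, b, a} : Finset V) = {a, b} := by
      ext z
      simp only [mem_insert, mem_singleton]
      tauto
    rw [h1] at h
    have := card_le_two (a := a) (b := b)
    omega

/-- a pair of vertices of a triangle at `v` -/
private theorem d3_pair {V : Type*} [DecidableEq V] {v o p a b : V} (hop : o ≠ p) (hov : o ≠ v)
    (hpv : p ≠ v) (h : ({o, p, v} : Finset V) = {v, a, b}) :
    (o = a ∧ p = b) ∨ (o = b ∧ p = a) := by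
  have ho : o ∈ ({v, a, b} : Finset V) := by rw [← h]; simp
  have hp : p ∈ ({v, a, b} : Finset V) := by rw [← h]; simp
  simp only [mem_insert, mem_singleton] at ho hp
  rcases ho with ho | ho | ho
  · exact absurd ho hov
  · rcases hp with hp | hp | hp
    · exact absurd hp hpv
    · exact absurd (ho.trans hp.symm) hop
    · exact Or.inl ⟨ho, hp⟩
  · rcases hp with hp | hp | hp
    · exact absurd hp hpv
    · exact Or.inr ⟨ho, hp⟩
    · exact absurd (ho.trans hp.symm) hop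

/-- the star of an apex of degree `4` of the edge `o p` -/
private theorem d3_star {T : Finset (Finset V)} (h : Sph T) {o p v : V}
    (h1 : ({o, p, v} : Finset V) ∈ T) (h4 : (star T v).card = 4) :
    ∃ c d : V, p ≠ c ∧ c ≠ d ∧ d ≠ o ∧ o ≠ c ∧ p ≠ d ∧ ({v, p, c} : Finset V) ∈ T ∧
      ({v, d, o} : Finset V) ∈ T ∧
      ∀ u, ({v, u} : Finset V) ∈ edges T → u = o ∨ u = p ∨ u = c ∨ u = d := by
  obtain ⟨hop, hpv, hov⟩ := d3_card_three (h.card3 _ h1)
  obtain ⟨a, b, c, d, ab, bc, cd, da, ac, bd, hst, _, hnb⟩ := h.deg4 h4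
  have hm : ∀ t, t ∈ star T v → t ∈ T := fun t ht => (mem_star.1 ht).1
  have t1 : ({v, a, b} : Finset V) ∈ T := hm _ (by rw [hst]; simp)
  have t2 : ({v, b, c} : Finset V) ∈ T := hm _ (by rw [hst]; simp)
  have t3 : ({v, c, d} : Finset V) ∈ T := hm _ (by rw [hst]; simp)
  have t4 : ({v, d, a} : Finset V) ∈ T := hm _ (by rw [hst]; simp)
  have t1' : ({v, b, a} : Finset V) ∈ T := by rw [pair_comm b a]; exact t1
  have t2' : ({v, c, b} : Finset V) ∈ T := by rw [pair_comm c b]; exact t2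
  have t3' : ({v, d, c} : Finset V) ∈ T := by rw [pair_comm d c]; exact t3
  have t4' : ({v, a, d} : Finset V) ∈ T := by rw [pair_comm a d]; exact t4
  have hu : ∀ u, ({v, u} : Finset V) ∈ edges T → u = a ∨ u = b ∨ u = c ∨ u = d := by
    intro u hu
    rw [← hnb, mem_nb]
    exact ⟨(edge_ne hu).symm, hu⟩
  have hin : ({o, p, v} : Finset V) ∈ star T v := mem_star.2 ⟨h1, by simp⟩
  rw [hst] at hin
  simp only [mem_insert, mem_singleton] at hin
  rcases hin with h5 | h5 | h5 | h5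
  · rcases d3_pair hop hov hpv h5 with ⟨rfl, rfl⟩ | ⟨rfl, rfl⟩
    · exact ⟨c, d, bc, cd, da, ac, bd, t2, t4, hu⟩
    · refine ⟨d, c, da.symm, cd.symm, bc.symm, bd, ac, t4', t2', ?_⟩
      intro u hh
      rcases hu u hh with h6 | h6 | h6 | h6 <;> simp [h6]
  · rcases d3_pair hop hov hpv h5 with ⟨rfl, rfl⟩ | ⟨rfl, rfl⟩
    · refine ⟨d, a, cd, da, ab, bd, ac.symm, t3, t1, ?_⟩
      intro u hh
      rcases hu u hh with h6 | h6 | h6 | h6 <;> simp [h6]
    · refine ⟨a, d, ab.symm, da.symm, cd.symm, ac.symm, bd, t1', t3', ?_⟩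
      intro u hh
      rcases hu u hh with h6 | h6 | h6 | h6 <;> simp [h6]
  · rcases d3_pair hop hov hpv h5 with ⟨rfl, rfl⟩ | ⟨rfl, rfl⟩
    · refine ⟨a, b, da, ab, bc, ac.symm, bd.symm, t4, t2, ?_⟩
      intro u hh
      rcases hu u hh with h6 | h6 | h6 | h6 <;> simp [h6]
    · refine ⟨b, a, bc.symm, ab.symm, da.symm, bd.symm, ac.symm, t2', t4', ?_⟩
      intro u hh
      rcases hu u hh with h6 | h6 | h6 | h6 <;> simp [h6]
  · rcases d3_pair hop hov hpv h5 with ⟨rfl, rfl⟩ | ⟨rfl, rfl⟩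
    · refine ⟨b, c, ab, bc, cd, bd.symm, ac, t1, t3, ?_⟩
      intro u hh
      rcases hu u hh with h6 | h6 | h6 | h6 <;> simp [h6]
    · refine ⟨c, b, cd.symm, bc.symm, ab.symm, ac, bd.symm, t3', t1', ?_⟩
      intro u hh
      rcases hu u hh with h6 | h6 | h6 | h6 <;> simp [h6]

/-- composition of two contractions to the same vertex -/
private theorem d3_edge_comp {T T₁ T₂ : Finset (Finset V)} {S : Finset V} {v o : V}
    (hvS : v ∉ S) (hoS : o ∉ S) (hvo : v ≠ o) (h1 : EdgeRel T T₁ S o)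
    (h2 : EdgeRel T₁ T₂ {v} o) : EdgeRel T T₂ (insert v S) o := by
  have key : ∀ y, y ≠ v → y ≠ o →
      (({v, y} : Finset V) ∈ edges T₁ ↔ y ∉ S ∧ ({v, y} : Finset V) ∈ edges T) := by
    intro y hyv hyo
    rw [h1 v y (Ne.symm hyv)]
    constructor
    · rintro ⟨_, hyS, hE | ⟨hh, _⟩ | ⟨hh, _⟩⟩
      · exact ⟨hyS, hE⟩
      · exact absurd hh hvo
      · exact absurd hh hyo
    · rintro ⟨hyS, hE⟩
      exact ⟨hvS, hyS, Or.inl hE⟩
  intro x y hxy
  rw [h2 x y hxy, h1 x y hxy]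
  simp only [mem_singleton, exists_eq_left, mem_insert, not_or, exists_eq_or_imp]
  constructor
  · rintro ⟨hxv, hyv, ⟨hxS, hyS, hE⟩ | ⟨rfl, hE⟩ | ⟨rfl, hE⟩⟩
    · refine ⟨⟨hxv, hxS⟩, ⟨hyv, hyS⟩, ?_⟩
      rcases hE with hE | ⟨hxo, hE⟩ | ⟨hyo, hE⟩
      · exact Or.inl hE
      · exact Or.inr (Or.inl ⟨hxo, Or.inr hE⟩)
      · exact Or.inr (Or.inr ⟨hyo, Or.inr hE⟩)
    · rw [key y hyv hxy.symm] at hE
      exact ⟨⟨hxv, hoS⟩, ⟨hyv, hE.1⟩, Or.inr (Or.inl ⟨rfl, Or.inl hE.2⟩)⟩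
    · rw [key x hxv hxy] at hE
      exact ⟨⟨hxv, hE.1⟩, ⟨hyv, hoS⟩, Or.inr (Or.inr ⟨rfl, Or.inl hE.2⟩)⟩
  · rintro ⟨⟨hxv, hxS⟩, ⟨hyv, hyS⟩, hE⟩
    refine ⟨hxv, hyv, ?_⟩
    rcases hE with hE | ⟨hxo, hE | hE⟩ | ⟨hyo, hE | hE⟩
    · exact Or.inl ⟨hxS, hyS, Or.inl hE⟩
    · refine Or.inr (Or.inl ⟨hxo, ?_⟩)
      rw [key y hyv (fun hh => hxy (hxo.trans hh.symm))]
      exact ⟨hyS, hE⟩
    · exact Or.inl ⟨hxS, hyS, Or.inr (Or.inl ⟨hxo, hE⟩)⟩
    · refine Or.inr (Or.inr ⟨hyo, ?_⟩)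
      rw [key x hxv (fun hh => hxy (hh.trans hyo.symm))]
      exact ⟨hxS, hE⟩
    · exact Or.inl ⟨hxS, hyS, Or.inr (Or.inr ⟨hyo, hE⟩)⟩

private theorem d3_rot {V : Type*} [DecidableEq V] (x y z : V) :
    ({x, y, z} : Finset V) = {y, z, x} := by
  ext u
  simp only [mem_insert, mem_singleton]
  tauto

private theorem d3_sw {V : Type*} [DecidableEq V] (x y z : V) :
    ({x, y, z} : Finset V) = {y, x, z} := by
  ext u
  simp only [mem_insert, mem_singleton]
  tauto

private theorem d3_notMem {V : Type*} [DecidableEq V] {u x y z : V} (h1 : u ≠ x) (h2 : u ≠ y)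
    (h3 : u ≠ z) : u ∉ ({x, y, z} : Finset V) := by
  simp [h1, h2, h3]


theorem opp_ctr {T : Finset (Finset V)} (h : Sph T) (hF : Fac3 T) (h12 : 12 ≤ T.card)
    {o p v w : V} (hvw : v ≠ w) (h1 : ({o, p, v} : Finset V) ∈ T) (h2 : ({o, p, w} : Finset V) ∈ T)
    (hv4 : (star T v).card = 4) (hw4 : (star T w).card = 4)
    (hvw' : ({v, w} : Finset V) ∉ edges T)
    (hQ : ∀ y z : V, IsQ T o p z y → ({v, y, z} : Finset V) ∈ T ∨ ({w, y, z} : Finset V) ∈ T) :
    ∃ T' : Finset (Finset V), Sph T' ∧ Fac3 T' ∧ T'.card + 6 = T.card ∧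
      EdgeRel T T' {p, v, w} o ∧ ∀ F ∈ T, p ∉ F → v ∉ F → w ∉ F → F ∈ T' := by
  obtain ⟨hop, hpv, hov⟩ := d3_card_three (h.card3 _ h1)
  obtain ⟨_, hpw, how⟩ := d3_card_three (h.card3 _ h2)
  obtain ⟨c, d, hpc, hcd, hdo, hoc, hpd, tvc, tvd, nbv⟩ := d3_star h h1 hv4
  obtain ⟨e, f, hpe, hef, hfo, hoe, hpf, twe, twf, nbw⟩ := d3_star h h2 hw4
  obtain ⟨_, _, hvc⟩ := d3_card_three (h.card3 _ tvc)
  obtain ⟨hvd, _, _⟩ := d3_card_three (h.card3 _ tvd)
  obtain ⟨_, _, hwe⟩ := d3_card_three (h.card3 _ twe)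
  obtain ⟨hwf, _, _⟩ := d3_card_three (h.card3 _ twf)
  -- the apexes are not adjacent
  have hve : v ≠ e := by
    rintro rfl
    exact hvw' (edge_of_tri twe hvw (by simp) (by simp))
  have hvf : v ≠ f := by
    rintro rfl
    exact hvw' (edge_of_tri twf hvw (by simp) (by simp))
  -- the first contraction
  have ep : ({p, o} : Finset V) ∈ edges T := edge_of_tri h1 hop.symm (by simp) (by simp)
  have L1 : LC T p o := hF.lc ep
  have S1 : Sph (ctr T p o) := sph_ctr h ep L1 (by omega)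
  have C1 := ctr_card h ep L1 (by omega)
  have R1 : EdgeRel T (ctr T p o) {p} o := edges_ctr h hop.symm
  set T₁ := ctr T p o with hT₁
  have u1c : ({o, v, c} : Finset V) ∈ T₁ := by
    refine mem_ctr_of_tri ?_ hop.symm hpv hpc hov hoc
    rw [d3_sw p v c]
    exact tvc
  have u1d : ({v, d, o} : Finset V) ∈ T₁ := mem_ctr_of_mem tvd (d3_notMem hpv hpd hop.symm)
  have u1e : ({o, w, e} : Finset V) ∈ T₁ := by
    refine mem_ctr_of_tri ?_ hop.symm hpw hpe how hoe
    rw [d3_sw p w e]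
    exact twe
  have u1f : ({w, f, o} : Finset V) ∈ T₁ := mem_ctr_of_mem twf (d3_notMem hpw hpf hop.symm)
  have N1 : ∀ z x : V, z ≠ x → z ≠ o → x ≠ o → ({z, x} : Finset V) ∈ edges T₁ →
      x ≠ p ∧ ({z, x} : Finset V) ∈ edges T := by
    intro z x hzx hzo hxo hE
    rw [R1 z x hzx] at hE
    obtain ⟨_, hx, hE⟩ := hE
    refine ⟨by simpa using hx, ?_⟩
    rcases hE with hE | ⟨hh, _⟩ | ⟨hh, _⟩
    · exact hE
    · exact absurd hh hzo
    · exact absurd hh hxo
  -- the second contraction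
  have ev : ({v, o} : Finset V) ∈ edges T₁ := edge_of_tri u1c hov.symm (by simp) (by simp)
  have L2 : LC T₁ v o := by
    intro x hxv hxo hE _
    obtain ⟨hxp, hE⟩ := N1 v x hxv.symm hov.symm hxo hE
    rcases nbv x hE with rfl | rfl | rfl | rfl
    · exact absurd rfl hxo
    · exact absurd rfl hxp
    · rw [d3_sw v o x]
      exact u1c
    · rw [pair_comm o x]
      exact u1d
  have S2 : Sph (ctr T₁ v o) := sph_ctr S1 ev L2 (by omega)
  have C2 := ctr_card S1 ev L2 (by omega)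
  have R2 : EdgeRel T₁ (ctr T₁ v o) {v} o := edges_ctr S1 hov.symm
  set T₂ := ctr T₁ v o with hT₂
  have u2e : ({o, w, e} : Finset V) ∈ T₂ := mem_ctr_of_mem u1e (d3_notMem hov.symm hvw hve)
  have u2f : ({w, f, o} : Finset V) ∈ T₂ := mem_ctr_of_mem u1f (d3_notMem hvw hvf hov.symm)
  -- the third contraction
  have ew : ({w, o} : Finset V) ∈ edges T₂ := edge_of_tri u2e how.symm (by simp) (by simp)
  have L3 : LC T₂ w o := by
    intro x hxw hxo hE _
    rw [R2 w x hxw.symm] at hE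
    have hE1 : ({w, x} : Finset V) ∈ edges T₁ := by
      rcases hE.2.2 with hE | ⟨hh, _⟩ | ⟨hh, _⟩
      · exact hE
      · exact absurd hh.symm how
      · exact absurd hh hxo
    obtain ⟨hxp, hE2⟩ := N1 w x hxw.symm how.symm hxo hE1
    rcases nbw x hE2 with rfl | rfl | rfl | rfl
    · exact absurd rfl hxo
    · exact absurd rfl hxp
    · rw [d3_sw w o x]
      exact u2e
    · rw [pair_comm o x]
      exact u2f
  have S3 : Sph (ctr T₂ w o) := sph_ctr S2 ew L3 (by omega)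
  have C3 := ctr_card S2 ew L3 (by omega)
  have R3 : EdgeRel T₂ (ctr T₂ w o) {w} o := edges_ctr S2 how.symm
  set T₃ := ctr T₂ w o with hT₃
  have R : EdgeRel T T₃ {p, v, w} o := by
    have a1 := d3_edge_comp (S := {p}) (v := v) (o := o) (by simpa using hpv.symm)
      (by simpa using hop) hov.symm R1 R2
    have a2 := d3_edge_comp (S := {v, p}) (v := w) (o := o)
      (by simp [hvw.symm, hpw.symm]) (by simp [hov, hop]) how.symm a1 R3
    have a3 : (insert w {v, p} : Finset V) = {p, v, w} := by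
      ext u
      simp only [mem_insert, mem_singleton]
      tauto
    rwa [a3] at a2
  have stay : ∀ F ∈ T, p ∉ F → v ∉ F → w ∉ F → F ∈ T₃ := by
    intro F hFT hpF hvF hwF
    exact mem_ctr_of_mem (mem_ctr_of_mem (mem_ctr_of_mem hFT hpF) hvF) hwF
  -- the neighbours of `o`
  have nbo : ∀ y : V, y ≠ o → ({o, y} : Finset V) ∈ edges T₃ →
      (y ≠ p ∧ y ≠ v ∧ y ≠ w) ∧
      (({o, y} : Finset V) ∈ edges T ∨ ({p, y} : Finset V) ∈ edges T) := by
    intro y hyo hE
    rw [R o y hyo.symm] at hE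
    obtain ⟨_, hy, hE⟩ := hE
    simp only [mem_insert, mem_singleton, not_or] at hy
    refine ⟨hy, ?_⟩
    rcases hE with hE | ⟨_, s, hs, hE⟩ | ⟨hh, _⟩
    · exact Or.inl hE
    · simp only [mem_insert, mem_singleton] at hs
      rcases hs with rfl | rfl | rfl
      · exact Or.inr hE
      · rcases nbv y hE with rfl | rfl | rfl | rfl
        · exact absurd rfl hyo
        · exact absurd rfl hy.1
        · exact Or.inr (edge_of_tri tvc hpc (by simp) (by simp))
        · exact Or.inl (edge_of_tri tvd hyo.symm (by simp) (by simp))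
      · rcases nbw y hE with rfl | rfl | rfl | rfl
        · exact absurd rfl hyo
        · exact absurd rfl hy.1
        · exact Or.inr (edge_of_tri twe hpe (by simp) (by simp))
        · exact Or.inl (edge_of_tri twf hyo.symm (by simp) (by simp))
    · exact absurd hh hyo
  have edg : ∀ y z : V, y ≠ z → y ≠ o → z ≠ o → ({y, z} : Finset V) ∈ edges T₃ →
      ({y, z} : Finset V) ∈ edges T := by
    intro y z hyz hyo hzo hE
    rw [R y z hyz] at hE
    rcases hE.2.2 with hE | ⟨hh, _⟩ | ⟨hh, _⟩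
    · exact hE
    · exact absurd hh hyo
    · exact absurd hh hzo
  -- a mixed pair
  have mixed : ∀ y z : V, y ≠ z → y ≠ o → z ≠ o → (y ≠ p ∧ y ≠ v ∧ y ≠ w) →
      (z ≠ p ∧ z ≠ v ∧ z ≠ w) → ({y, z} : Finset V) ∈ edges T → ({o, y} : Finset V) ∈ edges T →
      ({p, z} : Finset V) ∈ edges T → ({p, y} : Finset V) ∉ edges T →
      ({o, z} : Finset V) ∉ edges T → ({o, y, z} : Finset V) ∈ T₃ := by
    intro y z hyz hyo hzo hy hz eyz eoy epz npy noz
    have hq : IsQ T o p z y := ⟨hop, hz.1.symm, hyz.symm, hyo, hzo.symm, hy.1.symm,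
      edge_swap ep, epz, edge_swap eyz, edge_swap eoy, noz, npy⟩
    rcases hQ y z hq with ht | ht
    · have b1 : ({v, y, z} : Finset V) ∈ T₁ :=
        mem_ctr_of_mem ht (d3_notMem hpv hy.1.symm hz.1.symm)
      have b2 : ({o, y, z} : Finset V) ∈ T₂ :=
        mem_ctr_of_tri b1 hov.symm hy.2.1.symm hz.2.1.symm hyo.symm hzo.symm
      exact mem_ctr_of_mem b2 (d3_notMem how.symm hy.2.2.symm hz.2.2.symm)
    · have b1 : ({w, y, z} : Finset V) ∈ T₁ :=
        mem_ctr_of_mem ht (d3_notMem hpw hy.1.symm hz.1.symm)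
      have b2 : ({w, y, z} : Finset V) ∈ T₂ :=
        mem_ctr_of_mem b1 (d3_notMem hvw hy.2.1.symm hz.2.1.symm)
      exact mem_ctr_of_tri b2 how.symm hy.2.2.symm hz.2.2.symm hyo.symm hzo.symm
  -- 3-cycles through `o`
  have cyc : ∀ y z : V, y ≠ z → y ≠ o → z ≠ o → ({o, y} : Finset V) ∈ edges T₃ →
      ({o, z} : Finset V) ∈ edges T₃ → ({y, z} : Finset V) ∈ edges T₃ →
      ({o, y, z} : Finset V) ∈ T₃ := by
    intro y z hyz hyo hzo ey ez eyz
    obtain ⟨hy, ey⟩ := nbo y hyo ey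
    obtain ⟨hz, ez⟩ := nbo z hzo ez
    have eyz' := edg y z hyz hyo hzo eyz
    by_cases oo : ({o, y} : Finset V) ∈ edges T ∧ ({o, z} : Finset V) ∈ edges T
    · exact stay _ (hF o y z hyo.symm hyz hzo.symm oo.1 eyz' oo.2)
        (d3_notMem hop.symm hy.1.symm hz.1.symm) (d3_notMem hov.symm hy.2.1.symm hz.2.1.symm)
        (d3_notMem how.symm hy.2.2.symm hz.2.2.symm)
    · by_cases pp : ({p, y} : Finset V) ∈ edges T ∧ ({p, z} : Finset V) ∈ edges T
      · have b0 := hF p y z hy.1.symm hyz hz.1.symm pp.1 eyz' pp.2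
        have b1 : ({o, y, z} : Finset V) ∈ T₁ :=
          mem_ctr_of_tri b0 hop.symm hy.1.symm hz.1.symm hyo.symm hzo.symm
        have b2 : ({o, y, z} : Finset V) ∈ T₂ :=
          mem_ctr_of_mem b1 (d3_notMem hov.symm hy.2.1.symm hz.2.1.symm)
        exact mem_ctr_of_mem b2 (d3_notMem how.symm hy.2.2.symm hz.2.2.symm)
      · rcases ey with ey | ey
        · have noz : ({o, z} : Finset V) ∉ edges T := fun hh => oo ⟨ey, hh⟩
          have epz : ({p, z} : Finset V) ∈ edges T := ez.resolve_left noz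
          have npy : ({p, y} : Finset V) ∉ edges T := fun hh => pp ⟨hh, epz⟩
          exact mixed y z hyz hyo hzo hy hz eyz' ey epz npy noz
        · have npz : ({p, z} : Finset V) ∉ edges T := fun hh => pp ⟨ey, hh⟩
          have eoz : ({o, z} : Finset V) ∈ edges T := ez.resolve_right npz
          have noy : ({o, y} : Finset V) ∉ edges T := fun hh => oo ⟨hh, eoz⟩
          rw [pair_comm y z]
          exact mixed z y hyz.symm hzo hyo hz hy (edge_swap eyz') eoz ey npz noy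
  refine ⟨T₃, S3, ?_, by omega, R, stay⟩
  intro x y z hxy hyz hxz exy eyz exz
  by_cases hxo : x = o
  · subst hxo
    exact cyc y z hyz hxy.symm hxz.symm exy exz eyz
  by_cases hyo : y = o
  · subst hyo
    rw [d3_rot x y z]
    exact cyc z x hxz.symm hyz.symm hxy eyz (edge_swap exy) (edge_swap exz)
  by_cases hzo : z = o
  · subst hzo
    rw [d3_rot x y z, d3_rot y z x]
    exact cyc x y hxy hxz hyz (edge_swap exz) (edge_swap eyz) exy
  have exy' := edg x y hxy hxo hyo exy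
  have eyz' := edg y z hyz hyo hzo eyz
  have exz' := edg x z hxz hxo hzo exz
  have m1 := ((R x y hxy).1 exy)
  have m2 := ((R x z hxz).1 exz)
  have hx := m1.1
  have hy := m1.2.1
  have hz := m2.2.1
  simp only [mem_insert, mem_singleton, not_or] at hx hy hz
  exact stay _ (hF x y z hxy hyz hxz exy' eyz' exz')
    (d3_notMem (Ne.symm hx.1) (Ne.symm hy.1) (Ne.symm hz.1))
    (d3_notMem (Ne.symm hx.2.1) (Ne.symm hy.2.1) (Ne.symm hz.2.1))
    (d3_notMem (Ne.symm hx.2.2) (Ne.symm hy.2.2) (Ne.symm hz.2.2))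

end Pool.Agent.Spl2
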