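import Pool.Agent.Spl2.SphCtrH

/-!
# Two adjacent vertices of degree 4

Paper proof.  `T' = ctr T v₁ v₂` is a sphere (`Fac3.lc`, `sph_ctr`, `ctr_card`, `edges_ctr`).  By `deg4Q`
and the two apexes `X, Y` of the edge `v₁ v₂` the neighbours of `v₁` are `v₂, X, z, Y` and those of `v₂` are
`v₁, X, u, Y`, with the stars `{v₁,v₂,X}, {v₁,X,z}, {v₁,z,Y}, {v₁,Y,v₂}` and
`{v₂,v₁,X}, {v₂,X,u}, {v₂,u,Y}, {v₂,Y,v₁}`.
`Fac3 T'`: a 3-cycle of `T'` without `v₂` is a triangle of `T` without `v₁`.  Let `{v₂,y,y'}` be a 3-cycle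
of `T'`: `{y,y'} ∈ edges T`, each of `y, y'` is adjacent to `v₂` or to `v₁` in `T`.  If both are adjacent to
`v₂` or both to `v₁`, it is (the image of) a triangle.  Otherwise (up to exchange) `y` is adjacent to `v₂` and
not to `v₁`, `y'` to `v₁` and not to `v₂`, so `y = u`, `y' = z`, `{u,z} ∈ edges T`.  Then
`{u,z,X}, {u,z,Y} ∈ T` by `Fac3`, and the eight triangles (six at `v₁, v₂`, and these two) have empty
boundary (each of the twelve edges is in two of them), so they are all of `T` (`H2`) and `|T| = 8`,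
contradiction.
-/

set_option autoImplicit false

namespace Pool.Agent.Spl2

open Finset Pool.Agent.Spl1

variable {V : Type*} [Fintype V] [DecidableEq V]

omit [Fintype V] in
private theorem t4_tri_comm {a b c : V} : ({a, b, c} : Finset V) = {a, c, b} := by
  rw [Finset.pair_comm b c]

private theorem t4_norm {T : Finset (Finset V)} (h : Sph T) (hF : Fac3 T) {v w : V}
    (h4 : (star T v).card = 4) (hw : ({v, w} : Finset V) ∈ edges T) :
    ∃ X c Y : V, IsQ T w X c Y ∧ star T v = {{v, w, X}, {v, X, c}, {v, c, Y}, {v, Y, w}} ∧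
      bdry (star T v) = qb w X c Y ∧
      ∀ u, u ∈ nb (edges T) v ↔ u = w ∨ u = X ∨ u = c ∨ u = Y := by
  obtain ⟨a, b, c, d, hQ, hst, hb, hn⟩ := h.deg4Q hF h4
  have hwn : w ∈ nb (edges T) v := mem_nb.2 ⟨(edge_ne hw).symm, hw⟩
  rcases (hn w).1 hwn with rfl | rfl | rfl | rfl
  · exact ⟨b, c, d, hQ, hst, hb, hn⟩
  · refine ⟨c, d, a, hQ.rot, ?_, ?_, ?_⟩
    · rw [hst]
      ext t
      simp only [mem_insert, mem_singleton]
      tauto
    · exact hb.trans (qb_rot _ _ _ _).symm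
    · intro u
      rw [hn]
      tauto
  · refine ⟨d, a, b, hQ.rot.rot, ?_, ?_, ?_⟩
    · rw [hst]
      ext t
      simp only [mem_insert, mem_singleton]
      tauto
    · exact hb.trans ((qb_rot _ _ _ _).symm.trans (qb_rot _ _ _ _).symm)
    · intro u
      rw [hn]
      tauto
  · refine ⟨a, b, c, hQ.rot.rot.rot, ?_, ?_, ?_⟩
    · rw [hst]
      ext t
      simp only [mem_insert, mem_singleton]
      tauto
    · exact hb.trans ((qb_rot _ _ _ _).symm.trans
        ((qb_rot _ _ _ _).symm.trans (qb_rot _ _ _ _).symm))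
    · intro u
      rw [hn]
      tauto

private theorem t4_prop {P1 P2 Q1 Q2 R1 R2 : Prop} (k1 : ¬ ((P1 ∨ P2) ∧ (Q1 ∨ Q2)))
    (k2 : ¬ ((P1 ∨ P2) ∧ (R1 ∨ R2))) (k3 : ¬ ((Q1 ∨ Q2) ∧ (R1 ∨ R2)))
    (h : (P1 ∨ Q1 ∨ Q2 ∨ P2) ∧ ¬((P1 ∨ R1 ∨ R2 ∨ P2) ∧ ¬(Q1 ∨ R1 ∨ R2 ∨ Q2) ∨
      (Q1 ∨ R1 ∨ R2 ∨ Q2) ∧ ¬(P1 ∨ R1 ∨ R2 ∨ P2)) ∨
      ((P1 ∨ R1 ∨ R2 ∨ P2) ∧ ¬(Q1 ∨ R1 ∨ R2 ∨ Q2) ∨
      (Q1 ∨ R1 ∨ R2 ∨ Q2) ∧ ¬(P1 ∨ R1 ∨ R2 ∨ P2)) ∧ ¬(P1 ∨ Q1 ∨ Q2 ∨ P2)) : False := by
  by_cases p1 : P1 <;> by_cases p2 : P2 <;> by_cases q1 : Q1 <;> by_cases q2 : Q2 <;>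
    by_cases r1 : R1 <;> by_cases r2 : R2 <;> simp [p1, p2, q1, q2, r1, r2] at h k1 k2 k3

private theorem t4_bd {p X z u Y : V} (pX : p ≠ X) (pz : p ≠ z) (pu : p ≠ u) (pY : p ≠ Y)
    (Xz : X ≠ z) (Xu : X ≠ u) (zu : z ≠ u) (zY : z ≠ Y) (uY : u ≠ Y) :
    symmDiff (qb p X z Y) (symmDiff (qb p X u Y) (qb z X u Y)) = ∅ := by
  rw [Finset.eq_empty_iff_forall_notMem]
  intro e he'
  rw [Finset.mem_symmDiff, Finset.mem_symmDiff] at he'
  have g1 : (e = {p, X} ∨ e = {Y, p}) → p ∈ e ∧ z ∉ e ∧ u ∉ e := by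
    rintro (rfl | rfl)
    · simp [pz.symm, Xz.symm, pu.symm, Xu.symm]
    · simp [pz.symm, zY, pu.symm, uY]
  have g2 : (e = {X, z} ∨ e = {z, Y}) → p ∉ e ∧ z ∈ e ∧ u ∉ e := by
    rintro (rfl | rfl)
    · simp [pX, pz, Xu.symm, zu.symm]
    · simp [pz, pY, zu.symm, uY]
  have g3 : (e = {X, u} ∨ e = {u, Y}) → p ∉ e ∧ z ∉ e ∧ u ∈ e := by
    rintro (rfl | rfl)
    · simp [pX, pu, Xz.symm, zu]
    · simp [pu, pY, zu, zY]
  have k1 : ¬ ((e = {p, X} ∨ e = {Y, p}) ∧ (e = {X, z} ∨ e = {z, Y})) :=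
    fun hh => (g2 hh.2).1 (g1 hh.1).1
  have k2 : ¬ ((e = {p, X} ∨ e = {Y, p}) ∧ (e = {X, u} ∨ e = {u, Y})) :=
    fun hh => (g3 hh.2).1 (g1 hh.1).1
  have k3 : ¬ ((e = {X, z} ∨ e = {z, Y}) ∧ (e = {X, u} ∨ e = {u, Y})) :=
    fun hh => (g3 hh.2).2.1 (g2 hh.1).2.1
  clear g1 g2 g3
  rw [mem_qb, mem_qb, mem_qb, Finset.pair_comm z X, Finset.pair_comm Y z] at he'
  exact t4_prop k1 k2 k3 he'

private theorem t4_no {T : Finset (Finset V)} (h : Sph T) (hF : Fac3 T) (h10 : 10 ≤ T.card)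
    {v₁ v₂ : V} (he : ({v₁, v₂} : Finset V) ∈ edges T) (h4 : (star T v₁).card = 4)
    (h4' : (star T v₂).card = 4) {u z : V} (hu : ({v₂, u} : Finset V) ∈ edges T)
    (hu' : ({v₁, u} : Finset V) ∉ edges T) (hz : ({v₁, z} : Finset V) ∈ edges T)
    (hz' : ({v₂, z} : Finset V) ∉ edges T) (huz : ({u, z} : Finset V) ∈ edges T)
    (hu1 : u ≠ v₁) (hz2 : z ≠ v₂) : False := by
  have h12 : v₁ ≠ v₂ := edge_ne he
  obtain ⟨X, c, Y, hQ, hst, hb, hn⟩ := t4_norm h hF h4 he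
  obtain ⟨X', c', Y', hQ', hst', hb', hn'⟩ := t4_norm h hF h4' (edge_swap he)
  have hzc : z = c := by
    rcases (hn z).1 (mem_nb.2 ⟨(edge_ne hz).symm, hz⟩) with h1 | h1 | h1 | h1
    · exact absurd h1 hz2
    · exact absurd (h1 ▸ hQ.eab) hz'
    · exact h1
    · exact absurd (h1 ▸ edge_swap hQ.eda) hz'
  have huc : u = c' := by
    rcases (hn' u).1 (mem_nb.2 ⟨(edge_ne hu).symm, hu⟩) with h1 | h1 | h1 | h1
    · exact absurd h1 hu1
    · exact absurd (h1 ▸ hQ'.eab) hu'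
    · exact h1
    · exact absurd (h1 ▸ edge_swap hQ'.eda) hu'
  subst hzc huc
  -- the triangles at `v₁ v₂`
  have hX1 : v₁ ≠ X := by
    have : ({v₁, X} : Finset V) ∈ edges T := (mem_nb.1 ((hn X).2 (by simp))).2
    exact edge_ne this
  have hY1 : v₁ ≠ Y := by
    have : ({v₁, Y} : Finset V) ∈ edges T := (mem_nb.1 ((hn Y).2 (by simp))).2
    exact edge_ne this
  have hX2 : v₂ ≠ X' := by
    have : ({v₂, X'} : Finset V) ∈ edges T := (mem_nb.1 ((hn' X').2 (by simp))).2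
    exact edge_ne this
  have hY2 : v₂ ≠ Y' := by
    have : ({v₂, Y'} : Finset V) ∈ edges T := (mem_nb.1 ((hn' Y').2 (by simp))).2
    exact edge_ne this
  have hsT : ∀ t ∈ star T v₁, t ∈ T := fun t ht => (mem_star.1 ht).1
  have hsT' : ∀ t ∈ star T v₂, t ∈ T := fun t ht => (mem_star.1 ht).1
  have key : ∀ W : V, v₁ ≠ W → v₂ ≠ W → ({v₂, v₁, W} : Finset V) ∈ T → W = X ∨ W = Y := by
    intro W h1 h2 h3
    have h5 : ({v₂, v₁, W} : Finset V) ∈ star T v₁ := mem_star.2 ⟨h3, by simp⟩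
    rw [hst] at h5
    simp only [mem_insert, mem_singleton] at h5
    rcases h5 with h5 | h5 | h5 | h5
    · have h6 : W ∈ ({v₁, v₂, X} : Finset V) := by
        rw [← h5]
        simp
      simp only [mem_insert, mem_singleton] at h6
      rcases h6 with h6 | h6 | h6
      · exact absurd h6.symm h1
      · exact absurd h6.symm h2
      · exact Or.inl h6
    · have h6 : v₂ ∈ ({v₁, X, z} : Finset V) := by
        rw [← h5]
        simp
      simp only [mem_insert, mem_singleton] at h6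
      rcases h6 with h6 | h6 | h6
      · exact absurd h6.symm h12
      · exact absurd h6 hQ.ab
      · exact absurd h6.symm hz2
    · have h6 : v₂ ∈ ({v₁, z, Y} : Finset V) := by
        rw [← h5]
        simp
      simp only [mem_insert, mem_singleton] at h6
      rcases h6 with h6 | h6 | h6
      · exact absurd h6.symm h12
      · exact absurd h6.symm hz2
      · exact absurd h6.symm hQ.da
    · have h6 : W ∈ ({v₁, Y, v₂} : Finset V) := by
        rw [← h5]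
        simp
      simp only [mem_insert, mem_singleton] at h6
      rcases h6 with h6 | h6 | h6
      · exact absurd h6.symm h1
      · exact Or.inr h6
      · exact absurd h6.symm h2
  have kX := key X' hQ'.ab hX2 (hsT' _ (by rw [hst']; simp))
  have kY := key Y' hQ'.da.symm hY2 (hsT' _ (by
    rw [hst', t4_tri_comm (a := v₂) (b := v₁) (c := Y')]
    simp))
  have mX : ({v₂, X', u} : Finset V) ∈ T := hsT' _ (by rw [hst']; simp)
  have mY : ({v₂, u, Y'} : Finset V) ∈ T := hsT' _ (by rw [hst']; simp)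
  have tX : ({v₂, X, u} : Finset V) ∈ T := by
    rcases kX with k | k
    · rwa [k] at mX
    · rcases kY with k' | k'
      · rw [k', t4_tri_comm] at mY
        exact mY
      · exact absurd (k.trans k'.symm) hQ'.bd
  have tY : ({v₂, u, Y} : Finset V) ∈ T := by
    rcases kY with k | k
    · rcases kX with k' | k'
      · exact absurd (k'.trans k.symm) hQ'.bd
      · rw [k', t4_tri_comm] at mX
        exact mX
    · rwa [k] at mY
  -- distinctness
  have eXz : ({X, z} : Finset V) ∈ edges T := hQ.ebc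
  have ezY : ({z, Y} : Finset V) ∈ edges T := hQ.ecd
  have hXu : X ≠ u := by
    rintro rfl
    exact hu' (mem_nb.1 ((hn X).2 (by simp))).2
  have hYu : Y ≠ u := by
    rintro rfl
    exact hu' (mem_nb.1 ((hn Y).2 (by simp))).2
  have h2u : v₂ ≠ u := edge_ne hu
  have hzu : z ≠ u := (edge_ne huz).symm
  have h1z : v₁ ≠ z := edge_ne hz
  have eXu : ({X, u} : Finset V) ∈ edges T := edge_of_tri tX hXu (by simp) (by simp)
  have euY : ({u, Y} : Finset V) ∈ edges T := edge_of_tri tY hYu.symm (by simp) (by simp)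
  have cX : ({z, X, u} : Finset V) ∈ T :=
    hF z X u hQ.bc.symm hXu hzu (edge_swap eXz) eXu (edge_swap huz)
  have cY : ({z, u, Y} : Finset V) ∈ T :=
    hF z u Y hzu hYu.symm hQ.cd (edge_swap huz) euY ezY
  -- the eight triangles
  let D : Finset (Finset V) := symmDiff (star T v₁)
    (symmDiff {{v₂, X, u}, {v₂, u, Y}} {{z, X, u}, {z, u, Y}})
  have hDT : D ⊆ T := by
    intro t ht
    simp only [D, Finset.mem_symmDiff, mem_insert, mem_singleton] at ht
    rcases ht with ⟨ht, -⟩ | ⟨⟨ht, -⟩ | ⟨ht, -⟩, -⟩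
    · exact hsT t ht
    · rcases ht with rfl | rfl
      · exact tX
      · exact tY
    · rcases ht with rfl | rfl
      · exact cX
      · exact cY
  have hDb : bdry D = ∅ := by
    simp only [D]
    rw [bdry_symm, bdry_symm, hb, bdry_two hQ.ab hXu hYu.symm hQ.da h2u hQ.bd,
      bdry_two hQ.bc.symm hXu hYu.symm hQ.cd.symm hzu hQ.bd]
    exact t4_bd hQ.ab (Ne.symm hz2) h2u hQ.da.symm hQ.bc hXu hzu hQ.cd hYu.symm
  have hDne : D ≠ ∅ := by
    have : ({v₁, v₂, X} : Finset V) ∈ D := by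
      simp only [D, Finset.mem_symmDiff]
      left
      refine ⟨by rw [hst]; simp, ?_⟩
      have h1 : ∀ t : Finset V, t ∈ ({{v₂, X, u}, {v₂, u, Y}} : Finset (Finset V)) → v₁ ∉ t := by
        intro t ht
        simp only [mem_insert, mem_singleton] at ht
        rcases ht with rfl | rfl
        · simp [h12, hX1, hu1.symm]
        · simp [h12, hY1, hu1.symm]
      have h2 : ∀ t : Finset V, t ∈ ({{z, X, u}, {z, u, Y}} : Finset (Finset V)) → v₁ ∉ t := by
        intro t ht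
        simp only [mem_insert, mem_singleton] at ht
        rcases ht with rfl | rfl
        · simp [h1z, hX1, hu1.symm]
        · simp [h1z, hY1, hu1.symm]
      rintro (⟨h3, -⟩ | ⟨h3, -⟩)
      · exact h1 _ h3 (by simp)
      · exact h2 _ h3 (by simp)
    intro h0
    rw [h0] at this
    simp at this
  have hDcard : D.card ≤ 8 := by
    have h1 : D ⊆ star T v₁ ∪ ({{v₂, X, u}, {v₂, u, Y}} ∪ {{z, X, u}, {z, u, Y}}) := by
      intro t ht
      simp only [D, Finset.mem_symmDiff] at ht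
      rw [mem_union, mem_union]
      tauto
    refine (card_le_card h1).trans ((card_union_le _ _).trans ?_)
    have h2 := card_union_le ({{v₂, X, u}, {v₂, u, Y}} : Finset (Finset V)) {{z, X, u}, {z, u, Y}}
    have h3 := card_le_two (a := ({v₂, X, u} : Finset V)) (b := {v₂, u, Y})
    have h5 := card_le_two (a := ({z, X, u} : Finset V)) (b := {z, u, Y})
    omega
  rcases h.H2 D hDT hDb with h0 | h0
  · exact hDne h0
  · rw [h0] at hDcard
    omega

theorem t4_ctr {T : Finset (Finset V)} (h : Sph T) (hF : Fac3 T) (h10 : 10 ≤ T.card)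
    {v₁ v₂ : V} (he : ({v₁, v₂} : Finset V) ∈ edges T) (h4 : (star T v₁).card = 4)
    (h4' : (star T v₂).card = 4) :
    ∃ T' : Finset (Finset V), Sph T' ∧ Fac3 T' ∧ T'.card + 2 = T.card ∧
      EdgeRel T T' {v₁} v₂ ∧ ∀ F ∈ T, v₁ ∉ F → F ∈ T' := by
  have h12 : v₁ ≠ v₂ := edge_ne he
  have hL : LC T v₁ v₂ := hF.lc he
  have hR := edges_ctr h h12
  have key : ∀ y z : V, y ≠ z → v₂ ≠ y → v₂ ≠ z → ({v₂, y} : Finset V) ∈ edges (ctr T v₁ v₂) →
      ({y, z} : Finset V) ∈ edges (ctr T v₁ v₂) → ({v₂, z} : Finset V) ∈ edges (ctr T v₁ v₂) →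
      ({v₂, y, z} : Finset V) ∈ ctr T v₁ v₂ := by
    intro y z hyz h2y h2z e1 e2 e3
    obtain ⟨-, hy1, e1⟩ := (hR v₂ y h2y).1 e1
    obtain ⟨-, hz1, e2⟩ := (hR y z hyz).1 e2
    obtain ⟨-, -, e3⟩ := (hR v₂ z h2z).1 e3
    simp only [mem_singleton] at hy1 hz1 e1 e2 e3
    have e1' : ({v₂, y} : Finset V) ∈ edges T ∨ ({v₁, y} : Finset V) ∈ edges T := by
      rcases e1 with e | ⟨-, s, rfl, e⟩ | ⟨e, -⟩
      · exact Or.inl e
      · exact Or.inr e
      · exact absurd e.symm h2y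
    have e3' : ({v₂, z} : Finset V) ∈ edges T ∨ ({v₁, z} : Finset V) ∈ edges T := by
      rcases e3 with e | ⟨-, s, rfl, e⟩ | ⟨e, -⟩
      · exact Or.inl e
      · exact Or.inr e
      · exact absurd e.symm h2z
    have e2' : ({y, z} : Finset V) ∈ edges T := by
      rcases e2 with e | ⟨e, -⟩ | ⟨e, -⟩
      · exact e
      · exact absurd e.symm h2y
      · exact absurd e.symm h2z
    have both2 : ({v₂, y} : Finset V) ∈ edges T → ({v₂, z} : Finset V) ∈ edges T →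
        ({v₂, y, z} : Finset V) ∈ ctr T v₁ v₂ := fun a b =>
      mem_ctr_of_mem (hF v₂ y z h2y hyz h2z a e2' b) (by simp [h12, Ne.symm hy1, Ne.symm hz1])
    have both1 : ({v₁, y} : Finset V) ∈ edges T → ({v₁, z} : Finset V) ∈ edges T →
        ({v₂, y, z} : Finset V) ∈ ctr T v₁ v₂ := fun a b =>
      mem_ctr_of_tri (hF v₁ y z (Ne.symm hy1) hyz (Ne.symm hz1) a e2' b) h12 (Ne.symm hy1)
        (Ne.symm hz1) h2y h2z
    by_cases a2 : ({v₂, y} : Finset V) ∈ edges T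
    · by_cases b2 : ({v₂, z} : Finset V) ∈ edges T
      · exact both2 a2 b2
      · have b1 := e3'.resolve_left b2
        by_cases a1 : ({v₁, y} : Finset V) ∈ edges T
        · exact both1 a1 b1
        · exact (t4_no h hF h10 he h4 h4' a2 a1 b1 b2 e2' hy1 h2z.symm).elim
    · have a1 := e1'.resolve_left a2
      by_cases b1 : ({v₁, z} : Finset V) ∈ edges T
      · exact both1 a1 b1
      · have b2 := e3'.resolve_right b1
        exact (t4_no h hF h10 he h4 h4' b2 b1 a1 a2 (edge_swap e2') hz1 h2y.symm).elim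
  refine ⟨ctr T v₁ v₂, sph_ctr h he hL (by omega), ?_, ctr_card h he hL (by omega), hR,
    fun F hFT hv => mem_ctr_of_mem hFT hv⟩
  intro x y z hxy hyz hxz e1 e2 e3
  by_cases hx : x = v₂
  · subst hx
    exact key y z hyz hxy hxz e1 e2 e3
  by_cases hy : y = v₂
  · subst hy
    have h1 := key x z hxz (Ne.symm hxy) hyz (edge_swap e1) e3 e2
    rwa [Finset.insert_comm] at h1
  by_cases hz : z = v₂
  · subst hz
    have h1 := key x y hxy (Ne.symm hxz) (Ne.symm hyz) (edge_swap e3) e1 (edge_swap e2)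
    have h2 : ({z, x, y} : Finset V) = {x, y, z} := by
      ext w
      simp only [mem_insert, mem_singleton]
      tauto
    rwa [h2] at h1
  obtain ⟨hx1, hy1, e1⟩ := (hR x y hxy).1 e1
  obtain ⟨-, hz1, e2⟩ := (hR y z hyz).1 e2
  obtain ⟨-, -, e3⟩ := (hR x z hxz).1 e3
  simp only [mem_singleton] at hx1 hy1 hz1
  have f1 := e1.resolve_right (by rintro (⟨e, -⟩ | ⟨e, -⟩) <;> contradiction)
  have f2 := e2.resolve_right (by rintro (⟨e, -⟩ | ⟨e, -⟩) <;> contradiction)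
  have f3 := e3.resolve_right (by rintro (⟨e, -⟩ | ⟨e, -⟩) <;> contradiction)
  exact mem_ctr_of_mem (hF x y z hxy hyz hxz f1 f2 f3)
    (by simp [Ne.symm hx1, Ne.symm hy1, Ne.symm hz1])

end Pool.Agent.Spl2
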