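import Pool.Agent.Spl2.SphReg0

/-!
# Counting in a region

Paper proof.  `edge_count`: `∑_{e ∈ edges D} tdeg D e = 3 |D|` (`sum_tdeg`); every `e ∈ edges D` has
`tdeg D e = 2`, or `1` if it is in `bdry D` (`1 ≤ tdeg D e ≤ 2`); `bdry D ⊆ edges D`, `|bdry D| = |B|`
(`size`).
`euler`: `Spl1.cyc_count` for `E = edges D`, `W = inV D B ∪ B`, where `inV D B` is the set of
`x ∉ B` with `star D x ≠ ∅` (every edge of `D` is contained in `W`):
`2 ^ (|E| + 1) ≤ 2 ^ |W| * #cycles`; by `Reg0.closure` `D' ↦ bdry D'` maps the subsets of `D` onto the cycles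
in `edges D`, so `#cycles ≤ 2 ^ |D|`.
`star_sum`: `∑_x |star D x| = 3 |D|` (`sum_star`), the sum over `x` splits in `B`, `inV D B` and the rest
(where `star D x = ∅`); for `x ∈ inV D B` `star D x = star T x` (`Reg0.inn`).
-/

set_option autoImplicit false

namespace Pool.Agent.Spl2

open Finset Pool.Agent.Spl1

variable {V : Type*} [Fintype V] [DecidableEq V]

/-- the inner vertices of a region -/
def inV (D : Finset (Finset V)) (B : Finset V) : Finset V :=
  univ.filter (fun x => x ∉ B ∧ (star D x).Nonempty)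

theorem Reg0.edge_count {T : Finset (Finset V)} (h : Sph T) {F₀ : Finset V}
    {D : Finset (Finset V)} {B : Finset V} (hR : Reg0 T F₀ D B) :
    2 * (edges D).card = 3 * D.card + B.card := by
  have h3 : ∀ t ∈ D, t.card = 3 := fun t ht => h.card3 t (hR.sub ht)
  have hs := sum_tdeg h3
  have hbE : bdry D ⊆ edges D := bdry_subset_edges (Finset.Subset.refl D)
  have key : ∀ e ∈ edges D, tdeg D e + (if e ∈ bdry D then 1 else 0) = 2 := by
    intro e he
    have he' := mem_edges.1 he
    have h1 : 0 < tdeg D e := by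
      obtain ⟨t, ht, het⟩ := he'.2
      unfold tdeg
      exact Finset.card_pos.2 ⟨t, Finset.mem_filter.2 ⟨ht, het⟩⟩
    have h2 : tdeg D e ≤ tdeg T e :=
      Finset.card_le_card (Finset.filter_subset_filter _ hR.sub)
    have h4 : tdeg T e ≤ 2 := h.le2 he'.1
    by_cases hb : e ∈ bdry D
    · rw [if_pos hb]
      rw [mem_bdry] at hb
      obtain ⟨k, hk⟩ := hb.2
      omega
    · rw [if_neg hb]
      rw [mem_bdry] at hb
      have h5 : ¬ Odd (tdeg D e) := fun ho => hb ⟨he'.1, ho⟩
      rw [Nat.not_odd_iff_even] at h5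
      obtain ⟨k, hk⟩ := h5
      omega
  have hsum : ∑ e ∈ edges D, (tdeg D e + (if e ∈ bdry D then 1 else 0)) = ∑ _e ∈ edges D, 2 :=
    Finset.sum_congr rfl key
  rw [Finset.sum_add_distrib, hs, Finset.sum_const, smul_eq_mul] at hsum
  have hc : ∑ e ∈ edges D, (if e ∈ bdry D then 1 else 0) = (bdry D).card := by
    rw [← Finset.card_filter]
    congr 1
    ext e
    rw [Finset.mem_filter]
    exact ⟨fun h => h.2, fun h => ⟨hbE h, h⟩⟩
  rw [hc, ← hR.size] at hsum
  omega

theorem Reg0.euler {T : Finset (Finset V)} (h : Sph T) {F₀ : Finset V}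
    {D : Finset (Finset V)} {B : Finset V} (hR : Reg0 T F₀ D B) :
    (edges D).card + 1 ≤ (inV D B).card + B.card + D.card := by
  classical
  have hB : B.Nonempty := by
    rw [← Finset.card_pos]
    rcases hR.size34 with h | h <;> omega
  have hW : ∀ e ∈ edges D, e ⊆ inV D B ∪ B := by
    intro e he x hx
    obtain ⟨-, t, ht, het⟩ := mem_edges.1 he
    rw [Finset.mem_union]
    by_cases hxB : x ∈ B
    · exact Or.inr hxB
    · left
      unfold inV
      rw [Finset.mem_filter]
      exact ⟨Finset.mem_univ _, hxB, t, mem_star.2 ⟨ht, het hx⟩⟩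
  have h1 := cyc_count (E := edges D) (W := inV D B ∪ B) (fun e he => (mem_edges.1 he).1) hW
    (hB.mono Finset.subset_union_right)
  have h2 : ((edges D).powerset.filter (fun C => IsCyc C)).card ≤ 2 ^ D.card := by
    rw [← Finset.card_powerset]
    apply Finset.card_le_card_of_surjOn bdry
    intro C hC
    rw [Finset.mem_coe, Finset.mem_filter, Finset.mem_powerset] at hC
    obtain ⟨X, hX, hXC⟩ := hR.closure h hC.1 hC.2
    exact ⟨X, by rw [Finset.mem_coe, Finset.mem_powerset]; exact hX, hXC⟩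
  have h3 : 2 ^ ((edges D).card + 1) ≤ 2 ^ ((inV D B ∪ B).card + D.card) := by
    refine h1.trans ?_
    rw [pow_add]
    exact Nat.mul_le_mul_left _ h2
  have h4 : (edges D).card + 1 ≤ (inV D B ∪ B).card + D.card :=
    (Nat.pow_le_pow_iff_right (by norm_num)).1 h3
  have h5 := Finset.card_union_le (inV D B) B
  omega

theorem Reg0.star_sum {T : Finset (Finset V)} (h : Sph T) {F₀ : Finset V}
    {D : Finset (Finset V)} {B : Finset V} (hR : Reg0 T F₀ D B) :
    ∑ x ∈ inV D B, (star T x).card + ∑ b ∈ B, (star D b).card = 3 * D.card := by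
  have h3 : ∀ t ∈ D, t.card = 3 := fun t ht => h.card3 t (hR.sub ht)
  have h1 : ∑ x ∈ inV D B, (star T x).card = ∑ x ∈ inV D B, (star D x).card := by
    apply Finset.sum_congr rfl
    intro x hx
    unfold inV at hx
    rw [Finset.mem_filter] at hx
    have h2 := hR.inn h hx.2.1 hx.2.2
    congr 1
    ext t
    rw [mem_star, mem_star]
    constructor
    · rintro ⟨a1, a2⟩
      exact ⟨h2 (mem_star.2 ⟨a1, a2⟩), a2⟩
    · rintro ⟨a1, a2⟩
      exact ⟨hR.sub a1, a2⟩
  have hdisj : Disjoint (inV D B) B := by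
    rw [Finset.disjoint_left]
    intro x hx
    unfold inV at hx
    rw [Finset.mem_filter] at hx
    exact hx.2.1
  rw [h1, ← Finset.sum_union hdisj, ← sum_star h3]
  apply Finset.sum_subset (Finset.subset_univ _)
  intro x _ hx
  rw [Finset.mem_union, not_or] at hx
  by_contra hne
  apply hx.1
  unfold inV
  rw [Finset.mem_filter]
  exact ⟨Finset.mem_univ _, hx.2, Finset.card_pos.1 (Nat.pos_of_ne_zero hne)⟩

end Pool.Agent.Spl2
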