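import Pool.Agent.Spl2.SphF3
import Pool.Agent.Spl2.SphEuler

/-!
# The blocked case

`WW T D` is the set of the vertices of degree `4` whose star is in `D`.

Paper proof.  `tet_cover`: let `D_W` be the set of the triangles of `D` which contain a vertex of `WW`; it is not
empty.  `bdry D_W ⊆ bdry D`: let `e ∈ edges T`, `e ⊄ B`; show `tdeg D_W e` is even.  If no triangle of `D_W`
contains `e` it is `0`.  Let `e ⊆ t ∈ D_W`, `v ∈ t`, `v ∈ WW`.  If `v ∈ e`, both triangles at `e` are in
`star T v ⊆ D`, so in `D_W`.  If `v ∉ e = {p,q}`, `t = {v,p,q}`; the other triangle `{p,q,r}` at `e`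
(`Sph.link_two`) contains `r ∈ WW` by `Blk`, and it is in `star T r ⊆ D`, so in `D_W`.  (`e ⊄ B` and
`e ∈ bdry D_W` are incompatible, so `bdry D_W ⊆ bdry D` by `bd`.)  By `Reg0.eq_of` `D_W = D`.
`tet_unique`: two different vertices of `WW` in one triangle are adjacent and not in `F₀` (their stars are in
`D`, `F₀ ∉ D`), contradiction to `NoT4`.
`tet_card`: `D` is the disjoint union of the stars of the `v ∈ WW`.
`tet_even`: for `x ∉ WW` map each triangle of `star D x` to its vertex in `WW`; the fibre over `v` is the set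
of the triangles which contain `v` and `x`: they are two (`two`, the edge `{v,x}`), both in
`star T v ⊆ D`.
`tet_six`: suppose that no vertex of `inV D B \ WW` has degree `6`.  They have even degree (`star T x =
star D x`, `Reg0.inn`), `≥ 4` (`four_le`), not `4` (else they would be in `WW`), so `≥ 8`.  `WW ⊆ inV D B`
(`corn`).  Let `a = |WW|`, `m = |inV D B \ WW|`, `β = |B|`.  `|D| = 4 a`.
`star_sum`: `12 a = 3 |D| ≥ 4 a + 8 m + 3 β` (`corn`); `edge_count`: `2 |E| = 12 a + β`, so `β` is even,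
`β = 4` (`size34`); `euler`: `2 |E| + 2 ≤ 2 (a + m) + 2 β + 2 |D|`, i.e. `12 a + 6 ≤ 2 a + 2 m + 8 + 8 a`,
`a ≤ m + 1`.  But `8 a ≥ 8 m + 12`.  Contradiction.
`tet_main`: let `p ∈ inV D B \ WW` of degree `6`.  A triangle at `p` is in `D` and contains some `v ∈ WW`:
`{o,p,v}`, `o ∉ WW` (`tet_unique`).  The other triangle at the edge `o p` is `{o,p,w} ∈ star T p ⊆ D`, it
contains a vertex of `WW`, which is `w` (`o, p ∉ WW`).  `v, w` are not adjacent (`NoT4`).
`12 ≤ |D|`: `6 = |star T p| = 2 ·` (number of `v ∈ WW` adjacent to `p`), so `|WW| ≥ 3` and `|D| = 4 |WW| ≥ 12`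
(or: each triangle of `star T p` contains a vertex of `WW`, and each vertex of `WW` is in at most two of
them).
-/

set_option autoImplicit false

namespace Pool.Agent.Spl2

open Finset Pool.Agent.Spl1

variable {V : Type*} [Fintype V] [DecidableEq V]

/-- the vertices of degree `4` of the region -/
def WW (T D : Finset (Finset V)) : Finset V :=
  univ.filter (fun v => (star T v).card = 4 ∧ star T v ⊆ D)

theorem ww_mem {T D : Finset (Finset V)} {v : V} :
    v ∈ WW T D ↔ (star T v).card = 4 ∧ star T v ⊆ D := by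
  simp [WW]

theorem ww_notF {T D : Finset (Finset V)} {F₀ : Finset V} (hF₀ : F₀ ∈ T) (hnF : F₀ ∉ D) {v : V}
    (hv : v ∈ WW T D) : v ∉ F₀ := fun hm => hnF ((ww_mem.1 hv).2 (mem_star.2 ⟨hF₀, hm⟩))

theorem ww_ne {T D : Finset (Finset V)} {v : V} (hv : v ∈ WW T D) : (star T v).Nonempty := by
  rw [← Finset.card_pos, (ww_mem.1 hv).1]
  norm_num

theorem star_eq_of_sub {T D : Finset (Finset V)} (hD : D ⊆ T) {x : V} (hx : star T x ⊆ D) :
    star D x = star T x := by
  ext t
  rw [mem_star, mem_star]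
  constructor
  · exact fun ht => ⟨hD ht.1, ht.2⟩
  · exact fun ht => ⟨hx (mem_star.2 ht), ht.2⟩

theorem third_vertex {t : Finset V} (ht : t.card = 3) {p q : V} (hpq : p ≠ q) (hp : p ∈ t)
    (hq : q ∈ t) : ∃ r, r ≠ p ∧ r ≠ q ∧ r ∈ t ∧ t = {p, q, r} := by
  have h1 : ({p, q} : Finset V).card < t.card := by
    rw [Finset.card_pair hpq, ht]
    norm_num
  obtain ⟨r, hr, hr2⟩ := Finset.exists_mem_notMem_of_card_lt_card h1
  simp only [Finset.mem_insert, Finset.mem_singleton, not_or] at hr2
  have hrp : r ≠ p := hr2.1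
  have hrq : r ≠ q := hr2.2
  refine ⟨r, hrp, hrq, hr, ?_⟩
  symm
  apply Finset.eq_of_subset_of_card_le
  · intro x hx
    simp only [Finset.mem_insert, Finset.mem_singleton] at hx
    rcases hx with rfl | rfl | rfl
    · exact hp
    · exact hq
    · exact hr
  · rw [ht, Finset.card_eq_three.2 ⟨p, q, r, hpq, hrp.symm, hrq.symm, rfl⟩]

theorem ww_notB {T : Finset (Finset V)} {F₀ : Finset V} {D : Finset (Finset V)} {B : Finset V}
    (hR : Reg T F₀ D B) {v : V} (hv : v ∈ WW T D) : v ∉ B :=
  fun hB => (hR.corn v hB).2.2 (ww_mem.1 hv).2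

theorem tet_cover {T : Finset (Finset V)} (h : Sph T) {F₀ : Finset V} {D : Finset (Finset V)}
    {B : Finset V} (hR : Reg T F₀ D B) (hex : ∃ v, (star T v).card = 4 ∧ star T v ⊆ D)
    (hbl : Blk T D B) : ∀ t ∈ D, ∃ v ∈ WW T D, v ∈ t := by
  classical
  set DW : Finset (Finset V) := D.filter (fun t => ∃ v ∈ WW T D, v ∈ t) with hDW
  have hmem : ∀ t, t ∈ DW ↔ t ∈ D ∧ ∃ v ∈ WW T D, v ∈ t := by
    intro t
    rw [hDW, Finset.mem_filter]
  have hne : DW.Nonempty := by
    obtain ⟨v, hv, hvD⟩ := hex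
    have hvW : v ∈ WW T D := ww_mem.2 ⟨hv, hvD⟩
    obtain ⟨t, ht⟩ := ww_ne hvW
    exact ⟨t, (hmem t).2 ⟨hvD ht, v, hvW, (mem_star.1 ht).2⟩⟩
  have hb : bdry DW ⊆ bdry D := by
    intro e he
    by_contra hcon
    rw [mem_bdry] at he
    obtain ⟨hc2, hodd⟩ := he
    have hpos : 0 < tdeg DW e := hodd.pos
    unfold tdeg at hpos
    rw [Finset.card_pos] at hpos
    obtain ⟨t, ht⟩ := hpos
    rw [Finset.mem_filter] at ht
    obtain ⟨htW, het⟩ := ht
    obtain ⟨htD, v, hvW, hvt⟩ := (hmem t).1 htW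
    have htT : t ∈ T := hR.sub htD
    have heT : e ∈ edges T := mem_edges.2 ⟨hc2, t, htT, het⟩
    have heB : ¬ e ⊆ B := fun hB => hcon ((hR.bd e).2 ⟨heT, hB⟩)
    have key : ∀ t' ∈ T, e ⊆ t' → t' ∈ DW := by
      intro t' ht' het'
      by_cases hve : v ∈ e
      · have h1 : t' ∈ star T v := mem_star.2 ⟨ht', het' hve⟩
        exact (hmem t').2 ⟨(ww_mem.1 hvW).2 h1, v, hvW, het' hve⟩
      · obtain ⟨p, q, hpq, rfl⟩ := Finset.card_eq_two.1 hc2
        have hvp : v ≠ p := by rintro rfl; exact hve (by simp)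
        have hvq : v ≠ q := by rintro rfl; exact hve (by simp)
        have hpt : p ∈ t := het (by simp)
        have hqt : q ∈ t := het (by simp)
        have hpt' : p ∈ t' := het' (by simp)
        have hqt' : q ∈ t' := het' (by simp)
        obtain ⟨s, hsp, hsq, hst, hteq⟩ := third_vertex (h.card3 t htT) hpq hpt hqt
        have hvs : v = s := by
          rw [hteq] at hvt
          simp only [Finset.mem_insert, Finset.mem_singleton] at hvt
          rcases hvt with h1 | h1 | h1
          · exact absurd h1 hvp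
          · exact absurd h1 hvq
          · exact h1
        subst hvs
        obtain ⟨r, hrp, hrq, hrt', hteq'⟩ := third_vertex (h.card3 t' ht') hpq hpt' hqt'
        by_cases hrv : r = v
        · have : t' = t := by rw [hteq, hteq', hrv]
          rw [this]
          exact htW
        · have hvpq : ({v, p, q} : Finset V) ∈ T := by
            have : ({v, p, q} : Finset V) = t := by
              rw [hteq]
              ext x
              simp only [Finset.mem_insert, Finset.mem_singleton]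
              tauto
            rw [this]
            exact htT
          have hpqr : ({p, q, r} : Finset V) ∈ T := by
            rw [← hteq']
            exact ht'
          have hpB : ¬ (p ∈ B ∧ q ∈ B) := by
            rintro ⟨h1, h2⟩
            apply heB
            intro x hx
            simp only [Finset.mem_insert, Finset.mem_singleton] at hx
            rcases hx with rfl | rfl
            · exact h1
            · exact h2
          have h2 := hbl v p q (ww_mem.1 hvW).1 (ww_mem.1 hvW).2 hvpq hpB r hrv hrp hrq hpqr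
          have h3 : t' ∈ star T r := mem_star.2 ⟨ht', hrt'⟩
          exact (hmem t').2 ⟨h2.2 h3, r, ww_mem.2 h2, hrt'⟩
    have h4 : tdeg DW e = tdeg T e := by
      unfold tdeg
      congr 1
      ext t'
      simp only [Finset.mem_filter]
      constructor
      · rintro ⟨h1, h2⟩
        exact ⟨hR.sub ((hmem t').1 h1).1, h2⟩
      · rintro ⟨h1, h2⟩
        exact ⟨key t' h1 h2, h2⟩
    rw [h4, h.two e heT] at hodd
    exact absurd hodd (by decide)
  have hsub : DW ⊆ D := fun t ht => ((hmem t).1 ht).1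
  have heq := hR.toReg0.eq_of h hsub hne hb
  intro t ht
  rw [← heq] at ht
  exact ((hmem t).1 ht).2

theorem tet_unique {T : Finset (Finset V)} {F₀ : Finset V} (hF₀ : F₀ ∈ T) (hN : NoT4 T F₀)
    {D : Finset (Finset V)} (hnF : F₀ ∉ D) {t : Finset V} (ht : t ∈ T) {v w : V}
    (hv : v ∈ WW T D) (hw : w ∈ WW T D) (hvt : v ∈ t) (hwt : w ∈ t) : v = w := by
  by_contra hne
  exact hN v w hne (ww_notF hF₀ hnF hv) (ww_notF hF₀ hnF hw) (edge_of_tri ht hne hvt hwt)
    (ww_mem.1 hv).1 (ww_mem.1 hw).1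

theorem tet_card {T : Finset (Finset V)} (h : Sph T) {F₀ : Finset V} (hN : NoT4 T F₀)
    {D : Finset (Finset V)} {B : Finset V} (hR : Reg T F₀ D B)
    (hex : ∃ v, (star T v).card = 4 ∧ star T v ⊆ D) (hbl : Blk T D B) :
    D.card = 4 * (WW T D).card := by
  classical
  have h1 : D = (WW T D).biUnion (fun v => star T v) := by
    ext t
    rw [Finset.mem_biUnion]
    constructor
    · intro ht
      obtain ⟨v, hv, hvt⟩ := tet_cover h hR hex hbl t ht
      exact ⟨v, hv, mem_star.2 ⟨hR.sub ht, hvt⟩⟩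
    · rintro ⟨v, hv, ht⟩
      exact (ww_mem.1 hv).2 ht
  have h2 : ((WW T D).biUnion (fun v => star T v)).card = ∑ v ∈ WW T D, (star T v).card := by
    apply Finset.card_biUnion
    intro v hv w hw hne
    rw [Function.onFun, Finset.disjoint_left]
    intro t ht ht'
    exact hne (tet_unique hR.hF hN hR.nF (mem_star.1 ht).1 hv hw (mem_star.1 ht).2 (mem_star.1 ht').2)
  have h3 : ∑ v ∈ WW T D, (star T v).card = ∑ v ∈ WW T D, 4 :=
    Finset.sum_congr rfl fun v hv => (ww_mem.1 hv).1
  calc D.card = ((WW T D).biUnion (fun v => star T v)).card := congrArg _ h1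
    _ = _ := by rw [h2, h3, Finset.sum_const, smul_eq_mul, mul_comm]

theorem tet_even {T : Finset (Finset V)} (h : Sph T) {F₀ : Finset V} (hN : NoT4 T F₀)
    {D : Finset (Finset V)} {B : Finset V} (hR : Reg T F₀ D B)
    (hex : ∃ v, (star T v).card = 4 ∧ star T v ⊆ D) (hbl : Blk T D B) {x : V}
    (hx : x ∉ WW T D) : (star D x).card =
      2 * ((WW T D).filter (fun v => ({v, x} : Finset V) ∈ edges T)).card := by
  classical
  set A := (WW T D).filter (fun v => ({v, x} : Finset V) ∈ edges T) with hA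
  have hAm : ∀ v, v ∈ A ↔ v ∈ WW T D ∧ ({v, x} : Finset V) ∈ edges T := by
    intro v
    rw [hA, Finset.mem_filter]
  have h1 : star D x = A.biUnion (fun v => T.filter (fun t => ({v, x} : Finset V) ⊆ t)) := by
    ext t
    rw [Finset.mem_biUnion, mem_star]
    constructor
    · rintro ⟨htD, hxt⟩
      obtain ⟨v, hv, hvt⟩ := tet_cover h hR hex hbl t htD
      have hvx : v ≠ x := by rintro rfl; exact hx hv
      refine ⟨v, (hAm v).2 ⟨hv, edge_of_tri (hR.sub htD) hvx hvt hxt⟩, ?_⟩
      rw [Finset.mem_filter]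
      refine ⟨hR.sub htD, ?_⟩
      intro z hz
      simp only [Finset.mem_insert, Finset.mem_singleton] at hz
      rcases hz with rfl | rfl
      · exact hvt
      · exact hxt
    · rintro ⟨v, hv, ht⟩
      rw [Finset.mem_filter] at ht
      have hvt : v ∈ t := ht.2 (by simp)
      exact ⟨(ww_mem.1 ((hAm v).1 hv).1).2 (mem_star.2 ⟨ht.1, hvt⟩), ht.2 (by simp)⟩
  have h2 : (A.biUnion (fun v => T.filter (fun t => ({v, x} : Finset V) ⊆ t))).card =
      ∑ v ∈ A, (T.filter (fun t => ({v, x} : Finset V) ⊆ t)).card := by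
    apply Finset.card_biUnion
    intro v hv w hw hne
    rw [Function.onFun, Finset.disjoint_left]
    intro t ht ht'
    rw [Finset.mem_filter] at ht ht'
    exact hne (tet_unique hR.hF hN hR.nF ht.1 ((hAm v).1 hv).1 ((hAm w).1 hw).1 (ht.2 (by simp))
      (ht'.2 (by simp)))
  have h3 : ∑ v ∈ A, (T.filter (fun t => ({v, x} : Finset V) ⊆ t)).card = ∑ v ∈ A, 2 :=
    Finset.sum_congr rfl fun v hv => h.two _ ((hAm v).1 hv).2
  rw [h1, h2, h3, Finset.sum_const, smul_eq_mul, mul_comm]

theorem ww_sub_inV {T : Finset (Finset V)} {F₀ : Finset V} {D : Finset (Finset V)} {B : Finset V}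
    (hR : Reg T F₀ D B) : WW T D ⊆ inV D B := by
  intro v hv
  unfold inV
  rw [Finset.mem_filter]
  refine ⟨Finset.mem_univ _, ww_notB hR hv, ?_⟩
  rw [star_eq_of_sub hR.sub (ww_mem.1 hv).2]
  exact ww_ne hv

theorem tet_six {T : Finset (Finset V)} (h : Sph T) (hF : Fac3 T) (h10 : 10 ≤ T.card)
    {F₀ : Finset V} (hN : NoT4 T F₀) {D : Finset (Finset V)} {B : Finset V}
    (hR : Reg T F₀ D B) (hex : ∃ v, (star T v).card = 4 ∧ star T v ⊆ D) (hbl : Blk T D B) :
    ∃ p : V, p ∉ B ∧ p ∉ WW T D ∧ star T p ⊆ D ∧ (star T p).card = 6 := by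
  classical
  by_contra hcon
  push Not at hcon
  have h8 : ∀ x ∈ inV D B \ WW T D, 8 ≤ (star T x).card := by
    intro x hx
    rw [Finset.mem_sdiff] at hx
    obtain ⟨hx1, hx2⟩ := hx
    unfold inV at hx1
    rw [Finset.mem_filter] at hx1
    obtain ⟨-, hxB, hxne⟩ := hx1
    have hin := hR.toReg0.inn h hxB hxne
    have heq := star_eq_of_sub hR.sub hin
    have hev := tet_even h hN hR hex hbl hx2
    rw [heq] at hev hxne
    have h4 := h.four_le hF (by omega) hxne
    have h5 : (star T x).card ≠ 4 := fun hc => hx2 (ww_mem.2 ⟨hc, hin⟩)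
    have h6 : (star T x).card ≠ 6 := hcon x hxB hx2 hin
    omega
  have hsub := ww_sub_inV hR
  have hcard := tet_card h hN hR hex hbl
  have hE := hR.toReg0.edge_count h
  have hEu := hR.toReg0.euler h
  have hS := hR.toReg0.star_sum h
  have hsplit : ∑ x ∈ inV D B, (star T x).card =
      ∑ x ∈ inV D B \ WW T D, (star T x).card + ∑ x ∈ WW T D, (star T x).card :=
    (Finset.sum_sdiff hsub).symm
  have hW : ∑ x ∈ WW T D, (star T x).card = 4 * (WW T D).card := by
    rw [Finset.sum_congr rfl fun v hv => (ww_mem.1 hv).1, Finset.sum_const, smul_eq_mul, mul_comm]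
  have hM : 8 * (inV D B \ WW T D).card ≤ ∑ x ∈ inV D B \ WW T D, (star T x).card := by
    have := Finset.card_nsmul_le_sum (inV D B \ WW T D) (fun x => (star T x).card) 8 h8
    rw [smul_eq_mul] at this
    linarith
  have hB : 3 * B.card ≤ ∑ b ∈ B, (star D b).card := by
    have := Finset.card_nsmul_le_sum B (fun x => (star D x).card) 3 (fun b hb => (hR.corn b hb).1)
    rw [smul_eq_mul] at this
    linarith
  have hI : (inV D B).card = (inV D B \ WW T D).card + (WW T D).card :=
    (Finset.card_sdiff_add_card_eq_card hsub).symm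
  have h34 := hR.size34
  generalize (inV D B \ WW T D).card = m at *
  generalize (WW T D).card = a at *
  generalize B.card = β at *
  generalize (edges D).card = E at *
  generalize D.card = dd at *
  generalize (inV D B).card = ii at *
  generalize ∑ b ∈ B, (star D b).card = s1 at *
  generalize ∑ x ∈ inV D B \ WW T D, (star T x).card = s2 at *
  generalize ∑ x ∈ inV D B, (star T x).card = s3 at *
  generalize ∑ x ∈ WW T D, (star T x).card = s4 at *
  omega

theorem tet_main {T : Finset (Finset V)} (h : Sph T) (hF : Fac3 T) (h10 : 10 ≤ T.card)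
    {F₀ : Finset V} (hN : NoT4 T F₀) {D : Finset (Finset V)} {B : Finset V}
    (hR : Reg T F₀ D B) (hex : ∃ v, (star T v).card = 4 ∧ star T v ⊆ D) (hbl : Blk T D B) :
    ∃ o p v w : V, v ≠ w ∧ ({o, p, v} : Finset V) ∈ T ∧ ({o, p, w} : Finset V) ∈ T ∧
      (star T v).card = 4 ∧ (star T w).card = 4 ∧ (star T p).card = 6 ∧ p ∉ B ∧
      star T p ⊆ D ∧ star T v ⊆ D ∧ star T w ⊆ D ∧ ({v, w} : Finset V) ∉ edges T ∧
      12 ≤ T.card := by
  classical
  obtain ⟨p, hpB, hpW, hpD, hp6⟩ := tet_six h hF h10 hN hR hex hbl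
  have h12 : 12 ≤ T.card := by
    have hev := tet_even h hN hR hex hbl hpW
    rw [star_eq_of_sub hR.sub hpD, hp6] at hev
    have h1 : ((WW T D).filter (fun v => ({v, p} : Finset V) ∈ edges T)).card ≤ (WW T D).card :=
      Finset.card_filter_le _ _
    have h2 := tet_card h hN hR hex hbl
    have h3 := Finset.card_le_card hR.sub
    omega
  have hpne : (star T p).Nonempty := by
    rw [← Finset.card_pos, hp6]
    norm_num
  obtain ⟨t, ht⟩ := hpne
  have htD := hpD ht
  have htT := (mem_star.1 ht).1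
  have hpt := (mem_star.1 ht).2
  obtain ⟨v, hvW, hvt⟩ := tet_cover h hR hex hbl t htD
  have hpv : p ≠ v := by rintro rfl; exact hpW hvW
  obtain ⟨o, hop, hov, hot, hteq⟩ := third_vertex (h.card3 t htT) hpv hpt hvt
  have hoW : o ∉ WW T D := fun hoW => hov (tet_unique hR.hF hN hR.nF htT hoW hvW hot hvt)
  have hopv : ({o, p, v} : Finset V) ∈ T := by
    have : ({o, p, v} : Finset V) = t := by
      rw [hteq]
      ext x
      simp only [Finset.mem_insert, Finset.mem_singleton]
      tauto
    rw [this]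
    exact htT
  have hedge : ({o, p} : Finset V) ∈ edges T := edge_of_tri htT hop hot hpt
  obtain ⟨w₁, w₂, hw12, h1o, h1p, h2o, h2p, -, ht1, ht2, hall⟩ := h.link_two hedge
  have key : ∀ w : V, w ≠ v → w ≠ o → w ≠ p → ({o, p, w} : Finset V) ∈ T →
      ∃ o p v w : V, v ≠ w ∧ ({o, p, v} : Finset V) ∈ T ∧ ({o, p, w} : Finset V) ∈ T ∧
      (star T v).card = 4 ∧ (star T w).card = 4 ∧ (star T p).card = 6 ∧ p ∉ B ∧
      star T p ⊆ D ∧ star T v ⊆ D ∧ star T w ⊆ D ∧ ({v, w} : Finset V) ∉ edges T ∧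
      12 ≤ T.card := by
    intro w hwv hwo hwp hw
    have hwD : ({o, p, w} : Finset V) ∈ D := hpD (mem_star.2 ⟨hw, by simp⟩)
    obtain ⟨z, hz, hzt⟩ := tet_cover h hR hex hbl _ hwD
    have hzw : z = w := by
      simp only [Finset.mem_insert, Finset.mem_singleton] at hzt
      rcases hzt with h1 | h1 | h1
      · rw [h1] at hz
        exact absurd hz hoW
      · rw [h1] at hz
        exact absurd hz hpW
      · exact h1
    rw [hzw] at hz
    refine ⟨o, p, v, w, hwv.symm, hopv, hw, (ww_mem.1 hvW).1, (ww_mem.1 hz).1, hp6, hpB, hpD,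
      (ww_mem.1 hvW).2, (ww_mem.1 hz).2, ?_, h12⟩
    intro he
    exact hN v w hwv.symm (ww_notF hR.hF hR.nF hvW) (ww_notF hR.hF hR.nF hz) he (ww_mem.1 hvW).1
      (ww_mem.1 hz).1
  by_cases h1v : w₁ = v
  · exact key w₂ (fun hc => hw12 (h1v.trans hc.symm)) h2o h2p ht2
  · exact key w₁ h1v h1o h1p ht1

end Pool.Agent.Spl2
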