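import Pool.Agent.Spl2.SphEx
import Pool.Agent.Spl2.SphTet
import Pool.Agent.Spl2.SphD3
import Pool.Agent.Spl2.SphT4

/-!
# The reduction theorem

`comb`: a triangulated sphere with at least `10` triangles in which every 3-cycle is a triangle has one of the
reductions `T4`, `F3`, `D3` (which keep the given triangle `F₀`), and the reduced complex is again such a
sphere with at least `8` triangles.
-/

set_option autoImplicit false

namespace Pool.Agent.Spl2

open Finset Pool.Agent.Spl1

variable {V : Type*} [Fintype V] [DecidableEq V]

/-- the result of a reduction -/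
structure Good' (T T' : Finset (Finset V)) (F₀ : Finset V) (S : Finset V) (o : V) : Prop where
  sph : Sph T'
  fac : Fac3 T'
  mem : F₀ ∈ T'
  eight : 8 ≤ T'.card
  lt : T'.card < T.card
  rel : EdgeRel T T' S o

/-- reduction `T4`: `v₁` is moved to `v₂`; both have degree `4` -/
def RedT4 (T T' : Finset (Finset V)) (F₀ : Finset V) : Prop :=
  ∃ v₁ v₂ : V, v₁ ≠ v₂ ∧ v₁ ∉ F₀ ∧ v₂ ∉ F₀ ∧ ({v₁, v₂} : Finset V) ∈ edges T ∧
    (star T v₁).card = 4 ∧ (star T v₂).card = 4 ∧ Good' T T' F₀ {v₁} v₂

/-- reduction `F3`: `v₁, v₂` are moved to `o`, `{o, v₁, v₂}` is a triangle -/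
def RedF3 (T T' : Finset (Finset V)) (F₀ : Finset V) : Prop :=
  ∃ o v₁ v₂ : V, ({o, v₁, v₂} : Finset V) ∈ T ∧ v₁ ∉ F₀ ∧ v₂ ∉ F₀ ∧ Good' T T' F₀ {v₁, v₂} o

/-- reduction `D3`: `p` and the two apexes `v, w` (of degree `4`) of the edge `o p` are moved to `o`; `p` has
degree `6` -/
def RedD3 (T T' : Finset (Finset V)) (F₀ : Finset V) : Prop :=
  ∃ o p v w : V, v ≠ w ∧ p ∉ F₀ ∧ v ∉ F₀ ∧ w ∉ F₀ ∧ ({o, p, v} : Finset V) ∈ T ∧
    ({o, p, w} : Finset V) ∈ T ∧ (star T v).card = 4 ∧ (star T w).card = 4 ∧
    (star T p).card = 6 ∧ (star T o).card ≠ 4 ∧ ({v, w} : Finset V) ∉ edges T ∧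
    Good' T T' F₀ {p, v, w} o

theorem notMem_of_star {T D : Finset (Finset V)} {F₀ : Finset V} (hF₀ : F₀ ∈ T) (hn : F₀ ∉ D)
    {v : V} (h : star T v ⊆ D) : v ∉ F₀ := by
  intro hv
  exact hn (h (mem_star.2 ⟨hF₀, hv⟩))

theorem comb {T : Finset (Finset V)} (h : Sph T) (hF : Fac3 T) (h10 : 10 ≤ T.card)
    {F₀ : Finset V} (hF₀ : F₀ ∈ T) :
    ∃ T' : Finset (Finset V), RedT4 T T' F₀ ∨ RedF3 T T' F₀ ∨ RedD3 T T' F₀ := by
  by_cases hN : NoT4 T F₀
  · obtain ⟨D, B, hR⟩ := exists_reg h hF h10 hF₀ hN
    rcases reg_f3 h hF h10 hN hR with hc | ⟨hex, hbl⟩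
    · obtain ⟨o, v₁, v₂, h1, h2, h3, T', s1, s2, s3, s4, s5⟩ := hc
      refine ⟨T', Or.inr (Or.inl ⟨o, v₁, v₂, h1, h2, h3, s1, s2, s5, ?_, by omega, s4⟩)⟩
      exact s1.eight_le s2 (by omega)
    · obtain ⟨o, p, v, w, h1, h2, h3, h4, h5, h6, h7, h8, h9, h11, h12, h13⟩ :=
        tet_main h hF h10 hN hR hex hbl
      have hpF := notMem_of_star hF₀ hR.nF h8
      have hvF := notMem_of_star hF₀ hR.nF h9
      have hwF := notMem_of_star hF₀ hR.nF h11
      have hQ : ∀ y z : V, IsQ T o p z y →
          ({v, y, z} : Finset V) ∈ T ∨ ({w, y, z} : Finset V) ∈ T := by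
        intro y z hq
        have hne : (star D p).Nonempty := by
          refine ⟨{o, p, v}, mem_star.2 ⟨h8 (mem_star.2 ⟨h2, by simp⟩), by simp⟩⟩
        obtain ⟨x, x1, x2, x3⟩ := hR.c3 o p z y p hq (by simp) h7 hne
        -- the triangle of the star of `x` at an edge of its boundary
        have key : ∀ a b : V, ({a, b} : Finset V) ∈ qb o p z y → ({a, b, x} : Finset V) ∈ T := by
          intro a b hab
          rw [← x3] at hab
          have hab2 := (mem_bdry.1 hab)
          have hcard := hab2.1
          have habne : a ≠ b := by
            rintro rfl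
            simp at hcard
          have hxab : x ≠ a ∧ x ≠ b := by
            have hx0 : ∀ u : V, ({x, u} : Finset V) ∉ bdry (star T x) := by
              intro u hu
              rw [mem_bdry] at hu
              have hxu : x ≠ u := by
                rintro rfl
                simp at hu
              have e1 : tdeg (star T x) {x, u} = tdeg T {x, u} := by
                unfold tdeg
                congr 1
                ext t
                simp only [Finset.mem_filter, mem_star]
                constructor
                · rintro ⟨⟨a1, -⟩, a2⟩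
                  exact ⟨a1, a2⟩
                · rintro ⟨a1, a2⟩
                  exact ⟨⟨a1, a2 (by simp)⟩, a2⟩
              rw [e1] at hu
              have e2 : ({x, u} : Finset V) ∈ edges T := by
                rw [mem_edges]
                refine ⟨hu.1, ?_⟩
                have := hu.2.pos
                unfold tdeg at this
                obtain ⟨t, ht⟩ := Finset.card_pos.1 this
                rw [Finset.mem_filter] at ht
                exact ⟨t, ht⟩
              rw [h.two _ e2] at hu
              exact absurd hu.2 (by decide)
            constructor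
            · rintro rfl
              exact hx0 b hab
            · rintro rfl
              rw [Finset.pair_comm] at hab
              exact hx0 a hab
          have := hab2.2.pos
          unfold tdeg at this
          obtain ⟨t, ht⟩ := Finset.card_pos.1 this
          rw [Finset.mem_filter, mem_star] at ht
          obtain ⟨⟨t1, t2⟩, t3⟩ := ht
          have t4 : ({a, b, x} : Finset V) = t := by
            apply Finset.eq_of_subset_of_card_le
            · intro y hy
              simp only [Finset.mem_insert, Finset.mem_singleton] at hy
              rcases hy with rfl | rfl | rfl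
              · exact t3 (by simp)
              · exact t3 (by simp)
              · exact t2
            · rw [h.card3 t t1, Finset.card_eq_three.2
                ⟨a, b, x, habne, hxab.1.symm, hxab.2.symm, rfl⟩]
          rw [t4]
          exact t1
        have k1 := key o p (by simp [qb])
        have k2 := key z y (by simp [qb])
        obtain ⟨r, r', r1, r2, r3, r4, r5, r6, r7, r8, r9⟩ :=
          h.link_two (v := o) (u := p) (edge_of_tri h2 (fun e => by
            have := h.card3 _ h2
            rw [e] at this
            have h' : ({p, p, v} : Finset V).card ≤ 2 := by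
              have : ({p, p, v} : Finset V) = {p, v} := by simp
              rw [this]
              exact Finset.card_le_two
            omega) (by simp) (by simp))
        have hmem : ∀ u : V, ({o, p, u} : Finset V) ∈ T → u = r ∨ u = r' := by
          intro u hu
          have hu3 := h.card3 _ hu
          obtain ⟨a1, a2, a3⟩ := step_tri_ne hu3
          rcases r9 _ hu (by simp) (by simp) with hh | hh
          · left
            have : u ∈ ({o, p, r} : Finset V) := by rw [← hh]; simp
            simp only [Finset.mem_insert, Finset.mem_singleton] at this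
            rcases this with a4 | a4 | a4
            · exact absurd a4.symm a2
            · exact absurd a4.symm a3
            · exact a4
          · right
            have : u ∈ ({o, p, r'} : Finset V) := by rw [← hh]; simp
            simp only [Finset.mem_insert, Finset.mem_singleton] at this
            rcases this with a4 | a4 | a4
            · exact absurd a4.symm a2
            · exact absurd a4.symm a3
            · exact a4
        have hx : x = v ∨ x = w := by
          rcases hmem v h2 with a1 | a1 <;> rcases hmem w h3 with a2 | a2 <;>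
            rcases hmem x k1 with a3 | a3
          · exact absurd (a1.trans a2.symm) h1
          · exact absurd (a1.trans a2.symm) h1
          · exact Or.inl (a3.trans a1.symm)
          · exact Or.inr (a3.trans a2.symm)
          · exact Or.inr (a3.trans a2.symm)
          · exact Or.inl (a3.trans a1.symm)
          · exact absurd (a1.trans a2.symm) h1
          · exact absurd (a1.trans a2.symm) h1
        have hperm : ({x, y, z} : Finset V) ∈ T := by
          have : ({x, y, z} : Finset V) = {z, y, x} := by
            ext u
            simp only [Finset.mem_insert, Finset.mem_singleton]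
            tauto
          rw [this]
          exact k2
        rcases hx with rfl | rfl
        · exact Or.inl hperm
        · exact Or.inr hperm
      obtain ⟨T', s1, s2, s3, s4, s5⟩ := opp_ctr h hF h13 h1 h2 h3 h4 h5 h12 hQ
      have ho4 : (star T o).card ≠ 4 := by
        intro ho
        have htD : ({o, p, v} : Finset V) ∈ D := h8 (mem_star.2 ⟨h2, by simp⟩)
        have hne : (star D o).Nonempty := ⟨_, mem_star.2 ⟨htD, by simp⟩⟩
        have hoB : o ∉ B := by
          intro hoB
          have := (hR.corn o hoB).2.1
          omega
        have hoF := notMem_of_star hF₀ hR.nF (hR.toReg0.inn h hoB hne)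
        have hov : o ≠ v := by
          have := step_tri_ne (h.card3 _ h2)
          exact this.2.1
        exact hN o v hov hoF hvF (edge_of_tri h2 hov (by simp) (by simp)) ho h4
      refine ⟨T', Or.inr (Or.inr ⟨o, p, v, w, h1, hpF, hvF, hwF, h2, h3, h4, h5, h6, ho4, h12,
        s1, s2, s5 F₀ hF₀ hpF hvF hwF, ?_, by omega, s4⟩)⟩
      exact s1.eight_le s2 (by omega)
  · unfold NoT4 at hN
    push Not at hN
    obtain ⟨v, w, h1, h2, h3, h4, h5, h6⟩ := hN
    obtain ⟨T', s1, s2, s3, s4, s5⟩ := t4_ctr h hF h10 h4 h5 h6
    exact ⟨T', Or.inl ⟨v, w, h1, h2, h3, h4, h5, h6, s1, s2, s5 F₀ hF₀ h2, by omega, by omega,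
      s4⟩⟩

end Pool.Agent.Spl2
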