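import Pool.Agent.Spl2.SphDefs

/-!
# Connected links follow from `H1` and `H2`

Paper proof.  Let `S ⊆ star T v` be `LinkEven` at `v`, `S ≠ ∅`, `R = star T v \ S ≠ ∅`.
For every `u ≠ v` with `{v,u} ∈ edges T` the two triangles at `{v,u}` are both in `S` or both in `R`
(`two` and `LinkEven`).  Choose a triangle of `S` and a vertex `u₁ ≠ v` in it.
Let `Z` be the set of `u ≠ v` such that there is `P ⊆ edges T` all of whose edges avoid `v`, with
`oddv P = {u₁} ∆ {u}` (so `u₁ ∈ Z`, `P = ∅`).  If `u ∈ Z` and `{u,u'} ∈ edges T`, `u' ≠ v`, then `u' ∈ Z`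
(take `P ∆ {{u,u'}}`, `oddv_symm`).
Claim: there is a triangle of `R` which meets `Z`.  Let `D₁ = {t ∈ T | t meets Z}`.  If `{x,y}` is an edge
with `x, y ≠ v`, then `x ∈ Z ↔ y ∈ Z`; hence a triangle `t ∈ T` meets `Z` iff `t \ {v} ⊆ Z`, and every
edge of `T` has all its triangles in `D₁` or none (for `{x,y}`, `x, y ≠ v`: according to `x ∈ Z`; for
`{v,u}`: according to `u ∈ Z`).  So `bdry D₁ = ∅` (all `tdeg T e` are `0` or `2`), and `D₁ = T` by `H2`.
So there is `u₂ ∈ Z`, `u₂ ≠ v`, with `{v,u₂}` in a triangle of `R`; `u₂ ≠ u₁`; take `P` for `u₂` and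
`C = P ∪ {{v,u₁}, {v,u₂}}`; it is a cycle (`oddv C = ∅`) in `edges T`; `H1`: `C = bdry D`, `D ⊆ T`.
The set `S' = D ∩ S` satisfies: `tdeg S' {v,u}` is odd iff `u = u₁` (for `u` in the link of `S`:
`tdeg S' {v,u} = tdeg D {v,u}`, which is odd iff `{v,u} ∈ C`; for other `u` it is `0`).
But `∑_{u ≠ v} tdeg S' {v,u} = 2 |S'|` is even (each triangle of `S'` contains `v` and two other
vertices).  Contradiction.
-/

set_option autoImplicit false

namespace Pool.Agent.Spl2

open Finset Pool.Agent.Spl1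

variable {V : Type*} [Fintype V] [DecidableEq V]

private theorem oddv_single (e : Finset V) : oddv ({e} : Finset (Finset V)) = e := by
  ext x
  rw [mem_oddv]
  unfold vdeg
  rw [Finset.filter_singleton]
  by_cases h : x ∈ e
  · rw [if_pos h]
    simp [h]
  · rw [if_neg h]
    simp [h]

omit [Fintype V] in
private theorem pair_symm {a b : V} (h : a ≠ b) : ({a, b} : Finset V) = symmDiff {a} {b} := by
  ext x
  rw [Finset.mem_symmDiff]
  simp only [Finset.mem_insert, Finset.mem_singleton]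
  constructor
  · rintro (rfl | rfl)
    · exact Or.inl ⟨rfl, h⟩
    · exact Or.inr ⟨rfl, h.symm⟩
  · rintro (⟨h1, -⟩ | ⟨h1, -⟩)
    · exact Or.inl h1
    · exact Or.inr h1

omit [Fintype V] in
private theorem two_of_card {e : Finset V} (he : e.card = 2) (v : V) (hv : v ∈ e) :
    ∃ u, u ≠ v ∧ e = {v, u} := by
  obtain ⟨a, b, hab, rfl⟩ := Finset.card_eq_two.1 he
  simp only [Finset.mem_insert, Finset.mem_singleton] at hv
  rcases hv with rfl | rfl
  · exact ⟨b, hab.symm, rfl⟩
  · exact ⟨a, hab, Finset.pair_comm _ _⟩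

theorem conn_of {T : Finset (Finset V)} (h3 : ∀ t ∈ T, t.card = 3)
    (h2 : ∀ e ∈ edges T, tdeg T e = 2)
    (H1 : ∀ C ⊆ edges T, IsCyc C → ∃ D ⊆ T, bdry D = C)
    (H2 : ∀ D ⊆ T, bdry D = ∅ → D = ∅ ∨ D = T) (v : V) (S : Finset (Finset V))
    (hS : S ⊆ star T v) (hL : LinkEven S v) : S = ∅ ∨ S = star T v := by
  by_contra hcon
  rw [not_or] at hcon
  obtain ⟨hne, hnS⟩ := hcon
  have hST : ∀ t ∈ S, t ∈ T ∧ v ∈ t := fun t ht => mem_star.1 (hS ht)
  -- triangles at the same spoke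
  have hK : ∀ t ∈ S, ∀ t' ∈ T, ∀ u, u ≠ v → u ∈ t → v ∈ t' → u ∈ t' → t' ∈ S := by
    intro t ht t' ht' u huv hut hvt' hut'
    have he : ({v, u} : Finset V) ∈ edges T := edge_of_tri (hST t ht).1 huv.symm (hST t ht).2 hut
    have h1 : tdeg T {v, u} = 2 := h2 _ he
    have h3' : Even (tdeg S {v, u}) := hL u huv
    have hsub : S.filter (fun t => ({v, u} : Finset V) ⊆ t) ⊆
        T.filter (fun t => ({v, u} : Finset V) ⊆ t) :=
      Finset.filter_subset_filter _ fun t ht => (hST t ht).1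
    have hpos : 0 < tdeg S {v, u} := by
      unfold tdeg
      refine Finset.card_pos.2 ⟨t, Finset.mem_filter.2 ⟨ht, ?_⟩⟩
      intro x hx
      simp only [Finset.mem_insert, Finset.mem_singleton] at hx
      rcases hx with rfl | rfl
      · exact (hST t ht).2
      · exact hut
    have hle : 2 ≤ tdeg S {v, u} := by
      obtain ⟨k, hk⟩ := h3'
      omega
    have heq := Finset.eq_of_subset_of_card_le hsub (by
      unfold tdeg at h1 hle
      omega)
    have hmem : t' ∈ T.filter (fun t => ({v, u} : Finset V) ⊆ t) := by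
      refine Finset.mem_filter.2 ⟨ht', ?_⟩
      intro x hx
      simp only [Finset.mem_insert, Finset.mem_singleton] at hx
      rcases hx with rfl | rfl
      · exact hvt'
      · exact hut'
    rw [← heq] at hmem
    exact (Finset.mem_filter.1 hmem).1
  obtain ⟨t₁, ht₁⟩ := Finset.nonempty_iff_ne_empty.2 hne
  obtain ⟨u₁, hu₁, hu₁v⟩ : ∃ u ∈ t₁, u ≠ v := by
    have h4 : 0 < (t₁.erase v).card := by
      rw [Finset.card_erase_of_mem (hST t₁ ht₁).2, h3 t₁ (hST t₁ ht₁).1]
      norm_num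
    obtain ⟨u, hu⟩ := Finset.card_pos.1 h4
    exact ⟨u, Finset.mem_of_mem_erase hu, Finset.ne_of_mem_erase hu⟩
  obtain ⟨r, hrT, hrv, hrS⟩ : ∃ r ∈ T, v ∈ r ∧ r ∉ S := by
    by_contra hno
    push Not at hno
    exact hnS (Finset.Subset.antisymm hS fun t ht => hno t (mem_star.1 ht).1 (mem_star.1 ht).2)
  let Z : V → Prop := fun u => u ≠ v ∧ ∃ P ⊆ edges T, (∀ e ∈ P, v ∉ e) ∧ oddv P = symmDiff {u₁} {u}
  have hZ1 : Z u₁ := by
    refine ⟨hu₁v, ∅, Finset.empty_subset _, fun e he => absurd he (Finset.notMem_empty e), ?_⟩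
    rw [symmDiff_self]
    ext x
    rw [mem_oddv]
    simp [vdeg]
  have hZ2 : ∀ u u', Z u → ({u, u'} : Finset V) ∈ edges T → u' ≠ v → Z u' := by
    rintro u u' ⟨huv, P, hP, hPv, hPo⟩ he hu'v
    have hne' : u ≠ u' := edge_ne he
    refine ⟨hu'v, symmDiff P {{u, u'}}, ?_, ?_, ?_⟩
    · intro e he'
      rw [Finset.mem_symmDiff] at he'
      rcases he' with ⟨h, -⟩ | ⟨h, -⟩
      · exact hP h
      · rw [Finset.mem_singleton] at h
        rw [h]
        exact he
    · intro e he'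
      rw [Finset.mem_symmDiff] at he'
      rcases he' with ⟨h, -⟩ | ⟨h, -⟩
      · exact hPv e h
      · rw [Finset.mem_singleton] at h
        rw [h]
        simp only [Finset.mem_insert, Finset.mem_singleton, not_or]
        exact ⟨huv.symm, hu'v.symm⟩
    · rw [oddv_symm, hPo, oddv_single {u, u'}, pair_symm hne',
        symmDiff_assoc, symmDiff_symmDiff_cancel_left]
  classical
  have hb : bdry (T.filter (fun t => ∃ u ∈ t, Z u)) = ∅ := by
    rw [Finset.eq_empty_iff_forall_notMem]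
    intro e he
    rw [mem_bdry] at he
    obtain ⟨hec, hodd⟩ := he
    have hpos : 0 < tdeg (T.filter (fun t => ∃ u ∈ t, Z u)) e := hodd.pos
    unfold tdeg at hpos
    obtain ⟨t, ht⟩ := Finset.card_pos.1 hpos
    rw [Finset.mem_filter, Finset.mem_filter] at ht
    obtain ⟨⟨htT, u, hut, hZu⟩, het⟩ := ht
    have heT : e ∈ edges T := mem_edges.2 ⟨hec, t, htT, het⟩
    have hx : ∃ x ∈ e, x ≠ v := by
      obtain ⟨a, b, hab, rfl⟩ := Finset.card_eq_two.1 hec
      by_cases hav : a = v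
      · exact ⟨b, by simp, fun hbv => hab (hav.trans hbv.symm)⟩
      · exact ⟨a, by simp, hav⟩
    obtain ⟨x, hxe, hxv⟩ := hx
    have hZx : Z x := by
      by_cases hux : u = x
      · rw [← hux]
        exact hZu
      · exact hZ2 u x hZu (edge_of_tri htT hux hut (het hxe)) hxv
    have heq : (T.filter (fun t => ∃ u ∈ t, Z u)).filter (fun t => e ⊆ t) =
        T.filter (fun t => e ⊆ t) := by
      ext s
      simp only [Finset.mem_filter]
      constructor
      · rintro ⟨⟨h, -⟩, h'⟩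
        exact ⟨h, h'⟩
      · rintro ⟨h, h'⟩
        exact ⟨⟨h, x, h' hxe, hZx⟩, h'⟩
    have h6 : tdeg (T.filter (fun t => ∃ u ∈ t, Z u)) e = 2 := by
      rw [← h2 e heT]
      unfold tdeg
      rw [heq]
    rw [h6] at hodd
    exact absurd hodd (by decide)
  have hD : T.filter (fun t => ∃ u ∈ t, Z u) = T := by
    rcases H2 (T.filter (fun t => ∃ u ∈ t, Z u)) (Finset.filter_subset _ _) hb with h | h
    · exfalso
      have h5 : t₁ ∈ T.filter (fun t => ∃ u ∈ t, Z u) :=
        Finset.mem_filter.2 ⟨(hST t₁ ht₁).1, u₁, hu₁, hZ1⟩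
      rw [h] at h5
      exact absurd h5 (Finset.notMem_empty _)
    · exact h
  have hr' : r ∈ T.filter (fun t => ∃ u ∈ t, Z u) := by
    rw [hD]
    exact hrT
  rw [Finset.mem_filter] at hr'
  obtain ⟨-, u₂, hu₂r, hu₂v, P, hP, hPv, hPo⟩ := hr'
  have hu₂S : ∀ t ∈ S, u₂ ∉ t := fun t ht h => hrS (hK t ht r hrT u₂ hu₂v h hrv hu₂r)
  have hu12 : u₁ ≠ u₂ := fun h => hu₂S t₁ ht₁ (h ▸ hu₁)
  have he1 : ({v, u₁} : Finset V) ∈ edges T :=
    edge_of_tri (hST t₁ ht₁).1 hu₁v.symm (hST t₁ ht₁).2 hu₁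
  have he2 : ({v, u₂} : Finset V) ∈ edges T := edge_of_tri hrT hu₂v.symm hrv hu₂r
  have hCsub : symmDiff P (symmDiff {{v, u₁}} {{v, u₂}}) ⊆ edges T := by
    intro e he
    rw [Finset.mem_symmDiff, Finset.mem_symmDiff] at he
    rcases he with ⟨h, -⟩ | ⟨⟨h, -⟩ | ⟨h, -⟩, -⟩
    · exact hP h
    · rw [Finset.mem_singleton] at h
      rw [h]
      exact he1
    · rw [Finset.mem_singleton] at h
      rw [h]
      exact he2
  have hC : IsCyc (symmDiff P (symmDiff {{v, u₁}} {{v, u₂}})) := by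
    rw [isCyc_iff_oddv (fun e he => (mem_edges.1 (hCsub he)).1), oddv_symm, oddv_symm, hPo,
      oddv_single {v, u₁}, oddv_single {v, u₂},
      pair_symm hu₁v.symm, pair_symm hu₂v.symm]
    have h7 : symmDiff (symmDiff ({v} : Finset V) {u₁}) (symmDiff {v} {u₂}) =
        symmDiff {u₁} {u₂} := by
      rw [symmDiff_comm ({v} : Finset V) {u₁}, symmDiff_assoc, symmDiff_symmDiff_cancel_left]
    rw [h7, symmDiff_self]
    rfl
  obtain ⟨D, hDT, hbD⟩ := H1 _ hCsub hC
  have hodd : ∀ u, u ≠ v → (Odd (tdeg (D ∩ S) {v, u}) ↔ u = u₁) := by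
    intro u huv
    by_cases hin : ∃ t ∈ S, u ∈ t
    · obtain ⟨t, ht, hut⟩ := hin
      have h8 : tdeg (D ∩ S) {v, u} = tdeg D {v, u} := by
        unfold tdeg
        congr 1
        ext s
        simp only [Finset.mem_filter, Finset.mem_inter]
        constructor
        · rintro ⟨⟨h, -⟩, h'⟩
          exact ⟨h, h'⟩
        · rintro ⟨h, h'⟩
          exact ⟨⟨h, hK t ht s (hDT h) u huv hut (h' (by simp)) (h' (by simp))⟩, h'⟩
      have h9 : Odd (tdeg D {v, u}) ↔ ({v, u} : Finset V) ∈ bdry D := by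
        rw [mem_bdry]
        exact ⟨fun h => ⟨Finset.card_pair huv.symm, h⟩, fun h => h.2⟩
      have hinj : ∀ w, ({v, u} : Finset V) = {v, w} → u = w := by
        intro w hw
        have : u ∈ ({v, w} : Finset V) := by
          rw [← hw]
          simp
        simp only [Finset.mem_insert, Finset.mem_singleton] at this
        rcases this with h | h
        · exact absurd h huv
        · exact h
      have hu₂ : u ≠ u₂ := fun h => hu₂S t ht (h ▸ hut)
      rw [h8, h9, hbD, Finset.mem_symmDiff, Finset.mem_symmDiff]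
      simp only [Finset.mem_singleton]
      constructor
      · rintro (⟨h, -⟩ | ⟨⟨h, -⟩ | ⟨h, -⟩, -⟩)
        · exact absurd (by simp) (hPv _ h)
        · exact hinj _ h
        · exact absurd (hinj _ h) hu₂
      · rintro rfl
        refine Or.inr ⟨Or.inl ⟨rfl, fun h => hu₂ (hinj _ h)⟩, fun h => ?_⟩
        exact absurd (by simp) (hPv _ h)
    · have h10 : tdeg (D ∩ S) {v, u} = 0 := by
        unfold tdeg
        rw [Finset.card_eq_zero, Finset.eq_empty_iff_forall_notMem]
        intro s hs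
        rw [Finset.mem_filter, Finset.mem_inter] at hs
        exact hin ⟨s, hs.1.2, hs.2 (by simp)⟩
      rw [h10]
      constructor
      · intro h
        exact absurd h (by decide)
      · rintro rfl
        exact absurd ⟨t₁, ht₁, hu₁⟩ hin
  have hcyc : IsCyc (bdry (D ∩ S)) :=
    isCyc_bdry fun t ht => h3 t (hDT (Finset.mem_inter.1 ht).1)
  have heven := hcyc.2 v
  have hone : vdeg (bdry (D ∩ S)) v = 1 := by
    unfold vdeg
    rw [Finset.card_eq_one]
    refine ⟨{v, u₁}, ?_⟩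
    ext e
    rw [Finset.mem_filter, mem_bdry, Finset.mem_singleton]
    constructor
    · rintro ⟨⟨hec, ho⟩, hve⟩
      obtain ⟨u, huv, rfl⟩ := two_of_card hec v hve
      rw [(hodd u huv).1 ho]
    · rintro rfl
      exact ⟨⟨Finset.card_pair hu₁v.symm, (hodd u₁ hu₁v).2 rfl⟩, by simp⟩
  rw [hone] at heven
  exact absurd heven (by decide)

end Pool.Agent.Spl2
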