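import Pool.Agent.Spl2.SphDeg

/-!
# Contraction of an edge: triangles and edges

Paper proof.  `card3_ctr`: `insert o (t.erase v)` with `v ∈ t`, `o ∉ t`.
`ctr_card`: the triangles of `T` which contain `v` and `o` are exactly two (`two`); the map
`t ↦ t` (`v ∉ t`), `t ↦ insert o (t.erase v)` (`v ∈ t`, `o ∉ t`) is injective on the others: if
`{v,x,y}` and `{o,x,y}` are both in `T` (`x, y ≠ v, o`), then `{v,x}, {o,x}` are edges and so `{v,o,x} ∈ T`
(`LC`), similarly `{v,o,y} ∈ T`, and `k4` gives `|T| = 4`, contradiction.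
`edges_ctr`: `(→)` a triangle of `ctr T v o` which contains `x, y` does not contain `v`, it is in `T` or it is
`insert o (s.erase v)`; in the last case `x, y ∈ s`, or one of them is `o` and the other is in `s`.
`(←)` every edge of `T` is in two triangles (`Sph.link_two`): if `{x,y} ∈ edges T`, `x, y ≠ v`, choose one
which does not contain both `v` and `o`: if `x, y ≠ o` any triangle; if `x = o` the third vertex of one of
the two is not `v`.  If `x = o`, `{v,y} ∈ edges T`, `y ≠ o`: one of the two triangles at `{v,y}` does not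
contain `o`, its image contains `o, y`.
-/

set_option autoImplicit false

namespace Pool.Agent.Spl2

open Finset Pool.Agent.Spl1

variable {V : Type*} [Fintype V] [DecidableEq V]

theorem notMem_of_ctr {T : Finset (Finset V)} {v o : V} (hvo : v ≠ o) {t : Finset V}
    (ht : t ∈ ctr T v o) : v ∉ t := by
  rw [mem_ctr] at ht
  rcases ht with ⟨_, h⟩ | ⟨s, _, _, _, rfl⟩
  · exact h
  · simp [hvo]

theorem card3_ctr {T : Finset (Finset V)} (h3 : ∀ t ∈ T, t.card = 3) {v o : V} :
    ∀ t ∈ ctr T v o, t.card = 3 := by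
  intro t ht
  rw [mem_ctr] at ht
  rcases ht with ⟨h, _⟩ | ⟨s, hs, hv, ho, rfl⟩
  · exact h3 t h
  · rw [card_insert_of_notMem (fun h => ho (mem_of_mem_erase h)), card_erase_of_mem hv, h3 s hs]

theorem mem_ctr_of_mem {T : Finset (Finset V)} {v o : V} {t : Finset V} (ht : t ∈ T)
    (hv : v ∉ t) : t ∈ ctr T v o := by
  rw [mem_ctr]
  exact Or.inl ⟨ht, hv⟩

/-- the image of a triangle `{v,x,y}` -/
theorem mem_ctr_of_tri {T : Finset (Finset V)} {v o x y : V} (ht : ({v, x, y} : Finset V) ∈ T)
    (hvo : v ≠ o) (hvx : v ≠ x) (hvy : v ≠ y) (hox : o ≠ x) (hoy : o ≠ y) :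
    ({o, x, y} : Finset V) ∈ ctr T v o := by
  rw [mem_ctr]
  refine Or.inr ⟨{v, x, y}, ht, by simp, by simp [hvo.symm, hox, hoy], ?_⟩
  congr 1
  rw [erase_insert]
  simp [hvx, hvy]

/-- a triangle which contains `v`. -/
theorem ctr_exists_tri {V : Type*} [DecidableEq V] {t : Finset V} (ht : t.card = 3) {v : V} (hv : v ∈ t) :
    ∃ x y : V, x ≠ y ∧ v ≠ x ∧ v ≠ y ∧ t = {v, x, y} := by
  have h2 : (t.erase v).card = 2 := by rw [card_erase_of_mem hv, ht]
  obtain ⟨x, y, hxy, he⟩ := card_eq_two.mp h2
  refine ⟨x, y, hxy, ?_, ?_, ?_⟩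
  · rintro rfl
    have : v ∈ t.erase v := by rw [he]; simp
    simp at this
  · rintro rfl
    have : v ∈ t.erase v := by rw [he]; simp
    simp at this
  · rw [← insert_erase hv, he]

theorem ctr_card {T : Finset (Finset V)} (h : Sph T) {v o : V}
    (he : ({v, o} : Finset V) ∈ edges T) (hL : LC T v o) (h4 : 4 < T.card) :
    (ctr T v o).card + 2 = T.card := by
  have hvo := edge_ne he
  -- a triangle and its image are not both in the complex
  have key : ∀ t ∈ T, v ∈ t → o ∉ t → insert o (t.erase v) ∉ T := by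
    intro t ht hv ho ht'
    obtain ⟨x, y, hxy, hvx, hvy, rfl⟩ := ctr_exists_tri (h.card3 t ht) hv
    have hox : o ≠ x := by
      rintro rfl
      exact ho (by simp)
    have hoy : o ≠ y := by
      rintro rfl
      exact ho (by simp)
    have e1 : insert o (({v, x, y} : Finset V).erase v) = {o, x, y} := by
      congr 1
      rw [erase_insert]
      simp [hvx, hvy]
    rw [e1] at ht'
    have h1 : ({v, o, x} : Finset V) ∈ T :=
      hL x hvx.symm hox.symm (edge_of_tri ht hvx (by simp) (by simp))
        (edge_of_tri ht' hox (by simp) (by simp))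
    have h2 : ({v, o, y} : Finset V) ∈ T :=
      hL y hvy.symm hoy.symm (edge_of_tri ht hvy (by simp) (by simp))
        (edge_of_tri ht' hoy (by simp) (by simp))
    have e3 : ({v, y, o} : Finset V) = {v, o, y} := by rw [pair_comm y o]
    have e4 : ({v, x, o} : Finset V) = {v, o, x} := by rw [pair_comm x o]
    have e5 : ({x, y, o} : Finset V) = {o, x, y} := by
      ext z
      simp only [mem_insert, mem_singleton]
      tauto
    have := h.k4 hvx hvy hvo hxy hoy.symm hox.symm ht (by rw [e3]; exact h2)
      (by rw [e4]; exact h1) (by rw [e5]; exact ht')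
    omega
  have hdis : Disjoint (T.filter (fun t => v ∉ t))
      ((T.filter (fun t => v ∈ t ∧ o ∉ t)).image (fun t => insert o (t.erase v))) := by
    rw [disjoint_left]
    intro t ht ht'
    rw [mem_image] at ht'
    obtain ⟨s, hs, rfl⟩ := ht'
    rw [mem_filter] at hs ht
    exact key s hs.1 hs.2.1 hs.2.2 ht.1
  have hinj : Set.InjOn (fun t : Finset V => insert o (t.erase v))
      (T.filter (fun t => v ∈ t ∧ o ∉ t) : Finset (Finset V)) := by
    intro s hs t ht hst
    rw [mem_coe, mem_filter] at hs ht
    have hst' : insert o (s.erase v) = insert o (t.erase v) := hst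
    have h1 : s.erase v = t.erase v := by
      have h2 := congrArg (fun r => Finset.erase r o) hst'
      rwa [erase_insert (fun hh => hs.2.2 (mem_of_mem_erase hh)),
        erase_insert (fun hh => ht.2.2 (mem_of_mem_erase hh))] at h2
    rw [← insert_erase hs.2.1, ← insert_erase ht.2.1, h1]
  have hc : (ctr T v o).card = (T.filter (fun t => v ∉ t)).card +
      (T.filter (fun t => v ∈ t ∧ o ∉ t)).card := by
    unfold ctr
    rw [card_union_of_disjoint hdis, card_image_of_injOn hinj]
  have h2 : (T.filter (fun t => v ∈ t ∧ o ∈ t)).card = 2 := by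
    have h3 := h.two _ he
    unfold tdeg at h3
    rw [← h3]
    congr 1
    apply filter_congr
    intro t _
    constructor
    · rintro ⟨h5, h6⟩ z hz
      simp only [mem_insert, mem_singleton] at hz
      rcases hz with rfl | rfl
      · exact h5
      · exact h6
    · intro h5
      exact ⟨h5 (by simp), h5 (by simp)⟩
  have h5 : T.card = (T.filter (fun t => v ∈ t)).card + (T.filter (fun t => v ∉ t)).card :=
    (card_filter_add_card_filter_not (s := T) (fun t => v ∈ t)).symm
  have h6 : (T.filter (fun t => v ∈ t)).card = (T.filter (fun t => v ∈ t ∧ o ∈ t)).card +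
      (T.filter (fun t => v ∈ t ∧ o ∉ t)).card := by
    have := card_filter_add_card_filter_not (s := T.filter (fun t => v ∈ t)) (fun t => o ∈ t)
    rw [filter_filter, filter_filter] at this
    exact this.symm
  omega

theorem edges_ctr {T : Finset (Finset V)} (h : Sph T) {v o : V} (hvo : v ≠ o) :
    EdgeRel T (ctr T v o) {v} o := by
  intro x y hxy
  simp only [mem_singleton, exists_eq_left]
  constructor
  · intro he
    rw [mem_edges] at he
    obtain ⟨_, t, ht, hsub⟩ := he
    have hv := notMem_of_ctr hvo ht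
    have hx : x ∈ t := hsub (by simp)
    have hy : y ∈ t := hsub (by simp)
    have hxv : x ≠ v := by
      rintro rfl
      exact hv hx
    have hyv : y ≠ v := by
      rintro rfl
      exact hv hy
    refine ⟨hxv, hyv, ?_⟩
    rw [mem_ctr] at ht
    rcases ht with ⟨ht, _⟩ | ⟨s, hs, hvs, hos, rfl⟩
    · exact Or.inl (edge_of_tri ht hxy hx hy)
    · simp only [mem_insert, mem_erase] at hx hy
      rcases hx with rfl | ⟨_, hx⟩
      · rcases hy with rfl | ⟨_, hy⟩
        · exact absurd rfl hxy
        · exact Or.inr (Or.inl ⟨rfl, edge_of_tri hs hyv.symm hvs hy⟩)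
      · rcases hy with rfl | ⟨_, hy⟩
        · exact Or.inr (Or.inr ⟨rfl, edge_of_tri hs hxv.symm hvs hx⟩)
        · exact Or.inl (edge_of_tri hs hxy hx hy)
  · rintro ⟨hxv, hyv, hE⟩
    -- images of triangles at `v`
    have aux : ∀ z : V, z ≠ v → z ≠ o → ({v, z} : Finset V) ∈ edges T →
        ({o, z} : Finset V) ∈ edges (ctr T v o) := by
      intro z hzv hzo hvz
      obtain ⟨w, w', hww, hwv, hwz, hwv', hwz', _, ht, ht', _⟩ := h.link_two hvz
      by_cases hwo : w = o
      · have hwo' : w' ≠ o := fun h' => hww (hwo.trans h'.symm)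
        exact edge_of_tri (mem_ctr_of_tri ht' hvo hzv.symm hwv'.symm hzo.symm hwo'.symm) hzo.symm
          (by simp) (by simp)
      · exact edge_of_tri (mem_ctr_of_tri ht hvo hzv.symm hwv.symm hzo.symm (Ne.symm hwo)) hzo.symm
          (by simp) (by simp)
    rcases hE with hE | ⟨rfl, hE⟩ | ⟨rfl, hE⟩
    · obtain ⟨w, w', hww, hwx, hwy, hwx', hwy', _, ht, ht', _⟩ := h.link_two hE
      by_cases hwv : w = v
      · subst hwv
        -- the other triangle does not contain `v`
        have hw'v : w ∉ ({x, y, w'} : Finset V) := by simp [hwx, hwy, hww]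
        exact edge_of_tri (mem_ctr_of_mem ht' hw'v) hxy (by simp) (by simp)
      · have hw'v : v ∉ ({x, y, w} : Finset V) := by
          simp [Ne.symm hxv, Ne.symm hyv, Ne.symm hwv]
        exact edge_of_tri (mem_ctr_of_mem ht hw'v) hxy (by simp) (by simp)
    · exact aux y hyv hxy.symm hE
    · exact edge_swap (aux x hxv hxy hE)

/-- `Fac3` gives the link condition for every edge -/
theorem Fac3.lc {T : Finset (Finset V)} (hF : Fac3 T) {v o : V}
    (he : ({v, o} : Finset V) ∈ edges T) : LC T v o := by
  intro x hxv hxo h1 h2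
  exact hF v o x (edge_ne he) hxo.symm hxv.symm he h2 h1

end Pool.Agent.Spl2
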