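import Pool.Agent.Spl2.SphLift
import Pool.Agent.Spl2.SphConn

/-!
# Contraction of an edge of a triangulated sphere

Let `T' = ctr T v o`, `a, b` the two apexes of the edge `v o` (`apex`).

Paper proof.  `two`: `e = {x,y}` with `x, y ≠ v, o`: `tdeg T' e = tdeg (nd T) e = tdeg T e` (`tdeg_lft` for
`D' = T'`, `lft T v o T' = nd T v o`, `tdeg_nd`), and `e ∈ edges T` (`edges_ctr`).  `e = {o,x}`:
`tdeg T' e = tdeg (nd T) {o,x} + tdeg (nd T) {v,x}`; if `x = a` or `b` this is `(2 - 1) + (2 - 1)`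
(`tdeg_nd_o`); otherwise exactly one of `{o,x}`, `{v,x}` is an edge of `T` (`edges_ctr`, `apex`), it has
`tdeg` `2` and the other `0`, and `{v,o,x} ∉ T`.
`H1`: `C' ⊆ edges T'` even.  Let `C₀` be the set of the `e ∈ C'` with `o ∉ e`, the `{o,x}` with
`{o,x} ∈ C'`, `{o,x} ∈ edges T`, and the `{v,x}` with `{o,x} ∈ C'`, `{o,x} ∉ edges T` (then
`{v,x} ∈ edges T` by `edges_ctr`).  For `x ≠ v, o` the degree of `x` in `C₀` is its degree in `C'`, and
`vdeg C₀ o + vdeg C₀ v = vdeg C' o` is even.  If both are even let `C = C₀`, if both are odd let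
`C = C₀ ∪ {{v,o}}`.  `C ⊆ edges T` is even; `H1` for `T`: `D ⊆ T`, `bdry D = C`.  Let
`D' = (nd D v o).image (fo v o) ⊆ T'`.  For `x, y ≠ v, o`: `tdeg D' {x,y} = tdeg D {x,y}` (`lft_image`,
`tdeg_lft`, `tdeg_nd`), and `tdeg D' {o,x} ≡ tdeg D {o,x} + tdeg D {v,x}` mod 2 (`tdeg_nd_o`), which is odd
iff exactly one of `{o,x}, {v,x}` is in `C`, iff `{o,x} ∈ C'` (they are not both in `C`).
Edges at `v`: `tdeg_ctr_v`, and `C'` has no edge at `v`.
`H2`: `D' ⊆ T'`, `bdry D' = ∅`.  `D₀ = lft T v o D'`; let `D` be `D₀` together with `{v,o,a}` if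
`tdeg D₀ {o,a}` is odd and `{v,o,b}` if `tdeg D₀ {o,b}` is odd.  Then `tdeg D e` is even for all `e ≠ {v,o}`:
`x, y ≠ v, o`: `= tdeg D' e`; `{o,x}` and `{v,x}` with `x ≠ a, b`: the sum is even and one of them is not an
edge of `T`; `{o,a}`: by construction, `{v,a}`: `tdeg D₀ {v,a} ≡ tdeg D₀ {o,a}`.  So
`bdry D ⊆ {{v,o}}`, and it is a cycle (`isCyc_bdry`), so it is `∅` (`three_le_card_of_isCyc`);
`D = ∅` or `D = T`, so `D₀ = ∅` or `D₀ = nd T`, and `D' = ∅` or `D' = T'` (`image_lft`).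
`conn`: `conn_of`.
-/

set_option autoImplicit false

namespace Pool.Agent.Spl2

open Finset Pool.Agent.Spl1

variable {V : Type*} [Fintype V] [DecidableEq V]

/-- kinds of pairs -/
theorem ctrh_pair {e : Finset V} (he : e.card = 2) {v o : V} (_hvo : v ≠ o) :
    (∃ x, x ≠ v ∧ e = {v, x}) ∨ (∃ x, x ≠ v ∧ x ≠ o ∧ e = {o, x}) ∨
      (∃ x y, x ≠ y ∧ x ≠ v ∧ x ≠ o ∧ y ≠ v ∧ y ≠ o ∧ e = {x, y}) := by
  obtain ⟨x, y, hxy, rfl⟩ := card_eq_two.1 he
  by_cases h1 : x = v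
  · subst h1
    exact Or.inl ⟨y, hxy.symm, rfl⟩
  by_cases h2 : y = v
  · subst h2
    exact Or.inl ⟨x, hxy, pair_comm x y⟩
  by_cases h3 : x = o
  · subst h3
    exact Or.inr (Or.inl ⟨y, h2, hxy.symm, rfl⟩)
  by_cases h4 : y = o
  · subst h4
    exact Or.inr (Or.inl ⟨x, h1, hxy, pair_comm x y⟩)
  exact Or.inr (Or.inr ⟨x, y, hxy, h1, h3, h2, h4, rfl⟩)

theorem ctrh_tdeg_zero {T D : Finset (Finset V)} (hD : D ⊆ T) {x y : V} (hxy : x ≠ y)
    (h : ({x, y} : Finset V) ∉ edges T) : tdeg D {x, y} = 0 := by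
  unfold tdeg
  rw [card_eq_zero, filter_eq_empty_iff]
  intro t ht hs
  exact h (mem_edges.2 ⟨card_pair hxy, t, hD ht, hs⟩)

theorem ctrh_nd_sub (D : Finset (Finset V)) (v o : V) : nd D v o ⊆ D := filter_subset _ _

theorem ctrh_mem_nd {D : Finset (Finset V)} {v o : V} {t : Finset V} :
    t ∈ nd D v o ↔ t ∈ D ∧ ¬ (v ∈ t ∧ o ∈ t) := by
  unfold nd
  rw [mem_filter]

theorem ctrh_lft_ctr (T : Finset (Finset V)) (v o : V) : lft T v o (ctr T v o) = nd T v o := by
  unfold lft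
  rw [filter_eq_self]
  intro t ht
  rw [ctr_eq]
  exact mem_image_of_mem _ ht

theorem ctrh_image_sub {T D : Finset (Finset V)} (hD : D ⊆ T) (v o : V) :
    (nd D v o).image (fo v o) ⊆ ctr T v o := by
  rw [ctr_eq]
  apply image_subset_image
  intro t ht
  rw [ctrh_mem_nd] at ht ⊢
  exact ⟨hD ht.1, ht.2⟩

/-- edges of the contraction do not contain `v` -/
theorem ctrh_notMem {T : Finset (Finset V)} {v o : V} (hvo : v ≠ o) {e : Finset V}
    (he : e ∈ edges (ctr T v o)) : v ∉ e := by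
  rw [mem_edges] at he
  obtain ⟨_, t, ht, hs⟩ := he
  exact fun h => notMem_of_ctr hvo ht (hs h)

theorem ctrh_edge {T : Finset (Finset V)} (h : Sph T) {v o : V} (hvo : v ≠ o) {x y : V}
    (hxy : x ≠ y) (hxo : x ≠ o) (hyo : y ≠ o)
    (he : ({x, y} : Finset V) ∈ edges (ctr T v o)) : ({x, y} : Finset V) ∈ edges T := by
  have h1 := (edges_ctr h hvo x y hxy).1 he
  rcases h1.2.2 with h2 | ⟨h2, _⟩ | ⟨h2, _⟩
  · exact h2
  · exact absurd h2 hxo
  · exact absurd h2 hyo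

theorem ctrh_edge_o {T : Finset (Finset V)} (h : Sph T) {v o : V} (hvo : v ≠ o) {x : V}
    (hxo : x ≠ o) (he : ({o, x} : Finset V) ∈ edges (ctr T v o)) :
    ({o, x} : Finset V) ∈ edges T ∨ ({v, x} : Finset V) ∈ edges T := by
  have h1 := (edges_ctr h hvo o x hxo.symm).1 he
  rcases h1.2.2 with h2 | ⟨_, s, hs, h2⟩ | ⟨h2, _⟩
  · exact Or.inl h2
  · rw [mem_singleton] at hs
    subst hs
    exact Or.inr h2
  · exact absurd h2 hxo

theorem ctr_two {T : Finset (Finset V)} (h : Sph T) {v o : V}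
    (he : ({v, o} : Finset V) ∈ edges T) (hL : LC T v o) (h4 : 4 < T.card) :
    ∀ e ∈ edges (ctr T v o), tdeg (ctr T v o) e = 2 := by
  have hvo := edge_ne he
  intro e hee
  have hve := ctrh_notMem hvo hee
  rcases ctrh_pair (mem_edges.1 hee).1 hvo with ⟨x, _, rfl⟩ | ⟨x, hxv, hxo, rfl⟩ |
    ⟨x, y, hxy, hxv, hxo, hyv, hyo, rfl⟩
  · exact absurd (mem_insert_self _ _) hve
  · rw [tdeg_lft_o h he hL h4 (Subset.refl _) hxv hxo, ctrh_lft_ctr]
    obtain ⟨h1, h2⟩ := tdeg_nd_o h.card3 hvo hxv hxo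
    by_cases ht : ({v, o, x} : Finset V) ∈ T
    · rw [if_pos ht] at h1 h2
      have h3 := h.two _ (edge_of_tri ht hxo.symm (by simp) (by simp))
      have h5 := h.two _ (edge_of_tri ht hxv.symm (by simp) (by simp))
      omega
    · rw [if_neg ht] at h1 h2
      rcases ctrh_edge_o h hvo hxo hee with h3 | h3
      · have h5 := h.two _ h3
        have h6 : ({v, x} : Finset V) ∉ edges T := fun h7 => ht (hL x hxv hxo h7 h3)
        have h7 := ctrh_tdeg_zero (Subset.refl T) hxv.symm h6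
        omega
      · have h5 := h.two _ h3
        have h6 : ({o, x} : Finset V) ∉ edges T := fun h7 => ht (hL x hxv hxo h3 h7)
        have h7 := ctrh_tdeg_zero (Subset.refl T) hxo.symm h6
        omega
  · rw [tdeg_lft h he hL h4 (Subset.refl _) hxv hxo hyv hyo, ctrh_lft_ctr,
      tdeg_nd h.card3 hvo hxy hxv hxo hyv hyo]
    exact h.two _ (ctrh_edge h hvo hxy hxo hyo hee)

/-- the triangles `{v,o,x}`, `x ∈ X` -/
def ctrhD (X : Finset V) (v o : V) : Finset (Finset V) := X.image (fun x => ({v, o, x} : Finset V))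

theorem ctrhD_card3 {X : Finset V} {v o : V} (hvo : v ≠ o) (hX : ∀ x ∈ X, x ≠ v ∧ x ≠ o) :
    ∀ t ∈ ctrhD X v o, t.card = 3 := by
  intro t ht
  unfold ctrhD at ht
  rw [mem_image] at ht
  obtain ⟨x, hx, rfl⟩ := ht
  rw [card_eq_three]
  exact ⟨v, o, x, hvo, (hX x hx).1.symm, (hX x hx).2.symm, rfl⟩

theorem ctrhD_mem {X : Finset V} {v o : V} {t : Finset V} (ht : t ∈ ctrhD X v o) :
    v ∈ t ∧ o ∈ t := by
  unfold ctrhD at ht
  rw [mem_image] at ht
  obtain ⟨x, _, rfl⟩ := ht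
  simp

theorem ctrhD_tdeg {X : Finset V} {v o : V} {u x : V} (hu : u = v ∨ u = o) (hxv : x ≠ v)
    (hxo : x ≠ o) : Odd (tdeg (ctrhD X v o) {u, x}) ↔ x ∈ X := by
  unfold tdeg
  have h1 : (ctrhD X v o).filter (fun t => ({u, x} : Finset V) ⊆ t) =
      if x ∈ X then {({v, o, x} : Finset V)} else ∅ := by
    ext t
    rw [mem_filter]
    unfold ctrhD
    rw [mem_image]
    constructor
    · rintro ⟨⟨z, hz, rfl⟩, hs⟩
      have h2 : x ∈ ({v, o, z} : Finset V) := hs (by simp)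
      simp only [mem_insert, mem_singleton] at h2
      rcases h2 with h2 | h2 | h2
      · exact absurd h2 hxv
      · exact absurd h2 hxo
      · subst h2
        rw [if_pos hz]
        exact mem_singleton_self _
    · intro h2
      by_cases hx : x ∈ X
      · rw [if_pos hx, mem_singleton] at h2
        subst h2
        refine ⟨⟨x, hx, rfl⟩, ?_⟩
        intro z hz
        simp only [mem_insert, mem_singleton] at hz ⊢
        rcases hz with rfl | rfl
        · rcases hu with rfl | rfl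
          · exact Or.inl rfl
          · exact Or.inr (Or.inl rfl)
        · exact Or.inr (Or.inr rfl)
      · rw [if_neg hx] at h2
        simp at h2
  rw [h1]
  by_cases hx : x ∈ X
  · simp [hx]
  · simp [hx]

theorem ctrhD_tdeg0 {X : Finset V} {v o : V} {x y : V} (hxy : x ≠ y) (hxv : x ≠ v)
    (hxo : x ≠ o) (hyv : y ≠ v) (hyo : y ≠ o) : ¬ Odd (tdeg (ctrhD X v o) {x, y}) := by
  unfold tdeg
  have h1 : (ctrhD X v o).filter (fun t => ({x, y} : Finset V) ⊆ t) = ∅ := by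
    rw [filter_eq_empty_iff]
    intro t ht hs
    unfold ctrhD at ht
    rw [mem_image] at ht
    obtain ⟨z, hz, rfl⟩ := ht
    have h2 : x ∈ ({v, o, z} : Finset V) := hs (by simp)
    have h3 : y ∈ ({v, o, z} : Finset V) := hs (by simp)
    simp only [mem_insert, mem_singleton] at h2 h3
    have h4 : x = z := by tauto
    have h5 : y = z := by tauto
    exact hxy (h4.trans h5.symm)
  rw [h1]
  simp

theorem ctr_H1 {T : Finset (Finset V)} (h : Sph T) {v o : V}
    (he : ({v, o} : Finset V) ∈ edges T) (hL : LC T v o) (h4 : 4 < T.card) :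
    ∀ C ⊆ edges (ctr T v o), IsCyc C → ∃ D ⊆ ctr T v o, bdry D = C := by
  have hvo := edge_ne he
  intro C hC hcyc
  set X : Finset V := univ.filter (fun x => x ≠ v ∧ x ≠ o ∧ ({o, x} : Finset V) ∈ C ∧
    ({o, x} : Finset V) ∉ edges T) with hX
  have hmX : ∀ x, x ∈ X ↔ x ≠ v ∧ x ≠ o ∧ ({o, x} : Finset V) ∈ C ∧
      ({o, x} : Finset V) ∉ edges T := by
    intro x
    rw [hX, mem_filter]
    simp
  have hX2 : ∀ x ∈ X, x ≠ v ∧ x ≠ o := fun x hx => ⟨((hmX x).1 hx).1, ((hmX x).1 hx).2.1⟩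
  set C₁ : Finset (Finset V) := symmDiff C (bdry (ctrhD X v o)) with hC1
  have hcyc1 : IsCyc C₁ := isCyc_symm hcyc (isCyc_bdry (ctrhD_card3 hvo hX2))
  have hv : ∀ x, ({v, x} : Finset V) ∉ C := fun x hx =>
    ctrh_notMem hvo (hC hx) (by simp)
  have m1 : ∀ x, x ≠ v → x ≠ o → (({o, x} : Finset V) ∈ C₁ ↔
      ({o, x} : Finset V) ∈ C ∧ ({o, x} : Finset V) ∈ edges T) := by
    intro x hxv hxo
    have h1 : ({o, x} : Finset V) ∈ bdry (ctrhD X v o) ↔ x ∈ X := by
      rw [mem_bdry, ctrhD_tdeg (Or.inr rfl) hxv hxo]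
      exact ⟨fun hh => hh.2, fun hh => ⟨card_pair hxo.symm, hh⟩⟩
    rw [hC1, mem_symmDiff, h1, hmX]
    tauto
  have m2 : ∀ x, x ≠ v → x ≠ o → (({v, x} : Finset V) ∈ C₁ ↔
      ({o, x} : Finset V) ∈ C ∧ ({o, x} : Finset V) ∉ edges T) := by
    intro x hxv hxo
    have h1 : ({v, x} : Finset V) ∈ bdry (ctrhD X v o) ↔ x ∈ X := by
      rw [mem_bdry, ctrhD_tdeg (Or.inl rfl) hxv hxo]
      exact ⟨fun hh => hh.2, fun hh => ⟨card_pair hxv.symm, hh⟩⟩
    have h2 := hv x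
    rw [hC1, mem_symmDiff, h1, hmX]
    tauto
  have m3 : ∀ x y, x ≠ y → x ≠ v → x ≠ o → y ≠ v → y ≠ o → (({x, y} : Finset V) ∈ C₁ ↔
      ({x, y} : Finset V) ∈ C) := by
    intro x y hxy hxv hxo hyv hyo
    have h1 : ({x, y} : Finset V) ∉ bdry (ctrhD X v o) := by
      rw [mem_bdry]
      exact fun hh => ctrhD_tdeg0 hxy hxv hxo hyv hyo hh.2
    rw [hC1, mem_symmDiff]
    tauto
  have hsub : C₁ ⊆ edges T := by
    intro e hee
    rcases ctrh_pair (hcyc1.1 e hee) hvo with ⟨x, hxv, rfl⟩ | ⟨x, hxv, hxo, rfl⟩ |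
      ⟨x, y, hxy, hxv, hxo, hyv, hyo, rfl⟩
    · by_cases hxo : x = o
      · subst hxo
        exact he
      · obtain ⟨h1, h2⟩ := (m2 x hxv hxo).1 hee
        rcases ctrh_edge_o h hvo hxo (hC h1) with h3 | h3
        · exact absurd h3 h2
        · exact h3
    · exact ((m1 x hxv hxo).1 hee).2
    · exact ctrh_edge h hvo hxy hxo hyo (hC ((m3 x y hxy hxv hxo hyv hyo).1 hee))
  obtain ⟨D, hD, hb⟩ := h.H1 C₁ hsub hcyc1
  have hD3 : ∀ t ∈ D, t.card = 3 := fun t ht => h.card3 t (hD ht)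
  have hD' := ctrh_image_sub hD v o
  have hl := lft_image h he hL h4 hD
  refine ⟨(nd D v o).image (fo v o), hD', ?_⟩
  have hodd : ∀ e : Finset V, e.card = 2 → (Odd (tdeg D e) ↔ e ∈ C₁) := by
    intro e hee
    rw [← hb, mem_bdry]
    exact ⟨fun hh => ⟨hee, hh⟩, fun hh => hh.2⟩
  ext e
  constructor
  · intro hee
    rw [mem_bdry] at hee
    rcases ctrh_pair hee.1 hvo with ⟨x, hxv, rfl⟩ | ⟨x, hxv, hxo, rfl⟩ |
      ⟨x, y, hxy, hxv, hxo, hyv, hyo, rfl⟩
    · have h1 := hee.2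
      rw [tdeg_ctr_v hvo hD' x] at h1
      simp at h1
    · have h1 := hee.2
      rw [tdeg_lft_o h he hL h4 hD' hxv hxo, hl] at h1
      obtain ⟨h2, h3⟩ := tdeg_nd_o hD3 hvo hxv hxo
      have h5 : Odd (tdeg D {o, x} + tdeg D {v, x}) := by
        rw [h2, h3]
        split_ifs
        · have : tdeg (nd D v o) {o, x} + 1 + (tdeg (nd D v o) {v, x} + 1) =
              tdeg (nd D v o) {o, x} + tdeg (nd D v o) {v, x} + 2 := by ring
          rw [this]
          exact h1.add_even (by decide)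
        · simpa using h1
      rw [Nat.odd_add, hodd _ (card_pair hxo.symm), ← Nat.not_odd_iff_even,
        hodd _ (card_pair hxv.symm), m1 x hxv hxo, m2 x hxv hxo] at h5
      tauto
    · have h1 := hee.2
      rw [tdeg_lft h he hL h4 hD' hxv hxo hyv hyo, hl, tdeg_nd hD3 hvo hxy hxv hxo hyv hyo,
        hodd _ (card_pair hxy), m3 x y hxy hxv hxo hyv hyo] at h1
      exact h1
  · intro hee
    rw [mem_bdry]
    refine ⟨hcyc.1 e hee, ?_⟩
    rcases ctrh_pair (hcyc.1 e hee) hvo with ⟨x, hxv, rfl⟩ | ⟨x, hxv, hxo, rfl⟩ |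
      ⟨x, y, hxy, hxv, hxo, hyv, hyo, rfl⟩
    · exact absurd hee (hv x)
    · rw [tdeg_lft_o h he hL h4 hD' hxv hxo, hl]
      obtain ⟨h2, h3⟩ := tdeg_nd_o hD3 hvo hxv hxo
      have h5 : Odd (tdeg D {o, x} + tdeg D {v, x}) := by
        rw [Nat.odd_add, hodd _ (card_pair hxo.symm), ← Nat.not_odd_iff_even,
          hodd _ (card_pair hxv.symm), m1 x hxv hxo, m2 x hxv hxo]
        tauto
      rw [h2, h3] at h5
      split_ifs at h5
      · have h6 : tdeg (nd D v o) {o, x} + 1 + (tdeg (nd D v o) {v, x} + 1) =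
            tdeg (nd D v o) {o, x} + tdeg (nd D v o) {v, x} + 2 := by ring
        rw [h6, Nat.odd_add] at h5
        exact h5.2 (by decide)
      · simpa using h5
    · rw [tdeg_lft h he hL h4 hD' hxv hxo hyv hyo, hl, tdeg_nd hD3 hvo hxy hxv hxo hyv hyo,
        hodd _ (card_pair hxy), m3 x y hxy hxv hxo hyv hyo]
      exact hee

theorem ctr_H2 {T : Finset (Finset V)} (h : Sph T) {v o : V}
    (he : ({v, o} : Finset V) ∈ edges T) (hL : LC T v o) (h4 : 4 < T.card) :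
    ∀ D ⊆ ctr T v o, bdry D = ∅ → D = ∅ ∨ D = ctr T v o := by
  have hvo := edge_ne he
  intro D' hD' hb
  have heven : ∀ e : Finset V, e.card = 2 → ¬ Odd (tdeg D' e) := by
    intro e hee h1
    have h2 : e ∈ bdry D' := mem_bdry.2 ⟨hee, h1⟩
    rw [hb] at h2
    simp at h2
  set D₀ := lft T v o D' with hD0
  have hD0n : D₀ ⊆ nd T v o := lft_sub T v o D'
  have hD0T : D₀ ⊆ T := hD0n.trans (ctrh_nd_sub T v o)
  set X : Finset V := univ.filter (fun x => x ≠ v ∧ x ≠ o ∧ Odd (tdeg D₀ {o, x})) with hX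
  have hmX : ∀ x, x ∈ X ↔ x ≠ v ∧ x ≠ o ∧ Odd (tdeg D₀ {o, x}) := by
    intro x
    rw [hX, mem_filter]
    simp
  have hX2 : ∀ x ∈ X, x ≠ v ∧ x ≠ o := fun x hx => ⟨((hmX x).1 hx).1, ((hmX x).1 hx).2.1⟩
  have hpar : ∀ x, x ≠ v → x ≠ o → (Odd (tdeg D₀ {v, x}) ↔ Odd (tdeg D₀ {o, x})) := by
    intro x hxv hxo
    have h1 := heven {o, x} (card_pair hxo.symm)
    rw [tdeg_lft_o h he hL h4 hD' hxv hxo, ← hD0, Nat.odd_add, ← Nat.not_odd_iff_even] at h1
    tauto
  have hXT : ctrhD X v o ⊆ T := by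
    intro t ht
    unfold ctrhD at ht
    rw [mem_image] at ht
    obtain ⟨x, hx, rfl⟩ := ht
    obtain ⟨hxv, hxo, h1⟩ := (hmX x).1 hx
    have h2 := (hpar x hxv hxo).2 h1
    apply hL x hxv hxo
    · by_contra h3
      rw [ctrh_tdeg_zero hD0T hxv.symm h3] at h2
      simp at h2
    · by_contra h3
      rw [ctrh_tdeg_zero hD0T hxo.symm h3] at h1
      simp at h1
  set D := symmDiff D₀ (ctrhD X v o) with hDdef
  have hDT : D ⊆ T := by
    intro t ht
    rw [hDdef, mem_symmDiff] at ht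
    rcases ht with ht | ht
    · exact hD0T ht.1
    · exact hXT ht.1
  have hbD : bdry D ⊆ {({v, o} : Finset V)} := by
    intro e hee
    rw [mem_bdry, hDdef, tdeg_symm] at hee
    rcases ctrh_pair hee.1 hvo with ⟨x, hxv, rfl⟩ | ⟨x, hxv, hxo, rfl⟩ |
      ⟨x, y, hxy, hxv, hxo, hyv, hyo, rfl⟩
    · by_cases hxo : x = o
      · subst hxo
        exact mem_singleton_self _
      · exfalso
        have h1 := hee.2
        rw [ctrhD_tdeg (Or.inl rfl) hxv hxo, hpar x hxv hxo, hmX] at h1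
        tauto
    · exfalso
      have h1 := hee.2
      rw [ctrhD_tdeg (Or.inr rfl) hxv hxo, hmX] at h1
      tauto
    · exfalso
      have h1 := hee.2
      have h2 := ctrhD_tdeg0 (X := X) hxy hxv hxo hyv hyo
      have h3 := heven {x, y} (card_pair hxy)
      rw [tdeg_lft h he hL h4 hD' hxv hxo hyv hyo, ← hD0] at h3
      tauto
  have hbD0 : bdry D = ∅ := by
    by_contra hne
    have h1 := three_le_card_of_isCyc (isCyc_bdry (fun t ht => h.card3 t (hDT ht)))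
      (nonempty_iff_ne_empty.2 hne)
    have h2 := card_le_card hbD
    rw [card_singleton] at h2
    omega
  have hnd : ∀ t ∈ nd T v o, t ∉ ctrhD X v o := by
    intro t ht ht'
    exact (ctrh_mem_nd.1 ht).2 (ctrhD_mem ht')
  rcases h.H2 D hDT hbD0 with h1 | h1
  · left
    have h2 : D₀ = ∅ := by
      rw [eq_empty_iff_forall_notMem]
      intro t ht
      have h3 : t ∈ D := by
        rw [hDdef, mem_symmDiff]
        exact Or.inl ⟨ht, hnd t (hD0n ht)⟩
      rw [h1] at h3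
      simp at h3
    rw [← image_lft hD', ← hD0, h2, image_empty]
  · right
    have h2 : D₀ = nd T v o := by
      apply Subset.antisymm hD0n
      intro t ht
      have h3 : t ∈ D := by
        rw [h1]
        exact ctrh_nd_sub T v o ht
      rw [hDdef, mem_symmDiff] at h3
      rcases h3 with h3 | h3
      · exact h3.1
      · exact absurd h3.1 (hnd t ht)
    rw [← image_lft hD', ← hD0, h2, ctr_eq]

theorem sph_ctr {T : Finset (Finset V)} (h : Sph T) {v o : V}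
    (he : ({v, o} : Finset V) ∈ edges T) (hL : LC T v o) (h4 : 4 < T.card) :
    Sph (ctr T v o) :=
  ⟨card3_ctr h.card3, ctr_two h he hL h4,
    fun x S hS hLe => conn_of (card3_ctr h.card3) (ctr_two h he hL h4) (ctr_H1 h he hL h4)
      (ctr_H2 h he hL h4) x S hS hLe, ctr_H1 h he hL h4, ctr_H2 h he hL h4⟩

end Pool.Agent.Spl2
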