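import Pool.Agent.Spl2.SphDatF

/-!
# The data of the reduction D3
-/

set_option autoImplicit false

namespace Pool.Agent.Spl2

open Finset Pool.Agent.Spl1

variable {V : Type*} [Fintype V] [DecidableEq V]

/-- the neighbours of an apex `v` of degree `4` of the edge `o p` -/
theorem nb_apex {T : Finset (Finset V)} (h : Sph T) {o p v : V}
    (ht : ({o, p, v} : Finset V) ∈ T) (h4 : (star T v).card = 4) :
    ∃ X₁ X₂ : V, [v, o, p, X₁, X₂].Nodup ∧ ({v, o, X₁} : Finset V) ∈ T ∧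
      ({v, X₁, X₂} : Finset V) ∈ T ∧ ({v, p, X₂} : Finset V) ∈ T ∧
      ∀ x, ({v, x} : Finset V) ∈ edges T ↔ x = o ∨ x = p ∨ x = X₁ ∨ x = X₂ := by
  obtain ⟨X, Y, z, n1, a1, a2, a3, a4, a5⟩ := nb_four h h4 (tri_edges h (tri_perm1 (tri_perm1 ht))).1
  simp only [List.nodup_cons, List.mem_cons, List.not_mem_nil, not_or, or_false,
    not_false_eq_true, List.nodup_nil, and_true] at n1
  obtain ⟨Y'', -, -, c3⟩ := h.apexes a1
  have hap : ∀ t, ({v, o, t} : Finset V) ∈ T → t = X ∨ t = Y := by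
    intro t ht
    rcases c3 t ht with h | h
    · exact Or.inl h
    · rcases c3 Y a2 with h' | h'
      · exact absurd h'.symm n1.2.2.1.1
      · exact Or.inr (h.trans h'.symm)
  rcases hap p (tri_perm1 (tri_perm1 ht)) with rfl | rfl
  · refine ⟨Y, z, ?_, a2, a4, a3, ?_⟩
    · simp only [List.nodup_cons, List.mem_cons, List.not_mem_nil, not_or, or_false,
        not_false_eq_true, List.nodup_nil, and_true]
      exact n1
    · exact a5
  · refine ⟨X, z, ?_, a1, a3, a4, ?_⟩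
    · simp only [List.nodup_cons, List.mem_cons, List.not_mem_nil, not_or, or_false,
        not_false_eq_true, List.nodup_nil, and_true]
      obtain ⟨⟨q1, q2, q3, q4⟩, ⟨q5, q6, q7⟩, ⟨q8, q9⟩, q10⟩ := n1
      exact ⟨⟨q1, q3, q2, q4⟩, ⟨q6, q5, q7⟩, ⟨Ne.symm q8, q10⟩, q9⟩
    · intro x
      rw [a5]
      tauto

theorem dd3 {T T' : Finset (Finset V)} (h : Sph T) (hF : Fac3 T)
    {F₀ : Finset V} {o p v w : V} (hvw : v ≠ w) (hp : p ∉ F₀) (hv : v ∉ F₀) (hw : w ∉ F₀)
    (tv : ({o, p, v} : Finset V) ∈ T) (tw : ({o, p, w} : Finset V) ∈ T)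
    (v4 : (star T v).card = 4) (w4 : (star T w).card = 4) (p6 : (star T p).card = 6)
    (o4 : (star T o).card ≠ 4) (nvw : ({v, w} : Finset V) ∉ edges T)
    (hg : Good' T T' F₀ {p, v, w} o) :
    ∃ (X₁ X₂ Y₁ Y₂ : V) (N : Finset V), DD3 T T' F₀ o p v w X₁ X₂ Y₁ Y₂ N := by
  obtain ⟨X₁, X₂, n1, a1, a2, a3, a4⟩ := nb_apex h tv v4
  obtain ⟨Y₁, Y₂, n2, b1, b2, b3, b4⟩ := nb_apex h tw w4
  simp only [List.nodup_cons, List.mem_cons, List.not_mem_nil, not_or, or_false,
    not_false_eq_true, List.nodup_nil, and_true] at n1 n2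
  obtain ⟨⟨vo, vp, vX1, vX2⟩, ⟨op, oX1, oX2⟩, ⟨pX1, pX2⟩, X12⟩ := n1
  obtain ⟨⟨wo, wp, wY1, wY2⟩, ⟨-, oY1, oY2⟩, ⟨pY1, pY2⟩, Y12⟩ := n2
  -- the apexes of `o p`
  obtain ⟨w', -, -, c3⟩ := h.apexes tv
  have hap : ∀ t, ({o, p, t} : Finset V) ∈ T → t = v ∨ t = w := by
    intro t ht
    rcases c3 t ht with h | h
    · exact Or.inl h
    · rcases c3 w tw with h' | h'
      · exact absurd h'.symm hvw
      · exact Or.inr (h.trans h'.symm)
  obtain ⟨eop, eov, epv⟩ := tri_edges h tv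
  obtain ⟨-, eow, epw⟩ := tri_edges h tw
  obtain ⟨evo, evX1, eoX1⟩ := tri_edges h a1
  obtain ⟨-, evX2, eX12⟩ := tri_edges h a2
  obtain ⟨evp, -, epX2⟩ := tri_edges h a3
  obtain ⟨ewo, ewY1, eoY1⟩ := tri_edges h b1
  obtain ⟨-, ewY2, eY12⟩ := tri_edges h b2
  obtain ⟨ewp, -, epY2⟩ := tri_edges h b3
  have f0 : ∀ x, ({o, x} : Finset V) ∈ edges T → ({p, x} : Finset V) ∈ edges T →
      x = v ∨ x = w := by
    intro x c1 c2
    exact hap x (hF o p x op (edge_ne c2) (edge_ne c1) eop c2 c1)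
  have wX2 : w ≠ X₂ := by
    rintro rfl
    exact nvw evX2
  have wX1 : w ≠ X₁ := by
    rintro rfl
    exact nvw evX1
  have vY1 : v ≠ Y₁ := by
    rintro rfl
    exact nvw (edge_swap ewY1)
  have vY2 : v ≠ Y₂ := by
    rintro rfl
    exact nvw (edge_swap ewY2)
  have nX2 : ({o, X₂} : Finset V) ∉ edges T := by
    intro hh
    rcases f0 X₂ hh epX2 with h | h
    · exact vX2 h.symm
    · exact wX2 h.symm
  have nY2 : ({o, Y₂} : Finset V) ∉ edges T := by
    intro hh
    rcases f0 Y₂ hh epY2 with h | h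
    · exact vY2 h.symm
    · exact wY2 h.symm
  have X1Y1 : X₁ ≠ Y₁ := by
    rintro rfl
    apply o4
    apply four_closed h (a := p) (b := v) (c := X₁) (d := w) pX1 hvw tv (tri_perm2 a1)
      (tri_perm3 (tri_perm2 b1)) (tri_perm3 tw)
  have X2Y2 : X₂ ≠ Y₂ := by
    rintro rfl
    have := four_closed h (p := p) (a := o) (b := v) (c := X₂) (d := w) oX2 hvw (tri_perm2 tv)
      (tri_perm2 a3) (tri_perm3 (tri_perm2 b3)) (tri_perm3 (tri_perm2 tw))
    omega
  have X1Y2 : X₁ ≠ Y₂ := by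
    rintro rfl
    exact nY2 eoX1
  have X2Y1 : X₂ ≠ Y₁ := by
    rintro rfl
    exact nX2 eoY1
  set N := nb (edges T) p \ {o, v, w, X₂, Y₂} with hN
  have mp : ∀ x, ({p, x} : Finset V) ∈ edges T ↔
      x = o ∨ x = v ∨ x = w ∨ x = X₂ ∨ x = Y₂ ∨ x ∈ N := by
    intro x
    constructor
    · intro hx
      by_cases c : x ∈ ({o, v, w, X₂, Y₂} : Finset V)
      · simp only [Finset.mem_insert, Finset.mem_singleton] at c
        tauto
      · right; right; right; right; right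
        rw [hN, Finset.mem_sdiff, mem_nb]
        exact ⟨⟨(edge_ne hx).symm, hx⟩, c⟩
    · rintro (rfl | rfl | rfl | rfl | rfl | hx)
      · exact edge_swap eop
      · exact epv
      · exact epw
      · exact epX2
      · exact epY2
      · rw [hN, Finset.mem_sdiff, mem_nb] at hx
        exact hx.1.2
  have hcN : N.card = 1 := by
    have h5 : ({o, v, w, X₂, Y₂} : Finset V).card = 5 := by
      have : [o, v, w, X₂, Y₂].Nodup := by
        simp only [List.nodup_cons, List.mem_cons, List.not_mem_nil, not_or, or_false,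
          not_false_eq_true, List.nodup_nil, and_true]
        exact ⟨⟨Ne.symm vo, Ne.symm wo, oX2, oY2⟩, ⟨hvw, vX2, vY2⟩, ⟨wX2, wY2⟩, X2Y2⟩
      have h := List.toFinset_card_of_nodup this
      simpa using h
    have hsub : ({o, v, w, X₂, Y₂} : Finset V) ⊆ nb (edges T) p := by
      intro x hx
      rw [mem_nb]
      have : ({p, x} : Finset V) ∈ edges T := by
        rw [mp]
        simp only [Finset.mem_insert, Finset.mem_singleton] at hx
        tauto
      exact ⟨(edge_ne this).symm, this⟩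
    have := Finset.card_sdiff_add_card_eq_card hsub
    rw [h.star_card, p6, h5] at this
    rw [hN]
    omega
  have hnN : ∀ x ∈ N, ({o, x} : Finset V) ∉ edges T := by
    intro x hx hh
    have hpx := (mp x).2 (by tauto)
    rw [hN, Finset.mem_sdiff] at hx
    apply hx.2
    simp only [Finset.mem_insert, Finset.mem_singleton]
    rcases f0 x hh hpx with h | h
    · exact Or.inr (Or.inl h)
    · exact Or.inr (Or.inr (Or.inl h))
  have hoS : o ∉ ({p, v, w} : Finset V) := by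
    simp only [Finset.mem_insert, Finset.mem_singleton, not_or]
    exact ⟨op, Ne.symm vo, Ne.symm wo⟩
  have hN' : ∀ x ∈ N, x ≠ p ∧ x ≠ o ∧ x ≠ v ∧ x ≠ w ∧ x ≠ X₂ ∧ x ≠ Y₂ := by
    intro x hx
    rw [hN, Finset.mem_sdiff, mem_nb] at hx
    obtain ⟨⟨x1, -⟩, x3⟩ := hx
    simp only [Finset.mem_insert, Finset.mem_singleton, not_or] at x3
    exact ⟨x1, x3⟩
  refine ⟨X₁, X₂, Y₁, Y₂, N, ?_, hp, hv, hw, a4, b4, mp, hcN, ?_, eoX1, eoY1, nX2, nY2, hnN,
    eX12, eY12, ?_, ?_⟩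
  · simp only [List.nodup_cons, List.mem_cons, List.not_mem_nil, not_or, or_false,
      not_false_eq_true, List.nodup_nil, and_true]
    exact ⟨⟨op, Ne.symm vo, Ne.symm wo, oX1, oX2, oY1, oY2⟩,
      ⟨Ne.symm vp, Ne.symm wp, pX1, pX2, pY1, pY2⟩, ⟨hvw, vX1, vX2, vY1, vY2⟩,
      ⟨wX1, wX2, wY1, wY2⟩, ⟨X12, X1Y1, X1Y2⟩, ⟨X2Y1, X2Y2⟩, Y12⟩
  · intro x hx
    obtain ⟨x1, x2, x3, x4, x5, x6⟩ := hN' x hx
    simp only [Finset.mem_insert, Finset.mem_singleton, not_or]
    refine ⟨x2, x1, x3, x4, ?_, x5, ?_, x6⟩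
    · rintro rfl
      exact hnN _ hx eoX1
    · rintro rfl
      exact hnN _ hx eoY1
  · intro e
    rw [rel_edges hoS hg.rel]
    constructor
    · rintro (⟨c1, c2⟩ | ⟨x, c1, c2, ⟨s, c3, c4⟩, rfl⟩)
      · exact Or.inl ⟨c1, c2 p (by simp), c2 v (by simp), c2 w (by simp)⟩
      · simp only [Finset.mem_insert, Finset.mem_singleton, not_or] at c1
        have hX0 : ({o, X₁} : Finset V) ∈ edges T ∧ p ∉ ({o, X₁} : Finset V) ∧
            v ∉ ({o, X₁} : Finset V) ∧ w ∉ ({o, X₁} : Finset V) := by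
          simp only [Finset.mem_insert, Finset.mem_singleton, not_or]
          exact ⟨eoX1, ⟨Ne.symm op, pX1⟩, ⟨vo, vX1⟩, ⟨wo, wX1⟩⟩
        have hY0 : ({o, Y₁} : Finset V) ∈ edges T ∧ p ∉ ({o, Y₁} : Finset V) ∧
            v ∉ ({o, Y₁} : Finset V) ∧ w ∉ ({o, Y₁} : Finset V) := by
          simp only [Finset.mem_insert, Finset.mem_singleton, not_or]
          exact ⟨eoY1, ⟨Ne.symm op, pY1⟩, ⟨vo, vY1⟩, ⟨wo, wY1⟩⟩
        rw [Finset.mem_insert, Finset.mem_insert, Finset.mem_singleton] at c3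
        rcases c3 with rfl | rfl | rfl
        · rcases (mp x).1 c4 with hh | hh | hh | hh | hh | hh
          · exact absurd hh c2
          · exact absurd hh c1.2.1
          · exact absurd hh c1.2.2
          · exact Or.inr ⟨x, Or.inl hh, rfl⟩
          · exact Or.inr ⟨x, Or.inr (Or.inl hh), rfl⟩
          · exact Or.inr ⟨x, Or.inr (Or.inr hh), rfl⟩
        · rcases (a4 x).1 c4 with hh | hh | rfl | hh
          · exact absurd hh c2
          · exact absurd hh c1.1
          · exact Or.inl hX0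
          · exact Or.inr ⟨x, Or.inl hh, rfl⟩
        · rcases (b4 x).1 c4 with hh | hh | rfl | hh
          · exact absurd hh c2
          · exact absurd hh c1.1
          · exact Or.inl hY0
          · exact Or.inr ⟨x, Or.inr (Or.inl hh), rfl⟩
    · rintro (⟨c1, c2, c3, c4⟩ | ⟨x, hx, rfl⟩)
      · left
        refine ⟨c1, ?_⟩
        intro s hs
        rw [Finset.mem_insert, Finset.mem_insert, Finset.mem_singleton] at hs
        rcases hs with rfl | rfl | rfl
        · exact c2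
        · exact c3
        · exact c4
      · right
        rcases hx with rfl | rfl | hx
        · refine ⟨x, ?_, Ne.symm oX2, ⟨v, by simp, evX2⟩, rfl⟩
          simp only [Finset.mem_insert, Finset.mem_singleton, not_or]
          exact ⟨Ne.symm pX2, Ne.symm vX2, Ne.symm wX2⟩
        · refine ⟨x, ?_, Ne.symm oY2, ⟨w, by simp, ewY2⟩, rfl⟩
          simp only [Finset.mem_insert, Finset.mem_singleton, not_or]
          exact ⟨Ne.symm pY2, Ne.symm vY2, Ne.symm wY2⟩
        · obtain ⟨x1, x2, x3, x4, x5, x6⟩ := hN' x hx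
          refine ⟨x, ?_, x2, ⟨p, by simp, (mp x).2 (by tauto)⟩, rfl⟩
          simp only [Finset.mem_insert, Finset.mem_singleton, not_or]
          exact ⟨x1, x3, x4⟩
  · apply uv_rel h hoS hg.rel hg.sph
    refine ⟨X₁, ?_, eoX1⟩
    simp only [Finset.mem_insert, Finset.mem_singleton, not_or]
    exact ⟨Ne.symm pX1, Ne.symm vX1, Ne.symm wX1⟩

end Pool.Agent.Spl2
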