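import Pool.Agent.Spl2.SphData

/-!
# The data of the reduction F3
-/

set_option autoImplicit false

namespace Pool.Agent.Spl2

open Finset Pool.Agent.Spl1

variable {V : Type*} [Fintype V] [DecidableEq V]

theorem four_closed {T : Finset (Finset V)} (h : Sph T) {p a b c d : V} (ac : a ≠ c) (bd : b ≠ d)
    (t1 : ({p, a, b} : Finset V) ∈ T) (t2 : ({p, b, c} : Finset V) ∈ T)
    (t3 : ({p, c, d} : Finset V) ∈ T) (t4 : ({p, d, a} : Finset V) ∈ T) :
    (star T p).card = 4 := by
  obtain ⟨pa, pb, ab⟩ := tri_ne h t1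
  obtain ⟨-, pc, bc⟩ := tri_ne h t2
  obtain ⟨-, pd, cd⟩ := tri_ne h t3
  obtain ⟨-, -, da⟩ := tri_ne h t4
  have n1 : ∀ {X Y : Finset V} (x : V), x ∈ X → x ∉ Y → X ≠ Y := by
    rintro X Y x hX hY rfl
    exact hY hX
  have d12 : ({p, a, b} : Finset V) ≠ {p, b, c} := n1 a (by simp) (by
    simp only [Finset.mem_insert, Finset.mem_singleton, not_or]
    exact ⟨pa.symm, ab, ac⟩)
  have d13 : ({p, a, b} : Finset V) ≠ {p, c, d} := n1 a (by simp) (by
    simp only [Finset.mem_insert, Finset.mem_singleton, not_or]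
    exact ⟨pa.symm, ac, da.symm⟩)
  have d14 : ({p, a, b} : Finset V) ≠ {p, d, a} := n1 b (by simp) (by
    simp only [Finset.mem_insert, Finset.mem_singleton, not_or]
    exact ⟨pb.symm, bd, ab.symm⟩)
  have d23 : ({p, b, c} : Finset V) ≠ {p, c, d} := n1 b (by simp) (by
    simp only [Finset.mem_insert, Finset.mem_singleton, not_or]
    exact ⟨pb.symm, bc, bd⟩)
  have d24 : ({p, b, c} : Finset V) ≠ {p, d, a} := n1 b (by simp) (by
    simp only [Finset.mem_insert, Finset.mem_singleton, not_or]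
    exact ⟨pb.symm, bd, ab.symm⟩)
  have d34 : ({p, c, d} : Finset V) ≠ {p, d, a} := n1 c (by simp) (by
    simp only [Finset.mem_insert, Finset.mem_singleton, not_or]
    exact ⟨pc.symm, cd, ac.symm⟩)
  set S : Finset (Finset V) := {{p, a, b}, {p, b, c}, {p, c, d}, {p, d, a}} with hS
  have hcard : S.card = 4 := by
    rw [hS, Finset.card_insert_of_notMem, Finset.card_insert_of_notMem,
      Finset.card_insert_of_notMem, Finset.card_singleton]
    · simp only [Finset.mem_singleton]; exact d34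
    · simp only [Finset.mem_insert, Finset.mem_singleton, not_or]; exact ⟨d23, d24⟩
    · simp only [Finset.mem_insert, Finset.mem_singleton, not_or]; exact ⟨d12, d13, d14⟩
  have hsub : S ⊆ star T p := by
    intro t ht
    simp only [hS, Finset.mem_insert, Finset.mem_singleton] at ht
    rcases ht with rfl | rfl | rfl | rfl
    · exact mem_star.2 ⟨t1, by simp⟩
    · exact mem_star.2 ⟨t2, by simp⟩
    · exact mem_star.2 ⟨t3, by simp⟩
    · exact mem_star.2 ⟨t4, by simp⟩
  have hlink : LinkEven S p := by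
    intro u hu
    have hsubset : ∀ x y : V, ({p, u} : Finset V) ⊆ {p, x, y} ↔ (u = x ∨ u = y) := by
      intro x y
      rw [Finset.insert_subset_iff]
      simp only [Finset.mem_insert, Finset.mem_singleton, Finset.singleton_subset_iff]
      tauto
    unfold tdeg
    rw [Finset.card_filter, hS, Finset.sum_insert, Finset.sum_insert, Finset.sum_insert,
      Finset.sum_singleton]
    · simp only [hsubset]
      by_cases ua : u = a
      · subst ua
        simp [ab, ac, da.symm]
      · by_cases ub : u = b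
        · subst ub
          simp [bc, bd, Ne.symm ab]
        · by_cases uc : u = c
          · subst uc
            simp [cd, Ne.symm bc, Ne.symm ac]
          · by_cases ud : u = d
            · subst ud
              simp [da, Ne.symm cd, Ne.symm bd]
            · simp [ua, ub, uc, ud]
    · simp only [Finset.mem_singleton]; exact d34
    · simp only [Finset.mem_insert, Finset.mem_singleton, not_or]; exact ⟨d23, d24⟩
    · simp only [Finset.mem_insert, Finset.mem_singleton, not_or]; exact ⟨d12, d13, d14⟩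
  rcases h.conn p S hsub hlink with h0 | h0
  · rw [h0] at hcard
    simp at hcard
  · rw [← h0, hcard]

theorem df3 {T T' : Finset (Finset V)} (h : Sph T) (hF : Fac3 T) (h10 : 10 ≤ T.card)
    {F₀ : Finset V} {o v₁ v₂ : V} (ht : ({o, v₁, v₂} : Finset V) ∈ T) (h1 : v₁ ∉ F₀)
    (h2 : v₂ ∉ F₀) (hg : Good' T T' F₀ {v₁, v₂} o) :
    ∃ (X Y A : V) (N₁ N₂ : Finset V), DF3 T T' F₀ o v₁ v₂ X Y A N₁ N₂ := by
  obtain ⟨o1, o2, v12⟩ := tri_ne h ht
  obtain ⟨e01, e02, e12⟩ := tri_edges h ht
  obtain ⟨X, hX1, hX2, hX3⟩ := h.apexes ht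
  obtain ⟨Y, hY1, hY2, hY3⟩ := h.apexes (tri_perm3 ht)
  obtain ⟨A, hA1, hA2, hA3⟩ := h.apexes (tri_perm1 ht)
  obtain ⟨-, oX, vX⟩ := tri_ne h hX2
  obtain ⟨-, oY, vY⟩ := tri_ne h hY2
  obtain ⟨-, vA1, vA2⟩ := tri_ne h hA2
  obtain ⟨-, eoX, e1X⟩ := tri_edges h hX2
  obtain ⟨-, eoY, e2Y⟩ := tri_edges h hY2
  obtain ⟨-, e1A, e2A⟩ := tri_edges h hA2
  -- common neighbours
  have f1 : ∀ x, ({o, x} : Finset V) ∈ edges T → ({v₁, x} : Finset V) ∈ edges T →
      x = v₂ ∨ x = X := by
    intro x a1 a2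
    exact hX3 x (hF o v₁ x o1 (edge_ne a2) (edge_ne a1) e01 a2 a1)
  have f2 : ∀ x, ({o, x} : Finset V) ∈ edges T → ({v₂, x} : Finset V) ∈ edges T →
      x = v₁ ∨ x = Y := by
    intro x a1 a2
    exact hY3 x (hF o v₂ x o2 (edge_ne a2) (edge_ne a1) e02 a2 a1)
  have f3 : ∀ x, ({v₁, x} : Finset V) ∈ edges T → ({v₂, x} : Finset V) ∈ edges T →
      x = o ∨ x = A := by
    intro x a1 a2
    exact hA3 x (hF v₁ v₂ x v12 (edge_ne a2) (edge_ne a1) e12 a2 a1)
  -- `K4`
  have hk : ∀ z : V, z ≠ o → z ≠ v₁ → z ≠ v₂ → ({o, z} : Finset V) ∈ edges T →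
      ({v₁, z} : Finset V) ∈ edges T → ({v₂, z} : Finset V) ∈ edges T → False := by
    intro z z0 z1 z2 a0 a1 a2
    have b1 := hF o v₁ z o1 (edge_ne a1) (edge_ne a0) e01 a1 a0
    have b2 := hF o v₂ z o2 (edge_ne a2) (edge_ne a0) e02 a2 a0
    have b3 := hF v₁ v₂ z v12 (edge_ne a2) (edge_ne a1) e12 a2 a1
    have := h.k4 (v := o) (a := v₁) (b := v₂) (c := z) o1 o2 z0.symm v12 z2.symm z1.symm ht b2 b1 b3
    omega
  have hXY : X ≠ Y := by
    rintro rfl
    exact hk X oX.symm vX.symm vY.symm eoX e1X e2Y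
  have hXA : X ≠ A := by
    rintro rfl
    exact hk X oX.symm vX.symm vA2.symm eoX e1X e2A
  have hYA : Y ≠ A := by
    rintro rfl
    exact hk Y oY.symm vA1.symm vY.symm eoY e1A e2Y
  have hoA : ({o, A} : Finset V) ∉ edges T := by
    intro ha
    rcases f1 A ha e1A with h | h
    · exact vA2 h.symm
    · exact hXA h.symm
  have hX2' : X ≠ v₂ := hX1
  have hY1' : Y ≠ v₁ := hY1
  have hA0 : A ≠ o := hA1
  have m1 : ∀ x, ({v₁, x} : Finset V) ∈ edges T ↔ x = o ∨ x = v₂ ∨ x = X ∨ x = A ∨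
      x ∈ nb (edges T) v₁ \ {o, v₂, X, A} := by
    intro x
    constructor
    · intro hx
      by_cases c : x ∈ ({o, v₂, X, A} : Finset V)
      · simp only [Finset.mem_insert, Finset.mem_singleton] at c
        tauto
      · right; right; right; right
        rw [Finset.mem_sdiff, mem_nb]
        exact ⟨⟨(edge_ne hx).symm, hx⟩, c⟩
    · rintro (rfl | rfl | rfl | rfl | hx)
      · exact edge_swap e01
      · exact e12
      · exact e1X
      · exact e1A
      · rw [Finset.mem_sdiff, mem_nb] at hx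
        exact hx.1.2
  have m2 : ∀ x, ({v₂, x} : Finset V) ∈ edges T ↔ x = o ∨ x = v₁ ∨ x = Y ∨ x = A ∨
      x ∈ nb (edges T) v₂ \ {o, v₁, Y, A} := by
    intro x
    constructor
    · intro hx
      by_cases c : x ∈ ({o, v₁, Y, A} : Finset V)
      · simp only [Finset.mem_insert, Finset.mem_singleton] at c
        tauto
      · right; right; right; right
        rw [Finset.mem_sdiff, mem_nb]
        exact ⟨⟨(edge_ne hx).symm, hx⟩, c⟩
    · rintro (rfl | rfl | rfl | rfl | hx)
      · exact edge_swap e02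
      · exact edge_swap e12
      · exact e2Y
      · exact e2A
      · rw [Finset.mem_sdiff, mem_nb] at hx
        exact hx.1.2
  have hoS : o ∉ ({v₁, v₂} : Finset V) := by
    simp only [Finset.mem_insert, Finset.mem_singleton, not_or]
    exact ⟨o1, o2⟩
  refine ⟨X, Y, A, nb (edges T) v₁ \ {o, v₂, X, A}, nb (edges T) v₂ \ {o, v₁, Y, A},
    ?_, h1, h2, m1, m2, eoX, eoY, hoA, ?_, ?_, ?_, ?_, ?_⟩
  · simp only [List.nodup_cons, List.mem_cons, List.not_mem_nil, not_or, or_false,
      not_false_eq_true, List.nodup_nil, and_true]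
    exact ⟨⟨o1, o2, oX, oY, hA0.symm⟩, ⟨v12, vX, hY1'.symm, vA1⟩, ⟨hX2'.symm, vY, vA2⟩,
      ⟨hXY, hXA⟩, hYA⟩
  · intro x hx
    rw [Finset.mem_sdiff, mem_nb] at hx
    obtain ⟨⟨x1, x2⟩, x3⟩ := hx
    simp only [Finset.mem_insert, Finset.mem_singleton, not_or] at x3
    have x4 : ({o, x} : Finset V) ∉ edges T := by
      intro hh
      rcases f1 x hh x2 with h | h
      · exact x3.2.1 h
      · exact x3.2.2.1 h
    refine ⟨x4, ?_⟩
    simp only [Finset.mem_insert, Finset.mem_singleton, not_or]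
    refine ⟨x3.1, x1, x3.2.1, x3.2.2.1, ?_, x3.2.2.2⟩
    rintro rfl
    exact x4 eoY
  · intro x hx
    rw [Finset.mem_sdiff, mem_nb] at hx
    obtain ⟨⟨x1, x2⟩, x3⟩ := hx
    simp only [Finset.mem_insert, Finset.mem_singleton, not_or] at x3
    have x4 : ({o, x} : Finset V) ∉ edges T := by
      intro hh
      rcases f2 x hh x2 with h | h
      · exact x3.2.1 h
      · exact x3.2.2.1 h
    refine ⟨x4, ?_⟩
    simp only [Finset.mem_insert, Finset.mem_singleton, not_or]
    refine ⟨x3.1, x3.2.1, x1, ?_, x3.2.2.1, x3.2.2.2⟩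
    rintro rfl
    exact x4 eoX
  · rw [Finset.disjoint_left]
    intro x hx hx'
    rw [Finset.mem_sdiff, mem_nb] at hx hx'
    have y1 := hx.2
    simp only [Finset.mem_insert, Finset.mem_singleton, not_or] at y1
    rcases f3 x hx.1.2 hx'.1.2 with h | h
    · exact y1.1 h
    · exact y1.2.2.2 h
  · intro e
    rw [rel_edges hoS hg.rel]
    constructor
    · rintro (⟨a1, a2⟩ | ⟨x, a1, a2, ⟨s, a3, a4⟩, rfl⟩)
      · exact Or.inl ⟨a1, a2 v₁ (by simp), a2 v₂ (by simp)⟩
      · simp only [Finset.mem_insert, Finset.mem_singleton, not_or] at a1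
        have hX0 : ({o, X} : Finset V) ∈ edges T ∧ v₁ ∉ ({o, X} : Finset V) ∧
            v₂ ∉ ({o, X} : Finset V) := by
          simp only [Finset.mem_insert, Finset.mem_singleton, not_or]
          exact ⟨eoX, ⟨o1.symm, vX⟩, ⟨o2.symm, hX2'.symm⟩⟩
        have hY0 : ({o, Y} : Finset V) ∈ edges T ∧ v₁ ∉ ({o, Y} : Finset V) ∧
            v₂ ∉ ({o, Y} : Finset V) := by
          simp only [Finset.mem_insert, Finset.mem_singleton, not_or]
          exact ⟨eoY, ⟨o1.symm, hY1'.symm⟩, ⟨o2.symm, vY⟩⟩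
        rw [Finset.mem_insert, Finset.mem_singleton] at a3
        rcases a3 with rfl | rfl
        · rcases (m1 x).1 a4 with hh | hh | rfl | hh | hh
          · exact absurd hh a2
          · exact absurd hh a1.2
          · exact Or.inl hX0
          · exact Or.inr ⟨x, Or.inl hh, rfl⟩
          · exact Or.inr ⟨x, Or.inr (Or.inl hh), rfl⟩
        · rcases (m2 x).1 a4 with hh | hh | rfl | hh | hh
          · exact absurd hh a2
          · exact absurd hh a1.1
          · exact Or.inl hY0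
          · exact Or.inr ⟨x, Or.inl hh, rfl⟩
          · exact Or.inr ⟨x, Or.inr (Or.inr hh), rfl⟩
    · rintro (⟨a1, a2, a3⟩ | ⟨x, hx, rfl⟩)
      · left
        refine ⟨a1, ?_⟩
        intro s hs
        rw [Finset.mem_insert, Finset.mem_singleton] at hs
        rcases hs with rfl | rfl
        · exact a2
        · exact a3
      · right
        rcases hx with rfl | hx | hx
        · refine ⟨x, ?_, hA0, ⟨v₁, by simp, e1A⟩, rfl⟩
          simp only [Finset.mem_insert, Finset.mem_singleton, not_or]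
          exact ⟨vA1.symm, vA2.symm⟩
        · rw [Finset.mem_sdiff, mem_nb] at hx
          obtain ⟨⟨x1, x2⟩, x3⟩ := hx
          simp only [Finset.mem_insert, Finset.mem_singleton, not_or] at x3
          refine ⟨x, ?_, x3.1, ⟨v₁, by simp, x2⟩, rfl⟩
          simp only [Finset.mem_insert, Finset.mem_singleton, not_or]
          exact ⟨x1, x3.2.1⟩
        · rw [Finset.mem_sdiff, mem_nb] at hx
          obtain ⟨⟨x1, x2⟩, x3⟩ := hx
          simp only [Finset.mem_insert, Finset.mem_singleton, not_or] at x3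
          refine ⟨x, ?_, x3.1, ⟨v₂, by simp, x2⟩, rfl⟩
          simp only [Finset.mem_insert, Finset.mem_singleton, not_or]
          exact ⟨x3.2.1, x1⟩
  · apply uv_rel h hoS hg.rel hg.sph
    refine ⟨X, ?_, eoX⟩
    simp only [Finset.mem_insert, Finset.mem_singleton, not_or]
    exact ⟨vX.symm, hX2'⟩

end Pool.Agent.Spl2
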