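import Pool.Agent.Spl2.SphComb
import Pool.Agent.Spl2.SphEul

/-!
# The reductions, with all neighbours

The data of the three reductions in the form used by the local rules.
-/

set_option autoImplicit false

namespace Pool.Agent.Spl2

open Finset Pool.Agent.Spl1

variable {V : Type*} [Fintype V] [DecidableEq V]

/-- data of the reduction `T4`: `v₁` is moved to `v₂` -/
structure DT4 (T T' : Finset (Finset V)) (F₀ : Finset V) (v₁ v₂ X Y z u : V) : Prop where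
  nd : [v₁, v₂, X, Y, z, u].Nodup
  n1 : v₁ ∉ F₀
  n2 : v₂ ∉ F₀
  nb1 : ∀ x, ({v₁, x} : Finset V) ∈ edges T ↔ x = v₂ ∨ x = X ∨ x = Y ∨ x = z
  nb2 : ∀ x, ({v₂, x} : Finset V) ∈ edges T ↔ x = v₁ ∨ x = X ∨ x = Y ∨ x = u
  ed : ∀ e : Finset V, e ∈ edges T' ↔ (e ∈ edges T ∧ v₁ ∉ e) ∨ e = {v₂, z}
  vs' : uv T' = uv T \ {v₁}

/-- data of the reduction `F3`: `v₁, v₂` are moved to `o` -/
structure DF3 (T T' : Finset (Finset V)) (F₀ : Finset V) (o v₁ v₂ X Y A : V)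
    (N₁ N₂ : Finset V) : Prop where
  nd : [o, v₁, v₂, X, Y, A].Nodup
  n1 : v₁ ∉ F₀
  n2 : v₂ ∉ F₀
  nb1 : ∀ x, ({v₁, x} : Finset V) ∈ edges T ↔ x = o ∨ x = v₂ ∨ x = X ∨ x = A ∨ x ∈ N₁
  nb2 : ∀ x, ({v₂, x} : Finset V) ∈ edges T ↔ x = o ∨ x = v₁ ∨ x = Y ∨ x = A ∨ x ∈ N₂
  oX : ({o, X} : Finset V) ∈ edges T
  oY : ({o, Y} : Finset V) ∈ edges T
  oA : ({o, A} : Finset V) ∉ edges T
  no1 : ∀ x ∈ N₁, ({o, x} : Finset V) ∉ edges T ∧ x ∉ ({o, v₁, v₂, X, Y, A} : Finset V)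
  no2 : ∀ x ∈ N₂, ({o, x} : Finset V) ∉ edges T ∧ x ∉ ({o, v₁, v₂, X, Y, A} : Finset V)
  dis : Disjoint N₁ N₂
  ed : ∀ e : Finset V, e ∈ edges T' ↔ (e ∈ edges T ∧ v₁ ∉ e ∧ v₂ ∉ e) ∨
    ∃ x, (x = A ∨ x ∈ N₁ ∨ x ∈ N₂) ∧ e = {o, x}
  vs' : uv T' = uv T \ {v₁, v₂}

/-- data of the reduction `D3`: `p, v, w` are moved to `o` -/
structure DD3 (T T' : Finset (Finset V)) (F₀ : Finset V) (o p v w X₁ X₂ Y₁ Y₂ : V)
    (N : Finset V) : Prop where
  nd : [o, p, v, w, X₁, X₂, Y₁, Y₂].Nodup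
  np : p ∉ F₀
  nv : v ∉ F₀
  nw : w ∉ F₀
  nbv : ∀ x, ({v, x} : Finset V) ∈ edges T ↔ x = o ∨ x = p ∨ x = X₁ ∨ x = X₂
  nbw : ∀ x, ({w, x} : Finset V) ∈ edges T ↔ x = o ∨ x = p ∨ x = Y₁ ∨ x = Y₂
  nbp : ∀ x, ({p, x} : Finset V) ∈ edges T ↔
    x = o ∨ x = v ∨ x = w ∨ x = X₂ ∨ x = Y₂ ∨ x ∈ N
  cN : N.card = 1
  dN : ∀ x ∈ N, x ∉ ({o, p, v, w, X₁, X₂, Y₁, Y₂} : Finset V)
  oX : ({o, X₁} : Finset V) ∈ edges T
  oY : ({o, Y₁} : Finset V) ∈ edges T
  nX : ({o, X₂} : Finset V) ∉ edges T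
  nY : ({o, Y₂} : Finset V) ∉ edges T
  nN : ∀ x ∈ N, ({o, x} : Finset V) ∉ edges T
  eX : ({X₁, X₂} : Finset V) ∈ edges T
  eY : ({Y₁, Y₂} : Finset V) ∈ edges T
  ed : ∀ e : Finset V, e ∈ edges T' ↔ (e ∈ edges T ∧ p ∉ e ∧ v ∉ e ∧ w ∉ e) ∨
    ∃ x, (x = X₂ ∨ x = Y₂ ∨ x ∈ N) ∧ e = {o, x}
  vs' : uv T' = uv T \ {p, v, w}

theorem tri_ne {T : Finset (Finset V)} (h : Sph T) {a b c : V}
    (ht : ({a, b, c} : Finset V) ∈ T) : a ≠ b ∧ a ≠ c ∧ b ≠ c :=
  step_tri_ne (h.card3 _ ht)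

theorem tri_perm1 {T : Finset (Finset V)} {a b c : V} (ht : ({a, b, c} : Finset V) ∈ T) :
    ({b, c, a} : Finset V) ∈ T := by
  have : ({b, c, a} : Finset V) = {a, b, c} := by
    ext x; simp only [Finset.mem_insert, Finset.mem_singleton]; tauto
  rwa [this]

theorem tri_perm2 {T : Finset (Finset V)} {a b c : V} (ht : ({a, b, c} : Finset V) ∈ T) :
    ({b, a, c} : Finset V) ∈ T := by
  have : ({b, a, c} : Finset V) = {a, b, c} := by
    ext x; simp only [Finset.mem_insert, Finset.mem_singleton]; tauto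
  rwa [this]

theorem tri_perm3 {T : Finset (Finset V)} {a b c : V} (ht : ({a, b, c} : Finset V) ∈ T) :
    ({a, c, b} : Finset V) ∈ T := by
  have : ({a, c, b} : Finset V) = {a, b, c} := by
    ext x; simp only [Finset.mem_insert, Finset.mem_singleton]; tauto
  rwa [this]

theorem tri_edges {T : Finset (Finset V)} (h : Sph T) {a b c : V}
    (ht : ({a, b, c} : Finset V) ∈ T) : ({a, b} : Finset V) ∈ edges T ∧
      ({a, c} : Finset V) ∈ edges T ∧ ({b, c} : Finset V) ∈ edges T := by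
  obtain ⟨h1, h2, h3⟩ := tri_ne h ht
  exact ⟨edge_of_tri ht h1 (by simp) (by simp), edge_of_tri ht h2 (by simp) (by simp),
    edge_of_tri ht h3 (by simp) (by simp)⟩

/-- the two apexes of an edge -/
theorem Sph.apexes {T : Finset (Finset V)} (h : Sph T) {a b x : V}
    (ht : ({a, b, x} : Finset V) ∈ T) :
    ∃ y, y ≠ x ∧ ({a, b, y} : Finset V) ∈ T ∧ ∀ z, ({a, b, z} : Finset V) ∈ T → z = x ∨ z = y := by
  obtain ⟨w, w', h1, h2, h3, h4, h5, h6, h7, h8, h9⟩ := h.link_two (tri_edges h ht).1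
  have key : ∀ z, ({a, b, z} : Finset V) ∈ T → z = w ∨ z = w' := by
    intro z hz
    obtain ⟨z1, z2, z3⟩ := tri_ne h hz
    rcases h9 _ hz (by simp) (by simp) with hh | hh
    · left
      have : z ∈ ({a, b, w} : Finset V) := by rw [← hh]; simp
      simp only [Finset.mem_insert, Finset.mem_singleton] at this
      rcases this with a4 | a4 | a4
      · exact absurd a4.symm z2
      · exact absurd a4.symm z3
      · exact a4
    · right
      have : z ∈ ({a, b, w'} : Finset V) := by rw [← hh]; simp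
      simp only [Finset.mem_insert, Finset.mem_singleton] at this
      rcases this with a4 | a4 | a4
      · exact absurd a4.symm z2
      · exact absurd a4.symm z3
      · exact a4
  rcases key x ht with rfl | rfl
  · exact ⟨w', h1.symm, h8, key⟩
  · exact ⟨w, h1, h7, fun z hz => (key z hz).symm⟩

/-- the used vertices after a reduction -/
theorem uv_rel {T T' : Finset (Finset V)} (h : Sph T) {S : Finset V} {o : V} (hoS : o ∉ S)
    (hrel : EdgeRel T T' S o) (h' : Sph T')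
    (ho : ∃ y, y ∉ S ∧ ({o, y} : Finset V) ∈ edges T) : uv T' = uv T \ S := by
  have hne : ∀ {U : Finset (Finset V)}, Sph U → ∀ x, x ∈ uv U ↔ ∃ y, ({x, y} : Finset V) ∈ edges U := by
    intro U hU x
    rw [mem_uv]
    constructor
    · rintro ⟨t, ht⟩
      rw [mem_star] at ht
      have h3 := hU.card3 t ht.1
      obtain ⟨y, hy, hxy⟩ : ∃ y ∈ t, y ≠ x := by
        apply Finset.exists_mem_ne
        omega
      exact ⟨y, edge_of_tri ht.1 hxy.symm ht.2 hy⟩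
    · rintro ⟨y, hy⟩
      exact star_ne_of_edge hy
  ext x
  rw [Finset.mem_sdiff, hne h', hne h]
  constructor
  · rintro ⟨y, hy⟩
    have hxy := edge_ne hy
    obtain ⟨h1, h2, h3⟩ := (hrel x y hxy).1 hy
    refine ⟨?_, h1⟩
    rcases h3 with h3 | ⟨rfl, -⟩ | ⟨-, s, -, h3⟩
    · exact ⟨y, h3⟩
    · obtain ⟨z, -, hz⟩ := ho
      exact ⟨z, hz⟩
    · exact ⟨s, edge_swap h3⟩
  · rintro ⟨⟨y, hy⟩, hxS⟩
    by_cases hxo : x = o
    · subst hxo
      obtain ⟨z, hz1, hz⟩ := ho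
      exact ⟨z, (hrel x z (edge_ne hz)).2 ⟨hxS, hz1, Or.inl hz⟩⟩
    · by_cases hyS : y ∈ S
      · exact ⟨o, (hrel x o hxo).2 ⟨hxS, hoS, Or.inr (Or.inr ⟨rfl, y, hyS, edge_swap hy⟩)⟩⟩
      · exact ⟨y, (hrel x y (edge_ne hy)).2 ⟨hxS, hyS, Or.inl hy⟩⟩

/-- the neighbours of a vertex of degree `4` on an edge `v o` -/
theorem nb_four {T : Finset (Finset V)} (h : Sph T) {v o : V}
    (h4 : (star T v).card = 4) (he : ({v, o} : Finset V) ∈ edges T) :
    ∃ X Y z : V, [v, o, X, Y, z].Nodup ∧ ({v, o, X} : Finset V) ∈ T ∧ ({v, o, Y} : Finset V) ∈ T ∧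
      ({v, X, z} : Finset V) ∈ T ∧ ({v, Y, z} : Finset V) ∈ T ∧
      ∀ x, ({v, x} : Finset V) ∈ edges T ↔ x = o ∨ x = X ∨ x = Y ∨ x = z := by
  obtain ⟨a, b, c, d, ab, bc, cd, da, ac, bd, hs, -, hn⟩ := h.deg4 h4
  have hmem : ∀ t, t ∈ star T v ↔ t = {v, a, b} ∨ t = {v, b, c} ∨ t = {v, c, d} ∨ t = {v, d, a} := by
    intro t
    rw [hs]
    simp
  have t1 := (mem_star.1 ((hmem _).2 (Or.inl rfl))).1
  have t2 := (mem_star.1 ((hmem _).2 (Or.inr (Or.inl rfl)))).1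
  have t3 := (mem_star.1 ((hmem _).2 (Or.inr (Or.inr (Or.inl rfl))))).1
  have t4 := (mem_star.1 ((hmem _).2 (Or.inr (Or.inr (Or.inr rfl))))).1
  obtain ⟨va, vb, -⟩ := tri_ne h t1
  obtain ⟨-, vc, -⟩ := tri_ne h t2
  obtain ⟨-, vd, -⟩ := tri_ne h t3
  have hn' : ∀ x, ({v, x} : Finset V) ∈ edges T ↔ x = a ∨ x = b ∨ x = c ∨ x = d := by
    intro x
    rw [← hn, mem_nb]
    constructor
    · intro hx
      exact ⟨(edge_ne hx).symm, hx⟩
    · rintro ⟨-, hx⟩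
      exact hx
  rcases (hn' o).1 he with rfl | rfl | rfl | rfl
  · refine ⟨b, d, c, ?_, t1, ?_, t2, ?_, ?_⟩
    · simp only [List.nodup_cons, List.mem_cons, List.not_mem_nil, not_or]
      tauto
    · exact tri_perm3 t4
    · exact tri_perm3 t3
    · intro x
      rw [hn']
      tauto
  · refine ⟨a, c, d, ?_, ?_, t2, ?_, t3, ?_⟩
    · simp only [List.nodup_cons, List.mem_cons, List.not_mem_nil, not_or]
      tauto
    · exact tri_perm3 t1
    · exact tri_perm3 t4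
    · intro x
      rw [hn']
      tauto
  · refine ⟨b, d, a, ?_, ?_, t3, ?_, t4, ?_⟩
    · simp only [List.nodup_cons, List.mem_cons, List.not_mem_nil, not_or]
      tauto
    · exact tri_perm3 t2
    · exact tri_perm3 t1
    · intro x
      rw [hn']
      tauto
  · refine ⟨a, c, b, ?_, t4, ?_, t1, ?_, ?_⟩
    · simp only [List.nodup_cons, List.mem_cons, List.not_mem_nil, not_or]
      tauto
    · exact tri_perm3 t3
    · exact tri_perm3 t2
    · intro x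
      rw [hn']
      tauto

theorem rel_edges {T T' : Finset (Finset V)} {S : Finset V} {o : V} (hoS : o ∉ S)
    (hrel : EdgeRel T T' S o) (e : Finset V) : e ∈ edges T' ↔ (e ∈ edges T ∧ ∀ s ∈ S, s ∉ e) ∨
      ∃ x, x ∉ S ∧ x ≠ o ∧ (∃ s ∈ S, ({s, x} : Finset V) ∈ edges T) ∧ e = {o, x} := by
  constructor
  · intro he
    obtain ⟨x, y, hxy, rfl⟩ := Finset.card_eq_two.1 (mem_edges.1 he).1
    obtain ⟨h1, h2, h3⟩ := (hrel x y hxy).1 he
    rcases h3 with h3 | ⟨rfl, h3⟩ | ⟨rfl, h3⟩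
    · left
      refine ⟨h3, ?_⟩
      intro s hs hse
      simp only [Finset.mem_insert, Finset.mem_singleton] at hse
      rcases hse with rfl | rfl
      · exact h1 hs
      · exact h2 hs
    · right
      exact ⟨y, h2, hxy.symm, h3, rfl⟩
    · right
      exact ⟨x, h1, hxy, h3, Finset.pair_comm _ _⟩
  · rintro (⟨he, hS⟩ | ⟨x, hxS, hxo, hs, rfl⟩)
    · obtain ⟨x, y, hxy, rfl⟩ := Finset.card_eq_two.1 (mem_edges.1 he).1
      exact (hrel x y hxy).2 ⟨fun h => hS x h (by simp), fun h => hS y h (by simp), Or.inl he⟩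
    · exact (hrel o x hxo.symm).2 ⟨hoS, hxS, Or.inr (Or.inl ⟨rfl, hs⟩)⟩

theorem dt4 {T T' : Finset (Finset V)} (h : Sph T) (hF : Fac3 T) {F₀ : Finset V}
    {v₁ v₂ : V} (h1 : v₁ ∉ F₀) (h2 : v₂ ∉ F₀) (he : ({v₁, v₂} : Finset V) ∈ edges T)
    (h4 : (star T v₁).card = 4) (h4' : (star T v₂).card = 4) (hg : Good' T T' F₀ {v₁} v₂) :
    ∃ X Y z u : V, DT4 T T' F₀ v₁ v₂ X Y z u := by
  obtain ⟨X, Y, z, n1, a1, a2, a3, a4, a5⟩ := nb_four h h4 he
  obtain ⟨X', Y', u, n2, b1, b2, b3, b4, b5⟩ := nb_four h h4' (edge_swap he)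
  simp only [List.nodup_cons, List.mem_cons, List.not_mem_nil, not_or, or_false,
    not_false_eq_true, List.nodup_nil, and_true] at n1 n2
  obtain ⟨Y'', -, -, c3⟩ := h.apexes a1
  have hap : ∀ t, ({v₁, v₂, t} : Finset V) ∈ T → t = X ∨ t = Y := by
    intro t ht
    rcases c3 t ht with h | h
    · exact Or.inl h
    · rcases c3 Y a2 with h' | h'
      · exact absurd h'.symm n1.2.2.1.1
      · exact Or.inr (h.trans h'.symm)
  have hz : z ≠ u := by
    rintro rfl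
    have e1 := (a5 z).2 (Or.inr (Or.inr (Or.inr rfl)))
    have e2 := (b5 z).2 (Or.inr (Or.inr (Or.inr rfl)))
    have e3 := hF v₁ v₂ z (edge_ne he) (edge_ne e2) (edge_ne e1) he e2 e1
    rcases hap z e3 with h | h
    · exact n1.2.2.1.2 h.symm
    · exact n1.2.2.2 h.symm
  have hX' := hap X' (tri_perm2 b1)
  have hY' := hap Y' (tri_perm2 b2)
  have hb5 : ∀ x, ({v₂, x} : Finset V) ∈ edges T ↔ x = v₁ ∨ x = X ∨ x = Y ∨ x = u := by
    intro x
    rw [b5]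
    rcases hX' with rfl | rfl <;> rcases hY' with rfl | rfl
    · exact absurd rfl n2.2.2.1.1
    · tauto
    · tauto
    · exact absurd rfl n2.2.2.1.1
  have hXu : X ≠ u ∧ Y ≠ u := by
    rcases hX' with rfl | rfl <;> rcases hY' with rfl | rfl
    · exact absurd rfl n2.2.2.1.1
    · exact ⟨n2.2.2.1.2, n2.2.2.2⟩
    · exact ⟨n2.2.2.2, n2.2.2.1.2⟩
    · exact absurd rfl n2.2.2.1.1
  have hoS : v₂ ∉ ({v₁} : Finset V) := by
    rw [Finset.mem_singleton]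
    exact (edge_ne he).symm
  refine ⟨X, Y, z, u, ?_, h1, h2, a5, hb5, ?_, ?_⟩
  · simp only [List.nodup_cons, List.mem_cons, List.not_mem_nil, not_or, or_false,
      not_false_eq_true, List.nodup_nil, and_true]
    exact ⟨⟨n1.1.1, n1.1.2.1, n1.1.2.2.1, n1.1.2.2.2, n2.1.2.2.2.imp id |> fun h => n2.2.1.2.2⟩,
      ⟨n1.2.1.1, n1.2.1.2.1, n1.2.1.2.2, n2.1.2.2.2⟩, ⟨n1.2.2.1.1, n1.2.2.1.2, hXu.1⟩,
      ⟨n1.2.2.2, hXu.2⟩, hz⟩
  · intro e
    rw [rel_edges hoS hg.rel]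
    constructor
    · rintro (⟨e1, e2⟩ | ⟨x, e1, e2, ⟨s, e3, e4⟩, rfl⟩)
      · exact Or.inl ⟨e1, e2 v₁ (by simp)⟩
      · rw [Finset.mem_singleton] at e3 e1
        subst e3
        rcases (a5 x).1 e4 with rfl | rfl | rfl | rfl
        · exact absurd rfl e2
        · left
          refine ⟨(hb5 x).2 (Or.inr (Or.inl rfl)), ?_⟩
          simp only [Finset.mem_insert, Finset.mem_singleton, not_or]
          exact ⟨edge_ne he, Ne.symm e1⟩
        · left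
          refine ⟨(hb5 x).2 (Or.inr (Or.inr (Or.inl rfl))), ?_⟩
          simp only [Finset.mem_insert, Finset.mem_singleton, not_or]
          exact ⟨edge_ne he, Ne.symm e1⟩
        · exact Or.inr rfl
    · rintro (⟨e1, e2⟩ | rfl)
      · left
        refine ⟨e1, ?_⟩
        intro s hs
        rw [Finset.mem_singleton] at hs
        rwa [hs]
      · right
        refine ⟨z, ?_, Ne.symm n1.2.1.2.2, ⟨v₁, by simp, (a5 z).2 (Or.inr (Or.inr (Or.inr rfl)))⟩,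
          rfl⟩
        rw [Finset.mem_singleton]
        exact Ne.symm n1.1.2.2.2
  · apply uv_rel h hoS hg.rel hg.sph
    refine ⟨X, ?_, (hb5 X).2 (Or.inr (Or.inl rfl))⟩
    rw [Finset.mem_singleton]
    exact Ne.symm n1.1.2.1

end Pool.Agent.Spl2
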