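import Pool.Agent.Spl1.Planar
import Pool.Agent.Spl1.Link
import Pool.Agent.Spl1.Deg

/-!
# Triangulated spheres without separating triangles: definitions

`V` is a finite type of vertices, a complex is a set `T` of triangles (`Finset (Finset V)`), with the
notions of `Spl1/Defs.lean`: `tdeg D e` (number of triangles of `D` at `e`), `star T v`, `edges T`,
`bdry D` (mod 2 boundary), `IsCyc C`, `LinkEven S v`.

`Sph T`: closed triangulated surface in which every mod 2 cycle bounds and the only closed sets of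
triangles are `∅` and `T` (a 2-sphere).  `Fac3 T`: every 3-cycle of `T` is a triangle of `T`.
`LC T v o`: every 3-cycle through the edge `v o` is a triangle.
`ctr T v o`: contraction of the edge `v o` (the vertex `v` is moved to `o`).
`IsQ T a b c d`: a 4-cycle of `T` without chord.  `qb a b c d`: its edges.

Goal (`SphComb.lean`): if `Sph T`, `Fac3 T`, `F₀ ∈ T`, `10 ≤ |T|` then one of three reductions
(`T4`: two adjacent vertices of degree `4`; `F3`: contraction of a triangle; `D3`: contraction of an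
edge `o p` together with its two apexes, which have degree `4`, where `p` has degree `6`)
gives a smaller `T'` with `Sph T'`, `Fac3 T'`, `F₀ ∈ T'`, `8 ≤ |T'|`; and `|T| = 8` is the octahedron.
-/

set_option autoImplicit false

namespace Pool.Agent.Spl2

open Finset Pool.Agent.Spl1

variable {V : Type*} [Fintype V] [DecidableEq V]

/-- triangulated 2-spheres -/
structure Sph (T : Finset (Finset V)) : Prop where
  card3 : ∀ t ∈ T, t.card = 3
  two : ∀ e ∈ edges T, tdeg T e = 2
  conn : ∀ v, ∀ S ⊆ star T v, LinkEven S v → S = ∅ ∨ S = star T v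
  H1 : ∀ C ⊆ edges T, IsCyc C → ∃ D ⊆ T, bdry D = C
  H2 : ∀ D ⊆ T, bdry D = ∅ → D = ∅ ∨ D = T

/-- every 3-cycle is a triangle -/
def Fac3 (T : Finset (Finset V)) : Prop :=
  ∀ x y z : V, x ≠ y → y ≠ z → x ≠ z → ({x, y} : Finset V) ∈ edges T →
    ({y, z} : Finset V) ∈ edges T → ({x, z} : Finset V) ∈ edges T → ({x, y, z} : Finset V) ∈ T

/-- every 3-cycle through `v o` is a triangle -/
def LC (T : Finset (Finset V)) (v o : V) : Prop :=
  ∀ x : V, x ≠ v → x ≠ o → ({v, x} : Finset V) ∈ edges T → ({o, x} : Finset V) ∈ edges T →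
    ({v, o, x} : Finset V) ∈ T

/-- contraction of the edge `v o`: the vertex `v` is moved to `o` -/
def ctr (T : Finset (Finset V)) (v o : V) : Finset (Finset V) :=
  T.filter (fun t => v ∉ t) ∪
    (T.filter (fun t => v ∈ t ∧ o ∉ t)).image (fun t => insert o (t.erase v))

/-- the edges of the 4-cycle `a b c d` -/
def qb (a b c d : V) : Finset (Finset V) := {{a, b}, {b, c}, {c, d}, {d, a}}

/-- 4-cycles without chord -/
structure IsQ (T : Finset (Finset V)) (a b c d : V) : Prop where
  ab : a ≠ b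
  bc : b ≠ c
  cd : c ≠ d
  da : d ≠ a
  ac : a ≠ c
  bd : b ≠ d
  eab : ({a, b} : Finset V) ∈ edges T
  ebc : ({b, c} : Finset V) ∈ edges T
  ecd : ({c, d} : Finset V) ∈ edges T
  eda : ({d, a} : Finset V) ∈ edges T
  nac : ({a, c} : Finset V) ∉ edges T
  nbd : ({b, d} : Finset V) ∉ edges T

/-- the edges of `T'`, where `T'` comes from `T` by moving the vertices of `S` to `o` -/
def EdgeRel (T T' : Finset (Finset V)) (S : Finset V) (o : V) : Prop :=
  ∀ x y : V, x ≠ y → (({x, y} : Finset V) ∈ edges T' ↔ x ∉ S ∧ y ∉ S ∧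
    (({x, y} : Finset V) ∈ edges T ∨ (x = o ∧ ∃ s ∈ S, ({s, y} : Finset V) ∈ edges T) ∨
      (y = o ∧ ∃ s ∈ S, ({s, x} : Finset V) ∈ edges T)))

/-- a region: `B` is the set of vertices of its boundary, which contains all the edges of `T` inside
`B`; it does not contain `F₀` -/
structure Reg0 (T : Finset (Finset V)) (F₀ : Finset V) (D : Finset (Finset V)) (B : Finset V) :
    Prop where
  sub : D ⊆ T
  ne : D.Nonempty
  hF : F₀ ∈ T
  nF : F₀ ∉ D
  bd : ∀ e : Finset V, e ∈ bdry D ↔ e ∈ edges T ∧ e ⊆ B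
  cyc : ∀ C ⊆ bdry D, IsCyc C → C = ∅ ∨ C = bdry D
  vd : ∀ b ∈ B, vdeg (bdry D) b = 2
  size : B.card = (bdry D).card
  size34 : B.card = 3 ∨ B.card = 4

/-- a minimal region -/
structure Reg (T : Finset (Finset V)) (F₀ : Finset V) (D : Finset (Finset V)) (B : Finset V) :
    Prop extends Reg0 T F₀ D B where
  corn : ∀ b ∈ B, 3 ≤ (star D b).card ∧ (5 ≤ (star T b).card ∧ ¬ star T b ⊆ D)
  c3 : ∀ a b c d x : V, IsQ T a b c d → x ∈ ({a, b, c, d} : Finset V) → x ∉ B →
    (star D x).Nonempty → ∃ w : V, star T w ⊆ D ∧ (star T w).card = 4 ∧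
      bdry (star T w) = qb a b c d

/-- no two adjacent vertices of degree `4` outside `F₀` -/
def NoT4 (T : Finset (Finset V)) (F₀ : Finset V) : Prop :=
  ∀ v w : V, v ≠ w → v ∉ F₀ → w ∉ F₀ → ({v, w} : Finset V) ∈ edges T →
    (star T v).card = 4 → (star T w).card ≠ 4

theorem mem_ctr {T : Finset (Finset V)} {v o : V} {t : Finset V} :
    t ∈ ctr T v o ↔ (t ∈ T ∧ v ∉ t) ∨ ∃ s ∈ T, v ∈ s ∧ o ∉ s ∧ insert o (s.erase v) = t := by
  unfold ctr
  simp only [Finset.mem_union, Finset.mem_filter, Finset.mem_image]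
  constructor
  · rintro (h | ⟨s, ⟨h1, h2, h3⟩, h4⟩)
    · exact Or.inl h
    · exact Or.inr ⟨s, h1, h2, h3, h4⟩
  · rintro (h | ⟨s, h1, h2, h3, h4⟩)
    · exact Or.inl h
    · exact Or.inr ⟨s, ⟨h1, h2, h3⟩, h4⟩

theorem mem_qb {a b c d : V} {e : Finset V} :
    e ∈ qb a b c d ↔ e = {a, b} ∨ e = {b, c} ∨ e = {c, d} ∨ e = {d, a} := by
  simp [qb]

theorem edge_swap {T : Finset (Finset V)} {x y : V} (h : ({x, y} : Finset V) ∈ edges T) :
    ({y, x} : Finset V) ∈ edges T := by
  rwa [Finset.pair_comm y x]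

theorem edge_ne {T : Finset (Finset V)} {x y : V} (h : ({x, y} : Finset V) ∈ edges T) : x ≠ y := by
  rintro rfl
  rw [mem_edges] at h
  simp at h

theorem edge_of_tri {T : Finset (Finset V)} {t : Finset V} (ht : t ∈ T) {x y : V} (hxy : x ≠ y)
    (hx : x ∈ t) (hy : y ∈ t) : ({x, y} : Finset V) ∈ edges T := by
  rw [mem_edges]
  refine ⟨Finset.card_pair hxy, t, ht, ?_⟩
  intro z hz
  simp only [Finset.mem_insert, Finset.mem_singleton] at hz
  rcases hz with rfl | rfl
  · exact hx
  · exact hy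

end Pool.Agent.Spl2
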