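import Pool.Agent.Spl2.SphOpp

/-!
# Existence of a minimal region

Let `P D`: `D ⊆ T`, `F₀ ∉ D`, `bdry D = qb a b c d` for some chordless 4-cycle, and `D` is not a star.

Paper proof.  Case 1: there is `D` with `P D`; take one with the smallest number of triangles; then
`MinQ T F₀ |D|`.  `B = {a,b,c,d}`, `reg0_Q`.  `corn`: `corner3`;
`|star T b| = |star D b| + |star (T \ D) b| ≥ 5`, and `star T b ⊄ D`.
`c3` (`c3_Q`): let `IsQ T p q r s`, `x ∈ {p,q,r,s}`, `x ∉ B`, `star D x ≠ ∅`; rotating we may assume `x = p`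
(`qb_rot`).  The triangles at `p` are in `D` (`Reg0.inn`), so `{p,q}, {s,p} ∈ edges D` and
`star D q, star D s ≠ ∅`.
If `q ∉ B` or `s ∉ B`, or `r ∈ B`, or `star D r ≠ ∅`, then `{q,r}, {r,s} ∈ edges D`: an edge `{y,z}` with
`star D y, star D z ≠ ∅` is in `edges D`, because either one end is not in `B`, and then its star is in
`D`, or both are in `B`, and then it is in `bdry D` (`bd`); if `q ∉ B` the star of `q` is in `D`, so
`star D r ≠ ∅`; similarly for `s`; if `r ∈ B` then `star D r ≠ ∅` (`corn`).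
Otherwise `q, s ∈ B = {a,b,c,d}` are different and `{q,s} ∉ edges T` (`nbd`), so `{q,s} = {a,c}` or
`{b,d}`, and `p` is adjacent to both, contradiction to `opp_corner`.
So `qb p q r s ⊆ edges D`; `Reg0.closure`: `X ⊆ D`, `bdry X = qb p q r s`.  `X ≠ D` since `p` is in an edge of
`bdry X` and `p ∉ B`.  So `|X| < |D|`, `X = star T w` by `MinQ`, and `|star T w| = 4` (`star_of_bdry`,
`qb_card`).
Case 2: no `D` with `P D`.  `D = T.erase F₀`, `B = F₀` (`reg0_face`).  For `IsQ T p q r s`: `H1` (and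
`bdry_compl`) give `X ⊆ T`, `F₀ ∉ X`, `bdry X = qb p q r s` (`isCyc_qb`), so `X` is a star, this is `c3`.
`corn`: for `b ∈ F₀`: `|star T b| ≥ 4` (`four_le`).  If `= 4`: `deg4Q`: `bdry (star T b) = qb p q r s`,
`IsQ T p q r s`; `X = T \ star T b` does not contain `F₀`, so it is a star of some `y`,
`|star T y| = |bdry X| = 4` (`star_of_bdry`), `|T| = 8`, contradiction.  So `|star T b| ≥ 5`,
`star D b = (star T b).erase F₀`.
-/

set_option autoImplicit false

namespace Pool.Agent.Spl2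

open Finset Pool.Agent.Spl1

variable {V : Type*} [Fintype V] [DecidableEq V]

private theorem ex_star_ne {D : Finset (Finset V)} {t : Finset V} (ht : t ∈ D) {x : V}
    (hx : x ∈ t) : (star D x).Nonempty := ⟨t, mem_star.2 ⟨ht, hx⟩⟩

private theorem ex_edge {T D : Finset (Finset V)} {y z : V}
    (he : ({y, z} : Finset V) ∈ edges T) (hy : star T y ⊆ D) :
    ({y, z} : Finset V) ∈ edges D ∧ (star D y).Nonempty ∧ (star D z).Nonempty := by
  obtain ⟨hc, t, ht, hsub⟩ := mem_edges.1 he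
  have h1 : y ∈ t := hsub (Finset.mem_insert_self _ _)
  have h2 : z ∈ t := hsub (Finset.mem_insert_of_mem (Finset.mem_singleton_self _))
  have h3 : t ∈ D := hy (mem_star.2 ⟨ht, h1⟩)
  exact ⟨mem_edges.2 ⟨hc, t, h3, hsub⟩, ex_star_ne h3 h1, ex_star_ne h3 h2⟩

private theorem c3_a {T : Finset (Finset V)} (h : Sph T) (hF : Fac3 T) {F₀ : Finset V}
    (hN : NoT4 T F₀) (hF₀ : F₀ ∈ T) {D : Finset (Finset V)} (hD : D ⊆ T) (hnF : F₀ ∉ D)
    {a b c d : V} (hQ : IsQ T a b c d) (hb : bdry D = qb a b c d)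
    (hcone : ∀ v, D ≠ star T v) (hmin : MinQ T F₀ D.card) {p q r s : V}
    (hq : IsQ T p q r s)
    (hxB : p ∉ ({a, b, c, d} : Finset V)) (hxD : (star D p).Nonempty) :
    ∃ w : V, star T w ⊆ D ∧ (star T w).card = 4 ∧ bdry (star T w) = qb p q r s := by
  have hR := reg0_Q h hF₀ hD hnF hQ hb
  have hpD : star T p ⊆ D := hR.inn h hxB hxD
  obtain ⟨epq, -, nq⟩ := ex_edge hq.eab hpD
  obtain ⟨eps, -, ns⟩ := ex_edge (edge_swap hq.eda) hpD
  have hE : ∀ y z : V, ({y, z} : Finset V) ∈ edges T → (star D y).Nonempty →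
      (star D z).Nonempty → ({y, z} : Finset V) ∈ edges D := by
    intro y z he hy hz
    by_cases h1 : y ∈ ({a, b, c, d} : Finset V)
    · by_cases h2 : z ∈ ({a, b, c, d} : Finset V)
      · have h3 : ({y, z} : Finset V) ∈ bdry D := by
          rw [hR.bd]
          refine ⟨he, ?_⟩
          intro u hu
          simp only [Finset.mem_insert, Finset.mem_singleton] at hu
          rcases hu with rfl | rfl
          · exact h1
          · exact h2
        rw [mem_bdry] at h3
        obtain ⟨t, ht⟩ := Finset.card_pos.1 h3.2.pos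
        rw [Finset.mem_filter] at ht
        exact mem_edges.2 ⟨h3.1, t, ht.1, ht.2⟩
      · have h3 := (ex_edge (edge_swap he) (hR.inn h h2 hz)).1
        rwa [Finset.pair_comm] at h3
    · exact (ex_edge he (hR.inn h h1 hy)).1
  have hnot : q ∉ ({a, b, c, d} : Finset V) ∨ s ∉ ({a, b, c, d} : Finset V) := by
    by_contra hcon
    rw [not_or, not_not, not_not] at hcon
    obtain ⟨h1, h2⟩ := hcon
    have hpq : ({p, q} : Finset V) ∈ edges T := hq.eab
    have hps : ({p, s} : Finset V) ∈ edges T := edge_swap hq.eda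
    have hqp := edge_swap hpq
    have hsp := edge_swap hps
    have o1 := fun hax hcx => opp_corner h hF hN hF₀ hD hnF hQ hb hcone hmin hxB hxD hax hcx
    have hxB' : p ∉ ({b, c, d, a} : Finset V) := by
      intro h3
      apply hxB
      simp only [Finset.mem_insert, Finset.mem_singleton] at h3 ⊢
      tauto
    have o2 := fun hax hcx => opp_corner h hF hN hF₀ hD hnF hQ.rot (by rw [hb]; exact (qb_rot a b c d).symm)
      hcone hmin hxB' hxD hax hcx
    have n1 := hq.nbd
    have n2 := hq.bd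
    have e1 := hQ.eab
    have e2 := hQ.ebc
    have e3 := hQ.ecd
    have e4 := hQ.eda
    have e1' := edge_swap e1
    have e2' := edge_swap e2
    have e3' := edge_swap e3
    have e4' := edge_swap e4
    simp only [Finset.mem_insert, Finset.mem_singleton] at h1 h2
    rcases h1 with rfl | rfl | rfl | rfl <;> rcases h2 with rfl | rfl | rfl | rfl <;>
      first
        | exact n2 rfl
        | exact n1 e1
        | exact n1 e2
        | exact n1 e3
        | exact n1 e4
        | exact n1 e1'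
        | exact n1 e2'
        | exact n1 e3'
        | exact n1 e4'
        | exact o1 hqp hsp
        | exact o1 hsp hqp
        | exact o2 hqp hsp
        | exact o2 hsp hqp
  have nr : (star D r).Nonempty := by
    rcases hnot with h1 | h1
    · exact (ex_edge hq.ebc (hR.inn h h1 nq)).2.2
    · exact (ex_edge (edge_swap hq.ecd) (hR.inn h h1 ns)).2.2
  have hsub : qb p q r s ⊆ edges D := by
    intro e he
    rw [mem_qb] at he
    rcases he with rfl | rfl | rfl | rfl
    · exact epq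
    · exact hE _ _ hq.ebc nq nr
    · exact hE _ _ hq.ecd nr ns
    · exact edge_swap eps
  obtain ⟨X, hXD, hXb⟩ := hR.closure h hsub
    (isCyc_qb hq.ab hq.bc hq.cd hq.da hq.ac hq.bd)
  have hXne : X ≠ D := by
    rintro rfl
    have h1 : ({p, q} : Finset V) ∈ bdry X := by
      rw [hXb, mem_qb]
      exact Or.inl rfl
    rw [hR.bd] at h1
    exact hxB (h1.2 (Finset.mem_insert_self _ _))
  have hlt : X.card < D.card := Finset.card_lt_card (Finset.ssubset_iff_subset_ne.2 ⟨hXD, hXne⟩)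
  obtain ⟨w, rfl⟩ := hmin X (hXD.trans hD) (fun h1 => hnF (hXD h1)) hlt ⟨p, q, r, s, hq, hXb⟩
  refine ⟨w, hXD, ?_, hXb⟩
  rw [← h.star_of_bdry w, hXb]
  exact qb_card hq.ab hq.bc hq.cd hq.da hq.ac hq.bd

theorem c3_Q {T : Finset (Finset V)} (h : Sph T) (hF : Fac3 T) {F₀ : Finset V}
    (hN : NoT4 T F₀) (hF₀ : F₀ ∈ T) {D : Finset (Finset V)} (hD : D ⊆ T) (hnF : F₀ ∉ D)
    {a b c d : V} (hQ : IsQ T a b c d) (hb : bdry D = qb a b c d)
    (hcone : ∀ v, D ≠ star T v) (hmin : MinQ T F₀ D.card) {p q r s x : V}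
    (hq : IsQ T p q r s) (hx : x ∈ ({p, q, r, s} : Finset V))
    (hxB : x ∉ ({a, b, c, d} : Finset V)) (hxD : (star D x).Nonempty) :
    ∃ w : V, star T w ⊆ D ∧ (star T w).card = 4 ∧ bdry (star T w) = qb p q r s := by
  simp only [Finset.mem_insert, Finset.mem_singleton] at hx
  rcases hx with rfl | rfl | rfl | rfl
  · exact c3_a h hF hN hF₀ hD hnF hQ hb hcone hmin hq hxB hxD
  · have := c3_a h hF hN hF₀ hD hnF hQ hb hcone hmin hq.rot hxB hxD
    rwa [qb_rot] at this
  · have := c3_a h hF hN hF₀ hD hnF hQ hb hcone hmin hq.rot.rot hxB hxD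
    rwa [qb_rot, qb_rot] at this
  · have := c3_a h hF hN hF₀ hD hnF hQ hb hcone hmin hq.rot.rot.rot hxB hxD
    rwa [qb_rot, qb_rot, qb_rot] at this

theorem reg_case1 {T : Finset (Finset V)} (h : Sph T) (hF : Fac3 T) {F₀ : Finset V}
    (hN : NoT4 T F₀) (hF₀ : F₀ ∈ T) {D : Finset (Finset V)} (hD : D ⊆ T) (hnF : F₀ ∉ D)
    {a b c d : V} (hQ : IsQ T a b c d) (hb : bdry D = qb a b c d)
    (hcone : ∀ v, D ≠ star T v) (hmin : MinQ T F₀ D.card) : Reg T F₀ D {a, b, c, d} := by
  have hR := reg0_Q h hF₀ hD hnF hQ hb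
  refine { hR with corn := ?_, c3 := ?_ }
  · intro y hy
    obtain ⟨h1, h2⟩ := corner3 h hF hN hF₀ hD hnF hQ hb hcone hmin y hy
    refine ⟨h1, ?_, ?_⟩
    · have h3 : star T y = star D y ∪ star (T \ D) y := by
        ext t
        simp only [mem_star, Finset.mem_union, Finset.mem_sdiff]
        constructor
        · rintro ⟨h4, h5⟩
          by_cases h6 : t ∈ D
          · exact Or.inl ⟨h6, h5⟩
          · exact Or.inr ⟨⟨h4, h6⟩, h5⟩
        · rintro (⟨h4, h5⟩ | ⟨h4, h5⟩)
          · exact ⟨hD h4, h5⟩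
          · exact ⟨h4.1, h5⟩
      have h4 : Disjoint (star D y) (star (T \ D) y) := by
        rw [Finset.disjoint_left]
        intro t h5 h6
        exact (Finset.mem_sdiff.1 (mem_star.1 h6).1).2 (mem_star.1 h5).1
      rw [h3, Finset.card_union_of_disjoint h4]
      omega
    · intro h3
      obtain ⟨t, ht⟩ := Finset.card_pos.1 (show 0 < (star (T \ D) y).card by omega)
      rw [mem_star, Finset.mem_sdiff] at ht
      exact ht.1.2 (h3 (mem_star.2 ⟨ht.1.1, ht.2⟩))
  · intro p q r s x hq hx hxB hxD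
    exact c3_Q h hF hN hF₀ hD hnF hQ hb hcone hmin hq hx hxB hxD

private theorem ex_star_sub (T : Finset (Finset V)) (v : V) : star T v ⊆ T :=
  fun _ ht => (mem_star.1 ht).1

theorem reg_case2 {T : Finset (Finset V)} (h : Sph T) (hF : Fac3 T) (h10 : 10 ≤ T.card)
    {F₀ : Finset V} (hF₀ : F₀ ∈ T)
    (hno : ∀ D ⊆ T, F₀ ∉ D → (∃ a b c d : V, IsQ T a b c d ∧ bdry D = qb a b c d) →
      ∃ v, D = star T v) : Reg T F₀ (T.erase F₀) F₀ := by
  have hR := reg0_face h (by omega) hF₀
  refine { hR with corn := ?_, c3 := ?_ }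
  · intro y hy
    have hyF : F₀ ∈ star T y := mem_star.2 ⟨hF₀, hy⟩
    have h4 : 4 ≤ (star T y).card := h.four_le hF (by omega) ⟨F₀, hyF⟩
    have h5 : (star T y).card ≠ 4 := by
      intro h6
      obtain ⟨p, q, r, s, hq, -, hqb, -⟩ := h.deg4Q hF h6
      have h7 : bdry (T \ star T y) = qb p q r s := by
        rw [h.bdry_compl (ex_star_sub T y), hqb]
      obtain ⟨v, hv⟩ := hno (T \ star T y) Finset.sdiff_subset
        (fun h8 => (Finset.mem_sdiff.1 h8).2 hyF) ⟨p, q, r, s, hq, h7⟩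
      have h8 : (T \ star T y).card = 4 := by
        have h9 := h.star_of_bdry v
        rw [← hv, h7, qb_card hq.ab hq.bc hq.cd hq.da hq.ac hq.bd] at h9
        exact h9.symm
      have h9 := Finset.card_sdiff_add_card_eq_card (ex_star_sub T y)
      omega
    refine ⟨?_, by omega, ?_⟩
    · have h6 : star (T.erase F₀) y = (star T y).erase F₀ := by
        ext t
        simp only [mem_star, Finset.mem_erase]
        tauto
      rw [h6, Finset.card_erase_of_mem hyF]
      omega
    · intro h6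
      exact Finset.notMem_erase F₀ T (h6 hyF)
  · intro p q r s x hq _ _ _
    have hsub : qb p q r s ⊆ edges T := by
      intro e he
      rw [mem_qb] at he
      rcases he with rfl | rfl | rfl | rfl
      · exact hq.eab
      · exact hq.ebc
      · exact hq.ecd
      · exact hq.eda
    obtain ⟨X, hXT, hXF, hXb⟩ : ∃ X ⊆ T, F₀ ∉ X ∧ bdry X = qb p q r s := by
      obtain ⟨D, hD, hDb⟩ := h.H1 _ hsub (isCyc_qb hq.ab hq.bc hq.cd hq.da hq.ac hq.bd)
      by_cases h1 : F₀ ∈ D
      · exact ⟨T \ D, Finset.sdiff_subset, fun h2 => (Finset.mem_sdiff.1 h2).2 h1, by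
          rw [h.bdry_compl hD, hDb]⟩
      · exact ⟨D, hD, h1, hDb⟩
    obtain ⟨w, rfl⟩ := hno X hXT hXF ⟨p, q, r, s, hq, hXb⟩
    refine ⟨w, ?_, ?_, hXb⟩
    · intro t ht
      refine Finset.mem_erase.2 ⟨?_, hXT ht⟩
      rintro rfl
      exact hXF ht
    · rw [← h.star_of_bdry w, hXb]
      exact qb_card hq.ab hq.bc hq.cd hq.da hq.ac hq.bd

theorem exists_reg {T : Finset (Finset V)} (h : Sph T) (hF : Fac3 T) (h10 : 10 ≤ T.card)
    {F₀ : Finset V} (hF₀ : F₀ ∈ T) (hN : NoT4 T F₀) :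
    ∃ (D : Finset (Finset V)) (B : Finset V), Reg T F₀ D B := by
  classical
  by_cases hex : ∃ n : ℕ, ∃ D ⊆ T, F₀ ∉ D ∧
      (∃ a b c d : V, IsQ T a b c d ∧ bdry D = qb a b c d) ∧ (∀ v, D ≠ star T v) ∧ D.card = n
  · obtain ⟨D, hD, hnF, ⟨a, b, c, d, hQ, hb⟩, hcone, hcard⟩ := Nat.find_spec hex
    have hmin : MinQ T F₀ D.card := by
      intro D' hD' hnF' hlt hq'
      by_contra hcon
      rw [not_exists] at hcon
      rw [hcard] at hlt
      exact Nat.find_min hex hlt ⟨D', hD', hnF', hq', hcon, rfl⟩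
    exact ⟨D, {a, b, c, d}, reg_case1 h hF hN hF₀ hD hnF hQ hb hcone hmin⟩
  · refine ⟨T.erase F₀, F₀, reg_case2 h hF h10 hF₀ ?_⟩
    intro D hD hnF hq
    by_contra hcon
    rw [not_exists] at hcon
    exact hex ⟨D.card, D, hD, hnF, hq, hcon, rfl⟩

end Pool.Agent.Spl2
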