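import Pool.Agent.Spl2.SphMain
import Pool.Agent.Spl2.F3L
import Pool.Agent.Spl2.D3L

/-!
# The reduction theorem in the form of the local rules
-/

set_option autoImplicit false

namespace Pool.Agent.Spl2

open Finset Pool.Agent.Spl1

variable {V : Type*} [Fintype V] [DecidableEq V]

theorem uv_eq_vs (T : Finset (Finset V)) : uv T = vs T := by
  ext v
  rw [mem_uv, mem_vs]
  constructor
  · rintro ⟨t, ht⟩
    exact ⟨t, (mem_star.1 ht).1, (mem_star.1 ht).2⟩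
  · rintro ⟨t, ht, hv⟩
    exact ⟨t, mem_star.2 ⟨ht, hv⟩⟩

theorem vs_of_edge {T : Finset (Finset V)} {x y : V} (h : ({x, y} : Finset V) ∈ edges T) :
    x ∈ vs T := by
  rw [← uv_eq_vs, mem_uv]
  exact star_ne_of_edge h

theorem ne_of_pair_left {T : Finset (Finset V)} {v a b : V}
    (h : ({v, a} : Finset V) ∈ edges T) (hb : ({v, b} : Finset V) ∉ edges T) : a ≠ b := by
  rintro rfl
  exact hb h

omit [Fintype V] in
/-- pairs -/
theorem pair_eq_pair {a b c d : V} (hab : a ≠ b) :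
    ({a, b} : Finset V) = {c, d} ↔ (a = c ∧ b = d) ∨ (a = d ∧ b = c) := by
  constructor
  · intro h
    have ha : a ∈ ({c, d} : Finset V) := by rw [← h]; simp
    have hb : b ∈ ({c, d} : Finset V) := by rw [← h]; simp
    simp only [Finset.mem_insert, Finset.mem_singleton] at ha hb
    rcases ha with rfl | rfl <;> rcases hb with rfl | rfl
    · exact absurd rfl hab
    · exact Or.inl ⟨rfl, rfl⟩
    · exact Or.inr ⟨rfl, rfl⟩
    · exact absurd rfl hab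
  · rintro (⟨rfl, rfl⟩ | ⟨rfl, rfl⟩)
    · rfl
    · exact Finset.pair_comm _ _

/-- the data of rule T4 -/
structure T4Data (E E' : Finset (Finset V)) (I : Finset V) (v1 v2 x y z u : V) : Prop where
  h12 : v1 ≠ v2
  h1x : v1 ≠ x
  h1y : v1 ≠ y
  h1z : v1 ≠ z
  h1u : v1 ≠ u
  h2x : v2 ≠ x
  h2y : v2 ≠ y
  h2z : v2 ≠ z
  h2u : v2 ≠ u
  hxy : x ≠ y
  hxz : x ≠ z
  hxu : x ≠ u
  hyz : y ≠ z
  hyu : y ≠ u
  hzu : z ≠ u
  hv1 : v1 ∈ I
  hv2 : v2 ∈ I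
  n1 : ∀ a, a ≠ v1 → (({v1, a} : Finset V) ∈ E ↔ a = v2 ∨ a = x ∨ a = y ∨ a = z)
  n2 : ∀ a, a ≠ v2 → (({v2, a} : Finset V) ∈ E ↔ a = v1 ∨ a = x ∨ a = y ∨ a = u)
  hE' : ∀ a b, a ≠ b → (({a, b} : Finset V) ∈ E' ↔
    (({a, b} : Finset V) ∈ E ∧ a ≠ v1 ∧ b ≠ v1) ∨ (a = v2 ∧ b = z) ∨ (a = z ∧ b = v2))

theorem DT4.data {T T' : Finset (Finset V)} {F₀ : Finset V} {v₁ v₂ X Y z u : V}
    (D : DT4 T T' F₀ v₁ v₂ X Y z u) :
    T4Data (edges T) (edges T') (vs T \ F₀) v₁ v₂ X Y z u ∧ vs T' \ F₀ = (vs T \ F₀).erase v₁ := by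
  have nd := D.nd
  simp only [List.nodup_cons, List.mem_cons, List.not_mem_nil, not_or, or_false,
    not_false_eq_true, List.nodup_nil, and_true] at nd
  obtain ⟨⟨h12, h1x, h1y, h1z, h1u⟩, ⟨h2x, h2y, h2z, h2u⟩, ⟨hxy, hxz, hxu⟩, ⟨hyz, hyu⟩, hzu⟩ := nd
  have e12 : ({v₁, v₂} : Finset V) ∈ edges T := (D.nb1 v₂).2 (Or.inl rfl)
  have hI : vs T' \ F₀ = (vs T \ F₀).erase v₁ := by
    rw [← uv_eq_vs, ← uv_eq_vs, D.vs']
    ext x
    simp only [Finset.mem_sdiff, Finset.mem_singleton, Finset.mem_erase]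
    tauto
  refine ⟨⟨h12, h1x, h1y, h1z, h1u, h2x, h2y, h2z, h2u, hxy, hxz, hxu, hyz, hyu, hzu,
    Finset.mem_sdiff.2 ⟨vs_of_edge e12, D.n1⟩,
    Finset.mem_sdiff.2 ⟨vs_of_edge (edge_swap e12), D.n2⟩,
    fun a _ => D.nb1 a, fun a _ => D.nb2 a, ?_⟩, hI⟩
  intro a b hab
  rw [D.ed, pair_eq_pair hab]
  simp only [Finset.mem_insert, Finset.mem_singleton, not_or]
  constructor
  · rintro (⟨a1, a2, a3⟩ | ⟨a1, a2⟩ | ⟨a1, a2⟩)
    · exact Or.inl ⟨a1, Ne.symm a2, Ne.symm a3⟩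
    · exact Or.inr (Or.inl ⟨a1, a2⟩)
    · exact Or.inr (Or.inr ⟨a1, a2⟩)
  · rintro (⟨a1, a2, a3⟩ | ⟨a1, a2⟩ | ⟨a1, a2⟩)
    · exact Or.inl ⟨a1, Ne.symm a2, Ne.symm a3⟩
    · exact Or.inr (Or.inl ⟨a1, a2⟩)
    · exact Or.inr (Or.inr ⟨a1, a2⟩)

theorem DF3.data {T T' : Finset (Finset V)} {F₀ : Finset V} {o v₁ v₂ X Y A : V}
    {N₁ N₂ : Finset V} (D : DF3 T T' F₀ o v₁ v₂ X Y A N₁ N₂) :
    F3Data (edges T) (edges T') (vs T \ F₀) o v₁ v₂ X Y A N₁ N₂ ∧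
      vs T' \ F₀ = ((vs T \ F₀).erase v₁).erase v₂ := by
  have nd := D.nd
  simp only [List.nodup_cons, List.mem_cons, List.not_mem_nil, not_or, or_false,
    not_false_eq_true, List.nodup_nil, and_true] at nd
  obtain ⟨⟨o1, o2, oX, oY, oA⟩, ⟨h12, h1X, h1Y, h1A⟩, ⟨h2X, h2Y, h2A⟩, ⟨hXY, hXA⟩, hYA⟩ := nd
  have e12 : ({v₁, v₂} : Finset V) ∈ edges T := (D.nb1 v₂).2 (Or.inr (Or.inl rfl))
  have hI : vs T' \ F₀ = ((vs T \ F₀).erase v₁).erase v₂ := by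
    rw [← uv_eq_vs, ← uv_eq_vs, D.vs']
    ext x
    simp only [Finset.mem_sdiff, Finset.mem_insert, Finset.mem_singleton, Finset.mem_erase]
    tauto
  have m1 : ∀ x ∈ ({o, v₁, v₂, X, Y, A} : Finset V), x ∉ N₁ := by
    intro x hx hx1
    exact (D.no1 x hx1).2 hx
  have m2 : ∀ x ∈ ({o, v₁, v₂, X, Y, A} : Finset V), x ∉ N₂ := by
    intro x hx hx1
    exact (D.no2 x hx1).2 hx
  refine ⟨
    { h1o := Ne.symm o1, h2o := Ne.symm o2, h12 := h12, xo := Ne.symm oX, x1 := Ne.symm h1X,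
      x2 := Ne.symm h2X, yo := Ne.symm oY, y1 := Ne.symm h1Y, y2 := Ne.symm h2Y,
      ao := Ne.symm oA, a1 := Ne.symm h1A, a2 := Ne.symm h2A, xy := hXY, xa := hXA, ya := hYA,
      I1 := Finset.mem_sdiff.2 ⟨vs_of_edge e12, D.n1⟩,
      I2 := Finset.mem_sdiff.2 ⟨vs_of_edge (edge_swap e12), D.n2⟩,
      N1o := m1 _ (by simp), N11 := m1 _ (by simp), N12 := m1 _ (by simp),
      N1x := m1 _ (by simp), N1y := m1 _ (by simp), N1a := m1 _ (by simp),
      N2o := m2 _ (by simp), N21 := m2 _ (by simp), N22 := m2 _ (by simp),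
      N2x := m2 _ (by simp), N2y := m2 _ (by simp), N2a := m2 _ (by simp),
      N12d := D.dis, n1 := fun b _ => D.nb1 b, n2 := fun b _ => D.nb2 b,
      ox := D.oX, oy := D.oY, oa := D.oA, oN1 := fun b hb => (D.no1 b hb).1,
      oN2 := fun b hb => (D.no2 b hb).1, hE' := ?_ }, hI⟩
  intro b c hbc
  rw [D.ed]
  simp only [Finset.mem_insert, Finset.mem_singleton, not_or]
  constructor
  · rintro (⟨a1, ⟨a2, a3⟩, a4, a5⟩ | ⟨x, hx, he⟩)
    · exact Or.inl ⟨a1, Ne.symm a2, Ne.symm a4, Ne.symm a3, Ne.symm a5⟩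
    · rw [pair_eq_pair hbc] at he
      rcases he with ⟨rfl, rfl⟩ | ⟨rfl, rfl⟩
      · exact Or.inr (Or.inl ⟨rfl, hx⟩)
      · exact Or.inr (Or.inr ⟨rfl, hx⟩)
  · rintro (⟨a1, a2, a3, a4, a5⟩ | ⟨rfl, hx⟩ | ⟨rfl, hx⟩)
    · exact Or.inl ⟨a1, ⟨Ne.symm a2, Ne.symm a4⟩, Ne.symm a3, Ne.symm a5⟩
    · exact Or.inr ⟨c, hx, rfl⟩
    · exact Or.inr ⟨b, hx, Finset.pair_comm _ _⟩

theorem card_inner_filter {T : Finset (Finset V)} (h : Sph T) {F : Finset V} (hF : F ∈ T) :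
    ((edges T).filter (fun e => ∃ b ∈ e, b ∈ vs T \ F)).card = 3 * (vs T \ F).card := by
  have h1 := h.card_inner hF
  rw [← uv_eq_vs, ← h1]
  congr 1
  ext e
  simp only [Finset.mem_filter]
  refine and_congr_right ?_
  intro he
  constructor
  · rintro ⟨b, hb, hb2⟩ hs
    rw [Finset.mem_sdiff] at hb2
    exact hb2.2 (hs hb)
  · intro hs
    rw [Finset.not_subset] at hs
    obtain ⟨b, hb, hbF⟩ := hs
    refine ⟨b, hb, ?_⟩
    rw [Finset.mem_sdiff]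
    refine ⟨?_, hbF⟩
    rw [mem_edges] at he
    obtain ⟨-, t, ht, het⟩ := he
    exact mem_uv_of_mem ht (het hb)

theorem DD3.data {T T' : Finset (Finset V)} (hT' : Sph T') {F₀ : Finset V}
    (hF₀ : F₀ ∈ T) (hF₀' : F₀ ∈ T')
    {o p v w X₁ X₂ Y₁ Y₂ : V} {N : Finset V} (D : DD3 T T' F₀ o p v w X₁ X₂ Y₁ Y₂ N) :
    ∃ n : V, D3Data (edges T) (edges T') (vs T \ F₀) o p v w X₁ X₂ Y₁ Y₂ n ∧
      vs T' \ F₀ = (((vs T \ F₀).erase p).erase v).erase w := by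
  obtain ⟨n, hn⟩ := Finset.card_eq_one.1 D.cN
  subst hn
  have nd := D.nd
  simp only [List.nodup_cons, List.mem_cons, List.not_mem_nil, not_or, or_false,
    not_false_eq_true, List.nodup_nil, and_true] at nd
  obtain ⟨⟨op, ov, ow, oX1, oX2, oY1, oY2⟩, ⟨pv, pw, pX1, pX2, pY1, pY2⟩,
    ⟨vw, vX1, vX2, vY1, vY2⟩, ⟨wX1, wX2, wY1, wY2⟩, ⟨X12, X1Y1, X1Y2⟩, ⟨X2Y1, X2Y2⟩, Y12⟩ := nd
  have dn := D.dN n (by simp)
  simp only [Finset.mem_insert, Finset.mem_singleton, not_or] at dn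
  obtain ⟨no, np, nv, nw, nX1, nX2, nY1, nY2⟩ := dn
  have hI : vs T' \ F₀ = (((vs T \ F₀).erase p).erase v).erase w := by
    rw [← uv_eq_vs, ← uv_eq_vs, D.vs']
    ext x
    simp only [Finset.mem_sdiff, Finset.mem_insert, Finset.mem_singleton, Finset.mem_erase]
    tauto
  have hsq := card_inner_filter hT' hF₀'
  rw [hI] at hsq
  have eop : ({p, o} : Finset V) ∈ edges T := (D.nbp o).2 (Or.inl rfl)
  have eov : ({v, o} : Finset V) ∈ edges T := (D.nbv o).2 (Or.inl rfl)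
  have eow : ({w, o} : Finset V) ∈ edges T := (D.nbw o).2 (Or.inl rfl)
  have epX2 : ({p, X₂} : Finset V) ∈ edges T := (D.nbp X₂).2 (by tauto)
  have epY2 : ({p, Y₂} : Finset V) ∈ edges T := (D.nbp Y₂).2 (by tauto)
  have epn : ({p, n} : Finset V) ∈ edges T := (D.nbp n).2 (by simp)
  -- a vertex which is used, not adjacent to `o` and different from `o`
  have hmeet : ∀ x : V, o ≠ x → ({o, x} : Finset V) ∉ edges T → ({p, x} : Finset V) ∈ edges T →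
      o ∉ vs T \ F₀ → x ∈ vs T \ F₀ := by
    intro x hox hex hpx ho
    rw [Finset.mem_sdiff]
    refine ⟨vs_of_edge (edge_swap hpx), ?_⟩
    intro hxF
    rw [Finset.mem_sdiff] at ho
    have hoF : o ∈ F₀ := by
      by_contra hoF
      exact ho ⟨vs_of_edge (edge_swap eop), hoF⟩
    exact hex (edge_of_tri hF₀ hox hoF hxF)
  refine ⟨n,
    { op := op, ov := ov, ow := ow, ox1 := oX1, ox2 := oX2, oy1 := oY1, oy2 := oY2,
      on := Ne.symm no, pv := pv, pw := pw, px1 := pX1, px2 := pX2, py1 := pY1, py2 := pY2,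
      pn := Ne.symm np, vw := vw, vx1 := vX1, vx2 := vX2, vy1 := vY1, vy2 := vY2,
      vn := Ne.symm nv, wx1 := wX1, wx2 := wX2, wy1 := wY1, wy2 := wY2, wn := Ne.symm nw,
      x12 := X12, x2y2 := X2Y2, x2n := Ne.symm nX2, y12 := Y12, y2n := Ne.symm nY2,
      Ip := Finset.mem_sdiff.2 ⟨vs_of_edge eop, D.np⟩,
      Iv := Finset.mem_sdiff.2 ⟨vs_of_edge eov, D.nv⟩,
      Iw := Finset.mem_sdiff.2 ⟨vs_of_edge eow, D.nw⟩,
      np := ?_, nv := fun b _ => D.nbv b, nw := fun b _ => D.nbw b,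
      eox1 := D.oX, eoy1 := D.oY, nox2 := D.nX, noy2 := D.nY, non := D.nN n (by simp),
      hE' := ?_, meet := ?_, two := fun e he => (mem_edges.1 he).1, sq := hsq }, hI⟩
  · intro b _
    rw [D.nbp]
    simp only [Finset.mem_singleton]
  · intro b c hbc
    rw [D.ed]
    simp only [Finset.mem_insert, Finset.mem_singleton, not_or]
    constructor
    · rintro (⟨a1, ⟨a2, a3⟩, ⟨a4, a5⟩, a6, a7⟩ | ⟨x, hx, he⟩)
      · exact Or.inl ⟨a1, Ne.symm a2, Ne.symm a4, Ne.symm a6, Ne.symm a3, Ne.symm a5, Ne.symm a7⟩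
      · rw [pair_eq_pair hbc] at he
        rcases he with ⟨rfl, rfl⟩ | ⟨rfl, rfl⟩
        · exact Or.inr (Or.inl ⟨rfl, hx⟩)
        · exact Or.inr (Or.inr ⟨rfl, hx⟩)
    · rintro (⟨a1, a2, a3, a4, a5, a6, a7⟩ | ⟨rfl, hx⟩ | ⟨rfl, hx⟩)
      · exact Or.inl ⟨a1, ⟨Ne.symm a2, Ne.symm a5⟩, ⟨Ne.symm a3, Ne.symm a6⟩,
          Ne.symm a4, Ne.symm a7⟩
      · exact Or.inr ⟨c, hx, rfl⟩
      · exact Or.inr ⟨b, hx, Finset.pair_comm _ _⟩
  · by_cases ho : o ∈ vs T \ F₀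
    · exact Or.inl ho
    · exact Or.inr ⟨hmeet _ oX2 D.nX epX2 ho, hmeet _ oY2 D.nY epY2 ho,
        hmeet _ (Ne.symm no) (D.nN n (by simp)) epn ho⟩

/-- **induction over triangulated spheres**: a property `P E I` (`E` the edges, `I` the vertices which
are not pinned) which holds for the octahedron and is preserved by the rules holds for all triangulated
spheres without separating triangles, pinned at the vertices of a triangle -/
theorem sph_ind (P : Finset (Finset V) → Finset V → Prop)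
    (base : ∀ (T : Finset (Finset V)) (F₀ : Finset V), Sph T → Fac3 T → F₀ ∈ T → T.card = 8 →
      P (edges T) (vs T \ F₀))
    (hT4 : ∀ (E E' : Finset (Finset V)) (I : Finset V) (v1 v2 x y z u : V),
      T4Data E E' I v1 v2 x y z u → P E' (I.erase v1) → P E I)
    (hF3 : ∀ (E E' : Finset (Finset V)) (I : Finset V) (o v1 v2 x y a : V) (N1 N2 : Finset V),
      F3Data E E' I o v1 v2 x y a N1 N2 → P E' ((I.erase v1).erase v2) → P E I)
    (hD3 : ∀ (E E' : Finset (Finset V)) (I : Finset V) (o p v w x1 x2 y1 y2 n : V),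
      D3Data E E' I o p v w x1 x2 y1 y2 n → P E' (((I.erase p).erase v).erase w) → P E I)
    {T : Finset (Finset V)} (h : Sph T) (hF : Fac3 T) {F₀ : Finset V}
    (hF₀ : F₀ ∈ T) (h8 : 8 ≤ T.card) : P (edges T) (vs T \ F₀) := by
  induction hn : T.card using Nat.strong_induction_on generalizing T with
  | _ n ih =>
    by_cases h8' : T.card = 8
    · exact base T F₀ h hF hF₀ h8'
    · have h10 : 10 ≤ T.card := by
        have := h.even_card
        obtain ⟨k, hk⟩ := this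
        omega
      obtain ⟨T', s1, s2, s3, s4, s5, h1 | h2 | h3⟩ := comb_data h hF h10 hF₀
      · obtain ⟨v₁, v₂, X, Y, z, u, D⟩ := h1
        obtain ⟨d1, d2⟩ := D.data
        have := ih T'.card (by omega) s1 s2 s3 s4 rfl
        rw [d2] at this
        exact hT4 _ _ _ _ _ _ _ _ _ d1 this
      · obtain ⟨o, v₁, v₂, X, Y, A, N₁, N₂, D⟩ := h2
        obtain ⟨d1, d2⟩ := D.data
        have := ih T'.card (by omega) s1 s2 s3 s4 rfl
        rw [d2] at this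
        exact hF3 _ _ _ _ _ _ _ _ _ _ _ d1 this
      · obtain ⟨o, p, v, w, X₁, X₂, Y₁, Y₂, N, D⟩ := h3
        obtain ⟨n, d1, d2⟩ := D.data s1 hF₀ s3
        have := ih T'.card (by omega) s1 s2 s3 s4 rfl
        rw [d2] at this
        exact hD3 _ _ _ _ _ _ _ _ _ _ _ _ d1 this

end Pool.Agent.Spl2
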