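import Pool.Agent.Spl2.SphCtrH

/-!
# Contraction of a triangle

`{o, v₁, v₂}` is a triangle, `T' = ctr (ctr T v₁ o) v₂ o`.

Paper proof.  `T₁ = ctr T v₁ o` is a sphere (`Fac3.lc`, `sph_ctr`), `|T₁| = |T| - 2 ≥ 8`, `{v₂,o}` is an edge
of `T₁`.  `LC T₁ v₂ o`: let `x ≠ v₂, o`, `{v₂,x}, {o,x} ∈ edges T₁`.  By `edges_ctr` `x ≠ v₁`,
`{v₂,x} ∈ edges T` and `{o,x} ∈ edges T` or `{v₁,x} ∈ edges T`.  In the first case
`{v₂,o,x} ∈ T` (`Fac3`) does not contain `v₁`, so it is in `T₁`; in the second case `{v₁,v₂,x} ∈ T`, and its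
image is `{o,v₂,x}` (`mem_ctr_of_tri`).  So `T'` is a sphere with `|T'| + 4 = |T|`.
`EdgeRel`: compose the two `EdgeRel`s (`{v₁} o`, then `{v₂} o`).
`Fac3 T'`: let `x y z` be a 3-cycle of `T'`; the vertices are not `v₁, v₂`.  If `o` is not one of them,
the edges are in `T`, `{x,y,z} ∈ T`, and it stays in `T'`.  If `x = o` (permute): `{y,z} ∈ edges T`, and
there are `s, s' ∈ {o,v₁,v₂}` with `{s,y}, {s',z} ∈ edges T`.  If we can take `s = s'`, then `{s,y,z} ∈ T`
and its image is `{o,y,z}`.  Otherwise `s ≠ s'`, `{s,z}, {s',y} ∉ edges T`, so `IsQ T s s' z y`, and by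
hypothesis `{s'',y,z} ∈ T` for some `s'' ∈ {o,v₁,v₂}`, and again its image is `{o,y,z}`.
(Image of `{s,y,z} ∈ T`, `s ∈ {o,v₁,v₂}`, `y, z` different from `o, v₁, v₂`, in `T'`: `s = o`: it stays;
`s = v₁`: `mem_ctr_of_tri`, then it stays; `s = v₂`: it stays in `T₁`, then `mem_ctr_of_tri`.)
-/

set_option autoImplicit false

namespace Pool.Agent.Spl2

open Finset Pool.Agent.Spl1

variable {V : Type*} [Fintype V] [DecidableEq V]

private theorem face_edgeRel {T T₁ T' : Finset (Finset V)} {o v₁ v₂ : V} (ho1 : o ≠ v₁)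
    (ho2 : o ≠ v₂) (h12 : v₁ ≠ v₂) (E1 : EdgeRel T T₁ {v₁} o) (E2 : EdgeRel T₁ T' {v₂} o) :
    EdgeRel T T' {v₁, v₂} o := by
  intro x y hxy
  rw [E2 x y hxy]
  by_cases hx2 : x = v₂
  · subst hx2
    simp
  by_cases hy2 : y = v₂
  · subst hy2
    simp
  have e1 := E1 x y hxy
  have e2 := E1 v₂ y (Ne.symm hy2)
  have e3 := E1 v₂ x (Ne.symm hx2)
  have ho2' : v₂ ≠ o := ho2.symm
  have h12' : v₂ ≠ v₁ := h12.symm
  simp only [Finset.mem_insert, Finset.mem_singleton, exists_eq_left, exists_eq_or_imp] at e1 e2 e3 ⊢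
  rw [e1, e2, e3]
  clear e1 e2 e3 E1 E2
  by_cases hx : x = o
  · have hy : y ≠ o := fun h => hxy (hx.trans h.symm)
    simp only [hx, hy, ho2', h12', ho2, ho1, hy2, false_and, true_and, or_false, false_or,
      not_false_eq_true, not_or]
    generalize (({o, y} : Finset V) ∈ edges T) = p1
    generalize (({v₁, y} : Finset V) ∈ edges T) = p2
    generalize (({v₂, y} : Finset V) ∈ edges T) = p3
    generalize (y = v₁) = p4
    clear hx hy hx2 hy2 hxy ho2' h12' ho1 ho2 h12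
    tauto
  · by_cases hy : y = o
    · simp only [hx, hy, ho2', h12', ho2, ho1, hx2, false_and, true_and, or_false, false_or,
        not_false_eq_true, not_or]
      generalize (({x, o} : Finset V) ∈ edges T) = p1
      generalize (({v₁, x} : Finset V) ∈ edges T) = p2
      generalize (({v₂, x} : Finset V) ∈ edges T) = p3
      generalize (x = v₁) = p4
      clear hx hy hx2 hy2 hxy ho2' h12' ho1 ho2 h12
      tauto
    · simp only [hx, hy, hx2, hy2, false_and, or_false,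
        not_false_eq_true, not_or, and_true, true_and]

theorem face_ctr {T : Finset (Finset V)} (h : Sph T) (hF : Fac3 T) (h10 : 10 ≤ T.card)
    {o v₁ v₂ : V} (ht : ({o, v₁, v₂} : Finset V) ∈ T)
    (hQ : ∀ s s' y z : V, s ∈ ({o, v₁, v₂} : Finset V) → s' ∈ ({o, v₁, v₂} : Finset V) →
      IsQ T s s' z y → ∃ s'' ∈ ({o, v₁, v₂} : Finset V), ({s'', y, z} : Finset V) ∈ T) :
    ∃ T' : Finset (Finset V), Sph T' ∧ Fac3 T' ∧ T'.card + 4 = T.card ∧
      EdgeRel T T' {v₁, v₂} o ∧ ∀ F ∈ T, v₁ ∉ F → v₂ ∉ F → F ∈ T' := by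
  have hc3 := h.card3 _ ht
  have ho1 : o ≠ v₁ := by
    rintro rfl
    have : ({o, o, v₂} : Finset V).card ≤ 2 := by
      rw [Finset.insert_idem]
      exact Finset.card_le_two
    omega
  have ho2 : o ≠ v₂ := by
    rintro rfl
    have : ({o, v₁, o} : Finset V).card ≤ 2 := by
      rw [Finset.pair_comm v₁ o, Finset.insert_idem]
      exact Finset.card_le_two
    omega
  have h12 : v₁ ≠ v₂ := by
    rintro rfl
    have : ({o, v₁, v₁} : Finset V).card ≤ 2 := by
      rw [Finset.pair_eq_singleton]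
      exact Finset.card_le_two
    omega
  have he1 : ({v₁, o} : Finset V) ∈ edges T := edge_of_tri ht ho1.symm (by simp) (by simp)
  have he2 : ({v₂, o} : Finset V) ∈ edges T := edge_of_tri ht ho2.symm (by simp) (by simp)
  have he12 : ({v₁, v₂} : Finset V) ∈ edges T := edge_of_tri ht h12 (by simp) (by simp)
  have hT1 : Sph (ctr T v₁ o) := sph_ctr h he1 (hF.lc he1) (by omega)
  have hc1 := ctr_card h he1 (hF.lc he1) (by omega)
  have E1 := edges_ctr h ho1.symm (v := v₁) (o := o)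
  have he2' : ({v₂, o} : Finset V) ∈ edges (ctr T v₁ o) := by
    rw [E1 v₂ o ho2.symm]
    refine ⟨by simpa using h12.symm, by simpa using ho1, Or.inl he2⟩
  have hL2 : LC (ctr T v₁ o) v₂ o := by
    intro x hx2 hxo h1 h2
    rw [E1 v₂ x (Ne.symm hx2)] at h1
    rw [E1 o x (Ne.symm hxo)] at h2
    obtain ⟨-, hx1, h1⟩ := h1
    obtain ⟨-, -, h2⟩ := h2
    have hx1' : x ≠ v₁ := by simpa using hx1
    have h1' : ({v₂, x} : Finset V) ∈ edges T := by
      rcases h1 with h1 | ⟨h1, -⟩ | ⟨h1, -⟩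
      · exact h1
      · exact absurd h1.symm ho2
      · exact absurd h1 hxo
    rcases h2 with h2 | ⟨-, s, hs, h2⟩ | ⟨h2, -⟩
    · refine mem_ctr_of_mem (hF v₂ o x ho2.symm (Ne.symm hxo) (Ne.symm hx2) he2 h2 h1') ?_
      simp [h12, ho1.symm, Ne.symm hx1']
    · rw [Finset.mem_singleton] at hs
      subst hs
      have h3 := hF s v₂ x h12 (Ne.symm hx2) (Ne.symm hx1') he12 h1' h2
      have h4 := mem_ctr_of_tri (o := o) h3 ho1.symm h12 (Ne.symm hx1') ho2 (Ne.symm hxo)
      rwa [Finset.insert_comm]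
    · exact absurd h2 hxo
  have hT2 : Sph (ctr (ctr T v₁ o) v₂ o) := sph_ctr hT1 he2' hL2 (by omega)
  have hc2 := ctr_card hT1 he2' hL2 (by omega)
  have E2 := edges_ctr hT1 ho2.symm (v := v₂) (o := o)
  have E := face_edgeRel ho1 ho2 h12 E1 E2
  have hstay : ∀ F ∈ T, v₁ ∉ F → v₂ ∉ F → F ∈ ctr (ctr T v₁ o) v₂ o := fun F hFT h1 h2 =>
    mem_ctr_of_mem (mem_ctr_of_mem hFT h1) h2
  have himg : ∀ s y z : V, s ∈ ({o, v₁, v₂} : Finset V) → y ≠ o → y ≠ v₁ → y ≠ v₂ → z ≠ o →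
      z ≠ v₁ → z ≠ v₂ → ({s, y, z} : Finset V) ∈ T →
      ({o, y, z} : Finset V) ∈ ctr (ctr T v₁ o) v₂ o := by
    intro s y z hs yo y1 y2 zo z1 z2 hyz
    simp only [Finset.mem_insert, Finset.mem_singleton] at hs
    rcases hs with rfl | rfl | rfl
    · refine hstay _ hyz ?_ ?_
      · simp [ho1.symm, Ne.symm y1, Ne.symm z1]
      · simp [ho2.symm, Ne.symm y2, Ne.symm z2]
    · refine mem_ctr_of_mem (mem_ctr_of_tri (o := o) hyz ho1.symm (Ne.symm y1) (Ne.symm z1)
        (Ne.symm yo) (Ne.symm zo)) ?_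
      simp [ho2.symm, Ne.symm y2, Ne.symm z2]
    · refine mem_ctr_of_tri (mem_ctr_of_mem hyz ?_) ho2.symm (Ne.symm y2) (Ne.symm z2)
        (Ne.symm yo) (Ne.symm zo)
      simp [h12, Ne.symm y1, Ne.symm z1]
  have hcore : ∀ y z : V, y ≠ z → y ≠ o → z ≠ o →
      ({o, y} : Finset V) ∈ edges (ctr (ctr T v₁ o) v₂ o) →
      ({y, z} : Finset V) ∈ edges (ctr (ctr T v₁ o) v₂ o) →
      ({o, z} : Finset V) ∈ edges (ctr (ctr T v₁ o) v₂ o) →
      ({o, y, z} : Finset V) ∈ ctr (ctr T v₁ o) v₂ o := by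
    intro y z hyz yo zo h1 h2 h3
    rw [E o y (Ne.symm yo)] at h1
    rw [E y z hyz] at h2
    rw [E o z (Ne.symm zo)] at h3
    obtain ⟨-, hy, h1⟩ := h1
    obtain ⟨-, hz, h2⟩ := h2
    obtain ⟨-, -, h3⟩ := h3
    simp only [Finset.mem_insert, Finset.mem_singleton, not_or] at hy hz
    have hyzT : ({y, z} : Finset V) ∈ edges T := by
      rcases h2 with h2 | ⟨h2, -⟩ | ⟨h2, -⟩
      · exact h2
      · exact absurd h2 yo
      · exact absurd h2 zo
    have hsub : ∀ s ∈ ({v₁, v₂} : Finset V), s ∈ ({o, v₁, v₂} : Finset V) := by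
      intro s hs
      exact Finset.mem_insert_of_mem hs
    obtain ⟨s, hs, hsy⟩ : ∃ s ∈ ({o, v₁, v₂} : Finset V), ({s, y} : Finset V) ∈ edges T := by
      rcases h1 with h1 | ⟨-, s, hs, h1⟩ | ⟨h1, -⟩
      · exact ⟨o, by simp, h1⟩
      · exact ⟨s, hsub s hs, h1⟩
      · exact absurd h1 yo
    obtain ⟨s', hs', hsz⟩ : ∃ s ∈ ({o, v₁, v₂} : Finset V), ({s, z} : Finset V) ∈ edges T := by
      rcases h3 with h3 | ⟨-, s, hs, h3⟩ | ⟨h3, -⟩
      · exact ⟨o, by simp, h3⟩
      · exact ⟨s, hsub s hs, h3⟩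
      · exact absurd h3 zo
    have hfin : ∀ r ∈ ({o, v₁, v₂} : Finset V), ({r, y} : Finset V) ∈ edges T →
        ({r, z} : Finset V) ∈ edges T → ({o, y, z} : Finset V) ∈ ctr (ctr T v₁ o) v₂ o := by
      intro r hr hry hrz
      exact himg r y z hr yo hy.1 hy.2 zo hz.1 hz.2
        (hF r y z (edge_ne hry) hyz (edge_ne hrz) hry hyzT hrz)
    by_cases hsz' : ({s, z} : Finset V) ∈ edges T
    · exact hfin s hs hsy hsz'
    by_cases hsy' : ({s', y} : Finset V) ∈ edges T
    · exact hfin s' hs' hsy' hsz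
    have hss : s ≠ s' := by
      rintro rfl
      exact hsz' hsz
    have hq : IsQ T s s' z y :=
      { ab := hss
        bc := edge_ne hsz
        cd := hyz.symm
        da := (edge_ne hsy).symm
        ac := by
          rintro rfl
          simp only [Finset.mem_insert, Finset.mem_singleton] at hs
          rcases hs with h | h | h
          · exact zo h
          · exact hz.1 h
          · exact hz.2 h
        bd := by
          rintro rfl
          simp only [Finset.mem_insert, Finset.mem_singleton] at hs'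
          rcases hs' with h | h | h
          · exact yo h
          · exact hy.1 h
          · exact hy.2 h
        eab := edge_of_tri ht hss hs hs'
        ebc := hsz
        ecd := edge_swap hyzT
        eda := edge_swap hsy
        nac := hsz'
        nbd := hsy' }
    obtain ⟨r, hr, hryz⟩ := hQ s s' y z hs hs' hq
    exact himg r y z hr yo hy.1 hy.2 zo hz.1 hz.2 hryz
  refine ⟨ctr (ctr T v₁ o) v₂ o, hT2, ?_, by omega, E, hstay⟩
  intro x y z hxy hyz hxz h1 h2 h3
  by_cases hxo : x = o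
  · subst hxo
    exact hcore y z hyz hxy.symm hxz.symm h1 h2 h3
  by_cases hyo : y = o
  · subst hyo
    have h := hcore x z hxz hxo hyz.symm (edge_swap h1) h3 h2
    rwa [Finset.insert_comm]
  by_cases hzo : z = o
  · subst hzo
    have h := hcore x y hxy hxo hyo (edge_swap h3) h1 (edge_swap h2)
    have e : ({x, y, z} : Finset V) = {z, x, y} := by
      ext w
      simp only [Finset.mem_insert, Finset.mem_singleton]
      tauto
    rw [e]
    exact h
  rw [E x y hxy] at h1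
  rw [E y z hyz] at h2
  rw [E x z hxz] at h3
  obtain ⟨hx, hy, h1⟩ := h1
  obtain ⟨-, hz, h2⟩ := h2
  obtain ⟨-, -, h3⟩ := h3
  simp only [Finset.mem_insert, Finset.mem_singleton, not_or] at hx hy hz
  simp only [hxo, hyo, hzo, false_and, or_false] at h1 h2 h3
  refine hstay _ (hF x y z hxy hyz hxz h1 h2 h3) ?_ ?_
  · simp [Ne.symm hx.1, Ne.symm hy.1, Ne.symm hz.1]
  · simp [Ne.symm hx.2, Ne.symm hy.2, Ne.symm hz.2]

end Pool.Agent.Spl2
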