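import Pool.Agent.Spl2.SphReg0
import Pool.Agent.Spl2.SphFace

/-!
# Contraction of a triangle inside a minimal region

Paper proof.  `reg_tri`: `B ≠ ∅` (`size34`); let `b ∈ B`.  `vdeg (bdry D) b = 2` (`vd`): there are exactly two
edges `{b,b'}`, `{b,b''}` of `T` inside `B` (`bd`), each is in exactly one triangle of `D` (`tdeg D` is odd and
`≤ 2`).  Since `3 ≤ |star D b|` there is a triangle `{b,x,x'} ∈ D` which contains neither `b'` nor `b''`, so
`x, x' ∉ B` (if `x ∈ B`, then `{b,x} ∈ edges T` is inside `B`, so it is in `bdry D`).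
`reg_face`: apply `face_ctr`.  `hQ`: let `s, s' ∈ {o,v₁,v₂}`, `IsQ T s s' z y`; `s ≠ s'`; one of `s, s'` is
`v₁` or `v₂`, it is not in `B` and its star in `D` is not empty; `c3` gives `w` with `star T w ⊆ D`, degree
`4`, and `bdry (star T w) = qb s s' z y`.  The edge `{s,s'}` is in the boundary, so there is a triangle of
`star T w` which contains `w, s, s'` (and `w ≠ s, s'`: an edge of `bdry (star T w)` does not contain `w`,
because the edges `{w,u}` are in `0` or `2` triangles, all in `star T w`), so `{s,s',w} ∈ T`; let `s''` be the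
third vertex of `{o,v₁,v₂}`; if `w ≠ s''` this contradicts `hap`.  So `w = s''`, and the edge `{z,y}` of the
boundary gives `{w,z,y} ∈ T`.
`v₁ ∉ F₀`: `star T v₁ ⊆ D` (`Reg0.inn`) and `F₀ ∉ D`.
`reg_f3`: if there is no vertex `v` of degree `4` with `star T v ⊆ D`: use `reg_tri` and `reg_face` (`hap` is
clear).  If there is one, and a triangle `{v,p,q}` with `{p,q} ⊄ B` and a vertex `r ≠ v` with
`{p,q,r} ∈ T`, which is not (of degree `4` with `star T r ⊆ D`): we may assume `p ∉ B` (exchange); take
`o = q`, `v₁ = v`, `v₂ = p` (`v ∉ B` since `star T v ⊆ D` and `corn`; `{q,v,p} ∈ star T v ⊆ D`).  `hap`: for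
the edge `p q` the other apex is `r` (`Sph.link_two`); for the edges `v p`, `v q` the other apex is adjacent
to `v`, if it had degree `4` and its star in `D` this would contradict `NoT4` (`v` and it are not in `F₀`).
-/

set_option autoImplicit false

namespace Pool.Agent.Spl2

open Finset Pool.Agent.Spl1

variable {V : Type*} [Fintype V] [DecidableEq V]

/-- three different vertices -/
theorem f3_card_three {V : Type*} [DecidableEq V] {a b c : V}
    (h : ({a, b, c} : Finset V).card = 3) : a ≠ b ∧ b ≠ c ∧ a ≠ c := by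
  refine ⟨?_, ?_, ?_⟩
  · rintro rfl
    have h1 : ({a, a, c} : Finset V) = {a, c} := by simp
    rw [h1] at h
    have := card_le_two (a := a) (b := c)
    omega
  · rintro rfl
    have h1 : ({a, b, b} : Finset V) = {a, b} := by simp
    rw [h1] at h
    have := card_le_two (a := a) (b := b)
    omega
  · rintro rfl
    have h1 : ({a, b, a} : Finset V) = {a, b} := by
      ext z
      simp only [mem_insert, mem_singleton]
      tauto
    rw [h1] at h
    have := card_le_two (a := a) (b := b)
    omega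

/-- a triangle with three given vertices -/
theorem f3_eq_of_mem {V : Type*} [DecidableEq V] {t : Finset V} (ht : t.card = 3) {a b c : V}
    (ab : a ≠ b) (bc : b ≠ c) (ac : a ≠ c) (ha : a ∈ t) (hb : b ∈ t) (hc : c ∈ t) :
    ({a, b, c} : Finset V) = t := by
  apply eq_of_subset_of_card_le
  · intro z hz
    simp only [mem_insert, mem_singleton] at hz
    rcases hz with rfl | rfl | rfl
    · exact ha
    · exact hb
    · exact hc
  · rw [ht, card_eq_three.mpr ⟨a, b, c, ab, ac, bc, rfl⟩]

/-- a triangle which contains `v` -/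
theorem f3_exists_tri {V : Type*} [DecidableEq V] {t : Finset V} (ht : t.card = 3) {v : V}
    (hv : v ∈ t) : ∃ x y : V, x ≠ y ∧ v ≠ x ∧ v ≠ y ∧ t = {v, x, y} := by
  have h2 : (t.erase v).card = 2 := by rw [card_erase_of_mem hv, ht]
  obtain ⟨x, y, hxy, he⟩ := card_eq_two.mp h2
  refine ⟨x, y, hxy, ?_, ?_, ?_⟩
  · rintro rfl
    have : v ∈ t.erase v := by rw [he]; simp
    simp at this
  · rintro rfl
    have : v ∈ t.erase v := by rw [he]; simp
    simp at this
  · rw [← insert_erase hv, he]

/-- boundary edges of a star -/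
theorem f3_bdry_star {T : Finset (Finset V)} (h : Sph T) {w p q : V}
    (he : ({p, q} : Finset V) ∈ bdry (star T w)) :
    ({p, q, w} : Finset V) ∈ T ∧ w ≠ p ∧ w ≠ q := by
  rw [mem_bdry] at he
  obtain ⟨hc, hodd⟩ := he
  have hpq : p ≠ q := by
    rintro rfl
    simp at hc
  have hpos : 0 < tdeg (star T w) {p, q} := hodd.pos
  unfold tdeg at hpos
  obtain ⟨t, ht⟩ := card_pos.mp hpos
  rw [mem_filter, mem_star] at ht
  obtain ⟨⟨htT, hwt⟩, hsub⟩ := ht
  have hpt : p ∈ t := hsub (by simp)
  have hqt : q ∈ t := hsub (by simp)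
  have hedge : ({p, q} : Finset V) ∈ edges T := edge_of_tri htT hpq hpt hqt
  have hw : w ∉ ({p, q} : Finset V) := by
    intro hw
    have e : tdeg (star T w) {p, q} = tdeg T {p, q} := by
      unfold tdeg
      congr 1
      ext s
      simp only [mem_filter, mem_star]
      constructor
      · rintro ⟨⟨h1, _⟩, h2⟩
        exact ⟨h1, h2⟩
      · rintro ⟨h1, h2⟩
        exact ⟨⟨h1, h2 hw⟩, h2⟩
    rw [e, h.two _ hedge] at hodd
    exact absurd hodd (by decide)
  have hwp : w ≠ p := by
    rintro rfl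
    exact hw (by simp)
  have hwq : w ≠ q := by
    rintro rfl
    exact hw (by simp)
  refine ⟨?_, hwp, hwq⟩
  rw [f3_eq_of_mem (h.card3 t htT) hpq hwq.symm hwp.symm hpt hqt hwt]
  exact htT

theorem reg_tri {T : Finset (Finset V)} (h : Sph T) {F₀ : Finset V} {D : Finset (Finset V)}
    {B : Finset V} (hR : Reg T F₀ D B) :
    ∃ b x x' : V, b ∈ B ∧ x ∉ B ∧ x' ∉ B ∧ ({b, x, x'} : Finset V) ∈ D := by
  have hB : B.Nonempty := by
    rw [← card_pos]
    rcases hR.size34 with h' | h' <;> omega
  obtain ⟨b, hb⟩ := hB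
  have h3 := (hR.corn b hb).1
  have hv := hR.vd b hb
  set E : Finset (Finset V) := (bdry D).filter (fun e => b ∈ e) with hE
  have hEc : E.card = 2 := hv
  set Bad : Finset (Finset V) := E.biUnion (fun e => D.filter (fun t => e ⊆ t)) with hBad
  have hBc : Bad.card ≤ 2 := by
    calc Bad.card ≤ ∑ e ∈ E, (D.filter (fun t => e ⊆ t)).card := card_biUnion_le
      _ ≤ ∑ _e ∈ E, 1 := by
          apply sum_le_sum
          intro e he
          rw [hE, mem_filter] at he
          have h5 := ((hR.bd e).1 he.1).1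
          have h6 := h.two e h5
          have h7 : tdeg D e ≤ tdeg T e := by
            unfold tdeg
            exact card_le_card (filter_subset_filter _ hR.sub)
          have h8 := (mem_bdry.1 he.1).2
          have h9 : tdeg D e = 1 := by
            rcases h8 with ⟨k, hk⟩
            omega
          exact h9.le
      _ = 2 := by rw [sum_const, hEc]; rfl
  have hlt : Bad.card < (star D b).card := by omega
  obtain ⟨t, ht, htB⟩ := exists_mem_notMem_of_card_lt_card hlt
  rw [mem_star] at ht
  obtain ⟨x, y, _, hbx, hby, rfl⟩ := f3_exists_tri (h.card3 t (hR.sub ht.1)) ht.2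
  have key : ∀ z : V, b ≠ z → z ∈ ({b, x, y} : Finset V) → z ∉ B := by
    intro z hbz hz hzB
    apply htB
    rw [hBad, mem_biUnion]
    have hsub : ({b, z} : Finset V) ⊆ {b, x, y} := by
      intro u hu
      simp only [mem_insert, mem_singleton] at hu
      rcases hu with rfl | rfl
      · simp
      · exact hz
    refine ⟨{b, z}, ?_, ?_⟩
    · rw [hE, mem_filter]
      refine ⟨(hR.bd _).2 ⟨?_, ?_⟩, by simp⟩
      · exact edge_of_tri (hR.sub ht.1) hbz (by simp) hz
      · intro u hu
        simp only [mem_insert, mem_singleton] at hu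
        rcases hu with rfl | rfl
        · exact hb
        · exact hzB
    · rw [mem_filter]
      exact ⟨ht.1, hsub⟩
  exact ⟨b, x, y, hb, key x hbx (by simp), key y hby (by simp), ht.1⟩

/-- the conclusion of the contraction of a triangle -/
def ConF3 (T : Finset (Finset V)) (F₀ : Finset V) : Prop :=
  ∃ o v₁ v₂ : V, ({o, v₁, v₂} : Finset V) ∈ T ∧ v₁ ∉ F₀ ∧ v₂ ∉ F₀ ∧
    ∃ T' : Finset (Finset V), Sph T' ∧ Fac3 T' ∧ T'.card + 4 = T.card ∧
      EdgeRel T T' {v₁, v₂} o ∧ F₀ ∈ T'

/-- the third vertex of a triangle -/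
theorem f3_third {V : Type*} [DecidableEq V] {o v₁ v₂ s s' : V}
    (hs : s ∈ ({o, v₁, v₂} : Finset V)) (hs' : s' ∈ ({o, v₁, v₂} : Finset V)) (hss : s ≠ s') :
    ∃ s'' ∈ ({o, v₁, v₂} : Finset V), ({s, s', s''} : Finset V) = {o, v₁, v₂} := by
  simp only [mem_insert, mem_singleton] at hs hs'
  rcases hs with rfl | rfl | rfl <;> rcases hs' with rfl | rfl | rfl
  · exact absurd rfl hss
  · exact ⟨v₂, by simp, rfl⟩
  · refine ⟨v₁, by simp, ?_⟩
    ext z
    simp only [mem_insert, mem_singleton]
    tauto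
  · refine ⟨v₂, by simp, ?_⟩
    ext z
    simp only [mem_insert, mem_singleton]
    tauto
  · exact absurd rfl hss
  · refine ⟨o, by simp, ?_⟩
    ext z
    simp only [mem_insert, mem_singleton]
    tauto
  · refine ⟨v₁, by simp, ?_⟩
    ext z
    simp only [mem_insert, mem_singleton]
    tauto
  · refine ⟨o, by simp, ?_⟩
    ext z
    simp only [mem_insert, mem_singleton]
    tauto
  · exact absurd rfl hss

theorem reg_face {T : Finset (Finset V)} (h : Sph T) (hF : Fac3 T) (h10 : 10 ≤ T.card)
    {F₀ : Finset V} {D : Finset (Finset V)} {B : Finset V} (hR : Reg T F₀ D B)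
    {o v₁ v₂ : V} (ht : ({o, v₁, v₂} : Finset V) ∈ D) (h1 : v₁ ∉ B) (h2 : v₂ ∉ B)
    (hap : ∀ s s' s'' r : V, ({s, s', s''} : Finset V) = {o, v₁, v₂} →
      ({s, s', r} : Finset V) ∈ T → r ≠ s'' → r ≠ s → r ≠ s' →
      ¬ ((star T r).card = 4 ∧ star T r ⊆ D)) : ConF3 T F₀ := by
  have htT := hR.sub ht
  have hn1 : (star D v₁).Nonempty := ⟨_, mem_star.2 ⟨ht, by simp⟩⟩
  have hn2 : (star D v₂).Nonempty := ⟨_, mem_star.2 ⟨ht, by simp⟩⟩
  have hv1 : v₁ ∉ F₀ := fun hh =>
    hR.nF (hR.toReg0.inn h h1 hn1 (mem_star.2 ⟨hR.hF, hh⟩))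
  have hv2 : v₂ ∉ F₀ := fun hh =>
    hR.nF (hR.toReg0.inn h h2 hn2 (mem_star.2 ⟨hR.hF, hh⟩))
  obtain ⟨T', hS, hF', hc, hE, hmem⟩ := face_ctr h hF h10 htT (by
    intro s s' y z hs hs' hQ
    have hss := hQ.ab
    -- one of the two vertices is inside
    have hx : ∃ x ∈ ({s, s', z, y} : Finset V), x ∉ B ∧ (star D x).Nonempty := by
      simp only [mem_insert, mem_singleton] at hs hs'
      rcases hs with rfl | rfl | rfl
      · rcases hs' with rfl | rfl | rfl
        · exact absurd rfl hss
        · exact ⟨s', by simp, h1, hn1⟩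
        · exact ⟨s', by simp, h2, hn2⟩
      · exact ⟨s, by simp, h1, hn1⟩
      · exact ⟨s, by simp, h2, hn2⟩
    obtain ⟨x, hxm, hxB, hxn⟩ := hx
    obtain ⟨w, hwD, hw4, hwb⟩ := hR.c3 s s' z y x hQ hxm hxB hxn
    have e1 : ({s, s'} : Finset V) ∈ bdry (star T w) := by
      rw [hwb, mem_qb]
      exact Or.inl rfl
    have e2 : ({z, y} : Finset V) ∈ bdry (star T w) := by
      rw [hwb, mem_qb]
      exact Or.inr (Or.inr (Or.inl rfl))
    obtain ⟨f1, f2, f3⟩ := f3_bdry_star h e1
    obtain ⟨g1, _, _⟩ := f3_bdry_star h e2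
    obtain ⟨s'', hs'', hset⟩ := f3_third hs hs' hss
    have hw : w = s'' := by
      by_contra hne
      exact hap s s' s'' w hset f1 hne f2 f3 ⟨hw4, hwD⟩
    refine ⟨s'', hs'', ?_⟩
    rw [← hw]
    have e3 : ({w, y, z} : Finset V) = {z, y, w} := by
      ext u
      simp only [mem_insert, mem_singleton]
      tauto
    rw [e3]
    exact g1)
  exact ⟨o, v₁, v₂, htT, hv1, hv2, T', hS, hF', hc, hE, hmem F₀ hR.hF hv1 hv2⟩

/-- the link edges of the vertices of degree `4` of the region are blocked -/
def Blk (T : Finset (Finset V)) (D : Finset (Finset V)) (B : Finset V) : Prop :=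
  ∀ v p q : V, (star T v).card = 4 → star T v ⊆ D → ({v, p, q} : Finset V) ∈ T →
    ¬ (p ∈ B ∧ q ∈ B) → ∀ r : V, r ≠ v → r ≠ p → r ≠ q → ({p, q, r} : Finset V) ∈ T →
    (star T r).card = 4 ∧ star T r ⊆ D

/-- the contraction at a vertex of degree `4` with an unblocked link edge -/
theorem f3_unblocked {T : Finset (Finset V)} (h : Sph T) (hF : Fac3 T) (h10 : 10 ≤ T.card)
    {F₀ : Finset V} (hN : NoT4 T F₀) {D : Finset (Finset V)} {B : Finset V}
    (hR : Reg T F₀ D B) {v p q r : V} (hv4 : (star T v).card = 4) (hvD : star T v ⊆ D)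
    (ht : ({v, p, q} : Finset V) ∈ T) (hpB : p ∉ B) (hrv : r ≠ v)
    (ht' : ({p, q, r} : Finset V) ∈ T)
    (hr : ¬ ((star T r).card = 4 ∧ star T r ⊆ D)) : ConF3 T F₀ := by
  obtain ⟨hvp, hpq, hvq⟩ := f3_card_three (h.card3 _ ht)
  obtain ⟨_, hqr, hpr⟩ := f3_card_three (h.card3 _ ht')
  have hvB : v ∉ B := fun hh => (hR.corn v hh).2.2 hvD
  have e0 : ({q, v, p} : Finset V) = {v, p, q} := by
    ext u
    simp only [mem_insert, mem_singleton]
    tauto
  have htD : ({q, v, p} : Finset V) ∈ D := by
    rw [e0]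
    exact hvD (mem_star.2 ⟨ht, by simp⟩)
  have nF : ∀ x : V, star T x ⊆ D → x ∉ F₀ := fun x hx hh =>
    hR.nF (hx (mem_star.2 ⟨hR.hF, hh⟩))
  refine reg_face h hF h10 hR htD hvB hpB ?_
  intro s s' s'' r' hset hsr hr1 hr2 hr3 hbad
  have hcard : ({s, s', s''} : Finset V).card = 3 := by
    rw [hset, e0]
    exact h.card3 _ ht
  obtain ⟨hss', hs's'', hss''⟩ := f3_card_three hcard
  by_cases hv : s'' = v
  · -- the edge `p q`
    subst hv
    have hms : s ∈ ({q, s'', p} : Finset V) := by rw [← hset]; simp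
    have hms' : s' ∈ ({q, s'', p} : Finset V) := by rw [← hset]; simp
    simp only [mem_insert, mem_singleton] at hms hms'
    have hpr' : ({p, q, r'} : Finset V) ∈ T ∧ r' ≠ p ∧ r' ≠ q := by
      rcases hms with h1 | h1 | h1
      · rcases hms' with h2 | h2 | h2
        · exact absurd (h1.trans h2.symm) hss'
        · exact absurd h2 hs's''
        · rw [h1] at hsr hr2
          rw [h2] at hsr hr3
          refine ⟨?_, hr3, hr2⟩
          have e1 : ({p, q, r'} : Finset V) = {q, p, r'} := by
            ext u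
            simp only [mem_insert, mem_singleton]
            tauto
          rw [e1]
          exact hsr
      · exact absurd h1 hss''
      · rcases hms' with h2 | h2 | h2
        · rw [h1] at hsr hr2
          rw [h2] at hsr hr3
          exact ⟨hsr, hr2, hr3⟩
        · exact absurd h2 hs's''
        · exact absurd (h1.trans h2.symm) hss'
    obtain ⟨hT', hr'p, hr'q⟩ := hpr'
    have hedge : ({p, q} : Finset V) ∈ edges T := edge_of_tri ht hpq (by simp) (by simp)
    obtain ⟨w, w', hww, hwp, hwq, hwp', hwq', _, _, _, hall⟩ := h.link_two hedge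
    have mem_third : ∀ u : V, u ≠ p → u ≠ q → ({p, q, u} : Finset V) ∈ T → u = w ∨ u = w' := by
      intro u hup huq hu
      rcases hall _ hu (by simp) (by simp) with h3 | h3
      · left
        have : u ∈ ({p, q, w} : Finset V) := by rw [← h3]; simp
        simp only [mem_insert, mem_singleton] at this
        rcases this with h4 | h4 | h4
        · exact absurd h4 hup
        · exact absurd h4 huq
        · exact h4
      · right
        have : u ∈ ({p, q, w'} : Finset V) := by rw [← h3]; simp
        simp only [mem_insert, mem_singleton] at this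
        rcases this with h4 | h4 | h4
        · exact absurd h4 hup
        · exact absurd h4 huq
        · exact h4
    have e2 : ({p, q, s''} : Finset V) = {s'', p, q} := by
      ext u
      simp only [mem_insert, mem_singleton]
      tauto
    have m1 := mem_third s'' hvp hvq (by rw [e2]; exact ht)
    have m2 := mem_third r hpr.symm hqr.symm ht'
    have m3 := mem_third r' hr'p hr'q hT'
    have hrr : r' = r := by
      rcases m1 with m1 | m1 <;> rcases m2 with m2 | m2 <;> rcases m3 with m3 | m3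
      · exact m3.trans m2.symm
      · exact absurd (m2.trans m1.symm) hrv
      · exact absurd (m3.trans m1.symm) hr1
      · exact m3.trans m2.symm
      · exact m3.trans m2.symm
      · exact absurd (m3.trans m1.symm) hr1
      · exact absurd (m2.trans m1.symm) hrv
      · exact m3.trans m2.symm
    rw [hrr] at hbad
    exact hr hbad
  · -- an edge at `v`
    have hmv : v ∈ ({s, s', s''} : Finset V) := by rw [hset]; simp
    simp only [mem_insert, mem_singleton] at hmv
    have hvr : v ≠ r' ∧ v ∈ ({s, s', r'} : Finset V) := by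
      rcases hmv with h1 | h1 | h1
      · exact ⟨fun h2 => hr2 (h2.symm.trans h1), by rw [h1]; simp⟩
      · exact ⟨fun h2 => hr3 (h2.symm.trans h1), by rw [h1]; simp⟩
      · exact absurd h1.symm hv
    have hedge : ({v, r'} : Finset V) ∈ edges T := edge_of_tri hsr hvr.1 hvr.2 (by simp)
    exact hN v r' hvr.1 (nF v hvD) (nF r' hbad.2) hedge hv4 hbad.1

theorem reg_f3 {T : Finset (Finset V)} (h : Sph T) (hF : Fac3 T) (h10 : 10 ≤ T.card)
    {F₀ : Finset V} (hN : NoT4 T F₀) {D : Finset (Finset V)} {B : Finset V}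
    (hR : Reg T F₀ D B) :
    ConF3 T F₀ ∨ ((∃ v, (star T v).card = 4 ∧ star T v ⊆ D) ∧ Blk T D B) := by
  by_cases hex : ∃ v, (star T v).card = 4 ∧ star T v ⊆ D
  · by_cases hB : Blk T D B
    · exact Or.inr ⟨hex, hB⟩
    · left
      unfold Blk at hB
      push Not at hB
      obtain ⟨v, p, q, hv4, hvD, ht, hpq, r, hrv, hrp, hrq, ht', hr⟩ := hB
      have hr' : ¬ ((star T r).card = 4 ∧ star T r ⊆ D) := fun hh => hr hh.1 hh.2
      by_cases hp : p ∈ B
      · have hq : q ∉ B := hpq hp
        have e1 : ({v, q, p} : Finset V) = {v, p, q} := by rw [pair_comm q p]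
        have e2 : ({q, p, r} : Finset V) = {p, q, r} := by
          ext u
          simp only [mem_insert, mem_singleton]
          tauto
        exact f3_unblocked h hF h10 hN hR hv4 hvD (by rw [e1]; exact ht) hq hrv
          (by rw [e2]; exact ht') hr'
      · exact f3_unblocked h hF h10 hN hR hv4 hvD ht hp hrv ht' hr'
  · left
    obtain ⟨b, x, x', _, hx, hx', ht⟩ := reg_tri h hR
    exact reg_face h hF h10 hR ht hx hx' (fun s s' s'' r _ _ _ _ _ hh => hex ⟨r, hh⟩)

end Pool.Agent.Spl2
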