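import Pool.Agent.Spl2.SphBasic

/-!
# 4-cycles and vertices of degree 4

Paper proof.  `isCyc_qb`, `qb_card`, `qb_vdeg`: direct computation with four different vertices.
`qb_sub`: if `C ⊆ qb` is even and nonempty, then with an edge it contains the other edge of `qb` at each of
its ends, so everything.  `bdry_two`: `bdry {abc} ∆ bdry {acd}` (`bdry_symm`, `bdry_single`).
`deg4`: `link_enum` with `n = 4`: `a, b, c, d = w 0, w 1, w 2, w 3`; every triangle at `v` is
`{v, w i, w (i+1)}` (the four triangles are different, and there are four).  The boundary of the star: an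
edge `{v,u}` is in `0` or `2` triangles of the star, an edge `{x,y}` with `x, y ≠ v` is in `1` iff
`{v,x,y}` is one of the four.  `deg4Q`: a chord `a c` would give the 3-cycle `v a c`, hence by `Fac3` the
triangle `{v,a,c}` in the star, impossible.
`star_of_bdry`: `|bdry (star T v)| = |star T v|` (each triangle at `v` has one edge which does not contain
`v`, these edges are different and the other pairs are in `0` or `2` triangles of the star).
-/

set_option autoImplicit false

namespace Pool.Agent.Spl2

open Finset Pool.Agent.Spl1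

variable {V : Type*} [Fintype V] [DecidableEq V]

omit [Fintype V] in
private theorem pr_ne {a b c d : V} (h : ¬ ((a = c ∧ b = d) ∨ (a = d ∧ b = c))) :
    ({a, b} : Finset V) ≠ {c, d} := by
  intro he
  apply h
  have ha : a ∈ ({c, d} : Finset V) := by rw [← he]; simp
  have hb : b ∈ ({c, d} : Finset V) := by rw [← he]; simp
  have hc : c ∈ ({a, b} : Finset V) := by rw [he]; simp
  have hd : d ∈ ({a, b} : Finset V) := by rw [he]; simp
  simp only [Finset.mem_insert, Finset.mem_singleton] at ha hb hc hd
  grind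

theorem bdry_two {a b c d : V} (ab : a ≠ b) (bc : b ≠ c) (cd : c ≠ d) (da : d ≠ a) (ac : a ≠ c)
    (bd : b ≠ d) : bdry ({{a, b, c}, {a, c, d}} : Finset (Finset V)) = qb a b c d := by
  have h0 : ({a, b, c} : Finset V) ≠ {a, c, d} := by
    intro h
    have h1 : b ∈ ({a, c, d} : Finset V) := by rw [← h]; simp
    simp only [Finset.mem_insert, Finset.mem_singleton] at h1
    rcases h1 with h1 | h1 | h1
    · exact ab h1.symm
    · exact bc h1
    · exact bd h1
  have h1 : ({{a, b, c}, {a, c, d}} : Finset (Finset V)) =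
      symmDiff {({a, b, c} : Finset V)} {({a, c, d} : Finset V)} := by
    ext t
    rw [Finset.mem_symmDiff]
    simp only [Finset.mem_insert, Finset.mem_singleton]
    constructor
    · rintro (rfl | rfl)
      · exact Or.inl ⟨rfl, h0⟩
      · exact Or.inr ⟨rfl, h0.symm⟩
    · rintro (h | h)
      · exact Or.inl h.1
      · exact Or.inr h.1
  rw [h1, bdry_symm, bdry_single ab bc ac, bdry_single ac cd da.symm]
  have e1 : ({a, b} : Finset V) ≠ {a, c} := pr_ne (by tauto)
  have e2 : ({b, c} : Finset V) ≠ {a, c} := pr_ne (by tauto)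
  have e3 : ({c, d} : Finset V) ≠ {a, c} := pr_ne (by tauto)
  have e4 : ({a, d} : Finset V) ≠ {a, c} := pr_ne (by tauto)
  have e5 : ({a, b} : Finset V) ≠ {c, d} := pr_ne (by tauto)
  have e6 : ({a, b} : Finset V) ≠ {a, d} := pr_ne (by tauto)
  have e7 : ({b, c} : Finset V) ≠ {c, d} := pr_ne (by tauto)
  have e8 : ({b, c} : Finset V) ≠ {a, d} := pr_ne (by tauto)
  ext e
  rw [Finset.mem_symmDiff, mem_qb, Finset.pair_comm d a]
  simp only [Finset.mem_insert, Finset.mem_singleton]
  constructor
  · rintro (⟨h2 | h2 | h2, h3⟩ | ⟨h2 | h2 | h2, h3⟩) <;> tauto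
  · rintro (rfl | rfl | rfl | rfl)
    · left; exact ⟨Or.inl rfl, by tauto⟩
    · left; exact ⟨Or.inr (Or.inl rfl), by tauto⟩
    · right; exact ⟨Or.inr (Or.inl rfl), by rintro (h | h | h) <;> [exact e5 h.symm; exact e7 h.symm; exact e3 h]⟩
    · right; exact ⟨Or.inr (Or.inr rfl), by rintro (h | h | h) <;> [exact e6 h.symm; exact e8 h.symm; exact e4 h]⟩

theorem isCyc_qb {a b c d : V} (ab : a ≠ b) (bc : b ≠ c) (cd : c ≠ d) (da : d ≠ a) (ac : a ≠ c)
    (bd : b ≠ d) : IsCyc (qb a b c d) := by
  rw [← bdry_two ab bc cd da ac bd]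
  apply isCyc_bdry
  intro t ht
  simp only [Finset.mem_insert, Finset.mem_singleton] at ht
  rcases ht with rfl | rfl
  · exact Finset.card_eq_three.2 ⟨a, b, c, ab, ac, bc, rfl⟩
  · exact Finset.card_eq_three.2 ⟨a, c, d, ac, da.symm, cd, rfl⟩

omit [Fintype V] in
private theorem qb_nd {a b c d : V} (ab : a ≠ b) (bc : b ≠ c) (cd : c ≠ d) (da : d ≠ a)
    (ac : a ≠ c) (bd : b ≠ d) : ({a, b} : Finset V) ∉ ({{b, c}, {c, d}, {d, a}} : Finset (Finset V)) ∧
      ({b, c} : Finset V) ∉ ({{c, d}, {d, a}} : Finset (Finset V)) ∧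
      ({c, d} : Finset V) ∉ ({{d, a}} : Finset (Finset V)) := by
  simp only [Finset.mem_insert, Finset.mem_singleton, not_or]
  refine ⟨⟨pr_ne ?_, pr_ne ?_, pr_ne ?_⟩, ⟨pr_ne ?_, pr_ne ?_⟩, pr_ne ?_⟩ <;>
    (have := ab.symm; have := ac.symm; have := bc.symm; have := bd.symm; have := cd.symm;
     have := da.symm; tauto)

theorem qb_card {a b c d : V} (ab : a ≠ b) (bc : b ≠ c) (cd : c ≠ d) (da : d ≠ a) (ac : a ≠ c)
    (bd : b ≠ d) : (qb a b c d).card = 4 := by
  obtain ⟨h1, h2, h3⟩ := qb_nd ab bc cd da ac bd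
  unfold qb
  rw [Finset.card_insert_of_notMem h1, Finset.card_insert_of_notMem h2,
    Finset.card_insert_of_notMem h3, Finset.card_singleton]

theorem qb_vdeg {a b c d : V} (ab : a ≠ b) (bc : b ≠ c) (cd : c ≠ d) (da : d ≠ a) (ac : a ≠ c)
    (bd : b ≠ d) {x : V} (hx : x ∈ ({a, b, c, d} : Finset V)) : vdeg (qb a b c d) x = 2 := by
  obtain ⟨h1, h2, h3⟩ := qb_nd ab bc cd da ac bd
  unfold vdeg qb
  rw [Finset.card_filter, Finset.sum_insert h1, Finset.sum_insert h2, Finset.sum_insert h3,
    Finset.sum_singleton]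
  simp only [Finset.mem_insert, Finset.mem_singleton] at hx ⊢
  have := ab.symm
  have := ac.symm
  have := bc.symm
  have := bd.symm
  have := cd.symm
  have := da.symm
  rcases hx with rfl | rfl | rfl | rfl
  · simp [*]
  · simp [*]
  · simp [*]
  · simp [*]

theorem qb_sub {a b c d : V} (ab : a ≠ b) (bc : b ≠ c) (cd : c ≠ d) (da : d ≠ a) (ac : a ≠ c)
    (bd : b ≠ d) {C : Finset (Finset V)} (hC : C ⊆ qb a b c d) (h : IsCyc C) :
    C = ∅ ∨ C = qb a b c d := by
  have a1 := ab.symm
  have a2 := ac.symm
  have a3 := bc.symm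
  have a4 := bd.symm
  have a5 := cd.symm
  have a6 := da.symm
  have s1 : ({a, b} : Finset V) ∈ C → ({b, c} : Finset V) ∈ C := by
    intro h1
    obtain ⟨e, he, hb, hne⟩ := exists_other h h1 (a := b) (by simp)
    rcases mem_qb.1 (hC he) with rfl | rfl | rfl | rfl
    · exact absurd rfl hne
    · exact he
    · simp only [Finset.mem_insert, Finset.mem_singleton] at hb; tauto
    · simp only [Finset.mem_insert, Finset.mem_singleton] at hb; tauto
  have s2 : ({b, c} : Finset V) ∈ C → ({c, d} : Finset V) ∈ C := by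
    intro h1
    obtain ⟨e, he, hb, hne⟩ := exists_other h h1 (a := c) (by simp)
    rcases mem_qb.1 (hC he) with rfl | rfl | rfl | rfl
    · simp only [Finset.mem_insert, Finset.mem_singleton] at hb; tauto
    · exact absurd rfl hne
    · exact he
    · simp only [Finset.mem_insert, Finset.mem_singleton] at hb; tauto
  have s3 : ({c, d} : Finset V) ∈ C → ({d, a} : Finset V) ∈ C := by
    intro h1
    obtain ⟨e, he, hb, hne⟩ := exists_other h h1 (a := d) (by simp)
    rcases mem_qb.1 (hC he) with rfl | rfl | rfl | rfl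
    · simp only [Finset.mem_insert, Finset.mem_singleton] at hb; tauto
    · simp only [Finset.mem_insert, Finset.mem_singleton] at hb; tauto
    · exact absurd rfl hne
    · exact he
  have s4 : ({d, a} : Finset V) ∈ C → ({a, b} : Finset V) ∈ C := by
    intro h1
    obtain ⟨e, he, hb, hne⟩ := exists_other h h1 (a := a) (by simp)
    rcases mem_qb.1 (hC he) with rfl | rfl | rfl | rfl
    · exact he
    · simp only [Finset.mem_insert, Finset.mem_singleton] at hb; tauto
    · simp only [Finset.mem_insert, Finset.mem_singleton] at hb; tauto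
    · exact absurd rfl hne
  rcases C.eq_empty_or_nonempty with h0 | ⟨e, he⟩
  · exact Or.inl h0
  · right
    have hall : ({a, b} : Finset V) ∈ C := by
      rcases mem_qb.1 (hC he) with rfl | rfl | rfl | rfl
      · exact he
      · exact s4 (s3 (s2 he))
      · exact s4 (s3 he)
      · exact s4 he
    refine Finset.Subset.antisymm hC ?_
    intro x hx
    rcases mem_qb.1 hx with rfl | rfl | rfl | rfl
    · exact hall
    · exact s1 hall
    · exact s2 (s1 hall)
    · exact s3 (s2 (s1 hall))

theorem IsQ.rot {T : Finset (Finset V)} {a b c d : V} (h : IsQ T a b c d) : IsQ T b c d a :=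
  ⟨h.bc, h.cd, h.da, h.ab, h.bd, h.ac.symm, h.ebc, h.ecd, h.eda, h.eab, h.nbd,
    fun h1 => h.nac (edge_swap h1)⟩

/-- reflection -/
theorem IsQ.ref {T : Finset (Finset V)} {a b c d : V} (h : IsQ T a b c d) : IsQ T a d c b :=
  ⟨h.da.symm, h.cd.symm, h.bc.symm, h.ab.symm, h.ac, h.bd.symm, edge_swap h.eda, edge_swap h.ecd,
    edge_swap h.ebc, edge_swap h.eab, h.nac, fun h1 => h.nbd (edge_swap h1)⟩

omit [Fintype V] in
theorem qb_rot (a b c d : V) : qb b c d a = qb a b c d := by
  ext e
  simp only [qb, Finset.mem_insert, Finset.mem_singleton]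
  tauto

omit [Fintype V] in
theorem qb_ref (a b c d : V) : qb a d c b = qb a b c d := by
  ext e
  simp only [qb, Finset.mem_insert, Finset.mem_singleton, Finset.pair_comm a d,
    Finset.pair_comm d c, Finset.pair_comm c b, Finset.pair_comm b a]
  tauto

theorem Sph.deg4 {T : Finset (Finset V)} (h : Sph T) {v : V} (h4 : (star T v).card = 4) :
    ∃ a b c d : V, a ≠ b ∧ b ≠ c ∧ c ≠ d ∧ d ≠ a ∧ a ≠ c ∧ b ≠ d ∧
      star T v = {{v, a, b}, {v, b, c}, {v, c, d}, {v, d, a}} ∧
      bdry (star T v) = qb a b c d ∧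
      ∀ u, u ∈ nb (edges T) v ↔ u = a ∨ u = b ∨ u = c ∨ u = d := by
  have hne : (star T v).Nonempty := by
    rw [← Finset.card_pos, h4]
    norm_num
  obtain ⟨w, hw⟩ := h.link_enum hne
  rw [h4] at hw
  have hinj : ∀ i j, i < 4 → j < 4 → i ≠ j → w i ≠ w j := fun i j hi hj hij he =>
    hij (hw.inj i j hi hj he)
  have ab := hinj 0 1 (by norm_num) (by norm_num) (by norm_num)
  have bc := hinj 1 2 (by norm_num) (by norm_num) (by norm_num)
  have cd := hinj 2 3 (by norm_num) (by norm_num) (by norm_num)
  have da := hinj 3 0 (by norm_num) (by norm_num) (by norm_num)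
  have ac := hinj 0 2 (by norm_num) (by norm_num) (by norm_num)
  have bd := hinj 1 3 (by norm_num) (by norm_num) (by norm_num)
  have hvw : ∀ i, w i ≠ v := by
    intro i
    have h1 : w i ∈ nb (edges T) v := by
      rw [← hw.mod i]
      exact (hw.cov _).2 ⟨i % 4, Nat.mod_lt _ (by norm_num), rfl⟩
    exact (mem_nb.1 h1).1
  have t0 := hw.tri 0
  have t1 := hw.tri 1
  have t2 := hw.tri 2
  have t3 := hw.tri 3
  have w4 : w (3 + 1) = w 0 := hw.per 0
  rw [w4] at t3
  simp only [zero_add, Nat.reduceAdd] at t0 t1 t2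
  have va := hvw 0
  have vb := hvw 1
  have vc := hvw 2
  have vd := hvw 3
  have hnb : ∀ u, u ∈ nb (edges T) v ↔ u = w 0 ∨ u = w 1 ∨ u = w 2 ∨ u = w 3 := by
    intro u
    rw [hw.cov]
    constructor
    · rintro ⟨i, hi, rfl⟩
      interval_cases i <;> tauto
    · rintro (rfl | rfl | rfl | rfl)
      · exact ⟨0, by norm_num, rfl⟩
      · exact ⟨1, by norm_num, rfl⟩
      · exact ⟨2, by norm_num, rfl⟩
      · exact ⟨3, by norm_num, rfl⟩
  generalize w 0 = a at *
  generalize w 1 = b at *
  generalize w 2 = c at *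
  generalize w 3 = d at *
  have a1 := ab.symm
  have a2 := ac.symm
  have a3 := bc.symm
  have a4 := bd.symm
  have a5 := cd.symm
  have a6 := da.symm
  -- the four triangles are different
  have n1 : ({v, a, b} : Finset V) ≠ {v, b, c} := by
    intro he
    have h1 : a ∈ ({v, b, c} : Finset V) := by rw [← he]; simp
    simp only [Finset.mem_insert, Finset.mem_singleton] at h1
    tauto
  have n2 : ({v, a, b} : Finset V) ≠ {v, c, d} := by
    intro he
    have h1 : a ∈ ({v, c, d} : Finset V) := by rw [← he]; simp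
    simp only [Finset.mem_insert, Finset.mem_singleton] at h1
    tauto
  have n3 : ({v, a, b} : Finset V) ≠ {v, d, a} := by
    intro he
    have h1 : b ∈ ({v, d, a} : Finset V) := by rw [← he]; simp
    simp only [Finset.mem_insert, Finset.mem_singleton] at h1
    tauto
  have n4 : ({v, b, c} : Finset V) ≠ {v, c, d} := by
    intro he
    have h1 : b ∈ ({v, c, d} : Finset V) := by rw [← he]; simp
    simp only [Finset.mem_insert, Finset.mem_singleton] at h1
    tauto
  have n5 : ({v, b, c} : Finset V) ≠ {v, d, a} := by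
    intro he
    have h1 : b ∈ ({v, d, a} : Finset V) := by rw [← he]; simp
    simp only [Finset.mem_insert, Finset.mem_singleton] at h1
    tauto
  have n6 : ({v, c, d} : Finset V) ≠ {v, d, a} := by
    intro he
    have h1 : c ∈ ({v, d, a} : Finset V) := by rw [← he]; simp
    simp only [Finset.mem_insert, Finset.mem_singleton] at h1
    tauto
  have hstar : star T v = {{v, a, b}, {v, b, c}, {v, c, d}, {v, d, a}} := by
    symm
    apply Finset.eq_of_subset_of_card_le
    · intro t ht
      simp only [Finset.mem_insert, Finset.mem_singleton] at ht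
      rcases ht with rfl | rfl | rfl | rfl
      · exact mem_star.2 ⟨t0, by simp⟩
      · exact mem_star.2 ⟨t1, by simp⟩
      · exact mem_star.2 ⟨t2, by simp⟩
      · exact mem_star.2 ⟨t3, by simp⟩
    · rw [h4, Finset.card_insert_of_notMem, Finset.card_insert_of_notMem,
        Finset.card_insert_of_notMem, Finset.card_singleton]
      · simp only [Finset.mem_singleton]; exact n6
      · simp only [Finset.mem_insert, Finset.mem_singleton]; tauto
      · simp only [Finset.mem_insert, Finset.mem_singleton]; tauto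
  refine ⟨a, b, c, d, ab, bc, cd, da, ac, bd, hstar, ?_, hnb⟩
  have h1 : star T v = symmDiff {({v, a, b} : Finset V), ({v, b, c} : Finset V)}
      {({v, c, d} : Finset V), ({v, d, a} : Finset V)} := by
    rw [hstar]
    ext t
    rw [Finset.mem_symmDiff]
    simp only [Finset.mem_insert, Finset.mem_singleton]
    constructor
    · rintro (rfl | rfl | rfl | rfl)
      · left; exact ⟨Or.inl rfl, by tauto⟩
      · left; exact ⟨Or.inr rfl, by tauto⟩
      · right
        refine ⟨Or.inl rfl, ?_⟩
        rintro (h2 | h2)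
        · exact n2 h2.symm
        · exact n4 h2.symm
      · right
        refine ⟨Or.inr rfl, ?_⟩
        rintro (h2 | h2)
        · exact n3 h2.symm
        · exact n5 h2.symm
    · tauto
  rw [h1, bdry_symm, bdry_two va.symm ab bc vc vb.symm ac, bdry_two vc.symm cd da va vd.symm a2]
  ext e
  rw [Finset.mem_symmDiff, mem_qb, mem_qb, mem_qb, Finset.pair_comm c v, Finset.pair_comm a v]
  by_cases hve : v ∈ e
  · have m1 : e ≠ {a, b} := by rintro rfl; simp only [Finset.mem_insert, Finset.mem_singleton] at hve; tauto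
    have m2 : e ≠ {b, c} := by rintro rfl; simp only [Finset.mem_insert, Finset.mem_singleton] at hve; tauto
    have m3 : e ≠ {c, d} := by rintro rfl; simp only [Finset.mem_insert, Finset.mem_singleton] at hve; tauto
    have m4 : e ≠ {d, a} := by rintro rfl; simp only [Finset.mem_insert, Finset.mem_singleton] at hve; tauto
    tauto
  · have m1 : e ≠ {v, a} := by rintro rfl; simp at hve
    have m2 : e ≠ {v, c} := by rintro rfl; simp at hve
    have k1 : ({a, b} : Finset V) ≠ {c, d} := pr_ne (by tauto)
    have k2 : ({a, b} : Finset V) ≠ {d, a} := pr_ne (by tauto)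
    have k3 : ({b, c} : Finset V) ≠ {c, d} := pr_ne (by tauto)
    have k4 : ({b, c} : Finset V) ≠ {d, a} := pr_ne (by tauto)
    constructor
    · rintro (⟨h2, h3⟩ | ⟨h2, h3⟩) <;> tauto
    · rintro (rfl | rfl | rfl | rfl)
      · left; exact ⟨by tauto, by tauto⟩
      · left; exact ⟨by tauto, by tauto⟩
      · right
        refine ⟨by tauto, ?_⟩
        rintro (h2 | h2 | h2 | h2)
        · exact m1 h2
        · exact k1 h2.symm
        · exact k3 h2.symm
        · exact m2 h2
      · right
        refine ⟨by tauto, ?_⟩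
        rintro (h2 | h2 | h2 | h2)
        · exact m1 h2
        · exact k2 h2.symm
        · exact k4 h2.symm
        · exact m2 h2

theorem Sph.deg4Q {T : Finset (Finset V)} (h : Sph T) (hF : Fac3 T) {v : V}
    (h4 : (star T v).card = 4) :
    ∃ a b c d : V, IsQ T a b c d ∧ star T v = {{v, a, b}, {v, b, c}, {v, c, d}, {v, d, a}} ∧
      bdry (star T v) = qb a b c d ∧
      ∀ u, u ∈ nb (edges T) v ↔ u = a ∨ u = b ∨ u = c ∨ u = d := by
  obtain ⟨a, b, c, d, ab, bc, cd, da, ac, bd, hs, hb, hnb⟩ := h.deg4 h4
  have hT : ∀ t, t ∈ ({{v, a, b}, {v, b, c}, {v, c, d}, {v, d, a}} : Finset (Finset V)) →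
      t ∈ T := by
    intro t ht
    rw [← hs, mem_star] at ht
    exact ht.1
  have t0 : ({v, a, b} : Finset V) ∈ T := hT _ (by simp)
  have t1 : ({v, b, c} : Finset V) ∈ T := hT _ (by simp)
  have t2 : ({v, c, d} : Finset V) ∈ T := hT _ (by simp)
  have t3 : ({v, d, a} : Finset V) ∈ T := hT _ (by simp)
  have ea := mem_nb.1 ((hnb a).2 (by tauto))
  have eb := mem_nb.1 ((hnb b).2 (by tauto))
  have ec := mem_nb.1 ((hnb c).2 (by tauto))
  have ed := mem_nb.1 ((hnb d).2 (by tauto))
  have a1 := ab.symm
  have a2 := ac.symm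
  have a3 := bc.symm
  have a4 := bd.symm
  have a5 := cd.symm
  have a6 := da.symm
  refine ⟨a, b, c, d, ⟨ab, bc, cd, da, ac, bd, edge_of_tri t0 ab (by simp) (by simp),
    edge_of_tri t1 bc (by simp) (by simp), edge_of_tri t2 cd (by simp) (by simp),
    edge_of_tri t3 da (by simp) (by simp), ?_, ?_⟩, hs, hb, hnb⟩
  · intro he
    have h1 := hF v a c ea.1.symm ac ec.1.symm ea.2 he ec.2
    have h2 : ({v, a, c} : Finset V) ∈ star T v := mem_star.2 ⟨h1, by simp⟩
    rw [hs] at h2
    simp only [Finset.mem_insert, Finset.mem_singleton] at h2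
    rcases h2 with h3 | h3 | h3 | h3
    · have h5 : c ∈ ({v, a, b} : Finset V) := by rw [← h3]; simp
      simp only [Finset.mem_insert, Finset.mem_singleton] at h5
      tauto
    · have h5 : a ∈ ({v, b, c} : Finset V) := by rw [← h3]; simp
      simp only [Finset.mem_insert, Finset.mem_singleton] at h5
      tauto
    · have h5 : a ∈ ({v, c, d} : Finset V) := by rw [← h3]; simp
      simp only [Finset.mem_insert, Finset.mem_singleton] at h5
      tauto
    · have h5 : c ∈ ({v, d, a} : Finset V) := by rw [← h3]; simp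
      simp only [Finset.mem_insert, Finset.mem_singleton] at h5
      tauto
  · intro he
    have h1 := hF v b d eb.1.symm bd ed.1.symm eb.2 he ed.2
    have h2 : ({v, b, d} : Finset V) ∈ star T v := mem_star.2 ⟨h1, by simp⟩
    rw [hs] at h2
    simp only [Finset.mem_insert, Finset.mem_singleton] at h2
    rcases h2 with h3 | h3 | h3 | h3
    · have h5 : d ∈ ({v, a, b} : Finset V) := by rw [← h3]; simp
      simp only [Finset.mem_insert, Finset.mem_singleton] at h5
      tauto
    · have h5 : d ∈ ({v, b, c} : Finset V) := by rw [← h3]; simp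
      simp only [Finset.mem_insert, Finset.mem_singleton] at h5
      tauto
    · have h5 : b ∈ ({v, c, d} : Finset V) := by rw [← h3]; simp
      simp only [Finset.mem_insert, Finset.mem_singleton] at h5
      tauto
    · have h5 : b ∈ ({v, d, a} : Finset V) := by rw [← h3]; simp
      simp only [Finset.mem_insert, Finset.mem_singleton] at h5
      tauto

theorem Sph.star_of_bdry {T : Finset (Finset V)} (h : Sph T) (v : V) :
    (bdry (star T v)).card = (star T v).card := by
  symm
  refine Finset.card_bij (fun t _ => t.erase v) ?_ ?_ ?_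
  · intro t ht
    have ht' := mem_star.1 ht
    have hc : (t.erase v).card = 2 := by
      rw [Finset.card_erase_of_mem ht'.2, h.card3 t ht'.1]
    rw [mem_bdry]
    refine ⟨hc, ?_⟩
    have h1 : (star T v).filter (fun s => t.erase v ⊆ s) = {t} := by
      ext s
      rw [Finset.mem_filter, mem_star, Finset.mem_singleton]
      constructor
      · rintro ⟨⟨h2, h3⟩, h4⟩
        symm
        apply Finset.eq_of_subset_of_card_le
        · rw [← Finset.insert_erase ht'.2]
          exact Finset.insert_subset h3 h4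
        · rw [h.card3 s h2, h.card3 t ht'.1]
      · rintro rfl
        exact ⟨ht', Finset.erase_subset _ _⟩
    unfold tdeg
    rw [h1, Finset.card_singleton]
    exact odd_one
  · intro s hs t ht he
    rw [← Finset.insert_erase (mem_star.1 hs).2, ← Finset.insert_erase (mem_star.1 ht).2, he]
  · intro e he
    rw [mem_bdry] at he
    have hve : v ∉ e := by
      intro hve
      have h1 : tdeg (star T v) e = tdeg T e := by
        unfold tdeg
        congr 1
        ext t
        rw [Finset.mem_filter, Finset.mem_filter, mem_star]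
        constructor
        · rintro ⟨⟨a1, -⟩, a2⟩
          exact ⟨a1, a2⟩
        · rintro ⟨a1, a2⟩
          exact ⟨⟨a1, a2 hve⟩, a2⟩
      have h2 : e ∈ bdry T := by
        rw [mem_bdry, ← h1]
        exact he
      rw [h.bdry_self] at h2
      simp at h2
    have h3 : 0 < ((star T v).filter (fun t => e ⊆ t)).card := he.2.pos
    obtain ⟨t, ht⟩ := Finset.card_pos.1 h3
    rw [Finset.mem_filter] at ht
    refine ⟨t, ht.1, ?_⟩
    symm
    apply Finset.eq_of_subset_of_card_le
    · intro x hx
      refine Finset.mem_erase.2 ⟨?_, ht.2 hx⟩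
      rintro rfl
      exact hve hx
    · rw [Finset.card_erase_of_mem (mem_star.1 ht.1).2, h.card3 t (mem_star.1 ht.1).1, he.1]

end Pool.Agent.Spl2
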