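import Pool.Agent.Spl2.Steps

/-!
# Rule T4: two adjacent vertices of degree 4

`v1` (neighbours `v2, x, y, z`) and `v2` (neighbours `v1, x, y, u`) have degree 4, `v1` is contracted into
`v2`: in `E'` the vertex `v2` has neighbours `x, y, z, u`.

Proof: `v1 = v2 + X η`.  Let `w` be a motion over `K[X]`, `w ≠ 0` at `X = 0` (`lim`).  At `X = 0` the additive
forms of `v1` and `v2` agree, `κ = C_v1 + C_v2` vanishes at `η, x, y`.  Adding to `C_v2` the multiple of
`[.,x][.,y][.,u]` with the value `κ(z)` at `z` gives a motion of `E'`, so it is zero.  So at `X = 0` only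
`C_v2 = s [.,x][.,y][.,u]` and `C_v1` remain; the additive form `(h_v1 + h_v2) / X` has the values `0` at `x`
and `y` and `C_v2(η)` at `η`, so `C_v2(η) = 0`, `s = 0`, `κ(z) = 0`, and `κ = 0` (four zeros).
-/

set_option autoImplicit false

namespace Pool.Agent.Spl2

open Finset Pool.Agent.Spl1 Polynomial

variable {V : Type*} [Fintype V] [DecidableEq V]

theorem T4 {E E' : Finset (Finset V)} {I : Finset V} {v1 v2 x y z u : V}
    (h12 : v1 ≠ v2) (h1x : v1 ≠ x) (h1y : v1 ≠ y) (h1z : v1 ≠ z) (h1u : v1 ≠ u)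
    (h2x : v2 ≠ x) (h2y : v2 ≠ y) (h2z : v2 ≠ z) (h2u : v2 ≠ u)
    (hxy : x ≠ y) (hxz : x ≠ z) (hxu : x ≠ u) (hyz : y ≠ z) (hyu : y ≠ u) (hzu : z ≠ u)
    (hv1 : v1 ∈ I) (hv2 : v2 ∈ I)
    (n1 : ∀ a, a ≠ v1 → (({v1, a} : Finset V) ∈ E ↔ a = v2 ∨ a = x ∨ a = y ∨ a = z))
    (n2 : ∀ a, a ≠ v2 → (({v2, a} : Finset V) ∈ E ↔ a = v1 ∨ a = x ∨ a = y ∨ a = u))
    (hE' : ∀ a b, a ≠ b → (({a, b} : Finset V) ∈ E' ↔
      (({a, b} : Finset V) ∈ E ∧ a ≠ v1 ∧ b ≠ v1) ∨ (a = v2 ∧ b = z) ∨ (a = z ∧ b = v2)))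
    (h : NG E' (I.erase v1)) : NG E I := by
  classical
  by_contra hn
  obtain ⟨K, i1, i2, i3, p, hp, hgp⟩ := ng_generic h
  have gp : ∀ a b, a ≠ b → v2 ≠ a → v2 ≠ b → br (p a - p v2) (p b - p v2) ≠ 0 :=
    fun a b hab ha hb => hgp v2 a b ha hab hb
  obtain ⟨η, hη⟩ := exists_dir ({p x - p v2, p y - p v2, p z - p v2, p u - p v2} : Finset (K × K)) (by
    intro l hl
    simp only [mem_insert, mem_singleton] at hl
    rcases hl with rfl | rfl | rfl | rfl
    · exact br_ne_left (gp x y hxy h2x h2y)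
    · exact br_ne_right (gp x y hxy h2x h2y)
    · exact br_ne_right (gp x z hxz h2x h2z)
    · exact br_ne_right (gp x u hxu h2x h2u))
  have ηx := hη (p x - p v2) (by simp)
  have ηy := hη (p y - p v2) (by simp)
  have ηz := hη (p z - p v2) (by simp)
  have ηu := hη (p u - p v2) (by simp)
  clear hη
  obtain ⟨w, hw, v0, i0, hv0⟩ := lim (fun v => if v = v1 then cK (p v2) + (X : K[X]) • cK η
    else cK (p v)) hn
  -- the equations
  have dold : ∀ a b, a ≠ v1 → b ≠ v1 → a ≠ b → ({a, b} : Finset V) ∈ E →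
      cu (w a) (cK (p b - p a)) (cK (p b - p a)) =
        ad (w a) (cK (p b - p a)) + ad (w b) (cK (p b - p a)) := by
    intro a b ha hb hab he
    have := hw.eq a b hab he
    rwa [if_neg ha, if_neg hb, cK_sub] at this
  have dsh : ∀ a, a ≠ v1 → a ≠ v2 → ({v1, a} : Finset V) ∈ E →
      cu (w a) (cK (p a - p v2) + (X : K[X]) • cK η) (cK (p a - p v2) + (X : K[X]) • cK η) =
        ad (w a) (cK (p a - p v2) + (X : K[X]) • cK η) +
          ad (w v1) (cK (p a - p v2) + (X : K[X]) • cK η) ∧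
      cu (w v1) (cK (p a - p v2) + (X : K[X]) • cK η) (cK (p a - p v2) + (X : K[X]) • cK η) =
        ad (w v1) (cK (p a - p v2) + (X : K[X]) • cK η) +
          ad (w a) (cK (p a - p v2) + (X : K[X]) • cK η) := by
    intro a ha ha2 he
    have e1 := hw.eq v1 a ha.symm he
    have e2 := hw.eq a v1 ha (by rw [Finset.pair_comm]; exact he)
    rw [if_pos rfl, if_neg ha] at e1 e2
    have e3 : cK (p a) - (cK (p v2) + (X : K[X]) • cK η) = cK (p a - p v2) + (X : K[X]) • cK η := by
      rw [← cK_sub]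
      ext1
      · simp only [Prod.fst_sub, Prod.fst_add]; (rw [← sub_eq_zero]; ring_nf; try reduce_mod_char!)
      · simp only [Prod.snd_sub, Prod.snd_add]; (rw [← sub_eq_zero]; ring_nf; try reduce_mod_char!)
    rw [c2_sub_pair (cK (p v2) + (X : K[X]) • cK η) (cK (p a)), e3] at e2
    rw [e3] at e1
    exact ⟨e2, e1⟩
  have e21 : ({v2, v1} : Finset V) ∈ E := (n2 v1 h12).2 (Or.inl rfl)
  have e12 : ({v1, v2} : Finset V) ∈ E := by rw [Finset.pair_comm]; exact e21
  have s1 : cu (w v2) ((X : K[X]) • cK η) ((X : K[X]) • cK η) =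
      ad (w v2) ((X : K[X]) • cK η) + ad (w v1) ((X : K[X]) • cK η) := by
    have := hw.eq v2 v1 h12.symm e21
    rwa [if_pos rfl, if_neg h12.symm, add_sub_cancel_left] at this
  have s2 : cu (w v1) ((X : K[X]) • cK η) ((X : K[X]) • cK η) =
      ad (w v1) ((X : K[X]) • cK η) + ad (w v2) ((X : K[X]) • cK η) := by
    have := hw.eq v1 v2 h12 e12
    rwa [if_pos rfl, if_neg h12.symm, c2_sub_pair, add_sub_cancel_left] at this
  have t1 := short X_ne_zero s1
  have t2 := short_cu X_ne_zero s1 s2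
  have ex1 : ({v1, x} : Finset V) ∈ E := (n1 x h1x.symm).2 (Or.inr (Or.inl rfl))
  have ey1 : ({v1, y} : Finset V) ∈ E := (n1 y h1y.symm).2 (Or.inr (Or.inr (Or.inl rfl)))
  have ez1 : ({v1, z} : Finset V) ∈ E := (n1 z h1z.symm).2 (Or.inr (Or.inr (Or.inr rfl)))
  have ex2 : ({v2, x} : Finset V) ∈ E := (n2 x h2x.symm).2 (Or.inr (Or.inl rfl))
  have ey2 : ({v2, y} : Finset V) ∈ E := (n2 y h2y.symm).2 (Or.inr (Or.inr (Or.inl rfl)))
  have old2 : ∀ a, a ≠ v1 → a ≠ v2 → ({v2, a} : Finset V) ∈ E →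
      cu (w a) (cK (p a - p v2)) (cK (p a - p v2)) =
        ad (w a) (cK (p a - p v2)) + ad (w v2) (cK (p a - p v2)) := by
    intro a ha1 ha2 he
    have := dold a v2 ha1 h12.symm ha2 (by rw [Finset.pair_comm]; exact he)
    rwa [show cK (p v2 - p a) = cK (p a - p v2) by
      rw [← cK_sub, ← cK_sub]; exact c2_sub_pair _ _] at this
  have tx := twin (old2 x h1x.symm h2x.symm ex2) (dsh x h1x.symm h2x.symm ex1).1
  have ty := twin (old2 y h1y.symm h2y.symm ey2) (dsh y h1y.symm h2y.symm ey1).1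
  -- at `X = 0`
  have g1 : ad (c0 (w v1) + c0 (w v2)) η = 0 := by
    have := congrArg (constantCoeff : K[X] →+* K) t1
    rwa [cc_ad, map_mul, cc_X, zero_mul, c0_add] at this
  have g2 : ad (c0 (w v1) + c0 (w v2)) (p x - p v2) = 0 := by
    have := congrArg (constantCoeff : K[X] →+* K) tx
    rw [cc_ad, map_add, map_add, map_mul, map_mul, map_mul, map_pow, map_pow, cc_X, c0_add] at this
    simpa using this
  obtain ⟨g3, g4⟩ := ad_eq_zero ηx g1 g2
  have hH : br η (p x - p v2) ^ 2 * cu (c0 (w y)) (p y - p v2) η =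
      br (p y - p v2) (p x - p v2) ^ 2 * cu (c0 (w v2)) η η +
      br (p y - p v2) η ^ 2 * cu (c0 (w x)) (p x - p v2) η := by
    have e := ad_pl (w v1 + w v2) (cK η) (cK (p x - p v2)) (cK (p y - p v2))
    rw [t1, tx, ty] at e
    have e' : (X : K[X]) * (br (cK η) (cK (p x - p v2)) ^ 2 * (cu (w y) (cK (p y - p v2)) (cK η) +
        X * (cu (w y) (cK η) (cK (p y - p v2)) + ad (w y) (cK η) + ad (w v1) (cK η)) +
        X ^ 2 * cu (w y) (cK η) (cK η))) =
        X * (br (cK (p y - p v2)) (cK (p x - p v2)) ^ 2 * cu (w v2) (cK η) (cK η) +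
        br (cK (p y - p v2)) (cK η) ^ 2 * (cu (w x) (cK (p x - p v2)) (cK η) +
        X * (cu (w x) (cK η) (cK (p x - p v2)) + ad (w x) (cK η) + ad (w v1) (cK η)) +
        X ^ 2 * cu (w x) (cK η) (cK η))) := by
      linear_combination e
    have e'' := congrArg (constantCoeff : K[X] →+* K) (mul_left_cancel₀ X_ne_zero e')
    simp only [map_add, map_mul, map_pow, cc_X, cc_br, cc_cu, cc_ad] at e''
    simpa using e''
  -- the cubic forms of `v1`, `v2` at `X = 0`
  have k1 : cu (c0 (w v1) + c0 (w v2)) η η = 0 := by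
    have := congrArg (constantCoeff : K[X] →+* K) t2
    rw [cc_cu, cc_cu] at this
    rw [cu_addw, this]
    (rw [← sub_eq_zero]; ring_nf; try reduce_mod_char!)
  have val0 : ∀ a, a ≠ v1 → a ≠ v2 → ({v1, a} : Finset V) ∈ E →
      cu (c0 (w v1)) (p a - p v2) (p a - p v2) =
        ad (c0 (w v1)) (p a - p v2) + ad (c0 (w a)) (p a - p v2) ∧
      cu (c0 (w a)) (p a - p v2) (p a - p v2) =
        ad (c0 (w v1)) (p a - p v2) + ad (c0 (w a)) (p a - p v2) := by
    intro a ha1 ha2 he
    obtain ⟨q1, q2⟩ := dsh a ha1 ha2 he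
    rw [cu_sum, ad_add, ad_add, cu_smul_right, cu_smul_left, cu_smul_left, cu_smul_right,
      ad_smul, ad_smul] at q1 q2
    have r1 := congrArg (constantCoeff : K[X] →+* K) q1
    have r2 := congrArg (constantCoeff : K[X] →+* K) q2
    simp only [map_add, map_mul, map_pow, cc_X, cc_br, cc_cu, cc_ad] at r1 r2
    constructor
    · simpa using r2
    · rw [add_comm (ad (c0 (w v1)) (p a - p v2))]
      simpa using r1
  have val2 : ∀ a, a ≠ v1 → a ≠ v2 → ({v2, a} : Finset V) ∈ E →
      cu (c0 (w v2)) (p a - p v2) (p a - p v2) =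
        ad (c0 (w v2)) (p a - p v2) + ad (c0 (w a)) (p a - p v2) := by
    intro a ha1 ha2 he
    have := congrArg (constantCoeff : K[X] →+* K) (dold v2 a h12.symm ha1 ha2.symm he)
    rwa [map_add, cc_cu, cc_ad, cc_ad] at this
  have adeq : ∀ q, ad (c0 (w v1)) q = ad (c0 (w v2)) q := by
    intro q
    have : ad (c0 (w v1) + c0 (w v2)) q = 0 := by
      simp only [ad]
      rw [g3, g4]; ring
    rw [ad_addw] at this
    linear_combination (norm := (ring_nf; try reduce_mod_char!)) this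
  have kx : cu (c0 (w v1) + c0 (w v2)) (p x - p v2) (p x - p v2) = 0 := by
    rw [cu_addw, (val0 x h1x.symm h2x.symm ex1).1, val2 x h1x.symm h2x.symm ex2, adeq]
    (rw [← sub_eq_zero]; ring_nf; try reduce_mod_char!)
  have ky : cu (c0 (w v1) + c0 (w v2)) (p y - p v2) (p y - p v2) = 0 := by
    rw [cu_addw, (val0 y h1y.symm h2y.symm ey1).1, val2 y h1y.symm h2y.symm ey2, adeq]
    (rw [← sub_eq_zero]; ring_nf; try reduce_mod_char!)
  obtain ⟨s, hs⟩ : ∃ s : K, s * (br (p z - p v2) (p x - p v2) * br (p z - p v2) (p y - p v2) *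
      br (p z - p v2) (p u - p v2)) =
      cu (c0 (w v1) + c0 (w v2)) (p z - p v2) (p z - p v2) := by
    have hne : br (p z - p v2) (p x - p v2) * br (p z - p v2) (p y - p v2) *
      br (p z - p v2) (p u - p v2) ≠ 0 :=
      mul_ne_zero (mul_ne_zero (gp z x hxz.symm h2z h2x) (gp z y hyz.symm h2z h2y))
        (gp z u hzu h2z h2u)
    exact ⟨_, div_mul_cancel₀ _ hne⟩
  -- the motion of `E'`
  obtain ⟨ω, hω⟩ : ∃ ω : V → Fin 6 → K, ω = fun v => if v = v1 then 0 else if v = v2 then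
      c0 (w v2) + s • cw (p x - p v2) (p y - p v2) (p u - p v2) else c0 (w v) := ⟨_, rfl⟩
  have ω2 : ω v2 = c0 (w v2) + s • cw (p x - p v2) (p y - p v2) (p u - p v2) := by
    rw [hω]; simp [h12.symm]
  have ωo : ∀ a, a ≠ v1 → a ≠ v2 → ω a = c0 (w a) := by
    intro a ha1 ha2
    rw [hω]; simp [ha1, ha2]
  have ω1 : ω v1 = 0 := by rw [hω]; simp
  have hadω : ∀ a, a ≠ v1 → ∀ q, ad (ω a) q = ad (c0 (w a)) q := by
    intro a ha q
    by_cases h2 : a = v2
    · rw [h2, ω2, ad_addw, ad_smulw, ad_cw, mul_zero, add_zero]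
    · rw [ωo a ha h2]
  have hmot : NMot p E' (I.erase v1) ω := by
    constructor
    · intro v hv
      by_cases h1 : v = v1
      · rw [h1, ω1]
      · have hvI : v ∉ I := fun h' => hv (mem_erase.2 ⟨h1, h'⟩)
        have h2 : v ≠ v2 := fun h' => hvI (h' ▸ hv2)
        rw [ωo v h1 h2]
        funext i
        simp [c0, hw.pin v hvI]
    · intro a b hab he
      have ha1 : a ≠ v1 := by
        rintro rfl
        rcases (hE' _ _ hab).1 he with h3 | h3 | h3
        · exact h3.2.1 rfl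
        · exact h12 h3.1
        · exact h1z h3.1
      have hb1 : b ≠ v1 := by
        rintro rfl
        rcases (hE' _ _ hab).1 he with h3 | h3 | h3
        · exact h3.2.2 rfl
        · exact h1z h3.2
        · exact h12 h3.2
      rw [hadω a ha1, hadω b hb1]
      rcases (hE' _ _ hab).1 he with h3 | h3 | h3
      · by_cases h2 : a = v2
        · subst h2
          have hb := (n2 b hab.symm).1 h3.1
          have hval := val2 b hb1 hab.symm h3.1
          rw [ω2, cu_addw, hval, cu_smulw, cu_cw_self]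
          rcases hb with rfl | rfl | rfl | rfl
          · exact absurd rfl hb1
          · rw [br_self]; ring
          · rw [br_self]; ring
          · rw [br_self]; ring
        · rw [ωo a ha1 h2]
          have := congrArg (constantCoeff : K[X] →+* K) (dold a b ha1 hb1 hab h3.1)
          rwa [map_add, cc_cu, cc_ad, cc_ad] at this
      · obtain ⟨rfl, rfl⟩ := h3
        rw [ω2, cu_addw, cu_smulw, cu_cw_self, hs, cu_addw,
          (val0 b h1z.symm h2z.symm ez1).1, adeq]
        (rw [← sub_eq_zero]; ring_nf; try reduce_mod_char!)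
      · obtain ⟨rfl, rfl⟩ := h3
        rw [ωo a ha1 h2z.symm]
        have e := (val0 a h1z.symm h2z.symm ez1).2
        have e2 : p b - p a = p a - p b := c2_sub_pair _ _
        rw [e2, e, adeq]
        ring
  have hω0 := hp ω hmot
  have hz : ∀ a, a ≠ v1 → a ≠ v2 → c0 (w a) = 0 := by
    intro a ha1 ha2
    rw [← ωo a ha1 ha2, hω0]; rfl
  have hv2z : c0 (w v2) + s • cw (p x - p v2) (p y - p v2) (p u - p v2) = 0 := by
    rw [← ω2, hω0]; rfl
  have cu2 : ∀ q, cu (c0 (w v2)) q q = s * (br q (p x - p v2) * br q (p y - p v2) *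
      br q (p u - p v2)) := by
    intro q
    have := congrArg (fun f => cu f q q) hv2z
    simp only [cu_addw, cu_smulw, cu_cw_self, cu_zero] at this
    linear_combination (norm := (ring_nf; try reduce_mod_char!)) this
  have ad2 : ∀ q, ad (c0 (w v2)) q = 0 := by
    intro q
    have := congrArg (fun f => ad f q) hv2z
    simp only [ad_addw, ad_smulw, ad_cw, ad_zero, mul_zero, add_zero] at this
    exact this
  have hs0 : s = 0 := by
    rw [hz y h1y.symm h2y.symm, hz x h1x.symm h2x.symm, cu_zero, cu_zero, mul_zero, mul_zero,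
      add_zero, cu2] at hH
    have h5 := (mul_eq_zero.1 hH.symm).resolve_left
      (pow_ne_zero 2 (gp y x hxy.symm h2y h2x))
    exact (mul_eq_zero.1 h5).resolve_right (mul_ne_zero (mul_ne_zero ηx ηy) ηu)
  rw [hs0, zero_mul] at hs
  have hfour := cu_four (k := c0 (w v1) + c0 (w v2)) (a := p x - p v2) (b := p y - p v2)
    (c := p z - p v2) (d := η) (gp x y hxy h2x h2y) (gp z x hxz.symm h2z h2x)
    (gp z y hyz.symm h2z h2y) ηx ηy (by rw [br_comm]; exact ηz) kx ky hs.symm k1
  have h2zero : c0 (w v2) = 0 := by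
    have := hv2z
    rw [hs0, zero_smul, add_zero] at this
    exact this
  rw [h2zero, add_zero] at hfour g3 g4
  have h1zero : c0 (w v1) = 0 := by
    funext i
    obtain ⟨f0, f1, f2, f3⟩ := hfour
    fin_cases i
    · exact f0
    · exact f1
    · exact f2
    · exact f3
    · exact g3
    · exact g4
  have hall : c0 (w v0) = 0 := by
    by_cases h1 : v0 = v1
    · rw [h1]; exact h1zero
    · by_cases h2 : v0 = v2
      · rw [h2]; exact h2zero
      · exact hz v0 h1 h2
  exact hv0 (congrFun hall i0)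

end Pool.Agent.Spl2
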