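import Pool.Agent.Spl2.SphExp
import Pool.Agent.Spl2.T4
import Pool.Agent.Spl2.F3
import Pool.Agent.Spl2.D3
import Pool.Agent.Spl2.Oct

/-!
# The characteristic 2 system of a triangulated sphere is nonsingular
-/

set_option autoImplicit false

namespace Pool.Agent.Spl2

open Finset Pool.Agent.Spl1

variable {V : Type*} [Fintype V] [DecidableEq V]

theorem oct_ng {T : Finset (Finset V)} (h : Sph T) (hF : Fac3 T) {F₀ : Finset V} (hF₀ : F₀ ∈ T)
    (h8 : T.card = 8) : NG (edges T) (vs T \ F₀) := by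
  apply octa
  intro v hv
  rw [Finset.mem_sdiff, ← uv_eq_vs, mem_uv] at hv
  obtain ⟨hv1, hv2⟩ := hv
  have h4 := h.oct hF h8 hv1
  rw [← h.star_card] at h4
  obtain ⟨x, hx, y, hy, hxy, ex, ey⟩ := h.oct_nb hF h8 hF₀ hv1 hv2
  have hsub : ({x, y} : Finset V) ⊆ nb (edges T) v := by
    intro z hz
    rw [mem_nb]
    simp only [Finset.mem_insert, Finset.mem_singleton] at hz
    rcases hz with rfl | rfl
    · exact ⟨(edge_ne ex).symm, ex⟩
    · exact ⟨(edge_ne ey).symm, ey⟩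
  have h2 := Finset.card_sdiff_add_card_eq_card hsub
  rw [Finset.card_pair hxy, h4] at h2
  obtain ⟨c, d, hcd, hN⟩ := Finset.card_eq_two.1 (show (nb (edges T) v \ {x, y}).card = 2 by omega)
  have hc : c ∈ nb (edges T) v \ {x, y} := by rw [hN]; simp
  have hd : d ∈ nb (edges T) v \ {x, y} := by rw [hN]; simp
  rw [Finset.mem_sdiff, mem_nb] at hc hd
  simp only [Finset.mem_insert, Finset.mem_singleton, not_or] at hc hd
  refine ⟨x, y, c, d, (edge_ne ex).symm, (edge_ne ey).symm, hc.1.1, hd.1.1, hxy, Ne.symm hc.2.1,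
    Ne.symm hd.2.1, Ne.symm hc.2.2, Ne.symm hd.2.2, hcd, ex, ey, hc.1.2, hd.1.2, ?_, ?_⟩
  · rw [Finset.mem_sdiff]
    exact fun hh => hh.2 hx
  · rw [Finset.mem_sdiff]
    exact fun hh => hh.2 hy

/-- **main theorem in characteristic 2**: the system of a triangulated sphere without separating
triangles, pinned at the vertices of one triangle, is nonsingular -/
theorem ng_sphere {T : Finset (Finset V)} (h : Sph T) (hF : Fac3 T) {F₀ : Finset V}
    (hF₀ : F₀ ∈ T) (h8 : 8 ≤ T.card) : NG (edges T) (vs T \ F₀) := by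
  refine sph_ind (fun E I => NG E I) (fun T F₀ a b c d => oct_ng a b c d) ?_ ?_ ?_ h hF hF₀ h8
  · intro E E' I v1 v2 x y z u D hP
    exact T4 D.h12 D.h1x D.h1y D.h1z D.h1u D.h2x D.h2y D.h2z D.h2u D.hxy D.hxz D.hxu D.hyz D.hyu
      D.hzu D.hv1 D.hv2 D.n1 D.n2 D.hE' hP
  · intro E E' I o v1 v2 x y a N1 N2 D hP
    exact F3 D hP
  · intro E E' I o p v w x1 x2 y1 y2 n D hP
    exact D3 D hP

end Pool.Agent.Spl2
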