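import Pool.Agent.Spl2.GluOct
import Pool.Agent.Spl2.SphNG
import Pool.Agent.Spl2.BrNG

/-!
# The theorem of Gluck for spheres without separating triangles, every infinite field and every field of characteristic 2

The same induction (`sph_ind`) as for the characteristic 2 system, with the rules of `GluR.lean`.
-/

set_option autoImplicit false

namespace Pool.Agent.Spl2

open Finset Pool.Agent.Spl1

variable {V : Type*} [Fintype V] [DecidableEq V]

/-- **the theorem of Gluck** over every infinite field, for spheres without separating triangles -/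
theorem gb_sphere_inf (K : Type*) [Field K] [Infinite K] {T : Finset (Finset V)} (h : Sph T)
    (hF : Fac3 T) {F₀ : Finset V} (hF₀ : F₀ ∈ T) (h8 : 8 ≤ T.card) :
    GB 2 K (edges T) (vs T \ F₀) := by
  refine sph_ind (fun E I => GB 2 K E I) (fun T F₀ a b c d => gl_base a b d c) ?_ ?_ ?_ h hF
    hF₀ h8
  · intro E E' I v1 v2 x y z u D hP
    exact glT4 D.h12 D.h1x D.h1y D.h1z D.h1u D.h2x D.h2y D.h2z D.h2u D.hxy D.hxz D.hxu D.hyz
      D.hyu D.hzu D.hv1 D.hv2 D.n1 D.n2 D.hE' hP
  · intro E E' I o v1 v2 x y a N1 N2 D hP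
    exact glF3 D hP
  · intro E E' I o p v w x1 x2 y1 y2 n D hP
    exact glD3 D hP

omit [Fintype V] in
/-- one good position over an infinite field -/
theorem bz_of_gb {m : ℕ} {K : Type*} [Field K] [Infinite K] {E : Finset (Finset V)}
    {I : Finset V} (h : GB m K E I) : ∃ p : V × Fin 2 → K, BZ m p E I := by
  obtain ⟨Q, hQ, hQ'⟩ := h
  obtain ⟨p, hp⟩ : ∃ p : V × Fin 2 → K, MvPolynomial.eval p Q ≠ 0 := by
    by_contra hcon
    push Not at hcon
    exact hQ (MvPolynomial.funext fun x => by rw [hcon x, map_zero])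
  exact ⟨p, hQ' p hp⟩

/-- the theorem of Gluck over one infinite field of characteristic 2 gives it over all fields of characteristic 2 -/
theorem gb_all_char2 {m : ℕ} {L : Type*} [Field L] [CharP L 2] [Infinite L]
    {E : Finset (Finset V)} {I : Finset V} (h : GB m L E I) (K : Type) [Field K] [CharP K 2] :
    GB m K E I := by
  obtain ⟨p, hp⟩ := bz_of_gb h
  exact gb_of_char2 m p E I hp K

/-- **the theorem of Gluck** over every field of characteristic 2, for spheres without separating triangles -/
theorem gb_sphere (K : Type) [Field K] [CharP K 2] {T : Finset (Finset V)} (h : Sph T)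
    (hF : Fac3 T) {F₀ : Finset V} (hF₀ : F₀ ∈ T) (h8 : 8 ≤ T.card) :
    GB 2 K (edges T) (vs T \ F₀) := by
  have : CharP (RatFunc (ZMod 2)) 2 := ratFunc_charP (ZMod 2)
  have : Infinite (RatFunc (ZMod 2)) := ratFunc_infinite (ZMod 2)
  exact gb_all_char2 (gb_sphere_inf (RatFunc (ZMod 2)) h hF hF₀ h8) K

/-- the characteristic 2 system at generic positions over every field of characteristic 2 -/
theorem gn_sphere (K : Type) [Field K] [CharP K 2] {T : Finset (Finset V)} (h : Sph T)
    (hF : Fac3 T) {F₀ : Finset V} (hF₀ : F₀ ∈ T) (h8 : 8 ≤ T.card) :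
    GN K (edges T) (vs T \ F₀) := gn_of_ng (ng_sphere h hF hF₀ h8) K

end Pool.Agent.Spl2
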