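import Pool.Agent.Spl2.SphCtr

/-!
# Contraction of an edge: lifting sets of triangles

`nd D v o` are the triangles of `D` which do not contain both `v` and `o`; `fo v o` is the map on them
(`v` moved to `o`); `ctr T v o` is the image of `nd T v o` and the map is injective there (see `ctr_card`).
`lft T v o D'` is the preimage of `D' ⊆ ctr T v o`.

Paper proof.  `fo_inj`: if `fo t = fo t'`, `t ≠ t'`, then one of them contains `v`, say `t = {v,x,y}`, and
`t' = {o,x,y}` (if both contain `v`: `t.erase v = t'.erase v`); `LC` gives `{v,o,x}, {v,o,y} ∈ T`,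
`k4` gives `|T| = 4`.  `tdeg_lft`: for `x, y ≠ v, o`: `{x,y} ⊆ fo t ↔ {x,y} ⊆ t`, and `fo` is a bijection
from `lft D'` to `D'`.  `tdeg_lft_o`: `{o,x} ⊆ fo t` iff `{o,x} ⊆ t` or `{v,x} ⊆ t`, and these exclude each
other on `nd`.  `tdeg_nd`: a triangle which contains `v, o` contains only one more vertex.
`apex`: the two triangles at the edge `{v,o}` (`Sph.link_two`), `LC`.
-/

set_option autoImplicit false

namespace Pool.Agent.Spl2

open Finset Pool.Agent.Spl1

variable {V : Type*} [Fintype V] [DecidableEq V]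

def fo (v o : V) (t : Finset V) : Finset V := if v ∈ t then insert o (t.erase v) else t

def nd (D : Finset (Finset V)) (v o : V) : Finset (Finset V) := D.filter (fun t => ¬ (v ∈ t ∧ o ∈ t))

def lft (T : Finset (Finset V)) (v o : V) (D' : Finset (Finset V)) : Finset (Finset V) :=
  (nd T v o).filter (fun t => fo v o t ∈ D')

private theorem lift_mem_nd {D : Finset (Finset V)} {v o : V} {t : Finset V} :
    t ∈ nd D v o ↔ t ∈ D ∧ ¬ (v ∈ t ∧ o ∈ t) := by
  unfold nd
  rw [Finset.mem_filter]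

private theorem lift_mem_lft {T : Finset (Finset V)} {v o : V} {D' : Finset (Finset V)}
    {t : Finset V} : t ∈ lft T v o D' ↔ t ∈ nd T v o ∧ fo v o t ∈ D' := by
  unfold lft
  rw [Finset.mem_filter]

private theorem lift_fo_pos {v o : V} {t : Finset V} (h : v ∈ t) :
    fo v o t = insert o (t.erase v) := by
  unfold fo
  rw [if_pos h]

private theorem lift_fo_neg {v o : V} {t : Finset V} (h : v ∉ t) : fo v o t = t := by
  unfold fo
  rw [if_neg h]

private theorem lift_mem_fo {v o : V} {t : Finset V} {x : V} (hxv : x ≠ v) (hxo : x ≠ o) :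
    x ∈ fo v o t ↔ x ∈ t := by
  by_cases hv : v ∈ t
  · rw [lift_fo_pos hv, Finset.mem_insert, Finset.mem_erase]
    constructor
    · rintro (h | h)
      · exact absurd h hxo
      · exact h.2
    · exact fun h => Or.inr ⟨hxv, h⟩
  · rw [lift_fo_neg hv]

private theorem lift_o_mem_fo {v o : V} {t : Finset V} : o ∈ fo v o t ↔ v ∈ t ∨ o ∈ t := by
  by_cases hv : v ∈ t
  · rw [lift_fo_pos hv]
    simp [hv]
  · rw [lift_fo_neg hv]
    simp [hv]

private theorem lift_pair_sub {x y : V} {t : Finset V} :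
    ({x, y} : Finset V) ⊆ t ↔ x ∈ t ∧ y ∈ t := by
  rw [Finset.insert_subset_iff, Finset.singleton_subset_iff]

private theorem lift_fo_aux {T : Finset (Finset V)} (h : Sph T) {v o : V} (hvo : v ≠ o)
    (hL : LC T v o) (h4 : 4 < T.card) {t t' : Finset V}
    (ht : t ∈ T) (ht' : t' ∈ T) (hv : v ∈ t) (ho : o ∉ t) (hf : insert o (t.erase v) = t') :
    False := by
  have hc := h.card3 t ht
  have hc2 : (t.erase v).card = 2 := by
    rw [Finset.card_erase_of_mem hv, hc]
  obtain ⟨x, y, hxy, hxyt⟩ := Finset.card_eq_two.1 hc2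
  have hx : x ∈ t.erase v := by
    rw [hxyt]
    simp
  have hy : y ∈ t.erase v := by
    rw [hxyt]
    simp
  obtain ⟨hxv, hxt⟩ := Finset.mem_erase.1 hx
  obtain ⟨hyv, hyt⟩ := Finset.mem_erase.1 hy
  have hxo : x ≠ o := fun e => ho (e ▸ hxt)
  have hyo : y ≠ o := fun e => ho (e ▸ hyt)
  have e1 : t = {v, x, y} := by
    rw [← Finset.insert_erase hv, hxyt]
  have e2 : t' = {o, x, y} := by
    rw [← hf, hxyt]
  have hxt' : x ∈ t' := by
    rw [e2]
    simp
  have hyt' : y ∈ t' := by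
    rw [e2]
    simp
  have hot' : o ∈ t' := by
    rw [e2]
    simp
  have g1 := hL x hxv hxo (edge_of_tri ht hxv.symm hv hxt) (edge_of_tri ht' hxo.symm hot' hxt')
  have g2 := hL y hyv hyo (edge_of_tri ht hyv.symm hv hyt) (edge_of_tri ht' hyo.symm hot' hyt')
  have g3 := h.k4 hvo hxv.symm hyv.symm hxo.symm hxy hyo.symm g1 (e1 ▸ ht) g2 (e2 ▸ ht')
  omega

theorem ctr_eq (T : Finset (Finset V)) (v o : V) : ctr T v o = (nd T v o).image (fo v o) := by
  ext t
  rw [mem_ctr, Finset.mem_image]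
  constructor
  · rintro (⟨h1, h2⟩ | ⟨s, h1, h2, h3, h4⟩)
    · exact ⟨t, lift_mem_nd.2 ⟨h1, fun h => h2 h.1⟩, lift_fo_neg h2⟩
    · exact ⟨s, lift_mem_nd.2 ⟨h1, fun h => h3 h.2⟩, by rw [lift_fo_pos h2, h4]⟩
  · rintro ⟨s, h1, h2⟩
    obtain ⟨h3, h4⟩ := lift_mem_nd.1 h1
    by_cases hv : v ∈ s
    · right
      refine ⟨s, h3, hv, fun ho => h4 ⟨hv, ho⟩, ?_⟩
      rw [← h2, lift_fo_pos hv]
    · left
      rw [lift_fo_neg hv] at h2
      rw [← h2]
      exact ⟨h3, hv⟩

theorem fo_inj {T : Finset (Finset V)} (h : Sph T) {v o : V}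
    (he : ({v, o} : Finset V) ∈ edges T) (hL : LC T v o) (h4 : 4 < T.card) {t t' : Finset V}
    (ht : t ∈ nd T v o) (ht' : t' ∈ nd T v o) (hf : fo v o t = fo v o t') : t = t' := by
  have hvo : v ≠ o := edge_ne he
  obtain ⟨h1, h2⟩ := lift_mem_nd.1 ht
  obtain ⟨h3, h5⟩ := lift_mem_nd.1 ht'
  by_cases hv : v ∈ t
  · have ho : o ∉ t := fun ho => h2 ⟨hv, ho⟩
    by_cases hv' : v ∈ t'
    · have ho' : o ∉ t' := fun ho => h5 ⟨hv', ho⟩
      rw [lift_fo_pos hv, lift_fo_pos hv'] at hf
      have e1 : o ∉ t.erase v := fun h => ho (Finset.mem_of_mem_erase h)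
      have e2 : o ∉ t'.erase v := fun h => ho' (Finset.mem_of_mem_erase h)
      have e3 : t.erase v = t'.erase v := by
        have := congrArg (fun s => Finset.erase s o) hf
        simpa [Finset.erase_insert e1, Finset.erase_insert e2] using this
      rw [← Finset.insert_erase hv, e3, Finset.insert_erase hv']
    · rw [lift_fo_pos hv, lift_fo_neg hv'] at hf
      exact (lift_fo_aux h hvo hL h4 h1 h3 hv ho hf).elim
  · by_cases hv' : v ∈ t'
    · have ho' : o ∉ t' := fun ho => h5 ⟨hv', ho⟩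
      rw [lift_fo_neg hv, lift_fo_pos hv'] at hf
      exact (lift_fo_aux h hvo hL h4 h3 h1 hv' ho' hf.symm).elim
    · rw [lift_fo_neg hv, lift_fo_neg hv'] at hf
      exact hf

theorem lft_sub (T : Finset (Finset V)) (v o : V) (D' : Finset (Finset V)) :
    lft T v o D' ⊆ nd T v o := by
  unfold lft
  exact Finset.filter_subset _ _

theorem image_lft {T : Finset (Finset V)} {v o : V} {D' : Finset (Finset V)}
    (hD' : D' ⊆ ctr T v o) : (lft T v o D').image (fo v o) = D' := by
  ext t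
  rw [Finset.mem_image]
  constructor
  · rintro ⟨s, h1, h2⟩
    rw [← h2]
    exact (lift_mem_lft.1 h1).2
  · intro ht
    have h1 := hD' ht
    rw [ctr_eq, Finset.mem_image] at h1
    obtain ⟨s, h2, h3⟩ := h1
    exact ⟨s, lift_mem_lft.2 ⟨h2, by rw [h3]; exact ht⟩, h3⟩

theorem lft_image {T : Finset (Finset V)} (h : Sph T) {v o : V}
    (he : ({v, o} : Finset V) ∈ edges T) (hL : LC T v o) (h4 : 4 < T.card)
    {D : Finset (Finset V)} (hD : D ⊆ T) : lft T v o ((nd D v o).image (fo v o)) = nd D v o := by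
  have hsub : ∀ t ∈ nd D v o, t ∈ nd T v o := fun t ht =>
    lift_mem_nd.2 ⟨hD (lift_mem_nd.1 ht).1, (lift_mem_nd.1 ht).2⟩
  ext t
  rw [lift_mem_lft, Finset.mem_image]
  constructor
  · rintro ⟨h1, s, h2, h3⟩
    rw [← fo_inj h he hL h4 (hsub s h2) h1 h3]
    exact h2
  · intro ht
    exact ⟨hsub t ht, t, ht, rfl⟩

private theorem lift_injOn {T : Finset (Finset V)} (h : Sph T) {v o : V}
    (he : ({v, o} : Finset V) ∈ edges T) (hL : LC T v o) (h4 : 4 < T.card)
    (D' : Finset (Finset V)) (s : Finset (Finset V)) (hs : s ⊆ lft T v o D') :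
    Set.InjOn (fo v o) (s : Set (Finset V)) := by
  intro t ht t' ht' hf
  exact fo_inj h he hL h4 (lft_sub T v o D' (hs ht)) (lft_sub T v o D' (hs ht')) hf

theorem tdeg_lft {T : Finset (Finset V)} (h : Sph T) {v o : V}
    (he : ({v, o} : Finset V) ∈ edges T) (hL : LC T v o) (h4 : 4 < T.card)
    {D' : Finset (Finset V)} (hD' : D' ⊆ ctr T v o) {x y : V} (hxv : x ≠ v) (hxo : x ≠ o)
    (hyv : y ≠ v) (hyo : y ≠ o) : tdeg D' {x, y} = tdeg (lft T v o D') {x, y} := by
  unfold tdeg
  have h1 : D'.filter (fun t => ({x, y} : Finset V) ⊆ t) =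
      ((lft T v o D').filter (fun t => ({x, y} : Finset V) ⊆ t)).image (fo v o) := by
    conv_lhs => rw [← image_lft hD']
    rw [Finset.filter_image]
    congr 1
    refine Finset.filter_congr fun t _ => ?_
    rw [lift_pair_sub, lift_pair_sub, lift_mem_fo hxv hxo, lift_mem_fo hyv hyo]
  rw [h1, Finset.card_image_of_injOn]
  exact lift_injOn h he hL h4 D' _ (Finset.filter_subset _ _)

theorem tdeg_lft_o {T : Finset (Finset V)} (h : Sph T) {v o : V}
    (he : ({v, o} : Finset V) ∈ edges T) (hL : LC T v o) (h4 : 4 < T.card)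
    {D' : Finset (Finset V)} (hD' : D' ⊆ ctr T v o) {x : V} (hxv : x ≠ v) (hxo : x ≠ o) :
    tdeg D' {o, x} = tdeg (lft T v o D') {o, x} + tdeg (lft T v o D') {v, x} := by
  unfold tdeg
  have h1 : D'.filter (fun t => ({o, x} : Finset V) ⊆ t) =
      ((lft T v o D').filter (fun t => ({o, x} : Finset V) ⊆ t) ∪
        (lft T v o D').filter (fun t => ({v, x} : Finset V) ⊆ t)).image (fo v o) := by
    conv_lhs => rw [← image_lft hD']
    rw [Finset.filter_image, ← Finset.filter_or]
    congr 1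
    refine Finset.filter_congr fun t _ => ?_
    rw [lift_pair_sub, lift_pair_sub, lift_pair_sub, lift_mem_fo hxv hxo, lift_o_mem_fo]
    tauto
  have h2 : Disjoint ((lft T v o D').filter (fun t => ({o, x} : Finset V) ⊆ t))
      ((lft T v o D').filter (fun t => ({v, x} : Finset V) ⊆ t)) := by
    rw [Finset.disjoint_left]
    intro t ht ht'
    obtain ⟨h3, h5⟩ := Finset.mem_filter.1 ht
    obtain ⟨-, h6⟩ := Finset.mem_filter.1 ht'
    rw [lift_pair_sub] at h5 h6
    exact (lift_mem_nd.1 (lft_sub T v o D' h3)).2 ⟨h6.1, h5.1⟩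
  rw [h1, Finset.card_image_of_injOn, Finset.card_union_of_disjoint h2]
  exact lift_injOn h he hL h4 D' _
    (Finset.union_subset (Finset.filter_subset _ _) (Finset.filter_subset _ _))

theorem tdeg_ctr_v {T : Finset (Finset V)} {v o : V} (hvo : v ≠ o) {D' : Finset (Finset V)}
    (hD' : D' ⊆ ctr T v o) (x : V) : tdeg D' {v, x} = 0 := by
  unfold tdeg
  rw [Finset.card_eq_zero, Finset.filter_eq_empty_iff]
  intro t ht hsub
  rw [lift_pair_sub] at hsub
  exact notMem_of_ctr hvo (hD' ht) hsub.1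

theorem tdeg_nd {D : Finset (Finset V)} (h3 : ∀ t ∈ D, t.card = 3) {v o : V} (hvo : v ≠ o)
    {x y : V} (hxy : x ≠ y) (hxv : x ≠ v) (hxo : x ≠ o) (hyv : y ≠ v) (hyo : y ≠ o) :
    tdeg (nd D v o) {x, y} = tdeg D {x, y} := by
  unfold tdeg
  congr 1
  ext t
  rw [Finset.mem_filter, Finset.mem_filter, lift_mem_nd]
  constructor
  · rintro ⟨⟨h1, -⟩, h2⟩
    exact ⟨h1, h2⟩
  · rintro ⟨h1, h2⟩
    refine ⟨⟨h1, ?_⟩, h2⟩
    rintro ⟨hv, ho⟩
    rw [lift_pair_sub] at h2
    have h4 : ({x, y, v, o} : Finset V) ⊆ t := by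
      intro z hz
      simp only [Finset.mem_insert, Finset.mem_singleton] at hz
      rcases hz with rfl | rfl | rfl | rfl
      · exact h2.1
      · exact h2.2
      · exact hv
      · exact ho
    have h5 : ({x, y, v, o} : Finset V).card = 4 := by
      rw [Finset.card_insert_of_notMem, Finset.card_insert_of_notMem,
        Finset.card_insert_of_notMem, Finset.card_singleton]
      · simpa using hvo
      · simp [hyv, hyo]
      · simp [hxy, hxv, hxo]
    have h6 := Finset.card_le_card h4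
    rw [h5, h3 t h1] at h6
    omega

private theorem lift_three {D : Finset (Finset V)} (h3 : ∀ t ∈ D, t.card = 3) {v o : V}
    (hvo : v ≠ o) {x : V} (hxv : x ≠ v) (hxo : x ≠ o) {t : Finset V} (ht : t ∈ D) (hv : v ∈ t)
    (ho : o ∈ t) (hx : x ∈ t) : t = {v, o, x} := by
  have h4 : ({v, o, x} : Finset V) ⊆ t := by
    intro z hz
    simp only [Finset.mem_insert, Finset.mem_singleton] at hz
    rcases hz with rfl | rfl | rfl
    · exact hv
    · exact ho
    · exact hx
  have h5 : ({v, o, x} : Finset V).card = 3 :=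
    Finset.card_eq_three.2 ⟨v, o, x, hvo, hxv.symm, hxo.symm, rfl⟩
  refine (Finset.eq_of_subset_of_card_le h4 ?_).symm
  rw [h5, h3 t ht]

private theorem lift_nd_aux {D : Finset (Finset V)} (h3 : ∀ t ∈ D, t.card = 3) {v o : V}
    (hvo : v ≠ o) {x : V} (hxv : x ≠ v) (hxo : x ≠ o) {u : V} (hu : u = v ∨ u = o) :
    tdeg D {u, x} = tdeg (nd D v o) {u, x} + (if ({v, o, x} : Finset V) ∈ D then 1 else 0) := by
  unfold tdeg
  have h1 : D.filter (fun t => ({u, x} : Finset V) ⊆ t) =
      (nd D v o).filter (fun t => ({u, x} : Finset V) ⊆ t) ∪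
        D.filter (fun t => t = {v, o, x}) := by
    ext t
    rw [Finset.mem_union, Finset.mem_filter, Finset.mem_filter, Finset.mem_filter, lift_mem_nd,
      lift_pair_sub]
    constructor
    · rintro ⟨h1, h2, h4⟩
      by_cases hb : v ∈ t ∧ o ∈ t
      · exact Or.inr ⟨h1, lift_three h3 hvo hxv hxo h1 hb.1 hb.2 h4⟩
      · exact Or.inl ⟨⟨h1, hb⟩, h2, h4⟩
    · rintro (⟨⟨h1, -⟩, h2⟩ | ⟨h1, h2⟩)
      · exact ⟨h1, h2⟩
      · refine ⟨h1, ?_, ?_⟩
        · rw [h2]
          rcases hu with rfl | rfl <;> simp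
        · rw [h2]
          simp
  have h2 : Disjoint ((nd D v o).filter (fun t => ({u, x} : Finset V) ⊆ t))
      (D.filter (fun t => t = {v, o, x})) := by
    rw [Finset.disjoint_left]
    intro t ht ht'
    have h4 := (lift_mem_nd.1 (Finset.mem_filter.1 ht).1).2
    have h5 := (Finset.mem_filter.1 ht').2
    apply h4
    rw [h5]
    simp
  rw [h1, Finset.card_union_of_disjoint h2]
  congr 1
  by_cases hm : ({v, o, x} : Finset V) ∈ D
  · rw [if_pos hm, Finset.filter_eq', if_pos hm, Finset.card_singleton]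
  · rw [if_neg hm, Finset.filter_eq', if_neg hm, Finset.card_empty]

theorem tdeg_nd_o {D : Finset (Finset V)} (h3 : ∀ t ∈ D, t.card = 3) {v o : V} (hvo : v ≠ o)
    {x : V} (hxv : x ≠ v) (hxo : x ≠ o) :
    tdeg D {o, x} = tdeg (nd D v o) {o, x} + (if ({v, o, x} : Finset V) ∈ D then 1 else 0) ∧
    tdeg D {v, x} = tdeg (nd D v o) {v, x} + (if ({v, o, x} : Finset V) ∈ D then 1 else 0) := by
  exact ⟨lift_nd_aux h3 hvo hxv hxo (Or.inr rfl), lift_nd_aux h3 hvo hxv hxo (Or.inl rfl)⟩

theorem apex {T : Finset (Finset V)} (h : Sph T) {v o : V}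
    (he : ({v, o} : Finset V) ∈ edges T) (hL : LC T v o) :
    ∃ a b : V, a ≠ b ∧ a ≠ v ∧ a ≠ o ∧ b ≠ v ∧ b ≠ o ∧ ({v, o, a} : Finset V) ∈ T ∧
      ({v, o, b} : Finset V) ∈ T ∧ T \ nd T v o = {{v, o, a}, {v, o, b}} ∧
      ∀ x : V, x ≠ v → x ≠ o → ((({v, x} : Finset V) ∈ edges T ∧ ({o, x} : Finset V) ∈ edges T) ↔
        x = a ∨ x = b) := by
  obtain ⟨a, b, hab, hav, hao, hbv, hbo, hvo, ha, hb, huniq⟩ := h.link_two he
  refine ⟨a, b, hab, hav, hao, hbv, hbo, ha, hb, ?_, ?_⟩
  · ext t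
    rw [Finset.mem_sdiff, lift_mem_nd, Finset.mem_insert, Finset.mem_singleton]
    constructor
    · rintro ⟨h1, h2⟩
      have h3 : v ∈ t ∧ o ∈ t := by
        by_contra h3
        exact h2 ⟨h1, h3⟩
      exact huniq t h1 h3.1 h3.2
    · rintro (h1 | h1)
      · refine ⟨h1 ▸ ha, fun h2 => h2.2 ?_⟩
        rw [h1]
        simp
      · refine ⟨h1 ▸ hb, fun h2 => h2.2 ?_⟩
        rw [h1]
        simp
  · intro x hxv hxo
    constructor
    · rintro ⟨h1, h2⟩
      have h3 := hL x hxv hxo h1 h2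
      have h4 : x ∈ ({v, o, x} : Finset V) := by simp
      rcases huniq _ h3 (by simp) (by simp) with h5 | h5
      · rw [h5] at h4
        simp only [Finset.mem_insert, Finset.mem_singleton] at h4
        rcases h4 with h4 | h4 | h4
        · exact absurd h4 hxv
        · exact absurd h4 hxo
        · exact Or.inl h4
      · rw [h5] at h4
        simp only [Finset.mem_insert, Finset.mem_singleton] at h4
        rcases h4 with h4 | h4 | h4
        · exact absurd h4 hxv
        · exact absurd h4 hxo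
        · exact Or.inr h4
    · rintro (rfl | rfl)
      · exact ⟨edge_of_tri ha hxv.symm (by simp) (by simp),
          edge_of_tri ha hxo.symm (by simp) (by simp)⟩
      · exact ⟨edge_of_tri hb hxv.symm (by simp) (by simp),
          edge_of_tri hb hxo.symm (by simp) (by simp)⟩

end Pool.Agent.Spl2
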