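import Pool.Agent.Spl2.SphDatD

/-!
# The reduction theorem with all data
-/

set_option autoImplicit false

namespace Pool.Agent.Spl2

open Finset Pool.Agent.Spl1

variable {V : Type*} [Fintype V] [DecidableEq V]

/-- **the reduction theorem** with all data -/
theorem comb_data {T : Finset (Finset V)} (h : Sph T) (hF : Fac3 T) (h10 : 10 ≤ T.card)
    {F₀ : Finset V} (hF₀ : F₀ ∈ T) :
    ∃ T' : Finset (Finset V), Sph T' ∧ Fac3 T' ∧ F₀ ∈ T' ∧ 8 ≤ T'.card ∧ T'.card < T.card ∧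
      ((∃ v₁ v₂ X Y z u : V, DT4 T T' F₀ v₁ v₂ X Y z u) ∨
        (∃ (o v₁ v₂ X Y A : V) (N₁ N₂ : Finset V), DF3 T T' F₀ o v₁ v₂ X Y A N₁ N₂) ∨
        (∃ (o p v w X₁ X₂ Y₁ Y₂ : V) (N : Finset V), DD3 T T' F₀ o p v w X₁ X₂ Y₁ Y₂ N)) := by
  obtain ⟨T', h1 | h2 | h3⟩ := comb h hF h10 hF₀
  · obtain ⟨v₁, v₂, -, a1, a2, a3, a4, a5, a6⟩ := h1
    exact ⟨T', a6.sph, a6.fac, a6.mem, a6.eight, a6.lt,
      Or.inl ⟨v₁, v₂, dt4 h hF a1 a2 a3 a4 a5 a6⟩⟩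
  · obtain ⟨o, v₁, v₂, a1, a2, a3, a6⟩ := h2
    exact ⟨T', a6.sph, a6.fac, a6.mem, a6.eight, a6.lt,
      Or.inr (Or.inl ⟨o, v₁, v₂, df3 h hF h10 a1 a2 a3 a6⟩)⟩
  · obtain ⟨o, p, v, w, a1, a2, a3, a4, a5, a7, a8, a9, a10, a11, a12, a6⟩ := h3
    exact ⟨T', a6.sph, a6.fac, a6.mem, a6.eight, a6.lt,
      Or.inr (Or.inr ⟨o, p, v, w, dd3 h hF a1 a2 a3 a4 a5 a7 a8 a9 a10 a11 a12 a6⟩)⟩

end Pool.Agent.Spl2
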