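import Pool.Agent.Spl2.SphReg0

/-!
# The corners of a minimal region

`D` is a region with boundary the chordless 4-cycle `a b c d`, which is not a star, and every smaller such
region (not containing `F₀`) is a star (`MinQ`).

Paper proof of `half`.  Let `x` be an interior vertex adjacent to `a` and `c`.  The cycle
`a b c x` is contained in `edges D` (`ab, bc` are in `bdry D`, the triangles at `x` are in `D`), so by
`Reg0.closure` there is `D₁ ⊆ D` with this boundary.
If `b x` is an edge: `{a,b,x}, {b,c,x} ∈ T` (`Fac3`), `bdry_two` and `uniq` give `D₁ = {abx, bcx}` or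
`D₁ = T \ {abx, bcx}`; the last is impossible: `abx, bcx ∈ star T x ⊆ D` and `F₀ ∉ D`, `D₁ ⊆ D`, so `F₀` would
not be in `D₁`, hence in `{abx, bcx} ⊆ D`.
If `b x` is not an edge: `IsQ T a b c x`; `D₁ ≠ D` (the boundaries are different: `x ∉ {a,b,c,d}`), so
`|D₁| < |D|` and `D₁ = star T y` by `MinQ`; `|star T y| = 4` (`star_of_bdry`); `y` is adjacent to `x`
(the triangle of `D₁` at the edge `c x` of its boundary contains `y`).
In both cases exactly two triangles of `D₁` contain `x` (`Sph.link_two` at the edge `x y`).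
`opp_corner`: `half` for `b` and for `d` (reflection `IsQ.ref`): `D₁`, `D₂`.
`bdry (D₁ ∆ D₂) = bdry D`, so `D₁ ∆ D₂ = D` (`Reg0.eq_of`), `D₁ ∩ D₂ = ∅`, `D = D₁ ∪ D₂`, and
`|star T x| = 2 + 2 = 4` (`Reg0.inn`).  If one of them is a star of `y`, then `x, y` are adjacent vertices of
degree `4` whose stars are in `D`, so they are not in `F₀`, contradiction to `NoT4`.  Otherwise
`D = {abx, bcx, cdx, dax} ⊆ star T x ⊆ D`, contradiction to `hcone`.
`corner3` for `a` (then rotate): the triangles of `D` at `a`: `tdeg D {a,b}`, `tdeg D {a,d}` are odd.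
If there is only one it is `{a,b,d}`, and `b d` would be a chord.  If there are two: `{a,b,x}`, `{a,d,x'}`
(`x ≠ d`, `x' ≠ b`); `tdeg D {a,x}` is even (`{a,x} ∉ bdry D`), so `x' = x`; `x ≠ c` since `a c` is not an edge;
`x` is adjacent to `b` and `d`, contradiction to `opp_corner` (rotated).  `T \ D` has the same boundary, so
it contains a triangle at `a`, and not only one.
-/

set_option autoImplicit false

namespace Pool.Agent.Spl2

open Finset Pool.Agent.Spl1

variable {V : Type*} [Fintype V] [DecidableEq V]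

/-- every smaller region with a chordless 4-cycle as boundary is a star -/
def MinQ (T : Finset (Finset V)) (F₀ : Finset V) (n : ℕ) : Prop :=
  ∀ D' ⊆ T, F₀ ∉ D' → D'.card < n → (∃ a b c d : V, IsQ T a b c d ∧ bdry D' = qb a b c d) →
    ∃ v, D' = star T v

omit [Fintype V] in
private theorem opp_tri {D : Finset (Finset V)} {x y : V} (h : Odd (tdeg D ({x, y} : Finset V))) :
    ∃ t ∈ D, x ∈ t ∧ y ∈ t := by
  unfold tdeg at h
  obtain ⟨t, ht⟩ := Finset.card_pos.1 h.pos
  rw [Finset.mem_filter, Finset.insert_subset_iff, Finset.singleton_subset_iff] at ht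
  exact ⟨t, ht.1, ht.2.1, ht.2.2⟩

private theorem opp_star_tdeg (T : Finset (Finset V)) (x y : V) :
    (star (star T y) x).card = tdeg T ({x, y} : Finset V) := by
  unfold tdeg
  congr 1
  ext t
  rw [mem_star, mem_star, Finset.mem_filter, Finset.insert_subset_iff,
    Finset.singleton_subset_iff]
  tauto

theorem half {T : Finset (Finset V)} (h : Sph T) (hF : Fac3 T) {F₀ : Finset V} (hF₀ : F₀ ∈ T)
    {D : Finset (Finset V)} (hD : D ⊆ T) (hnF : F₀ ∉ D) {a b c d : V} (hQ : IsQ T a b c d)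
    (hb : bdry D = qb a b c d) (hmin : MinQ T F₀ D.card) {x : V}
    (hx : x ∉ ({a, b, c, d} : Finset V)) (hxD : (star D x).Nonempty)
    (hax : ({a, x} : Finset V) ∈ edges T) (hcx : ({c, x} : Finset V) ∈ edges T) :
    ∃ D₁ ⊆ D, bdry D₁ = qb a b c x ∧ (star D₁ x).card = 2 ∧
      (D₁ = {{a, b, x}, {b, c, x}} ∨
        ∃ y, D₁ = star T y ∧ (star T y).card = 4 ∧ ({x, y} : Finset V) ∈ edges T) := by
  have hR := reg0_Q h hF₀ hD hnF hQ hb
  have hxT : star T x ⊆ D := hR.inn h hx hxD
  simp only [Finset.mem_insert, Finset.mem_singleton, not_or] at hx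
  obtain ⟨xa, xb, xc, xd⟩ := hx
  -- the cycle `a b c x`
  have hedge : ∀ u : V, ({u, x} : Finset V) ∈ edges T → ({u, x} : Finset V) ∈ edges D := by
    intro u hu
    rw [mem_edges] at hu ⊢
    obtain ⟨h1, t, ht, h2⟩ := hu
    refine ⟨h1, t, hxT (mem_star.2 ⟨ht, h2 ?_⟩), h2⟩
    simp
  have hcyc : qb a b c x ⊆ edges D := by
    intro e he
    have hbe : bdry D ⊆ edges D := bdry_subset_edges (Finset.Subset.refl D)
    rcases mem_qb.1 he with rfl | rfl | rfl | rfl
    · exact hbe (by rw [hb]; exact mem_qb.2 (Or.inl rfl))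
    · exact hbe (by rw [hb]; exact mem_qb.2 (Or.inr (Or.inl rfl)))
    · exact hedge c hcx
    · rw [Finset.pair_comm]
      exact hedge a hax
  obtain ⟨D₁, hD₁, hb₁⟩ := hR.closure h hcyc
    (isCyc_qb hQ.ab hQ.bc (Ne.symm xc) xa hQ.ac (Ne.symm xb))
  have hD₁T : D₁ ⊆ T := hD₁.trans hD
  refine ⟨D₁, hD₁, hb₁, ?_⟩
  by_cases hbx : ({b, x} : Finset V) ∈ edges T
  · have t1 : ({a, b, x} : Finset V) ∈ T :=
      hF a b x hQ.ab (Ne.symm xb) (Ne.symm xa) hQ.eab hbx hax
    have t2 : ({b, c, x} : Finset V) ∈ T :=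
      hF b c x hQ.bc (Ne.symm xc) (Ne.symm xb) hQ.ebc hcx hbx
    have hb₂ : bdry ({{a, b, x}, {b, c, x}} : Finset (Finset V)) = qb a b c x := by
      have e1 : ({{a, b, x}, {b, c, x}} : Finset (Finset V)) = {{b, c, x}, {b, x, a}} := by
        have e2 : ({b, x, a} : Finset V) = {a, b, x} := by
          ext z
          simp only [Finset.mem_insert, Finset.mem_singleton]
          tauto
        rw [e2, Finset.pair_comm]
      rw [e1, bdry_two hQ.bc (Ne.symm xc) xa hQ.ab (Ne.symm xb) (Ne.symm hQ.ac), qb_rot a b c x]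
    have hsub : ({{a, b, x}, {b, c, x}} : Finset (Finset V)) ⊆ D := by
      intro t ht
      simp only [Finset.mem_insert, Finset.mem_singleton] at ht
      rcases ht with rfl | rfl
      · exact hxT (mem_star.2 ⟨t1, by simp⟩)
      · exact hxT (mem_star.2 ⟨t2, by simp⟩)
    have hD₁eq : D₁ = {{a, b, x}, {b, c, x}} := by
      rcases h.uniq hD₁T (hsub.trans hD) (hb₁.trans hb₂.symm) with h1 | h1
      · exact h1
      · exfalso
        apply hnF
        by_contra hn
        have h2 : F₀ ∈ D₁ := by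
          rw [h1, Finset.mem_sdiff]
          exact ⟨hF₀, fun h3 => hn (hsub h3)⟩
        exact hn (hD₁ h2)
    refine ⟨?_, Or.inl hD₁eq⟩
    have e3 : star D₁ x = {{a, b, x}, {b, c, x}} := by
      ext t
      rw [mem_star, hD₁eq]
      constructor
      · exact fun h => h.1
      · intro ht
        refine ⟨ht, ?_⟩
        simp only [Finset.mem_insert, Finset.mem_singleton] at ht
        rcases ht with rfl | rfl <;> simp
    rw [e3, Finset.card_pair]
    intro h1
    have h2 : a ∈ ({b, c, x} : Finset V) := by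
      rw [← h1]
      simp
    simp only [Finset.mem_insert, Finset.mem_singleton] at h2
    rcases h2 with h2 | h2 | h2
    · exact hQ.ab h2
    · exact hQ.ac h2
    · exact xa h2.symm
  · have hQ' : IsQ T a b c x := ⟨hQ.ab, hQ.bc, Ne.symm xc, xa, hQ.ac, Ne.symm xb, hQ.eab, hQ.ebc,
      hcx, edge_swap hax, hQ.nac, hbx⟩
    have hne : D₁ ≠ D := by
      intro h1
      have h2 : ({c, x} : Finset V) ∈ qb a b c d := by
        rw [← hb, ← h1, hb₁]
        exact mem_qb.2 (Or.inr (Or.inr (Or.inl rfl)))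
      have h3 : x ∈ ({c, x} : Finset V) := by simp
      rcases mem_qb.1 h2 with h4 | h4 | h4 | h4
      · rw [h4] at h3
        simp only [Finset.mem_insert, Finset.mem_singleton] at h3
        tauto
      · rw [h4] at h3
        simp only [Finset.mem_insert, Finset.mem_singleton] at h3
        tauto
      · rw [h4] at h3
        simp only [Finset.mem_insert, Finset.mem_singleton] at h3
        tauto
      · rw [h4] at h3
        simp only [Finset.mem_insert, Finset.mem_singleton] at h3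
        tauto
    have hlt : D₁.card < D.card := Finset.card_lt_card (Finset.ssubset_iff_subset_ne.2 ⟨hD₁, hne⟩)
    obtain ⟨y, hy⟩ := hmin D₁ hD₁T (fun h1 => hnF (hD₁ h1)) hlt ⟨a, b, c, x, hQ', hb₁⟩
    have hcard : (star T y).card = 4 := by
      rw [← h.star_of_bdry y, ← hy, hb₁]
      exact qb_card hQ.ab hQ.bc (Ne.symm xc) xa hQ.ac (Ne.symm xb)
    have hcxb : ({c, x} : Finset V) ∈ bdry D₁ := by
      rw [hb₁]
      exact mem_qb.2 (Or.inr (Or.inr (Or.inl rfl)))
    have hodd := (mem_bdry.1 hcxb).2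
    have hxy : x ≠ y := by
      rintro rfl
      have h1 : tdeg D₁ {c, x} = tdeg T {c, x} := by
        unfold tdeg
        congr 1
        ext t
        rw [hy, Finset.mem_filter, Finset.mem_filter, mem_star, Finset.insert_subset_iff,
          Finset.singleton_subset_iff]
        tauto
      rw [h1, h.two _ hcx] at hodd
      exact absurd hodd (by decide)
    obtain ⟨t, ht, hct, hxt⟩ := opp_tri hodd
    rw [hy, mem_star] at ht
    have hxye : ({x, y} : Finset V) ∈ edges T := edge_of_tri ht.1 hxy hxt ht.2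
    refine ⟨?_, Or.inr ⟨y, hy, hcard, hxye⟩⟩
    rw [hy, opp_star_tdeg]
    exact h.two _ hxye

theorem opp_corner {T : Finset (Finset V)} (h : Sph T) (hF : Fac3 T) {F₀ : Finset V}
    (hN : NoT4 T F₀) (hF₀ : F₀ ∈ T) {D : Finset (Finset V)} (hD : D ⊆ T) (hnF : F₀ ∉ D)
    {a b c d : V} (hQ : IsQ T a b c d) (hb : bdry D = qb a b c d)
    (hcone : ∀ v, D ≠ star T v) (hmin : MinQ T F₀ D.card) {x : V}
    (hx : x ∉ ({a, b, c, d} : Finset V)) (hxD : (star D x).Nonempty)
    (hax : ({a, x} : Finset V) ∈ edges T) (hcx : ({c, x} : Finset V) ∈ edges T) : False := by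
  have hR := reg0_Q h hF₀ hD hnF hQ hb
  have hxT : star T x ⊆ D := hR.inn h hx hxD
  have hx' : x ∉ ({a, d, c, b} : Finset V) := by
    simp only [Finset.mem_insert, Finset.mem_singleton] at hx ⊢
    tauto
  obtain ⟨D₁, hD₁, hb₁, hc₁, hor₁⟩ := half h hF hF₀ hD hnF hQ hb hmin hx hxD hax hcx
  obtain ⟨D₂, hD₂, hb₂, hc₂, hor₂⟩ := half h hF hF₀ hD hnF hQ.ref (hb.trans (qb_ref a b c d).symm)
    hmin hx' hxD hax hcx
  simp only [Finset.mem_insert, Finset.mem_singleton, not_or] at hx
  obtain ⟨xa, xb, xc, xd⟩ := hx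
  -- the symmetric difference
  have hsub : symmDiff D₁ D₂ ⊆ D := by
    intro t ht
    rw [Finset.mem_symmDiff] at ht
    rcases ht with ht | ht
    · exact hD₁ ht.1
    · exact hD₂ ht.1
  have hbs : bdry (symmDiff D₁ D₂) ⊆ bdry D := by
    intro e he
    rw [bdry_symm, hb₁, hb₂, Finset.mem_symmDiff] at he
    rw [hb]
    rcases he with ⟨h1, h2⟩ | ⟨h1, h2⟩
    · rcases mem_qb.1 h1 with h3 | h3 | h3 | h3
      · exact mem_qb.2 (Or.inl h3)
      · exact mem_qb.2 (Or.inr (Or.inl h3))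
      · exact absurd (mem_qb.2 (Or.inr (Or.inr (Or.inl h3)))) h2
      · exact absurd (mem_qb.2 (Or.inr (Or.inr (Or.inr h3)))) h2
    · rcases mem_qb.1 h1 with h3 | h3 | h3 | h3
      · exact mem_qb.2 (Or.inr (Or.inr (Or.inr (h3.trans (Finset.pair_comm _ _)))))
      · exact mem_qb.2 (Or.inr (Or.inr (Or.inl (h3.trans (Finset.pair_comm _ _)))))
      · exact absurd (mem_qb.2 (Or.inr (Or.inr (Or.inl h3)))) h2
      · exact absurd (mem_qb.2 (Or.inr (Or.inr (Or.inr h3)))) h2
  have hnes : (symmDiff D₁ D₂).Nonempty := by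
    rw [Finset.nonempty_iff_ne_empty]
    intro h1
    have h2 : D₁ = D₂ := symmDiff_eq_bot.1 h1
    have h3 : ({a, b} : Finset V) ∈ qb a d c x := by
      rw [← hb₂, ← h2, hb₁]
      exact mem_qb.2 (Or.inl rfl)
    have h4 : b ∈ ({a, b} : Finset V) := by simp
    rcases mem_qb.1 h3 with h5 | h5 | h5 | h5 <;> rw [h5] at h4 <;>
      simp only [Finset.mem_insert, Finset.mem_singleton] at h4 <;> rcases h4 with h4 | h4
    · exact hQ.ab h4.symm
    · exact hQ.bd h4
    · exact hQ.bd h4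
    · exact hQ.bc h4
    · exact hQ.bc h4
    · exact xb h4.symm
    · exact xb h4.symm
    · exact hQ.ab h4.symm
  have heq : symmDiff D₁ D₂ = D := hR.eq_of h hsub hnes hbs
  have hdisj : ∀ t, t ∈ D₁ → t ∉ D₂ := by
    intro t h1 h2
    have h3 : t ∈ symmDiff D₁ D₂ := by
      rw [heq]
      exact hD₁ h1
    rw [Finset.mem_symmDiff] at h3
    tauto
  have hun : ∀ t, t ∈ D → t ∈ D₁ ∨ t ∈ D₂ := by
    intro t ht
    rw [← heq, Finset.mem_symmDiff] at ht
    tauto
  have hsx : star T x = star D₁ x ∪ star D₂ x := by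
    ext t
    rw [Finset.mem_union, mem_star, mem_star, mem_star]
    constructor
    · rintro ⟨h1, h2⟩
      rcases hun t (hxT (mem_star.2 ⟨h1, h2⟩)) with h3 | h3
      · exact Or.inl ⟨h3, h2⟩
      · exact Or.inr ⟨h3, h2⟩
    · rintro (⟨h1, h2⟩ | ⟨h1, h2⟩)
      · exact ⟨hD (hD₁ h1), h2⟩
      · exact ⟨hD (hD₂ h1), h2⟩
  have hx4 : (star T x).card = 4 := by
    rw [hsx, Finset.card_union_of_disjoint, hc₁, hc₂]
    rw [Finset.disjoint_left]
    intro t h1 h2
    exact hdisj t (mem_star.1 h1).1 (mem_star.1 h2).1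
  have hxF : x ∉ F₀ := fun h1 => hnF (hxT (mem_star.2 ⟨hF₀, h1⟩))
  -- the case of a star
  have hstar : ∀ D' : Finset (Finset V), D' ⊆ D → ∀ y, D' = star T y → (star T y).card = 4 →
      ({x, y} : Finset V) ∈ edges T → False := by
    intro D' hD' y hy h4 hxy
    have hyF : y ∉ F₀ := fun h1 => hnF (hD' (by rw [hy]; exact mem_star.2 ⟨hF₀, h1⟩))
    exact hN x y (edge_ne hxy) hxF hyF hxy hx4 h4
  rcases hor₁ with h1 | ⟨y, h1, h2, h3⟩
  · rcases hor₂ with h4 | ⟨y, h4, h5, h6⟩
    · refine hcone x (Finset.Subset.antisymm ?_ hxT)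
      intro t ht
      refine mem_star.2 ⟨hD ht, ?_⟩
      rcases hun t ht with h5 | h5
      · rw [h1] at h5
        simp only [Finset.mem_insert, Finset.mem_singleton] at h5
        rcases h5 with rfl | rfl <;> simp
      · rw [h4] at h5
        simp only [Finset.mem_insert, Finset.mem_singleton] at h5
        rcases h5 with rfl | rfl <;> simp
    · exact hstar D₂ hD₂ y h4 h5 h6
  · exact hstar D₁ hD₁ y h1 h2 h3

private theorem corner3_a {T : Finset (Finset V)} (h : Sph T) (hF : Fac3 T) {F₀ : Finset V}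
    (hN : NoT4 T F₀) (hF₀ : F₀ ∈ T) {D : Finset (Finset V)} (hD : D ⊆ T) (hnF : F₀ ∉ D)
    {a b c d : V} (hQ : IsQ T a b c d) (hb : bdry D = qb a b c d)
    (hcone : ∀ v, D ≠ star T v) (hmin : MinQ T F₀ D.card) :
    3 ≤ (star D a).card ∧ 2 ≤ (star (T \ D) a).card := by
  -- two triangles at `a`, for `D` and for `T \ D`
  have key : ∀ E : Finset (Finset V), E ⊆ T → bdry E = qb a b c d →
      ∃ t₁ ∈ E, ∃ t₂ ∈ E, t₁ ≠ t₂ ∧ a ∈ t₁ ∧ b ∈ t₁ ∧ a ∈ t₂ ∧ d ∈ t₂ := by
    intro E hE hbE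
    have h1 : ({a, b} : Finset V) ∈ bdry E := by
      rw [hbE]
      exact mem_qb.2 (Or.inl rfl)
    have h2 : ({d, a} : Finset V) ∈ bdry E := by
      rw [hbE]
      exact mem_qb.2 (Or.inr (Or.inr (Or.inr rfl)))
    obtain ⟨t₁, ht₁, ha₁, hb₁⟩ := opp_tri (mem_bdry.1 h1).2
    obtain ⟨t₂, ht₂, hd₂, ha₂⟩ := opp_tri (mem_bdry.1 h2).2
    refine ⟨t₁, ht₁, t₂, ht₂, ?_, ha₁, hb₁, ha₂, hd₂⟩
    rintro rfl
    exact hQ.nbd (edge_of_tri (hE ht₁) hQ.bd hb₁ hd₂)
  have two : ∀ E : Finset (Finset V), ∀ t₁ ∈ E, ∀ t₂ ∈ E, t₁ ≠ t₂ → a ∈ t₁ → a ∈ t₂ →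
      ({t₁, t₂} : Finset (Finset V)) ⊆ star E a := by
    intro E t₁ h1 t₂ h2 _ h4 h5 t ht
    simp only [Finset.mem_insert, Finset.mem_singleton] at ht
    rcases ht with rfl | rfl
    · exact mem_star.2 ⟨h1, h4⟩
    · exact mem_star.2 ⟨h2, h5⟩
  constructor
  · obtain ⟨t₁, ht₁, t₂, ht₂, hne, ha₁, hb₁, ha₂, hd₂⟩ := key D hD hb
    by_contra hlt
    push Not at hlt
    have hsub := two D t₁ ht₁ t₂ ht₂ hne ha₁ ha₂
    have hstar : ({t₁, t₂} : Finset (Finset V)) = star D a := by
      apply Finset.eq_of_subset_of_card_le hsub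
      rw [Finset.card_pair hne]
      omega
    have hc₁ := h.card3 t₁ (hD ht₁)
    -- the third vertex of `t₁`
    obtain ⟨x, hx, hxa, hxb⟩ : ∃ x ∈ t₁, x ≠ a ∧ x ≠ b := by
      by_contra hn
      push Not at hn
      have h1 : t₁ ⊆ {a, b} := by
        intro z hz
        simp only [Finset.mem_insert, Finset.mem_singleton]
        by_cases hza : z = a
        · exact Or.inl hza
        · exact Or.inr (hn z hz hza)
      have h2 := Finset.card_le_card h1
      rw [hc₁, Finset.card_pair hQ.ab] at h2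
      omega
    have hxd : x ≠ d := by
      rintro rfl
      exact hQ.nbd (edge_of_tri (hD ht₁) hQ.bd hb₁ hx)
    have hxc : x ≠ c := by
      rintro rfl
      exact hQ.nac (edge_of_tri (hD ht₁) hQ.ac ha₁ hx)
    have hnb : ({a, x} : Finset V) ∉ bdry D := by
      rw [hb]
      intro h1
      have h2 : x ∈ ({a, x} : Finset V) := by simp
      rcases mem_qb.1 h1 with h3 | h3 | h3 | h3 <;> rw [h3] at h2 <;>
        simp only [Finset.mem_insert, Finset.mem_singleton] at h2 <;> tauto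
    have hev : ¬ Odd (tdeg D ({a, x} : Finset V)) := fun h1 =>
      hnb (mem_bdry.2 ⟨Finset.card_pair (Ne.symm hxa), h1⟩)
    have hxt₂ : x ∈ t₂ := by
      by_contra hn
      apply hev
      have h1 : D.filter (fun t => ({a, x} : Finset V) ⊆ t) = {t₁} := by
        ext t
        rw [Finset.mem_filter, Finset.insert_subset_iff, Finset.singleton_subset_iff,
          Finset.mem_singleton]
        constructor
        · rintro ⟨h1, h2, h3⟩
          have h4 : t ∈ star D a := mem_star.2 ⟨h1, h2⟩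
          rw [← hstar] at h4
          simp only [Finset.mem_insert, Finset.mem_singleton] at h4
          rcases h4 with h4 | h4
          · exact h4
          · rw [h4] at h3
            exact absurd h3 hn
        · rintro rfl
          exact ⟨ht₁, ha₁, hx⟩
      unfold tdeg
      rw [h1, Finset.card_singleton]
      exact odd_one
    have e1 : ({b, x} : Finset V) ∈ edges T := edge_of_tri (hD ht₁) (Ne.symm hxb) hb₁ hx
    have e2 : ({d, x} : Finset V) ∈ edges T := edge_of_tri (hD ht₂) (Ne.symm hxd) hd₂ hxt₂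
    refine opp_corner h hF hN hF₀ hD hnF hQ.rot (hb.trans (qb_rot a b c d).symm) hcone hmin
      (x := x) ?_ ⟨t₁, mem_star.2 ⟨ht₁, hx⟩⟩ e1 e2
    simp only [Finset.mem_insert, Finset.mem_singleton]
    tauto
  · obtain ⟨t₁, ht₁, t₂, ht₂, hne, ha₁, -, ha₂, -⟩ := key (T \ D) Finset.sdiff_subset
      ((h.bdry_compl hD).trans hb)
    have h1 := Finset.card_le_card (two (T \ D) t₁ ht₁ t₂ ht₂ hne ha₁ ha₂)
    rwa [Finset.card_pair hne] at h1

theorem corner3 {T : Finset (Finset V)} (h : Sph T) (hF : Fac3 T) {F₀ : Finset V}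
    (hN : NoT4 T F₀) (hF₀ : F₀ ∈ T) {D : Finset (Finset V)} (hD : D ⊆ T) (hnF : F₀ ∉ D)
    {a b c d : V} (hQ : IsQ T a b c d) (hb : bdry D = qb a b c d)
    (hcone : ∀ v, D ≠ star T v) (hmin : MinQ T F₀ D.card) :
    ∀ y ∈ ({a, b, c, d} : Finset V), 3 ≤ (star D y).card ∧ 2 ≤ (star (T \ D) y).card := by
  intro y hy
  simp only [Finset.mem_insert, Finset.mem_singleton] at hy
  have hb1 : bdry D = qb b c d a := hb.trans (qb_rot a b c d).symm
  have hb2 : bdry D = qb c d a b := hb1.trans (qb_rot b c d a).symm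
  have hb3 : bdry D = qb d a b c := hb2.trans (qb_rot c d a b).symm
  rcases hy with rfl | rfl | rfl | rfl
  · exact corner3_a h hF hN hF₀ hD hnF hQ hb hcone hmin
  · exact corner3_a h hF hN hF₀ hD hnF hQ.rot hb1 hcone hmin
  · exact corner3_a h hF hN hF₀ hD hnF hQ.rot.rot hb2 hcone hmin
  · exact corner3_a h hF hN hF₀ hD hnF hQ.rot.rot.rot hb3 hcone hmin

end Pool.Agent.Spl2
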