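import Pool.Agent.Spl2.SphEul

/-!
# Canonical orderings, part A: irreducible cycles, splitting along a chord

`Irr C`: `C` is a nonempty mod 2 cycle without proper sub-cycles; then every vertex of `C` has degree `2`
(`deg2`: there are at most two cycles in `C`, so `cyc_count` gives `|C| ≤ |W|`, `W` the vertices of `C`, and the sum
of the degrees is `2 |C|`).  `path`: two vertices of `C` are joined by a part `P` of `C` (mod 2: `P` has odd degree
exactly at these vertices).  `split`: a chord `u w` of a region `D` with irreducible boundary cuts off a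
region `D2` whose boundary does not contain a given edge `f` of `bdry D`.
-/

set_option autoImplicit false

namespace Pool.Agent.Spl2

open Finset Pool.Agent.Spl1

variable {V : Type*} [Fintype V] [DecidableEq V]

/-- irreducible mod 2 cycles -/
structure Irr (C : Finset (Finset V)) : Prop where
  cyc : IsCyc C
  ne : C.Nonempty
  irr : ∀ C' ⊆ C, IsCyc C' → C' = ∅ ∨ C' = C

/-- the vertices of a set of edges -/
def vx (C : Finset (Finset V)) : Finset V := univ.filter (fun v => ∃ e ∈ C, v ∈ e)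

theorem mem_vx {C : Finset (Finset V)} {v : V} : v ∈ vx C ↔ ∃ e ∈ C, v ∈ e := by simp [vx]

theorem sum_vdeg {C : Finset (Finset V)} (h2 : ∀ e ∈ C, e.card = 2) :
    ∑ v : V, vdeg C v = 2 * C.card := by
  have h1 : ∑ v : V, vdeg C v = ∑ e ∈ C, e.card := by
    unfold vdeg
    simp_rw [Finset.card_filter]
    rw [Finset.sum_comm]
    apply Finset.sum_congr rfl
    intro e _
    rw [← Finset.card_filter]
    congr 1
    ext v
    simp
  rw [h1, Finset.sum_congr rfl h2, Finset.sum_const, smul_eq_mul, mul_comm]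

theorem vdeg_pos {C : Finset (Finset V)} {v : V} : 0 < vdeg C v ↔ v ∈ vx C := by
  rw [mem_vx]
  unfold vdeg
  rw [Finset.card_pos]
  constructor
  · rintro ⟨e, he⟩
    rw [Finset.mem_filter] at he
    exact ⟨e, he.1, he.2⟩
  · rintro ⟨e, he, hv⟩
    exact ⟨e, Finset.mem_filter.2 ⟨he, hv⟩⟩

theorem Irr.deg2 {C : Finset (Finset V)} (h : Irr C) {v : V} (hv : v ∈ vx C) : vdeg C v = 2 := by
  classical
  have h2 := h.cyc.1
  have hW : ∀ e ∈ C, e ⊆ vx C := fun e he x hx => mem_vx.2 ⟨e, he, hx⟩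
  have h1 := cyc_count h2 hW ⟨v, hv⟩
  have h3 : (C.powerset.filter (fun C' => IsCyc C')).card ≤ 2 := by
    have : C.powerset.filter (fun C' => IsCyc C') ⊆ {∅, C} := by
      intro C' hC'
      rw [Finset.mem_filter, Finset.mem_powerset] at hC'
      rw [Finset.mem_insert, Finset.mem_singleton]
      exact h.irr C' hC'.1 hC'.2
    exact (Finset.card_le_card this).trans Finset.card_le_two
  have h4 : 2 ^ (C.card + 1) ≤ 2 ^ ((vx C).card + 1) := by
    calc 2 ^ (C.card + 1) ≤ 2 ^ (vx C).card * (C.powerset.filter (fun C' => IsCyc C')).card := by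
          convert h1
      _ ≤ 2 ^ (vx C).card * 2 := Nat.mul_le_mul_left _ h3
      _ = _ := by rw [pow_succ]
  have h5 : C.card ≤ (vx C).card := by
    have := (Nat.pow_le_pow_iff_right (by norm_num : 1 < 2)).1 h4
    omega
  have h6 : ∑ x ∈ vx C, vdeg C x = 2 * C.card := by
    rw [← sum_vdeg h2]
    refine Finset.sum_subset (Finset.subset_univ _) fun x _ hx => ?_
    by_contra hcon
    exact hx (vdeg_pos.1 (Nat.pos_of_ne_zero hcon))
  have h7 : ∀ x ∈ vx C, 2 ≤ vdeg C x := by
    intro x hx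
    have := vdeg_pos.2 hx
    obtain ⟨k, hk⟩ := h.cyc.2 x
    omega
  by_contra hne
  have h8 : ∑ x ∈ vx C, 2 < ∑ x ∈ vx C, vdeg C x :=
    Finset.sum_lt_sum h7 ⟨v, hv, lt_of_le_of_ne (h7 v hv) (Ne.symm hne)⟩
  rw [Finset.sum_const, smul_eq_mul, h6] at h8
  omega

theorem oddv_single {e : Finset V} : oddv ({e} : Finset (Finset V)) = e := by
  ext v
  rw [mem_oddv]
  unfold vdeg
  by_cases hv : v ∈ e
  · rw [Finset.filter_singleton, if_pos hv]
    simp [hv]
  · rw [Finset.filter_singleton, if_neg hv]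
    simp [hv]

theorem oddv_empty : oddv (∅ : Finset (Finset V)) = ∅ := by
  ext v
  rw [mem_oddv]
  simp [vdeg]

theorem symm_sub {C P Q : Finset (Finset V)} (h1 : P ⊆ C) (h2 : Q ⊆ C) : symmDiff P Q ⊆ C := by
  intro e he
  rw [Finset.mem_symmDiff] at he
  rcases he with he | he
  · exact h1 he.1
  · exact h2 he.1

theorem Irr.path {C : Finset (Finset V)} (h : Irr C) {a b : V} (ha : a ∈ vx C) (hb : b ∈ vx C) :
    ∃ P ⊆ C, oddv P = symmDiff {a} {b} := by
  classical
  obtain ⟨Z, hZ⟩ : ∃ Z : Finset V, Z = univ.filter (fun x => ∃ P ⊆ C, oddv P = symmDiff {a} {x}) :=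
    ⟨_, rfl⟩
  have memZ : ∀ x, x ∈ Z ↔ ∃ P ⊆ C, oddv P = symmDiff {a} {x} := by
    intro x; rw [hZ]; simp
  have haZ : a ∈ Z := by
    rw [memZ]
    refine ⟨∅, Finset.empty_subset _, ?_⟩
    rw [symmDiff_self, oddv_empty]
    rfl
  have hcl : ∀ e ∈ C, ∀ x ∈ e, x ∈ Z → ∀ y ∈ e, y ∈ Z := by
    intro e he x hx hxZ y hy
    by_cases hxy : x = y
    · rw [← hxy]; exact hxZ
    · obtain ⟨P, hP, hoP⟩ := (memZ x).1 hxZ
      rw [memZ]
      refine ⟨symmDiff P {e}, symm_sub hP (Finset.singleton_subset_iff.2 he), ?_⟩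
      rw [oddv_symm, hoP, oddv_single]
      have he2 : e = symmDiff {x} {y} := by
        have h1 : ({x, y} : Finset V) ⊆ e := by
          intro z hz
          simp only [Finset.mem_insert, Finset.mem_singleton] at hz
          rcases hz with rfl | rfl
          · exact hx
          · exact hy
        have h3 : ({x, y} : Finset V) = e := Finset.eq_of_subset_of_card_le h1
          (by rw [h.cyc.1 e he, Finset.card_pair hxy])
        rw [← h3]
        ext z
        rw [Finset.mem_symmDiff, Finset.mem_insert, Finset.mem_singleton, Finset.mem_singleton]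
        constructor
        · rintro (rfl | rfl)
          · exact Or.inl ⟨rfl, hxy⟩
          · exact Or.inr ⟨rfl, fun h => hxy h.symm⟩
        · rintro (⟨h, -⟩ | ⟨h, -⟩)
          · exact Or.inl h
          · exact Or.inr h
      rw [he2, symmDiff_assoc, symmDiff_symmDiff_cancel_left]
  have hcyc : IsCyc (C.filter (fun e => ∃ x ∈ e, x ∈ Z)) := by
    refine ⟨fun e he => h.cyc.1 e (Finset.mem_filter.1 he).1, fun v => ?_⟩
    by_cases hv : v ∈ Z
    · have : vdeg (C.filter (fun e => ∃ x ∈ e, x ∈ Z)) v = vdeg C v := by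
        unfold vdeg
        congr 1
        ext e
        simp only [Finset.mem_filter]
        constructor
        · rintro ⟨⟨h1, -⟩, h2⟩
          exact ⟨h1, h2⟩
        · rintro ⟨h1, h2⟩
          exact ⟨⟨h1, v, h2, hv⟩, h2⟩
      rw [this]
      exact h.cyc.2 v
    · have : vdeg (C.filter (fun e => ∃ x ∈ e, x ∈ Z)) v = 0 := by
        unfold vdeg
        rw [Finset.card_eq_zero, Finset.filter_eq_empty_iff]
        intro e he hve
        rw [Finset.mem_filter] at he
        obtain ⟨he1, x, hx, hxZ⟩ := he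
        exact hv (hcl e he1 x hx hxZ v hve)
      rw [this]
      exact ⟨0, rfl⟩
  rw [mem_vx] at ha hb
  obtain ⟨ea, hea, haea⟩ := ha
  obtain ⟨eb, heb, hbeb⟩ := hb
  rcases h.irr _ (Finset.filter_subset _ _) hcyc with h1 | h1
  · exfalso
    have : ea ∈ C.filter (fun e => ∃ x ∈ e, x ∈ Z) := Finset.mem_filter.2 ⟨hea, a, haea, haZ⟩
    rw [h1] at this
    simp at this
  · have : eb ∈ C.filter (fun e => ∃ x ∈ e, x ∈ Z) := by rw [h1]; exact heb
    rw [Finset.mem_filter] at this
    obtain ⟨-, x, hx, hxZ⟩ := this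
    exact (memZ b).1 (hcl eb heb x hx hxZ b hbeb)

/-- the two triangles at an inner edge are inside -/
theorem Sph.all_in {T : Finset (Finset V)} (h : Sph T) {D : Finset (Finset V)} (hD : D ⊆ T)
    {e : Finset V} (he : e ∈ edges D) (hb : e ∉ bdry D) : ∀ t ∈ T, e ⊆ t → t ∈ D := by
  intro t ht het
  have h1 : e ∈ edges T := edges_mono hD he
  have h2 := h.two e h1
  have hc := (mem_edges.1 he).1
  have h3 : ¬ Odd (tdeg D e) := fun h4 => hb (mem_bdry.2 ⟨hc, h4⟩)
  have h5 : 0 < tdeg D e := by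
    obtain ⟨-, s, hs, hes⟩ := mem_edges.1 he
    exact Finset.card_pos.2 ⟨s, Finset.mem_filter.2 ⟨hs, hes⟩⟩
  rw [Nat.not_odd_iff_even] at h3
  have h6 : D.filter (fun t => e ⊆ t) = T.filter (fun t => e ⊆ t) := by
    apply Finset.eq_of_subset_of_card_le (Finset.filter_subset_filter _ hD)
    change tdeg T e ≤ tdeg D e
    obtain ⟨k, hk⟩ := h3
    omega
  have h7 : t ∈ T.filter (fun t => e ⊆ t) := Finset.mem_filter.2 ⟨ht, het⟩
  rw [← h6] at h7
  exact (Finset.mem_filter.1 h7).1

theorem in_tri {D : Finset (Finset V)} {e : Finset V} (he : e ∈ bdry D) : ∃ t ∈ D, e ⊆ t := by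
  rw [mem_bdry] at he
  have h1 : 0 < (D.filter (fun t => e ⊆ t)).card := he.2.pos
  obtain ⟨t, ht⟩ := Finset.card_pos.1 h1
  rw [Finset.mem_filter] at ht
  exact ⟨t, ht.1, ht.2⟩

theorem Sph.out_tri {T : Finset (Finset V)} (h : Sph T) {D : Finset (Finset V)} (hD : D ⊆ T)
    {e : Finset V} (he : e ∈ bdry D) : ∃ t ∈ T, t ∉ D ∧ e ⊆ t := by
  by_contra hcon
  push Not at hcon
  have h1 : D.filter (fun t => e ⊆ t) = T.filter (fun t => e ⊆ t) := by
    ext t
    rw [Finset.mem_filter, Finset.mem_filter]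
    constructor
    · rintro ⟨h1, h2⟩
      exact ⟨hD h1, h2⟩
    · rintro ⟨h1, h2⟩
      refine ⟨?_, h2⟩
      by_contra h3
      exact hcon t h1 h3 h2
  have h2 := h.two e (bdry_subset_edges hD he)
  rw [mem_bdry] at he
  unfold tdeg at h2 he
  rw [h1, h2] at he
  exact absurd he.2 (by decide)

/-- exactly one of the two triangles at a boundary edge is inside -/
theorem Sph.mem_bdry_iff {T : Finset (Finset V)} (h : Sph T) {D : Finset (Finset V)} (hD : D ⊆ T)
    {e t t' : Finset V} (he : e ∈ edges T) (ht : t ∈ T) (ht' : t' ∈ T) (htt : t ≠ t')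
    (het : e ⊆ t) (het' : e ⊆ t') : e ∈ bdry D ↔ ¬ (t ∈ D ↔ t' ∈ D) := by
  have h2 := h.two e he
  have hT : T.filter (fun s => e ⊆ s) = {t, t'} := by
    symm
    apply Finset.eq_of_subset_of_card_le
    · intro s hs
      simp only [Finset.mem_insert, Finset.mem_singleton] at hs
      rcases hs with rfl | rfl
      · exact Finset.mem_filter.2 ⟨ht, het⟩
      · exact Finset.mem_filter.2 ⟨ht', het'⟩
    · unfold tdeg at h2
      rw [h2, Finset.card_pair htt]
  have hDf : D.filter (fun s => e ⊆ s) = ({t, t'} : Finset (Finset V)).filter (fun s => s ∈ D) := by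
    rw [← hT]
    ext s
    rw [Finset.mem_filter, Finset.mem_filter, Finset.mem_filter]
    constructor
    · rintro ⟨h1, h2⟩
      exact ⟨⟨hD h1, h2⟩, h1⟩
    · rintro ⟨⟨h1, h2⟩, h3⟩
      exact ⟨h3, h2⟩
  rw [mem_bdry]
  unfold tdeg
  rw [hDf]
  have hc := (mem_edges.1 he).1
  by_cases h3 : t ∈ D <;> by_cases h4 : t' ∈ D
  · have : ({t, t'} : Finset (Finset V)).filter (fun s => s ∈ D) = {t, t'} := by
      ext s; simp only [Finset.mem_filter, Finset.mem_insert, Finset.mem_singleton]
      constructor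
      · rintro ⟨h1, -⟩; exact h1
      · rintro (rfl | rfl)
        · exact ⟨Or.inl rfl, h3⟩
        · exact ⟨Or.inr rfl, h4⟩
    rw [this, Finset.card_pair htt]
    simp [h3, h4]
  · have : ({t, t'} : Finset (Finset V)).filter (fun s => s ∈ D) = {t} := by
      ext s; simp only [Finset.mem_filter, Finset.mem_insert, Finset.mem_singleton]
      constructor
      · rintro ⟨rfl | rfl, h1⟩
        · rfl
        · exact absurd h1 h4
      · rintro rfl
        exact ⟨Or.inl rfl, h3⟩
    rw [this, Finset.card_singleton]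
    simp [h3, h4, hc]
  · have : ({t, t'} : Finset (Finset V)).filter (fun s => s ∈ D) = {t'} := by
      ext s; simp only [Finset.mem_filter, Finset.mem_insert, Finset.mem_singleton]
      constructor
      · rintro ⟨rfl | rfl, h1⟩
        · exact absurd h1 h3
        · rfl
      · rintro rfl
        exact ⟨Or.inr rfl, h4⟩
    rw [this, Finset.card_singleton]
    simp [h3, h4, hc]
  · have : ({t, t'} : Finset (Finset V)).filter (fun s => s ∈ D) = ∅ := by
      rw [Finset.filter_eq_empty_iff]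
      intro s hs
      simp only [Finset.mem_insert, Finset.mem_singleton] at hs
      rcases hs with rfl | rfl
      · exact h3
      · exact h4
    rw [this]
    simp [h3, h4]

theorem Sph.two_tri {T : Finset (Finset V)} (h : Sph T) {e : Finset V} (he : e ∈ edges T) :
    ∃ t ∈ T, ∃ t' ∈ T, t ≠ t' ∧ e ⊆ t ∧ e ⊆ t' ∧ ∀ s ∈ T, e ⊆ s → s = t ∨ s = t' := by
  have h2 := h.two e he
  unfold tdeg at h2
  obtain ⟨t, t', htt, hT⟩ := Finset.card_eq_two.1 h2
  have ht : t ∈ T.filter (fun t => e ⊆ t) := by rw [hT]; simp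
  have ht' : t' ∈ T.filter (fun t => e ⊆ t) := by rw [hT]; simp
  rw [Finset.mem_filter] at ht ht'
  refine ⟨t, ht.1, t', ht'.1, htt, ht.2, ht'.2, fun s hs hes => ?_⟩
  have : s ∈ T.filter (fun t => e ⊆ t) := Finset.mem_filter.2 ⟨hs, hes⟩
  rw [hT] at this
  simpa using this

/-- splitting along a chord -/
theorem Sph.split {T : Finset (Finset V)} (h : Sph T) {D : Finset (Finset V)} (hD : D ⊆ T)
    (hI : Irr (bdry D)) {u w : V} (huw : u ≠ w) (hu : u ∈ vx (bdry D)) (hw : w ∈ vx (bdry D))
    (hE : ({u, w} : Finset V) ∈ edges D) (hnb : ({u, w} : Finset V) ∉ bdry D) {f : Finset V}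
    (hf : f ∈ bdry D) : ∃ D2 ⊆ D, D2.Nonempty ∧ ({u, w} : Finset V) ∈ bdry D2 ∧
      ∀ e ∈ bdry D2, e ≠ {u, w} → e ∈ bdry D ∧ e ≠ f := by
  classical
  have huw2 : symmDiff ({u} : Finset V) {w} = {u, w} := by
    ext z
    rw [Finset.mem_symmDiff, Finset.mem_insert, Finset.mem_singleton, Finset.mem_singleton]
    constructor
    · rintro (⟨h, -⟩ | ⟨h, -⟩)
      · exact Or.inl h
      · exact Or.inr h
    · rintro (rfl | rfl)
      · exact Or.inl ⟨rfl, huw⟩
      · exact Or.inr ⟨rfl, fun h => huw h.symm⟩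
  obtain ⟨P, hP, hoP, hfP⟩ : ∃ P ⊆ bdry D, oddv P = {u, w} ∧ f ∉ P := by
    obtain ⟨P, hP, hoP⟩ := hI.path hu hw
    rw [huw2] at hoP
    by_cases hfP : f ∈ P
    · refine ⟨symmDiff P (bdry D), symm_sub hP (Finset.Subset.refl _), ?_, ?_⟩
      · rw [oddv_symm, hoP, (isCyc_iff_oddv hI.cyc.1).1 hI.cyc]
        exact symmDiff_bot _
      · rw [Finset.mem_symmDiff]
        tauto
    · exact ⟨P, hP, hoP, hfP⟩
  have hnP : ({u, w} : Finset V) ∉ P := fun h' => hnb (hP h')
  have hCe : symmDiff P {{u, w}} = insert {u, w} P := by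
    ext e
    rw [Finset.mem_symmDiff, Finset.mem_insert, Finset.mem_singleton]
    constructor
    · rintro (⟨h1, -⟩ | ⟨h1, -⟩)
      · exact Or.inr h1
      · exact Or.inl h1
    · rintro (rfl | h1)
      · exact Or.inr ⟨rfl, hnP⟩
      · refine Or.inl ⟨h1, ?_⟩
        rintro rfl
        exact hnP h1
  have hsub : insert {u, w} P ⊆ edges T := by
    intro e he
    rw [Finset.mem_insert] at he
    rcases he with rfl | he
    · exact edges_mono hD hE
    · exact bdry_subset_edges hD (hP he)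
  have hcyc : IsCyc (insert {u, w} P) := by
    rw [isCyc_iff_oddv (fun e he => (mem_edges.1 (hsub he)).1), ← hCe, oddv_symm, hoP, oddv_single,
      symmDiff_self]
    rfl
  obtain ⟨D1, hD1, hb1⟩ := h.H1 _ hsub hcyc
  -- the part outside `D`
  have hX : bdry (D1 \ D) = ∅ ∨ bdry (D1 \ D) = bdry D := by
    apply hI.irr
    · intro e he
      have heT := bdry_subset_edges (Finset.sdiff_subset.trans hD1) he
      obtain ⟨t, ht, t', ht', htt, het, het', -⟩ := h.two_tri heT
      rw [h.mem_bdry_iff (Finset.sdiff_subset.trans hD1) heT ht ht' htt het het',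
        Finset.mem_sdiff, Finset.mem_sdiff] at he
      by_contra hnD
      rw [h.mem_bdry_iff hD heT ht ht' htt het het'] at hnD
      have h3 : e ∈ bdry D1 := by
        rw [h.mem_bdry_iff hD1 heT ht ht' htt het het']
        tauto
      rw [hb1, Finset.mem_insert] at h3
      rcases h3 with h3 | h3
      · have h4 := h.all_in hD hE hnb
        rw [← h3] at h4
        have h5 := h4 t ht het
        have h6 := h4 t' ht' het'
        tauto
      · have h4 := hP h3
        rw [h.mem_bdry_iff hD heT ht ht' htt het het'] at h4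
        exact hnD h4
    · exact isCyc_bdry (fun t ht => h.card3 t (hD1 (Finset.mem_sdiff.1 ht).1))
  have hkey : ∃ D2 ⊆ D, bdry D2 = insert {u, w} P := by
    obtain ⟨t0, ht0, -⟩ := in_tri hf
    rcases hX with hX | hX
    · refine ⟨D1, ?_, hb1⟩
      rcases h.H2 _ (Finset.sdiff_subset.trans hD1) hX with h3 | h3
      · exact Finset.sdiff_eq_empty_iff_subset.1 h3
      · exfalso
        have : t0 ∈ D1 \ D := by rw [h3]; exact hD ht0
        exact (Finset.mem_sdiff.1 this).2 ht0
    · refine ⟨T \ D1, ?_, by rw [h.bdry_compl hD1, hb1]⟩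
      rcases h.uniq (Finset.sdiff_subset.trans hD1) hD hX with h3 | h3
      · exfalso
        have : t0 ∈ D1 \ D := by rw [h3]; exact ht0
        exact (Finset.mem_sdiff.1 this).2 ht0
      · intro t ht
        rw [Finset.mem_sdiff] at ht
        by_contra h4
        have : t ∈ D1 \ D := by rw [h3]; exact Finset.mem_sdiff.2 ⟨ht.1, h4⟩
        exact ht.2 (Finset.mem_sdiff.1 this).1
  obtain ⟨D2, hD2, hb2⟩ := hkey
  have hm : ({u, w} : Finset V) ∈ bdry D2 := by rw [hb2]; exact Finset.mem_insert_self _ _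
  refine ⟨D2, hD2, ?_, hm, ?_⟩
  · obtain ⟨t, ht, -⟩ := in_tri hm
    exact ⟨t, ht⟩
  · intro e he hne
    rw [hb2, Finset.mem_insert] at he
    have he' := he.resolve_left hne
    refine ⟨hP he', ?_⟩
    rintro rfl
    exact hfP he'

end Pool.Agent.Spl2
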