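import Pool.Agent.Spl2.SphOrdA

/-!
# Canonical orderings, part B: removing a boundary vertex without chord

`Sta T D u0 u1`: the region `D` (the triangles of the remaining vertices) has an irreducible boundary which
contains the edge `u0 u1`, every edge of `T` between vertices of `D` is an edge of `D`, and `D` misses a vertex.
`Chl D v`: no chord of `D` at `v`.  `Sta.remove`: if `v` is a boundary vertex without chord, different
from `u0, u1`, and `D` has at least two triangles, then `D` without the triangles at `v` is again such a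
region, and it has the vertices of `D` except `v`.
-/

set_option autoImplicit false

namespace Pool.Agent.Spl2

open Finset Pool.Agent.Spl1

variable {V : Type*} [Fintype V] [DecidableEq V]

/-- the remaining region -/
structure Sta (T D : Finset (Finset V)) (u0 u1 : V) : Prop where
  sub : D ⊆ T
  irr : Irr (bdry D)
  hb : ({u0, u1} : Finset V) ∈ bdry D
  full : ∀ e ∈ edges T, e ⊆ uv D → e ∈ edges D
  out : ∃ r ∈ uv T, r ∉ uv D

/-- no chord at `v` -/
def Chl (D : Finset (Finset V)) (v : V) : Prop :=
  ∀ w, ({v, w} : Finset V) ∈ edges D → w ∈ vx (bdry D) → ({v, w} : Finset V) ∈ bdry D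

theorem tri_eq {t : Finset V} (ht : t.card = 3) {e : Finset V} (he : e.card = 2) (het : e ⊆ t)
    {v : V} (hv : v ∈ t) (hve : v ∉ e) : t = insert v e := by
  symm
  apply Finset.eq_of_subset_of_card_le (Finset.insert_subset hv het)
  rw [ht, Finset.card_insert_of_notMem hve, he]

theorem Sph.vdeg_ge {T : Finset (Finset V)} (h : Sph T) {x : V} (hx : x ∈ uv T) (v : V)
    (hxv : x ≠ v) : ∃ t ∈ T, x ∈ t ∧ v ∉ t := by
  by_contra hcon
  push Not at hcon
  have h3 := h.three_le (mem_uv.1 hx)
  obtain ⟨t, ht⟩ := mem_uv.1 hx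
  rw [mem_star] at ht
  have he : ({x, v} : Finset V) ∈ edges T := edge_of_tri ht.1 hxv ht.2 (hcon t ht.1 ht.2)
  have h2 := h.two _ he
  have h4 : star T x ⊆ T.filter (fun t => ({x, v} : Finset V) ⊆ t) := by
    intro s hs
    rw [mem_star] at hs
    rw [Finset.mem_filter]
    refine ⟨hs.1, ?_⟩
    intro y hy
    simp only [Finset.mem_insert, Finset.mem_singleton] at hy
    rcases hy with rfl | rfl
    · exact hs.2
    · exact hcon s hs.1 hs.2
  have h5 := Finset.card_le_card h4
  unfold tdeg at h2
  omega

/-- a boundary which is a triangle -/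
theorem Sph.of_tri {T : Finset (Finset V)} (h : Sph T) {D : Finset (Finset V)} (hD : D ⊆ T)
    (hI : Irr (bdry D)) {t : Finset V} (ht : t ∈ T) (hall : ∀ e : Finset V, e.card = 2 → e ⊆ t →
      e ∈ bdry D) : D = {t} ∨ D = T \ {t} := by
  have hs : ({t} : Finset (Finset V)) ⊆ T := Finset.singleton_subset_iff.2 ht
  have h3 : ∀ s ∈ ({t} : Finset (Finset V)), s.card = 3 := by
    intro s hs'
    rw [Finset.mem_singleton.1 hs']
    exact h.card3 t ht
  have h1 : bdry {t} ⊆ bdry D := by
    intro e he
    rw [mem_bdry_single (h.card3 t ht)] at he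
    exact hall e he.1 he.2
  rcases hI.irr _ h1 (isCyc_bdry h3) with h2 | h2
  · exfalso
    rcases h.H2 _ hs h2 with h4 | h4
    · simp at h4
    · have h5 := h.even_card
      rw [← h4, Finset.card_singleton] at h5
      exact absurd h5 (by decide)
  · rcases h.uniq hs hD h2 with h4 | h4
    · exact Or.inl h4.symm
    · right
      rw [h4]
      ext s
      rw [Finset.mem_sdiff, Finset.mem_sdiff]
      constructor
      · intro h5
        exact ⟨hD h5, fun h6 => h6.2 h5⟩
      · rintro ⟨h5, h6⟩
        by_contra h7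
        exact h6 ⟨h5, h7⟩

theorem vx_uv {T D : Finset (Finset V)} {v : V} (hv : v ∈ vx (bdry D)) : v ∈ uv D := by
  obtain ⟨e, he, hve⟩ := mem_vx.1 hv
  obtain ⟨t, ht, het⟩ := in_tri he
  exact mem_uv_of_mem ht (het hve)

/-- the outer triangle at a boundary edge has its third vertex outside -/
theorem Sta.apex_out {T D : Finset (Finset V)} {u0 u1 : V} (h : Sph T) (hS : Sta T D u0 u1)
    {e t : Finset V} (he : e ∈ bdry D) (ht : t ∈ T) (htD : t ∉ D) (het : e ⊆ t) :
    ∃ r, r ∉ uv D ∧ t = insert r e ∧ r ∉ e := by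
  have hc := (mem_bdry.1 he).1
  have h3 := h.card3 t ht
  obtain ⟨r, hr⟩ : (t \ e).Nonempty := by
    rw [← Finset.card_pos, Finset.card_sdiff_of_subset het]
    omega
  rw [Finset.mem_sdiff] at hr
  refine ⟨r, ?_, tri_eq h3 hc het hr.1 hr.2, hr.2⟩
  intro hrD
  have hte := tri_eq h3 hc het hr.1 hr.2
  have hsubt : t ⊆ uv D := by
    rw [hte]
    apply Finset.insert_subset hrD
    intro x hx
    exact vx_uv (T := T) (mem_vx.2 ⟨e, he, hx⟩)
  have hall : ∀ e' : Finset V, e'.card = 2 → e' ⊆ t → e' ∈ bdry D := by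
    intro e' hc' he't
    have h5 : e' ∈ edges T := mem_edges.2 ⟨hc', t, ht, he't⟩
    have h6 := hS.full e' h5 (he't.trans hsubt)
    by_contra h7
    exact htD (h.all_in hS.sub h6 h7 t ht he't)
  rcases h.of_tri hS.sub hS.irr ht hall with h5 | h5
  · apply htD
    rw [h5]
    exact Finset.mem_singleton_self t
  · obtain ⟨r', hr', hr'D⟩ := hS.out
    apply hr'D
    by_cases hr't : r' ∈ t
    · exact hsubt hr't
    · obtain ⟨s, hs⟩ := mem_uv.1 hr'
      rw [mem_star] at hs
      apply mem_uv_of_mem (t := s) _ hs.2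
      rw [h5, Finset.mem_sdiff, Finset.mem_singleton]
      refine ⟨hs.1, ?_⟩
      rintro rfl
      exact hr't hs.2

theorem Sta.not_both {T D : Finset (Finset V)} {u0 u1 : V} (h : Sph T) (hS : Sta T D u0 u1)
    {v : V} (hc : Chl D v) (h2 : 2 ≤ D.card) {e : Finset V} (hve : v ∉ e)
    (he : e ∈ bdry D) (hte : insert v e ∈ D) : False := by
  have hcard := (mem_bdry.1 he).1
  obtain ⟨x, y, hxy, rfl⟩ := Finset.card_eq_two.1 hcard
  simp only [Finset.mem_insert, Finset.mem_singleton, not_or] at hve
  have hx : x ∈ vx (bdry D) := mem_vx.2 ⟨_, he, by simp⟩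
  have hy : y ∈ vx (bdry D) := mem_vx.2 ⟨_, he, by simp⟩
  have h1 := hc x (edge_of_tri hte hve.1 (by simp) (by simp)) hx
  have h3 := hc y (edge_of_tri hte hve.2 (by simp) (by simp)) hy
  have hall : ∀ e' : Finset V, e'.card = 2 → e' ⊆ insert v {x, y} → e' ∈ bdry D := by
    intro e' hc' he'
    obtain ⟨p, q, hpq, rfl⟩ := Finset.card_eq_two.1 hc'
    have hp := he' (show p ∈ ({p, q} : Finset V) by simp)
    have hq := he' (show q ∈ ({p, q} : Finset V) by simp)
    simp only [Finset.mem_insert, Finset.mem_singleton] at hp hq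
    rcases hp with rfl | rfl | rfl <;> rcases hq with rfl | rfl | rfl
    · exact absurd rfl hpq
    · exact h1
    · exact h3
    · rw [Finset.pair_comm]; exact h1
    · exact absurd rfl hpq
    · exact he
    · rw [Finset.pair_comm]; exact h3
    · rw [Finset.pair_comm]; exact he
    · exact absurd rfl hpq
  rcases h.of_tri hS.sub hS.irr (hS.sub hte) hall with h5 | h5
  · rw [h5, Finset.card_singleton] at h2
    omega
  · rw [h5, Finset.mem_sdiff] at hte
    exact hte.2 (Finset.mem_singleton_self _)

/-- the degree of a pair in the triangles at `v` -/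
theorem tdeg_star_in {D S : Finset (Finset V)} {v : V} {e : Finset V} (hv : v ∈ e) :
    tdeg (star D v) e = tdeg D e := by
  unfold tdeg
  congr 1
  ext t
  rw [Finset.mem_filter, Finset.mem_filter, mem_star]
  constructor
  · rintro ⟨⟨a1, -⟩, a2⟩
    exact ⟨a1, a2⟩
  · rintro ⟨a1, a2⟩
    exact ⟨⟨a1, a2 hv⟩, a2⟩

/-- the link edges: `e` is in the boundary of a set `S` of triangles at `v` iff `insert v e ∈ S` -/
theorem bdry_at {S : Finset (Finset V)} (h3 : ∀ t ∈ S, t.card = 3) {v : V} (hS : ∀ t ∈ S, v ∈ t)
    {e : Finset V} (he : e.card = 2) (hv : v ∉ e) : e ∈ bdry S ↔ insert v e ∈ S := by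
  rw [mem_bdry]
  have h1 : S.filter (fun t => e ⊆ t) = if insert v e ∈ S then {insert v e} else ∅ := by
    ext t
    rw [Finset.mem_filter]
    split_ifs with h2
    · rw [Finset.mem_singleton]
      constructor
      · rintro ⟨h4, h5⟩
        exact tri_eq (h3 t h4) he h5 (hS t h4) hv
      · rintro rfl
        exact ⟨h2, Finset.subset_insert _ _⟩
    · simp only [Finset.notMem_empty, iff_false, not_and]
      intro h4 h5
      apply h2
      rw [← tri_eq (h3 t h4) he h5 (hS t h4) hv]
      exact h4
  unfold tdeg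
  rw [h1]
  split_ifs with h2
  · simp [he, h2]
  · simp [h2]

theorem Sta.remove {T D : Finset (Finset V)} {u0 u1 : V} (h : Sph T) (hS : Sta T D u0 u1)
    {v : V} (hv : v ∈ vx (bdry D)) (hc : Chl D v) (h0 : v ≠ u0) (h1 : v ≠ u1)
    (h2 : 2 ≤ D.card) : Sta T (D.filter (fun t => v ∉ t)) u0 u1 ∧
      uv (D.filter (fun t => v ∉ t)) = (uv D).erase v := by
  classical
  have h3D : ∀ t ∈ D, t.card = 3 := fun t ht => h.card3 t (hS.sub ht)
  have hstarD : ∀ t ∈ star D v, t.card = 3 := fun t ht => h3D t (mem_star.1 ht).1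
  have hstarv : ∀ t ∈ star D v, v ∈ t := fun t ht => (mem_star.1 ht).2
  obtain ⟨D', hD'⟩ : ∃ D', D' = D.filter (fun t => v ∉ t) := ⟨_, rfl⟩
  rw [← hD']
  have hsub : D' ⊆ D := by rw [hD']; exact Finset.filter_subset _ _
  have memD' : ∀ t, t ∈ D' ↔ t ∈ D ∧ v ∉ t := by intro t; rw [hD', Finset.mem_filter]
  have hsym : D' = symmDiff D (star D v) := by
    ext t
    rw [memD', Finset.mem_symmDiff, mem_star]
    tauto
  have hbs : bdry D' = symmDiff (bdry D) (bdry (star D v)) := by rw [hsym, bdry_symm]
  -- the boundary of `D'`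
  have hve' : ∀ e ∈ bdry D', v ∉ e := by
    intro e he hve
    obtain ⟨t, ht, het⟩ := in_tri he
    exact ((memD' t).1 ht).2 (het hve)
  have memb : ∀ e : Finset V, e.card = 2 → v ∉ e → (e ∈ bdry D' ↔ (e ∈ bdry D ∨ insert v e ∈ D)) := by
    intro e he hve
    rw [hbs, Finset.mem_symmDiff, bdry_at hstarD hstarv he hve, mem_star]
    have hvi : v ∈ insert v e := Finset.mem_insert_self _ _
    constructor
    · rintro (⟨h3, -⟩ | ⟨h3, -⟩)
      · exact Or.inl h3
      · exact Or.inr h3.1
    · rintro (h3 | h3)
      · exact Or.inl ⟨h3, fun h4 => hS.not_both h hc h2 hve h3 h4.1⟩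
      · exact Or.inr ⟨⟨h3, hvi⟩, fun h4 => hS.not_both h hc h2 hve h4 h3⟩
  -- the outer triangle at `v`
  obtain ⟨ev, hev, hvev⟩ := mem_vx.1 hv
  obtain ⟨tout, htout, htoutD, hevt⟩ := h.out_tri hS.sub hev
  have hvtout : v ∈ tout := hevt hvev
  have lk : ∀ S ⊆ star D v, LinkEven S v → S = ∅ := by
    intro S hSD hL
    rcases h.conn v S (hSD.trans (star_mono hS.sub v)) hL with h3 | h3
    · exact h3
    · exfalso
      have : tout ∈ S := by rw [h3]; exact mem_star.2 ⟨htout, hvtout⟩
      exact htoutD (mem_star.1 (hSD this)).1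
  have hirr : ∀ C ⊆ bdry D', IsCyc C → C = ∅ ∨ C = bdry D' := by
    intro C hC hcyc
    obtain ⟨S, hSd⟩ : ∃ S, S = (star D v).filter (fun t => t.erase v ∈ C) := ⟨_, rfl⟩
    have hSD : S ⊆ star D v := by rw [hSd]; exact Finset.filter_subset _ _
    have h3S : ∀ t ∈ S, t.card = 3 := fun t ht => hstarD t (hSD ht)
    have hvS : ∀ t ∈ S, v ∈ t := fun t ht => hstarv t (hSD ht)
    have memS : ∀ e : Finset V, v ∉ e → (insert v e ∈ S ↔ insert v e ∈ D ∧ e ∈ C) := by
      intro e hve
      rw [hSd, Finset.mem_filter, mem_star, Finset.erase_insert hve]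
      have hvi : v ∈ insert v e := Finset.mem_insert_self _ _
      tauto
    have hvC : ∀ e ∈ C, v ∉ e := fun e he => hve' e (hC he)
    have hC2cyc : IsCyc (symmDiff C (bdry S)) := isCyc_symm hcyc (isCyc_bdry h3S)
    have hC2 : symmDiff C (bdry S) ⊆ bdry D := by
      -- the edges which do not contain `v`
      have hnv : ∀ e ∈ symmDiff C (bdry S), v ∉ e → e ∈ bdry D := by
        intro e he hve
        have hcard := hC2cyc.1 e he
        rw [Finset.mem_symmDiff, bdry_at h3S hvS hcard hve, memS e hve] at he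
        rcases he with ⟨h3, h4⟩ | ⟨h3, h4⟩
        · have h5 := (memb e hcard hve).1 (hC h3)
          rcases h5 with h5 | h5
          · exact h5
          · exact absurd ⟨h5, h3⟩ h4
        · exact absurd h3.2 h4
      intro e he
      by_cases hve : v ∈ e
      · obtain ⟨x, hvx, rfl⟩ : ∃ x, v ≠ x ∧ e = {v, x} := by
          obtain ⟨p, q, hpq, rfl⟩ := Finset.card_eq_two.1 (hC2cyc.1 e he)
          simp only [Finset.mem_insert, Finset.mem_singleton] at hve
          rcases hve with rfl | rfl
          · exact ⟨q, hpq, rfl⟩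
          · exact ⟨p, hpq.symm, Finset.pair_comm _ _⟩
        by_contra hnb
        have heS : ({v, x} : Finset V) ∈ bdry S := by
          rw [Finset.mem_symmDiff] at he
          rcases he with ⟨h3, -⟩ | ⟨h3, -⟩
          · exact absurd (Finset.mem_insert_self _ _) (hvC _ h3)
          · exact h3
        obtain ⟨t, ht, het⟩ := in_tri heS
        have htD := (mem_star.1 (hSD ht)).1
        have hxn : x ∉ vx (bdry D) := by
          intro hx
          exact hnb (hc x (edge_of_tri htD hvx (het (by simp)) (het (by simp))) hx)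
        obtain ⟨e', he', hxe', hne'⟩ := exists_other hC2cyc he (a := x) (by simp)
        have hve'' : v ∉ e' := by
          intro h3
          apply hne'
          symm
          apply Finset.eq_of_subset_of_card_le
          · intro z hz
            simp only [Finset.mem_insert, Finset.mem_singleton] at hz
            rcases hz with rfl | rfl
            · exact h3
            · exact hxe'
          · rw [hC2cyc.1 e' he', Finset.card_pair hvx]
        exact hxn (mem_vx.2 ⟨e', hnv e' he' hve'', hxe'⟩)
      · exact hnv e he hve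
    rcases hS.irr.irr _ hC2 hC2cyc with h3 | h3
    · left
      have hCS : C = bdry S := symmDiff_eq_bot.1 h3
      have hL : LinkEven S v := by
        intro x hx
        rw [← Nat.not_odd_iff_even]
        intro h4
        have : ({v, x} : Finset V) ∈ C := by
          rw [hCS]; exact mem_bdry.2 ⟨Finset.card_pair hx.symm, h4⟩
        exact hvC _ this (Finset.mem_insert_self _ _)
      rw [hCS, lk S hSD hL, bdry_empty]
    · right
      have hL : LinkEven (star D v \ S) v := by
        intro x hx
        have h5 : tdeg (star D v) {v, x} = tdeg S {v, x} + tdeg (star D v \ S) {v, x} := by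
          unfold tdeg
          rw [← Finset.card_union_of_disjoint, ← Finset.filter_union,
            Finset.union_sdiff_of_subset hSD]
          exact Finset.disjoint_filter_filter Finset.disjoint_sdiff
        have h6 : Odd (tdeg (star D v) {v, x}) ↔ Odd (tdeg S {v, x}) := by
          have h7 : ({v, x} : Finset V) ∈ bdry D ↔ ({v, x} : Finset V) ∈ bdry S := by
            rw [← h3, Finset.mem_symmDiff]
            have : ({v, x} : Finset V) ∉ C := fun h8 => hvC _ h8 (Finset.mem_insert_self _ _)
            tauto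
          rw [mem_bdry, mem_bdry, Finset.card_pair hx.symm] at h7
          rw [tdeg_star_in (S := S) (Finset.mem_insert_self v {x})]
          simpa using h7
        rw [← Nat.not_odd_iff_even]
        intro h8
        rw [h5, Nat.odd_add'] at h6
        have h9 := h6.1
        have h10 := h6.2
        rw [← Nat.not_odd_iff_even] at h9 h10
        tauto
      have h4 := lk _ Finset.sdiff_subset hL
      have h5 : S = star D v := Finset.Subset.antisymm hSD (Finset.sdiff_eq_empty_iff_subset.1 h4)
      rw [hbs, ← h3, h5, symmDiff_symmDiff_cancel_right]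
  have h01 : ({u0, u1} : Finset V) ∈ bdry D' := by
    apply (memb _ (mem_bdry.1 hS.hb).1 _).2 (Or.inl hS.hb)
    simp only [Finset.mem_insert, Finset.mem_singleton, not_or]
    exact ⟨h0, h1⟩
  have hirrD' : Irr (bdry D') :=
    ⟨isCyc_bdry (fun t ht => h3D t (hsub ht)), ⟨_, h01⟩, hirr⟩
  have huv : uv D' = (uv D).erase v := by
    ext x
    rw [Finset.mem_erase]
    constructor
    · intro hx
      obtain ⟨t, ht⟩ := mem_uv.1 hx
      rw [mem_star, memD'] at ht
      refine ⟨?_, mem_uv_of_mem ht.1.1 ht.2⟩
      rintro rfl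
      exact ht.1.2 ht.2
    · rintro ⟨hxv, hx⟩
      by_contra hcon
      have hall : ∀ t ∈ D, x ∈ t → v ∈ t := by
        intro t ht hxt
        by_contra hvt
        exact hcon (mem_uv_of_mem ((memD' t).2 ⟨ht, hvt⟩) hxt)
      obtain ⟨t, ht⟩ := mem_uv.1 hx
      rw [mem_star] at ht
      have hvt := hall t ht.1 ht.2
      have hE : ({v, x} : Finset V) ∈ edges D := edge_of_tri ht.1 (Ne.symm hxv) hvt ht.2
      have hxb : x ∈ vx (bdry D) := by
        by_contra hxb
        have h3 := h.inside hS.sub (w := x) (fun e he hxe => hxb (mem_vx.2 ⟨e, he, hxe⟩)) ⟨t,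
          mem_star.2 ht⟩
        have hxT : x ∈ uv T := mem_uv_of_mem (hS.sub ht.1) ht.2
        obtain ⟨s, hs, hxs, hvs⟩ := h.vdeg_ge hxT v hxv
        exact hvs (hall s (h3 (mem_star.2 ⟨hs, hxs⟩)) hxs)
      have hvb := hc x hE hxb
      -- the third vertex
      obtain ⟨y, hy⟩ : (t \ {v, x}).Nonempty := by
        rw [← Finset.card_pos, Finset.card_sdiff_of_subset]
        · rw [h3D t ht.1, Finset.card_pair (Ne.symm hxv)]
          norm_num
        · intro z hz
          simp only [Finset.mem_insert, Finset.mem_singleton] at hz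
          rcases hz with rfl | rfl
          · exact hvt
          · exact ht.2
      rw [Finset.mem_sdiff] at hy
      have hyn := hy.2
      simp only [Finset.mem_insert, Finset.mem_singleton, not_or] at hyn
      have hxy : ({x, y} : Finset V).card = 2 := Finset.card_pair (Ne.symm hyn.2)
      have hxyt : ({x, y} : Finset V) ⊆ t := by
        intro z hz
        simp only [Finset.mem_insert, Finset.mem_singleton] at hz
        rcases hz with rfl | rfl
        · exact ht.2
        · exact hy.1
      have hvxy : v ∉ ({x, y} : Finset V) := by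
        simp only [Finset.mem_insert, Finset.mem_singleton, not_or]
        exact ⟨Ne.symm hxv, fun h => hyn.1 h.symm⟩
      have hteq : t = insert v {x, y} := tri_eq (h3D t ht.1) hxy hxyt hvt hvxy
      have hone : D.filter (fun s => ({x, y} : Finset V) ⊆ s) = {t} := by
        ext s
        rw [Finset.mem_filter, Finset.mem_singleton]
        constructor
        · rintro ⟨h3, h4⟩
          rw [hteq]
          exact tri_eq (h3D s h3) hxy h4 (hall s h3 (h4 (by simp))) hvxy
        · rintro rfl
          exact ⟨ht.1, hxyt⟩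
      have hb : ({x, y} : Finset V) ∈ bdry D := by
        rw [mem_bdry]
        refine ⟨hxy, ?_⟩
        unfold tdeg
        rw [hone, Finset.card_singleton]
        exact odd_one
      exact hS.not_both h hc h2 hvxy hb (hteq ▸ ht.1)
  refine ⟨⟨hsub.trans hS.sub, hirrD', h01, ?_, ?_⟩, huv⟩
  · intro e he heu
    rw [huv] at heu
    have hcard := (mem_edges.1 he).1
    have hve : v ∉ e := fun h3 => by
      have := heu h3
      simp at this
    have heD : e ∈ edges D := hS.full e he (heu.trans (Finset.erase_subset _ _))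
    obtain ⟨-, t, ht, het⟩ := mem_edges.1 heD
    rw [mem_edges]
    refine ⟨hcard, ?_⟩
    by_cases hvt : v ∈ t
    · have hteq := tri_eq (h3D t ht) hcard het hvt hve
      by_cases hb : e ∈ bdry D
      · exact absurd (hteq ▸ ht) (fun h4 => hS.not_both h hc h2 hve hb h4)
      · obtain ⟨t1, ht1, t2, ht2, h12, het1, het2, -⟩ := h.two_tri he
        have hD1 := h.all_in hS.sub heD hb t1 ht1 het1
        have hD2 := h.all_in hS.sub heD hb t2 ht2 het2
        by_cases hv1 : v ∈ t1
        · refine ⟨t2, (memD' t2).2 ⟨hD2, ?_⟩, het2⟩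
          intro hv2
          apply h12
          rw [tri_eq (h3D t1 hD1) hcard het1 hv1 hve, tri_eq (h3D t2 hD2) hcard het2 hv2 hve]
        · exact ⟨t1, (memD' t1).2 ⟨hD1, hv1⟩, het1⟩
    · exact ⟨t, (memD' t).2 ⟨ht, hvt⟩, het⟩
  · obtain ⟨r, hr, hrD⟩ := hS.out
    refine ⟨r, hr, ?_⟩
    rw [huv]
    intro h3
    exact hrD (Finset.mem_of_mem_erase h3)

end Pool.Agent.Spl2
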