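import Pool.Agent.Spl2.SphOrdB

/-!
# Canonical orderings, part C: the next vertex

`step`: if the region `D` misses at least two vertices, there is a boundary vertex `v ≠ u0, u1` without chord
which has at least two neighbours outside `D`.  Proof: `apex_all` (if along a path of the boundary every inner vertex
has only one outer neighbour, then all the outer triangles have the same apex `r`).  Without chords this gives
`D = T \ star r`; with a chord `a b` which cuts off a smallest region it gives the 3-cycle `r a b`, which is a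
triangle, but both triangles at `a b` are in `D`.
-/

set_option autoImplicit false

namespace Pool.Agent.Spl2

open Finset Pool.Agent.Spl1

variable {V : Type*} [Fintype V] [DecidableEq V]

theorem Sph.link_irr {T : Finset (Finset V)} (h : Sph T) {r : V} (hr : (star T r).Nonempty) :
    Irr (bdry (star T r)) := by
  have h3 : ∀ t ∈ star T r, t.card = 3 := fun t ht => h.card3 t (mem_star.1 ht).1
  have hrt : ∀ t ∈ star T r, r ∈ t := fun t ht => (mem_star.1 ht).2
  have hnr : ∀ e ∈ bdry (star T r), r ∉ e := by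
    intro e he hre
    rw [mem_bdry, tdeg_star_in (S := ∅) hre] at he
    have : e ∈ bdry T := mem_bdry.2 he
    rw [h.bdry_self] at this
    simp at this
  refine ⟨isCyc_bdry h3, ?_, ?_⟩
  · obtain ⟨t, ht⟩ := hr
    refine ⟨t.erase r, ?_⟩
    have hc : (t.erase r).card = 2 := by
      rw [Finset.card_erase_of_mem (hrt t ht), h3 t ht]
    rw [bdry_at h3 hrt hc (by simp), Finset.insert_erase (hrt t ht)]
    exact ht
  · intro C hC hcyc
    obtain ⟨S, hSd⟩ : ∃ S, S = (star T r).filter (fun t => t.erase r ∈ C) := ⟨_, rfl⟩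
    have hSD : S ⊆ star T r := by rw [hSd]; exact Finset.filter_subset _ _
    have h3S : ∀ t ∈ S, t.card = 3 := fun t ht => h3 t (hSD ht)
    have hrS : ∀ t ∈ S, r ∈ t := fun t ht => hrt t (hSD ht)
    have memS : ∀ e : Finset V, e.card = 2 → r ∉ e → (e ∈ bdry S ↔ e ∈ C) := by
      intro e hc hre
      rw [bdry_at h3S hrS hc hre, hSd, Finset.mem_filter, Finset.erase_insert hre]
      constructor
      · exact fun h => h.2
      · intro he
        refine ⟨?_, he⟩
        exact (bdry_at h3 hrt hc hre).1 (hC he)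
    -- the edges at `r` of the boundary of `S`
    have hL : LinkEven S r := by
      intro x hx
      rw [← Nat.not_odd_iff_even]
      intro hodd
      have he : ({r, x} : Finset V) ∈ symmDiff C (bdry S) := by
        rw [Finset.mem_symmDiff]
        refine Or.inr ⟨mem_bdry.2 ⟨Finset.card_pair hx.symm, hodd⟩, ?_⟩
        intro h4
        exact hnr _ (hC h4) (by simp)
      obtain ⟨e', he', hxe', hne'⟩ := exists_other (isCyc_symm hcyc (isCyc_bdry h3S)) he
        (a := x) (by simp)
      have hc' := (isCyc_symm hcyc (isCyc_bdry h3S)).1 e' he'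
      have hre' : r ∉ e' := by
        intro h4
        apply hne'
        symm
        apply Finset.eq_of_subset_of_card_le
        · intro z hz
          simp only [Finset.mem_insert, Finset.mem_singleton] at hz
          rcases hz with rfl | rfl
          · exact h4
          · exact hxe'
        · rw [hc', Finset.card_pair hx.symm]
      rw [Finset.mem_symmDiff, memS e' hc' hre'] at he'
      tauto
    rcases h.conn r S hSD hL with h4 | h4
    · left
      rw [Finset.eq_empty_iff_forall_notMem]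
      intro e he
      have := (memS e (hcyc.1 e he) (hnr e (hC he))).2 he
      rw [h4, bdry_empty] at this
      simp at this
    · right
      apply Finset.Subset.antisymm hC
      intro e he
      rw [← h4] at he
      have hc := (mem_bdry.1 he).1
      exact (memS e hc (fun h5 => hnr e (h4 ▸ he) h5)).1 he

theorem Sta.apex_all {T D : Finset (Finset V)} {u0 u1 : V} (h : Sph T) (hS : Sta T D u0 u1)
    {C : Finset (Finset V)} (hC : Irr C) {a b : V} (hab : a ≠ b) (hg : ({a, b} : Finset V) ∈ C)
    (hsub : ∀ e ∈ C, e ≠ {a, b} → e ∈ bdry D)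
    (huniq : ∀ v ∈ vx C, v ≠ a → v ≠ b → ∀ r r', r ∉ uv D → r' ∉ uv D →
      ({v, r} : Finset V) ∈ edges T → ({v, r'} : Finset V) ∈ edges T → r = r') :
    ∃ r, r ∉ uv D ∧ ∀ e ∈ C, e ≠ {a, b} → insert r e ∈ T := by
  classical
  obtain ⟨e0, he0, hae0, hne0⟩ := exists_other hC.cyc hg (a := a) (by simp)
  have hb0 := hsub e0 he0 hne0
  obtain ⟨t0, ht0, htD0, het0⟩ := h.out_tri hS.sub hb0
  obtain ⟨r, hr, hte0, hre0⟩ := hS.apex_out h hb0 ht0 htD0 het0
  refine ⟨r, hr, ?_⟩
  obtain ⟨Cr, hCr⟩ : ∃ Cr, Cr = C.filter (fun e => e ≠ {a, b} ∧ insert r e ∈ T) := ⟨_, rfl⟩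
  have hsubC : Cr ⊆ C := by rw [hCr]; exact Finset.filter_subset _ _
  have memCr : ∀ e, e ∈ Cr ↔ e ∈ C ∧ e ≠ {a, b} ∧ insert r e ∈ T := by
    intro e; rw [hCr, Finset.mem_filter]
  have he0r : e0 ∈ Cr := (memCr e0).2 ⟨he0, hne0, by rw [← hte0]; exact ht0⟩
  have h2 : ∀ e ∈ Cr, e.card = 2 := fun e he => hC.cyc.1 e (hsubC he)
  have hev : ∀ v, v ≠ a → v ≠ b → Even (vdeg Cr v) := by
    intro v hva hvb
    by_cases hex : ∃ e ∈ Cr, v ∈ e
    · obtain ⟨e, he, hve⟩ := hex
      obtain ⟨heC, hne, hT⟩ := (memCr e).1 he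
      have hvx : v ∈ vx C := mem_vx.2 ⟨e, heC, hve⟩
      have hvD : v ∈ uv D := vx_uv (T := T) (mem_vx.2 ⟨e, hsub e heC hne, hve⟩)
      have hvr : ({v, r} : Finset V) ∈ edges T := edge_of_tri hT (fun h' => hr (h' ▸ hvD))
        (Finset.mem_insert_of_mem hve) (Finset.mem_insert_self _ _)
      have : vdeg Cr v = vdeg C v := by
        unfold vdeg
        congr 1
        ext e'
        rw [Finset.mem_filter, Finset.mem_filter]
        constructor
        · rintro ⟨h3, h4⟩
          exact ⟨hsubC h3, h4⟩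
        · rintro ⟨h3, h4⟩
          refine ⟨(memCr e').2 ⟨h3, ?_, ?_⟩, h4⟩
          · rintro rfl
            simp only [Finset.mem_insert, Finset.mem_singleton] at h4
            tauto
          · have hne' : e' ≠ {a, b} := by
              rintro rfl
              simp only [Finset.mem_insert, Finset.mem_singleton] at h4
              tauto
            have hb' := hsub e' h3 hne'
            obtain ⟨t', ht', htD', het'⟩ := h.out_tri hS.sub hb'
            obtain ⟨r', hr', hte', hre'⟩ := hS.apex_out h hb' ht' htD' het'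
            have hvr' : ({v, r'} : Finset V) ∈ edges T := edge_of_tri ht'
              (fun h' => hr' (h' ▸ hvD)) (het' h4) (by rw [hte']; exact Finset.mem_insert_self _ _)
            have := huniq v hvx hva hvb r r' hr hr' hvr hvr'
            rw [this, ← hte']
            exact ht'
      rw [this]
      exact hC.cyc.2 v
    · have : vdeg Cr v = 0 := by
        unfold vdeg
        rw [Finset.card_eq_zero, Finset.filter_eq_empty_iff]
        intro e he hve
        exact hex ⟨e, he, hve⟩
      rw [this]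
      exact ⟨0, rfl⟩
  have hodd : oddv Cr ⊆ {a, b} := by
    intro v hv
    rw [mem_oddv] at hv
    simp only [Finset.mem_insert, Finset.mem_singleton]
    by_contra hcon
    push Not at hcon
    exact (Nat.not_even_iff_odd.2 hv) (hev v hcon.1 hcon.2)
  have hcard : Even (oddv Cr).card := handshake h2
  have hle : (oddv Cr).card ≤ 2 := (Finset.card_le_card hodd).trans Finset.card_le_two
  have hcase : oddv Cr = ∅ ∨ oddv Cr = {a, b} := by
    obtain ⟨k, hk⟩ := hcard
    by_cases hk0 : k = 0
    · left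
      rw [← Finset.card_eq_zero, hk, hk0]
    · right
      apply Finset.eq_of_subset_of_card_le hodd
      rw [Finset.card_pair hab]
      omega
  rcases hcase with h4 | h4
  · exfalso
    rcases hC.irr Cr hsubC ((isCyc_iff_oddv h2).2 h4) with h5 | h5
    · rw [h5] at he0r
      simp at he0r
    · have : ({a, b} : Finset V) ∈ Cr := by rw [h5]; exact hg
      exact ((memCr _).1 this).2.1 rfl
  · have hs1 : symmDiff Cr {{a, b}} ⊆ C := symm_sub hsubC (Finset.singleton_subset_iff.2 hg)
    have hs2 : IsCyc (symmDiff Cr {{a, b}}) := by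
      rw [isCyc_iff_oddv (fun e he => hC.cyc.1 e (hs1 he)), oddv_symm, h4, oddv_single,
        symmDiff_self]
      rfl
    have hgm : ({a, b} : Finset V) ∈ symmDiff Cr {{a, b}} := by
      rw [Finset.mem_symmDiff]
      refine Or.inr ⟨Finset.mem_singleton_self _, fun h5 => ((memCr _).1 h5).2.1 rfl⟩
    rcases hC.irr _ hs1 hs2 with h5 | h5
    · rw [h5] at hgm
      simp at hgm
    · intro e he hne
      rw [← h5, Finset.mem_symmDiff] at he
      rcases he with ⟨he, -⟩ | ⟨he, -⟩
      · exact ((memCr e).1 he).2.2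
      · exact absurd (Finset.mem_singleton.1 he) hne

theorem Sta.step {T D : Finset (Finset V)} {u0 u1 : V} (h : Sph T) (hF : Fac3 T)
    (hS : Sta T D u0 u1) (h01 : u0 ≠ u1)
    (hR : ∀ r, ∃ r', r' ≠ r ∧ r' ∈ uv T ∧ r' ∉ uv D) :
    ∃ v ∈ vx (bdry D), v ≠ u0 ∧ v ≠ u1 ∧ Chl D v ∧ ∃ r r', r ≠ r' ∧ r ∉ uv D ∧ r' ∉ uv D ∧
      ({v, r} : Finset V) ∈ edges T ∧ ({v, r'} : Finset V) ∈ edges T := by
  classical
  by_contra hcon
  have hu : ∀ v ∈ vx (bdry D), v ≠ u0 → v ≠ u1 → Chl D v → ∀ r r', r ∉ uv D → r' ∉ uv D →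
      ({v, r} : Finset V) ∈ edges T → ({v, r'} : Finset V) ∈ edges T → r = r' := by
    intro v hv h0 h1 hc r r' hr hr' he he'
    by_contra hne
    exact hcon ⟨v, hv, h0, h1, hc, r, r', hne, hr, hr', he, he'⟩
  have hDne : D.Nonempty := by
    obtain ⟨t, ht, -⟩ := in_tri hS.hb
    exact ⟨t, ht⟩
  by_cases hch : ∃ a b, a ≠ b ∧ a ∈ vx (bdry D) ∧ b ∈ vx (bdry D) ∧
      ({a, b} : Finset V) ∈ edges D ∧ ({a, b} : Finset V) ∉ bdry D
  · -- a smallest region cut off by a chord
    obtain ⟨Fam, hFam⟩ : ∃ Fam : Finset (Finset V) → Prop, Fam = fun D1 => ∃ a b, a ≠ b ∧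
      a ∈ vx (bdry D) ∧ b ∈ vx (bdry D) ∧ ({a, b} : Finset V) ∈ edges D ∧
      ({a, b} : Finset V) ∉ bdry D ∧ ({a, b} : Finset V) ∈ bdry D1 ∧
      ∀ e ∈ bdry D1, e ≠ {a, b} → e ∈ bdry D ∧ e ≠ {u0, u1} := ⟨_, rfl⟩
    have hne : (D.powerset.filter Fam).Nonempty := by
      obtain ⟨a, b, hab, ha, hb, hE, hnb⟩ := hch
      obtain ⟨D1, hD1, -, hm, hall⟩ := h.split hS.sub hS.irr hab ha hb hE hnb hS.hb
      refine ⟨D1, ?_⟩
      rw [Finset.mem_filter, Finset.mem_powerset, hFam]
      exact ⟨hD1, a, b, hab, ha, hb, hE, hnb, hm, hall⟩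
    obtain ⟨D1, hD1m, hmin⟩ := Finset.exists_min_image _ (fun D1 => D1.card) hne
    rw [Finset.mem_filter, Finset.mem_powerset] at hD1m
    obtain ⟨hD1, hF1⟩ := hD1m
    rw [hFam] at hF1
    obtain ⟨a, b, hab, ha, hb, hE, hnb, hm, hall⟩ := hF1
    have hD1T : D1 ⊆ T := hD1.trans hS.sub
    have hI1 : Irr (bdry D1) := by
      have hno : ∀ C' ⊆ bdry D1, IsCyc C' → ({a, b} : Finset V) ∉ C' → C' = ∅ := by
        intro C' hC' hcyc hg
        have hsub' : C' ⊆ bdry D := fun e he => (hall e (hC' he) (fun h' => hg (h' ▸ he))).1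
        rcases hS.irr.irr C' hsub' hcyc with h4 | h4
        · exact h4
        · exfalso
          have h5 : ({u0, u1} : Finset V) ∈ C' := by rw [h4]; exact hS.hb
          exact (hall _ (hC' h5) (fun h' => hg (h' ▸ h5))).2 rfl
      refine ⟨isCyc_bdry (fun t ht => h.card3 t (hD1T ht)), ⟨_, hm⟩, ?_⟩
      intro C' hC' hcyc
      by_cases hg : ({a, b} : Finset V) ∈ C'
      · right
        have h5 : symmDiff C' (bdry D1) = ∅ := by
          apply hno _ (symm_sub hC' (Finset.Subset.refl _))
            (isCyc_symm hcyc (isCyc_bdry (fun t ht => h.card3 t (hD1T ht))))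
          rw [Finset.mem_symmDiff]
          tauto
        exact symmDiff_eq_bot.1 h5
      · exact Or.inl (hno C' hC' hcyc hg)
    -- the inner vertices of the path
    have hvert : ∀ v ∈ vx (bdry D1), v ≠ a → v ≠ b → v ∈ vx (bdry D) ∧ v ≠ u0 ∧ v ≠ u1 ∧
        Chl D v := by
      intro v hv hva hvb
      have hvab : v ∉ ({a, b} : Finset V) := by simp [hva, hvb]
      have hfil : ∀ e ∈ bdry D1, v ∈ e → e ∈ bdry D ∧ e ≠ {u0, u1} := by
        intro e he hve
        exact hall e he (fun h' => hvab (h' ▸ hve))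
      have hvD : v ∈ vx (bdry D) := by
        obtain ⟨e, he, hve⟩ := mem_vx.1 hv
        exact mem_vx.2 ⟨e, (hfil e he hve).1, hve⟩
      have hd1 := hI1.deg2 hv
      have hd := hS.irr.deg2 hvD
      have hfeq : (bdry D1).filter (fun e => v ∈ e) = (bdry D).filter (fun e => v ∈ e) := by
        apply Finset.eq_of_subset_of_card_le
        · intro e he
          rw [Finset.mem_filter] at he ⊢
          exact ⟨(hfil e he.1 he.2).1, he.2⟩
        · unfold vdeg at hd1 hd
          rw [hd1, hd]
      have hu01 : v ∉ ({u0, u1} : Finset V) := by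
        intro hv01
        have h4 : ({u0, u1} : Finset V) ∈ (bdry D).filter (fun e => v ∈ e) :=
          Finset.mem_filter.2 ⟨hS.hb, hv01⟩
        rw [← hfeq, Finset.mem_filter] at h4
        exact (hfil _ h4.1 h4.2).2 rfl
      simp only [Finset.mem_insert, Finset.mem_singleton, not_or] at hu01
      refine ⟨hvD, hu01.1, hu01.2, ?_⟩
      intro w hvw hw
      by_contra hnvw
      have hvw' : v ≠ w := edge_ne hvw
      -- the outer triangle at `v`
      obtain ⟨ev, hev, hvev⟩ := mem_vx.1 hvD
      obtain ⟨tv, htv, htvD, hevt⟩ := h.out_tri hS.sub hev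
      obtain ⟨ew, hew, hwew⟩ := mem_vx.1 hw
      obtain ⟨tw, htw, htwD, hewt⟩ := h.out_tri hS.sub hew
      have hin : ∀ t ∈ D, v ∈ t → t ∈ D1 := by
        intro t ht hvt
        by_contra htD1
        have hsd : D \ D1 = symmDiff D D1 := by
          ext s
          rw [Finset.mem_sdiff, Finset.mem_symmDiff]
          constructor
          · exact fun h' => Or.inl h'
          · rintro (h' | h')
            · exact h'
            · exact absurd (hD1 h'.1) h'.2
        have h5 := h.inside (D := D \ D1) (Finset.sdiff_subset.trans hS.sub) (w := v) (by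
          intro e he hve
          rw [hsd, bdry_symm, Finset.mem_symmDiff] at he
          have h7 : e ∈ (bdry D1).filter (fun e => v ∈ e) ↔
            e ∈ (bdry D).filter (fun e => v ∈ e) := by rw [hfeq]
          rw [Finset.mem_filter, Finset.mem_filter] at h7
          rcases he with ⟨h8, h9⟩ | ⟨h8, h9⟩
          · exact h9 (h7.2 ⟨h8, hve⟩).1
          · exact h9 (h7.1 ⟨h8, hve⟩).1) ⟨t, mem_star.2 ⟨Finset.mem_sdiff.2 ⟨ht, htD1⟩, hvt⟩⟩
        exact htvD (Finset.mem_sdiff.1 (h5 (mem_star.2 ⟨htv, hevt hvev⟩))).1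
      have hE1 : ({v, w} : Finset V) ∈ edges D1 := by
        obtain ⟨hc, t, ht, het⟩ := mem_edges.1 hvw
        exact mem_edges.2 ⟨hc, t, hin t ht (het (by simp)), het⟩
      have hn1 : ({v, w} : Finset V) ∉ bdry D1 := fun h' => hnvw (hfil _ h' (by simp)).1
      have hw1 : w ∈ vx (bdry D1) := by
        by_contra hw1
        have h5 := h.inside hD1T (w := w) (fun e he hwe => hw1 (mem_vx.2 ⟨e, he, hwe⟩)) (by
          obtain ⟨hc, t, ht, het⟩ := mem_edges.1 hE1
          exact ⟨t, mem_star.2 ⟨ht, het (by simp)⟩⟩)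
        exact htwD (hD1 (h5 (mem_star.2 ⟨htw, hewt hwew⟩)))
      obtain ⟨D2, hD2, -, hm2, hall2⟩ := h.split hD1T hI1 hvw' hv hw1 hE1 hn1 hm
      have hD2F : D2 ∈ D.powerset.filter Fam := by
        rw [Finset.mem_filter, Finset.mem_powerset, hFam]
        refine ⟨hD2.trans hD1, v, w, hvw', hvD, hw, hvw, hnvw, hm2, ?_⟩
        intro e he hne
        have h5 := hall2 e he hne
        exact hall e h5.1 h5.2
      have h6 := hmin D2 hD2F
      have h7 : D2 = D1 := Finset.eq_of_subset_of_card_le hD2 h6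
      rw [h7] at hm2
      exact hn1 hm2
    obtain ⟨r, hr, hrall⟩ := hS.apex_all h hI1 hab hm (fun e he hne => (hall e he hne).1)
      (fun v hv hva hvb => by
        obtain ⟨h4, h5, h6, h7⟩ := hvert v hv hva hvb
        exact hu v h4 h5 h6 h7)
    have hadj : ∀ c ∈ ({a, b} : Finset V), ({r, c} : Finset V) ∈ edges T := by
      intro c hc
      obtain ⟨e, he, hce, hne⟩ := exists_other hI1.cyc hm hc
      have hT := hrall e he hne
      have hcD : c ∈ uv D := vx_uv (T := T) (mem_vx.2 ⟨e, (hall e he hne).1, hce⟩)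
      exact edge_of_tri hT (fun h' => hr (h' ▸ hcD)) (Finset.mem_insert_self _ _)
        (Finset.mem_insert_of_mem hce)
    have ha' := hadj a (by simp)
    have hb' := hadj b (by simp)
    have ht := hF r a b (edge_ne ha') hab (edge_ne hb') ha' (edges_mono hS.sub hE) hb'
    have htD := h.all_in hS.sub hE hnb _ ht (by
      intro x hx
      exact Finset.mem_insert_of_mem hx)
    exact hr (mem_uv_of_mem htD (by simp))
  · -- no chords
    push Not at hch
    have hchl : ∀ v ∈ vx (bdry D), Chl D v := by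
      intro v hv w hvw hw
      exact hch v w (edge_ne hvw) hv hw hvw
    obtain ⟨r, hr, hrall⟩ := hS.apex_all h hS.irr h01 hS.hb (fun e he _ => he)
      (fun v hv h0 h1 => hu v hv h0 h1 (hchl v hv))
    have hadj : ∀ c ∈ ({u0, u1} : Finset V), ({r, c} : Finset V) ∈ edges T := by
      intro c hc
      obtain ⟨e, he, hce, hne⟩ := exists_other hS.irr.cyc hS.hb hc
      have hT := hrall e he hne
      have hcD : c ∈ uv D := vx_uv (T := T) (mem_vx.2 ⟨e, he, hce⟩)
      exact edge_of_tri hT (fun h' => hr (h' ▸ hcD)) (Finset.mem_insert_self _ _)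
        (Finset.mem_insert_of_mem hce)
    have ha' := hadj u0 (by simp)
    have hb' := hadj u1 (by simp)
    have ht := hF r u0 u1 (edge_ne ha') h01 (edge_ne hb') ha' (bdry_subset_edges hS.sub hS.hb) hb'
    have hall : ∀ e ∈ bdry D, insert r e ∈ T := by
      intro e he
      by_cases hne : e = {u0, u1}
      · rw [hne]; exact ht
      · exact hrall e he hne
    have hrT : (star T r).Nonempty := ⟨_, mem_star.2 ⟨ht, by simp⟩⟩
    have h3 : ∀ t ∈ star T r, t.card = 3 := fun t ht => h.card3 t (mem_star.1 ht).1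
    have hrt : ∀ t ∈ star T r, r ∈ t := fun t ht => (mem_star.1 ht).2
    have hsub : bdry D ⊆ bdry (star T r) := by
      intro e he
      have hre : r ∉ e := fun h' => hr (vx_uv (T := T) (mem_vx.2 ⟨e, he, h'⟩))
      rw [bdry_at h3 hrt (mem_bdry.1 he).1 hre, mem_star]
      exact ⟨hall e he, Finset.mem_insert_self _ _⟩
    have hstar : star T r ⊆ T := fun t ht => (mem_star.1 ht).1
    have heq : bdry D = bdry (star T r) := by
      rcases (h.link_irr hrT).irr _ hsub hS.irr.cyc with h4 | h4
      · exfalso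
        have := hS.hb
        rw [h4] at this
        simp at this
      · exact h4
    rcases h.uniq hS.sub hstar heq with h4 | h4
    · obtain ⟨t, ht⟩ := hrT
      apply hr
      exact mem_uv_of_mem (t := t) (by rw [h4]; exact ht) (mem_star.1 ht).2
    · obtain ⟨r', hne, hr'T, hr'D⟩ := hR r
      obtain ⟨t, ht, hr't, hrt'⟩ := h.vdeg_ge hr'T r hne
      apply hr'D
      refine mem_uv_of_mem (t := t) ?_ hr't
      rw [h4]
      exact Finset.mem_sdiff.2 ⟨ht, fun h' => hrt' (mem_star.1 h').2⟩

end Pool.Agent.Spl2
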