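import Pool.Agent.Spl2.SphOrdC

/-!
# Canonical orderings, part D: existence

`Can T F₀ rk`: `rk` is a bijection from the vertices of `T` to `{0, …, N - 1}`; every vertex of rank `≥ 2` has two
smaller neighbours, every vertex of rank `≤ N - 3` has two larger neighbours, the vertices of rank `0` and
`1` are adjacent, the two largest vertices are in `F₀`.
`canon`: every triangulated sphere without separating triangles has such an ordering, for every face `F₀`.
-/

set_option autoImplicit false

namespace Pool.Agent.Spl2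

open Finset Pool.Agent.Spl1

variable {V : Type*} [Fintype V] [DecidableEq V]

/-- canonical orderings -/
structure Can (T : Finset (Finset V)) (F₀ : Finset V) (rk : V → ℕ) : Prop where
  inj : ∀ x ∈ uv T, ∀ y ∈ uv T, rk x = rk y → x = y
  lt : ∀ x ∈ uv T, rk x < (uv T).card
  low : ∀ x ∈ uv T, 2 ≤ rk x → ∃ y z, y ≠ z ∧ ({x, y} : Finset V) ∈ edges T ∧
    ({x, z} : Finset V) ∈ edges T ∧ rk y < rk x ∧ rk z < rk x
  up : ∀ x ∈ uv T, rk x + 3 ≤ (uv T).card → ∃ y z, y ≠ z ∧ ({x, y} : Finset V) ∈ edges T ∧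
    ({x, z} : Finset V) ∈ edges T ∧ rk x < rk y ∧ rk x < rk z
  bot : ∀ x ∈ uv T, ∀ y ∈ uv T, rk x = 0 → rk y = 1 → ({x, y} : Finset V) ∈ edges T
  top : ∀ x ∈ uv T, (uv T).card ≤ rk x + 2 → x ∈ F₀

/-- two neighbours outside a small set -/
theorem Sph.two_nb {T : Finset (Finset V)} (h : Sph T) (hF : Fac3 T) (h4 : 4 < T.card) {v : V}
    (hv : v ∈ uv T) (A : Finset V) (hA : A.card ≤ 2) : ∃ y z, y ≠ z ∧ y ∉ A ∧ z ∉ A ∧
      ({v, y} : Finset V) ∈ edges T ∧ ({v, z} : Finset V) ∈ edges T := by
  have h1 := h.four_le hF h4 (mem_uv.1 hv)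
  have h2 := h.star_card v
  have h3 : 1 < (nb (edges T) v \ A).card := by
    have := Finset.le_card_sdiff A (nb (edges T) v)
    omega
  obtain ⟨y, hy, z, hz, hyz⟩ := Finset.one_lt_card.1 h3
  rw [Finset.mem_sdiff, mem_nb] at hy hz
  exact ⟨y, z, hyz, hy.2, hz.2, hy.1.2, hz.1.2⟩

theorem Sta.order {T : Finset (Finset V)} {u0 u1 : V} (h : Sph T) (hF : Fac3 T)
    (h4 : 4 < T.card) (h01 : u0 ≠ u1) : ∀ (n : ℕ) (D : Finset (Finset V)), D.card ≤ n →
      Sta T D u0 u1 → (∀ r, ∃ r', r' ≠ r ∧ r' ∈ uv T ∧ r' ∉ uv D) →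
      ∃ rk : V → ℕ, (∀ x ∈ uv D, ∀ y ∈ uv D, rk x = rk y → x = y) ∧
        (∀ x ∈ uv D, rk x < (uv D).card) ∧ rk u0 = 0 ∧ rk u1 = 1 ∧
        (∀ x ∈ uv D, x ≠ u0 → x ≠ u1 → ∃ y ∈ uv D, ∃ z ∈ uv D, y ≠ z ∧
          ({x, y} : Finset V) ∈ edges T ∧ ({x, z} : Finset V) ∈ edges T ∧ rk y < rk x ∧
          rk z < rk x) ∧
        (∀ x ∈ uv D, x ≠ u0 → x ≠ u1 → ∃ y z, y ≠ z ∧
          ({x, y} : Finset V) ∈ edges T ∧ ({x, z} : Finset V) ∈ edges T ∧
          (y ∈ uv D → rk x < rk y) ∧ (z ∈ uv D → rk x < rk z)) := by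
  intro n
  induction n with
  | zero =>
    intro D hD hS _
    obtain ⟨t, ht, -⟩ := in_tri hS.hb
    have : 0 < D.card := Finset.card_pos.2 ⟨t, ht⟩
    omega
  | succ n ih =>
    intro D hD hS hR
    by_cases h2 : 2 ≤ D.card
    · obtain ⟨v, hv, hv0, hv1, hc, r, r', hrr, hr, hr', her, her'⟩ := hS.step h hF h01 hR
      obtain ⟨hS', huv⟩ := hS.remove h hv hc hv0 hv1 h2
      obtain ⟨D', hD'⟩ : ∃ D', D' = D.filter (fun t => v ∉ t) := ⟨_, rfl⟩
      rw [← hD'] at hS' huv
      have hvD : v ∈ uv D := vx_uv (T := T) hv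
      have hcard : D'.card < D.card := by
        apply Finset.card_lt_card
        rw [hD', Finset.filter_ssubset]
        obtain ⟨t, ht⟩ := mem_uv.1 hvD
        rw [mem_star] at ht
        exact ⟨t, ht.1, by simpa using ht.2⟩
      obtain ⟨rk, hinj, hlt, hr0, hr1, hlow, hup⟩ := ih D' (by omega) hS' (by
        intro r
        obtain ⟨r', h5, h6, h7⟩ := hR r
        refine ⟨r', h5, h6, ?_⟩
        rw [huv]
        intro h8
        exact h7 (Finset.mem_of_mem_erase h8))
      have hN : (uv D').card + 1 = (uv D).card := by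
        rw [huv, Finset.card_erase_of_mem hvD]
        have : 0 < (uv D).card := Finset.card_pos.2 ⟨v, hvD⟩
        omega
      have mem' : ∀ x, x ∈ uv D → x ≠ v → x ∈ uv D' := by
        intro x hx hxv
        rw [huv]
        exact Finset.mem_erase.2 ⟨hxv, hx⟩
      have mem'' : ∀ x, x ∈ uv D' → x ∈ uv D ∧ x ≠ v := by
        intro x hx
        rw [huv, Finset.mem_erase] at hx
        exact ⟨hx.2, hx.1⟩
      refine ⟨fun x => if x = v then (uv D').card else rk x, ?_, ?_, ?_, ?_, ?_, ?_⟩
      · intro x hx y hy hxy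
        by_cases hxv : x = v <;> by_cases hyv : y = v
        · rw [hxv, hyv]
        · simp only [hxv, hyv, if_true, if_false] at hxy
          have := hlt y (mem' y hy hyv)
          omega
        · simp only [hxv, hyv, if_true, if_false] at hxy
          have := hlt x (mem' x hx hxv)
          omega
        · simp only [hxv, hyv, if_false] at hxy
          exact hinj x (mem' x hx hxv) y (mem' y hy hyv) hxy
      · intro x hx
        by_cases hxv : x = v
        · simp only [hxv, if_true]; omega
        · simp only [hxv, if_false]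
          have := hlt x (mem' x hx hxv)
          omega
      · simp only [hv0.symm, if_false]; exact hr0
      · simp only [hv1.symm, if_false]; exact hr1
      · intro x hx hx0 hx1
        by_cases hxv : x = v
        · subst hxv
          obtain ⟨e, he, hxe⟩ := mem_vx.1 hv
          obtain ⟨e', he', hxe', hne⟩ := exists_other hS.irr.cyc he hxe
          have hother : ∀ e ∈ bdry D, x ∈ e → ∃ a ∈ uv D, a ≠ x ∧ e = {x, a} := by
            intro e he hxe
            obtain ⟨p, q, hpq, rfl⟩ := Finset.card_eq_two.1 (hS.irr.cyc.1 e he)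
            have hp : p ∈ uv D := vx_uv (T := T) (mem_vx.2 ⟨_, he, by simp⟩)
            have hq : q ∈ uv D := vx_uv (T := T) (mem_vx.2 ⟨_, he, by simp⟩)
            simp only [Finset.mem_insert, Finset.mem_singleton] at hxe
            rcases hxe with rfl | rfl
            · exact ⟨q, hq, hpq.symm, rfl⟩
            · exact ⟨p, hp, hpq, Finset.pair_comm _ _⟩
          obtain ⟨a, haD, hax, rfl⟩ := hother e he hxe
          obtain ⟨b, hbD, hbx, rfl⟩ := hother e' he' hxe'
          refine ⟨a, haD, b, hbD, ?_, bdry_subset_edges hS.sub he, bdry_subset_edges hS.sub he',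
            ?_, ?_⟩
          · rintro rfl
            exact hne rfl
          · simp only [hax, if_false, if_true]
            exact hlt a (mem' a haD hax)
          · simp only [hbx, if_false, if_true]
            exact hlt b (mem' b hbD hbx)
        · obtain ⟨y, hy, z, hz, hyz, hey, hez, hry, hrz⟩ := hlow x (mem' x hx hxv) hx0 hx1
          refine ⟨y, (mem'' y hy).1, z, (mem'' z hz).1, hyz, hey, hez, ?_, ?_⟩
          · simp only [(mem'' y hy).2, hxv, if_false]; exact hry
          · simp only [(mem'' z hz).2, hxv, if_false]; exact hrz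
      · intro x hx hx0 hx1
        by_cases hxv : x = v
        · subst hxv
          exact ⟨r, r', hrr, her, her', fun h' => absurd h' hr, fun h' => absurd h' hr'⟩
        · obtain ⟨y, z, hyz, hey, hez, hry, hrz⟩ := hup x (mem' x hx hxv) hx0 hx1
          have hxlt := hlt x (mem' x hx hxv)
          refine ⟨y, z, hyz, hey, hez, ?_, ?_⟩
          · intro hy
            by_cases hyv : y = v
            · simp only [hyv, hxv, if_false, if_true]; exact hxlt
            · simp only [hyv, hxv, if_false]
              exact hry (mem' y hy hyv)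
          · intro hz
            by_cases hzv : z = v
            · simp only [hzv, hxv, if_false, if_true]; exact hxlt
            · simp only [hzv, hxv, if_false]
              exact hrz (mem' z hz hzv)
    · obtain ⟨t, ht, het⟩ := in_tri hS.hb
      have hpos : 0 < D.card := Finset.card_pos.2 ⟨t, ht⟩
      have hDt : D = {t} := by
        obtain ⟨s, hs⟩ := Finset.card_eq_one.1 (show D.card = 1 by omega)
        rw [hs, Finset.mem_singleton] at ht
        rw [hs, ht]
      have h3 := h.card3 t (hS.sub ht)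
      obtain ⟨v, hv⟩ : (t \ {u0, u1}).Nonempty := by
        rw [← Finset.card_pos, Finset.card_sdiff_of_subset het, h3, Finset.card_pair h01]
        norm_num
      rw [Finset.mem_sdiff] at hv
      have hv2 := hv.2
      simp only [Finset.mem_insert, Finset.mem_singleton, not_or] at hv2
      have htv : t = insert v {u0, u1} := tri_eq h3 (Finset.card_pair h01) het hv.1 hv.2
      have huvD : uv D = {v, u0, u1} := by
        ext x
        rw [mem_uv, ← htv]
        constructor
        · rintro ⟨s, hs⟩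
          rw [mem_star, hDt, Finset.mem_singleton] at hs
          rw [← hs.1]; exact hs.2
        · intro hx
          exact ⟨t, mem_star.2 ⟨ht, hx⟩⟩
      have hcard3 : (uv D).card = 3 := by rw [huvD, ← htv]; exact h3
      have hvT : v ∈ uv T := mem_uv_of_mem (hS.sub ht) hv.1
      refine ⟨fun x => if x = u0 then 0 else if x = u1 then 1 else 2, ?_, ?_, ?_, ?_, ?_, ?_⟩
      · intro x hx y hy hxy
        have hk : ∀ x ∈ uv D, x = v ∨ x = u0 ∨ x = u1 := by
          intro x hx
          rw [huvD] at hx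
          simpa only [Finset.mem_insert, Finset.mem_singleton] using hx
        have e0 : (fun x : V => if x = u0 then 0 else if x = u1 then 1 else 2) u0 = 0 := by simp
        have e1 : (fun x : V => if x = u0 then 0 else if x = u1 then 1 else 2) u1 = 1 := by
          simp [h01.symm]
        have e2 : (fun x : V => if x = u0 then 0 else if x = u1 then 1 else 2) v = 2 := by
          simp [hv2.1, hv2.2]
        generalize (fun x : V => if x = u0 then 0 else if x = u1 then 1 else 2) = G at *
        rcases hk x hx with rfl | rfl | rfl <;> rcases hk y hy with hy' | hy' | hy' <;>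
          first
            | exact hy'.symm
            | (exfalso; rw [hy'] at hxy; omega)
      · intro x hx
        rw [hcard3]
        by_cases hx0 : x = u0
        · simp [hx0]
        · by_cases hx1 : x = u1
          · simp [hx1, h01.symm]
          · simp [hx0, hx1]
      · simp
      · simp [h01.symm]
      · intro x hx hx0 hx1
        rw [huvD] at hx
        simp only [Finset.mem_insert, Finset.mem_singleton] at hx
        have hxv : x = v := by tauto
        subst hxv
        refine ⟨u0, ?_, u1, ?_, h01, ?_, ?_, ?_, ?_⟩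
        · rw [huvD]; simp
        · rw [huvD]; simp
        · exact edge_of_tri (hS.sub ht) hx0 hv.1 (het (by simp))
        · exact edge_of_tri (hS.sub ht) hx1 hv.1 (het (by simp))
        · simp [hx0, hx1]
        · simp [hx0, hx1, h01.symm]
      · intro x hx hx0 hx1
        rw [huvD] at hx
        simp only [Finset.mem_insert, Finset.mem_singleton] at hx
        have hxv : x = v := by tauto
        subst hxv
        obtain ⟨y, z, hyz, hyA, hzA, hey, hez⟩ := h.two_nb hF h4 hvT {u0, u1} Finset.card_le_two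
        refine ⟨y, z, hyz, hey, hez, ?_, ?_⟩
        · intro hy
          exfalso
          rw [huvD, Finset.mem_insert] at hy
          rcases hy with hy | hy
          · exact edge_ne hey hy.symm
          · exact hyA hy
        · intro hz
          exfalso
          rw [huvD, Finset.mem_insert] at hz
          rcases hz with hz | hz
          · exact edge_ne hez hz.symm
          · exact hzA hz

/-- existence of canonical orderings, the last two vertices are any two vertices of the face -/
theorem canon_top {T : Finset (Finset V)} (h : Sph T) (hF : Fac3 T) (h4 : 4 < T.card)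
    {F₀ : Finset V} (hF₀ : F₀ ∈ T) {f0 f1 : V} (hf0 : f0 ∈ F₀) (hf1 : f1 ∈ F₀)
    (h01' : f0 ≠ f1) : ∃ rk : V → ℕ, Can T F₀ rk ∧ rk f0 + 1 = (uv T).card ∧
      rk f1 + 2 = (uv T).card := by
  classical
  obtain ⟨f2, h02', h12', hF0⟩ : ∃ f2, f0 ≠ f2 ∧ f1 ≠ f2 ∧ F₀ = {f0, f1, f2} := by
    have h3 := h.card3 F₀ hF₀
    have hsub : ({f0, f1} : Finset V) ⊆ F₀ := by
      intro z hz
      simp only [Finset.mem_insert, Finset.mem_singleton] at hz
      rcases hz with rfl | rfl
      · exact hf0
      · exact hf1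
    obtain ⟨f2, hf2⟩ : (F₀ \ {f0, f1}).Nonempty := by
      rw [← Finset.card_pos, Finset.card_sdiff_of_subset hsub, h3, Finset.card_pair h01']
      norm_num
    rw [Finset.mem_sdiff, Finset.mem_insert, Finset.mem_singleton, not_or] at hf2
    refine ⟨f2, fun h' => hf2.2.1 h'.symm, fun h' => hf2.2.2 h'.symm, ?_⟩
    symm
    apply Finset.eq_of_subset_of_card_le
    · intro z hz
      simp only [Finset.mem_insert, Finset.mem_singleton] at hz
      rcases hz with rfl | rfl | rfl
      · exact hf0
      · exact hf1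
      · exact hf2.1
    · rw [h3, Finset.card_eq_three.2 ⟨f0, f1, f2, h01', fun h' => hf2.2.1 h'.symm,
        fun h' => hf2.2.2 h'.symm, rfl⟩]
  have hf0T : f0 ∈ uv T := mem_uv_of_mem hF₀ (by rw [hF0]; simp)
  have hf1T : f1 ∈ uv T := mem_uv_of_mem hF₀ (by rw [hF0]; simp)
  have hf2T : f2 ∈ uv T := mem_uv_of_mem hF₀ (by rw [hF0]; simp)
  have e01 : ({f0, f1} : Finset V) ∈ edges T :=
    edge_of_tri hF₀ h01' (by rw [hF0]; simp) (by rw [hF0]; simp)
  have e02 : ({f0, f2} : Finset V) ∈ edges T :=
    edge_of_tri hF₀ h02' (by rw [hF0]; simp) (by rw [hF0]; simp)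
  have hst3 : ∀ t ∈ star T f0, t.card = 3 := fun t ht => h.card3 t (mem_star.1 ht).1
  have hstv : ∀ t ∈ star T f0, f0 ∈ t := fun t ht => (mem_star.1 ht).2
  have hstsub : star T f0 ⊆ T := fun t ht => (mem_star.1 ht).1
  have hI0 := h.link_irr (mem_uv.1 hf0T)
  have hdeg0 := h.four_le hF h4 (mem_uv.1 hf0T)
  have hlk : ∀ e : Finset V, e.card = 2 → f0 ∉ e → (e ∈ bdry (star T f0) ↔ insert f0 e ∈ T) := by
    intro e he hfe
    rw [bdry_at hst3 hstv he hfe, mem_star]
    exact ⟨fun h' => h'.1, fun h' => ⟨h', Finset.mem_insert_self _ _⟩⟩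
  have hf1v : f1 ∈ vx (bdry (star T f0)) := by
    refine mem_vx.2 ⟨{f1, f2}, ?_, by simp⟩
    rw [hlk _ (Finset.card_pair h12') (by simp [h01', h02'])]
    rw [← hF0]
    exact hF₀
  -- an edge of the link without `f1`
  obtain ⟨e, he, hfe⟩ : ∃ e ∈ bdry (star T f0), f1 ∉ e := by
    by_contra hcon
    push Not at hcon
    have h5 := hI0.deg2 hf1v
    have h6 : (bdry (star T f0)).filter (fun e => f1 ∈ e) = bdry (star T f0) :=
      Finset.filter_true_of_mem hcon
    unfold vdeg at h5
    rw [h6, h.star_of_bdry f0] at h5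
    omega
  obtain ⟨u0, u1, h01, rfl⟩ := Finset.card_eq_two.1 (hI0.cyc.1 e he)
  simp only [Finset.mem_insert, Finset.mem_singleton, not_or] at hfe
  obtain ⟨D0, hD0⟩ : ∃ D0, D0 = T \ star T f0 := ⟨_, rfl⟩
  have hb0 : bdry D0 = bdry (star T f0) := by rw [hD0, h.bdry_compl hstsub]
  have memD0 : ∀ t, t ∈ D0 ↔ t ∈ T ∧ f0 ∉ t := by
    intro t
    rw [hD0, Finset.mem_sdiff, mem_star]
    tauto
  have huv0 : uv D0 = (uv T).erase f0 := by
    ext x
    rw [Finset.mem_erase]
    constructor
    · intro hx
      obtain ⟨t, ht⟩ := mem_uv.1 hx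
      rw [mem_star, memD0] at ht
      refine ⟨?_, mem_uv_of_mem ht.1.1 ht.2⟩
      rintro rfl
      exact ht.1.2 ht.2
    · rintro ⟨hxf, hx⟩
      obtain ⟨t, ht, hxt, hft⟩ := h.vdeg_ge hx f0 hxf
      exact mem_uv_of_mem ((memD0 t).2 ⟨ht, hft⟩) hxt
  have hS0 : Sta T D0 u0 u1 := by
    refine ⟨fun t ht => ((memD0 t).1 ht).1, by rw [hb0]; exact hI0, by rw [hb0]; exact he, ?_,
      ⟨f0, hf0T, ?_⟩⟩
    · intro e' he' heu
      have hfe' : f0 ∉ e' := by
        intro h'
        have := heu h'
        rw [huv0] at this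
        simp at this
      have hc := (mem_edges.1 he').1
      obtain ⟨t1, ht1, t2, ht2, h12, het1, het2, -⟩ := h.two_tri he'
      rw [mem_edges]
      refine ⟨hc, ?_⟩
      by_cases hv1 : f0 ∈ t1
      · refine ⟨t2, (memD0 t2).2 ⟨ht2, ?_⟩, het2⟩
        intro hv2
        apply h12
        rw [tri_eq (h.card3 t1 ht1) hc het1 hv1 hfe', tri_eq (h.card3 t2 ht2) hc het2 hv2 hfe']
      · exact ⟨t1, (memD0 t1).2 ⟨ht1, hv1⟩, het1⟩
    · rw [huv0]; simp
  have hc1 : Chl D0 f1 := by
    intro w hw hwv
    rw [hb0] at hwv ⊢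
    have hwE := edges_mono hS0.sub hw
    have hf1w : f1 ≠ w := edge_ne hw
    obtain ⟨e', he', hwe'⟩ := mem_vx.1 hwv
    have hfe' : f0 ∉ e' := by
      intro h'
      obtain ⟨t, ht, het⟩ := in_tri (hb0 ▸ he' : e' ∈ bdry D0)
      exact ((memD0 t).1 ht).2 (het h')
    have hT := (hlk e' (hI0.cyc.1 e' he') hfe').1 he'
    have hf0w : f0 ≠ w := fun h' => hfe' (h' ▸ hwe')
    have e0w : ({f0, w} : Finset V) ∈ edges T := edge_of_tri hT hf0w (by simp)
      (Finset.mem_insert_of_mem hwe')
    have htri := hF f0 f1 w h01' hf1w hf0w e01 hwE e0w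
    rw [hlk _ (Finset.card_pair hf1w) (by simp [h01', hf0w])]
    exact htri
  have hD0c : 2 ≤ D0.card := by
    by_contra hcon
    obtain ⟨t, ht, -⟩ := in_tri hS0.hb
    have hpos : 0 < D0.card := Finset.card_pos.2 ⟨t, ht⟩
    obtain ⟨s, hs⟩ := Finset.card_eq_one.1 (show D0.card = 1 by omega)
    have hsT : s ∈ D0 := by rw [hs]; simp
    have h3 := h.card3 s ((memD0 s).1 hsT).1
    have h5 : bdry D0 ⊆ s.powersetCard 2 := by
      intro e' he'
      rw [hs, mem_bdry_single h3] at he'
      rw [Finset.mem_powersetCard]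
      exact ⟨he'.2, he'.1⟩
    have h6 := Finset.card_le_card h5
    rw [Finset.card_powersetCard, h3, hb0, h.star_of_bdry f0] at h6
    have : Nat.choose 3 2 = 3 := rfl
    omega
  obtain ⟨hS1, huv1⟩ := hS0.remove h (by rw [hb0]; exact hf1v) hc1 hfe.1 hfe.2 hD0c
  obtain ⟨D1, hD1⟩ : ∃ D1, D1 = D0.filter (fun t => f1 ∉ t) := ⟨_, rfl⟩
  rw [← hD1] at hS1 huv1
  have memU : ∀ x, x ∈ uv D1 ↔ x ∈ uv T ∧ x ≠ f0 ∧ x ≠ f1 := by
    intro x
    rw [huv1, Finset.mem_erase, huv0, Finset.mem_erase]
    tauto
  have hN : (uv D1).card + 2 = (uv T).card := by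
    have h5 : f1 ∈ uv D0 := by rw [huv0]; exact Finset.mem_erase.2 ⟨h01'.symm, hf1T⟩
    have h6 : 0 < (uv D0).card := Finset.card_pos.2 ⟨f1, h5⟩
    have h7 : 0 < (uv T).card := Finset.card_pos.2 ⟨f0, hf0T⟩
    have h8 : (uv D0).card = (uv T).card - 1 := by rw [huv0, Finset.card_erase_of_mem hf0T]
    rw [huv1, Finset.card_erase_of_mem h5]
    omega
  obtain ⟨rk, hinj, hlt, hr0, hr1, hlow, hup⟩ := Sta.order h hF h4 h01 _ D1 le_rfl hS1 (by
    intro r
    by_cases hr : f0 = r
    · refine ⟨f1, by rw [← hr]; exact h01'.symm, hf1T, ?_⟩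
      rw [memU]; tauto
    · refine ⟨f0, hr, hf0T, ?_⟩
      rw [memU]; tauto)
  have hu0D : u0 ∈ uv D1 := vx_uv (T := T) (mem_vx.2 ⟨_, hS1.hb, by simp⟩)
  have hu1D : u1 ∈ uv D1 := vx_uv (T := T) (mem_vx.2 ⟨_, hS1.hb, by simp⟩)
  have hu0T := (memU u0).1 hu0D
  have hu1T := (memU u1).1 hu1D
  obtain ⟨R, hR⟩ : ∃ R : V → ℕ, R = fun x => if x = f0 then (uv D1).card + 1 else
    if x = f1 then (uv D1).card else rk x := ⟨_, rfl⟩
  have R0 : R f0 = (uv D1).card + 1 := by rw [hR]; simp
  have R1 : R f1 = (uv D1).card := by rw [hR]; simp [h01'.symm]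
  have RD : ∀ x ∈ uv D1, R x = rk x := by
    intro x hx
    have := (memU x).1 hx
    rw [hR]
    simp [this.2.1, this.2.2]
  have Rlt : ∀ x ∈ uv D1, R x < (uv D1).card := by
    intro x hx
    rw [RD x hx]
    exact hlt x hx
  have cases3 : ∀ x ∈ uv T, x = f0 ∨ x = f1 ∨ x ∈ uv D1 := by
    intro x hx
    by_cases h5 : x = f0
    · exact Or.inl h5
    · by_cases h6 : x = f1
      · exact Or.inr (Or.inl h6)
      · exact Or.inr (Or.inr ((memU x).2 ⟨hx, h5, h6⟩))
  have nbT : ∀ {x y : V}, ({x, y} : Finset V) ∈ edges T → y ∈ uv T := by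
    intro x y hxy
    obtain ⟨-, t, ht, het⟩ := mem_edges.1 hxy
    exact mem_uv_of_mem ht (het (by simp))
  refine ⟨R, ⟨?_, ?_, ?_, ?_, ?_, ?_⟩, by rw [R0]; omega, by rw [R1]; omega⟩
  · intro x hx y hy hxy
    rcases cases3 x hx with rfl | rfl | hx' <;> rcases cases3 y hy with rfl | rfl | hy'
    · rfl
    · rw [R0, R1] at hxy; omega
    · have := Rlt y hy'; rw [R0] at hxy; omega
    · rw [R0, R1] at hxy; omega
    · rfl
    · have := Rlt y hy'; rw [R1] at hxy; omega
    · have := Rlt x hx'; rw [R0] at hxy; omega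
    · have := Rlt x hx'; rw [R1] at hxy; omega
    · rw [RD x hx', RD y hy'] at hxy
      exact hinj x hx' y hy' hxy
  · intro x hx
    rcases cases3 x hx with rfl | rfl | hx'
    · rw [R0]; omega
    · rw [R1]; omega
    · have := Rlt x hx'; omega
  · intro x hx h2
    rcases cases3 x hx with rfl | rfl | hx'
    · obtain ⟨y, z, hyz, hyA, hzA, hey, hez⟩ := h.two_nb hF h4 hx ∅ (by simp)
      refine ⟨y, z, hyz, hey, hez, ?_, ?_⟩
      · rcases cases3 y (nbT hey) with rfl | rfl | hy'
        · exact absurd rfl (edge_ne hey)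
        · rw [R0, R1]; omega
        · have := Rlt y hy'; rw [R0]; omega
      · rcases cases3 z (nbT hez) with rfl | rfl | hz'
        · exact absurd rfl (edge_ne hez)
        · rw [R0, R1]; omega
        · have := Rlt z hz'; rw [R0]; omega
    · obtain ⟨y, z, hyz, hyA, hzA, hey, hez⟩ := h.two_nb hF h4 hx {f0} (by simp)
      rw [Finset.mem_singleton] at hyA hzA
      refine ⟨y, z, hyz, hey, hez, ?_, ?_⟩
      · rcases cases3 y (nbT hey) with h5 | h5 | hy'
        · exact absurd h5 hyA
        · exact absurd h5.symm (edge_ne hey)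
        · have := Rlt y hy'; rw [R1]; omega
      · rcases cases3 z (nbT hez) with h5 | h5 | hz'
        · exact absurd h5 hzA
        · exact absurd h5.symm (edge_ne hez)
        · have := Rlt z hz'; rw [R1]; omega
    · rw [RD x hx'] at h2
      obtain ⟨y, hy, z, hz, hyz, hey, hez, hry, hrz⟩ := hlow x hx' (by rintro rfl; omega)
        (by rintro rfl; omega)
      refine ⟨y, z, hyz, hey, hez, ?_, ?_⟩
      · rw [RD x hx', RD y hy]; exact hry
      · rw [RD x hx', RD z hz]; exact hrz
  · intro x hx h3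
    rcases cases3 x hx with rfl | rfl | hx'
    · rw [R0] at h3; omega
    · rw [R1] at h3; omega
    · have hxl := Rlt x hx'
      by_cases hx0 : x = u0
      · subst hx0
        obtain ⟨y, z, hyz, hyA, hzA, hey, hez⟩ := h.two_nb hF h4 hx ∅ (by simp)
        have key : ∀ y, ({x, y} : Finset V) ∈ edges T → R x < R y := by
          intro y hey
          rcases cases3 y (nbT hey) with rfl | rfl | hy'
          · rw [R0]; omega
          · rw [R1]; omega
          · rw [RD x hx', RD y hy', hr0]
            by_contra hcon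
            exact edge_ne hey (hinj x hx' y hy' (by omega))
        exact ⟨y, z, hyz, hey, hez, key y hey, key z hez⟩
      · by_cases hx1 : x = u1
        · subst hx1
          obtain ⟨y, z, hyz, hyA, hzA, hey, hez⟩ := h.two_nb hF h4 hx {u0} (by simp)
          rw [Finset.mem_singleton] at hyA hzA
          have key : ∀ y, y ≠ u0 → ({x, y} : Finset V) ∈ edges T → R x < R y := by
            intro y hy0 hey
            rcases cases3 y (nbT hey) with rfl | rfl | hy'
            · rw [R0]; omega
            · rw [R1]; omega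
            · rw [RD x hx', RD y hy', hr1]
              by_contra hcon
              have h5 : rk y = 0 ∨ rk y = 1 := by omega
              rcases h5 with h5 | h5
              · exact hy0 (hinj y hy' u0 hu0D (by omega))
              · exact edge_ne hey (hinj x hx' y hy' (by omega))
          exact ⟨y, z, hyz, hey, hez, key y hyA hey, key z hzA hez⟩
        · obtain ⟨y, z, hyz, hey, hez, hry, hrz⟩ := hup x hx' hx0 hx1
          have key : ∀ y, (y ∈ uv D1 → rk x < rk y) → ({x, y} : Finset V) ∈ edges T →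
              R x < R y := by
            intro y hry hey
            rcases cases3 y (nbT hey) with rfl | rfl | hy'
            · rw [R0]; omega
            · rw [R1]; omega
            · rw [RD x hx', RD y hy']; exact hry hy'
          exact ⟨y, z, hyz, hey, hez, key y hry hey, key z hrz hez⟩
  · intro x hx y hy h5 h6
    have hxu : x = u0 := by
      rcases cases3 x hx with rfl | rfl | hx'
      · rw [R0] at h5; omega
      · rw [R1] at h5
        have := Rlt u0 hu0D
        omega
      · rw [RD x hx'] at h5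
        exact hinj x hx' u0 hu0D (by omega)
    have hyu : y = u1 := by
      rcases cases3 y hy with rfl | rfl | hy'
      · rw [R0] at h6
        have := Rlt u0 hu0D
        omega
      · rw [R1] at h6
        have := Rlt u1 hu1D
        rw [RD u1 hu1D] at this
        omega
      · rw [RD y hy'] at h6
        exact hinj y hy' u1 hu1D (by omega)
    rw [hxu, hyu]
    exact bdry_subset_edges hS1.sub hS1.hb
  · intro x hx h5
    rcases cases3 x hx with rfl | rfl | hx'
    · rw [hF0]; simp
    · rw [hF0]; simp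
    · have := Rlt x hx'
      omega

/-- existence of canonical orderings -/
theorem canon {T : Finset (Finset V)} (h : Sph T) (hF : Fac3 T) (h4 : 4 < T.card)
    {F₀ : Finset V} (hF₀ : F₀ ∈ T) : ∃ rk : V → ℕ, Can T F₀ rk := by
  obtain ⟨f0, f1, f2, h01', -, -, hF0⟩ := Finset.card_eq_three.1 (h.card3 F₀ hF₀)
  obtain ⟨rk, hrk, -, -⟩ := canon_top h hF h4 hF₀ (f0 := f0) (f1 := f1) (by rw [hF0]; simp)
    (by rw [hF0]; simp) h01'
  exact ⟨rk, hrk⟩

end Pool.Agent.Spl2
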