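import Pool.Agent.Spl2.SphOrdD

/-!
# Canonical orderings, part E: mixed link edges

`mx C A`: the edges of `C` with exactly one end in `A`.  In a canonical ordering the link cycle of every
vertex except the first and the last has exactly two edges which join a smaller to a larger vertex.
-/

set_option autoImplicit false

namespace Pool.Agent.Spl2

open Finset Pool.Agent.Spl1

variable {V : Type*} [Fintype V] [DecidableEq V]

theorem Sph.mem_link {T : Finset (Finset V)} (h : Sph T) {x : V} {e : Finset V} :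
    e ∈ bdry (star T x) ↔ e.card = 2 ∧ x ∉ e ∧ insert x e ∈ T := by
  have hst3 : ∀ t ∈ star T x, t.card = 3 := fun t ht => h.card3 t (mem_star.1 ht).1
  have hstv : ∀ t ∈ star T x, x ∈ t := fun t ht => (mem_star.1 ht).2
  constructor
  · intro he
    have hc := (mem_bdry.1 he).1
    have hx : x ∉ e := by
      intro hx
      rw [mem_bdry, tdeg_star_in (S := ∅) hx] at he
      have h5 : e ∈ bdry T := mem_bdry.2 he
      rw [h.bdry_self] at h5
      simp at h5
    rw [bdry_at hst3 hstv hc hx, mem_star] at he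
    exact ⟨hc, hx, he.1⟩
  · rintro ⟨hc, hx, ht⟩
    rw [bdry_at hst3 hstv hc hx, mem_star]
    exact ⟨ht, Finset.mem_insert_self _ _⟩

theorem Sph.mem_link2 {T : Finset (Finset V)} (h : Sph T) {x y z : V} :
    ({y, z} : Finset V) ∈ bdry (star T x) ↔ y ≠ z ∧ x ≠ y ∧ x ≠ z ∧ ({x, y, z} : Finset V) ∈ T := by
  rw [h.mem_link]
  constructor
  · rintro ⟨h1, h2, h3⟩
    simp only [Finset.mem_insert, Finset.mem_singleton, not_or] at h2
    refine ⟨?_, h2.1, h2.2, h3⟩
    rintro rfl
    simp at h1
  · rintro ⟨h1, h2, h3, h4⟩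
    exact ⟨Finset.card_pair h1, by simp [h2, h3], h4⟩

theorem Sph.mem_vx_link {T : Finset (Finset V)} (h : Sph T) {x y : V} :
    y ∈ vx (bdry (star T x)) ↔ ({x, y} : Finset V) ∈ edges T := by
  rw [mem_vx]
  constructor
  · rintro ⟨e, he, hye⟩
    rw [h.mem_link] at he
    exact edge_of_tri he.2.2 (fun h' => he.2.1 (h' ▸ hye)) (by simp)
      (Finset.mem_insert_of_mem hye)
  · intro he
    have hxy := edge_ne he
    obtain ⟨-, t, ht, het⟩ := mem_edges.1 he
    have hxt : x ∈ t := het (by simp)
    have hyt : y ∈ t := het (by simp)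
    refine ⟨t.erase x, ?_, Finset.mem_erase.2 ⟨hxy.symm, hyt⟩⟩
    rw [h.mem_link, Finset.insert_erase hxt]
    refine ⟨?_, by simp, ht⟩
    rw [Finset.card_erase_of_mem hxt, h.card3 t ht]

/-- the edges with exactly one end in `A` -/
def mx (C : Finset (Finset V)) (A : Finset V) : Finset (Finset V) :=
  C.filter (fun e => (e ∩ A).card = 1)

theorem pair_inter {A : Finset V} {a b : V} (hab : a ≠ b) :
    (({a, b} : Finset V) ∩ A).card = (if a ∈ A then 1 else 0) + (if b ∈ A then 1 else 0) := by
  by_cases ha : a ∈ A <;> by_cases hb : b ∈ A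
  · have : ({a, b} : Finset V) ∩ A = {a, b} := by
      apply Finset.inter_eq_left.2
      intro z hz
      simp only [Finset.mem_insert, Finset.mem_singleton] at hz
      rcases hz with rfl | rfl
      · exact ha
      · exact hb
    rw [this, Finset.card_pair hab]; simp [ha, hb]
  · have : ({a, b} : Finset V) ∩ A = {a} := by
      ext z
      simp only [Finset.mem_insert, Finset.mem_singleton, Finset.mem_inter]
      constructor
      · rintro ⟨rfl | rfl, h2⟩
        · rfl
        · exact absurd h2 hb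
      · rintro rfl
        exact ⟨Or.inl rfl, ha⟩
    rw [this]; simp [ha, hb]
  · have : ({a, b} : Finset V) ∩ A = {b} := by
      ext z
      simp only [Finset.mem_insert, Finset.mem_singleton, Finset.mem_inter]
      constructor
      · rintro ⟨rfl | rfl, h2⟩
        · exact absurd h2 ha
        · rfl
      · rintro rfl
        exact ⟨Or.inr rfl, hb⟩
    rw [this]; simp [ha, hb]
  · have : ({a, b} : Finset V) ∩ A = ∅ := by
      ext z
      simp only [Finset.mem_insert, Finset.mem_singleton, Finset.mem_inter, Finset.notMem_empty,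
        iff_false]
      rintro ⟨rfl | rfl, h2⟩
      · exact ha h2
      · exact hb h2
    rw [this]; simp [ha, hb]

theorem mem_mx_pair {C : Finset (Finset V)} {A : Finset V} {a b : V} (hab : a ≠ b) :
    ({a, b} : Finset V) ∈ mx C A ↔ ({a, b} : Finset V) ∈ C ∧ ¬ (a ∈ A ↔ b ∈ A) := by
  unfold mx
  rw [Finset.mem_filter, pair_inter hab]
  by_cases ha : a ∈ A <;> by_cases hb : b ∈ A <;> simp [ha, hb]

theorem mem_mx {C : Finset (Finset V)} (h2 : ∀ e ∈ C, e.card = 2) {A : Finset V} {e : Finset V} :
    e ∈ mx C A ↔ e ∈ C ∧ ∃ a b, a ∈ A ∧ b ∉ A ∧ e = {a, b} := by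
  constructor
  · intro he
    have heC : e ∈ C := (Finset.mem_filter.1 he).1
    obtain ⟨a, b, hab, rfl⟩ := Finset.card_eq_two.1 (h2 e heC)
    rw [mem_mx_pair hab] at he
    refine ⟨heC, ?_⟩
    by_cases ha : a ∈ A <;> by_cases hb : b ∈ A
    · exact absurd (by simp [ha, hb]) he.2
    · exact ⟨a, b, ha, hb, rfl⟩
    · exact ⟨b, a, hb, ha, Finset.pair_comm _ _⟩
    · exact absurd (by simp [ha, hb]) he.2
  · rintro ⟨heC, a, b, ha, hb, rfl⟩
    rw [mem_mx_pair (by rintro rfl; exact hb ha)]
    exact ⟨heC, by simp [ha, hb]⟩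

theorem mx_even {C : Finset (Finset V)} (h : IsCyc C) (A : Finset V) : Even (mx C A).card := by
  have h1 : ∑ v ∈ A, vdeg C v = ∑ e ∈ C, (e ∩ A).card := by
    unfold vdeg
    simp_rw [Finset.card_filter]
    rw [Finset.sum_comm]
    apply Finset.sum_congr rfl
    intro e _
    rw [← Finset.card_filter]
    congr 1
    ext x
    rw [Finset.mem_filter, Finset.mem_inter]
    tauto
  have h2 : Even (∑ e ∈ C, (e ∩ A).card) := by
    rw [← h1]
    exact Finset.even_sum _ (fun v _ => h.2 v)
  rw [Finset.even_sum_iff_even_card_odd] at h2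
  have h3 : mx C A = C.filter (fun e => Odd ((e ∩ A).card)) := by
    unfold mx
    apply Finset.filter_congr
    intro e he
    have h4 := h.1 e he
    have h5 := Finset.card_le_card (Finset.inter_subset_left : e ∩ A ⊆ e)
    constructor
    · intro h6; rw [h6]; exact odd_one
    · rintro ⟨k, hk⟩; omega
  rw [h3]
  exact h2

theorem Irr.mx_ne {C : Finset (Finset V)} (h : Irr C) {A : Finset V} {a b : V} (ha : a ∈ vx C)
    (haA : a ∈ A) (hb : b ∈ vx C) (hbA : b ∉ A) : (mx C A).Nonempty := by
  classical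
  by_contra hcon
  rw [Finset.not_nonempty_iff_eq_empty] at hcon
  have hall : ∀ e ∈ C, ∀ x ∈ e, x ∈ A → e ⊆ A := by
    intro e he x hx hxA y hy
    by_contra hyA
    have : e ∈ mx C A := by
      rw [mem_mx h.cyc.1]
      refine ⟨he, x, y, hxA, hyA, ?_⟩
      symm
      have hxy : x ≠ y := by rintro rfl; exact hyA hxA
      apply Finset.eq_of_subset_of_card_le
      · intro z hz
        simp only [Finset.mem_insert, Finset.mem_singleton] at hz
        rcases hz with rfl | rfl
        · exact hx
        · exact hy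
      · rw [Finset.card_pair hxy, h.cyc.1 e he]
    rw [hcon] at this
    simp at this
  have hC' : IsCyc (C.filter (fun e => e ⊆ A)) := by
    refine ⟨fun e he => h.cyc.1 e (Finset.mem_filter.1 he).1, ?_⟩
    intro v
    by_cases hv : v ∈ A
    · have : vdeg (C.filter (fun e => e ⊆ A)) v = vdeg C v := by
        unfold vdeg
        rw [Finset.filter_filter]
        congr 1
        apply Finset.filter_congr
        intro e he
        exact ⟨fun h' => h'.2, fun h' => ⟨hall e he v h' hv, h'⟩⟩
      rw [this]; exact h.cyc.2 v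
    · have : vdeg (C.filter (fun e => e ⊆ A)) v = 0 := by
        unfold vdeg
        rw [Finset.card_eq_zero, Finset.filter_eq_empty_iff]
        intro e he hve
        exact hv ((Finset.mem_filter.1 he).2 hve)
      rw [this]; exact Even.zero
  obtain ⟨ea, hea, haea⟩ := mem_vx.1 ha
  obtain ⟨eb, heb, hbeb⟩ := mem_vx.1 hb
  rcases h.irr _ (Finset.filter_subset _ _) hC' with h5 | h5
  · have : ea ∈ C.filter (fun e => e ⊆ A) := Finset.mem_filter.2 ⟨hea, hall ea hea a haea haA⟩
    rw [h5] at this
    simp at this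
  · rw [← h5, Finset.mem_filter] at heb
    exact hbA (heb.2 hbeb)

theorem Irr.two_le_mx {C : Finset (Finset V)} (h : Irr C) {A : Finset V} {a b : V} (ha : a ∈ vx C)
    (haA : a ∈ A) (hb : b ∈ vx C) (hbA : b ∉ A) : 2 ≤ (mx C A).card := by
  have h1 := Finset.card_pos.2 (h.mx_ne ha haA hb hbA)
  obtain ⟨k, hk⟩ := mx_even h.cyc A
  omega

theorem pair_inj {a b c : V} (h : ({a, b} : Finset V) = {a, c}) : b = c := by
  have h1 : b ∈ ({a, c} : Finset V) := by rw [← h]; simp
  have h2 : c ∈ ({a, b} : Finset V) := by rw [h]; simp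
  simp only [Finset.mem_insert, Finset.mem_singleton] at h1 h2
  rcases h1 with h1 | h1
  · rcases h2 with h2 | h2
    · rw [h1, h2]
    · exact h2.symm
  · exact h1

/-- if there are only two mixed edges, they do not meet in `A` when `A` has another vertex of `C` -/
theorem Irr.no_fan {C : Finset (Finset V)} (h : Irr C) {A : Finset V} (h2 : (mx C A).card ≤ 2)
    {w p q : V} (hpq : p ≠ q) (hwA : w ∈ A) (hp : p ∉ A) (hq : q ∉ A)
    (hwp : ({w, p} : Finset V) ∈ C) (hwq : ({w, q} : Finset V) ∈ C) {a : V} (ha : a ∈ vx C)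
    (haA : a ∈ A) (haw : a ≠ w) : False := by
  classical
  have wp : w ≠ p := by rintro rfl; exact hp hwA
  have wq : w ≠ q := by rintro rfl; exact hq hwA
  have hne : ({w, p} : Finset V) ≠ {w, q} := fun h' => hpq (pair_inj h')
  have m1 : ({w, p} : Finset V) ∈ mx C A := (mem_mx_pair wp).2 ⟨hwp, by simp [hwA, hp]⟩
  have m2 : ({w, q} : Finset V) ∈ mx C A := (mem_mx_pair wq).2 ⟨hwq, by simp [hwA, hq]⟩
  have hM : mx C A = {{w, p}, {w, q}} := by
    symm
    apply Finset.eq_of_subset_of_card_le
    · intro e he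
      simp only [Finset.mem_insert, Finset.mem_singleton] at he
      rcases he with rfl | rfl
      · exact m1
      · exact m2
    · rw [Finset.card_pair hne]; exact h2
  have hwv : w ∈ vx C := mem_vx.2 ⟨_, hwp, by simp⟩
  obtain ⟨e, he⟩ := h.mx_ne (A := A.erase w) ha (Finset.mem_erase.2 ⟨haw, haA⟩) hwv (by simp)
  rw [mem_mx h.cyc.1] at he
  obtain ⟨heC, u, v, hu, hv, rfl⟩ := he
  rw [Finset.mem_erase] at hu hv
  have huv : u ≠ v := by rintro rfl; exact hv hu
  by_cases hvw : v = w
  · subst hvw
    -- `{u, w}` is an edge at `w`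
    have hd := h.deg2 hwv
    have hsub : ({{v, p}, {v, q}} : Finset (Finset V)) ⊆ C.filter (fun e => v ∈ e) := by
      intro e he
      simp only [Finset.mem_insert, Finset.mem_singleton] at he
      rcases he with rfl | rfl
      · exact Finset.mem_filter.2 ⟨hwp, by simp⟩
      · exact Finset.mem_filter.2 ⟨hwq, by simp⟩
    have heq := Finset.eq_of_subset_of_card_le hsub (by
      rw [Finset.card_pair hne]; exact hd.le)
    have h5 : ({u, v} : Finset V) ∈ C.filter (fun e => v ∈ e) :=
      Finset.mem_filter.2 ⟨heC, by simp⟩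
    rw [← heq] at h5
    simp only [Finset.mem_insert, Finset.mem_singleton] at h5
    rw [Finset.pair_comm u v] at h5
    rcases h5 with h5 | h5
    · exact hp (pair_inj h5 ▸ hu.2)
    · exact hq (pair_inj h5 ▸ hu.2)
  · have hvA : v ∉ A := fun h' => hv ⟨hvw, h'⟩
    have h5 : ({u, v} : Finset V) ∈ mx C A := (mem_mx_pair huv).2 ⟨heC, by simp [hu.2, hvA]⟩
    rw [hM] at h5
    simp only [Finset.mem_insert, Finset.mem_singleton] at h5
    have hw' : w ∈ ({u, v} : Finset V) := by
      rcases h5 with h5 | h5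
      · rw [h5]; simp
      · rw [h5]; simp
    simp only [Finset.mem_insert, Finset.mem_singleton] at hw'
    rcases hw' with hw' | hw'
    · exact hu.1 hw'.symm
    · exact hvw hw'.symm

theorem mx_compl {C : Finset (Finset V)} (h2 : ∀ e ∈ C, e.card = 2) (A : Finset V) :
    mx C Aᶜ = mx C A := by
  ext e
  rw [mem_mx h2, mem_mx h2]
  constructor
  · rintro ⟨h, a, b, ha, hb, rfl⟩
    rw [Finset.mem_compl] at ha
    rw [Finset.mem_compl, not_not] at hb
    exact ⟨h, b, a, hb, ha, Finset.pair_comm _ _⟩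
  · rintro ⟨h, a, b, ha, hb, rfl⟩
    exact ⟨h, b, a, Finset.mem_compl.2 hb, by simpa using ha, Finset.pair_comm _ _⟩

/-- the same for the complement of `A` -/
theorem Irr.no_fan' {C : Finset (Finset V)} (h : Irr C) {A : Finset V} (h2 : (mx C A).card ≤ 2)
    {w p q : V} (hpq : p ≠ q) (hwA : w ∉ A) (hp : p ∈ A) (hq : q ∈ A)
    (hwp : ({w, p} : Finset V) ∈ C) (hwq : ({w, q} : Finset V) ∈ C) {a : V} (ha : a ∈ vx C)
    (haA : a ∉ A) (haw : a ≠ w) : False :=
  h.no_fan (A := Aᶜ) (by rw [mx_compl h.cyc.1]; exact h2) hpq (Finset.mem_compl.2 hwA)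
    (by simpa using hp) (by simpa using hq) hwp hwq ha (Finset.mem_compl.2 haA) haw

end Pool.Agent.Spl2
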