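import Pool.Agent.Spl2.SphOrdE

/-!
# Canonical orderings, part F: exactly two mixed link edges

Every triangle has exactly one middle vertex and `|T| = 2 N - 4`, so every vertex except the first and the last
has exactly two mixed link edges.
-/

set_option autoImplicit false

namespace Pool.Agent.Spl2

open Finset Pool.Agent.Spl1

variable {V : Type*} [Fintype V] [DecidableEq V]

/-- the smaller vertices -/
def lo (rk : V → ℕ) (x : V) : Finset V := univ.filter (fun y => rk y < rk x)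

theorem mem_lo {rk : V → ℕ} {x y : V} : y ∈ lo rk x ↔ rk y < rk x := by simp [lo]

theorem uv_of_edge {T : Finset (Finset V)} {x y : V} (h : ({x, y} : Finset V) ∈ edges T) :
    x ∈ uv T ∧ y ∈ uv T := by
  obtain ⟨-, t, ht, het⟩ := mem_edges.1 h
  exact ⟨mem_uv_of_mem ht (het (by simp)), mem_uv_of_mem ht (het (by simp))⟩

theorem Can.rk_ne {T : Finset (Finset V)} {F₀ : Finset V} {rk : V → ℕ} (hc : Can T F₀ rk)
    {x y : V} (h : ({x, y} : Finset V) ∈ edges T) : rk x ≠ rk y := fun h' =>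
  edge_ne h (hc.inj x (uv_of_edge h).1 y (uv_of_edge h).2 h')

theorem Can.surj {T : Finset (Finset V)} {F₀ : Finset V} {rk : V → ℕ} (hc : Can T F₀ rk) {r : ℕ}
    (hr : r < (uv T).card) : ∃ x ∈ uv T, rk x = r := by
  have h1 : (uv T).image rk = Finset.range (uv T).card := by
    apply Finset.eq_of_subset_of_card_le
    · intro y hy
      obtain ⟨x, hx, rfl⟩ := Finset.mem_image.1 hy
      exact Finset.mem_range.2 (hc.lt x hx)
    · rw [Finset.card_image_of_injOn (fun x hx y hy h => hc.inj x hx y hy h), Finset.card_range]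
  have h2 : r ∈ (uv T).image rk := by rw [h1]; exact Finset.mem_range.2 hr
  obtain ⟨x, hx, h3⟩ := Finset.mem_image.1 h2
  exact ⟨x, hx, h3⟩

/-- mixed link edges, as triangles -/
theorem Can.mem_mx {T : Finset (Finset V)} (h : Sph T) {F₀ : Finset V} {rk : V → ℕ}
    (hc : Can T F₀ rk) {x : V} {e : Finset V} (he : e ∈ mx (bdry (star T x)) (lo rk x)) :
    insert x e ∈ T ∧ x ∉ e ∧ ∃ a b, rk a < rk x ∧ rk x < rk b ∧ e = {a, b} := by
  have h2 : ∀ e ∈ bdry (star T x), e.card = 2 := fun e he => (h.mem_link.1 he).1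
  rw [Pool.Agent.Spl2.mem_mx h2] at he
  obtain ⟨heC, a, b, ha, hb, rfl⟩ := he
  obtain ⟨-, hx, hT⟩ := h.mem_link.1 heC
  refine ⟨hT, hx, a, b, mem_lo.1 ha, ?_, rfl⟩
  rw [mem_lo] at hb
  have hxb : ({x, b} : Finset V) ∈ edges T := edge_of_tri hT (by
    rintro rfl; simp at hx) (by simp) (by simp)
  have := hc.rk_ne hxb
  omega

theorem Can.sum_le {T : Finset (Finset V)} (h : Sph T) {F₀ : Finset V} {rk : V → ℕ}
    (hc : Can T F₀ rk) : ∑ x ∈ uv T, (mx (bdry (star T x)) (lo rk x)).card ≤ T.card := by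
  classical
  rw [← Finset.card_sigma]
  apply Finset.card_le_card_of_injOn (fun s => insert s.1 s.2)
  · rintro ⟨x, e⟩ hs
    rw [Finset.mem_coe, Finset.mem_sigma] at hs
    exact (hc.mem_mx h hs.2).1
  · rintro ⟨x, e⟩ hs ⟨y, f⟩ hs' heq
    rw [Finset.mem_coe, Finset.mem_sigma] at hs hs'
    obtain ⟨hT, hx, a, b, ha, hb, rfl⟩ := hc.mem_mx h hs.2
    obtain ⟨hT', hy, a', b', ha', hb', rfl⟩ := hc.mem_mx h hs'.2
    have heq' : (insert x {a, b} : Finset V) = insert y {a', b'} := heq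
    dsimp only at ha hb ha' hb' hx hy
    have hyx : y ∈ (insert x {a, b} : Finset V) := by rw [heq']; simp
    have hax : a' ∈ (insert x {a, b} : Finset V) := by rw [heq']; simp
    have hbx : b' ∈ (insert x {a, b} : Finset V) := by rw [heq']; simp
    simp only [Finset.mem_insert, Finset.mem_singleton] at hyx hax hbx
    have hxy : x = y := by
      rcases hyx with hyx | hyx | hyx
      · exact hyx.symm
      · exfalso
        rw [hyx] at ha'
        rcases hax with h5 | h5 | h5 <;> rw [h5] at ha' <;> omega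
      · exfalso
        rw [hyx] at hb'
        rcases hbx with h5 | h5 | h5 <;> rw [h5] at hb' <;> omega
    subst hxy
    have h6 : ({a, b} : Finset V) = {a', b'} := by
      rw [← Finset.erase_insert hx, ← Finset.erase_insert hy, heq']
    rw [h6]

/-- the largest vertex is joined to the vertex before it -/
theorem Can.top_edge {T : Finset (Finset V)} {F₀ : Finset V} {rk : V → ℕ} (hF₀ : F₀ ∈ T)
    (hc : Can T F₀ rk) {x y : V} (hx : x ∈ uv T) (hy : y ∈ uv T) (hxr : rk x + 2 = (uv T).card)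
    (hyr : rk y + 1 = (uv T).card) : ({x, y} : Finset V) ∈ edges T :=
  edge_of_tri hF₀ (by rintro rfl; omega) (hc.top x hx (by omega)) (hc.top y hy (by omega))

theorem Can.has_lo {T : Finset (Finset V)} (h : Sph T) {F₀ : Finset V} {rk : V → ℕ}
    (hc : Can T F₀ rk) {x : V} (hx : x ∈ uv T) (h1 : 1 ≤ rk x) :
    ∃ a ∈ vx (bdry (star T x)), a ∈ lo rk x := by
  have hxl := hc.lt x hx
  by_cases h2 : 2 ≤ rk x
  · obtain ⟨y, z, hyz, hey, hez, hry, hrz⟩ := hc.low x hx h2
    exact ⟨y, h.mem_vx_link.2 hey, mem_lo.2 hry⟩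
  · obtain ⟨u, hu, hu0⟩ := hc.surj (r := 0) (by omega)
    have := hc.bot u hu x hx hu0 (by omega)
    exact ⟨u, h.mem_vx_link.2 (edge_swap this), mem_lo.2 (by omega)⟩

theorem Can.has_hi {T : Finset (Finset V)} (h : Sph T) {F₀ : Finset V} {rk : V → ℕ} (hF₀ : F₀ ∈ T)
    (hc : Can T F₀ rk) {x : V} (hx : x ∈ uv T) (h1 : rk x + 2 ≤ (uv T).card) :
    ∃ a ∈ vx (bdry (star T x)), a ∉ lo rk x := by
  by_cases h2 : rk x + 3 ≤ (uv T).card
  · obtain ⟨y, z, hyz, hey, hez, hry, hrz⟩ := hc.up x hx h2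
    exact ⟨y, h.mem_vx_link.2 hey, by rw [mem_lo]; omega⟩
  · obtain ⟨u, hu, hu0⟩ := hc.surj (r := (uv T).card - 1) (by omega)
    have := hc.top_edge hF₀ hx hu (by omega) (by omega)
    exact ⟨u, h.mem_vx_link.2 this, by rw [mem_lo]; omega⟩

theorem Can.two_le {T : Finset (Finset V)} (h : Sph T) {F₀ : Finset V} {rk : V → ℕ} (hF₀ : F₀ ∈ T)
    (hc : Can T F₀ rk) {x : V} (hx : x ∈ uv T) (h0 : 1 ≤ rk x) (h1 : rk x + 2 ≤ (uv T).card) :
    2 ≤ (mx (bdry (star T x)) (lo rk x)).card := by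
  obtain ⟨a, ha, haA⟩ := hc.has_lo h hx h0
  obtain ⟨b, hb, hbA⟩ := hc.has_hi h hF₀ hx h1
  exact (h.link_irr (mem_uv.1 hx)).two_le_mx ha haA hb hbA

theorem Can.mx_le {T : Finset (Finset V)} (h : Sph T) {F₀ : Finset V} {rk : V → ℕ} (hF₀ : F₀ ∈ T)
    (hc : Can T F₀ rk) {x : V} (hx : x ∈ uv T) (h0 : 1 ≤ rk x) (h1 : rk x + 2 ≤ (uv T).card) :
    (mx (bdry (star T x)) (lo rk x)).card ≤ 2 := by
  classical
  by_contra hcon
  obtain ⟨U, hU⟩ : ∃ U, U = (uv T).filter (fun y => 1 ≤ rk y ∧ rk y + 2 ≤ (uv T).card) := ⟨_, rfl⟩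
  have hUs : U ⊆ uv T := by rw [hU]; exact Finset.filter_subset _ _
  have hcU : (uv T).card ≤ U.card + 2 := by
    have h2 : (uv T \ U).card ≤ ({0, (uv T).card - 1} : Finset ℕ).card := by
      apply Finset.card_le_card_of_injOn rk
      · intro y hy
        rw [Finset.mem_coe, Finset.mem_sdiff, hU, Finset.mem_filter] at hy
        have := hc.lt y hy.1
        rw [Finset.mem_coe, Finset.mem_insert, Finset.mem_singleton]
        by_contra h3
        rw [not_or] at h3
        exact hy.2 ⟨hy.1, by omega, by omega⟩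
      · intro y hy z hz hyz
        rw [Finset.mem_coe, Finset.mem_sdiff] at hy hz
        exact hc.inj y hy.1 z hz.1 hyz
    have h3 : ({0, (uv T).card - 1} : Finset ℕ).card ≤ 2 := Finset.card_le_two
    have h4 := Finset.card_sdiff_add_card_eq_card hUs
    omega
  have hxU : x ∈ U := by rw [hU]; exact Finset.mem_filter.2 ⟨hx, h0, h1⟩
  have h5 : ∑ y ∈ U, (mx (bdry (star T y)) (lo rk y)).card ≤ T.card :=
    (Finset.sum_le_sum_of_subset hUs).trans (hc.sum_le h)
  have h6 : ∑ y ∈ U, 2 < ∑ y ∈ U, (mx (bdry (star T y)) (lo rk y)).card := by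
    apply Finset.sum_lt_sum
    · intro y hy
      rw [hU, Finset.mem_filter] at hy
      exact hc.two_le h hF₀ hy.1 hy.2.1 hy.2.2
    · exact ⟨x, hxU, by omega⟩
  rw [Finset.sum_const, smul_eq_mul] at h6
  have h7 := h.card_T ⟨F₀, hF₀⟩
  omega

end Pool.Agent.Spl2
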