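import Pool.Agent.Spl2.SphOrdF

/-!
# Canonical orderings, part G: the classes

The edges `e` (except the one which joins the last two vertices) whose four vertices (two ends and two apexes) have second largest
element `x` are among `x w_L`, `x w_R`, `w_L z_L`, `w_R z_R` or, if `x` is the vertex of rank `2`, among
`x w_L`, `x w_R`, `w_L w_R`.
-/

set_option autoImplicit false

namespace Pool.Agent.Spl2

open Finset Pool.Agent.Spl1

variable {V : Type*} [Fintype V] [DecidableEq V]

theorem or4_2 {a b c d : Prop} (h : a ∨ b ∨ c ∨ d) (hb : ¬ b) : a ∨ c ∨ d := by tauto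

theorem or4_3 {a b c d : Prop} (h : a ∨ b ∨ c ∨ d) (hc : ¬ c) : a ∨ b ∨ d := by tauto

theorem or4_4 {a b c d : Prop} (h : a ∨ b ∨ c ∨ d) (hd : ¬ d) : a ∨ b ∨ c := by tauto

theorem or3_2 {a b c d : Prop} (h : a ∨ c ∨ d) : a ∨ b ∨ c ∨ d := by tauto

theorem or3_3 {a b c d : Prop} (h : a ∨ b ∨ d) : a ∨ b ∨ c ∨ d := by tauto

theorem or3_4 {a b c d : Prop} (h : a ∨ b ∨ c) : a ∨ b ∨ c ∨ d := by tauto

theorem tri_rev (a b c : V) : ({a, b, c} : Finset V) = {c, b, a} := by
  ext z; simp only [Finset.mem_insert, Finset.mem_singleton]; tauto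

theorem tri_rot (a b c : V) : ({a, b, c} : Finset V) = {c, a, b} := by
  ext z; simp only [Finset.mem_insert, Finset.mem_singleton]; tauto

theorem tri_swp (a b c : V) : ({a, b, c} : Finset V) = {a, c, b} := by
  ext z; simp only [Finset.mem_insert, Finset.mem_singleton]; tauto

theorem pair_sub_tri (v w z : V) : ({v, w} : Finset V) ⊆ {v, w, z} := by
  intro y hy
  simp only [Finset.mem_insert, Finset.mem_singleton] at hy ⊢
  tauto

/-- three triangles around `w` -/
theorem Sph.deg_three {T : Finset (Finset V)} (h : Sph T) {w a b c : V} (ab : a ≠ b) (bc : b ≠ c)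
    (ac : a ≠ c) (wa : w ≠ a) (wb : w ≠ b) (wc : w ≠ c) (h1 : ({w, a, b} : Finset V) ∈ T)
    (h2 : ({w, b, c} : Finset V) ∈ T) (h3 : ({w, a, c} : Finset V) ∈ T) :
    (star T w).card = 3 := by
  have hne : (star T w).Nonempty := ⟨_, mem_star.2 ⟨h1, by simp⟩⟩
  have hI := h.link_irr hne
  have hc3 : ({a, b, c} : Finset V).card = 3 :=
    Finset.card_eq_three.2 ⟨a, b, c, ab, ac, bc, rfl⟩
  have hcyc : IsCyc (bdry ({{a, b, c}} : Finset (Finset V))) :=
    isCyc_bdry (by intro t ht; rw [Finset.mem_singleton.1 ht]; exact hc3)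
  have hb : bdry ({{a, b, c}} : Finset (Finset V)) = ({a, b, c} : Finset V).powersetCard 2 := by
    ext e
    rw [mem_bdry_single hc3, Finset.mem_powersetCard]
    tauto
  have hcard : (bdry ({{a, b, c}} : Finset (Finset V))).card = 3 := by
    rw [hb, Finset.card_powersetCard, hc3]; rfl
  have hsub : bdry ({{a, b, c}} : Finset (Finset V)) ⊆ bdry (star T w) := by
    intro e he
    rw [mem_bdry_single hc3] at he
    obtain ⟨x, y, hxy, rfl⟩ := Finset.card_eq_two.1 he.1
    have hx : x ∈ ({a, b, c} : Finset V) := he.2 (by simp)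
    have hy : y ∈ ({a, b, c} : Finset V) := he.2 (by simp)
    simp only [Finset.mem_insert, Finset.mem_singleton] at hx hy
    have e1 : ({a, b} : Finset V) ∈ bdry (star T w) := h.mem_link2.2 ⟨ab, wa, wb, h1⟩
    have e2 : ({b, c} : Finset V) ∈ bdry (star T w) := h.mem_link2.2 ⟨bc, wb, wc, h2⟩
    have e3 : ({a, c} : Finset V) ∈ bdry (star T w) := h.mem_link2.2 ⟨ac, wa, wc, h3⟩
    rcases hx with rfl | rfl | rfl <;> rcases hy with rfl | rfl | rfl
    · exact absurd rfl hxy
    · exact e1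
    · exact e3
    · rw [Finset.pair_comm]; exact e1
    · exact absurd rfl hxy
    · exact e2
    · rw [Finset.pair_comm]; exact e3
    · rw [Finset.pair_comm]; exact e2
    · exact absurd rfl hxy
  rcases hI.irr _ hsub hcyc with h5 | h5
  · rw [h5] at hcard
    simp at hcard
  · rw [← h.star_of_bdry w, ← h5, hcard]

/-- the first three vertices form a triangle -/
theorem Can.base {T : Finset (Finset V)} (h : Sph T) {F₀ : Finset V} {rk : V → ℕ} (hF₀ : F₀ ∈ T)
    (hc : Can T F₀ rk) {x u0 u1 : V} (hx : x ∈ uv T) (hx2 : rk x = 2)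
    (hN : rk x + 2 ≤ (uv T).card) (hu0 : u0 ∈ uv T) (h0 : rk u0 = 0) (hu1 : u1 ∈ uv T)
    (h1 : rk u1 = 1) : ({x, u0, u1} : Finset V) ∈ T := by
  classical
  obtain ⟨y, z, hyz, hey, hez, hry, hrz⟩ := hc.low x hx (by omega)
  have small : ∀ y, ({x, y} : Finset V) ∈ edges T → rk y < rk x → y = u0 ∨ y = u1 := by
    intro y hey hry
    have hy := (uv_of_edge hey).2
    have h3 : rk y = 0 ∨ rk y = 1 := by omega
    rcases h3 with h3 | h3
    · exact Or.inl (hc.inj y hy u0 hu0 (by omega))
    · exact Or.inr (hc.inj y hy u1 hu1 (by omega))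
  have h01 : u0 ≠ u1 := by rintro rfl; omega
  have hb : ({x, u0} : Finset V) ∈ edges T ∧ ({x, u1} : Finset V) ∈ edges T := by
    rcases small y hey hry with rfl | rfl <;> rcases small z hez hrz with rfl | rfl
    · exact absurd rfl hyz
    · exact ⟨hey, hez⟩
    · exact ⟨hez, hey⟩
    · exact absurd rfl hyz
  have hI := h.link_irr (mem_uv.1 hx)
  have hm := hc.mx_le h hF₀ hx (by omega) hN
  have v0 : u0 ∈ vx (bdry (star T x)) := h.mem_vx_link.2 hb.1
  have v1 : u1 ∈ vx (bdry (star T x)) := h.mem_vx_link.2 hb.2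
  by_contra hcon
  have hn : ({u0, u1} : Finset V) ∉ bdry (star T x) := fun h' => hcon (h.mem_link2.1 h').2.2.2
  have hd := hI.deg2 v0
  obtain ⟨e, e', hee, hE⟩ := Finset.card_eq_two.1 hd
  have hother : ∀ f ∈ ({e, e'} : Finset (Finset V)), ∃ a, a ∉ lo rk x ∧ f = {u0, a} ∧
      ({u0, a} : Finset V) ∈ bdry (star T x) := by
    intro f he
    rw [← hE, Finset.mem_filter] at he
    obtain ⟨heC, h0e⟩ := he
    obtain ⟨p, q, hpq, rfl⟩ := Finset.card_eq_two.1 (hI.cyc.1 f heC)
    have key : ∀ a, u0 ≠ a → ({u0, a} : Finset V) ∈ bdry (star T x) → a ∉ lo rk x := by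
      intro a h0a haC hlo
      rw [mem_lo] at hlo
      have hea : ({x, a} : Finset V) ∈ edges T := h.mem_vx_link.1 (mem_vx.2 ⟨_, haC, by simp⟩)
      rcases small a hea hlo with rfl | rfl
      · exact h0a rfl
      · exact hn haC
    simp only [Finset.mem_insert, Finset.mem_singleton] at h0e
    rcases h0e with rfl | rfl
    · exact ⟨q, key q hpq heC, rfl, heC⟩
    · rw [Finset.pair_comm] at heC
      exact ⟨p, key p hpq.symm heC, Finset.pair_comm _ _, heC⟩
  obtain ⟨a, haA, rfl, haC⟩ := hother e (by simp)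
  obtain ⟨b, hbA, rfl, hbC⟩ := hother e' (by simp)
  have hab : a ≠ b := by rintro rfl; exact hee rfl
  exact hI.no_fan hm hab (mem_lo.2 (by omega)) haA hbA haC hbC v1 (mem_lo.2 (by omega)) h01.symm

/-- `x` is the second largest of the four vertices, the largest is `y` -/
def Snd (rk : V → ℕ) (x v w p q : V) : Prop :=
  x ∈ ({v, w, p, q} : Finset V) ∧ ∃ y ∈ ({v, w, p, q} : Finset V), rk x < rk y ∧
    ∀ z ∈ ({v, w, p, q} : Finset V), z ≠ y → rk z ≤ rk x

/-- the classes -/
theorem Can.cls {T : Finset (Finset V)} (h : Sph T) {F₀ : Finset V} {rk : V → ℕ} (hF₀ : F₀ ∈ T)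
    (hc : Can T F₀ rk) (hdeg : ∀ x ∈ uv T, rk x ≤ 1 → 4 ≤ (star T x).card) {x : V}
    (hx : x ∈ uv T) (h2 : 2 ≤ rk x) (hN : rk x + 2 ≤ (uv T).card) :
    ∃ wL ∈ uv T, ∃ wR ∈ uv T, ∃ zL ∈ uv T, ∃ zR ∈ uv T, wL ≠ wR ∧ rk wL < rk x ∧ rk wR < rk x ∧
      rk x < rk zL ∧ rk x < rk zR ∧
      ((∀ v w p q : V, v ≠ w → p ≠ q → p ≠ v → p ≠ w → q ≠ v → q ≠ w →
          ({v, w, p} : Finset V) ∈ T → ({v, w, q} : Finset V) ∈ T →
          ¬ ((uv T).card ≤ rk v + 2 ∧ (uv T).card ≤ rk w + 2) → Snd rk x v w p q →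
          (({v, w} : Finset V) = {x, wL} ∨ ({v, w} : Finset V) = {x, wR} ∨
            ({v, w} : Finset V) = {wL, zL} ∨ ({v, w} : Finset V) = {wR, zR})) ∨
        (∀ v w p q : V, v ≠ w → p ≠ q → p ≠ v → p ≠ w → q ≠ v → q ≠ w →
          ({v, w, p} : Finset V) ∈ T → ({v, w, q} : Finset V) ∈ T →
          ¬ ((uv T).card ≤ rk v + 2 ∧ (uv T).card ≤ rk w + 2) → Snd rk x v w p q →
          (({v, w} : Finset V) = {x, wL} ∨ ({v, w} : Finset V) = {x, wR} ∨
            ({v, w} : Finset V) = {wL, wR}))) := by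
  classical
  have hI := h.link_irr (mem_uv.1 hx)
  have hm := hc.mx_le h hF₀ hx (by omega) hN
  have hm2 := hc.two_le h hF₀ hx (by omega) hN
  obtain ⟨e1, e2, he12, hM⟩ := Finset.card_eq_two.1 (le_antisymm hm hm2)
  have m1 : e1 ∈ mx (bdry (star T x)) (lo rk x) := by rw [hM]; simp
  have m2 : e2 ∈ mx (bdry (star T x)) (lo rk x) := by rw [hM]; simp
  obtain ⟨t1, x1, wL, zL, hwL, hzL, rfl⟩ := hc.mem_mx h m1
  obtain ⟨t2, x2, wR, zR, hwR, hzR, rfl⟩ := hc.mem_mx h m2
  have c1 : ({wL, zL} : Finset V) ∈ bdry (star T x) := (Finset.mem_filter.1 m1).1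
  have c2 : ({wR, zR} : Finset V) ∈ bdry (star T x) := (Finset.mem_filter.1 m2).1
  obtain ⟨s, s', hss, hes, hes', hrs, hrs'⟩ := hc.low x hx h2
  have hnot : ∀ z, rk x < rk z → z ∉ lo rk x := by
    intro z hz; rw [mem_lo]; omega
  have hwLR : wL ≠ wR := by
    rintro rfl
    have hz : zL ≠ zR := by rintro rfl; exact he12 rfl
    by_cases hsw : s = wL
    · exact hI.no_fan hm hz (mem_lo.2 hwL) (hnot _ hzL) (hnot _ hzR) c1 c2
        (h.mem_vx_link.2 hes') (mem_lo.2 hrs') (fun h' => hss (hsw.trans h'.symm))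
    · exact hI.no_fan hm hz (mem_lo.2 hwL) (hnot _ hzL) (hnot _ hzR) c1 c2
        (h.mem_vx_link.2 hes) (mem_lo.2 hrs) hsw
  have huv : ∀ z, z ∈ ({wL, zL} : Finset V) ∨ z ∈ ({wR, zR} : Finset V) → z ∈ uv T := by
    intro z hz
    rcases hz with hz | hz
    · exact mem_uv_of_mem t1 (Finset.mem_insert_of_mem hz)
    · exact mem_uv_of_mem t2 (Finset.mem_insert_of_mem hz)
  -- mixed edges
  have mixed : ∀ a b, a ≠ x → b ≠ x → ({x, a, b} : Finset V) ∈ T → rk a < rk x → rk x < rk b →
      ({a, b} : Finset V) = {wL, zL} ∨ ({a, b} : Finset V) = {wR, zR} := by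
    intro a b hax hbx hT ha hb
    have hab : a ≠ b := by rintro rfl; omega
    have h5 : ({a, b} : Finset V) ∈ mx (bdry (star T x)) (lo rk x) := by
      rw [mem_mx_pair hab]
      refine ⟨h.mem_link2.2 ⟨hab, hax.symm, hbx.symm, hT⟩, ?_⟩
      exact fun h' => hnot b hb (h'.1 (mem_lo.2 ha))
    rw [hM, Finset.mem_insert, Finset.mem_singleton] at h5
    exact h5
  have mixedw : ∀ a b, a ≠ x → b ≠ x → ({x, a, b} : Finset V) ∈ T → rk a < rk x → rk x < rk b →
      a = wL ∨ a = wR := by
    intro a b hax hbx hT ha hb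
    rcases mixed a b hax hbx hT ha hb with h5 | h5
    · have h6 : a ∈ ({wL, zL} : Finset V) := by rw [← h5]; simp
      simp only [Finset.mem_insert, Finset.mem_singleton] at h6
      rcases h6 with rfl | rfl
      · exact Or.inl rfl
      · omega
    · have h6 : a ∈ ({wR, zR} : Finset V) := by rw [← h5]; simp
      simp only [Finset.mem_insert, Finset.mem_singleton] at h6
      rcases h6 with rfl | rfl
      · exact Or.inr rfl
      · omega
  -- case A : `x` is an end of the edge
  have caseA : ∀ w p q, p ≠ q → w ≠ x → p ≠ x → q ≠ x → p ≠ w → q ≠ w →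
      ({x, w, p} : Finset V) ∈ T → ({x, w, q} : Finset V) ∈ T →
      ¬ ((uv T).card ≤ rk x + 2 ∧ (uv T).card ≤ rk w + 2) →
      (∃ y, rk x < rk y ∧ (y = w ∨ y = p ∨ y = q) ∧
        ∀ z, (z = w ∨ z = p ∨ z = q) → z ≠ y → rk z < rk x) → w = wL ∨ w = wR := by
    intro w p q hpq hwx hpx hqx hpw hqw hp hq hF hy
    obtain ⟨y, hxy, hy, hall⟩ := hy
    rcases hy with rfl | rfl | rfl
    · exfalso
      have hrp := hall p (Or.inr (Or.inl rfl)) hpw
      have hrq := hall q (Or.inr (Or.inr rfl)) hqw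
      have cp : ({y, p} : Finset V) ∈ bdry (star T x) := h.mem_link2.2 ⟨hpw.symm, hwx.symm,
        hpx.symm, hp⟩
      have cq : ({y, q} : Finset V) ∈ bdry (star T x) := h.mem_link2.2 ⟨hqw.symm, hwx.symm,
        hqx.symm, hq⟩
      by_cases hN3 : rk x + 3 ≤ (uv T).card
      · obtain ⟨a, a', haa, hea, hea', hra, hra'⟩ := hc.up x hx hN3
        by_cases hay : a = y
        · exact hI.no_fan' hm hpq (hnot _ hxy) (mem_lo.2 hrp) (mem_lo.2 hrq) cp cq
            (h.mem_vx_link.2 hea') (hnot _ hra') (fun h' => haa (hay.trans h'.symm))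
        · exact hI.no_fan' hm hpq (hnot _ hxy) (mem_lo.2 hrp) (mem_lo.2 hrq) cp cq
            (h.mem_vx_link.2 hea) (hnot _ hra) hay
      · exact hF ⟨by omega, by omega⟩
    · exact mixedw w y hwx hpx hp (hall w (Or.inl rfl) hpw.symm) hxy
    · exact mixedw w y hwx hqx hq (hall w (Or.inl rfl) hqw.symm) hxy
  -- case B1 : both ends are smaller
  have caseB1 : ∀ v w q, v ≠ w → v ≠ x → w ≠ x → q ≠ v → q ≠ w → q ≠ x →
      ({v, w, x} : Finset V) ∈ T → ({v, w, q} : Finset V) ∈ T → rk v < rk w → rk w < rk x →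
      rk x < rk q → rk w = 1 ∧ rk v = 0 ∧ rk x = 2 := by
    intro v w q hvw hvx hwx hqv hqw hqx hT hT' h5 h6 h7
    have hwT : w ∈ uv T := mem_uv_of_mem hT (by simp)
    have hvT : v ∈ uv T := mem_uv_of_mem hT (by simp)
    have hIw := h.link_irr (mem_uv.1 hwT)
    have hmw := hc.mx_le h hF₀ hwT (by omega) (by omega)
    have cx : ({v, x} : Finset V) ∈ bdry (star T w) := h.mem_link2.2 ⟨hvx, hvw.symm, hwx, by
      rw [Finset.insert_comm]; exact hT⟩
    have cq : ({v, q} : Finset V) ∈ bdry (star T w) := h.mem_link2.2 ⟨hqv.symm, hvw.symm,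
      hqw.symm, by rw [Finset.insert_comm]; exact hT'⟩
    have nlo : ∀ z, rk w < rk z → z ∉ lo rk w := by
      intro z hz; rw [mem_lo]; omega
    have hw1 : rk w = 1 := by
      by_contra hw1
      obtain ⟨a, a', haa, hea, hea', hra, hra'⟩ := hc.low w hwT (by omega)
      by_cases hav : a = v
      · exact hIw.no_fan hmw hqx.symm (mem_lo.2 h5) (nlo _ h6) (nlo _ (by omega)) cx cq
          (h.mem_vx_link.2 hea') (mem_lo.2 hra') (fun h' => haa (hav.trans h'.symm))
      · exact hIw.no_fan hmw hqx.symm (mem_lo.2 h5) (nlo _ h6) (nlo _ (by omega)) cx cq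
          (h.mem_vx_link.2 hea) (mem_lo.2 hra) hav
    refine ⟨hw1, by omega, ?_⟩
    obtain ⟨u, hu, hu2⟩ := hc.surj (r := 2) (by omega)
    have hb := hc.base h hF₀ hu hu2 (by omega) hvT (by omega) hwT hw1
    -- the edge `v w` is in the triangles with apex `x`, `q` and `u`
    have hed : ({v, w} : Finset V) ∈ edges T := edge_of_tri hT hvw (by simp) (by simp)
    obtain ⟨s1, hs1, s2, hs2, hs12, hes1, hes2, hall⟩ := h.two_tri hed
    have sub : ∀ z : V, ({v, w} : Finset V) ⊆ {v, w, z} := fun z => pair_sub_tri v w z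
    have hbu : ({v, w, u} : Finset V) ∈ T := by
      rw [tri_rot]; exact hb
    have neq : ({v, w, x} : Finset V) ≠ {v, w, q} := by
      intro h'
      have : q ∈ ({v, w, x} : Finset V) := by rw [h']; simp
      simp only [Finset.mem_insert, Finset.mem_singleton] at this
      rcases this with h9 | h9 | h9
      · exact hqv h9
      · exact hqw h9
      · exact hqx h9
    have h8 : ({v, w, u} : Finset V) = {v, w, x} ∨ ({v, w, u} : Finset V) = {v, w, q} := by
      rcases hall _ hT (sub x) with a1 | a1 <;> rcases hall _ hT' (sub q) with a2 | a2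
      · exact absurd (a1.trans a2.symm) neq
      · rcases hall _ hbu (sub u) with a3 | a3
        · exact Or.inl (a3.trans a1.symm)
        · exact Or.inr (a3.trans a2.symm)
      · rcases hall _ hbu (sub u) with a3 | a3
        · exact Or.inr (a3.trans a2.symm)
        · exact Or.inl (a3.trans a1.symm)
      · exact absurd (a1.trans a2.symm) neq
    rcases h8 with h8 | h8
    · have h9 : x ∈ ({v, w, u} : Finset V) := by rw [h8]; simp
      simp only [Finset.mem_insert, Finset.mem_singleton] at h9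
      rcases h9 with h9 | h9 | h9
      · exact absurd h9.symm hvx
      · exact absurd h9.symm hwx
      · rw [h9]; exact hu2
    · have h9 : q ∈ ({v, w, u} : Finset V) := by rw [h8]; simp
      simp only [Finset.mem_insert, Finset.mem_singleton] at h9
      rcases h9 with h9 | h9 | h9
      · exact absurd h9 hqv
      · exact absurd h9 hqw
      · rw [h9, hu2] at h7; omega
  -- case B : `x` is an apex
  have caseB : ∀ v w q, v ≠ w → v ≠ x → w ≠ x → q ≠ v → q ≠ w → q ≠ x →
      ({v, w, x} : Finset V) ∈ T → ({v, w, q} : Finset V) ∈ T →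
      (∃ y, rk x < rk y ∧ (y = v ∨ y = w ∨ y = q) ∧
        ∀ z, (z = v ∨ z = w ∨ z = q) → z ≠ y → rk z < rk x) →
      (rk x ≠ 2 ∧ (({v, w} : Finset V) = {wL, zL} ∨ ({v, w} : Finset V) = {wR, zR})) ∨
        (rk x = 2 ∧ ({v, w} : Finset V) = {wL, wR}) := by
    intro v w q hvw hvx hwx hqv hqw hqx hT hT' hy
    obtain ⟨y, hxy, hy, hall⟩ := hy
    -- if `rk x = 2` there is no mixed edge with a smaller other apex
    have no2 : ∀ a b, a ≠ b → a ≠ x → b ≠ x → q ≠ a → q ≠ b → ({a, b, x} : Finset V) ∈ T →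
        ({a, b, q} : Finset V) ∈ T → rk b < rk x → rk q < rk x → rk x ≠ 2 := by
      intro a b hab hax hbx hqa hqb h5 h6 h7 h8 h9
      have hbT : b ∈ uv T := mem_uv_of_mem h5 (by simp)
      have hqT : q ∈ uv T := mem_uv_of_mem h6 (by simp)
      have hbq : rk b ≠ rk q := fun h' => hqb (hc.inj q hqT b hbT h'.symm)
      have h10 : ({x, b, q} : Finset V) ∈ T := by
        by_cases hb0 : rk b = 0
        · exact hc.base h hF₀ hx h9 hN hbT hb0 hqT (by omega)
        · have h11 := hc.base h hF₀ hx h9 hN hqT (by omega) hbT (by omega)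
          rw [tri_swp]; exact h11
      have h12 := h.deg_three (w := b) (a := a) (b := x) (c := q) hax hqx.symm hqa.symm
        hab.symm hbx hqb.symm
        (by rw [Finset.insert_comm]; exact h5)
        (by rw [Finset.insert_comm]; exact h10)
        (by rw [Finset.insert_comm]; exact h6)
      have := hdeg b hbT (by omega)
      omega
    rcases hy with rfl | rfl | rfl
    · left
      have hw := hall w (Or.inr (Or.inl rfl)) hvw.symm
      have hq := hall q (Or.inr (Or.inr rfl)) hqv
      refine ⟨no2 y w hvw hvx hwx hqv hqw hT hT' hw hq, ?_⟩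
      have h5 := mixed w y hwx hvx (by rw [tri_rev]; exact hT) hw hxy
      rw [Finset.pair_comm y w]
      exact h5
    · left
      have hv := hall v (Or.inl rfl) hvw
      have hq := hall q (Or.inr (Or.inr rfl)) hqw
      refine ⟨no2 y v hvw.symm hwx hvx hqw hqv (by rw [Finset.insert_comm]; exact hT)
        (by rw [Finset.insert_comm]; exact hT') hv hq, ?_⟩
      exact mixed v y hvx hwx (by rw [← tri_rot]; exact hT) hv hxy
    · right
      have hv := hall v (Or.inl rfl) hqv.symm
      have hw := hall w (Or.inr (Or.inl rfl)) hqw.symm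
      have hvT : v ∈ uv T := mem_uv_of_mem hT (by simp)
      have hwT : w ∈ uv T := mem_uv_of_mem hT (by simp)
      have hLT : wL ∈ uv T := huv wL (Or.inl (by simp))
      have hRT : wR ∈ uv T := huv wR (Or.inr (by simp))
      have hne : rk v ≠ rk w := fun h' => hvw (hc.inj v hvT w hwT h')
      have hLR : rk wL ≠ rk wR := fun h' => hwLR (hc.inj wL hLT wR hRT h')
      have hx2 : rk x = 2 := by
        by_cases h5 : rk v < rk w
        · exact (caseB1 v w y hvw hvx hwx hqv hqw hqx hT hT' h5 hw hxy).2.2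
        · exact (caseB1 w v y hvw.symm hwx hvx hqw hqv hqx
            (by rw [Finset.insert_comm]; exact hT) (by rw [Finset.insert_comm]; exact hT')
            (by omega) hv hxy).2.2
      refine ⟨hx2, ?_⟩
      by_cases h5 : rk v = rk wL
      · rw [hc.inj v hvT wL hLT h5, hc.inj w hwT wR hRT (by omega)]
      · rw [hc.inj v hvT wR hRT (by omega), hc.inj w hwT wL hLT (by omega), Finset.pair_comm]
  -- all four positions of `x`
  have main : ∀ v w p q : V, v ≠ w → p ≠ q → p ≠ v → p ≠ w → q ≠ v → q ≠ w →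
      ({v, w, p} : Finset V) ∈ T → ({v, w, q} : Finset V) ∈ T →
      ¬ ((uv T).card ≤ rk v + 2 ∧ (uv T).card ≤ rk w + 2) → Snd rk x v w p q →
      (({v, w} : Finset V) = {x, wL} ∨ ({v, w} : Finset V) = {x, wR}) ∨
      ((rk x ≠ 2 ∧ (({v, w} : Finset V) = {wL, zL} ∨ ({v, w} : Finset V) = {wR, zR})) ∨
        (rk x = 2 ∧ ({v, w} : Finset V) = {wL, wR})) := by
    intro v w p q hvw hpq hpv hpw hqv hqw hp hq hF hS
    obtain ⟨hxQ, y, hyQ, hxy, hall⟩ := hS
    have huvQ : ∀ z ∈ ({v, w, p, q} : Finset V), z ∈ uv T := by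
      intro z hz
      simp only [Finset.mem_insert, Finset.mem_singleton] at hz
      rcases hz with rfl | rfl | rfl | rfl
      · exact mem_uv_of_mem hp (by simp)
      · exact mem_uv_of_mem hp (by simp)
      · exact mem_uv_of_mem hp (by simp)
      · exact mem_uv_of_mem hq (by simp)
    have hlt : ∀ z ∈ ({v, w, p, q} : Finset V), z ≠ y → z ≠ x → rk z < rk x := by
      intro z hz hzy hzx
      have h5 := hall z hz hzy
      have h6 : rk z ≠ rk x := fun h' => hzx (hc.inj z (huvQ z hz) x hx h')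
      omega
    have hyx : y ≠ x := by rintro rfl; omega
    simp only [Finset.mem_insert, Finset.mem_singleton] at hxQ hyQ hlt
    rcases hxQ with rfl | rfl | rfl | rfl
    · left
      have h5 := caseA w p q hpq hvw.symm hpv hqv hpw hqw hp hq hF
        ⟨y, hxy, hyQ.resolve_left hyx, by
          intro z hz hzy
          refine hlt z (Or.inr hz) hzy ?_
          rcases hz with rfl | rfl | rfl
          · exact hvw.symm
          · exact hpv
          · exact hqv⟩
      rcases h5 with rfl | rfl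
      · exact Or.inl rfl
      · exact Or.inr rfl
    · left
      have h5 := caseA v p q hpq hvw hpw hqw hpv hqv (by rw [Finset.insert_comm]; exact hp)
        (by rw [Finset.insert_comm]; exact hq) (fun h' => hF ⟨h'.2, h'.1⟩)
        ⟨y, hxy, or4_2 hyQ hyx, by
          intro z hz hzy
          refine hlt z (or3_2 hz) hzy ?_
          rcases hz with rfl | rfl | rfl
          · exact hvw
          · exact hpw
          · exact hqw⟩
      rcases h5 with rfl | rfl
      · exact Or.inl (Finset.pair_comm _ _)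
      · exact Or.inr (Finset.pair_comm _ _)
    · right
      exact caseB v w q hvw hpv.symm hpw.symm hqv hqw hpq.symm hp hq
        ⟨y, hxy, or4_3 hyQ hyx, by
          intro z hz hzy
          refine hlt z (or3_3 hz) hzy ?_
          rcases hz with rfl | rfl | rfl
          · exact hpv.symm
          · exact hpw.symm
          · exact hpq.symm⟩
    · right
      exact caseB v w p hvw hqv.symm hqw.symm hpv hpw hpq hq hp
        ⟨y, hxy, or4_4 hyQ hyx, by
          intro z hz hzy
          refine hlt z (or3_4 hz) hzy ?_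
          rcases hz with rfl | rfl | rfl
          · exact hqv.symm
          · exact hqw.symm
          · exact hpq⟩
  refine ⟨wL, huv wL (Or.inl (by simp)), wR, huv wR (Or.inr (by simp)), zL,
    huv zL (Or.inl (by simp)), zR, huv zR (Or.inr (by simp)), hwLR, hwL, hwR, hzL, hzR, ?_⟩
  by_cases hx2 : rk x = 2
  · right
    intro v w p q hvw hpq hpv hpw hqv hqw hp hq hF hS
    rcases main v w p q hvw hpq hpv hpw hqv hqw hp hq hF hS with (h5 | h5) | (h5 | h5)
    · exact Or.inl h5
    · exact Or.inr (Or.inl h5)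
    · exact absurd hx2 h5.1
    · exact Or.inr (Or.inr h5.2)
  · left
    intro v w p q hvw hpq hpv hpw hqv hqw hp hq hF hS
    rcases main v w p q hvw hpq hpv hpw hqv hqw hp hq hF hS with (h5 | h5) | (h5 | h5)
    · exact Or.inl h5
    · exact Or.inr (Or.inl h5)
    · exact Or.inr (Or.inr h5.2)
    · exact absurd h5.1 hx2

end Pool.Agent.Spl2
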