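import Pool.Agent.Spl2.SphOrdG

/-!
# Canonical orderings, part H: the classes in terms of the ranks

`Can.nat_form`: sorted ranks `i < j < k < l` of the four vertices of every edge, ranks `a`, `b` of its two
ends; for `2 ≤ c ≤ N - 2` the edges with `k = c`, except the edge which joins the last two vertices, have
`{a, b}` among `{c, w_L}`, `{c, w_R}`, `{w_L, z_L}`, `{w_R, z_R}` or among `{c, w_L}`, `{c, w_R}`, `{w_L, w_R}`.
-/

set_option autoImplicit false

namespace Pool.Agent.Spl2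

open Finset Pool.Agent.Spl1

variable {V : Type*} [Fintype V] [DecidableEq V]

/-- `v w` is an edge with the two apexes `p`, `q` -/
structure Quad (T : Finset (Finset V)) (v w p q : V) : Prop where
  vw : v ≠ w
  pq : p ≠ q
  pv : p ≠ v
  pw : p ≠ w
  qv : q ≠ v
  qw : q ≠ w
  hp : ({v, w, p} : Finset V) ∈ T
  hq : ({v, w, q} : Finset V) ∈ T

theorem four_card {a b c d : V} (ab : a ≠ b) (ac : a ≠ c) (ad : a ≠ d) (bc : b ≠ c) (bd : b ≠ d)
    (cd : c ≠ d) : ({a, b, c, d} : Finset V).card = 4 := by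
  rw [Finset.card_insert_of_notMem (by simp [ab, ac, ad]),
    Finset.card_eq_three.2 ⟨b, c, d, bc, bd, cd, rfl⟩]

theorem sorted_four {S : Finset ℕ} (h : S.card = 4) :
    ∃ i j k l, i < j ∧ j < k ∧ k < l ∧ S = {i, j, k, l} := by
  have e := S.orderIsoOfFin h
  let f : Fin 4 → ℕ := fun a => (e a : ℕ)
  have hf : StrictMono f := fun a b hab => e.strictMono hab
  refine ⟨f 0, f 1, f 2, f 3, hf (by decide), hf (by decide), hf (by decide), ?_⟩
  ext x
  simp only [Finset.mem_insert, Finset.mem_singleton]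
  constructor
  · intro hx
    obtain ⟨a, ha⟩ := e.surjective ⟨x, hx⟩
    have hx' : x = f a := by
      show x = (e a : ℕ)
      rw [ha]
    rw [hx']
    fin_cases a
    · exact Or.inl rfl
    · exact Or.inr (Or.inl rfl)
    · exact Or.inr (Or.inr (Or.inl rfl))
    · exact Or.inr (Or.inr (Or.inr rfl))
  · rintro (rfl | rfl | rfl | rfl)
    · exact (e 0).2
    · exact (e 1).2
    · exact (e 2).2
    · exact (e 3).2

/-- every edge has two apexes -/
theorem Sph.quad {T : Finset (Finset V)} (h : Sph T) {e : Finset V} (he : e ∈ edges T) :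
    ∃ v w p q, e = {v, w} ∧ Quad T v w p q := by
  obtain ⟨t, ht, t', ht', htt, het, het', -⟩ := h.two_tri he
  obtain ⟨v, w, hvw, rfl⟩ := Finset.card_eq_two.1 (mem_edges.1 he).1
  have apex : ∀ t ∈ T, ({v, w} : Finset V) ⊆ t → ∃ p, p ≠ v ∧ p ≠ w ∧ t = {v, w, p} := by
    intro t ht het
    have h3 := h.card3 t ht
    obtain ⟨p, hp⟩ : (t \ {v, w}).Nonempty := by
      rw [← Finset.card_pos, Finset.card_sdiff_of_subset het, h3, Finset.card_pair hvw]
      norm_num
    rw [Finset.mem_sdiff, Finset.mem_insert, Finset.mem_singleton, not_or] at hp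
    refine ⟨p, hp.2.1, hp.2.2, ?_⟩
    rw [tri_eq h3 (Finset.card_pair hvw) het hp.1 (by simp [hp.2.1, hp.2.2]), ← tri_rot]
  obtain ⟨p, pv, pw, rfl⟩ := apex t ht het
  obtain ⟨q, qv, qw, rfl⟩ := apex t' ht' het'
  exact ⟨v, w, p, q, rfl, hvw, fun h' => htt (by rw [h']), pv, pw, qv, qw, ht, ht'⟩

theorem Quad.uv {T : Finset (Finset V)} {v w p q : V} (h : Quad T v w p q) :
    ∀ z ∈ ({v, w, p, q} : Finset V), z ∈ uv T := by
  intro z hz
  simp only [Finset.mem_insert, Finset.mem_singleton] at hz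
  rcases hz with rfl | rfl | rfl | rfl
  · exact mem_uv_of_mem h.hp (by simp)
  · exact mem_uv_of_mem h.hp (by simp)
  · exact mem_uv_of_mem h.hp (by simp)
  · exact mem_uv_of_mem h.hq (by simp)

/-- the sorted ranks -/
theorem Can.sorted {T : Finset (Finset V)} {F₀ : Finset V} {rk : V → ℕ} (hc : Can T F₀ rk)
    {v w p q : V} (h : Quad T v w p q) : ∃ i j k l, i < j ∧ j < k ∧ k < l ∧ l < (uv T).card ∧
      ({rk v, rk w, rk p, rk q} : Finset ℕ) = {i, j, k, l} := by
  have h4 : (({v, w, p, q} : Finset V).image rk).card = 4 := by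
    rw [Finset.card_image_of_injOn, four_card h.vw h.pv.symm h.qv.symm h.pw.symm h.qw.symm h.pq]
    intro x hx y hy hxy
    exact hc.inj x (h.uv x hx) y (h.uv y hy) hxy
  have h5 : ({v, w, p, q} : Finset V).image rk = {rk v, rk w, rk p, rk q} := by
    simp only [Finset.image_insert, Finset.image_singleton]
  rw [h5] at h4
  obtain ⟨i, j, k, l, hij, hjk, hkl, hS⟩ := sorted_four h4
  refine ⟨i, j, k, l, hij, hjk, hkl, ?_, hS⟩
  have : l ∈ ({rk v, rk w, rk p, rk q} : Finset ℕ) := by rw [hS]; simp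
  rw [← h5] at this
  obtain ⟨x, hx, rfl⟩ := Finset.mem_image.1 this
  exact hc.lt x (h.uv x hx)

theorem Can.snd {T : Finset (Finset V)} {F₀ : Finset V} {rk : V → ℕ} (hc : Can T F₀ rk)
    {v w p q : V} (h : Quad T v w p q) {i j k l : ℕ} (hij : i < j) (hjk : j < k) (hkl : k < l)
    (hS : ({rk v, rk w, rk p, rk q} : Finset ℕ) = {i, j, k, l}) {x : V} (hx : x ∈ uv T)
    (hxk : rk x = k) : Snd rk x v w p q := by
  have h5 : ({v, w, p, q} : Finset V).image rk = {i, j, k, l} := by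
    rw [← hS]
    simp only [Finset.image_insert, Finset.image_singleton]
  have hk : k ∈ ({v, w, p, q} : Finset V).image rk := by rw [h5]; simp
  have hl : l ∈ ({v, w, p, q} : Finset V).image rk := by rw [h5]; simp
  obtain ⟨x', hx', hxk'⟩ := Finset.mem_image.1 hk
  obtain ⟨y, hy, hyl⟩ := Finset.mem_image.1 hl
  have hxx : x' = x := hc.inj x' (h.uv x' hx') x hx (by omega)
  subst hxx
  refine ⟨hx', y, hy, by omega, ?_⟩
  intro z hz hzy
  have hz' : rk z ∈ ({i, j, k, l} : Finset ℕ) := by rw [← h5]; exact Finset.mem_image_of_mem _ hz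
  simp only [Finset.mem_insert, Finset.mem_singleton] at hz'
  rcases hz' with h6 | h6 | h6 | h6
  · omega
  · omega
  · omega
  · exact absurd (hc.inj z (h.uv z hz) y (h.uv y hy) (by omega)) hzy

theorem pair_rk {rk : V → ℕ} {a b c d : V} (h : ({a, b} : Finset V) = {c, d}) :
    ({rk a, rk b} : Finset ℕ) = {rk c, rk d} := by
  have h1 : ({a, b} : Finset V).image rk = ({c, d} : Finset V).image rk := by rw [h]
  simpa only [Finset.image_insert, Finset.image_singleton] using h1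

/-- the classes in terms of the ranks -/
theorem Can.cls_nat {T : Finset (Finset V)} (h : Sph T) {F₀ : Finset V} {rk : V → ℕ}
    (hF₀ : F₀ ∈ T) (hc : Can T F₀ rk) (hdeg : ∀ x ∈ uv T, rk x ≤ 1 → 4 ≤ (star T x).card)
    {c : ℕ} (h2 : 2 ≤ c) (hN : c + 2 ≤ (uv T).card) :
    ∃ wL wR zL zR : ℕ, wL ≠ wR ∧ wL < c ∧ wR < c ∧ c < zL ∧ c < zR ∧ zL < (uv T).card ∧
      zR < (uv T).card ∧
      ((∀ v w p q : V, Quad T v w p q → ¬ ((uv T).card ≤ rk v + 2 ∧ (uv T).card ≤ rk w + 2) →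
          ∀ i j l : ℕ, i < j → j < c → c < l →
            ({rk v, rk w, rk p, rk q} : Finset ℕ) = {i, j, c, l} →
            (({rk v, rk w} : Finset ℕ) = {c, wL} ∨ ({rk v, rk w} : Finset ℕ) = {c, wR} ∨
              ({rk v, rk w} : Finset ℕ) = {wL, zL} ∨ ({rk v, rk w} : Finset ℕ) = {wR, zR})) ∨
        (∀ v w p q : V, Quad T v w p q → ¬ ((uv T).card ≤ rk v + 2 ∧ (uv T).card ≤ rk w + 2) →
          ∀ i j l : ℕ, i < j → j < c → c < l →
            ({rk v, rk w, rk p, rk q} : Finset ℕ) = {i, j, c, l} →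
            (({rk v, rk w} : Finset ℕ) = {c, wL} ∨ ({rk v, rk w} : Finset ℕ) = {c, wR} ∨
              ({rk v, rk w} : Finset ℕ) = {wL, wR}))) := by
  obtain ⟨x, hx, rfl⟩ := hc.surj (r := c) (by omega)
  obtain ⟨wL, hwL, wR, hwR, zL, hzL, zR, hzR, hLR, h3, h4, h5, h6, h7⟩ :=
    hc.cls h hF₀ hdeg hx h2 hN
  refine ⟨rk wL, rk wR, rk zL, rk zR, fun h' => hLR (hc.inj wL hwL wR hwR h'), h3, h4, h5, h6,
    hc.lt zL hzL, hc.lt zR hzR, ?_⟩
  rcases h7 with h7 | h7
  · left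
    intro v w p q hQ htop i j l hij hjc hcl hS
    have hs := hc.snd hQ hij hjc hcl hS hx rfl
    rcases h7 v w p q hQ.vw hQ.pq hQ.pv hQ.pw hQ.qv hQ.qw hQ.hp hQ.hq htop hs with
      h8 | h8 | h8 | h8
    · exact Or.inl (pair_rk h8)
    · exact Or.inr (Or.inl (pair_rk h8))
    · exact Or.inr (Or.inr (Or.inl (pair_rk h8)))
    · exact Or.inr (Or.inr (Or.inr (pair_rk h8)))
  · right
    intro v w p q hQ htop i j l hij hjc hcl hS
    have hs := hc.snd hQ hij hjc hcl hS hx rfl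
    rcases h7 v w p q hQ.vw hQ.pq hQ.pv hQ.pw hQ.qv hQ.qw hQ.hp hQ.hq htop hs with
      h8 | h8 | h8
    · exact Or.inl (pair_rk h8)
    · exact Or.inr (Or.inl (pair_rk h8))
    · exact Or.inr (Or.inr (pair_rk h8))

/-- everything with functions on the edges -/
theorem Can.nat_form {T : Finset (Finset V)} (h : Sph T) {F₀ : Finset V} {rk : V → ℕ}
    (hF₀ : F₀ ∈ T) (hc : Can T F₀ rk) (hdeg : ∀ x ∈ uv T, rk x ≤ 1 → 4 ≤ (star T x).card) :
    ∃ (v w p q : Finset V → V) (i j k l : Finset V → ℕ),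
      (∀ e ∈ edges T, e = {v e, w e} ∧ Quad T (v e) (w e) (p e) (q e) ∧ i e < j e ∧ j e < k e ∧
        k e < l e ∧ l e < (uv T).card ∧
        ({rk (v e), rk (w e), rk (p e), rk (q e)} : Finset ℕ) = {i e, j e, k e, l e}) ∧
      (∀ e ∈ edges T, ∀ e' ∈ edges T,
        ({rk (v e), rk (w e)} : Finset ℕ) = {rk (v e'), rk (w e')} → e = e') ∧
      ∀ c : ℕ, 2 ≤ c → c + 2 ≤ (uv T).card → ∃ wL wR zL zR : ℕ, wL ≠ wR ∧ wL < c ∧ wR < c ∧
        c < zL ∧ c < zR ∧ zL < (uv T).card ∧ zR < (uv T).card ∧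
        ((∀ e ∈ edges T, ¬ ((uv T).card ≤ rk (v e) + 2 ∧ (uv T).card ≤ rk (w e) + 2) → k e = c →
            (({rk (v e), rk (w e)} : Finset ℕ) = {c, wL} ∨
              ({rk (v e), rk (w e)} : Finset ℕ) = {c, wR} ∨
              ({rk (v e), rk (w e)} : Finset ℕ) = {wL, zL} ∨
              ({rk (v e), rk (w e)} : Finset ℕ) = {wR, zR})) ∨
          (∀ e ∈ edges T, ¬ ((uv T).card ≤ rk (v e) + 2 ∧ (uv T).card ≤ rk (w e) + 2) → k e = c →
            (({rk (v e), rk (w e)} : Finset ℕ) = {c, wL} ∨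
              ({rk (v e), rk (w e)} : Finset ℕ) = {c, wR} ∨
              ({rk (v e), rk (w e)} : Finset ℕ) = {wL, wR}))) := by
  classical
  have hV : Nonempty V := by
    have h3 := h.card3 F₀ hF₀
    obtain ⟨x, -⟩ := Finset.card_pos.1 (by omega : 0 < F₀.card)
    exact ⟨x⟩
  have key : ∀ e : Finset V, ∃ (s : (V × V × V × V) × (ℕ × ℕ × ℕ × ℕ)), e ∈ edges T →
      e = {s.1.1, s.1.2.1} ∧ Quad T s.1.1 s.1.2.1 s.1.2.2.1 s.1.2.2.2 ∧ s.2.1 < s.2.2.1 ∧
        s.2.2.1 < s.2.2.2.1 ∧ s.2.2.2.1 < s.2.2.2.2 ∧ s.2.2.2.2 < (uv T).card ∧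
        ({rk s.1.1, rk s.1.2.1, rk s.1.2.2.1, rk s.1.2.2.2} : Finset ℕ) =
          {s.2.1, s.2.2.1, s.2.2.2.1, s.2.2.2.2} := by
    intro e
    by_cases he : e ∈ edges T
    · obtain ⟨v, w, p, q, hvw, hQ⟩ := h.quad he
      obtain ⟨i, j, k, l, hij, hjk, hkl, hl, hS⟩ := hc.sorted hQ
      exact ⟨⟨⟨v, w, p, q⟩, ⟨i, j, k, l⟩⟩, fun _ => ⟨hvw, hQ, hij, hjk, hkl, hl, hS⟩⟩
    · obtain ⟨x⟩ := hV
      exact ⟨⟨⟨x, x, x, x⟩, ⟨0, 0, 0, 0⟩⟩, fun h' => absurd h' he⟩
  choose s hs using key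
  refine ⟨fun e => (s e).1.1, fun e => (s e).1.2.1, fun e => (s e).1.2.2.1,
    fun e => (s e).1.2.2.2, fun e => (s e).2.1, fun e => (s e).2.2.1, fun e => (s e).2.2.2.1,
    fun e => (s e).2.2.2.2, fun e he => hs e he, ?_, ?_⟩
  · intro e he e' he' heq
    obtain ⟨h1, h2, -⟩ := hs e he
    obtain ⟨h1', h2', -⟩ := hs e' he'
    rw [h1, h1']
    have hmem : ∀ z ∈ ({(s e).1.1, (s e).1.2.1} : Finset V), z ∈ uv T := by
      intro z hz
      apply h2.uv z
      simp only [Finset.mem_insert, Finset.mem_singleton] at hz ⊢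
      rcases hz with hz | hz
      · exact Or.inl hz
      · exact Or.inr (Or.inl hz)
    have hmem' : ∀ z ∈ ({(s e').1.1, (s e').1.2.1} : Finset V), z ∈ uv T := by
      intro z hz
      apply h2'.uv z
      simp only [Finset.mem_insert, Finset.mem_singleton] at hz ⊢
      rcases hz with hz | hz
      · exact Or.inl hz
      · exact Or.inr (Or.inl hz)
    have hi : ({(s e).1.1, (s e).1.2.1} : Finset V).image rk =
        ({(s e').1.1, (s e').1.2.1} : Finset V).image rk := by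
      simpa only [Finset.image_insert, Finset.image_singleton] using heq
    ext z
    constructor
    · intro hz
      have h5 : rk z ∈ ({(s e').1.1, (s e').1.2.1} : Finset V).image rk := by
        rw [← hi]; exact Finset.mem_image_of_mem _ hz
      obtain ⟨z', hz', hzz⟩ := Finset.mem_image.1 h5
      rw [← hc.inj z' (hmem' z' hz') z (hmem z hz) hzz]
      exact hz'
    · intro hz
      have h5 : rk z ∈ ({(s e).1.1, (s e).1.2.1} : Finset V).image rk := by
        rw [hi]; exact Finset.mem_image_of_mem _ hz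
      obtain ⟨z', hz', hzz⟩ := Finset.mem_image.1 h5
      rw [← hc.inj z' (hmem z' hz') z (hmem' z hz) hzz]
      exact hz'
  · intro c h2 hN
    obtain ⟨wL, wR, zL, zR, h3, h4, h5, h6, h7, h8, h9, h10⟩ := hc.cls_nat h hF₀ hdeg h2 hN
    refine ⟨wL, wR, zL, zR, h3, h4, h5, h6, h7, h8, h9, ?_⟩
    rcases h10 with h10 | h10
    · left
      intro e he htop hk
      obtain ⟨-, hQ, hij, hjk, hkl, -, hS⟩ := hs e he
      have hk' : (s e).2.2.2.1 = c := hk
      rw [hk'] at hjk hkl hS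
      exact h10 _ _ _ _ hQ htop _ _ _ hij hjk hkl hS
    · right
      intro e he htop hk
      obtain ⟨-, hQ, hij, hjk, hkl, -, hS⟩ := hs e he
      have hk' : (s e).2.2.2.1 = c := hk
      rw [hk'] at hjk hkl hS
      exact h10 _ _ _ _ hQ htop _ _ _ hij hjk hkl hS

end Pool.Agent.Spl2
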