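import Pool.Agent.Spl2.SphDeg

/-!
# Regions

Paper proof.  `inn`: `Sph.inside`: the edges of `bdry D` are contained in `B` (`bd`), so they do not contain
`x`.  `edge_in`: `e ∉ bdry D` (`bd`), so `tdeg D e` is even and not `0`, `tdeg T e = 2`, so both triangles of
`T` at `e` are in `D`.
`sub_of`: let `E = X \ D`.  Claim `bdry E ⊆ bdry D`.  Let `e ∈ bdry E`, `e ∉ bdry D`; then `e ∈ edges T`,
`e ⊄ B` (`bd`).  If a triangle of `D` contains `e`, all triangles at `e` are in `D` (`edge_in`) and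
`tdeg E e = 0`, contradiction.  Otherwise `tdeg D e = 0`, so `tdeg E e = tdeg X e` is odd, `e ∈ bdry X`,
`e ∈ edges D`, contradiction.  `bdry E` is a cycle (`isCyc_bdry`), so by `cyc` it is `∅` or `bdry D`.  If
`∅`: `E = ∅` or `E = T` (`H2`); `E = T` is impossible since `F₀ ∉ X`.  If `bdry D`: `E = D` or `E = T \ D`
(`uniq`); `E = D` gives `D = ∅`; `E = T \ D` contains `F₀`.
`closure`: `H1` gives `X ⊆ T` with `bdry X = C`; if `F₀ ∈ X` replace it by `T \ X` (`bdry_compl`); `sub_of`.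
`eq_of`: `bdry X` is `∅` or `bdry D`; `∅` gives `X = ∅` or `X = T ∋ F₀`; `bdry D` gives `X = D` or
`X = T \ D ∋ F₀`.
`reg0_face`: `bdry (T.erase F₀) = bdry {F₀}` (`bdry_compl`), which consists of the pairs in `F₀`
(`mem_bdry_single`); an even subset has `≥ 3` elements (`three_le_card_of_isCyc`) or is empty.
`reg0_Q`: the pairs of `{a,b,c,d}` which are edges of `T` are `ab, bc, cd, da` (`IsQ`); `qb_sub`, `qb_vdeg`,
`qb_card`; `D ≠ ∅` since its boundary is not empty.
-/

set_option autoImplicit false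

namespace Pool.Agent.Spl2

open Finset Pool.Agent.Spl1

variable {V : Type*} [Fintype V] [DecidableEq V]

theorem Reg0.inn {T : Finset (Finset V)} (h : Sph T) {F₀ : Finset V} {D : Finset (Finset V)}
    {B : Finset V} (hR : Reg0 T F₀ D B) {x : V} (hx : x ∉ B) (hn : (star D x).Nonempty) :
    star T x ⊆ D := by
  refine h.inside hR.sub (fun e he hxe => hx ?_) hn
  exact ((hR.bd e).1 he).2 hxe

theorem Reg0.edge_in {T : Finset (Finset V)} (h : Sph T) {F₀ : Finset V}
    {D : Finset (Finset V)} {B : Finset V} (hR : Reg0 T F₀ D B) {e : Finset V}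
    (he : e ∈ edges D) (heB : ¬ e ⊆ B) : ∀ t ∈ T, e ⊆ t → t ∈ D := by
  intro t ht het
  have h1 : e ∈ edges T := edges_mono hR.sub he
  have h2 := h.two e h1
  have hc := (mem_edges.1 he).1
  have h3 : ¬ Odd (tdeg D e) := fun h4 => heB ((hR.bd e).1 (mem_bdry.2 ⟨hc, h4⟩)).2
  have h5 : 0 < tdeg D e := by
    obtain ⟨-, s, hs, hes⟩ := mem_edges.1 he
    exact Finset.card_pos.2 ⟨s, Finset.mem_filter.2 ⟨hs, hes⟩⟩
  rw [Nat.not_odd_iff_even] at h3
  have h6 : D.filter (fun t => e ⊆ t) = T.filter (fun t => e ⊆ t) := by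
    apply Finset.eq_of_subset_of_card_le (Finset.filter_subset_filter _ hR.sub)
    change tdeg T e ≤ tdeg D e
    obtain ⟨k, hk⟩ := h3
    omega
  have h7 : t ∈ T.filter (fun t => e ⊆ t) := Finset.mem_filter.2 ⟨ht, het⟩
  rw [← h6] at h7
  exact (Finset.mem_filter.1 h7).1

theorem Reg0.sub_of {T : Finset (Finset V)} (h : Sph T) {F₀ : Finset V}
    {D : Finset (Finset V)} {B : Finset V} (hR : Reg0 T F₀ D B) {X : Finset (Finset V)}
    (hX : X ⊆ T) (hF : F₀ ∉ X) (hb : bdry X ⊆ edges D) : X ⊆ D := by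
  have hE : X \ D ⊆ T := Finset.sdiff_subset.trans hX
  have hcl : bdry (X \ D) ⊆ bdry D := by
    intro e he
    by_contra hcon
    have h1 : e ∈ edges T := bdry_subset_edges hE he
    have h2 : ¬ e ⊆ B := fun h3 => hcon ((hR.bd e).2 ⟨h1, h3⟩)
    obtain ⟨hc, hodd⟩ := mem_bdry.1 he
    by_cases h3 : e ∈ edges D
    · have h4 := hR.edge_in h h3 h2
      obtain ⟨t, ht⟩ := Finset.card_pos.1 (show 0 < ((X \ D).filter (fun t => e ⊆ t)).card from
        hodd.pos)
      obtain ⟨ht1, ht2⟩ := Finset.mem_filter.1 ht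
      obtain ⟨ht3, ht4⟩ := Finset.mem_sdiff.1 ht1
      exact ht4 (h4 t (hX ht3) ht2)
    · have h4 : tdeg (X \ D) e = tdeg X e := by
        unfold tdeg
        congr 1
        ext t
        rw [Finset.mem_filter, Finset.mem_filter, Finset.mem_sdiff]
        constructor
        · rintro ⟨⟨h5, -⟩, h6⟩
          exact ⟨h5, h6⟩
        · rintro ⟨h5, h6⟩
          exact ⟨⟨h5, fun h7 => h3 (mem_edges.2 ⟨hc, t, h7, h6⟩)⟩, h6⟩
      rw [h4] at hodd
      exact h3 (hb (mem_bdry.2 ⟨hc, hodd⟩))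
  have hcyc : IsCyc (bdry (X \ D)) := isCyc_bdry fun t ht => h.card3 t (hE ht)
  rcases hR.cyc _ hcl hcyc with h1 | h1
  · rcases h.H2 _ hE h1 with h2 | h2
    · exact Finset.sdiff_eq_empty_iff_subset.1 h2
    · exfalso
      have h3 := hR.hF
      rw [← h2] at h3
      exact hF (Finset.mem_sdiff.1 h3).1
  · exfalso
    rcases h.uniq hE hR.sub h1 with h2 | h2
    · obtain ⟨t, ht⟩ := hR.ne
      have h3 := ht
      rw [← h2] at h3
      exact (Finset.mem_sdiff.1 h3).2 ht
    · have h3 : F₀ ∈ T \ D := Finset.mem_sdiff.2 ⟨hR.hF, hR.nF⟩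
      rw [← h2] at h3
      exact hF (Finset.mem_sdiff.1 h3).1

theorem Reg0.closure {T : Finset (Finset V)} (h : Sph T) {F₀ : Finset V}
    {D : Finset (Finset V)} {B : Finset V} (hR : Reg0 T F₀ D B) {C : Finset (Finset V)}
    (hC : C ⊆ edges D) (hcyc : IsCyc C) : ∃ X ⊆ D, bdry X = C := by
  obtain ⟨X, hX, hb⟩ := h.H1 C (hC.trans (edges_mono hR.sub)) hcyc
  by_cases h1 : F₀ ∈ X
  · have h2 : bdry (T \ X) = C := by rw [h.bdry_compl hX, hb]
    refine ⟨T \ X, hR.sub_of h Finset.sdiff_subset (fun h3 => (Finset.mem_sdiff.1 h3).2 h1) ?_, h2⟩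
    rw [h2]
    exact hC
  · refine ⟨X, hR.sub_of h hX h1 ?_, hb⟩
    rw [hb]
    exact hC

theorem Reg0.eq_of {T : Finset (Finset V)} (h : Sph T) {F₀ : Finset V}
    {D : Finset (Finset V)} {B : Finset V} (hR : Reg0 T F₀ D B) {X : Finset (Finset V)}
    (hX : X ⊆ D) (hne : X.Nonempty) (hb : bdry X ⊆ bdry D) : X = D := by
  have hXT : X ⊆ T := hX.trans hR.sub
  have hnF : F₀ ∉ X := fun h1 => hR.nF (hX h1)
  have hcyc : IsCyc (bdry X) := isCyc_bdry fun t ht => h.card3 t (hXT ht)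
  rcases hR.cyc _ hb hcyc with h1 | h1
  · exfalso
    rcases h.H2 _ hXT h1 with h2 | h2
    · exact Finset.nonempty_iff_ne_empty.1 hne h2
    · exact hnF (h2 ▸ hR.hF)
  · rcases h.uniq hXT hR.sub h1 with h2 | h2
    · exact h2
    · exfalso
      have h3 : F₀ ∈ T \ D := Finset.mem_sdiff.2 ⟨hR.hF, hR.nF⟩
      rw [← h2] at h3
      exact hnF h3

theorem reg0_face {T : Finset (Finset V)} (h : Sph T) (h4 : 4 < T.card) {F₀ : Finset V}
    (hF₀ : F₀ ∈ T) : Reg0 T F₀ (T.erase F₀) F₀ := by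
  have h3 := h.card3 F₀ hF₀
  have hbd : bdry (T.erase F₀) = bdry {F₀} := by
    rw [Finset.erase_eq]
    exact h.bdry_compl (Finset.singleton_subset_iff.2 hF₀)
  obtain ⟨x, y, z, hxy, hxz, hyz, hF⟩ := Finset.card_eq_three.1 h3
  have hb2 : bdry (T.erase F₀) = {{x, y}, {y, z}, {x, z}} := by
    rw [hbd, hF, bdry_single hxy hyz hxz]
  have n1 : ({x, y} : Finset V) ≠ {y, z} := by
    intro he
    have h1 : x ∈ ({y, z} : Finset V) := by rw [← he]; simp
    simp only [Finset.mem_insert, Finset.mem_singleton] at h1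
    tauto
  have n2 : ({x, y} : Finset V) ≠ {x, z} := by
    intro he
    have h1 : y ∈ ({x, z} : Finset V) := by rw [← he]; simp
    simp only [Finset.mem_insert, Finset.mem_singleton] at h1
    have := hxy.symm
    tauto
  have n3 : ({y, z} : Finset V) ≠ {x, z} := by
    intro he
    have h1 : y ∈ ({x, z} : Finset V) := by rw [← he]; simp
    simp only [Finset.mem_insert, Finset.mem_singleton] at h1
    have := hxy.symm
    tauto
  have m1 : ({x, y} : Finset V) ∉ ({{y, z}, {x, z}} : Finset (Finset V)) := by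
    simp only [Finset.mem_insert, Finset.mem_singleton, not_or]
    exact ⟨n1, n2⟩
  have m2 : ({y, z} : Finset V) ∉ ({{x, z}} : Finset (Finset V)) := by
    rw [Finset.mem_singleton]
    exact n3
  have hcard : (bdry (T.erase F₀)).card = 3 := by
    rw [hb2, Finset.card_insert_of_notMem m1, Finset.card_insert_of_notMem m2,
      Finset.card_singleton]
  refine ⟨Finset.erase_subset _ _, ?_, hF₀, Finset.notMem_erase _ _, ?_, ?_, ?_, ?_, Or.inl h3⟩
  · rw [← Finset.card_pos, Finset.card_erase_of_mem hF₀]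
    omega
  · intro e
    rw [hbd, mem_bdry_single h3, mem_edges]
    constructor
    · rintro ⟨h1, h2⟩
      exact ⟨⟨h1, F₀, hF₀, h2⟩, h2⟩
    · rintro ⟨⟨h1, -⟩, h2⟩
      exact ⟨h1, h2⟩
  · intro C hC hcyc
    rcases C.eq_empty_or_nonempty with h0 | h0
    · exact Or.inl h0
    · right
      apply Finset.eq_of_subset_of_card_le hC
      rw [hcard]
      exact three_le_card_of_isCyc hcyc h0
  · intro b hb
    rw [hb2]
    unfold vdeg
    rw [Finset.card_filter, Finset.sum_insert m1, Finset.sum_insert m2, Finset.sum_singleton]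
    rw [hF] at hb
    simp only [Finset.mem_insert, Finset.mem_singleton] at hb ⊢
    have := hxy.symm
    have := hyz.symm
    have := hxz.symm
    rcases hb with rfl | rfl | rfl
    · simp [*]
    · simp [*]
    · simp [*]
  · rw [hcard, h3]

theorem reg0_Q {T : Finset (Finset V)} (h : Sph T) {F₀ : Finset V} (hF₀ : F₀ ∈ T)
    {D : Finset (Finset V)} (hD : D ⊆ T) (hnF : F₀ ∉ D) {a b c d : V} (hQ : IsQ T a b c d)
    (hb : bdry D = qb a b c d) : Reg0 T F₀ D {a, b, c, d} := by
  have hne : D.Nonempty := by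
    rw [Finset.nonempty_iff_ne_empty]
    rintro rfl
    have h1 : (bdry (∅ : Finset (Finset V))).card = 4 := by
      rw [hb]
      exact qb_card hQ.ab hQ.bc hQ.cd hQ.da hQ.ac hQ.bd
    rw [bdry_empty, Finset.card_empty] at h1
    omega
  have hc4 : ({a, b, c, d} : Finset V).card = 4 := by
    have := hQ.da.symm
    rw [Finset.card_insert_of_notMem, Finset.card_insert_of_notMem, Finset.card_pair hQ.cd]
    · simp [hQ.bc, hQ.bd]
    · simp [hQ.ab, hQ.ac, this]
  refine ⟨hD, hne, hF₀, hnF, ?_, ?_, ?_, ?_, Or.inr hc4⟩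
  · intro e
    rw [hb, mem_qb]
    constructor
    · rintro (rfl | rfl | rfl | rfl)
      · exact ⟨hQ.eab, by intro x hx; simp only [Finset.mem_insert, Finset.mem_singleton] at hx ⊢; tauto⟩
      · exact ⟨hQ.ebc, by intro x hx; simp only [Finset.mem_insert, Finset.mem_singleton] at hx ⊢; tauto⟩
      · exact ⟨hQ.ecd, by intro x hx; simp only [Finset.mem_insert, Finset.mem_singleton] at hx ⊢; tauto⟩
      · exact ⟨hQ.eda, by intro x hx; simp only [Finset.mem_insert, Finset.mem_singleton] at hx ⊢; tauto⟩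
    · rintro ⟨h1, h2⟩
      obtain ⟨x, y, hxy, rfl⟩ := Finset.card_eq_two.1 (mem_edges.1 h1).1
      have hx := h2 (show x ∈ ({x, y} : Finset V) by simp)
      have hy := h2 (show y ∈ ({x, y} : Finset V) by simp)
      simp only [Finset.mem_insert, Finset.mem_singleton] at hx hy
      rcases hx with rfl | rfl | rfl | rfl <;> rcases hy with rfl | rfl | rfl | rfl
      · exact absurd rfl hxy
      · exact Or.inl rfl
      · exact absurd h1 hQ.nac
      · exact Or.inr (Or.inr (Or.inr (Finset.pair_comm _ _)))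
      · exact Or.inl (Finset.pair_comm _ _)
      · exact absurd rfl hxy
      · exact Or.inr (Or.inl rfl)
      · exact absurd h1 hQ.nbd
      · exact absurd (edge_swap h1) hQ.nac
      · exact Or.inr (Or.inl (Finset.pair_comm _ _))
      · exact absurd rfl hxy
      · exact Or.inr (Or.inr (Or.inl rfl))
      · exact Or.inr (Or.inr (Or.inr rfl))
      · exact absurd (edge_swap h1) hQ.nbd
      · exact Or.inr (Or.inr (Or.inl (Finset.pair_comm _ _)))
      · exact absurd rfl hxy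
  · intro C hC hcyc
    rw [hb] at hC ⊢
    exact qb_sub hQ.ab hQ.bc hQ.cd hQ.da hQ.ac hQ.bd hC hcyc
  · intro x hx
    rw [hb]
    exact qb_vdeg hQ.ab hQ.bc hQ.cd hQ.da hQ.ac hQ.bd hx
  · rw [hc4, hb, qb_card hQ.ab hQ.bc hQ.cd hQ.da hQ.ac hQ.bd]

end Pool.Agent.Spl2
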