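import Pool.Agent.Spl2.Util

/-!
# Equations at short edges and at common neighbours

`o` is a vertex at position `0`, `v` a vertex at position `ε H`, `Z` a common neighbour at position `L`.
-/

set_option autoImplicit false

namespace Pool.Agent.Spl2

open Finset Pool.Agent.Spl1 Polynomial

variable {R : Type*} [CommRing R]

theorem twin [CharP R 2] {wZ wo wv : Fin 6 → R} {L H : R × R} {ε : R}
    (h1 : cu wZ L L = ad wZ L + ad wo L)
    (h2 : cu wZ (L + ε • H) (L + ε • H) = ad wZ (L + ε • H) + ad wv (L + ε • H)) :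
    ad (wv + wo) L = ε * cu wZ L H + ε ^ 2 * (cu wZ H L + ad wZ H + ad wv H) +
      ε ^ 3 * cu wZ H H := by
  rw [cu_sum, ad_add, ad_add, cu_smul_right, cu_smul_left, cu_smul_left, cu_smul_right,
    ad_smul, ad_smul] at h2
  rw [ad_addw]
  linear_combination (norm := (ring_nf; try reduce_mod_char!)) h1 + h2

theorem short [IsDomain R] {wo wv : Fin 6 → R} {H : R × R} {ε : R} (hε : ε ≠ 0)
    (h1 : cu wo (ε • H) (ε • H) = ad wo (ε • H) + ad wv (ε • H)) :
    ad (wv + wo) H = ε * cu wo H H := by
  rw [cu_smul_left, cu_smul_right, ad_smul, ad_smul] at h1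
  rw [ad_addw]
  apply mul_left_cancel₀ (pow_ne_zero 2 hε)
  linear_combination -h1

/-- the two cubic forms at a short edge agree -/
theorem short_cu [IsDomain R] {wo wv : Fin 6 → R} {H : R × R} {ε : R} (hε : ε ≠ 0)
    (h1 : cu wo (ε • H) (ε • H) = ad wo (ε • H) + ad wv (ε • H))
    (h2 : cu wv (ε • H) (ε • H) = ad wv (ε • H) + ad wo (ε • H)) :
    cu wv H H = cu wo H H := by
  have h3 := short hε h1
  have h4 := short hε h2
  rw [ad_addw] at h3 h4
  apply mul_left_cancel₀ hε
  linear_combination h3 - h4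

/-- the constant coefficient of `w` -/
noncomputable def c0 {K : Type*} [Field K] (w : Fin 6 → K[X]) : Fin 6 → K := fun i => (w i).coeff 0

theorem c0_add {K : Type*} [Field K] (w w' : Fin 6 → K[X]) : c0 (w + w') = c0 w + c0 w' := by
  funext i
  simp [c0]

theorem cc_cu {K : Type*} [Field K] (w : Fin 6 → K[X]) (x y : K × K) :
    (constantCoeff : K[X] →+* K) (cu w (cK x) (cK y)) = cu (c0 w) x y := cu_cK w x y

theorem cc_ad {K : Type*} [Field K] (w : Fin 6 → K[X]) (x : K × K) :
    (constantCoeff : K[X] →+* K) (ad w (cK x)) = ad (c0 w) x := ad_cK w x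

theorem cc_br {K : Type*} [Field K] (x y : K × K) :
    (constantCoeff : K[X] →+* K) (br (cK x) (cK y)) = br x y := by
  rw [br_cK]; simp

theorem cc_X {K : Type*} [Field K] : (constantCoeff : K[X] →+* K) X = 0 := by simp

theorem cc_C {K : Type*} [Field K] (a : K) : (constantCoeff : K[X] →+* K) (C a) = a := by simp

end Pool.Agent.Spl2
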