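import Pool.Agent.Spl2.Open

/-!
# Auxiliary facts: cubic forms with given zeros, directions, constants in `K[X]`
-/

set_option autoImplicit false

namespace Pool.Agent.Spl2

open Finset Pool.Agent.Spl1 Polynomial

/-- the cubic form `[x,a][x,b][x,c]` -/
def cw {R : Type*} [CommRing R] (a b c : R × R) : Fin 6 → R :=
  ![a.2 * b.2 * c.2, a.2 * b.2 * c.1 + a.2 * b.1 * c.2 + a.1 * b.2 * c.2,
    a.2 * b.1 * c.1 + a.1 * b.2 * c.1 + a.1 * b.1 * c.2, a.1 * b.1 * c.1, 0, 0]

theorem cu_cw {R : Type*} [CommRing R] [CharP R 2] (a b c x y : R × R) :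
    cu (cw a b c) x y = br y a * br x b * br x c + br x a * br y b * br x c +
      br x a * br x b * br y c := by
  simp only [cu, cw, br, Matrix.cons_val_zero, Matrix.cons_val_one, Matrix.cons_val]
  (rw [← sub_eq_zero]; ring_nf; try reduce_mod_char!)

theorem cu_cw_self {R : Type*} [CommRing R] [CharP R 2] (a b c x : R × R) :
    cu (cw a b c) x x = br x a * br x b * br x c := by
  rw [cu_cw]; (rw [← sub_eq_zero]; ring_nf; try reduce_mod_char!)

theorem ad_cw {R : Type*} [CommRing R] (a b c x : R × R) : ad (cw a b c) x = 0 := by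
  simp [ad, cw]

/-- a cubic form with four zeros vanishes -/
theorem cu_four {K : Type*} [Field K] [CharP K 2] {k : Fin 6 → K} {a b c d : K × K}
    (hab : br a b ≠ 0) (hca : br c a ≠ 0) (hcb : br c b ≠ 0) (hda : br d a ≠ 0)
    (hdb : br d b ≠ 0) (hcd : br c d ≠ 0) (ha : cu k a a = 0) (hb : cu k b b = 0)
    (hc : cu k c c = 0) (hd : cu k d d = 0) : k 0 = 0 ∧ k 1 = 0 ∧ k 2 = 0 ∧ k 3 = 0 := by
  have key : ∀ x : K × K, br x a ≠ 0 → br x b ≠ 0 → cu k x x = 0 →
      br x b * cu k a b = br x a * cu k b a := by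
    intro x hxa hxb hx
    have h1 := cu_pl k a b x x
    have h2 := cu_pr k a b a x
    have h3 := cu_pr k a b b x
    rw [ha, mul_zero] at h2
    rw [hb, mul_zero] at h3
    rw [hx, mul_zero] at h1
    have h4 : br x b * br x a * (br x b * cu k a b + br x a * cu k b a) = 0 := by
      linear_combination (norm := (ring_nf; try reduce_mod_char!)) (br a b) * h1 + (br x b ^ 2) * h2 + (br x a ^ 2) * h3
    have h5 := (mul_eq_zero.1 h4).resolve_left (mul_ne_zero hxb hxa)
    linear_combination (norm := (ring_nf; try reduce_mod_char!)) h5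
  have kc := key c hca hcb hc
  have kd := key d hda hdb hd
  have hpl := br_pl c d a b
  have h6 : (br a b * br c d) * cu k a b = 0 := by
    linear_combination (norm := (ring_nf; try reduce_mod_char!)) (br d a) * kc + (br c a) * kd + (cu k a b) * hpl
  have h7 : (br a b * br c d) * cu k b a = 0 := by
    linear_combination (norm := (ring_nf; try reduce_mod_char!)) (br d b) * kc + (br c b) * kd + (cu k b a) * hpl
  have h8 := (mul_eq_zero.1 h6).resolve_left (mul_ne_zero hab hcd)
  have h9 := (mul_eq_zero.1 h7).resolve_left (mul_ne_zero hab hcd)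
  refine cu_eq_zero hab ?_ ?_
  · intro y
    have h2 := cu_pr k a b a y
    rw [ha, h8, mul_zero, mul_zero, sub_zero] at h2
    exact (mul_eq_zero.1 h2).resolve_left hab
  · intro y
    have h2 := cu_pr k a b b y
    rw [hb, h9, mul_zero, mul_zero, sub_zero] at h2
    exact (mul_eq_zero.1 h2).resolve_left hab

/-- a direction different from finitely many -/
theorem exists_dir {K : Type*} [Field K] [Infinite K] (S : Finset (K × K))
    (hS : ∀ l ∈ S, l ≠ 0) : ∃ η : K × K, ∀ l ∈ S, br η l ≠ 0 := by
  classical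
  obtain ⟨t, ht⟩ := Infinite.exists_notMem_finset (S.image (fun l => l.2 / l.1))
  refine ⟨(1, t), ?_⟩
  intro l hl h
  simp only [br, one_mul] at h
  by_cases h1 : l.1 = 0
  · rw [h1, mul_zero, sub_zero] at h
    exact hS l hl (Prod.ext h1 h)
  · apply ht
    rw [Finset.mem_image]
    refine ⟨l, hl, ?_⟩
    rw [div_eq_iff h1]
    linear_combination h

theorem br_ne_left {R : Type*} [CommRing R] {a b : R × R} (h : br a b ≠ 0) : a ≠ 0 := by
  rintro rfl
  apply h
  simp [br]

theorem br_ne_right {R : Type*} [CommRing R] {a b : R × R} (h : br a b ≠ 0) : b ≠ 0 := by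
  rintro rfl
  apply h
  simp [br]

/-- constants -/
noncomputable def cK {K : Type*} [Field K] (a : K × K) : K[X] × K[X] := (C a.1, C a.2)

theorem cK_sub {K : Type*} [Field K] (a b : K × K) : cK a - cK b = cK (a - b) := by
  simp [cK, Prod.ext_iff]

theorem cK_add {K : Type*} [Field K] (a b : K × K) : cK a + cK b = cK (a + b) := by
  simp [cK, Prod.ext_iff]

theorem br_cK {K : Type*} [Field K] (a b : K × K) : br (cK a) (cK b) = C (br a b) := by
  simp [cK, br]

theorem cu_cK {K : Type*} [Field K] (w : Fin 6 → K[X]) (x y : K × K) :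
    (cu w (cK x) (cK y)).coeff 0 = cu (fun i => (w i).coeff 0) x y := by
  have h := cu_map (Polynomial.constantCoeff : K[X] →+* K) w (cK x) (cK y)
  simp only [cK, constantCoeff_apply, coeff_C_zero] at h ⊢
  exact h.symm

theorem ad_cK {K : Type*} [Field K] (w : Fin 6 → K[X]) (x : K × K) :
    (ad w (cK x)).coeff 0 = ad (fun i => (w i).coeff 0) x := by
  have h := ad_map (Polynomial.constantCoeff : K[X] →+* K) w (cK x)
  simp only [cK, constantCoeff_apply, coeff_C_zero] at h ⊢
  exact h.symm

end Pool.Agent.Spl2
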